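import Pool.Agent.PFlow.StmtsX1
import Pool.Agent.PFlow.StmtsX2
import Pool.Agent.PFlow.E.JINT

/-!
# The momentum density is integrable in the exterior region (module XJINT)
-/

open MeasureTheory Filter Topology
open scoped ContDiff

namespace Pool.Agent.PFlow

open Pool.Agent.PenroseSph

namespace MXJINT

open MJINT (isClosed_cAnn isCompact_cAnn jlen_nonneg int_inv4 bdry)

theorem isOpen_outside (δ : ℝ) : IsOpen (Outside δ) :=
  isOpen_lt continuous_const continuous_norm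

theorem mem_outside {δ : ℝ} (hδ : 0 < δ) {x : E3} (hx : 1 ≤ ‖x‖) : x ∈ Outside δ := by
  change 1 - δ < ‖x‖
  linarith

theorem cAnn_sub {δ : ℝ} (hδ : 0 < δ) {a b : ℝ} (ha : 1 ≤ a) : cAnn a b ⊆ Outside δ :=
  fun _ hx => mem_outside hδ (le_trans ha hx.1)

theorem jlen_cont {U : Set E3} (hU : IsOpen U) {g h : TensorField} (hg : MetricOn U g)
    (hh : TensorOn U h) : ContinuousOn (jlen g h) U := by
  intro x hx
  have h1 : ContinuousAt (fun x => ev (g x)⁻¹ (fun i => momentumDensity g h i x)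
      (fun i => momentumDensity g h i x)) x := by
    unfold ev
    refine tendsto_finsetSum _ fun i _ => tendsto_finsetSum _ fun j _ => ?_
    exact (((MCF.inv_smooth hU hg hx i j).continuousAt).mul
      (MCF.mom_smooth hU hg hh hx i).continuousAt).mul (MCF.mom_smooth hU hg hh hx j).continuousAt
  exact (Real.continuous_sqrt.continuousAt.comp h1).continuousWithinAt

theorem linR_cont {U : Set E3} (hU : IsOpen U) {g : TensorField} (hg : MetricOn U g) :
    ContinuousOn (linR g) U := by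
  intro x hx
  have h1 : ContinuousAt (fun x => linR g x) x := by
    unfold linR
    refine tendsto_finsetSum _ fun i _ => tendsto_finsetSum _ fun j _ => ?_
    exact ((MCF.pd_smooth (MCF.pd_smooth (MCF.g_smooth hU hg hx i j) j) i).continuousAt).sub
      (MCF.pd_smooth (MCF.pd_smooth (MCF.g_smooth hU hg hx i i) j) j).continuousAt
  exact h1.continuousWithinAt

/-- The pointwise inequality far out. -/
theorem point {g h : TensorField} {C C' : ℝ} {x : E3} (hC : 0 < C)
    (h7 : jlen g h x ≤ energyDensity g h x) (hx0 : 0 < ‖x‖) (hx : 100 * C ≤ ‖x‖)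
    (hS : |scalarCurvature g x * volDen g x - linR g x| ≤ C' / ‖x‖ ^ 4)
    (hd : 0 < (g x).det)
    (hb : ∀ i j, |g x i j - (1 : Bil) i j| ≤ C / ‖x‖ ∧ |h x i j| ≤ C / ‖x‖ ^ 2) :
    jlen g h x ≤ linR g x + (C' + 700 * C ^ 2) * (1 / ‖x‖ ^ 4) := by
  have hη : C / ‖x‖ ≤ 1 / 100 := by
    rw [div_le_div_iff₀ hx0 (by norm_num)]
    linarith
  have h1 := (ESCAL.inv_bound hη fun i j => (hb i j).1).1
  have h2 : |volDen g x - 1| ≤ 4 * (C / ‖x‖) :=
    ESCAL.sqrt_bound (ESCAL.det_bound hη fun i j => (hb i j).1) hd.le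
  have hv := abs_le.1 h2
  have hv1 : 96 / 100 ≤ volDen g x := by linarith
  have hv2 : volDen g x ≤ 104 / 100 := by linarith
  set T := C / ‖x‖ ^ 2 with hT
  have hT0 : 0 ≤ T := by positivity
  have h3 : |traceWith g h x| ≤ 3 * (3 * (2 * T)) :=
    ESCAL.s3 fun i => ESCAL.s3 fun j => ESCAL.p2 (h1 i j) (hb i j).2
  have h4 : |normSqWith g h x| ≤ 3 * (3 * (3 * (3 * (2 * 2 * T * T)))) :=
    ESCAL.s3 fun i => ESCAL.s3 fun j => ESCAL.s3 fun k => ESCAL.s3 fun l =>
      ESCAL.p2 (ESCAL.p2 (ESCAL.p2 (h1 i k) (h1 j l)) (hb i j).2) (hb k l).2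
  have h5 : traceWith g h x ^ 2 ≤ 324 * T ^ 2 := by
    have := pow_le_pow_left₀ (abs_nonneg _) h3 2
    rw [sq_abs] at this
    nlinarith
  have h6 : -(324 * T ^ 2) ≤ normSqWith g h x := by
    have := (abs_le.1 h4).1
    nlinarith
  have h8 : scalarCurvature g x * volDen g x ≤ linR g x + C' / ‖x‖ ^ 4 := by
    linarith [(abs_le.1 hS).2]
  have h9 : T ^ 2 = C ^ 2 * (1 / ‖x‖ ^ 4) := by
    rw [hT]
    field_simp
  have hj := jlen_nonneg g h x
  have h10 : jlen g h x ≤ 2 * volDen g x * jlen g h x := by nlinarith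
  have h11 : 2 * volDen g x * jlen g h x ≤ 2 * volDen g x * energyDensity g h x :=
    mul_le_mul_of_nonneg_left h7 (by linarith)
  have h12 : 2 * volDen g x * energyDensity g h x =
      scalarCurvature g x * volDen g x + volDen g x * (traceWith g h x ^ 2 - normSqWith g h x) := by
    unfold energyDensity
    ring
  have h13 : volDen g x * (traceWith g h x ^ 2 - normSqWith g h x) ≤ 104 / 100 * (648 * T ^ 2) := by
    have h14 : traceWith g h x ^ 2 - normSqWith g h x ≤ 648 * T ^ 2 := by linarith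
    calc volDen g x * (traceWith g h x ^ 2 - normSqWith g h x)
        ≤ volDen g x * (648 * T ^ 2) := mul_le_mul_of_nonneg_left h14 (by linarith)
      _ ≤ 104 / 100 * (648 * T ^ 2) := mul_le_mul_of_nonneg_right hv2 (by positivity)
  have h15 : 104 / 100 * (648 * T ^ 2) ≤ 700 * T ^ 2 := by nlinarith [sq_nonneg T]
  have h16 : C' / ‖x‖ ^ 4 = C' * (1 / ‖x‖ ^ 4) := by ring
  rw [h16] at h8
  rw [h9] at h15 h13
  nlinarith

end MXJINT

open MJINT (isClosed_cAnn isCompact_cAnn jlen_nonneg int_inv4 bdry) in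
/-- XJINT: the momentum density is integrable. -/
theorem XJINT (hXAFD : Stmt_XAFD) (hSCAL : Stmt_SCAL) (hDIVG : Stmt_DIVG) : Stmt_XJINT := by
  intro g h δ₀ hδ hg hh hdecay hdec
  obtain ⟨C, hC, hd1, -⟩ := hXAFD g h δ₀ hδ hg hh hdecay
  obtain ⟨C', r₀, hC', hr₀, hS⟩ := hSCAL C
  have hU : IsOpen (Outside δ₀) := MXJINT.isOpen_outside δ₀
  set r₁ := max (max r₀ (100 * C)) 2 with hr₁
  have hr₁2 : 2 ≤ r₁ := le_max_right _ _
  have hr₁1 : 1 ≤ r₁ := by linarith
  have hr₁a : r₀ ≤ r₁ := le_trans (le_max_left _ _) (le_max_left _ _)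
  have hr₁b : 100 * C ≤ r₁ := le_trans (le_max_right _ _) (le_max_left _ _)
  have hjint : ∀ a b : ℝ, 1 ≤ a → IntegrableOn (jlen g h) (cAnn a b) := fun a b ha =>
    ((MXJINT.jlen_cont hU hg hh).mono (MXJINT.cAnn_sub hδ ha)).integrableOn_compact
      (isCompact_cAnn a b)
  have hlint : ∀ a b : ℝ, 1 ≤ a → IntegrableOn (linR g) (cAnn a b) := fun a b ha =>
    ((MXJINT.linR_cont hU hg).mono (MXJINT.cAnn_sub hδ ha)).integrableOn_compact
      (isCompact_cAnn a b)
  have hpt : ∀ x : E3, r₁ ≤ ‖x‖ →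
      jlen g h x ≤ linR g x + (C' + 700 * C ^ 2) * (1 / ‖x‖ ^ 4) := by
    intro x hx
    have hx1 : 1 ≤ ‖x‖ := le_trans hr₁1 hx
    have hx0 : x ∈ Outside δ₀ := MXJINT.mem_outside hδ hx1
    have hs := hS g x (le_trans hr₁a hx)
      (by
        filter_upwards [hU.mem_nhds hx0] with y hy
        have h1 := (hg.posDef y hy).1
        exact Matrix.isHermitian_iff_isSymm.1 h1)
      (fun i j => MCF.g_smooth hU hg hx0 i j)
      (fun i j => ⟨(hd1 x hx1 i j).1, (hd1 x hx1 i j).2.1, (hd1 x hx1 i j).2.2.1⟩)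
    have h7 : jlen g h x ≤ energyDensity g h x := by
      have h8 := hdec x (by linarith)
      unfold surplus at h8
      linarith
    exact MXJINT.point hC h7 (by linarith) (le_trans hr₁b hx) hs.1
      (hg.posDef x hx0).det_pos (fun i j => ⟨(hd1 x hx1 i j).1, (hd1 x hx1 i j).2.2.2.1⟩)
  have hpd : ∀ x : E3, 1 ≤ ‖x‖ → ∀ i j k, |pd k (fun y => g y i j) x| ≤ C / ‖x‖ ^ 2 :=
    fun x hx i j k => (hd1 x hx i j).2.1 k
  set σ := ((volume : Measure E3).toSphere).real Set.univ with hσ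
  set J := ∫ x in {x : E3 | 1 ≤ ‖x‖}, 1 / ‖x‖ ^ 4 with hJ
  refine ⟨(∫ x in cAnn 1 r₁, jlen g h x) + (36 * C * σ + (C' + 700 * C ^ 2) * J), ?_⟩
  intro R hR
  -- the outer part
  have hout : ∀ b : ℝ, r₁ ≤ b → ∫ x in cAnn r₁ b, jlen g h x ≤
      36 * C * σ + (C' + 700 * C ^ 2) * J := by
    intro b hb
    have hr₁0 : 0 < r₁ := by linarith
    have hsub : cAnn r₁ b ⊆ {x : E3 | 1 ≤ ‖x‖} := fun x hx => le_trans hr₁1 hx.1
    have hin : ∀ x ∈ cAnn r₁ b, x ∈ Outside δ₀ := fun x hx => MXJINT.cAnn_sub hδ hr₁1 hx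
    have h4 : IntegrableOn (fun x : E3 => 1 / ‖x‖ ^ 4) (cAnn r₁ b) := int_inv4.mono_set hsub
    have h1 : ∫ x in cAnn r₁ b, jlen g h x ≤
        ∫ x in cAnn r₁ b, (linR g x + (C' + 700 * C ^ 2) * (1 / ‖x‖ ^ 4)) :=
      setIntegral_mono_on (hjint r₁ b hr₁1) ((hlint r₁ b hr₁1).add (h4.const_mul _))
        (isClosed_cAnn r₁ b).measurableSet fun x hx => hpt x hx.1
    have h2 : ∫ x in cAnn r₁ b, (linR g x + (C' + 700 * C ^ 2) * (1 / ‖x‖ ^ 4)) =
        (∫ x in cAnn r₁ b, linR g x) + (C' + 700 * C ^ 2) * ∫ x in cAnn r₁ b, 1 / ‖x‖ ^ 4 := by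
      rw [integral_add (hlint r₁ b hr₁1) (h4.const_mul _), integral_const_mul]
    have h3 : ∫ x in cAnn r₁ b, 1 / ‖x‖ ^ 4 ≤ J :=
      setIntegral_mono_set int_inv4 (Eventually.of_forall fun x => by positivity)
        (LE.le.eventuallyLE hsub)
    have h5 : ∫ x in cAnn r₁ b, linR g x =
        ∫ x in cAnn r₁ b, ∑ i, pd i (fun y => MDIVA.VV g y i) x := by
      refine setIntegral_congr_fun (isClosed_cAnn r₁ b).measurableSet fun x hx => ?_
      exact (MDIVA.div_VV fun i j => MCF.g_smooth hU hg (hin x hx) i j).symm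
    have h6 := hDIVG (MDIVA.VV g) r₁ b hr₁0 hb
      (fun x hx i => MDIVA.contDiffAt_VV
        (fun i j => MCF.g_smooth hU hg (hin x hx) i j) i)
    have h7 := abs_le.1 (bdry hpd (le_trans hr₁1 hb))
    have h8 := abs_le.1 (bdry hpd hr₁1)
    have h9 : ∫ x in cAnn r₁ b, linR g x ≤ 36 * C * σ := by
      rw [h5, h6]
      linarith [h7.2, h8.1]
    have h10 : (C' + 700 * C ^ 2) * (∫ x in cAnn r₁ b, 1 / ‖x‖ ^ 4) ≤ (C' + 700 * C ^ 2) * J :=
      mul_le_mul_of_nonneg_left h3 (by positivity)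
    rw [h2] at h1
    linarith
  have hout0 : 0 ≤ 36 * C * σ + (C' + 700 * C ^ 2) * J :=
    le_trans (integral_nonneg fun x => jlen_nonneg g h x) (hout r₁ le_rfl)
  have hsplit := integral_inter_add_sdiff (μ := volume) (f := jlen g h) (s := cAnn 1 R)
    (isClosed_cAnn 1 r₁).measurableSet (hjint 1 R le_rfl)
  rw [← hsplit]
  refine add_le_add ?_ ?_
  · exact setIntegral_mono_set (hjint 1 r₁ le_rfl)
      (Eventually.of_forall fun x => jlen_nonneg g h x)
      (LE.le.eventuallyLE Set.inter_subset_right)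
  · by_cases hRr : r₁ ≤ R
    · refine le_trans ?_ (hout R hRr)
      refine setIntegral_mono_set (hjint r₁ R hr₁1)
        (Eventually.of_forall fun x => jlen_nonneg g h x)
        (LE.le.eventuallyLE fun x hx => ?_)
      refine ⟨?_, hx.1.2⟩
      by_contra hc
      exact hx.2 ⟨hx.1.1, (not_le.1 hc).le⟩
    · have hempty : cAnn 1 R \ cAnn 1 r₁ = ∅ := by
        ext x
        constructor
        · rintro ⟨h1, h2⟩
          exact h2 ⟨h1.1, le_trans h1.2 (not_le.1 hRr).le⟩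
        · intro hx
          exact absurd hx (Set.notMem_empty x)
      rw [hempty, setIntegral_empty]
      exact hout0

end Pool.Agent.PFlow
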