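import Pool.Agent.PFlow.StmtsX1
import Pool.Agent.PFlow.M_JD

/-!
# XCURV: the leading parts of the scalar curvature and of the momentum density
-/

open MeasureTheory Filter Topology
open scoped ContDiff

namespace Pool.Agent.PFlow

open Pool.Agent.PenroseSph

namespace XXCURV

open MJD (Pt)
open Pool.Agent.PenroseConvex (CovR.contDiffAt_pd CovR.pd_comm)

/-! ### Elementary bounds -/

lemma s3 {f : Fin 3 → ℝ} {B : ℝ} (h : ∀ l, |f l| ≤ B) : |∑ l, f l| ≤ 3 * B := by
  refine (Finset.abs_sum_le_sum_abs _ _).trans ?_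
  rw [Fin.sum_univ_three]
  linarith [h 0, h 1, h 2]

lemma p2 {a b A B : ℝ} (ha : |a| ≤ A) (hb : |b| ≤ B) : |a * b| ≤ A * B := by
  rw [abs_mul]
  exact mul_le_mul ha hb (abs_nonneg _) ((abs_nonneg _).trans ha)

lemma a2 {a b A B : ℝ} (ha : |a| ≤ A) (hb : |b| ≤ B) : |a + b| ≤ A + B :=
  (abs_add_le a b).trans (add_le_add ha hb)

lemma m2 {a b A B : ℝ} (ha : |a| ≤ A) (hb : |b| ≤ B) : |a - b| ≤ A + B :=
  (abs_sub a b).trans (add_le_add ha hb)

lemma half {a A : ℝ} (ha : |a| ≤ A) : |1 / 2 * a| ≤ A / 2 := by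
  rw [abs_mul, abs_of_pos (by norm_num : (0 : ℝ) < 1 / 2)]
  linarith

/-- Entries of the inverse of an elliptic matrix. -/
lemma inv_le {g : TensorField} {x : E3} (h : Pt g x) {Λ : ℝ} (hΛ : 0 < Λ)
    (he : ∀ v : Cov, (∑ i, v i ^ 2) ≤ Λ * ev (g x) v v) (i j : Fin 3) : |(g x)⁻¹ i j| ≤ Λ := by
  have h1 := he fun i => (g x)⁻¹ i j
  have h2 : ev (g x) (fun i => (g x)⁻¹ i j) (fun i => (g x)⁻¹ i j) = (g x)⁻¹ j j := by
    unfold ev
    have h3 : ∀ i, ∑ k, g x i k * (g x)⁻¹ i j * (g x)⁻¹ k j =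
        (g x)⁻¹ i j * if i = j then 1 else 0 := by
      intro i
      rw [← h.mul_inv i j, Finset.mul_sum]
      refine Finset.sum_congr rfl fun k _ => ?_
      ring
    simp only [h3]
    simp
  rw [h2] at h1
  have h4 : ∀ i, (g x)⁻¹ i j ^ 2 ≤ ∑ i, (g x)⁻¹ i j ^ 2 := fun i =>
    Finset.single_le_sum (f := fun i => (g x)⁻¹ i j ^ 2) (fun i _ => sq_nonneg _)
      (Finset.mem_univ i)
  have h5 : (g x)⁻¹ j j ≤ Λ := by
    by_contra hcon
    push Not at hcon
    have h6 := (h4 j).trans h1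
    nlinarith
  have h7 : (g x)⁻¹ i j ^ 2 ≤ Λ ^ 2 := by
    have := (h4 i).trans h1
    nlinarith
  exact abs_le_of_sq_le_sq h7 hΛ.le

section

variable {g : TensorField} {x : E3} {Λ : ℝ}

/-- the second derivatives -/
noncomputable def D2 (g : TensorField) (x : E3) (k l i j : Fin 3) : ℝ :=
  pd k (pd l (fun y => g y i j)) x

/-- `∂_i g_jl + ∂_j g_il - ∂_l g_ij` -/
noncomputable def T (g : TensorField) (i j l : Fin 3) (y : E3) : ℝ :=
  pd i (fun y => g y j l) y + pd j (fun y => g y i l) y - pd l (fun y => g y i j) y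

/-- its derivative -/
noncomputable def T' (g : TensorField) (x : E3) (m i j l : Fin 3) : ℝ :=
  D2 g x m i j l + D2 g x m j i l - D2 g x m l i j

/-- The hypotheses at a point. -/
structure Hyp (g : TensorField) (x : E3) (Λ : ℝ) : Prop where
  pt : Pt g x
  smooth : ∀ i j, ContDiffAt ℝ ∞ (fun y => g y i j) x
  pos : 0 < Λ
  bA : ∀ i j, |(g x)⁻¹ i j| ≤ Λ
  b0 : ∀ i j, |g x i j| ≤ Λ
  b1 : ∀ k i j, |pd k (fun y => g y i j) x| ≤ Λ

variable (h : Hyp g x Λ)

include h

lemma Hyp.diffPd (k i j : Fin 3) : DifferentiableAt ℝ (pd k fun y => g y i j) x :=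
  (CovR.contDiffAt_pd (n := 1) (h.smooth i j) (by norm_cast)
    k).differentiableAt (by norm_num)

lemma Hyp.diffT (i j l : Fin 3) : DifferentiableAt ℝ (T g i j l) x :=
  ((h.diffPd i j l).add (h.diffPd j i l)).sub (h.diffPd l i j)

lemma Hyp.pdT (m i j l : Fin 3) : pd m (T g i j l) x = T' g x m i j l := by
  have e : T g i j l = fun y => (pd i (fun y => g y j l) y + pd j (fun y => g y i l) y) -
      pd l (fun y => g y i j) y := rfl
  have h1 : DifferentiableAt ℝ
      (fun y => pd i (fun y => g y j l) y + pd j (fun y => g y i l) y) x :=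
    (h.diffPd i j l).add (h.diffPd j i l)
  rw [e, pd_sub h1 (h.diffPd l i j), pd_add (h.diffPd i j l) (h.diffPd j i l)]
  rfl

lemma Hyp.bT (i j l : Fin 3) : |T g i j l x| ≤ 3 * Λ := by
  have := m2 (a2 (h.b1 i j l) (h.b1 j i l)) (h.b1 l i j)
  unfold T
  linarith

omit h in
lemma chr_eq (k i j : Fin 3) (y : E3) :
    christoffel g k i j y = 1 / 2 * ∑ l, (g y)⁻¹ k l * T g i j l y := rfl

lemma Hyp.bG (k i j : Fin 3) : |christoffel g k i j x| ≤ 5 * Λ ^ 2 := by
  rw [chr_eq]
  have h1 : ∀ l, |(g x)⁻¹ k l * T g i j l x| ≤ Λ * (3 * Λ) := fun l =>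
    p2 (h.bA k l) (h.bT i j l)
  have := half (s3 h1)
  nlinarith [sq_nonneg Λ]

lemma Hyp.bA' (m k l : Fin 3) : |pd m (fun y => (g y)⁻¹ k l) x| ≤ 30 * Λ ^ 3 := by
  rw [h.pt.pd_inv, abs_neg]
  have h1 : ∀ a, |christoffel g k m a x * (g x)⁻¹ a l + christoffel g l m a x * (g x)⁻¹ k a| ≤
      5 * Λ ^ 2 * Λ + 5 * Λ ^ 2 * Λ := fun a =>
    a2 (p2 (h.bG _ _ _) (h.bA _ _)) (p2 (h.bG _ _ _) (h.bA _ _))
  have := s3 h1
  linarith

lemma Hyp.pdG (m k i j : Fin 3) : pd m (christoffel g k i j) x =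
    1 / 2 * ∑ l, ((g x)⁻¹ k l * T' g x m i j l + T g i j l x * pd m (fun y => (g y)⁻¹ k l) x) := by
  have e : christoffel g k i j = fun y => 1 / 2 * ∑ l, (g y)⁻¹ k l * T g i j l y := by
    funext y
    exact chr_eq k i j y
  have hd : ∀ l, DifferentiableAt ℝ (fun y => (g y)⁻¹ k l * T g i j l y) x := fun l =>
    (h.pt.diffInv k l).mul (h.diffT i j l)
  rw [e, pd_const_mul _ (DifferentiableAt.fun_sum fun l _ => hd l), pd_sum _ _ fun l _ => hd l]
  congr 1
  refine Finset.sum_congr rfl fun l _ => ?_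
  rw [pd_mul (h.pt.diffInv k l) (h.diffT i j l), h.pdT]

/-- the derivative of the Christoffel symbol up to quadratic terms -/
lemma Hyp.bG' (m k i j : Fin 3) : |pd m (christoffel g k i j) x
    - 1 / 2 * ∑ l, (g x)⁻¹ k l * T' g x m i j l| ≤ 135 * Λ ^ 4 := by
  have e : pd m (christoffel g k i j) x - 1 / 2 * ∑ l, (g x)⁻¹ k l * T' g x m i j l =
      1 / 2 * ∑ l, T g i j l x * pd m (fun y => (g y)⁻¹ k l) x := by
    rw [h.pdG, Finset.sum_add_distrib]
    ring
  rw [e]
  have h1 : ∀ l, |T g i j l x * pd m (fun y => (g y)⁻¹ k l) x| ≤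
      3 * Λ * (30 * Λ ^ 3) := fun l => p2 (h.bT _ _ _) (h.bA' _ _ _)
  have h2 := half (s3 h1)
  refine h2.trans (le_of_eq ?_)
  ring

/-- the leading part of the Ricci curvature -/
noncomputable def R0 (g : TensorField) (x : E3) (i j : Fin 3) : ℝ :=
  ∑ k, (1 / 2 * (∑ l, (g x)⁻¹ k l * T' g x k i j l) - 1 / 2 * ∑ l, (g x)⁻¹ k l * T' g x j i k l)

omit h in
lemma ricci_eq (i j : Fin 3) : ricci g i j x =
    ∑ k, (pd k (christoffel g k i j) x - pd j (christoffel g k i k) x
    + ∑ l, (christoffel g k k l x * christoffel g l i j x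
      - christoffel g k j l x * christoffel g l i k x)) := rfl

lemma Hyp.bRic (i j : Fin 3) : |ricci g i j x - R0 g x i j| ≤ 1260 * Λ ^ 4 := by
  have e : ricci g i j x - R0 g x i j =
      ∑ k, (((pd k (christoffel g k i j) x - 1 / 2 * ∑ l, (g x)⁻¹ k l * T' g x k i j l) -
        (pd j (christoffel g k i k) x - 1 / 2 * ∑ l, (g x)⁻¹ k l * T' g x j i k l)) +
      ∑ l, (christoffel g k k l x * christoffel g l i j x
      - christoffel g k j l x * christoffel g l i k x)) := by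
    rw [ricci_eq, R0, ← Finset.sum_sub_distrib]
    refine Finset.sum_congr rfl fun k _ => ?_
    ring
  rw [e]
  have h1 : ∀ k : Fin 3,
      |((pd k (christoffel g k i j) x - 1 / 2 * ∑ l, (g x)⁻¹ k l * T' g x k i j l) -
        (pd j (christoffel g k i k) x - 1 / 2 * ∑ l, (g x)⁻¹ k l * T' g x j i k l)) +
      ∑ l, (christoffel g k k l x * christoffel g l i j x
      - christoffel g k j l x * christoffel g l i k x)| ≤
      (135 * Λ ^ 4 + 135 * Λ ^ 4) +
        3 * (5 * Λ ^ 2 * (5 * Λ ^ 2) + 5 * Λ ^ 2 * (5 * Λ ^ 2)) := fun k =>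
    a2 (m2 (h.bG' _ _ _ _) (h.bG' _ _ _ _)) (s3 fun l =>
      m2 (p2 (h.bG _ _ _) (h.bG _ _ _)) (p2 (h.bG _ _ _) (h.bG _ _ _)))
  refine (s3 h1).trans (le_of_eq ?_)
  ring

omit h in
lemma scal_eq : scalarCurvature g x = ∑ i, ∑ j, (g x)⁻¹ i j * ricci g i j x := rfl

lemma Hyp.bScal0 : |scalarCurvature g x - ∑ i, ∑ j, (g x)⁻¹ i j * R0 g x i j| ≤
    11340 * Λ ^ 5 := by
  have e : scalarCurvature g x - ∑ i, ∑ j, (g x)⁻¹ i j * R0 g x i j =
      ∑ i, ∑ j, (g x)⁻¹ i j * (ricci g i j x - R0 g x i j) := by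
    rw [scal_eq, ← Finset.sum_sub_distrib]
    refine Finset.sum_congr rfl fun i _ => ?_
    rw [← Finset.sum_sub_distrib]
    refine Finset.sum_congr rfl fun j _ => ?_
    ring
  rw [e]
  refine (s3 fun i => s3 fun j => p2 (h.bA i j) (h.bRic i j)).trans (le_of_eq ?_)
  ring

omit h in
/-- the algebraic identity -/
lemma alg (A : Fin 3 → Fin 3 → ℝ) (D : Fin 3 → Fin 3 → Fin 3 → Fin 3 → ℝ)
    (hA : ∀ i j, A i j = A j i) (hD : ∀ k l i j, D k l i j = D l k i j) :
    ∑ i, ∑ j, A i j * ∑ k, (1 / 2 * (∑ l, A k l * (D k i j l + D k j i l - D k l i j)) -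
      1 / 2 * ∑ l, A k l * (D j i k l + D j k i l - D j l i k)) =
    ∑ i, ∑ j, ∑ m, ∑ n, A i m * A j n * (D i j m n - D i m j n) := by
  set S : (Fin 3 → Fin 3 → Fin 3 → Fin 3 → ℝ) → ℝ := fun F => ∑ i, ∑ j, ∑ k, ∑ l, F i j k l
    with hS
  have c12 : ∀ F, S F = S fun i j k l => F j i k l := by
    intro F
    simp only [hS]
    rw [Finset.sum_comm]
  have c23 : ∀ F, S F = S fun i j k l => F i k j l := by
    intro F
    simp only [hS]
    refine Finset.sum_congr rfl fun i _ => ?_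
    rw [Finset.sum_comm]
  have c34 : ∀ F, S F = S fun i j k l => F i j l k := by
    intro F
    simp only [hS]
    refine Finset.sum_congr rfl fun i _ => Finset.sum_congr rfl fun j _ => ?_
    rw [Finset.sum_comm]
  have hadd : ∀ F F', S (fun i j k l => F i j k l + F' i j k l) = S F + S F' := by
    intro F F'
    simp only [hS, Finset.sum_add_distrib]
  have hsub : ∀ F F', S (fun i j k l => F i j k l - F' i j k l) = S F - S F' := by
    intro F F'
    simp only [hS, Finset.sum_sub_distrib]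
  have hmul : ∀ F, S (fun i j k l => 1 / 2 * F i j k l) = 1 / 2 * S F := by
    intro F
    simp only [hS, Finset.mul_sum]
  -- the six sums
  have eL : ∑ i, ∑ j, A i j * ∑ k, (1 / 2 * (∑ l, A k l * (D k i j l + D k j i l - D k l i j)) -
      1 / 2 * ∑ l, A k l * (D j i k l + D j k i l - D j l i k)) =
      1 / 2 * (S (fun i j k l => A i j * A k l * D k i j l)
        + S (fun i j k l => A i j * A k l * D k j i l)
        - S (fun i j k l => A i j * A k l * D k l i j)
        - S (fun i j k l => A i j * A k l * D j i k l)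
        - S (fun i j k l => A i j * A k l * D j k i l)
        + S (fun i j k l => A i j * A k l * D j l i k)) := by
    rw [← hadd, ← hsub, ← hsub, ← hsub, ← hadd, ← hmul]
    simp only [hS]
    refine Finset.sum_congr rfl fun i _ => Finset.sum_congr rfl fun j _ => ?_
    rw [Finset.mul_sum]
    refine Finset.sum_congr rfl fun k _ => ?_
    rw [mul_sub, Finset.mul_sum, Finset.mul_sum, Finset.mul_sum, Finset.mul_sum,
      ← Finset.sum_sub_distrib]
    refine Finset.sum_congr rfl fun l _ => ?_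
    ring
  have eR : ∑ i, ∑ j, ∑ m, ∑ n, A i m * A j n * (D i j m n - D i m j n) =
      S (fun i j k l => A i k * A j l * D i j k l) - S (fun i j k l => A i k * A j l * D i k j l) := by
    rw [← hsub]
    simp only [hS]
    refine Finset.sum_congr rfl fun i _ => Finset.sum_congr rfl fun j _ =>
      Finset.sum_congr rfl fun k _ => Finset.sum_congr rfl fun l _ => ?_
    ring
  have f1 : S (fun i j k l => A i j * A k l * D k i j l) =
      S (fun i j k l => A i k * A j l * D i j k l) := by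
    rw [c23]
    congr 1
    funext i j k l
    rw [hD j i]
  have f2 : S (fun i j k l => A i j * A k l * D k l i j) =
      S (fun i j k l => A i k * A j l * D i k j l) := by
    rw [c23, c12, c34]
    congr 1
    funext i j k l
    ring
  have f3 : S (fun i j k l => A i j * A k l * D j i k l) =
      S (fun i j k l => A i k * A j l * D i k j l) := by
    rw [c23]
    congr 1
    funext i j k l
    rw [hD k i]
  have f4 : S (fun i j k l => A i j * A k l * D j k i l) =
      S (fun i j k l => A i j * A k l * D k j i l) := by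
    congr 1
    funext i j k l
    rw [hD j k]
  have f5 : S (fun i j k l => A i j * A k l * D j l i k) =
      S (fun i j k l => A i k * A j l * D i j k l) := by
    rw [c12, c34, c23]
    congr 1
    funext i j k l
    rw [hA k i, hA l j]
  rw [eL, eR, f1, f2, f3, f4, f5]
  ring

lemma Hyp.D2_symm (k l i j : Fin 3) : D2 g x k l i j = D2 g x l k i j :=
  CovR.pd_comm ((h.smooth i j).of_le (by norm_cast)) k l

lemma Hyp.bScal : |scalarCurvature g x - ∑ i, ∑ j, ∑ m, ∑ n, (g x)⁻¹ i m * (g x)⁻¹ j n *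
    (D2 g x i j m n - D2 g x i m j n)| ≤ 11340 * Λ ^ 5 := by
  have h1 := h.bScal0
  have h2 := alg (fun i j => (g x)⁻¹ i j) (D2 g x) (fun i j => h.pt.inv_symm i j) h.D2_symm
  rw [← h2]
  exact h1

variable {k : TensorField} (hk : ∀ i j, DifferentiableAt ℝ (fun y => k y i j) x)
  (hb : ∀ i j, |k x i j| ≤ Λ)

include hk hb

omit hk in
lemma Hyp.bTr : |traceWith g k x| ≤ 9 * Λ ^ 2 := by
  unfold traceWith
  refine (s3 fun i => s3 fun j => p2 (h.bA i j) (hb i j)).trans (le_of_eq ?_)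
  ring

omit hb in
lemma Hyp.diffTr : DifferentiableAt ℝ (traceWith g k) x := by
  unfold traceWith
  exact DifferentiableAt.fun_sum fun i _ => DifferentiableAt.fun_sum fun j _ =>
    (h.pt.diffInv i j).fun_mul (hk i j)

omit hb in
lemma Hyp.pdTr (m : Fin 3) : pd m (traceWith g k) x =
    (∑ a, ∑ b, (g x)⁻¹ a b * pd m (fun y => k y a b) x) +
      ∑ a, ∑ b, k x a b * pd m (fun y => (g y)⁻¹ a b) x := by
  unfold traceWith
  rw [pd_sum _ _ fun a _ => DifferentiableAt.fun_sum fun b _ => (h.pt.diffInv a b).fun_mul (hk a b),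
    ← Finset.sum_add_distrib]
  refine Finset.sum_congr rfl fun a _ => ?_
  rw [pd_sum _ _ fun b _ => (h.pt.diffInv a b).fun_mul (hk a b), ← Finset.sum_add_distrib]
  refine Finset.sum_congr rfl fun b _ => ?_
  rw [pd_mul (h.pt.diffInv a b) (hk a b)]

lemma Hyp.bMom (j : Fin 3) : |momentumDensity g k j x - ∑ i, ∑ m, (g x)⁻¹ i m *
        (pd m (fun y => k y i j) x
          - (∑ a, ∑ b, (g x)⁻¹ a b * pd m (fun y => k y a b) x) * g x i j)| ≤
    9 * (Λ * (270 * Λ ^ 5 + 9 * Λ ^ 3 + 30 * Λ ^ 2 * (Λ + 9 * Λ ^ 3))) := by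
  have e : momentumDensity g k j x - ∑ i, ∑ m, (g x)⁻¹ i m *
        (pd m (fun y => k y i j) x
          - (∑ a, ∑ b, (g x)⁻¹ a b * pd m (fun y => k y a b) x) * g x i j) =
      ∑ i, ∑ m, (g x)⁻¹ i m * (-(((∑ a, ∑ b, k x a b * pd m (fun y => (g y)⁻¹ a b) x) * g x i j) +
        traceWith g k x * pd m (fun y => g y i j) x) -
        ∑ l, (christoffel g l m i x * (k x l j - traceWith g k x * g x l j) +
          christoffel g l m j x * (k x i l - traceWith g k x * g x i l))) := by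
    have e1 : momentumDensity g k j x = ∑ i, ∑ m, (g x)⁻¹ i m *
        (pd m (fun y => k y i j - traceWith g k y * g y i j) x -
        ∑ l, (christoffel g l m i x * (k x l j - traceWith g k x * g x l j) +
          christoffel g l m j x * (k x i l - traceWith g k x * g x i l))) := rfl
    rw [e1, ← Finset.sum_sub_distrib]
    refine Finset.sum_congr rfl fun i _ => ?_
    rw [← Finset.sum_sub_distrib]
    refine Finset.sum_congr rfl fun m _ => ?_
    rw [pd_sub (hk i j) ((h.diffTr hk).fun_mul (h.pt.diff i j)),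
      pd_mul (h.diffTr hk) (h.pt.diff i j), h.pdTr hk]
    ring
  rw [e]
  have hT : ∀ a b, |k x a b - traceWith g k x * g x a b| ≤ Λ + 9 * Λ ^ 2 * Λ := fun a b =>
    m2 (hb a b) (p2 (h.bTr hb) (h.b0 a b))
  have h1 : ∀ i m, |(-(((∑ a, ∑ b, k x a b * pd m (fun y => (g y)⁻¹ a b) x) * g x i j) +
        traceWith g k x * pd m (fun y => g y i j) x) -
        ∑ l, (christoffel g l m i x * (k x l j - traceWith g k x * g x l j) +
          christoffel g l m j x * (k x i l - traceWith g k x * g x i l)))| ≤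
      (3 * (3 * (Λ * (30 * Λ ^ 3))) * Λ + 9 * Λ ^ 2 * Λ) +
        3 * (5 * Λ ^ 2 * (Λ + 9 * Λ ^ 2 * Λ) + 5 * Λ ^ 2 * (Λ + 9 * Λ ^ 2 * Λ)) := by
    intro i m
    refine m2 ?_ (s3 fun l => a2 (p2 (h.bG _ _ _) (hT _ _)) (p2 (h.bG _ _ _) (hT _ _)))
    rw [abs_neg]
    exact a2 (p2 (s3 fun a => s3 fun b => p2 (hb a b) (h.bA' m a b)) (h.b0 i j))
      (p2 (h.bTr hb) (h.b1 m i j))
  refine (s3 fun i => s3 fun m => p2 (h.bA i m) (h1 i m)).trans (le_of_eq ?_)
  ring

end

end XXCURV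

theorem XCURV : Stmt_XCURV := by
  intro Λ hΛ
  refine ⟨11340 * Λ ^ 5 + 9 * (Λ * (270 * Λ ^ 5 + 9 * Λ ^ 3 + 30 * Λ ^ 2 * (Λ + 9 * Λ ^ 3))),
    by positivity, ?_⟩
  intro g k x hpos hsm _ hksm hell hb
  have hpt : MJD.Pt g x :=
    { diff := fun i j => (hsm i j).differentiableAt (by simp)
      symm := by
        filter_upwards [hpos] with y hy
        have h := hy.isHermitian
        rw [Matrix.IsHermitian, Matrix.conjTranspose_eq_transpose_of_trivial] at h
        exact h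
      pos := by
        filter_upwards [hpos] with y hy
        exact hy.det_pos }
  have H : XXCURV.Hyp g x Λ :=
    { pt := hpt
      smooth := hsm
      pos := hΛ
      bA := XXCURV.inv_le hpt hΛ hell
      b0 := fun i j => (hb i j).1
      b1 := fun m i j => (hb i j).2.1 m }
  constructor
  · refine H.bScal.trans ?_
    have : 0 ≤ 9 * (Λ * (270 * Λ ^ 5 + 9 * Λ ^ 3 + 30 * Λ ^ 2 * (Λ + 9 * Λ ^ 3))) := by positivity
    linarith
  · intro j
    refine (H.bMom (fun i j => (hksm i j).differentiableAt (by simp)) (fun i j => (hb i j).2.2)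
      j).trans ?_
    have : 0 ≤ 11340 * Λ ^ 5 := by positivity
    linarith

end Pool.Agent.PFlow
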