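import Pool.Agent.PFlow.StmtsX2

/-!
# (XABS) Assembly of the structure `Abs` for exterior regions
-/

open MeasureTheory Filter Topology
open scoped ContDiff ENNReal

namespace Pool.Agent.PFlow

open Pool.Agent.PenroseSph

namespace XABSaux

/-- Integrability over the regions between two levels. -/
theorem between {P : ParX} {D : DatX} {f : E3 → ℝ} (h : LvlIntX P D f) :
    ∀ s s', P.eps / 4 / 4 < s → s < s' → s' < D.sM P →
      IntegrableOn f (D.Om ∩ {x | s ≤ D.w P x ∧ D.w P x ≤ s'}) := by
  intro s s' _ _ h3
  refine (h s' h3).mono_set ?_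
  rintro x ⟨hx, _, hx2⟩
  exact ⟨hx, hx2⟩

end XABSaux

/-- XABS: the abstract facts. -/
theorem XABS (hXSETW : Stmt_XSETW) (hXABSI : Stmt_XABSI) (hXABSM : Stmt_XABSM)
    (hXXWO : Stmt_XXWO) (hXABSX : Stmt_XABSX) (hXABSW : Stmt_XABSW) (hXABSF : Stmt_XABSF) :
    Stmt_XABS := by
  intro P
  obtain ⟨B, hB, hO⟩ := hXXWO P
  refine ⟨B, hB, fun D hD => ?_⟩
  obtain ⟨-, -, -, -, -, -, hmw, -, -, hpos, -⟩ := hXSETW P D hD
  obtain ⟨h1, h2, h3, h4, h5, -, h7, -, h8⟩ := hXABSI P D hD
  exact
    { measOmega := by
        have h1 : IsOpen {x : E3 | 1 < ‖x‖} := isOpen_lt continuous_const continuous_norm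
        have h2 : IsOpen {x : E3 | ‖x‖ < D.R} := isOpen_lt continuous_norm continuous_const
        exact (h1.inter h2).measurableSet
      vol_nonneg := fun x => Real.sqrt_nonneg _
      X_nonneg := fun x => Real.sqrt_nonneg _
      D_nonneg := h7
      meas_w := hmw
      int_vol := XABSaux.between h1
      int_X := XABSaux.between h2
      meas_X := h8
      int_Phi := XABSaux.between h3
      int_D := XABSaux.between h4
      int_S := XABSaux.between h5
      mi := by
        intro ψ hψ hn hc hs
        have hs' : tsupport ψ ⊆ Set.Iio (D.sM P) := fun x hx => (hs hx).2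
        refine (hXABSM P D hD ψ hψ hn hc hs').trans ?_
        have hint : Integrable ψ := hψ.continuous.integrable_of_hasCompactSupport hc
        have hle : (∫ s in Set.Ioi (P.eps / 4), ψ s) ≤ ∫ s, ψ s :=
          setIntegral_le_integral hint (Filter.Eventually.of_forall hn)
        have hpi : (0 : ℝ) ≤ 4 * Real.pi := by positivity
        have := mul_le_mul_of_nonneg_left hle hpi
        linarith
      xid := hXABSX P D hD
      window := fun s hs hs' => hO D hD s hs hs'
      inner := by
        intro ψ A hψ hc hs hA
        have hz : ∫ x in D.Om, ψ (D.w P x) * D.Phi P x * D.vol x = 0 := by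
          have hm : MeasurableSet D.Om := by
            have h1 : IsOpen {x : E3 | 1 < ‖x‖} := isOpen_lt continuous_const continuous_norm
            have h2 : IsOpen {x : E3 | ‖x‖ < D.R} := isOpen_lt continuous_norm continuous_const
            exact (h1.inter h2).measurableSet
          refine setIntegral_eq_zero_of_forall_eq_zero fun x hx => ?_
          have hx' := hpos x hx
          have h0 : ψ (D.w P x) = 0 := by
            by_contra hne
            have := hs (subset_tsupport _ (Function.mem_support.mpr hne))
            exact absurd this.2 (not_lt.mpr hx'.le)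
          rw [h0, zero_mul, zero_mul]
        rw [hz, abs_zero, zero_mul]
      willmore := hXABSW P D hD
      flux := by
        intro ψ hψ hn hc hs
        exact hXABSF P D hD ψ hψ hn hc (fun x hx => (hs hx).2) }

end Pool.Agent.PFlow
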