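import Pool.Agent.PFlow.StmtsX2
import Pool.Agent.PFlow.E.ABSF

/-!
# XABSF: the flux inequality, exterior case
-/

open MeasureTheory Filter Topology
open scoped ContDiff ENNReal Matrix MatrixOrder

namespace Pool.Agent.PFlow

open Pool.Agent.PenroseSph

namespace XABSFm

open ABSFm

lemma measurableSet_Ann (a b : ℝ) : MeasurableSet (Ann a b) := by
  have : Ann a b = (fun x : E3 => ‖x‖) ⁻¹' Set.Ioo a b := rfl
  rw [this]
  exact measurableSet_Ioo.preimage continuous_norm.measurable

lemma deriv_zero {f : ℝ → ℝ} {t : ℝ} (h : t ∉ tsupport f) : deriv f t = 0 := by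
  by_contra hne
  exact h (support_deriv_subset (Function.mem_support.mpr hne))

lemma exists_bound {ψ : ℝ → ℝ} {b : ℝ} (hc : HasCompactSupport ψ)
    (hs : tsupport ψ ⊆ Set.Iio b) : ∃ s', s' < b ∧ ∀ t ∈ tsupport ψ, t ≤ s' := by
  rcases (tsupport ψ).eq_empty_or_nonempty with he | hne
  · exact ⟨b - 1, by linarith, by simp [he]⟩
  · obtain ⟨s', hs1', hs2'⟩ := hc.isCompact.exists_isGreatest hne
    exact ⟨s', hs hs1', fun t ht => hs2' ht⟩

lemma one_le_u {ε R : ℝ} {g h : TensorField} {u : E3 → ℝ} {G : E3 → Cov} {M : E3 → Bil}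
    (hR : 8 ≤ R) (hs : SolX ε R g h u G M) {x : E3} (h1 : 1 / 2 < ‖x‖) (h2 : ‖x‖ ≤ 1) :
    1 ≤ u x := by
  have h0 : 0 < ‖x‖ := by linarith
  have h3 : ‖inversion x‖ = ‖x‖⁻¹ := by
    rw [inversion, norm_smul, norm_inv, norm_pow, norm_norm]
    field_simp
  have h4 : 1 ≤ ‖inversion x‖ := by
    rw [h3]
    exact (one_le_inv₀ h0).mpr h2
  have h5 : ‖inversion x‖ < R := by
    rw [h3]
    have : ‖x‖⁻¹ < 2 := by
      rw [inv_lt_comm₀ h0 (by norm_num)]
      linarith
    linarith
  have h6 := hs.le_one _ h4 h5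
  have h7 := hs.refl x ⟨h1, by linarith⟩
  linarith

/-- The flux inequality for test functions supported above the level of the boundary. -/
lemma core (hXSETW : Stmt_XSETW) (hFLX : Stmt_FLX) (P : ParX) (D : DatX) (hD : SetupX P D)
    (ψ : ℝ → ℝ) (hψ : ContDiff ℝ 1 ψ) (hψ0 : ∀ s, 0 ≤ ψ s) (hψc : HasCompactSupport ψ)
    (hψs : tsupport ψ ⊆ Set.Ioo (P.eps / 4) (D.sM P)) :
    ∫ x in D.Om, deriv ψ (D.w P x) * (Real.exp (-D.w P x) * D.X P x ^ (1 + P.eps)) * D.vol x
      ≤ 0 := by
  obtain ⟨-, -, -, -, -, -, -, -, -, -, -, -, -, -, -, hK, -⟩ := hXSETW P D hD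
  have hε := hD.eps_pos
  have hε2 := hD.eps_le
  have hε1 : P.eps < 1 := by linarith
  -- the shifted test function
  set q : ℝ → ℝ := fun s => ψ (s + P.eps / 4) with hq
  have hqd : ContDiff ℝ 1 q := hψ.comp (contDiff_id.add contDiff_const)
  have hqt : ∀ t, t ∈ tsupport q → t + P.eps / 4 ∈ tsupport ψ := by
    intro t ht
    by_contra hn
    rw [notMem_tsupport_iff_eventuallyEq] at hn
    apply (notMem_tsupport_iff_eventuallyEq (f := q) (x := t)).2 ?_ ht
    have hc : ContinuousAt (fun t : ℝ => t + P.eps / 4) t := by fun_prop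
    filter_upwards [hc.eventually hn] with s hs
    exact hs
  have hqder : ∀ t, deriv q t = deriv ψ (t + P.eps / 4) := fun t =>
    deriv_comp_add_const ψ (P.eps / 4) t
  obtain ⟨s, s', hs1, hs2, hs3⟩ := exists_bounds hψc hψs
  obtain ⟨K, hKc, hKs, hK1⟩ := hK s' hs2
  -- `R ≥ 8`
  have hR : 8 ≤ D.R := by
    have h1 : (4 : ℝ) ≤ kE P.eps P.gam := by
      unfold kE
      have : (1 : ℝ) ≤ Real.exp ((1 + 2 * P.gam) / (2 - P.eps)) := by
        apply Real.one_le_exp
        have := hD.gam_ge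
        have h2 : 0 < 2 - P.eps := by linarith
        positivity
      linarith
    have h2 : (1 : ℝ) ≤ kE P.eps P.gam ^ 4 := one_le_pow₀ (by linarith)
    have h3 := hD.R_ge
    have h4 := hD.l_ge
    nlinarith
  have hpos : ∀ x ∈ Ann (1 / 2) D.R, 0 < D.u x := fun x hx => hD.located.pos x hx
  have hsub : D.Om ⊆ Ann (1 / 2) D.R := fun x hx => ⟨by have := hx.1; linarith, hx.2⟩
  -- the support
  have hS : ∀ t, s' - P.eps / 4 < t → q t = 0 := by
    intro t ht
    by_contra hne
    have := (hs3 _ (hqt t (subset_tsupport _ hne))).2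
    linarith
  have hlow : ∀ x ∈ Ann (1 / 2) D.R, ‖x‖ ≤ 1 → -P.eps * Real.log (D.u x) ∉ tsupport q := by
    intro x hx hx1 hn
    have h1 := (hs3 _ (hqt _ hn)).1
    have h2 := one_le_u hR hD.sol hx.1 hx1
    have h3 := Real.log_nonneg h2
    nlinarith
  have key := hFLX P.eps (1 / 2) D.R D.g' D.h' D.u D.G D.M hε hε1 (by norm_num) (by linarith)
    hD.modified.metric hD.modified.tensor hD.sol.h2 hD.sol.flux (psi1 P.eps q) K
    (psi1_contDiff hε hqd hS) hKc hKs (by
      intro x hx hux
      have h1 := psi1_tsupport (hpos x hx) hux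
      have h2 : 1 < ‖x‖ := by
        by_contra hn
        exact hlow x hx (not_lt.mp hn) h1
      have h3 := (hs3 _ (hqt _ h1)).2
      exact hK1 ⟨⟨h2, hx.2⟩, h3⟩)
  -- the right side is nonnegative
  have hr : 0 ≤ ∫ x in Ann (1 / 2) D.R,
      len D.g' x (D.G x) ^ P.eps * beps P.eps D.g' x (D.G x) (D.h' x) * psi1 P.eps q (D.u x)
        * volDen D.g' x := by
    apply setIntegral_nonneg (measurableSet_Ann _ _)
    intro x hx
    have h2 : 0 ≤ volDen D.g' x := Real.sqrt_nonneg _
    by_cases hx1 : ‖x‖ ≤ 1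
    · have h1 : psi1 P.eps q (D.u x) = 0 := by
        unfold psi1
        rw [if_pos (hpos x hx)]
        exact image_eq_zero_of_notMem_tsupport (hlow x hx hx1)
      rw [h1, mul_zero, zero_mul]
    · have h1 : 0 ≤ psi1 P.eps q (D.u x) := by
        unfold psi1
        split_ifs
        · exact hψ0 _
        · exact le_refl _
      have h3 : 0 ≤ len D.g' x (D.G x) ^ P.eps * beps P.eps D.g' x (D.G x) (D.h' x) := by
        rcases eq_or_ne (D.G x) 0 with h0 | h0
        · have : len D.g' x (D.G x) = 0 := by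
            rw [h0]
            simp [len, ev]
          rw [this, Real.zero_rpow hε.ne', zero_mul]
        · refine mul_nonneg (Real.rpow_nonneg (Real.sqrt_nonneg _) _) ?_
          exact beps_nonneg hε hε1 (hD.modified.metric.posDef x trivial)
            (hD.modified.tensor.symm x trivial)
            (hD.modified.twoNonneg x (not_le.mp hx1).le) h0
      exact mul_nonneg (mul_nonneg h3 h1) h2
  -- the left side
  have hl0 : ∫ x in Ann (1 / 2) D.R,
      deriv (psi1 P.eps q) (D.u x) * len D.g' x (D.G x) ^ (1 + P.eps) * volDen D.g' x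
      = ∫ x in D.Om,
      deriv (psi1 P.eps q) (D.u x) * len D.g' x (D.G x) ^ (1 + P.eps) * volDen D.g' x := by
    apply setIntegral_eq_of_subset_of_forall_sdiff_eq_zero (measurableSet_Ann _ _) hsub
    intro x hx
    have hx1 : ‖x‖ ≤ 1 := by
      by_contra hn
      exact hx.2 ⟨not_le.mp hn, hx.1.2⟩
    rw [psi1_deriv hqd (hpos x hx.1), deriv_zero (hlow x hx.1 hx1)]
    ring
  have hl : ∫ x in D.Om,
      deriv (psi1 P.eps q) (D.u x) * len D.g' x (D.G x) ^ (1 + P.eps) * volDen D.g' x
      = -(P.eps ^ (-P.eps) * Real.exp (P.eps / 4)) * ∫ x in D.Om,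
        deriv ψ (D.w P x) * (Real.exp (-D.w P x) * D.X P x ^ (1 + P.eps)) * D.vol x := by
    rw [← integral_const_mul]
    refine setIntegral_congr_fun (measurableSet_Ann _ _) fun x hx => ?_
    have hu := hpos x (hsub hx)
    have hX : D.X P x = P.eps / D.u x * len D.g' x (D.G x) := by
      have e : D.Gw P x = (-(P.eps / D.u x)) • D.G x := by
        funext i
        simp only [DatX.Gw, gOf, Pi.smul_apply, smul_eq_mul]
        ring
      rw [DatX.X, e, len_smul, abs_neg, abs_of_pos (div_pos hε hu)]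
    have hw : Real.exp (-D.w P x) = D.u x ^ P.eps * Real.exp (-(P.eps / 4)) := by
      rw [DatX.w, wOf, Real.rpow_def_of_pos hu, ← Real.exp_add]
      congr 1
      ring
    have hw' : -P.eps * Real.log (D.u x) + P.eps / 4 = D.w P x := rfl
    change deriv (psi1 P.eps q) (D.u x) * len D.g' x (D.G x) ^ (1 + P.eps) * volDen D.g' x
      = -(P.eps ^ (-P.eps) * Real.exp (P.eps / 4)) * (deriv ψ (D.w P x)
        * (Real.exp (-D.w P x) * D.X P x ^ (1 + P.eps)) * D.vol x)
    have hlen0 : 0 ≤ len D.g' x (D.G x) := Real.sqrt_nonneg _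
    rw [psi1_deriv hqd hu, hqder, hX, hw, hw', Real.mul_rpow (div_pos hε hu).le hlen0,
      Real.div_rpow hε.le hu.le, Real.rpow_add hε, Real.rpow_one, Real.rpow_add hu, Real.rpow_one,
      Real.rpow_neg hε.le, Real.exp_neg]
    have e1 : P.eps ^ P.eps ≠ 0 := (Real.rpow_pos_of_pos hε _).ne'
    have e2 : D.u x ^ P.eps ≠ 0 := (Real.rpow_pos_of_pos hu _).ne'
    have e3 : D.u x ≠ 0 := hu.ne'
    have e4 : Real.exp (P.eps / 4) ≠ 0 := (Real.exp_pos _).ne'
    change _ = -((P.eps ^ P.eps)⁻¹ * _) * (_ * _ * volDen D.g' x)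
    field_simp
  rw [hl0, hl] at key
  have hc : 0 < P.eps ^ (-P.eps) * Real.exp (P.eps / 4) :=
    mul_pos (Real.rpow_pos_of_pos hε _) (Real.exp_pos _)
  have h5 : 0 ≤ -(P.eps ^ (-P.eps) * Real.exp (P.eps / 4)) * ∫ x in D.Om,
        deriv ψ (D.w P x) * (Real.exp (-D.w P x) * D.X P x ^ (1 + P.eps)) * D.vol x := by
    rw [key]
    exact hr
  nlinarith

/-- The cut-off: `0` for `s ≤ a + 1/(n+1)`, `1` for `s ≥ a + 2/(n+1)`. -/
noncomputable def cut (a : ℝ) (n : ℕ) (s : ℝ) : ℝ :=
  Real.smoothTransition ((n + 1 : ℝ) * (s - a) - 1)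

lemma cut_contDiff (a : ℝ) (n : ℕ) : ContDiff ℝ 1 (cut a n) := by
  have h : ContDiff ℝ 1 (fun s : ℝ => (n + 1 : ℝ) * (s - a) - 1) := by fun_prop
  exact Real.smoothTransition.contDiff.comp h

lemma cut_nonneg (a : ℝ) (n : ℕ) (s : ℝ) : 0 ≤ cut a n s := Real.smoothTransition.nonneg _

lemma cut_le_one (a : ℝ) (n : ℕ) (s : ℝ) : cut a n s ≤ 1 := Real.smoothTransition.le_one _

lemma cut_mono (a : ℝ) (n : ℕ) : Monotone (cut a n) := by
  intro s t hst
  apply Real.smoothTransition.monotone
  have : (0 : ℝ) ≤ (n + 1 : ℝ) := by positivity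
  nlinarith

lemma cut_deriv_nonneg (a : ℝ) (n : ℕ) (s : ℝ) : 0 ≤ deriv (cut a n) s :=
  (cut_mono a n).deriv_nonneg

lemma cut_zero {a : ℝ} {n : ℕ} {s : ℝ} (h : s ≤ a + 1 / (n + 1)) : cut a n s = 0 := by
  apply Real.smoothTransition.zero_of_nonpos
  have h0 : (0 : ℝ) < (n + 1 : ℝ) := by positivity
  have h1 : (n + 1 : ℝ) * (s - a) ≤ (n + 1 : ℝ) * (1 / (n + 1)) :=
    mul_le_mul_of_nonneg_left (by linarith) h0.le
  rw [mul_one_div_cancel h0.ne'] at h1
  linarith

lemma cut_tendsto {a s : ℝ} (h : a < s) :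
    Tendsto (fun n : ℕ => cut a n s) atTop (𝓝 1) := by
  obtain ⟨N, hN⟩ := exists_nat_gt (2 / (s - a))
  have h0 : 0 < s - a := by linarith
  refine tendsto_const_nhds.congr' ?_
  filter_upwards [eventually_ge_atTop N] with n hn
  symm
  apply Real.smoothTransition.one_of_one_le
  have h1 : (N : ℝ) ≤ n := by exact_mod_cast hn
  rw [div_lt_iff₀ h0] at hN
  nlinarith

end XABSFm

open ABSFm XABSFm in
theorem XABSF (hXSETW : Stmt_XSETW) (hFLX : Stmt_FLX) (hXABSI : Stmt_XABSI) : Stmt_XABSF := by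
  intro P D hD ψ hψ hψ0 hψc hψs
  obtain ⟨-, -, -, -, -, -, hwm, -, -, hpos, -⟩ := hXSETW P D hD
  obtain ⟨hI1, hI3, -, -, -, -, -, -, hXm⟩ := hXABSI P D hD
  have hε := hD.eps_pos
  have hε2 := hD.eps_le
  have hOm : MeasurableSet D.Om := measurableSet_Ann _ _
  set F : E3 → ℝ := fun x => (Real.exp (-D.w P x) * D.X P x ^ (1 + P.eps)) * D.vol x with hF
  have hX0 : ∀ x, 0 ≤ D.X P x := fun x => Real.sqrt_nonneg _
  have hv0 : ∀ x, 0 ≤ D.vol x := fun x => Real.sqrt_nonneg _
  have hF0 : ∀ x, 0 ≤ F x := fun x =>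
    mul_nonneg (mul_nonneg (Real.exp_pos _).le (Real.rpow_nonneg (hX0 x) _)) (hv0 x)
  have hass : ∀ (f : E3 → ℝ), (∫ x in D.Om, f x * (Real.exp (-D.w P x) *
      D.X P x ^ (1 + P.eps)) * D.vol x) = ∫ x in D.Om, f x * F x := by
    intro f
    refine setIntegral_congr_fun hOm fun x _ => ?_
    simp only [hF]
    ring
  rw [hass (fun x => deriv ψ (D.w P x))]
  by_cases hint : IntegrableOn (fun x => deriv ψ (D.w P x) * F x) D.Om
  swap
  · rw [integral_undef hint]
  obtain ⟨s', hs', hsb⟩ := exists_bound hψc hψs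
  -- measurability
  have hvm : AEStronglyMeasurable D.vol (volume.restrict D.Om) := by
    have hdet : Continuous fun x => (D.g' x).det := by
      apply Continuous.matrix_det
      refine continuous_matrix fun i j => ?_
      exact (contDiffOn_univ.mp (hD.modified.metric.smooth i j)).continuous
    exact (Real.continuous_sqrt.comp hdet).aestronglyMeasurable
  have hFm : AEStronglyMeasurable F (volume.restrict D.Om) := by
    have h1 : AEStronglyMeasurable (fun x => Real.exp (-D.w P x)) (volume.restrict D.Om) :=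
      (Real.measurable_exp.comp hwm.neg).aestronglyMeasurable
    have h2 : AEStronglyMeasurable (fun x => D.X P x ^ (1 + P.eps)) (volume.restrict D.Om) := by
      have hc : Continuous fun t : ℝ => t ^ (1 + P.eps) :=
        Real.continuous_rpow_const (by linarith)
      exact hc.comp_aestronglyMeasurable hXm
    exact (h1.mul h2).mul hvm
  have hFb : ∀ x ∈ D.Om, F x ≤ D.vol x + D.X P x ^ 3 * D.vol x := by
    intro x hx
    have h1 : Real.exp (-D.w P x) ≤ 1 := by
      rw [Real.exp_le_one_iff]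
      have := hpos x hx
      linarith
    have h2 : D.X P x ^ (1 + P.eps) ≤ 1 + D.X P x ^ 3 := by
      rcases le_total (D.X P x) 1 with h | h
      · have h3 : D.X P x ^ (1 + P.eps) ≤ 1 := Real.rpow_le_one (hX0 x) h (by linarith)
        have h4 : 0 ≤ D.X P x ^ 3 := pow_nonneg (hX0 x) 3
        linarith
      · have h3 : D.X P x ^ (1 + P.eps) ≤ D.X P x ^ (3 : ℝ) :=
          Real.rpow_le_rpow_of_exponent_le h (by linarith)
        have h4 : D.X P x ^ (3 : ℝ) = D.X P x ^ 3 := by
          rw [← Real.rpow_natCast]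
          norm_num
        rw [h4] at h3
        linarith
    have h3 : Real.exp (-D.w P x) * D.X P x ^ (1 + P.eps) ≤ 1 + D.X P x ^ 3 := by
      have h4 : 0 ≤ D.X P x ^ (1 + P.eps) := Real.rpow_nonneg (hX0 x) _
      nlinarith [Real.exp_pos (-D.w P x)]
    calc F x ≤ (1 + D.X P x ^ 3) * D.vol x := mul_le_mul_of_nonneg_right h3 (hv0 x)
      _ = D.vol x + D.X P x ^ 3 * D.vol x := by ring
  -- the approximations
  have hn : ∀ n : ℕ, ∫ x in D.Om, deriv ψ (D.w P x) * F x * cut (P.eps / 4) n (D.w P x) ≤ 0 := by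
    intro n
    set χ := cut (P.eps / 4) n with hχ
    have hχd : ContDiff ℝ 1 χ := cut_contDiff _ _
    have hc1 : HasCompactSupport (fun t => ψ t * χ t) := hψc.mul_right
    have hts : tsupport (fun t => ψ t * χ t) ⊆ Set.Ioo (P.eps / 4) (D.sM P) := by
      intro t ht
      refine ⟨?_, hψs (tsupport_mul_subset_left ht)⟩
      have h1 : tsupport χ ⊆ Set.Ici (P.eps / 4 + 1 / (n + 1)) := by
        apply closure_minimal _ isClosed_Ici
        intro s hs
        by_contra hlt
        exact hs (cut_zero (not_le.mp hlt).le)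
      have h2 := h1 (tsupport_mul_subset_right ht)
      have h3 : (0 : ℝ) < 1 / (n + 1) := by positivity
      have h4 : P.eps / 4 + 1 / ((n : ℝ) + 1) ≤ t := h2
      linarith
    have hcore := core hXSETW hFLX P D hD (fun t => ψ t * χ t) (hψ.mul hχd)
      (fun s => mul_nonneg (hψ0 s) (cut_nonneg _ _ _)) hc1 hts
    rw [hass (fun x => deriv (fun t => ψ t * χ t) (D.w P x))] at hcore
    have hder : ∀ t, deriv (fun t => ψ t * χ t) t = deriv ψ t * χ t + ψ t * deriv χ t := by
      intro t
      exact deriv_fun_mul (hψ.differentiable (by norm_num)).differentiableAt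
        (hχd.differentiable (by norm_num)).differentiableAt
    -- the two parts
    have hp1 : IntegrableOn (fun x => deriv ψ (D.w P x) * F x * χ (D.w P x)) D.Om := by
      refine hint.mul_bdd (c := 1) ?_ ?_
      · exact (hχd.continuous.measurable.comp hwm).aestronglyMeasurable
      · refine Eventually.of_forall fun x => ?_
        rw [Real.norm_eq_abs, abs_of_nonneg (cut_nonneg _ _ _)]
        exact cut_le_one _ _ _
    have hcont : Continuous (fun t => ψ t * deriv χ t) :=
      hψ.continuous.mul (hχd.continuous_deriv le_rfl)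
    have hcs : HasCompactSupport (fun t => ψ t * deriv χ t) := hψc.mul_right
    obtain ⟨B, hB⟩ := hcs.exists_bound_of_continuous hcont
    have hp2 : IntegrableOn (fun x => (ψ (D.w P x) * deriv χ (D.w P x)) * F x) D.Om := by
      have hsm : D.Om ∩ {x | D.w P x ≤ s'} ⊆ D.Om := Set.inter_subset_left
      have hmeas : MeasurableSet (D.Om ∩ {x | D.w P x ≤ s'}) :=
        hOm.inter (measurableSet_le hwm measurable_const)
      have h1 : IntegrableOn (fun x => (ψ (D.w P x) * deriv χ (D.w P x)) * F x)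
          (D.Om ∩ {x | D.w P x ≤ s'}) := by
        have hb := ((hI1 s' hs').add (hI3 s' hs')).const_mul B
        refine Integrable.mono' hb ?_ ?_
        · refine AEStronglyMeasurable.mul ?_ (hFm.mono_measure (Measure.restrict_mono hsm le_rfl))
          exact (hcont.measurable.comp hwm).aestronglyMeasurable
        · refine (ae_restrict_iff' hmeas).mpr (Eventually.of_forall fun x hx => ?_)
          rw [norm_mul, Real.norm_eq_abs (F x), abs_of_nonneg (hF0 x)]
          exact mul_le_mul (hB _) (hFb x hx.1) (hF0 x) ((norm_nonneg _).trans (hB 0))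
      refine h1.of_forall_sdiff_eq_zero hOm fun x hx => ?_
      have h2 : D.w P x ∉ tsupport ψ := by
        intro hin
        exact hx.2 ⟨hx.1, hsb _ hin⟩
      rw [image_eq_zero_of_notMem_tsupport h2]
      ring
    have hsplit : ∫ x in D.Om, deriv (fun t => ψ t * χ t) (D.w P x) * F x =
        (∫ x in D.Om, deriv ψ (D.w P x) * F x * χ (D.w P x)) +
          ∫ x in D.Om, (ψ (D.w P x) * deriv χ (D.w P x)) * F x := by
      rw [← integral_add hp1 hp2]
      refine setIntegral_congr_fun hOm fun x _ => ?_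
      simp only [hder]
      ring
    have hp3 : 0 ≤ ∫ x in D.Om, (ψ (D.w P x) * deriv χ (D.w P x)) * F x := by
      apply integral_nonneg
      intro x
      exact mul_nonneg (mul_nonneg (hψ0 _) (cut_deriv_nonneg _ _ _)) (hF0 x)
    rw [hsplit] at hcore
    linarith
  -- the limit
  have hlim : Tendsto (fun n : ℕ => ∫ x in D.Om,
      deriv ψ (D.w P x) * F x * cut (P.eps / 4) n (D.w P x)) atTop
      (𝓝 (∫ x in D.Om, deriv ψ (D.w P x) * F x)) := by
    refine tendsto_integral_of_dominated_convergence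
      (fun x => ‖deriv ψ (D.w P x) * F x‖) ?_ hint.norm ?_ ?_
    · intro n
      refine hint.aestronglyMeasurable.mul ?_
      exact ((cut_contDiff _ _).continuous.measurable.comp hwm).aestronglyMeasurable
    · intro n
      refine Eventually.of_forall fun x => ?_
      rw [norm_mul]
      have h1 : ‖cut (P.eps / 4) n (D.w P x)‖ ≤ 1 := by
        rw [Real.norm_eq_abs, abs_of_nonneg (cut_nonneg _ _ _)]
        exact cut_le_one _ _ _
      exact mul_le_of_le_one_right (norm_nonneg _) h1
    · refine (ae_restrict_iff' hOm).mpr (Eventually.of_forall fun x hx => ?_)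
      have h1 := (cut_tendsto (hpos x hx)).const_mul (deriv ψ (D.w P x) * F x)
      rw [mul_one] at h1
      exact h1
  exact le_of_tendsto' hlim hn

end Pool.Agent.PFlow
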