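import Pool.Agent.PFlow.StmtsX2
import Pool.Agent.PFlow.M_Coef
import Pool.Agent.PFlow.E.ABSM

set_option autoImplicit false

open MeasureTheory Filter Topology
open scoped ContDiff ENNReal

namespace Pool.Agent.PFlow

open Pool.Agent.PenroseSph

namespace XABSIaux

theorem isOpen_ann (a b : ℝ) : IsOpen (Ann a b) :=
  (isOpen_lt continuous_const continuous_norm).inter (isOpen_lt continuous_norm continuous_const)

theorem ann_exhaust (a b : ℝ) : ∃ K : ℕ → Set E3, (∀ n, IsCompact (K n)) ∧
    (∀ n, K n ⊆ Ann a b) ∧ ⋃ n, K n = Ann a b := by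
  refine ⟨fun n => {x : E3 | a + 1 / ((n : ℝ) + 1) ≤ ‖x‖ ∧ ‖x‖ ≤ b - 1 / ((n : ℝ) + 1)}, ?_, ?_, ?_⟩
  · intro n
    have h1 : IsClosed {x : E3 | a + 1 / ((n : ℝ) + 1) ≤ ‖x‖ ∧ ‖x‖ ≤ b - 1 / ((n : ℝ) + 1)} :=
      (isClosed_le continuous_const continuous_norm).inter
        (isClosed_le continuous_norm continuous_const)
    refine (isCompact_closedBall (0 : E3) (b - 1 / ((n : ℝ) + 1))).of_isClosed_subset h1 ?_
    intro x hx
    rw [Metric.mem_closedBall, dist_zero_right]
    exact hx.2
  · intro n x hx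
    have h0 : 0 < 1 / ((n : ℝ) + 1) := by positivity
    exact ⟨by linarith [hx.1], by linarith [hx.2]⟩
  · ext x
    rw [Set.mem_iUnion]
    constructor
    · rintro ⟨n, hx⟩
      have h0 : 0 < 1 / ((n : ℝ) + 1) := by positivity
      exact ⟨by linarith [hx.1], by linarith [hx.2]⟩
    · intro hx
      have h1 : ∀ᶠ n : ℕ in atTop, 1 / ((n : ℝ) + 1) < ‖x‖ - a :=
        tendsto_one_div_add_atTop_nhds_zero_nat.eventually_lt_const (by linarith [hx.1])
      have h2 : ∀ᶠ n : ℕ in atTop, 1 / ((n : ℝ) + 1) < b - ‖x‖ :=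
        tendsto_one_div_add_atTop_nhds_zero_nat.eventually_lt_const (by linarith [hx.2])
      obtain ⟨n, hn1, hn2⟩ := (h1.and h2).exists
      exact ⟨n, by constructor <;> linarith⟩

theorem chr_symm {U : Set E3} {g : TensorField} (hU : IsOpen U) (hg : MetricOn U g) {x : E3}
    (hx : x ∈ U) (k i j : Fin 3) : christoffel g k i j x = christoffel g k j i x := by
  have h1 : ∀ a b : Fin 3, (fun y => g y a b) =ᶠ[𝓝 x] fun y => g y b a := by
    intro a b
    filter_upwards [hU.mem_nhds hx] with y hy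
    have := (hg.posDef y hy).isHermitian.apply a b
    simpa using this.symm
  have h2 : ∀ l a b : Fin 3, pd l (fun y => g y a b) x = pd l (fun y => g y b a) x := by
    intro l a b
    unfold pd
    rw [(h1 a b).fderiv_eq]
  unfold christoffel
  congr 1
  refine Finset.sum_congr rfl fun l _ => ?_
  rw [h2 l i j]
  ring

/-- The sum of the absolute values of the components. -/
noncomputable def asum (p : Cov) : ℝ := ∑ i, |p i|

theorem asum_nonneg (p : Cov) : 0 ≤ asum p := Finset.sum_nonneg fun _ _ => abs_nonneg _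

theorem vsz_le_asum (p : Cov) : vsz p ≤ asum p := by
  unfold vsz
  rw [Real.sqrt_le_left (asum_nonneg p)]
  unfold asum
  rw [Fin.sum_univ_three, Fin.sum_univ_three]
  have h : ∀ i, p i ^ 2 = |p i| ^ 2 := fun i => (sq_abs _).symm
  rw [h 0, h 1, h 2]
  nlinarith [abs_nonneg (p 0), abs_nonneg (p 1), abs_nonneg (p 2),
    mul_nonneg (abs_nonneg (p 0)) (abs_nonneg (p 1)),
    mul_nonneg (abs_nonneg (p 0)) (abs_nonneg (p 2)),
    mul_nonneg (abs_nonneg (p 1)) (abs_nonneg (p 2))]

theorem abs_coord (x : E3) (i : Fin 3) : |x i| ≤ ‖x‖ := by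
  have := EuclideanSpace.norm_eq x
  rw [this]
  apply Real.le_sqrt_of_sq_le
  rw [sq_abs]
  have h := Finset.single_le_sum (f := fun i => ‖x i‖ ^ 2) (fun j _ => sq_nonneg _)
    (Finset.mem_univ i)
  simpa [Real.norm_eq_abs, sq_abs] using h

theorem abs_pair_le (x : E3) (p : Cov) : |∑ j, p j * x j| ≤ asum p * ‖x‖ := by
  unfold asum
  rw [Finset.sum_mul]
  refine (Finset.abs_sum_le_sum_abs _ _).trans (Finset.sum_le_sum fun j _ => ?_)
  rw [abs_mul]
  exact mul_le_mul_of_nonneg_left (abs_coord x j) (abs_nonneg _)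

theorem negP_le (x : E3) (p : Cov) : negP x p ≤ asum p := by
  unfold negP
  refine max_le ?_ (asum_nonneg p)
  rcases eq_or_ne x 0 with rfl | hx
  · simp [asum_nonneg]
  · have h0 : 0 < ‖x‖ := norm_pos_iff.2 hx
    rw [← neg_div, div_le_iff₀ h0]
    exact (neg_le_abs _).trans (abs_pair_le x p)

theorem negP_nonneg (x : E3) (p : Cov) : 0 ≤ negP x p := le_max_right _ _

theorem tanP_nonneg (x : E3) (p : Cov) : 0 ≤ tanP x p := Real.sqrt_nonneg _

theorem tanP_le (x : E3) (p : Cov) : tanP x p ≤ 4 * asum p := by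
  unfold tanP
  refine (vsz_le_asum _).trans ?_
  have key : ∀ i, |p i - (∑ j, p j * x j) / ‖x‖ ^ 2 * x i| ≤ |p i| + asum p := by
    intro i
    refine (abs_sub _ _).trans (add_le_add le_rfl ?_)
    rcases eq_or_ne x 0 with rfl | hx
    · simp [asum_nonneg]
    · have h0 : 0 < ‖x‖ := norm_pos_iff.2 hx
      rw [abs_mul, abs_div, abs_of_pos (pow_pos h0 2), div_mul_eq_mul_div, div_le_iff₀ (by positivity)]
      calc |∑ j, p j * x j| * |x i| ≤ (asum p * ‖x‖) * ‖x‖ :=
            mul_le_mul (abs_pair_le x p) (abs_coord x i) (abs_nonneg _)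
              (mul_nonneg (asum_nonneg p) h0.le)
        _ = asum p * ‖x‖ ^ 2 := by ring
  have h1 : asum (fun i => p i - (∑ j, p j * x j) / ‖x‖ ^ 2 * x i) ≤
      ∑ i : Fin 3, (|p i| + asum p) := Finset.sum_le_sum fun i _ => key i
  refine h1.trans ?_
  rw [Finset.sum_add_distrib, Finset.sum_const, Finset.card_univ, Fintype.card_fin]
  change asum p + 3 • asum p ≤ _
  rw [nsmul_eq_mul]
  push_cast
  linarith

end XABSIaux

open XABSIaux in
theorem XABSI (hXSETW : Stmt_XSETW) (hINT : Stmt_INT) (hPTD : Stmt_PTD) (hHSYM : Stmt_HSYM) :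
    Stmt_XABSI := by
  intro P D hs
  obtain ⟨hg, hh, h2n, hH2, hEq, -, -, -, -, -, -, -, -, -, -, hKs, -⟩ := hXSETW P D hs
  have hU : IsOpen (Ann (1 / 2) D.R) := isOpen_ann _ _
  have hOm : IsOpen D.Om := isOpen_ann _ _
  have hOU : D.Om ⊆ Ann (1 / 2) D.R := fun x hx => ⟨by linarith [hx.1], hx.2⟩
  have heps1 : P.eps < 1 := by linarith [hs.eps_le]
  have hI := hINT P.eps (Ann (1 / 2) D.R) D.g' D.h' (D.w P) (D.Gw P) (D.Mw P) hs.eps_pos heps1 hU
    hg hh hH2 hEq
  have lvl : ∀ f : E3 → ℝ, (∀ K : Set E3, IsCompact K → K ⊆ Ann (1 / 2) D.R →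
      IntegrableOn f K) → LvlIntX P D f := by
    intro f hf s' h3
    obtain ⟨K, hK, hKU, hsub⟩ := hKs s' h3
    exact (hf K hK hKU).mono_set hsub
  have hvol0 : ∀ x, 0 ≤ D.vol x := fun x => Real.sqrt_nonneg _
  have hX0 : ∀ x, 0 ≤ D.X P x := fun x => Real.sqrt_nonneg _
  have hvolc : ∀ K : Set E3, K ⊆ Ann (1 / 2) D.R → ContinuousOn D.vol K := fun K hKU x hx =>
    (MCF.volDen_smooth hU hg (hKU hx)).continuousAt.continuousWithinAt
  have hvol : ∀ K : Set E3, IsCompact K → K ⊆ Ann (1 / 2) D.R → IntegrableOn D.vol K :=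
    fun K hK hKU => (hvolc K hKU).integrableOn_compact hK
  have hX4 : ∀ K : Set E3, IsCompact K → K ⊆ Ann (1 / 2) D.R →
      IntegrableOn (fun x => D.X P x ^ 4 * D.vol x) K := fun K hK hKU => (hI K hK hKU).2.1
  have hGm : ∀ K : Set E3, IsCompact K → K ⊆ Ann (1 / 2) D.R → ∀ i,
      AEMeasurable (fun x => D.Gw P x i) (volume.restrict K) := fun K hK hKU i =>
    (hH2.memG K hK hKU i).1.aemeasurable
  have hXm : ∀ K : Set E3, IsCompact K → K ⊆ Ann (1 / 2) D.R →
      AEMeasurable (D.X P) (volume.restrict K) :=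
    fun K hK hKU => MCF.m_len (MCF.coef hU hg hh hK hKU) (hGm K hK hKU)
  have hvm : ∀ K : Set E3, IsCompact K → K ⊆ Ann (1 / 2) D.R →
      AEMeasurable D.vol (volume.restrict K) :=
    fun K hK hKU => (MCF.coef hU hg hh hK hKU).vol
  have hdom : ∀ K : Set E3, IsCompact K → K ⊆ Ann (1 / 2) D.R →
      IntegrableOn (fun x => D.vol x + D.X P x ^ 4 * D.vol x) K := fun K hK hKU =>
    (hvol K hK hKU).add (hX4 K hK hKU)
  have hXle : ∀ x, D.X P x ≤ 1 + D.X P x ^ 4 := by
    intro x
    nlinarith [hX0 x, sq_nonneg (D.X P x ^ 2 - 1), sq_nonneg (D.X P x - 1)]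
  have hX3le : ∀ x, D.X P x ^ 3 ≤ 1 + D.X P x ^ 4 := by
    intro x
    have h1 := hX0 x
    by_cases hc : D.X P x ≤ 1
    · have : D.X P x ^ 3 ≤ 1 := pow_le_one₀ h1 hc
      have : 0 ≤ D.X P x ^ 4 := by positivity
      linarith
    · push Not at hc
      have : D.X P x ^ 3 ≤ D.X P x ^ 4 := pow_le_pow_right₀ hc.le (by norm_num)
      linarith
  -- the surplus term outside the collar
  have hsur : ∀ K : Set E3, IsCompact K → K ⊆ Ann (1 / 2) D.R →
      IntegrableOn (fun x => D.X P x * surplus D.g' D.h' x * D.vol x) K := by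
    intro K hK hKU
    have hjc : ∀ x ∈ Ann (1 / 2) D.R, ContinuousAt (surplus D.g' D.h') x := by
      intro x hx
      unfold surplus jlen ev
      refine (MCF.energy_smooth hU hg hh hx).continuousAt.sub ?_
      refine Real.continuous_sqrt.continuousAt.comp ?_
      have h1 : ContDiffAt ℝ ∞ (fun x => ∑ i, ∑ j, (D.g' x)⁻¹ i j
          * momentumDensity D.g' D.h' i x * momentumDensity D.g' D.h' j x) x :=
        ContDiffAt.sum fun i _ => ContDiffAt.sum fun j _ =>
          ((MCF.inv_smooth hU hg hx i j).mul (MCF.mom_smooth hU hg hh hx i)).mul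
            (MCF.mom_smooth hU hg hh hx j)
      exact h1.continuousAt
    have hsc : ContinuousOn (surplus D.g' D.h') K := fun x hx =>
      (hjc x (hKU hx)).continuousWithinAt
    obtain ⟨C, hC⟩ := hK.exists_bound_of_continuousOn hsc
    have hsm : AEMeasurable (surplus D.g' D.h') (volume.restrict K) :=
      (hsc.aestronglyMeasurable hK.measurableSet).aemeasurable
    refine Integrable.mono' ((hdom K hK hKU).const_mul |C|)
      (((hXm K hK hKU).mul hsm).mul (hvm K hK hKU)).aestronglyMeasurable ?_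
    refine (ae_restrict_iff' hK.measurableSet).2 (Eventually.of_forall fun x hx => ?_)
    have h1 := hX0 x
    have h2 := hvol0 x
    have h3 : |surplus D.g' D.h' x| ≤ |C| := by
      have := hC x hx
      rw [Real.norm_eq_abs] at this
      exact this.trans (le_abs_self C)
    show ‖D.X P x * surplus D.g' D.h' x * D.vol x‖ ≤ |C| * (D.vol x + D.X P x ^ 4 * D.vol x)
    rw [norm_mul, norm_mul, Real.norm_of_nonneg h1, Real.norm_of_nonneg h2, Real.norm_eq_abs]
    calc D.X P x * |surplus D.g' D.h' x| * D.vol x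
        ≤ (1 + D.X P x ^ 4) * |C| * D.vol x := by
          refine mul_le_mul_of_nonneg_right ?_ h2
          exact mul_le_mul (hXle x) h3 (abs_nonneg _) (by positivity)
      _ = _ := by ring
  -- the term in the collar
  have hcol : ∀ K : Set E3, IsCompact K → K ⊆ Ann (1 / 2) D.R →
      IntegrableOn (fun x => -(P.C / D.tau * (tanP x (D.Gw P x) + negP x (D.Gw P x)) +
        D.kap / D.tau * vsz (D.Gw P x)) * D.vol x) K := by
    intro K hK hKU
    have hxm : ∀ i, AEMeasurable (fun x : E3 => x i) (volume.restrict K) := fun i =>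
      (EuclideanSpace.proj (𝕜 := ℝ) i).continuous.measurable.aemeasurable
    have hnm : AEMeasurable (fun x : E3 => ‖x‖) (volume.restrict K) :=
      continuous_norm.measurable.aemeasurable
    have hpm : AEMeasurable (fun x : E3 => ∑ j, D.Gw P x j * x j) (volume.restrict K) :=
      Finset.aemeasurable_fun_sum _ fun j _ => (hGm K hK hKU j).mul (hxm j)
    have htm : AEMeasurable (fun x : E3 => tanP x (D.Gw P x)) (volume.restrict K) := by
      unfold tanP vsz
      refine Real.continuous_sqrt.measurable.comp_aemeasurable ?_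
      refine Finset.aemeasurable_fun_sum _ fun i _ => AEMeasurable.pow_const ?_ 2
      exact (hGm K hK hKU i).sub ((hpm.div (hnm.pow_const 2)).mul (hxm i))
    have hnegm : AEMeasurable (fun x : E3 => negP x (D.Gw P x)) (volume.restrict K) := by
      unfold negP
      exact ((hpm.div hnm).neg).max aemeasurable_const
    have hvsm : AEMeasurable (fun x : E3 => vsz (D.Gw P x)) (volume.restrict K) := by
      unfold vsz
      refine Real.continuous_sqrt.measurable.comp_aemeasurable ?_
      exact Finset.aemeasurable_fun_sum _ fun i _ => (hGm K hK hKU i).pow_const 2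
    obtain ⟨V, hV⟩ := hK.exists_bound_of_continuousOn (hvolc K hKU)
    have hfin : IsFiniteMeasure (volume.restrict K) := ⟨by
      rw [Measure.restrict_apply_univ]
      exact hK.measure_lt_top⟩
    have hGi : ∀ i, Integrable (fun x => |D.Gw P x i|) (volume.restrict K) := fun i =>
      ((hH2.memG K hK hKU i).integrable (by norm_num)).abs
    have hS : Integrable (fun x => asum (D.Gw P x)) (volume.restrict K) := by
      unfold asum
      exact integrable_finsetSum _ fun i _ => hGi i
    have hC := hs.C_pos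
    have ht := hs.tau_pos
    have hk := hs.kap_pos
    refine Integrable.mono' (hS.const_mul ((P.C / D.tau * 5 + D.kap / D.tau) * |V|))
      ((((htm.add hnegm).const_mul _).add (hvsm.const_mul _)).neg.mul
        (hvm K hK hKU)).aestronglyMeasurable ?_
    refine (ae_restrict_iff' hK.measurableSet).2 (Eventually.of_forall fun x hx => ?_)
    have h1 := tanP_le x (D.Gw P x)
    have h2 := negP_le x (D.Gw P x)
    have h3 := vsz_le_asum (D.Gw P x)
    have h4 := asum_nonneg (D.Gw P x)
    have h5 : 0 ≤ vsz (D.Gw P x) := Real.sqrt_nonneg _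
    have h6 := tanP_nonneg x (D.Gw P x)
    have h7 := negP_nonneg x (D.Gw P x)
    have h8 : |D.vol x| ≤ |V| := by
      have := hV x hx
      rw [Real.norm_eq_abs] at this
      exact this.trans (le_abs_self V)
    have hCt : 0 ≤ P.C / D.tau := by positivity
    have hkt : 0 ≤ D.kap / D.tau := by positivity
    rw [norm_mul, norm_neg, Real.norm_eq_abs, Real.norm_eq_abs,
      abs_of_nonneg (add_nonneg (mul_nonneg hCt (add_nonneg h6 h7)) (mul_nonneg hkt h5))]
    calc (P.C / D.tau * (tanP x (D.Gw P x) + negP x (D.Gw P x)) +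
          D.kap / D.tau * vsz (D.Gw P x)) * |D.vol x|
        ≤ (P.C / D.tau * (4 * asum (D.Gw P x) + asum (D.Gw P x)) +
          D.kap / D.tau * asum (D.Gw P x)) * |V| := by
          refine mul_le_mul ?_ h8 (abs_nonneg _) ?_
          · exact add_le_add (mul_le_mul_of_nonneg_left (add_le_add h1 h2) hCt)
              (mul_le_mul_of_nonneg_left h3 hkt)
          · exact add_nonneg (mul_nonneg hCt (by linarith)) (mul_nonneg hkt h4)
      _ = _ := by ring
  refine ⟨lvl _ hvol, lvl _ ?_, lvl _ ?_, lvl _ ?_, lvl _ ?_, lvl _ ?_, ?_, ?_, ?_⟩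
  · intro K hK hKU
    refine (hdom K hK hKU).mono' (((hXm K hK hKU).pow_const 3).mul
      (hvm K hK hKU)).aestronglyMeasurable (Eventually.of_forall fun x => ?_)
    have h1 := hX0 x
    have h2 := hvol0 x
    rw [Real.norm_of_nonneg (by positivity)]
    calc D.X P x ^ 3 * D.vol x ≤ (1 + D.X P x ^ 4) * D.vol x :=
          mul_le_mul_of_nonneg_right (hX3le x) h2
      _ = _ := by ring
  · intro K hK hKU
    exact (hI K hK hKU).2.2.2.2.1
  · intro K hK hKU
    exact (hI K hK hKU).2.2.2.2.2.1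
  · intro K hK hKU
    have hcl : IsClosed {x : E3 | ‖x‖ ≤ Real.exp D.tau} := isClosed_le continuous_norm continuous_const
    have hsplit : K = (K ∩ {x : E3 | ‖x‖ ≤ Real.exp D.tau}) ∪
        (K \ {x : E3 | ‖x‖ ≤ Real.exp D.tau}) := (Set.inter_union_diff _ _).symm
    rw [hsplit]
    refine IntegrableOn.union ?_ ?_
    · refine IntegrableOn.congr_fun ((hcol K hK hKU).mono_set Set.inter_subset_left) ?_
        (hK.measurableSet.inter hcl.measurableSet)
      intro x hx
      have hx2 : ‖x‖ ≤ Real.exp D.tau := hx.2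
      simp only [DatX.Su, if_pos hx2]
    · refine IntegrableOn.congr_fun ((hsur K hK hKU).mono_set Set.diff_subset) ?_
        (hK.measurableSet.diff hcl.measurableSet)
      intro x hx
      have hx2 : ¬ ‖x‖ ≤ Real.exp D.tau := hx.2
      simp only [DatX.Su, if_neg hx2]
  · intro K hK hKU
    exact (hI K hK hKU).2.2.2.2.2.2.1
  · obtain ⟨C, -, hC⟩ := hPTD P.eps hs.eps_pos hs.eps_le
    have hsym := hHSYM (Ann (1 / 2) D.R) (D.w P) (D.Gw P) (D.Mw P) hU hH2
    have hmem : ∀ᵐ x ∂(volume.restrict D.Om), x ∈ D.Om := ae_restrict_mem hOm.measurableSet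
    have hsym' := ae_restrict_of_ae_restrict_of_subset hOU hsym
    have hEq' := ae_restrict_of_ae_restrict_of_subset hOU hEq
    filter_upwards [hsym', hEq', hmem] with x hx1 hx2 hx3
    by_cases h0 : D.Gw P x = 0
    · have h1 : D.X P x = 0 := by
        unfold DatX.X len ev
        rw [h0]
        simp
      unfold DatX.Di
      rw [h1, zero_mul]
    · have h1 := (hC D.g' D.h' x (D.Gw P x) (D.Mw P x) (hg.posDef x (hOU hx3))
        (hh.symm x (hOU hx3)) hx1 (chr_symm hU hg (hOU hx3)) h0 (h2n x hx3) (hx2.1 h0)).1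
      exact mul_nonneg (hX0 x) h1
  · intro x hx
    unfold DatX.Su
    split_ifs with hc
    · exact hs.modified.collar x hx.1 hc (D.Gw P x)
    · exact mul_le_mul_of_nonneg_left
        (ABSMaux.surplus_le D.g' D.h' x (hg.posDef x (hOU hx)) (D.Gw P x)) (hX0 x)
  · obtain ⟨K, hK, hKU, hKe⟩ := ann_exhaust 1 D.R
    have h1 : AEMeasurable (D.X P) (volume.restrict D.Om) := by
      unfold DatX.Om
      rw [← hKe, aemeasurable_iUnion_iff]
      intro n
      exact hXm (K n) (hK n) ((hKU n).trans hOU)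
    exact h1.aestronglyMeasurable

end Pool.Agent.PFlow
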