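import Pool.Agent.PFlow.StmtsX2

/-!
# Exterior regions: the level set inequality for a setup
-/

set_option autoImplicit false

open MeasureTheory Filter Topology
open scoped ContDiff ENNReal

namespace Pool.Agent.PFlow

open Pool.Agent.PenroseSph

namespace XABSMaux

/-- A bounded measurable function of `w` times a function integrable over the level regions. -/
theorem int_mul {P : ParX} {D : DatX} {f : E3 → ℝ} (hf : LvlIntX P D f) (hw : Measurable (D.w P))
    (hm : MeasurableSet D.Om) {ψ : ℝ → ℝ} (hc : Continuous ψ)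
    (hcs : HasCompactSupport ψ) {s' : ℝ} (hs' : s' < D.sM P) (h4 : tsupport ψ ⊆ Set.Iic s') :
    IntegrableOn (fun x => ψ (D.w P x) * f x) D.Om := by
  set S : Set E3 := D.Om ∩ {x | D.w P x ≤ s'} with hS
  have hSm : MeasurableSet S := hm.inter (measurableSet_le hw measurable_const)
  obtain ⟨C, hC⟩ := hc.bounded_above_of_compact_support hcs
  have hi : IntegrableOn (fun x => ψ (D.w P x) * f x) S := by
    refine Integrable.bdd_mul (c := C) (hf s' hs')
      (hc.measurable.comp hw).aestronglyMeasurable ?_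
    exact Eventually.of_forall fun x => hC _
  have hz : ∀ x ∈ D.Om \ S, ψ (D.w P x) * f x = 0 := by
    intro x hx
    have hnot : D.w P x ∉ tsupport ψ := fun hmem => hx.2 ⟨hx.1, h4 hmem⟩
    rw [image_eq_zero_of_notMem_tsupport hnot, zero_mul]
  exact hi.of_forall_sdiff_eq_zero hm hz

end XABSMaux

open XABSMaux in
theorem XABSM (hXSETW : Stmt_XSETW) (hXABSI : Stmt_XABSI) (hMIX : Stmt_MIX) : Stmt_XABSM := by
  intro P D hS ψ hψ hψ0 hcs hsupp
  obtain ⟨-, -, -, -, -, -, hw, -, -, -, -, hR2, -, -, -, -, hs2, hsM, hKR,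
    hlK⟩ := hXSETW P D hS
  obtain ⟨-, -, -, hDi, hSu, hMat, -, hSuMat, -⟩ := hXABSI P D hS
  have hl := hS.l_ge
  have hgam := hS.gam_ge
  have heps := hS.eps_pos
  have heps' := hS.eps_le
  have hR : 64 ≤ D.R := by linarith
  have hOm : MeasurableSet D.Om := by
    unfold DatX.Om Ann
    exact (measurableSet_lt measurable_const measurable_norm).inter
      (measurableSet_lt measurable_norm measurable_const)
  obtain ⟨s', hs1, hs', h4⟩ : ∃ s', 1 < s' ∧ s' < D.sM P ∧ tsupport ψ ⊆ Set.Iio s' := by
    by_cases hne : (tsupport ψ).Nonempty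
    · have hK : IsCompact (tsupport ψ) := hcs
      obtain ⟨b, hb, hbmax⟩ := hK.exists_isGreatest hne
      have hb' : b < D.sM P := hsupp hb
      refine ⟨(max b 1 + D.sM P) / 2, ?_, ?_, ?_⟩
      · have := le_max_right b 1
        linarith
      · have : max b 1 < D.sM P := max_lt hb' (by linarith)
        linarith
      · intro x hx
        have e2 : x ≤ b := hbmax hx
        have e3 := le_max_left b 1
        have : max b 1 < D.sM P := max_lt hb' (by linarith)
        show x < _
        linarith
    · rw [Set.not_nonempty_iff_eq_empty] at hne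
      refine ⟨(1 + D.sM P) / 2, by linarith, by linarith, ?_⟩
      rw [hne]
      exact Set.empty_subset _
  have hII : Set.Iio s' ⊆ Set.Iic s' := Set.Iio_subset_Iic_self
  -- the shifted function
  set φ : ℝ → ℝ := fun s => ψ (s + P.eps / 4) with hφ
  have hφc : ContDiff ℝ 1 φ := hψ.comp (contDiff_id.add contDiff_const)
  have hφ0 : ∀ s, 0 ≤ φ s := fun s => hψ0 _
  have hφcs : HasCompactSupport φ :=
    hcs.comp_homeomorph (Homeomorph.addRight (P.eps / 4))
  have hφs : tsupport φ ⊆ Set.Iio (s' - P.eps / 4) := by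
    have h1 : tsupport φ ⊆ (fun s => s + P.eps / 4) ⁻¹' tsupport ψ :=
      tsupport_comp_subset_preimage ψ (by fun_prop)
    intro x hx
    have h2 : x + P.eps / 4 < s' := h4 (h1 hx)
    show x < _
    linarith
  have hder : ∀ s, deriv φ s = deriv ψ (s + P.eps / 4) := fun s =>
    deriv_comp_add_const ψ (P.eps / 4) s
  have hint : ∫ s in Set.Ioi 0, φ s = ∫ s in Set.Ioi (P.eps / 4), ψ s := by
    have h1 := (measurePreserving_add_right volume (P.eps / 4)).setIntegral_preimage_emb
      (measurableEmbedding_addRight (P.eps / 4)) ψ (Set.Ioi (P.eps / 4))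
    have h2 : (fun s : ℝ => s + P.eps / 4) ⁻¹' Set.Ioi (P.eps / 4) = Set.Ioi 0 := by
      ext s
      simp
    rw [h2] at h1
    exact h1
  have hm := hMIX P.eps D.R P.c (s' - P.eps / 4) D.g' D.h' D.u D.G D.M heps heps' (by linarith)
    hS.c_pos (by linarith) hS.modified.metric hS.modified.tensor hS.modified.mirror hS.sol
    hS.located.pos hS.located.strict hS.located.inner
    ⟨D.R / 2, by linarith, by linarith, fun x hx1 hx2 => by
      by_contra hcon
      push Not at hcon
      have h1 : D.w P x < D.sM P := by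
        unfold DatX.w
        linarith
      have h2 : x ∈ D.Om := ⟨by show (1:ℝ) < ‖x‖; linarith, hx2⟩
      have := hR2 x h2 h1
      linarith⟩ φ hφc hφ0 hφcs hφs
  simp only [hder] at hm
  rw [hint] at hm
  have hiDi := int_mul hDi hw hOm hψ.continuous hcs hs' (h4.trans hII)
  have hiSu := int_mul hSu hw hOm hψ.continuous hcs hs' (h4.trans hII)
  have hiMat := int_mul hMat hw hOm hψ.continuous hcs hs' (h4.trans hII)
  have hle : ∫ x in D.Om, ψ (D.w P x) * (D.Su P x + D.Di P x) * D.vol x
      ≤ ∫ x in D.Om, ψ (D.w P x) * (len D.g' x (D.Gw P x)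
          * (matter D.g' D.h' x (D.Gw P x) + diss P.eps D.g' D.h' x (D.Gw P x) (D.Mw P x)))
          * volDen D.g' x := by
    refine setIntegral_mono_on ?_ ?_ hOm ?_
    · refine (hiSu.add hiDi).congr (Eventually.of_forall fun x => ?_)
      simp only [Pi.add_apply]
      ring
    · refine (hiMat.add hiDi).congr (Eventually.of_forall fun x => ?_)
      simp only [Pi.add_apply, DatX.Di, DatX.X, DatX.vol]
      ring
    · intro x hx
      have h3 : 0 ≤ volDen D.g' x := Real.sqrt_nonneg _
      have h4 : D.Su P x + D.Di P x ≤ len D.g' x (D.Gw P x)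
          * (matter D.g' D.h' x (D.Gw P x) + diss P.eps D.g' D.h' x (D.Gw P x) (D.Mw P x)) := by
        have := hSuMat x hx
        simp only [DatX.Di, DatX.X] at this ⊢
        linarith
      exact mul_le_mul_of_nonneg_right (mul_le_mul_of_nonneg_left h4 (hψ0 _)) h3
  change -(∫ x in Ann 1 D.R, deriv ψ (D.w P x) * D.Phi P x * D.vol x) ≤ _
  change _ ≤ 4 * Real.pi * (∫ s in Set.Ioi (P.eps / 4), ψ s)
    - 1 / (2 - P.eps) * (∫ x in Ann 1 D.R, ψ (D.w P x) * D.Phi P x * D.vol x)
    - ∫ x in Ann 1 D.R, ψ (D.w P x) * (D.Su P x + D.Di P x) * D.vol x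
  refine hm.trans ?_
  exact sub_le_sub_left hle _

end Pool.Agent.PFlow
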