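import Pool.Agent.PFlow.StmtsX1
import Pool.Agent.PFlow.E.AFD

/-!
# Module XAFD: constants for the end, from radius one on
-/

open MeasureTheory Filter Topology
open scoped ContDiff ENNReal

namespace Pool.Agent.PFlow.XAFDaux

open Pool.Agent.PenroseSph Pool.Agent.PFlow
open Pool.Agent.PFlow.AFDaux (isCompact_cAnn decay_mono ev_smul ev_posDef unitCov
  isCompact_unitCov ev_near_one)

theorem isOpen_outside (δ : ℝ) : IsOpen (Outside δ) :=
  isOpen_lt continuous_const continuous_norm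

theorem cAnn_subset {δ : ℝ} (hδ : 0 < δ) (b : ℝ) : cAnn 1 b ⊆ Outside δ := by
  intro x hx
  have h1 : 1 ≤ ‖x‖ := hx.1
  change 1 - δ < ‖x‖
  linarith

theorem contDiffOn_pd {U : Set E3} (hU : IsOpen U) {f : E3 → ℝ} (hf : ContDiffOn ℝ ∞ f U)
    (k : Fin 3) : ContDiffOn ℝ ∞ (pd k f) U := by
  have h1 : ContDiffOn ℝ ∞ (fderiv ℝ f) U := hf.fderiv_of_isOpen hU (by simp)
  unfold pd
  exact h1.clm_apply contDiffOn_const

/-- A finite family of continuous functions on the open set is bounded on annuli. -/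
theorem bound_family {ι : Type} [Fintype ι] {δ : ℝ} (hδ : 0 < δ) (F : ι → E3 → ℝ)
    (hF : ∀ i, ContinuousOn (F i) (Outside δ)) (R : ℝ) :
    ∃ M : ℝ, 0 < M ∧ ∀ i, ∀ x ∈ cAnn 1 R, |F i x| ≤ M := by
  have h1 : ∀ i, ∃ M : ℝ, ∀ x ∈ cAnn 1 R, |F i x| ≤ M := by
    intro i
    obtain ⟨M, hM⟩ := (isCompact_cAnn 1 R).exists_bound_of_continuousOn
      ((hF i).mono (cAnn_subset hδ R))
    exact ⟨M, fun x hx => by simpa [Real.norm_eq_abs] using hM x hx⟩
  choose M hM using h1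
  refine ⟨1 + ∑ i, |M i|, by positivity, fun i x hx => ?_⟩
  have h2 : |M i| ≤ ∑ j, |M j| :=
    Finset.single_le_sum (f := fun j => |M j|) (fun j _ => abs_nonneg _) (Finset.mem_univ i)
  have h3 := hM i x hx
  have h4 := le_abs_self (M i)
  linarith

theorem decay_one {g h : TensorField} {δ : ℝ} (hδ : 0 < δ)
    (hg : ∀ i j, ContDiffOn ℝ ∞ (fun x => g x i j) (Outside δ))
    (hh : ∀ i j, ContDiffOn ℝ ∞ (fun x => h x i j) (Outside δ))
    (hd : ∃ C R : ℝ, DecayFrom C R g h) : ∃ C : ℝ, 0 < C ∧ DecayFrom C 1 g h := by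
  obtain ⟨C, R, hd⟩ := hd
  obtain ⟨M0, hM0, b0⟩ := bound_family (ι := Fin 3 × Fin 3) hδ
    (fun p x => g x p.1 p.2 - (1 : Bil) p.1 p.2)
    (fun p => ((hg p.1 p.2).continuousOn).sub continuousOn_const) (max R 1)
  obtain ⟨M1, hM1, b1⟩ := bound_family (ι := Fin 3 × Fin 3 × Fin 3) hδ
    (fun p x => pd p.2.2 (fun y => g y p.1 p.2.1) x)
    (fun p => (contDiffOn_pd (isOpen_outside δ) (hg p.1 p.2.1) p.2.2).continuousOn) (max R 1)
  obtain ⟨M2, hM2, b2⟩ := bound_family (ι := Fin 3 × Fin 3 × Fin 3 × Fin 3) hδ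
    (fun p x => pd p.2.2.1 (pd p.2.2.2 (fun y => g y p.1 p.2.1)) x)
    (fun p => (contDiffOn_pd (isOpen_outside δ) (contDiffOn_pd (isOpen_outside δ) (hg p.1 p.2.1) p.2.2.2) p.2.2.1).continuousOn)
    (max R 1)
  obtain ⟨N0, hN0, c0⟩ := bound_family (ι := Fin 3 × Fin 3) hδ
    (fun p x => h x p.1 p.2) (fun p => (hh p.1 p.2).continuousOn) (max R 1)
  obtain ⟨N1, hN1, c1⟩ := bound_family (ι := Fin 3 × Fin 3 × Fin 3) hδ
    (fun p x => pd p.2.2 (fun y => h y p.1 p.2.1) x)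
    (fun p => (contDiffOn_pd (isOpen_outside δ) (hh p.1 p.2.1) p.2.2).continuousOn) (max R 1)
  set Q : ℝ := max R 1 with hQ
  have hQ1 : 1 ≤ Q := le_max_right _ _
  have hQR : R ≤ Q := le_max_left _ _
  set M : ℝ := M0 + M1 + M2 + N0 + N1 with hM
  have hMp : 0 < M := by positivity
  refine ⟨|C| + M * Q ^ 3, by positivity, ?_⟩
  intro x hx i j
  have hxp : 0 < ‖x‖ := by linarith
  by_cases hxR : R ≤ ‖x‖
  · obtain ⟨h1, h2, h3, h4, h5⟩ := hd x hxR i j
    have hCC : C ≤ |C| + M * Q ^ 3 := by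
      have : 0 ≤ M * Q ^ 3 := by positivity
      have := le_abs_self C
      linarith
    have hm : ∀ n : ℕ, C / ‖x‖ ^ n ≤ (|C| + M * Q ^ 3) / ‖x‖ ^ n := fun n =>
      div_le_div_of_nonneg_right hCC (by positivity)
    have hm1 : C / ‖x‖ ≤ (|C| + M * Q ^ 3) / ‖x‖ := by simpa using hm 1
    exact ⟨h1.trans hm1, fun k => (h2 k).trans (hm 2), fun k l => (h3 k l).trans (hm 3),
      h4.trans (hm 2), fun k => (h5 k).trans (hm 3)⟩
  · have hxQ : ‖x‖ ≤ Q := by linarith [not_le.mp hxR]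
    have hmem : x ∈ cAnn 1 Q := ⟨hx, hxQ⟩
    have hm : ∀ n : ℕ, n ≤ 3 → ∀ t : ℝ, t ≤ M → t ≤ (|C| + M * Q ^ 3) / ‖x‖ ^ n := by
      intro n hn t ht
      rw [le_div_iff₀ (by positivity)]
      have e1 : ‖x‖ ^ n ≤ Q ^ n := pow_le_pow_left₀ hxp.le hxQ n
      have e2 : Q ^ n ≤ Q ^ 3 := pow_le_pow_right₀ hQ1 hn
      have e3 : t * ‖x‖ ^ n ≤ M * ‖x‖ ^ n := mul_le_mul_of_nonneg_right ht (by positivity)
      have e4 : M * ‖x‖ ^ n ≤ M * Q ^ 3 := mul_le_mul_of_nonneg_left (e1.trans e2) hMp.le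
      have := abs_nonneg C
      linarith
    have hm1 : ∀ t : ℝ, t ≤ M → t ≤ (|C| + M * Q ^ 3) / ‖x‖ := by
      intro t ht
      simpa using hm 1 (by norm_num) t ht
    refine ⟨hm1 _ ?_, fun k => hm 2 (by norm_num) _ ?_, fun k l => hm 3 le_rfl _ ?_,
      hm 2 (by norm_num) _ ?_, fun k => hm 3 le_rfl _ ?_⟩
    · have := b0 (i, j) x hmem
      simp only at this
      linarith
    · have := b1 (i, j, k) x hmem
      simp only at this
      linarith
    · have := b2 (i, j, k, l) x hmem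
      simp only at this
      linarith
    · have := c0 (i, j) x hmem
      simp only at this
      linarith
    · have := c1 (i, j, k) x hmem
      simp only at this
      linarith

theorem elliptic_annulus {g : TensorField} {δ : ℝ} (hδ : 0 < δ) (hg : MetricOn (Outside δ) g) (R : ℝ) :
    ∃ C : ℝ, 0 < C ∧ ∀ x ∈ cAnn 1 R, ∀ v : Cov,
      (∑ i, v i ^ 2) ≤ C * ev (g x) v v ∧ ev (g x) v v ≤ C * ∑ i, v i ^ 2 := by
  have hcomp : IsCompact (cAnn 1 R ×ˢ unitCov) := (isCompact_cAnn 1 R).prod isCompact_unitCov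
  have hcont : ContinuousOn (fun p : E3 × Cov => ev (g p.1) p.2 p.2) (cAnn 1 R ×ˢ unitCov) := by
    unfold ev
    refine continuousOn_finsetSum _ fun i _ => continuousOn_finsetSum _ fun j _ => ?_
    refine (ContinuousOn.mul ?_ ?_).mul ?_
    · exact ((hg.smooth i j).continuousOn.mono (cAnn_subset hδ R)).comp continuousOn_fst
        (fun p hp => hp.1)
    · exact ((continuous_apply i).comp continuous_snd).continuousOn
    · exact ((continuous_apply j).comp continuous_snd).continuousOn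
  have hpos : ∀ p ∈ cAnn 1 R ×ˢ unitCov, 0 < ev (g p.1) p.2 p.2 := by
    intro p hp
    refine ev_posDef (hg.posDef _ (cAnn_subset hδ R hp.1)) ?_
    intro h0
    have h1 : ∑ i, p.2 i ^ 2 = 1 := hp.2
    rw [h0] at h1
    simp at h1
  obtain ⟨M, hM⟩ := hcomp.exists_bound_of_continuousOn hcont
  obtain ⟨N, hN⟩ := hcomp.exists_bound_of_continuousOn
    (hcont.inv₀ fun p hp => (hpos p hp).ne')
  refine ⟨1 + |M| + |N|, by positivity, ?_⟩
  intro x hx v
  by_cases hv : v = 0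
  · subst hv
    simp [ev]
  have hs : 0 < ∑ i, v i ^ 2 := by
    obtain ⟨i, hi⟩ := Function.ne_iff.mp hv
    have h1 : v i ^ 2 ≤ ∑ j, v j ^ 2 :=
      Finset.single_le_sum (f := fun j => v j ^ 2) (fun j _ => sq_nonneg _) (Finset.mem_univ i)
    have h2 : 0 < v i ^ 2 := by
      have : v i ≠ 0 := by simpa using hi
      positivity
    linarith
  set s : ℝ := Real.sqrt (∑ i, v i ^ 2) with hsdef
  have hsp : 0 < s := Real.sqrt_pos.mpr hs
  have hs2 : s ^ 2 = ∑ i, v i ^ 2 := Real.sq_sqrt hs.le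
  have hw : (s⁻¹ • v) ∈ unitCov := by
    show ∑ i, (s⁻¹ • v) i ^ 2 = 1
    have : ∑ i, (s⁻¹ • v) i ^ 2 = (s⁻¹) ^ 2 * ∑ i, v i ^ 2 := by
      rw [Finset.mul_sum]
      refine Finset.sum_congr rfl fun i _ => ?_
      simp only [Pi.smul_apply, smul_eq_mul]
      ring
    rw [this, ← hs2]
    field_simp
  have hmem : (x, s⁻¹ • v) ∈ cAnn 1 R ×ˢ unitCov := ⟨hx, hw⟩
  have hev : ev (g x) v v = s ^ 2 * ev (g x) (s⁻¹ • v) (s⁻¹ • v) := by
    rw [ev_smul]
    field_simp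
  have hp := hpos _ hmem
  have h1 := hM _ hmem
  have h2 := hN _ hmem
  simp only [Real.norm_eq_abs, Pi.inv_apply] at h1 h2 hp
  set E : ℝ := ev (g x) (s⁻¹ • v) (s⁻¹ • v) with hE
  rw [← hs2, hev]
  rw [abs_of_pos hp] at h1
  rw [abs_of_pos (inv_pos.mpr hp)] at h2
  have h3 : E ≤ 1 + |M| + |N| := by
    have := le_abs_self M
    have := abs_nonneg N
    linarith
  have h4 : 1 ≤ (1 + |M| + |N|) * E := by
    have h5 : E⁻¹ ≤ 1 + |M| + |N| := by
      have := le_abs_self N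
      have := abs_nonneg M
      linarith
    calc (1 : ℝ) = E⁻¹ * E := by field_simp
      _ ≤ (1 + |M| + |N|) * E := mul_le_mul_of_nonneg_right h5 hp.le
  constructor
  · nlinarith [sq_nonneg s]
  · nlinarith [sq_nonneg s]

theorem elliptic_one {g h : TensorField} {δ C : ℝ} (hδ : 0 < δ) (hg : MetricOn (Outside δ) g)
    (hd : DecayFrom C 1 g h) :
    ∃ C' : ℝ, 0 < C' ∧ ∀ x : E3, 1 ≤ ‖x‖ → ∀ v : Cov,
      (∑ i, v i ^ 2) ≤ C' * ev (g x) v v ∧ ev (g x) v v ≤ C' * ∑ i, v i ^ 2 := by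
  obtain ⟨A, hA, hA2⟩ := elliptic_annulus hδ hg (max 1 (6 * C))
  have hpos : ∀ x : E3, 1 ≤ ‖x‖ → ∀ v : Cov, 0 ≤ ev (g x) v v := by
    intro x hx v
    by_cases hv : v = 0
    · subst hv; simp [ev]
    · refine (ev_posDef (hg.posDef x ?_) hv).le
      change 1 - δ < ‖x‖
      linarith
  refine ⟨A + 2, by positivity, ?_⟩
  intro x hx v
  have hn : 0 ≤ ∑ i, v i ^ 2 := Finset.sum_nonneg fun i _ => sq_nonneg _
  have he := hpos x hx v
  by_cases hxR : ‖x‖ ≤ max 1 (6 * C)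
  · obtain ⟨h1, h2⟩ := hA2 x ⟨hx, hxR⟩ v
    constructor
    · nlinarith
    · nlinarith
  · have hx6 : 6 * C < ‖x‖ := lt_of_le_of_lt (le_max_right _ _) (not_le.mp hxR)
    have hxp : 0 < ‖x‖ := by linarith
    have hδ' : C / ‖x‖ ≤ 1 / 6 := by
      rw [div_le_iff₀ hxp]
      linarith
    obtain ⟨h1, h2⟩ := ev_near_one hδ' (fun i j => (hd x hx i j).1) v
    constructor
    · nlinarith
    · nlinarith

end Pool.Agent.PFlow.XAFDaux

namespace Pool.Agent.PFlow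

open Pool.Agent.PenroseSph XAFDaux

theorem XAFD : Stmt_XAFD := by
  intro g k δ hδ hg hk hd
  obtain ⟨C1, hC1, d1⟩ := decay_one hδ hg.smooth hk.smooth hd
  obtain ⟨C3, hC3, e1⟩ := elliptic_one hδ hg d1
  refine ⟨C1 + C3, by positivity, AFDaux.decay_mono d1 one_pos (by linarith), ?_⟩
  intro x hx v
  obtain ⟨h1, h2⟩ := e1 x hx v
  have hn : 0 ≤ ∑ i, v i ^ 2 := Finset.sum_nonneg fun i _ => sq_nonneg _
  have he : 0 ≤ ev (g x) v v := by
    by_contra hneg
    nlinarith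
  constructor
  · nlinarith
  · nlinarith

end Pool.Agent.PFlow
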