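import Pool.Agent.PFlow.StmtsX1
import Pool.Agent.PenroseSph.Calc

/-!
# Exterior regions: outside the collar the modified data are close to the data (XCLO)
-/

open MeasureTheory Filter Topology
open scoped ContDiff ENNReal

namespace Pool.Agent.PFlow

open Pool.Agent.PenroseSph

namespace XCLOaux

/-! ### Families of functions with bounded derivatives -/

section Families

variable (P : ℝ → Prop) (A : ℝ → Set E3)

/-- Smooth and uniformly bounded families. -/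
def B0 (u : ℝ → E3 → ℝ) : Prop :=
  (∀ τ, P τ → ContDiffOn ℝ ∞ (u τ) (A τ)) ∧ ∃ C : ℝ, ∀ τ, P τ → ∀ x ∈ A τ, |u τ x| ≤ C

/-- Smooth families with uniformly bounded derivatives up to the order `k`. -/
def Bd : ℕ → (ℝ → E3 → ℝ) → Prop
  | 0, u => B0 P A u
  | k + 1, u => B0 P A u ∧ ∀ m, Bd k (fun τ => pd m (u τ))

variable {P A}

theorem Bd.b0 {k : ℕ} {u : ℝ → E3 → ℝ} (h : Bd P A k u) : B0 P A u := by
  cases k with
  | zero => exact h
  | succ k => exact h.1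

theorem Bd.pd {k : ℕ} {u : ℝ → E3 → ℝ} (h : Bd P A (k + 1) u) (m : Fin 3) :
    Bd P A k (fun τ => pd m (u τ)) := h.2 m

theorem Bd.pred {k : ℕ} : ∀ {u : ℝ → E3 → ℝ}, Bd P A (k + 1) u → Bd P A k u := by
  induction k with
  | zero => intro u h; exact h.1
  | succ k ih => intro u h; exact ⟨h.1, fun m => ih (h.2 m)⟩

theorem pd_smooth {U : Set E3} (hU : IsOpen U) {f : E3 → ℝ} (hf : ContDiffOn ℝ ∞ f U)
    (m : Fin 3) : ContDiffOn ℝ ∞ (PenroseSph.pd m f) U := by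
  have h1 : ContDiffOn ℝ ∞ (fderiv ℝ f) U := hf.fderiv_of_isOpen hU (by norm_cast)
  exact h1.clm_apply contDiffOn_const

theorem diffAt {U : Set E3} (hU : IsOpen U) {f : E3 → ℝ} (hf : ContDiffOn ℝ ∞ f U) {x : E3}
    (hx : x ∈ U) : DifferentiableAt ℝ f x :=
  (hf.contDiffAt (hU.mem_nhds hx)).differentiableAt (by simp)

theorem B0.congr {u v : ℝ → E3 → ℝ} (h : ∀ τ, P τ → Set.EqOn (v τ) (u τ) (A τ))
    (hu : B0 P A u) : B0 P A v := by
  refine ⟨fun τ hτ => (hu.1 τ hτ).congr (h τ hτ), ?_⟩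
  obtain ⟨C, hC⟩ := hu.2
  exact ⟨C, fun τ hτ x hx => by rw [h τ hτ hx]; exact hC τ hτ x hx⟩

theorem Bd.congr (hA : ∀ τ, P τ → IsOpen (A τ)) {k : ℕ} : ∀ {u v : ℝ → E3 → ℝ},
    (∀ τ, P τ → Set.EqOn (v τ) (u τ) (A τ)) → Bd P A k u → Bd P A k v := by
  induction k with
  | zero => intro u v h hu; exact B0.congr h hu
  | succ k ih =>
    intro u v h hu
    refine ⟨B0.congr h hu.1, fun m => ih (fun τ hτ x hx => ?_) (hu.2 m)⟩
    exact pd_congr (Filter.eventuallyEq_of_mem ((hA τ hτ).mem_nhds hx) (h τ hτ))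

theorem Bd.add (hA : ∀ τ, P τ → IsOpen (A τ)) {k : ℕ} : ∀ {u v : ℝ → E3 → ℝ},
    Bd P A k u → Bd P A k v → Bd P A k (fun τ x => u τ x + v τ x) := by
  have h0 : ∀ {u v : ℝ → E3 → ℝ}, B0 P A u → B0 P A v → B0 P A (fun τ x => u τ x + v τ x) := by
    intro u v hu hv
    refine ⟨fun τ hτ => (hu.1 τ hτ).add (hv.1 τ hτ), ?_⟩
    obtain ⟨C, hC⟩ := hu.2
    obtain ⟨D, hD⟩ := hv.2
    exact ⟨C + D, fun τ hτ x hx => (abs_add_le _ _).trans (add_le_add (hC τ hτ x hx) (hD τ hτ x hx))⟩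
  induction k with
  | zero => intro u v hu hv; exact h0 hu hv
  | succ k ih =>
    intro u v hu hv
    refine ⟨h0 hu.1 hv.1, fun m => Bd.congr hA ?_ (ih (hu.2 m) (hv.2 m))⟩
    intro τ hτ x hx
    exact pd_add (diffAt (hA τ hτ) (hu.1.1 τ hτ) hx) (diffAt (hA τ hτ) (hv.1.1 τ hτ) hx)

theorem Bd.mul (hA : ∀ τ, P τ → IsOpen (A τ)) {k : ℕ} : ∀ {u v : ℝ → E3 → ℝ},
    Bd P A k u → Bd P A k v → Bd P A k (fun τ x => u τ x * v τ x) := by
  have h0 : ∀ {u v : ℝ → E3 → ℝ}, B0 P A u → B0 P A v → B0 P A (fun τ x => u τ x * v τ x) := by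
    intro u v hu hv
    refine ⟨fun τ hτ => (hu.1 τ hτ).mul (hv.1 τ hτ), ?_⟩
    obtain ⟨C, hC⟩ := hu.2
    obtain ⟨D, hD⟩ := hv.2
    refine ⟨C * D, fun τ hτ x hx => ?_⟩
    rw [abs_mul]
    exact mul_le_mul (hC τ hτ x hx) (hD τ hτ x hx) (abs_nonneg _)
      ((abs_nonneg _).trans (hC τ hτ x hx))
  induction k with
  | zero => intro u v hu hv; exact h0 hu hv
  | succ k ih =>
    intro u v hu hv
    refine ⟨h0 hu.1 hv.1, fun m => Bd.congr hA ?_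
      (Bd.add hA (ih hu.pred (hv.2 m)) (ih hv.pred (hu.2 m)))⟩
    intro τ hτ x hx
    exact pd_mul (diffAt (hA τ hτ) (hu.1.1 τ hτ) hx) (diffAt (hA τ hτ) (hv.1.1 τ hτ) hx)

/-- Bounded constants. -/
theorem Bd.const {c : ℝ → ℝ} (hc : ∃ C : ℝ, ∀ τ, P τ → |c τ| ≤ C) {k : ℕ} :
    Bd P A k (fun τ _ => c τ) := by
  have h0 : ∀ {c : ℝ → ℝ}, (∃ C : ℝ, ∀ τ, P τ → |c τ| ≤ C) → B0 P A (fun τ _ => c τ) := by
    intro c hc
    obtain ⟨C, hC⟩ := hc
    exact ⟨fun τ _ => contDiffOn_const, C, fun τ hτ x _ => hC τ hτ⟩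
  induction k generalizing c with
  | zero => exact h0 hc
  | succ k ih =>
    refine ⟨h0 hc, fun m => ?_⟩
    have h1 : (fun τ => PenroseSph.pd m (fun _ : E3 => c τ)) = fun _ _ => (0 : ℝ) := by
      funext τ x
      exact pd_const (c τ)
    rw [h1]
    exact ih ⟨0, fun τ _ => by simp⟩

end Families

/-! ### Composition with smooth functions -/

section Comp

/-- The derivative in the direction of the first variable. -/
noncomputable def ds (H : ℝ × E3 → ℝ) (z : ℝ × E3) : ℝ := fderiv ℝ H z (1, 0)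

/-- The derivative in the direction of a coordinate of the second variable. -/
noncomputable def dx (m : Fin 3) (H : ℝ × E3 → ℝ) (z : ℝ × E3) : ℝ :=
  fderiv ℝ H z (0, EuclideanSpace.single m 1)

theorem ds_smooth {W : Set (ℝ × E3)} (hW : IsOpen W) {H : ℝ × E3 → ℝ}
    (hH : ContDiffOn ℝ ∞ H W) : ContDiffOn ℝ ∞ (ds H) W := by
  have h1 : ContDiffOn ℝ ∞ (fderiv ℝ H) W := hH.fderiv_of_isOpen hW (by norm_cast)
  exact h1.clm_apply contDiffOn_const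

theorem dx_smooth {W : Set (ℝ × E3)} (hW : IsOpen W) {H : ℝ × E3 → ℝ}
    (hH : ContDiffOn ℝ ∞ H W) (m : Fin 3) : ContDiffOn ℝ ∞ (dx m H) W := by
  have h1 : ContDiffOn ℝ ∞ (fderiv ℝ H) W := hH.fderiv_of_isOpen hW (by norm_cast)
  exact h1.clm_apply contDiffOn_const

theorem pd_comp {H : ℝ × E3 → ℝ} {w : E3 → ℝ} {x : E3}
    (hH : DifferentiableAt ℝ H (w x, x)) (hw : DifferentiableAt ℝ w x) (m : Fin 3) :
    pd m (fun y => H (w y, y)) x = ds H (w x, x) * pd m w x + dx m H (w x, x) := by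
  have h1 : HasFDerivAt (fun y => (w y, y)) ((fderiv ℝ w x).prod (ContinuousLinearMap.id ℝ E3)) x :=
    hw.hasFDerivAt.prodMk (hasFDerivAt_id x)
  have h2 : HasFDerivAt (fun y => H (w y, y)) ((fderiv ℝ H (w x, x)).comp
      ((fderiv ℝ w x).prod (ContinuousLinearMap.id ℝ E3))) x :=
    HasFDerivAt.comp x (g := H) (f := fun y => (w y, y)) hH.hasFDerivAt h1
  unfold pd ds dx
  rw [h2.fderiv]
  have h3 : ((fderiv ℝ w x).prod (ContinuousLinearMap.id ℝ E3)) (EuclideanSpace.single m 1)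
      = (fderiv ℝ w x (EuclideanSpace.single m 1)) • ((1 : ℝ), (0 : E3))
        + ((0 : ℝ), (EuclideanSpace.single m 1 : E3)) := by
    ext <;> simp
  rw [ContinuousLinearMap.comp_apply, h3, map_add, map_smul, smul_eq_mul, mul_comm]

variable {P : ℝ → Prop} {A : ℝ → Set E3}

theorem comp_bd (hA : ∀ τ, P τ → IsOpen (A τ)) {W K : Set (ℝ × E3)} (hW : IsOpen W)
    (hK : IsCompact K) (hKW : K ⊆ W) {w : ℝ → E3 → ℝ}
    (hwK : ∀ τ, P τ → ∀ x ∈ A τ, (w τ x, x) ∈ K) {k : ℕ} (hw : Bd P A k w) :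
    ∀ {H : ℝ × E3 → ℝ}, ContDiffOn ℝ ∞ H W → Bd P A k (fun τ x => H (w τ x, x)) := by
  have h0 : ∀ {H : ℝ × E3 → ℝ}, ContDiffOn ℝ ∞ H W → B0 P A (fun τ x => H (w τ x, x)) := by
    intro H hH
    refine ⟨fun τ hτ => ?_, ?_⟩
    · exact hH.comp ((hw.b0.1 τ hτ).prodMk contDiffOn_id) fun x hx => hKW (hwK τ hτ x hx)
    · obtain ⟨C, hC⟩ := hK.exists_bound_of_continuousOn (hH.continuousOn.mono hKW)
      exact ⟨C, fun τ hτ x hx => hC _ (hwK τ hτ x hx)⟩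
  induction k with
  | zero => intro H hH; exact h0 hH
  | succ k ih =>
    intro H hH
    refine ⟨h0 hH, fun m => Bd.congr hA ?_ (Bd.add hA (Bd.mul hA
      (ih hw.pred (ds_smooth hW hH)) (hw.2 m)) (ih hw.pred (dx_smooth hW hH m)))⟩
    intro τ hτ x hx
    have h1 : DifferentiableAt ℝ H (w τ x, x) :=
      (hH.contDiffAt (hW.mem_nhds (hKW (hwK τ hτ x hx)))).differentiableAt (by simp)
    exact pd_comp h1 (diffAt (hA τ hτ) (hw.b0.1 τ hτ) hx) m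

theorem diff_bd (hA : ∀ τ, P τ → IsOpen (A τ)) (hP : ∀ τ, P τ → 0 < τ) {W K : Set (ℝ × E3)}
    (hW : IsOpen W) (hK : IsCompact K) (hKW : K ⊆ W) {w : ℝ → E3 → ℝ}
    (hwK : ∀ τ, P τ → ∀ x ∈ A τ, ∀ θ : ℝ, 0 ≤ θ → θ ≤ 1 → (θ * w τ x, x) ∈ K) {k : ℕ}
    (hw : Bd P A k w) (hw' : Bd P A k (fun τ x => τ⁻¹ * w τ x)) :
    ∀ {H : ℝ × E3 → ℝ}, ContDiffOn ℝ ∞ H W →
      Bd P A k (fun τ x => τ⁻¹ * (H (w τ x, x) - H (0, x))) := by
  have hw1 : ∀ τ, P τ → ∀ x ∈ A τ, (w τ x, x) ∈ K := fun τ hτ x hx => by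
    have := hwK τ hτ x hx 1 zero_le_one le_rfl
    rwa [one_mul] at this
  have hw0 : ∀ τ, P τ → ∀ x ∈ A τ, ((0 : ℝ), x) ∈ K := fun τ hτ x hx => by
    have := hwK τ hτ x hx 0 le_rfl zero_le_one
    rwa [zero_mul] at this
  have h0 : ∀ {H : ℝ × E3 → ℝ}, ContDiffOn ℝ ∞ H W →
      B0 P A (fun τ x => τ⁻¹ * (H (w τ x, x) - H (0, x))) := by
    intro H hH
    refine ⟨fun τ hτ => ?_, ?_⟩
    · have h1 : ContDiffOn ℝ ∞ (fun x => H (w τ x, x)) (A τ) :=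
        hH.comp ((hw.b0.1 τ hτ).prodMk contDiffOn_id) fun x hx => hKW (hw1 τ hτ x hx)
      have h2 : ContDiffOn ℝ ∞ (fun x => H ((0 : ℝ), x)) (A τ) :=
        hH.comp (contDiffOn_const.prodMk contDiffOn_id) fun x hx => hKW (hw0 τ hτ x hx)
      exact contDiffOn_const.mul (h1.sub h2)
    · obtain ⟨C, hC⟩ := hK.exists_bound_of_continuousOn ((ds_smooth hW hH).continuousOn.mono hKW)
      obtain ⟨D, hD⟩ := hw'.b0.2
      refine ⟨C * D, fun τ hτ x hx => ?_⟩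
      have hτ0 := hP τ hτ
      have h1 : ∀ θ ∈ Set.Icc (0 : ℝ) 1, HasDerivWithinAt (fun θ : ℝ => H (θ * w τ x, x))
          (ds H (θ * w τ x, x) * w τ x) (Set.Icc 0 1) θ := by
        intro θ hθ
        have h2 : DifferentiableAt ℝ H (θ * w τ x, x) :=
          (hH.contDiffAt (hW.mem_nhds (hKW (hwK τ hτ x hx θ hθ.1 hθ.2)))).differentiableAt (by simp)
        have h3 : HasDerivAt (fun θ : ℝ => (θ * w τ x, x)) (w τ x, (0 : E3)) θ := by
          have h4 : HasDerivAt (fun θ : ℝ => θ * w τ x) (w τ x) θ := by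
            have h5 := (hasDerivAt_id θ).mul_const (w τ x)
            rw [one_mul] at h5
            exact h5
          exact h4.prodMk (hasDerivAt_const θ x)
        have h6 : HasDerivAt (fun θ : ℝ => H (θ * w τ x, x))
            (fderiv ℝ H (θ * w τ x, x) (w τ x, (0 : E3))) θ :=
          HasFDerivAt.comp_hasDerivAt (f := fun θ : ℝ => (θ * w τ x, x)) θ h2.hasFDerivAt h3
        have h7 : fderiv ℝ H (θ * w τ x, x) (w τ x, (0 : E3)) = ds H (θ * w τ x, x) * w τ x := by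
          have h8 : (w τ x, (0 : E3)) = (w τ x) • ((1 : ℝ), (0 : E3)) := by
            ext <;> simp
          rw [h8, map_smul, smul_eq_mul, mul_comm]
          rfl
        rw [h7] at h6
        exact h6.hasDerivWithinAt
      have h9 : ∀ θ ∈ Set.Ico (0 : ℝ) 1, ‖ds H (θ * w τ x, x) * w τ x‖ ≤ C * |w τ x| := by
        intro θ hθ
        rw [norm_mul]
        exact mul_le_mul_of_nonneg_right (hC _ (hwK τ hτ x hx θ hθ.1 hθ.2.le)) (norm_nonneg _)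
      have h10 := norm_image_sub_le_of_norm_deriv_le_segment_01' h1 h9
      have h11 : |τ⁻¹ * w τ x| ≤ D := hD τ hτ x hx
      have hC0 : 0 ≤ C := (norm_nonneg _).trans (hC _ (hw0 τ hτ x hx))
      simp only [one_mul, zero_mul, Real.norm_eq_abs] at h10
      rw [abs_mul, abs_of_pos (inv_pos.mpr hτ0)] at h11 ⊢
      calc τ⁻¹ * |H (w τ x, x) - H (0, x)| ≤ τ⁻¹ * (C * |w τ x|) :=
            mul_le_mul_of_nonneg_left h10 (inv_pos.mpr hτ0).le
        _ = C * (τ⁻¹ * |w τ x|) := by ring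
        _ ≤ C * D := mul_le_mul_of_nonneg_left h11 hC0
  induction k with
  | zero => intro H hH; exact h0 hH
  | succ k ih =>
    intro H hH
    refine ⟨h0 hH, fun m => Bd.congr hA ?_ (Bd.add hA (Bd.mul hA
      (comp_bd hA hW hK hKW hw1 hw.pred (ds_smooth hW hH)) (hw'.2 m))
      (ih hw.pred hw'.pred (dx_smooth hW hH m)))⟩
    intro τ hτ x hx
    have h1 : DifferentiableAt ℝ H (w τ x, x) :=
      (hH.contDiffAt (hW.mem_nhds (hKW (hw1 τ hτ x hx)))).differentiableAt (by simp)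
    have h2 : DifferentiableAt ℝ H (0, x) :=
      (hH.contDiffAt (hW.mem_nhds (hKW (hw0 τ hτ x hx)))).differentiableAt (by simp)
    have hwd : DifferentiableAt ℝ (w τ) x := diffAt (hA τ hτ) (hw.b0.1 τ hτ) hx
    have h3 := pd_comp h1 hwd m
    have h4 := pd_comp (w := fun _ => (0 : ℝ)) h2 (differentiableAt_const 0) m
    have d1 : DifferentiableAt ℝ (fun y => H (w τ y, y)) x :=
      DifferentiableAt.comp (g := H) x h1 (hwd.prodMk differentiableAt_id)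
    have d2 : DifferentiableAt ℝ (fun y : E3 => H (0, y)) x :=
      DifferentiableAt.comp (g := H) x h2 ((differentiableAt_const (0 : ℝ)).prodMk
        differentiableAt_id)
    change pd m (fun x => τ⁻¹ * (H (w τ x, x) - H (0, x))) x = ds H (w τ x, x) *
      pd m (fun x => τ⁻¹ * w τ x) x + τ⁻¹ * (dx m H (w τ x, x) - dx m H (0, x))
    have d3 : DifferentiableAt ℝ (fun y => H (w τ y, y) - H (0, y)) x := d1.sub d2
    rw [pd_const_mul _ d3, pd_sub d1 d2, h3, h4, pd_const_mul _ hwd, pd_const]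
    ring

/-- Fixed smooth functions. -/
theorem fixed_bd (hA : ∀ τ, P τ → IsOpen (A τ)) {U K : Set E3} (hU : IsOpen U)
    (hK : IsCompact K) (hKU : K ⊆ U) (hAK : ∀ τ, P τ → A τ ⊆ K) {f : E3 → ℝ}
    (hf : ContDiffOn ℝ ∞ f U) (k : ℕ) : Bd P A k (fun _ => f) := by
  have h1 := comp_bd (P := P) (A := A) hA (W := Set.univ ×ˢ U) (K := {0} ×ˢ K)
    (isOpen_univ.prod hU) (isCompact_singleton.prod hK) (Set.prod_mono (Set.subset_univ _) hKU)
    (w := fun _ _ => 0) (fun τ hτ x hx => ⟨rfl, hAK τ hτ hx⟩) (k := k)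
    (Bd.const ⟨0, fun τ _ => by simp⟩) (H := fun z => f z.2)
    (hf.comp contDiffOn_snd fun z hz => hz.2)
  exact h1

end Comp

/-! ### Radial functions -/

section Radial

variable (P : ℝ → Prop)

/-- One variable families which are bounded for `t ≥ τ`. -/
def V0 (v : ℝ → ℝ → ℝ) : Prop :=
  (∀ τ, P τ → ContDiff ℝ ∞ (v τ)) ∧ ∃ C : ℝ, ∀ τ, P τ → ∀ t, τ ≤ t → |v τ t| ≤ C

/-- One variable families which are bounded for `t ≥ τ` with their derivatives up to the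
order `k`. -/
def VB : ℕ → (ℝ → ℝ → ℝ) → Prop
  | 0, v => V0 P v
  | k + 1, v => V0 P v ∧ VB k (fun τ => deriv (v τ))

variable {P}

theorem VB.v0 {k : ℕ} {v : ℝ → ℝ → ℝ} (h : VB P k v) : V0 P v := by
  cases k with
  | zero => exact h
  | succ k => exact h.1

theorem VB.congr {k : ℕ} : ∀ {v v' : ℝ → ℝ → ℝ}, (∀ τ, P τ → v' τ = v τ) → VB P k v →
    VB P k v' := by
  have h0 : ∀ {v v' : ℝ → ℝ → ℝ}, (∀ τ, P τ → v' τ = v τ) → V0 P v → V0 P v' := by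
    intro v v' h hv
    refine ⟨fun τ hτ => by rw [h τ hτ]; exact hv.1 τ hτ, ?_⟩
    obtain ⟨C, hC⟩ := hv.2
    exact ⟨C, fun τ hτ t ht => by rw [h τ hτ]; exact hC τ hτ t ht⟩
  induction k with
  | zero => intro v v' h hv; exact h0 h hv
  | succ k ih =>
    intro v v' h hv
    exact ⟨h0 h hv.1, ih (fun τ hτ => by rw [h τ hτ]) hv.2⟩

theorem contDiffOn_log_norm : ContDiffOn ℝ ∞ (fun x : E3 => Real.log ‖x‖) {0}ᶜ := by
  intro x hx
  have hx' : x ≠ 0 := hx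
  exact ((contDiffAt_norm ℝ hx').log (norm_ne_zero_iff.mpr hx')).contDiffWithinAt

theorem pd_log {v : ℝ → ℝ} {x : E3} (hx : x ≠ 0) (hv : DifferentiableAt ℝ v (Real.log ‖x‖))
    (m : Fin 3) : pd m (fun y => v (Real.log ‖y‖)) x
      = deriv v (Real.log ‖x‖) * (x m / ‖x‖ ^ 2) := by
  have hn : ‖x‖ ≠ 0 := norm_ne_zero_iff.mpr hx
  have h1 : HasDerivAt (fun r : ℝ => v (Real.log r)) (deriv v (Real.log ‖x‖) * ‖x‖⁻¹) ‖x‖ :=
    HasDerivAt.comp (h₂ := v) ‖x‖ hv.hasDerivAt (Real.hasDerivAt_log hn)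
  rw [pd_radial (F := fun r => v (Real.log r)) hx h1]
  field_simp

theorem radial_bd {A : ℝ → Set E3} (hA : ∀ τ, P τ → IsOpen (A τ))
    (hAK : ∀ τ, P τ → A τ ⊆ {x : E3 | 1 ≤ ‖x‖ ∧ ‖x‖ ≤ 5})
    (hAt : ∀ τ, P τ → ∀ x ∈ A τ, τ ≤ Real.log ‖x‖) {k : ℕ} : ∀ {v : ℝ → ℝ → ℝ}, VB P k v →
      Bd P A k (fun τ x => v τ (Real.log ‖x‖)) := by
  have hne : ∀ τ, P τ → ∀ x ∈ A τ, x ≠ 0 := by
    intro τ hτ x hx h
    have h1 := (hAK τ hτ hx).1
    rw [h, norm_zero] at h1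
    linarith
  have h0 : ∀ {v : ℝ → ℝ → ℝ}, V0 P v → B0 P A (fun τ x => v τ (Real.log ‖x‖)) := by
    intro v hv
    refine ⟨fun τ hτ => ?_, ?_⟩
    · exact (hv.1 τ hτ).comp_contDiffOn (contDiffOn_log_norm.mono fun x hx => hne τ hτ x hx)
    · obtain ⟨C, hC⟩ := hv.2
      exact ⟨C, fun τ hτ x hx => hC τ hτ _ (hAt τ hτ x hx)⟩
  have hKc : IsCompact {x : E3 | 1 ≤ ‖x‖ ∧ ‖x‖ ≤ 5} := by
    refine (isCompact_closedBall (0 : E3) 5).of_isClosed_subset ?_ ?_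
    · exact (isClosed_le continuous_const continuous_norm).inter
        (isClosed_le continuous_norm continuous_const)
    · intro x hx
      rw [mem_closedBall_zero_iff]
      exact hx.2
  have hq : ∀ (m : Fin 3) (k : ℕ), Bd P A k (fun _ x => x m / ‖x‖ ^ 2) := by
    intro m k
    refine fixed_bd hA (U := {0}ᶜ) (K := {x : E3 | 1 ≤ ‖x‖ ∧ ‖x‖ ≤ 5}) isOpen_compl_singleton hKc
      ?_ hAK ?_ k
    · intro x hx h
      have h1 := hx.1
      rw [Set.mem_singleton_iff] at h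
      rw [h, norm_zero] at h1
      linarith
    · intro x hx
      have hx' : x ≠ 0 := hx
      have h2 : ContDiffAt ℝ ∞ (fun y : E3 => y m) x := by fun_prop
      exact (h2.div ((contDiffAt_norm ℝ hx').pow 2)
        (pow_ne_zero 2 (norm_ne_zero_iff.mpr hx'))).contDiffWithinAt
  induction k with
  | zero => intro v hv; exact h0 hv
  | succ k ih =>
    intro v hv
    refine ⟨h0 hv.1, fun m => Bd.congr hA ?_ (Bd.mul hA (ih hv.2) (hq m k))⟩
    intro τ hτ x hx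
    exact pd_log (hne τ hτ x hx) ((hv.1.1 τ hτ).contDiffAt.differentiableAt (by simp)) m

end Radial

/-! ### The extraction of constants -/

section Extract

variable {P : ℝ → Prop} {A : ℝ → Set E3}

theorem extract1 (hA : ∀ τ, P τ → IsOpen (A τ)) (hP : ∀ τ, P τ → 0 < τ)
    {u : ℝ → E3 → ℝ} (h : Bd P A 1 (fun τ x => τ⁻¹ * u τ x)) : ∃ C : ℝ, ∀ τ, P τ → ∀ x ∈ A τ,
      |u τ x| ≤ C * τ ∧ ∀ m, |pd m (u τ) x| ≤ C * τ := by
  have key : ∀ (f : ℝ → E3 → ℝ), B0 P A (fun τ x => τ⁻¹ * f τ x) → ∃ C : ℝ,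
      ∀ τ, P τ → ∀ x ∈ A τ, |f τ x| ≤ C * τ := by
    intro f hf
    obtain ⟨C, hC⟩ := hf.2
    refine ⟨C, fun τ hτ x hx => ?_⟩
    have h1 := hC τ hτ x hx
    have h2 := hP τ hτ
    rw [abs_mul, abs_of_pos (inv_pos.mpr h2), inv_mul_le_iff₀ h2] at h1
    linarith
  have hsm : ∀ τ, P τ → ContDiffOn ℝ ∞ (u τ) (A τ) := by
    intro τ hτ
    have h1 := (contDiffOn_const (c := τ)).mul (h.1.1 τ hτ)
    refine h1.congr fun x _ => ?_
    have h2 := (hP τ hτ).ne'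
    field_simp
  obtain ⟨C, hC⟩ := key u h.1
  have h2 : ∀ m, B0 P A (fun τ x => τ⁻¹ * pd m (u τ) x) := by
    intro m
    refine B0.congr ?_ (h.2 m)
    intro τ hτ x hx
    exact (pd_const_mul τ⁻¹ (diffAt (hA τ hτ) (hsm τ hτ) hx)).symm
  choose D hD using fun m => key (fun τ => pd m (u τ)) (h2 m)
  refine ⟨|C| + ∑ m, |D m|, fun τ hτ x hx => ?_⟩
  have h3 := hP τ hτ
  have h5 : 0 ≤ ∑ m, |D m| := Finset.sum_nonneg fun _ _ => abs_nonneg _
  refine ⟨(hC τ hτ x hx).trans (mul_le_mul_of_nonneg_right ?_ h3.le), fun m =>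
    (hD m τ hτ x hx).trans (mul_le_mul_of_nonneg_right ?_ h3.le)⟩
  · linarith [le_abs_self C]
  · have h4 : |D m| ≤ ∑ m, |D m| :=
      Finset.single_le_sum (f := fun m => |D m|) (fun _ _ => abs_nonneg _) (Finset.mem_univ m)
    linarith [le_abs_self (D m), abs_nonneg C]

theorem extract2 (hA : ∀ τ, P τ → IsOpen (A τ)) (hP : ∀ τ, P τ → 0 < τ)
    {u : ℝ → E3 → ℝ} (h : Bd P A 2 (fun τ x => τ⁻¹ * u τ x)) : ∃ C : ℝ, ∀ τ, P τ → ∀ x ∈ A τ,
      |u τ x| ≤ C * τ ∧ (∀ m, |pd m (u τ) x| ≤ C * τ) ∧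
        ∀ m n, |pd m (pd n (u τ)) x| ≤ C * τ := by
  have hsm : ∀ τ, P τ → ContDiffOn ℝ ∞ (u τ) (A τ) := by
    intro τ hτ
    have h1 := (contDiffOn_const (c := τ)).mul (h.1.1 τ hτ)
    refine h1.congr fun x _ => ?_
    have h2 := (hP τ hτ).ne'
    field_simp
  obtain ⟨C, hC⟩ := extract1 hA hP h.pred
  have h2 : ∀ n, Bd P A 1 (fun τ x => τ⁻¹ * pd n (u τ) x) := by
    intro n
    refine Bd.congr hA ?_ (h.2 n)
    intro τ hτ x hx
    exact (pd_const_mul τ⁻¹ (diffAt (hA τ hτ) (hsm τ hτ) hx)).symm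
  choose D hD using fun n => extract1 hA hP (h2 n)
  refine ⟨|C| + ∑ m, |D m|, fun τ hτ x hx => ?_⟩
  have h3 := hP τ hτ
  have h5 : 0 ≤ ∑ m, |D m| := Finset.sum_nonneg fun _ _ => abs_nonneg _
  have h6 : C * τ ≤ (|C| + ∑ m, |D m|) * τ := by
    refine mul_le_mul_of_nonneg_right ?_ h3.le
    linarith [le_abs_self C]
  refine ⟨(hC τ hτ x hx).1.trans h6, fun m => ((hC τ hτ x hx).2 m).trans h6, fun m n =>
    ((hD n τ hτ x hx).2 m).trans (mul_le_mul_of_nonneg_right ?_ h3.le)⟩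
  have h4 : |D n| ≤ ∑ m, |D m| :=
    Finset.single_le_sum (f := fun m => |D m|) (fun _ _ => abs_nonneg _) (Finset.mem_univ n)
  linarith [le_abs_self (D n), abs_nonneg C]

end Extract

/-! ### The modified data -/

section Data

/-- The admissible widths. -/
def PP (δ τ : ℝ) : Prop := 0 < τ ∧ τ ≤ δ / 4

/-- The region outside the collar. -/
def AA (τ : ℝ) : Set E3 := {x : E3 | Real.exp τ < ‖x‖ ∧ ‖x‖ < 5}

theorem isOpen_AA (τ : ℝ) : IsOpen (AA τ) :=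
  (isOpen_lt continuous_const continuous_norm).inter (isOpen_lt continuous_norm continuous_const)

theorem AA_one {τ : ℝ} (hτ : 0 < τ) {x : E3} (hx : x ∈ AA τ) : 1 < ‖x‖ :=
  (Real.one_lt_exp_iff.mpr hτ).trans hx.1

theorem AA_log {τ : ℝ} (hτ : 0 < τ) {x : E3} (hx : x ∈ AA τ) : τ < Real.log ‖x‖ := by
  rw [Real.lt_log_iff_exp_lt (by linarith [AA_one hτ hx])]
  exact hx.1

/-- The exponent. -/
noncomputable def ww (δ τ : ℝ) (x : E3) : ℝ := phX τ δ (Real.log ‖x‖) - Real.log ‖x‖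

theorem facX_eq {τ δ : ℝ} {x : E3} (hx : x ≠ 0) : facX τ δ x = Real.exp (ww δ τ x) := by
  unfold facX ww
  rw [Real.exp_sub, Real.exp_log (norm_pos_iff.mpr hx)]

/-- The function of two variables. -/
noncomputable def HH (f : E3 → ℝ) (z : ℝ × E3) : ℝ := Real.exp z.1 ^ 2 * f (Real.exp z.1 • z.2)

/-- Its domain. -/
def WW (δ₀ : ℝ) : Set (ℝ × E3) := {z | 1 - δ₀ < ‖Real.exp z.1 • z.2‖}

/-- The compact set. -/
def KK : Set (ℝ × E3) := (Set.Icc (-1) 0 ×ˢ Metric.closedBall (0 : E3) 5) ∩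
  {z | 1 ≤ ‖Real.exp z.1 • z.2‖}

theorem cont_map : Continuous (fun z : ℝ × E3 => Real.exp z.1 • z.2) := by fun_prop

theorem isOpen_WW (δ₀ : ℝ) : IsOpen (WW δ₀) := isOpen_lt continuous_const cont_map.norm

theorem isCompact_KK : IsCompact KK :=
  (isCompact_Icc.prod (isCompact_closedBall (0 : E3) 5)).inter_right
    (isClosed_le continuous_const cont_map.norm)

theorem KK_sub {δ₀ : ℝ} (h : 0 < δ₀) : KK ⊆ WW δ₀ := by
  intro z hz
  have h1 : 1 ≤ ‖Real.exp z.1 • z.2‖ := hz.2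
  change 1 - δ₀ < ‖Real.exp z.1 • z.2‖
  linarith

theorem HH_smooth {δ₀ : ℝ} {f : E3 → ℝ} (hf : ContDiffOn ℝ ∞ f (Outside δ₀)) :
    ContDiffOn ℝ ∞ (HH f) (WW δ₀) := by
  have h1 : ContDiff ℝ ∞ (fun z : ℝ × E3 => Real.exp z.1 • z.2) :=
    (Real.contDiff_exp.comp contDiff_fst).smul contDiff_snd
  have h2 : ContDiff ℝ ∞ (fun z : ℝ × E3 => Real.exp z.1 ^ 2) :=
    (Real.contDiff_exp.comp contDiff_fst).pow 2
  exact h2.contDiffOn.mul (hf.comp h1.contDiffOn fun z hz => hz)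

theorem HH_zero (f : E3 → ℝ) (x : E3) : HH f (0, x) = f x := by
  unfold HH
  simp

theorem HH_ww {τ δ : ℝ} (f : E3 → ℝ) {x : E3} (hx : x ≠ 0) :
    HH f (ww δ τ x, x) = facX τ δ x ^ 2 * f (facX τ δ x • x) := by
  unfold HH
  rw [facX_eq hx]

end Data

end XCLOaux

open XCLOaux in
theorem XCLO (hXPHI : Stmt_XPHI) : Stmt_XCLO := by
  intro g k δ₀ δ hδ₀ hδ hδ1 hexp hg hk
  obtain ⟨C, hC0, hC⟩ := hXPHI δ hδ hδ1
  have hP : ∀ τ, PP δ τ → 0 < τ := fun τ h => h.1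
  have hA : ∀ τ, PP δ τ → IsOpen (AA τ) := fun τ _ => isOpen_AA τ
  have hAK : ∀ τ, PP δ τ → AA τ ⊆ {x : E3 | 1 ≤ ‖x‖ ∧ ‖x‖ ≤ 5} := fun τ hτ x hx =>
    ⟨(AA_one hτ.1 hx).le, hx.2.le⟩
  have hAt : ∀ τ, PP δ τ → ∀ x ∈ AA τ, τ ≤ Real.log ‖x‖ := fun τ hτ x hx => (AA_log hτ.1 hx).le
  have hne : ∀ τ, PP δ τ → ∀ x ∈ AA τ, x ≠ 0 := by
    intro τ hτ x hx h
    have h1 := AA_one hτ.1 hx
    rw [h, norm_zero] at h1
    linarith
  -- one variable estimates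
  have hsm : ∀ τ, PP δ τ → ContDiff ℝ ∞ (phX τ δ) := fun τ hτ => (hC τ hτ.1 hτ.2).1
  have hdsm : ∀ τ, PP δ τ → ContDiff ℝ ∞ (deriv (phX τ δ)) := by
    intro τ hτ
    exact (contDiff_infty_iff_deriv.mp (hsm τ hτ)).2
  have hddsm : ∀ τ, PP δ τ → ContDiff ℝ ∞ (deriv (deriv (phX τ δ))) := by
    intro τ hτ
    exact (contDiff_infty_iff_deriv.mp (hdsm τ hτ)).2
  have v2 : VB (PP δ) 0 (fun τ t => τ⁻¹ * deriv (deriv (phX τ δ)) t) := by
    refine ⟨fun τ hτ => contDiff_const.mul (hddsm τ hτ), C, fun τ hτ t ht => ?_⟩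
    have h1 := ((hC τ hτ.1 hτ.2).2.2.2.2.2.2 t ht).2.1
    rw [abs_mul, abs_of_pos (inv_pos.mpr hτ.1), inv_mul_le_iff₀ hτ.1]
    linarith
  have v1 : VB (PP δ) 1 (fun τ t => τ⁻¹ * (deriv (phX τ δ) t - 1)) := by
    refine ⟨⟨fun τ hτ => contDiff_const.mul ((hdsm τ hτ).sub contDiff_const), C,
      fun τ hτ t ht => ?_⟩, VB.congr ?_ v2⟩
    · have h1 := ((hC τ hτ.1 hτ.2).2.2.2.2.2.2 t ht).1
      rw [abs_mul, abs_of_pos (inv_pos.mpr hτ.1), inv_mul_le_iff₀ hτ.1]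
      linarith
    · intro τ hτ
      funext t
      have h1 : DifferentiableAt ℝ (deriv (phX τ δ)) t :=
        (hdsm τ hτ).contDiffAt.differentiableAt (by simp)
      exact ((h1.hasDerivAt.sub_const 1).const_mul τ⁻¹).deriv
  have v0 : VB (PP δ) 2 (fun τ t => τ⁻¹ * (phX τ δ t - t)) := by
    refine ⟨⟨fun τ hτ => contDiff_const.mul ((hsm τ hτ).sub contDiff_id), 1,
      fun τ hτ t ht => ?_⟩, VB.congr ?_ v1⟩
    · have h1 := (hC τ hτ.1 hτ.2).2.2.1 t (hτ.1.le.trans ht)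
      rw [abs_mul, abs_of_pos (inv_pos.mpr hτ.1), inv_mul_le_iff₀ hτ.1, mul_one, abs_le]
      constructor <;> linarith [h1.1, h1.2.1, h1.2.2, hτ.1]
    · intro τ hτ
      funext t
      have h1 : DifferentiableAt ℝ (phX τ δ) t :=
        (hsm τ hτ).contDiffAt.differentiableAt (by simp)
      exact ((h1.hasDerivAt.sub (hasDerivAt_id t)).const_mul τ⁻¹).deriv
  have bw' : Bd (PP δ) AA 2 (fun τ x => τ⁻¹ * ww δ τ x) := radial_bd hA hAK hAt v0
  have bD : Bd (PP δ) AA 1 (fun τ x => τ⁻¹ * (deriv (phX τ δ) (Real.log ‖x‖) - 1)) :=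
    radial_bd hA hAK hAt v1
  have bw : Bd (PP δ) AA 2 (fun τ x => ww δ τ x) := by
    have h1 : Bd (PP δ) AA 2 (fun τ _ => τ) :=
      Bd.const (c := fun τ => τ) ⟨δ / 4, fun τ hτ => by rw [abs_of_pos hτ.1]; exact hτ.2⟩
    refine Bd.congr hA ?_ (Bd.mul hA h1 bw')
    intro τ hτ x hx
    change ww δ τ x = τ * (τ⁻¹ * ww δ τ x)
    rw [mul_inv_cancel_left₀ hτ.1.ne']
  have seg : ∀ τ, PP δ τ → ∀ x ∈ AA τ, ∀ θ : ℝ, 0 ≤ θ → θ ≤ 1 → (θ * ww δ τ x, x) ∈ KK := by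
    intro τ hτ x hx θ hθ0 hθ1
    have hx0 := hne τ hτ x hx
    have hx1 := AA_one hτ.1 hx
    have hl := AA_log hτ.1 hx
    have h1 := (hC τ hτ.1 hτ.2).2.2.1 (Real.log ‖x‖) (hτ.1.le.trans hl.le)
    have h2 : ww δ τ x ≤ 0 := by unfold ww; linarith [h1.2.1]
    have h3 : -τ ≤ ww δ τ x := by unfold ww; linarith [h1.2.2]
    have h4 : τ ≤ 1 := by linarith [hτ.2]
    have h5 : ww δ τ x ≤ θ * ww δ τ x := by nlinarith
    refine ⟨⟨⟨?_, ?_⟩, ?_⟩, ?_⟩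
    · change -1 ≤ θ * ww δ τ x
      linarith
    · change θ * ww δ τ x ≤ 0
      exact mul_nonpos_of_nonneg_of_nonpos hθ0 h2
    · rw [mem_closedBall_zero_iff]
      exact hx.2.le
    · change 1 ≤ ‖Real.exp (θ * ww δ τ x) • x‖
      rw [norm_smul, Real.norm_eq_abs, abs_of_pos (Real.exp_pos _)]
      have h6 : Real.exp (ww δ τ x) * ‖x‖ = Real.exp (phX τ δ (Real.log ‖x‖)) := by
        unfold ww
        rw [Real.exp_sub, Real.exp_log (by linarith)]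
        field_simp
      calc (1 : ℝ) ≤ Real.exp (phX τ δ (Real.log ‖x‖)) := Real.one_le_exp h1.1
        _ = Real.exp (ww δ τ x) * ‖x‖ := h6.symm
        _ ≤ Real.exp (θ * ww δ τ x) * ‖x‖ :=
          mul_le_mul_of_nonneg_right (Real.exp_le_exp.mpr h5) (norm_nonneg _)
  have seg1 : ∀ τ, PP δ τ → ∀ x ∈ AA τ, (ww δ τ x, x) ∈ KK := fun τ hτ x hx => by
    have := seg τ hτ x hx 1 zero_le_one le_rfl
    rwa [one_mul] at this
  have bdf : ∀ f : E3 → ℝ, ContDiffOn ℝ ∞ f (Outside δ₀) →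
      Bd (PP δ) AA 2 (fun τ x => τ⁻¹ * (HH f (ww δ τ x, x) - HH f (0, x))) := fun f hf =>
    diff_bd hA hP (isOpen_WW δ₀) isCompact_KK (KK_sub hδ₀) seg bw bw' (HH_smooth hf)
  -- the metric
  have hG : ∀ i j, ∃ D : ℝ, ∀ τ, PP δ τ → ∀ x ∈ AA τ,
      |colG τ δ g x i j - g x i j| ≤ D * τ ∧
      (∀ m, |pd m (fun y => colG τ δ g y i j - g y i j) x| ≤ D * τ) ∧
      ∀ m n, |pd m (pd n (fun y => colG τ δ g y i j - g y i j)) x| ≤ D * τ := by
    intro i j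
    refine extract2 hA hP (u := fun τ y => colG τ δ g y i j - g y i j)
      (Bd.congr hA ?_ (bdf (fun x => g x i j) (hg.smooth i j)))
    intro τ hτ x hx
    change τ⁻¹ * (colG τ δ g x i j - g x i j) = τ⁻¹ * (HH (fun x => g x i j) (ww δ τ x, x)
      - HH (fun x => g x i j) (0, x))
    rw [HH_ww _ (hne τ hτ x hx), HH_zero]
    unfold colG
    rw [if_pos (AA_one hτ.1 hx).le]
    rfl
  have hH : ∀ i j, ∃ D : ℝ, ∀ τ, PP δ τ → ∀ x ∈ AA τ,
      |colH τ δ k x i j - k x i j| ≤ D * τ ∧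
      ∀ m, |pd m (fun y => colH τ δ k y i j - k y i j) x| ≤ D * τ := by
    intro i j
    refine extract1 hA hP (u := fun τ y => colH τ δ k y i j - k y i j)
      (Bd.congr hA ?_ (Bd.add hA (Bd.mul hA bD (comp_bd hA (isOpen_WW δ₀) isCompact_KK
        (KK_sub hδ₀) seg1 bw.pred (HH_smooth (hk.smooth i j))))
        (bdf (fun x => k x i j) (hk.smooth i j)).pred))
    intro τ hτ x hx
    change τ⁻¹ * (colH τ δ k x i j - k x i j) = τ⁻¹ * (deriv (phX τ δ) (Real.log ‖x‖) - 1) *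
      HH (fun x => k x i j) (ww δ τ x, x) + τ⁻¹ * (HH (fun x => k x i j) (ww δ τ x, x)
        - HH (fun x => k x i j) (0, x))
    rw [HH_ww _ (hne τ hτ x hx), HH_zero]
    unfold colH
    rw [if_pos (AA_one hτ.1 hx).le]
    change τ⁻¹ * (deriv (phX τ δ) (Real.log ‖x‖) * facX τ δ x ^ 2 * k (facX τ δ x • x) i j
      - k x i j) = _
    ring
  choose D hD using hG
  choose E hE using hH
  have hsum : ∀ i j, |D i j| + |E i j| ≤ ∑ i, ∑ j, (|D i j| + |E i j|) := by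
    intro i j
    have h1 : ∀ i j, 0 ≤ |D i j| + |E i j| := fun i j => add_nonneg (abs_nonneg _) (abs_nonneg _)
    calc |D i j| + |E i j| ≤ ∑ j, (|D i j| + |E i j|) :=
          Finset.single_le_sum (f := fun j => |D i j| + |E i j|) (fun _ _ => h1 _ _)
            (Finset.mem_univ j)
      _ ≤ ∑ i, ∑ j, (|D i j| + |E i j|) :=
          Finset.single_le_sum (f := fun i => ∑ j, (|D i j| + |E i j|))
            (fun _ _ => Finset.sum_nonneg fun _ _ => h1 _ _) (Finset.mem_univ i)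
  have hS : 0 ≤ ∑ i, ∑ j, (|D i j| + |E i j|) :=
    Finset.sum_nonneg fun _ _ => Finset.sum_nonneg fun _ _ => add_nonneg (abs_nonneg _)
      (abs_nonneg _)
  refine ⟨1 + ∑ i, ∑ j, (|D i j| + |E i j|), by linarith, fun τ hτ0 hτ1 x hx1 hx2 i j => ?_⟩
  have hx : x ∈ AA τ := ⟨hx1, by linarith⟩
  obtain ⟨g1, g2, g3⟩ := hD i j τ ⟨hτ0, hτ1⟩ x hx
  obtain ⟨k1, k2⟩ := hE i j τ ⟨hτ0, hτ1⟩ x hx
  have hDle : D i j * τ ≤ (1 + ∑ i, ∑ j, (|D i j| + |E i j|)) * τ := by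
    refine mul_le_mul_of_nonneg_right ?_ hτ0.le
    linarith [hsum i j, le_abs_self (D i j), abs_nonneg (E i j)]
  have hEle : E i j * τ ≤ (1 + ∑ i, ∑ j, (|D i j| + |E i j|)) * τ := by
    refine mul_le_mul_of_nonneg_right ?_ hτ0.le
    linarith [hsum i j, le_abs_self (E i j), abs_nonneg (D i j)]
  exact ⟨g1.trans hDle, fun m => (g2 m).trans hDle, fun m n => (g3 m n).trans hDle,
    k1.trans hEle, fun m => (k2 m).trans hEle⟩

end Pool.Agent.PFlow
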