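import Pool.Agent.PFlow.StmtsX2
import Pool.Agent.PFlow.E.DEFE

/-!
# XDEFE: the total defect is small (exterior regions)
-/

open MeasureTheory Filter Topology
open scoped ContDiff ENNReal

namespace Pool.Agent.PFlow

open Pool.Agent.PenroseSph

namespace XEDEFE

lemma det_le (A : ℝ) (B : Bil) (hA : 0 ≤ A) (hB : ∀ i j, |B i j| ≤ A) : B.det ≤ 6 * A ^ 3 := by
  have key : ∀ a b c : ℝ, |a| ≤ A → |b| ≤ A → |c| ≤ A → |a * b * c| ≤ A ^ 3 := by
    intro a b c ha hb hc
    rw [abs_mul, abs_mul]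
    calc |a| * |b| * |c| ≤ A * A * A := by
          refine mul_le_mul (mul_le_mul ha hb (abs_nonneg _) hA) hc (abs_nonneg _) ?_
          positivity
      _ = A ^ 3 := by ring
  rw [Matrix.det_fin_three]
  have h1 := abs_le.mp (key _ _ _ (hB 0 0) (hB 1 1) (hB 2 2))
  have h2 := abs_le.mp (key _ _ _ (hB 0 0) (hB 1 2) (hB 2 1))
  have h3 := abs_le.mp (key _ _ _ (hB 0 1) (hB 1 0) (hB 2 2))
  have h4 := abs_le.mp (key _ _ _ (hB 0 1) (hB 1 2) (hB 2 0))
  have h5 := abs_le.mp (key _ _ _ (hB 0 2) (hB 1 0) (hB 2 1))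
  have h6 := abs_le.mp (key _ _ _ (hB 0 2) (hB 1 1) (hB 2 0))
  linarith [h1.2, h2.1, h3.1, h4.2, h5.2, h6.1]

lemma vol_le (A : ℝ) (g : TensorField) (x : E3) (hA : 0 ≤ A) (hB : ∀ i j, |g x i j| ≤ A) :
    volDen g x ≤ Real.sqrt (6 * A ^ 3) := Real.sqrt_le_sqrt (det_le A _ hA hB)

end XEDEFE

theorem XDEFE (hXSETW : Stmt_XSETW) (hBETA : Stmt_BETA) (hXUPH : Stmt_XUPH)
    (hFLXA : Stmt_FLXA) : Stmt_XDEFE := by
  intro P B g l
  by_cases hex : ∃ D : DatX, SetupX P D ∧ D.g = g ∧ D.l = l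
  swap
  · refine ⟨1, one_pos, fun D hD _ h1 h2 => ?_⟩
    exact absurd ⟨D, hD, h1, h2⟩ hex
  obtain ⟨D₀, hD₀, hg₀, hl₀⟩ := hex
  obtain ⟨β, hβ⟩ := hBETA
  obtain ⟨BU, hBU, hU⟩ := hXUPH P B β hβ
  have hε := hD₀.eps_pos
  have hε2 := hD₀.eps_le
  have hC := hD₀.C_pos
  have hl4 : 8 ≤ l := hl₀ ▸ hD₀.l_ge
  have hl : 0 < l := by linarith
  -- the volume density is bounded
  set V : ℝ := Real.sqrt (6 * (1 + P.C) ^ 3) with hVdef
  have hV0 : 0 ≤ V := Real.sqrt_nonneg _
  set q := (1 + P.eps) / P.eps with hq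
  have hq0 : 0 < q := by
    rw [hq]
    have : 0 < 1 + P.eps := by linarith
    positivity
  set s₂ := s2E P.eps P.gam l with hs₂
  set A : ℝ := Real.exp ((1 + P.eps) * s₂ / (2 - P.eps)) * (BU * Real.exp s₂) with hA
  have hA0 : 0 ≤ A := by positivity
  refine ⟨A ^ (1 / (1 + P.eps)) * V ^ (P.eps / (1 + P.eps)) + 1, ?_, ?_⟩
  · have h1 := Real.rpow_nonneg hA0 (1 / (1 + P.eps))
    have h2 := Real.rpow_nonneg hV0 (P.eps / (1 + P.eps))
    have := mul_nonneg h1 h2
    linarith
  intro D hD hAbs hDg hDl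
  obtain ⟨w1, w2, w3, w4, w5, w6, wmeas, w8, w9, w10, w11, w12, w13, w14, w15, w16, s21, s2M,
    w21, w22⟩ := hXSETW P D hD
  obtain ⟨hJ, _, _⟩ := hU D hD hAbs
  have hs2D : D.s2 P = s₂ := by rw [hs₂, ← hDl]; rfl
  have hγ := hD.gam_ge
  obtain ⟨hJ0, hflx⟩ := hFLXA P.eps β hε hε2 hβ _ _ _ _ _ _ _ _ _ _ _ _ hAbs (by linarith)
    (by linarith) (by linarith)
  -- the region
  set T := cAnn 1 D.l ∩ {x | 1 < ‖x‖} with hT
  have hTm : MeasurableSet T := by
    refine MeasurableSet.inter (EDEFE.isCompact_cAnn _ _).measurableSet ?_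
    exact measurableSet_lt measurable_const measurable_norm
  have hTae : (T : Set E3) =ᵐ[volume] cAnn 1 D.l := by
    have hsph : volume (Metric.sphere (0 : E3) 1) = 0 := Measure.addHaar_sphere _ _ _
    have h1 : ∀ᵐ x ∂(volume : Measure E3), x ∉ Metric.sphere (0 : E3) 1 :=
      measure_eq_zero_iff_ae_notMem.mp hsph
    filter_upwards [h1] with x hx
    apply propext
    constructor
    · intro h
      exact h.1
    · intro h
      refine ⟨h, lt_of_le_of_ne h.1 ?_⟩
      intro h2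
      exact hx (by rw [mem_sphere_zero_iff_norm]; exact h2.symm)
  have hlR : l < D.R := by
    rw [hDl] at w22
    linarith
  have hTOm : T ⊆ D.Om := by
    rintro x ⟨h1, h2⟩
    have h3 := h1.2
    rw [hDl] at h3
    exact ⟨h2, lt_of_le_of_lt h3 hlR⟩
  set L := D.Om ∩ {x | P.eps / 8 ≤ D.w P x ∧ D.w P x ≤ D.s2 P} with hL
  have hTs : T ⊆ L := by
    intro x hx
    refine ⟨hTOm hx, ?_, ?_⟩
    · have := w10 x (hTOm hx)
      linarith
    · have h3 := hx.1.2
      have h4 := hD.located.mid x hx.1.1 (by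
        have : 0 < D.l := hDl ▸ hl
        linarith)
      exact h4.le
  have hint3 := hAbs.int_X (P.eps / 8) (D.s2 P) (by linarith) (by linarith) (by linarith)
  have hintv := hAbs.int_vol (P.eps / 8) (D.s2 P) (by linarith) (by linarith) (by linarith)
  have hOmm := hAbs.measOmega
  have hLm : MeasurableSet L := by
    refine hOmm.inter ?_
    exact (measurableSet_le measurable_const wmeas).inter
      (measurableSet_le wmeas measurable_const)
  have hXm : AEStronglyMeasurable (D.X P) (volume.restrict L) :=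
    hAbs.meas_X.mono_measure (Measure.restrict_mono Set.inter_subset_left le_rfl)
  have hIX : IntegrableOn (fun x => D.X P x ^ (1 + P.eps) * D.vol x) L := by
    refine Integrable.mono' (hint3.add hintv)
      ((hXm.aemeasurable.pow_const _).aestronglyMeasurable.mul hintv.aestronglyMeasurable)
      (Eventually.of_forall fun x => ?_)
    have hx0 := hAbs.X_nonneg x
    have hv0 := hAbs.vol_nonneg x
    rw [Real.norm_eq_abs, abs_of_nonneg (mul_nonneg (Real.rpow_nonneg hx0 _) hv0)]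
    show D.X P x ^ (1 + P.eps) * D.vol x ≤ D.X P x ^ 3 * D.vol x + D.vol x
    have := mul_le_mul_of_nonneg_right
      (EDEFE.rpow_le_cube (p := 1 + P.eps) hx0 (by linarith) (by linarith)) hv0
    linarith
  -- the weight
  have hph0 : ∀ x, 0 ≤ D.ph P x := fun x => mul_nonneg (Real.exp_pos _).le (hAbs.X_nonneg x)
  have hphp : ∀ x, D.ph P x ^ (1 + P.eps) =
      Real.exp ((1 + P.eps) * D.w P x / (2 - P.eps)) * D.X P x ^ (1 + P.eps) := by
    intro x
    show (Real.exp (D.w P x / (2 - P.eps)) * D.X P x) ^ (1 + P.eps) = _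
    rw [Real.mul_rpow (Real.exp_pos _).le (hAbs.X_nonneg x), ← Real.exp_mul]
    congr 2
    ring
  have hphm : AEStronglyMeasurable (D.ph P) (volume.restrict L) := by
    have h1 : Measurable fun x => Real.exp (D.w P x / (2 - P.eps)) :=
      Real.measurable_exp.comp (wmeas.div_const _)
    exact h1.aestronglyMeasurable.mul hXm
  have hexp : ∀ x ∈ L, Real.exp ((1 + P.eps) * D.w P x / (2 - P.eps)) ≤
      Real.exp ((1 + P.eps) * s₂ / (2 - P.eps)) := by
    rintro x ⟨_, _, hx⟩
    apply Real.exp_le_exp.mpr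
    have h2 : 0 < 2 - P.eps := by linarith
    rw [← hs2D]
    refine div_le_div_of_nonneg_right ?_ h2.le
    exact mul_le_mul_of_nonneg_left hx (by linarith)
  have hIP : IntegrableOn (fun x => D.ph P x ^ (1 + P.eps) * D.vol x) L := by
    refine Integrable.mono' (hIX.const_mul (Real.exp ((1 + P.eps) * s₂ / (2 - P.eps))))
      ((hphm.aemeasurable.pow_const _).aestronglyMeasurable.mul hintv.aestronglyMeasurable) ?_
    rw [ae_restrict_iff' hLm]
    refine Eventually.of_forall fun x hx => ?_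
    have hx0 := Real.rpow_nonneg (hAbs.X_nonneg x) (1 + P.eps)
    have hv0 := hAbs.vol_nonneg x
    rw [Real.norm_eq_abs, abs_of_nonneg (mul_nonneg (Real.rpow_nonneg (hph0 x) _) hv0), hphp,
      mul_assoc]
    exact mul_le_mul_of_nonneg_right (hexp x hx) (mul_nonneg hx0 hv0)
  have hIPle : (∫ x in T, D.ph P x ^ (1 + P.eps) * D.vol x) ≤ A := by
    have h1 : (∫ x in T, D.ph P x ^ (1 + P.eps) * D.vol x) ≤
        ∫ x in L, D.ph P x ^ (1 + P.eps) * D.vol x :=
      setIntegral_mono_set hIP (Eventually.of_forall fun x =>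
        mul_nonneg (Real.rpow_nonneg (hph0 x) _) (hAbs.vol_nonneg x)) (LE.le.eventuallyLE hTs)
    have h2 : (∫ x in L, D.ph P x ^ (1 + P.eps) * D.vol x) ≤
        ∫ x in L, Real.exp ((1 + P.eps) * s₂ / (2 - P.eps)) *
          (D.X P x ^ (1 + P.eps) * D.vol x) := by
      refine setIntegral_mono_on hIP (hIX.const_mul _) hLm fun x hx => ?_
      rw [hphp, mul_assoc]
      exact mul_le_mul_of_nonneg_right (hexp x hx)
        (mul_nonneg (Real.rpow_nonneg (hAbs.X_nonneg x) _) (hAbs.vol_nonneg x))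
    rw [integral_const_mul] at h2
    have h3 := hflx (P.eps / 8) (D.s2 P) (by linarith) (by linarith) le_rfl
    have h4 : jInf P.eps β D.Om D.vol (D.w P) (D.X P) (D.s2 P) *
        (Real.exp (D.s2 P) - Real.exp (P.eps / 8)) ≤ BU * Real.exp s₂ := by
      rw [hs2D] at hJ0 hJ ⊢
      have h5 : Real.exp s₂ - Real.exp (P.eps / 8) ≤ Real.exp s₂ := by
        linarith [Real.exp_pos (P.eps / 8)]
      exact (mul_le_mul_of_nonneg_left h5 hJ0).trans
        (mul_le_mul_of_nonneg_right hJ (Real.exp_pos _).le)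
    refine h1.trans (h2.trans ?_)
    exact mul_le_mul_of_nonneg_left (h3.trans h4) (Real.exp_pos _).le
  -- the defect
  have he := hD.modified.defect_cont
  have he0 := hD.modified.defect_nonneg
  obtain ⟨E, hE⟩ := (EDEFE.isCompact_cAnn 1 D.l).bddAbove_image he.continuousOn
  have hLv : IntegrableOn D.vol T := hintv.mono_set hTs
  obtain ⟨c1, c2, c3⟩ := EDEFE.core P.eps T (D.ph P) D.e D.vol A E hε hTm hAbs.vol_nonneg hph0
    he0 (fun x hx => hE ⟨x, hx.1, rfl⟩) hLv (hIP.mono_set hTs)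
    (hphm.mono_measure (Measure.restrict_mono hTs le_rfl)) he.aestronglyMeasurable hIPle
  have hNd : D.Nd P = ∫ x in T, D.ph P x * D.e x * D.vol x := by
    show (∫ x in cAnn 1 D.l, D.ph P x * D.e x * D.vol x) = _
    exact (setIntegral_congr_set hTae).symm
  refine ⟨c1.congr_set_ae hTae.symm, ?_, ?_⟩
  · exact integral_nonneg fun x => mul_nonneg (mul_nonneg (hph0 x) (he0 x)) (hAbs.vol_nonneg x)
  -- the integral of the defect
  have hIe : IntegrableOn (fun x => D.e x ^ q) (cAnn 1 D.l) := by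
    refine ContinuousOn.integrableOn_compact (EDEFE.isCompact_cAnn _ _) ?_
    exact (he.rpow_const fun x => Or.inr hq0.le).continuousOn
  have hvolV : ∀ x ∈ T, D.vol x ≤ V := by
    intro x hx
    refine XEDEFE.vol_le (1 + P.C) D.g' x (by linarith) fun i j => ?_
    rcases lt_or_ge ‖x‖ 2 with h | h
    · have := (hD.modified.bounds x (by linarith [hx.1.1]) h i j).1
      linarith
    · have h1 := (hD.modified.decay x h i j).1
      have h2 : P.C / ‖x‖ ≤ P.C / 2 := div_le_div_of_nonneg_left hC.le (by norm_num) h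
      have h3 : |(1 : Bil) i j| ≤ 1 := by
        rw [Matrix.one_apply]
        split_ifs <;> simp
      have h4 : |D.g' x i j| ≤ |D.g' x i j - (1 : Bil) i j| + |(1 : Bil) i j| := by
        have := abs_add_le (D.g' x i j - (1 : Bil) i j) ((1 : Bil) i j)
        simpa using this
      linarith
  have hI2 : (∫ x in T, D.e x ^ q * D.vol x) ≤ V * ∫ x in cAnn 1 D.l, D.e x ^ q := by
    have h1 : (∫ x in T, D.e x ^ q * D.vol x) ≤ ∫ x in T, V * D.e x ^ q := by
      refine setIntegral_mono_on c2 ((hIe.mono_set Set.inter_subset_left).const_mul V) hTm ?_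
      intro x hx
      rw [mul_comm V]
      exact mul_le_mul_of_nonneg_left (hvolV x hx) (Real.rpow_nonneg (he0 x) _)
    rw [integral_const_mul] at h1
    refine h1.trans (mul_le_mul_of_nonneg_left ?_ hV0)
    exact setIntegral_mono_set hIe (Eventually.of_forall fun x => Real.rpow_nonneg (he0 x) _)
      (LE.le.eventuallyLE Set.inter_subset_left)
  have hIe0 : 0 ≤ ∫ x in cAnn 1 D.l, D.e x ^ q :=
    integral_nonneg fun x => Real.rpow_nonneg (he0 x) _
  have hex0 : 0 ≤ P.eps / (1 + P.eps) := by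
    have : 0 < 1 + P.eps := by linarith
    positivity
  have h9 : (∫ x in T, D.e x ^ q * D.vol x) ^ (P.eps / (1 + P.eps)) ≤
      V ^ (P.eps / (1 + P.eps)) *
        (∫ x in cAnn 1 D.l, D.e x ^ q) ^ (P.eps / (1 + P.eps)) := by
    rw [← Real.mul_rpow hV0 hIe0]
    refine Real.rpow_le_rpow ?_ hI2 hex0
    exact integral_nonneg fun x => mul_nonneg (Real.rpow_nonneg (he0 x) _) (hAbs.vol_nonneg x)
  have h10 := Real.rpow_nonneg hA0 (1 / (1 + P.eps))
  have h11 := Real.rpow_nonneg hIe0 (P.eps / (1 + P.eps))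
  rw [hNd]
  refine c3.trans ?_
  refine (mul_le_mul_of_nonneg_left h9 h10).trans ?_
  rw [← mul_assoc]
  exact mul_le_mul_of_nonneg_right (by linarith) h11

end Pool.Agent.PFlow
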