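import Pool.Agent.PFlow.StmtsX2
import Pool.Agent.PFlow.StmtsHX
import Pool.Agent.PFlow.M_CT
import Pool.Agent.PFlow.X.XDEFE

/-!
# XCOLE: the collar error is small (exterior regions)
-/

open MeasureTheory Filter Topology
open scoped ContDiff ENNReal

namespace Pool.Agent.PFlow

open Pool.Agent.PenroseSph

namespace XCOLEm

lemma vsz_smul (c : ℝ) (p : Cov) : vsz (fun i => c * p i) = |c| * vsz p := by
  unfold vsz
  have h : ∑ i, (c * p i) ^ 2 = c ^ 2 * ∑ i, p i ^ 2 := by
    rw [Finset.mul_sum]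
    exact Finset.sum_congr rfl fun i _ => by ring
  rw [h, Real.sqrt_mul (sq_nonneg c), Real.sqrt_sq_eq_abs]

lemma tanP_smul (x : E3) (c : ℝ) (p : Cov) : tanP x (fun i => c * p i) = |c| * tanP x p := by
  unfold tanP
  rw [← vsz_smul]
  congr 1
  funext i
  have h : ∑ j, c * p j * x j = c * ∑ j, p j * x j := by
    rw [Finset.mul_sum]
    exact Finset.sum_congr rfl fun j _ => by ring
  rw [h]
  ring

lemma negP_smul (x : E3) {c : ℝ} (hc : 0 ≤ c) (p : Cov) :
    negP x (fun i => -c * p i) = c * negP x (-p) := by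
  unfold negP
  have h : ∑ j, -c * p j * x j = c * ∑ j, (-p) j * x j := by
    rw [Finset.mul_sum]
    refine Finset.sum_congr rfl fun j _ => ?_
    rw [Pi.neg_apply]
    ring
  rw [h, mul_max_of_nonneg _ _ hc, mul_zero]
  congr 1
  ring

lemma vsz_nonneg (p : Cov) : 0 ≤ vsz p := Real.sqrt_nonneg _

lemma tanP_nonneg (x : E3) (p : Cov) : 0 ≤ tanP x p := Real.sqrt_nonneg _

lemma negP_nonneg (x : E3) (p : Cov) : 0 ≤ negP x p := le_max_right _ _

lemma h2_mono {U V : Set E3} (hUV : U ⊆ V) {w : E3 → ℝ} {G : E3 → Cov} {M : E3 → Bil}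
    (h : H2On V w G M) : H2On U w G M where
  cont := h.cont.mono hUV
  memG K hK hKU := h.memG K hK (hKU.trans hUV)
  memM K hK hKU := h.memM K hK (hKU.trans hUV)
  approx K hK hKU := h.approx K hK (hKU.trans hUV)

lemma norm_inversion {x : E3} (hx : 0 < ‖x‖) : ‖inversion x‖ = ‖x‖⁻¹ := by
  unfold inversion
  rw [norm_smul, norm_inv, norm_pow, norm_norm]
  field_simp

end XCOLEm

open XCOLEm in
theorem XCOLE (hXSETW : Stmt_XSETW) (hLEG : Stmt_LEG) (hCOLE : Stmt_COLE) : Stmt_XCOLE := by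
  intro P
  by_cases hex : ∃ D : DatX, SetupX P D
  swap
  · exact ⟨1, one_pos, fun D hD => absurd ⟨D, hD⟩ hex⟩
  obtain ⟨D₀, hD₀⟩ := hex
  have hε := hD₀.eps_pos
  have hε2 := hD₀.eps_le
  have hC := hD₀.C_pos
  obtain ⟨A, hA, hleg⟩ := hLEG P.eps P.C 2 hε (by linarith) hC two_pos
  obtain ⟨C0, hC0, hcole⟩ := hCOLE
  obtain ⟨V, hVdef⟩ : ∃ V, V = Real.sqrt (6 * P.C ^ 3) := ⟨_, rfl⟩
  have hV0 : 0 ≤ V := hVdef ▸ Real.sqrt_nonneg _
  obtain ⟨q, hq⟩ : ∃ q, q = Real.sqrt A := ⟨_, rfl⟩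
  have hq0 : 0 ≤ q := hq ▸ Real.sqrt_nonneg _
  refine ⟨2 * V * C0 * q * (2 * P.C + 1) + 1, by positivity, fun D hD => ?_⟩
  obtain ⟨w1, w2, w3, w4, w5, w6, wmeas, w8, w9, w10, w11, w12, w13, w14, w15, w16, s21, s2M,
    w21, w22⟩ := hXSETW P D hD
  have hl := hD.l_ge
  have hR : 2 < D.R := by linarith
  have hτ := hD.tau_pos
  have hτ2 := hD.tau_le
  have hκ := hD.kap_pos
  have hlog2 : (0.6931471803 : ℝ) < Real.log 2 := Real.log_two_gt_d9
  have hexpτ : Real.exp D.tau < 2 := by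
    have h1 : D.tau < Real.log 2 := by
      refine lt_of_le_of_lt hτ2 (lt_trans ?_ hlog2)
      norm_num
    have h2 := Real.exp_lt_exp.mpr h1
    rwa [Real.exp_log two_pos] at h2
  have hsub : Ann (1 / 2) 2 ⊆ Ann (1 / 2) D.R := fun x hx => ⟨hx.1, hx.2.trans hR⟩
  have hH2 : H2On (Ann (1 / 2) 2) D.u D.G D.M := h2_mono hsub hD.sol.h2
  have hEq : EqU (Ann (1 / 2) 2) P.eps D.g' D.h' D.G D.M :=
    ae_restrict_of_ae_restrict_of_subset hsub hD.sol.eq
  have hmet : MetricOn (Ann (1 / 2) 2) D.g' :=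
    ⟨fun i j => (hD.modified.metric.smooth i j).mono (Set.subset_univ _),
      fun x _ => hD.modified.metric.posDef x (Set.mem_univ x)⟩
  have hbd : ∀ x ∈ Ann (1 / 2) 2, BdAt P.C D.g' D.h' x := fun x hx =>
    { posDef := hD.modified.metric.posDef x (Set.mem_univ x)
      metric := fun i j => (hD.modified.bounds x hx.1 hx.2 i j).1
      deriv := fun i j m => (hD.modified.bounds x hx.1 hx.2 i j).2.1 m
      tensor := fun i j => (hD.modified.bounds x hx.1 hx.2 i j).2.2
      elliptic := fun v => (hD.modified.elliptic x hx.1 v).1 }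
  have hinv : ∀ x ∈ Ann (1 / 2) 2, D.u (inversion x) = 2 - D.u x := hD.sol.refl
  have hu1 : ∀ x : E3, 1 ≤ ‖x‖ → ‖x‖ < 2 → D.u x ≤ 1 := fun x h1 h2 =>
    hD.sol.le_one x h1 (h2.trans hR)
  have hu0 : ∀ x : E3, 1 ≤ ‖x‖ → ‖x‖ < 2 → 0 ≤ D.u x := fun x h1 h2 =>
    hD.sol.nonneg x h1 (h2.trans hR)
  have huS : ∀ x ∈ Ann (1 / 2) 2, |D.u x| ≤ 2 := by
    intro x hx
    rcases le_or_gt 1 ‖x‖ with h | h
    · rw [abs_of_nonneg (hu0 x h hx.2)]
      linarith [hu1 x h hx.2]
    · have hx0 : 0 < ‖x‖ := lt_trans (by norm_num) hx.1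
      have h1 : 1 ≤ ‖inversion x‖ := by
        rw [norm_inversion hx0]
        exact (one_le_inv₀ hx0).mpr h.le
      have h2 : ‖inversion x‖ < 2 := by
        rw [norm_inversion hx0]
        have := (inv_lt_inv₀ hx0 (by norm_num : (0 : ℝ) < 1 / 2)).mpr hx.1
        norm_num at this
        exact this
      have h3 := hinv x hx
      have h4 := hu0 _ h1 h2
      have h5 := hu1 _ h1 h2
      rw [abs_le]
      constructor <;> linarith
  have hA' := hleg D.g' D.h' D.u D.G D.M hmet hbd hH2 hEq huS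
  obtain ⟨i1, i2, i3, b1, b2, b3⟩ := hcole D.u D.G D.M A hH2 hinv hu1 hA' D.tau hτ hτ2
  rw [← hq] at b1 b2 b3
  -- the collar
  set K := cAnn 1 (Real.exp D.tau) with hKdef
  have hKc : IsCompact K := EDEFE.isCompact_cAnn _ _
  have hKm : MeasurableSet K := hKc.measurableSet
  have hK2 : ∀ x ∈ K, ‖x‖ < 2 := fun x hx => hx.2.trans_lt hexpτ
  have hKA : ∀ x ∈ K, x ∈ Ann (1 / 2) D.R := fun x hx =>
    ⟨lt_of_lt_of_le (by norm_num) hx.1, (hK2 x hx).trans hR⟩
  have hu_half : ∀ x ∈ K, 1 / 2 < D.u x := by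
    intro x hx
    have h0 := hD.located.pos x (hKA x hx)
    have h1 := hD.located.near x hx.1 hx.2
    unfold wOf at h1
    have h2 : -(1 / 2) < Real.log (D.u x) := by
      by_contra hcon
      push Not at hcon
      have h3 : P.eps / 2 ≤ -P.eps * Real.log (D.u x) := by nlinarith
      linarith
    have h3 : Real.log (1 / 2) < Real.log (D.u x) := by
      rw [one_div, Real.log_inv]
      linarith
    exact (Real.log_lt_log_iff (by norm_num) h0).mp h3
  have hcu : ∀ x ∈ K, 0 ≤ P.eps / D.u x ∧ P.eps / D.u x ≤ 1 := by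
    intro x hx
    have h1 := hu_half x hx
    have h2 : 0 < D.u x := by linarith
    refine ⟨by positivity, ?_⟩
    rw [div_le_one h2]
    linarith
  have hexpw : ∀ x ∈ K, Real.exp (D.w P x / (2 - P.eps)) ≤ 2 := by
    intro x hx
    have h1 := w11 x hx.1 hx.2
    have h2 : D.w P x / (2 - P.eps) ≤ Real.log 2 := by
      rw [div_le_iff₀ (by linarith)]
      nlinarith
    have h3 := Real.exp_le_exp.mpr h2
    rwa [Real.exp_log two_pos] at h3
  have hvol0 : ∀ x, 0 ≤ D.vol x := fun x => Real.sqrt_nonneg _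
  have hvolV : ∀ x ∈ K, D.vol x ≤ V := by
    intro x hx
    rw [hVdef]
    exact XEDEFE.vol_le P.C D.g' x hC.le fun i j =>
      (hD.modified.bounds x (lt_of_lt_of_le (by norm_num) hx.1) (hK2 x hx) i j).1
  -- the integrand
  obtain ⟨F, hF⟩ : ∃ F : E3 → ℝ, F = fun x =>
      Real.exp (D.w P x / (2 - P.eps)) * (P.eps / D.u x) * D.vol x := ⟨_, rfl⟩
  obtain ⟨T, hT⟩ : ∃ T : E3 → ℝ, T = fun x =>
      P.C / D.tau * (tanP x (D.G x) + negP x (-D.G x)) + D.kap / D.tau * vsz (D.G x) := ⟨_, rfl⟩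
  have hT0 : ∀ x, 0 ≤ T x := by
    intro x
    rw [hT]
    have h1 := tanP_nonneg x (D.G x)
    have h2 := negP_nonneg x (-D.G x)
    have h3 := vsz_nonneg (D.G x)
    have h4 : 0 ≤ P.C / D.tau := by positivity
    have h5 : 0 ≤ D.kap / D.tau := by positivity
    show 0 ≤ P.C / D.tau * (tanP x (D.G x) + negP x (-D.G x)) + D.kap / D.tau * vsz (D.G x)
    have h6 := mul_nonneg h4 (add_nonneg h1 h2)
    have h7 := mul_nonneg h5 h3
    linarith
  have hF0 : ∀ x ∈ K, 0 ≤ F x ∧ F x ≤ 2 * V := by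
    intro x hx
    rw [hF]
    have h1 := hexpw x hx
    have h2 := (hcu x hx).1
    have h3 := (hcu x hx).2
    have h4 := (Real.exp_pos (D.w P x / (2 - P.eps))).le
    refine ⟨mul_nonneg (mul_nonneg h4 h2) (hvol0 x), ?_⟩
    show Real.exp (D.w P x / (2 - P.eps)) * (P.eps / D.u x) * D.vol x ≤ 2 * V
    have h5 : Real.exp (D.w P x / (2 - P.eps)) * (P.eps / D.u x) ≤ 2 * 1 :=
      mul_le_mul h1 h3 h2 zero_le_two
    have h6 := mul_le_mul h5 (hvolV x hx) (hvol0 x) (by norm_num)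
    linarith
  have hN : ∀ x ∈ K, Real.exp (D.w P x / (2 - P.eps)) * |D.Su P x| * D.vol x = F x * T x := by
    intro x hx
    have hc := (hcu x hx).1
    have e0 : D.Gw P x = fun i => -(P.eps / D.u x) * D.G x i := by
      funext i
      show -P.eps * (D.G x i / D.u x) = _
      ring
    have e1 : tanP x (D.Gw P x) = P.eps / D.u x * tanP x (D.G x) := by
      rw [e0, tanP_smul, abs_neg, abs_of_nonneg hc]
    have e2 : negP x (D.Gw P x) = P.eps / D.u x * negP x (-D.G x) := by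
      rw [e0, negP_smul x hc]
    have e3 : vsz (D.Gw P x) = P.eps / D.u x * vsz (D.G x) := by
      rw [e0, vsz_smul, abs_neg, abs_of_nonneg hc]
    have e4 : D.Su P x = -(P.eps / D.u x * T x) := by
      unfold DatX.Su
      rw [if_pos hx.2, e1, e2, e3, hT]
      ring
    rw [e4, abs_neg, abs_of_nonneg (mul_nonneg hc (hT0 x)), hF]
    ring
  have hTi : IntegrableOn T K := by
    rw [hT]
    exact ((i1.add i2).const_mul _).add (i3.const_mul _)
  have hucont : ContinuousOn (fun x => P.eps / D.u x) K :=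
    continuousOn_const.div hD.sol.cont.continuousOn fun x hx => by
      have := hu_half x hx
      linarith
  have hvc : ContinuousOn D.vol K := by
    have h1 : ContinuousOn (fun x => (D.g' x).det) K :=
      (MCT.smooth_det hD.modified.metric.smooth).continuousOn.mono (Set.subset_univ _)
    exact h1.sqrt
  have hFm : AEStronglyMeasurable F (volume.restrict K) := by
    rw [hF]
    have h1 : Measurable fun x => Real.exp (D.w P x / (2 - P.eps)) :=
      Real.measurable_exp.comp (wmeas.div_const _)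
    exact (h1.aestronglyMeasurable.mul (hucont.aestronglyMeasurable hKm)).mul
      (hvc.aestronglyMeasurable hKm)
  have hFT : IntegrableOn (fun x => F x * T x) K := by
    refine Integrable.mono' (hTi.const_mul (2 * V)) (hFm.mul hTi.aestronglyMeasurable) ?_
    refine (ae_restrict_iff' hKm).mpr (ae_of_all _ fun x hx => ?_)
    rw [Real.norm_of_nonneg (mul_nonneg (hF0 x hx).1 (hT0 x))]
    exact mul_le_mul_of_nonneg_right (hF0 x hx).2 (hT0 x)
  have hNi : IntegrableOn (fun x => Real.exp (D.w P x / (2 - P.eps)) * |D.Su P x| * D.vol x) K :=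
    hFT.congr_fun (fun x hx => (hN x hx).symm) hKm
  refine ⟨hNi, ?_, ?_⟩
  · exact integral_nonneg fun x =>
      mul_nonneg (mul_nonneg (Real.exp_pos _).le (abs_nonneg _)) (hvol0 x)
  -- the estimate
  have h1 : D.Cl P = ∫ x in K, F x * T x := setIntegral_congr_fun hKm fun x hx => hN x hx
  have h2 : (∫ x in K, F x * T x) ≤ ∫ x in K, 2 * V * T x :=
    setIntegral_mono_on hFT (hTi.const_mul _) hKm fun x hx =>
      mul_le_mul_of_nonneg_right (hF0 x hx).2 (hT0 x)
  have h3 : (∫ x in K, T x) = P.C / D.tau * ((∫ x in K, tanP x (D.G x)) +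
      ∫ x in K, negP x (-D.G x)) + D.kap / D.tau * ∫ x in K, vsz (D.G x) := by
    have i12 : IntegrableOn (fun x => tanP x (D.G x) + negP x (-D.G x)) K := i1.add i2
    have e1 : (∫ x in K, (P.C / D.tau * (tanP x (D.G x) + negP x (-D.G x)) +
        D.kap / D.tau * vsz (D.G x))) =
        (∫ x in K, P.C / D.tau * (tanP x (D.G x) + negP x (-D.G x))) +
          ∫ x in K, D.kap / D.tau * vsz (D.G x) :=
      integral_add (i12.const_mul _) (i3.const_mul _)
    have e2 : (∫ x in K, (tanP x (D.G x) + negP x (-D.G x))) =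
        (∫ x in K, tanP x (D.G x)) + ∫ x in K, negP x (-D.G x) := integral_add i1 i2
    rw [hT]
    show (∫ x in K, (P.C / D.tau * (tanP x (D.G x) + negP x (-D.G x)) +
        D.kap / D.tau * vsz (D.G x))) = _
    rw [e1, integral_const_mul, integral_const_mul, e2]
  have h4 : (∫ x in K, T x) ≤ C0 * q * (2 * P.C * Real.sqrt D.tau + D.kap) := by
    rw [h3]
    have e1 : P.C / D.tau * ((∫ x in K, tanP x (D.G x)) + ∫ x in K, negP x (-D.G x)) ≤
        P.C / D.tau * (C0 * D.tau * Real.sqrt D.tau * q + C0 * D.tau * Real.sqrt D.tau * q) :=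
      mul_le_mul_of_nonneg_left (add_le_add b1 b2) (by positivity)
    have e2 : D.kap / D.tau * (∫ x in K, vsz (D.G x)) ≤ D.kap / D.tau * (C0 * D.tau * q) :=
      mul_le_mul_of_nonneg_left b3 (by positivity)
    have e3 : P.C / D.tau * (C0 * D.tau * Real.sqrt D.tau * q +
        C0 * D.tau * Real.sqrt D.tau * q) + D.kap / D.tau * (C0 * D.tau * q) =
        C0 * q * (2 * P.C * Real.sqrt D.tau + D.kap) := by
      field_simp
      ring
    linarith
  rw [integral_const_mul] at h2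
  have h5 : 2 * V * (∫ x in K, T x) ≤ 2 * V * (C0 * q * (2 * P.C * Real.sqrt D.tau + D.kap)) :=
    mul_le_mul_of_nonneg_left h4 (by positivity)
  have hs0 : 0 ≤ Real.sqrt D.tau := Real.sqrt_nonneg _
  have h6 : 2 * P.C * Real.sqrt D.tau + D.kap ≤
      (2 * P.C + 1) * (D.kap + Real.sqrt D.tau) := by nlinarith
  have h7 : 2 * V * (C0 * q * (2 * P.C * Real.sqrt D.tau + D.kap)) ≤
      2 * V * (C0 * q * ((2 * P.C + 1) * (D.kap + Real.sqrt D.tau))) :=
    mul_le_mul_of_nonneg_left (mul_le_mul_of_nonneg_left h6 (by positivity)) (by positivity)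
  rw [h1]
  have h8 : (2 * V * C0 * q * (2 * P.C + 1) + 1) * (D.kap + Real.sqrt D.tau) =
      2 * V * (C0 * q * ((2 * P.C + 1) * (D.kap + Real.sqrt D.tau))) +
        (D.kap + Real.sqrt D.tau) := by ring
  rw [h8]
  linarith

end Pool.Agent.PFlow
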