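import Pool.Agent.PFlow.StmtsX1
import Pool.Agent.PFlow.E.AFD

/-!
# XCOLH: the collar tensor
-/

open MeasureTheory Filter Topology
open scoped ContDiff ENNReal

namespace Pool.Agent.PFlow

open Pool.Agent.PenroseSph

namespace XCOLHaux

open AFDaux

theorem norm_inversion' {x : E3} (hx : x ≠ 0) : ‖inversion x‖ = ‖x‖⁻¹ := by
  unfold inversion
  have hn : 0 < ‖x‖ := norm_pos_iff.2 hx
  rw [norm_smul, Real.norm_of_nonneg (by positivity)]
  field_simp

theorem inversion_inversion' {x : E3} (hx : x ≠ 0) : inversion (inversion x) = x := by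
  have hn : 0 < ‖x‖ := norm_pos_iff.2 hx
  have h : inversion (inversion x) = (‖inversion x‖ ^ 2)⁻¹ • inversion x := rfl
  rw [h, norm_inversion' hx]
  unfold inversion
  rw [smul_smul]
  have : ((‖x‖⁻¹) ^ 2)⁻¹ * (‖x‖ ^ 2)⁻¹ = 1 := by field_simp
  rw [this, one_smul]

theorem jac_inversion' {x : E3} (hx : x ≠ 0) :
    inversionJac (inversion x) = (‖x‖ ^ 2) ^ 2 • inversionJac x := by
  have hn : 0 < ‖x‖ := norm_pos_iff.2 hx
  ext a i
  simp only [inversionJac, Matrix.of_apply, Matrix.smul_apply, smul_eq_mul, norm_inversion' hx]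
  have h : ∀ b : Fin 3, (inversion x) b = (‖x‖ ^ 2)⁻¹ * x b := fun b => by
    simp [inversion]
  rw [h a, h i]
  field_simp

theorem jac_mul' {x : E3} (hx : x ≠ 0) : inversionJac (inversion x) * inversionJac x = 1 := by
  have hn : 0 < ‖x‖ := norm_pos_iff.2 hx
  rw [jac_inversion' hx, Matrix.smul_mul, jac_sq hx, smul_smul]
  have : (‖x‖ ^ 2) ^ 2 * ((‖x‖ ^ 2)⁻¹ ^ 2) = 1 := by field_simp
  rw [this, one_smul]

theorem conj_jac' {x : E3} (hx : x ≠ 0) (A : Bil) :
    (inversionJac x).transpose * ((inversionJac (inversion x)).transpose * A *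
      inversionJac (inversion x)) * inversionJac x = A := by
  have e2 : (inversionJac x).transpose *
      ((inversionJac (inversion x)).transpose * A * inversionJac (inversion x)) *
        inversionJac x = (inversionJac (inversion x) * inversionJac x).transpose * A *
        (inversionJac (inversion x) * inversionJac x) := by
    rw [Matrix.transpose_mul]
    simp only [Matrix.mul_assoc]
  rw [e2, jac_mul' hx, Matrix.transpose_one, Matrix.one_mul, Matrix.mul_one]

/-- The tensor `φ'(log r) (ρ/r)² k(ρν)`. -/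
noncomputable def FX (τ δ : ℝ) (k : TensorField) : TensorField := fun y =>
  (deriv (phX τ δ) (Real.log ‖y‖) * facX τ δ y ^ 2) • k (facX τ δ y • y)

theorem colH_out {τ δ : ℝ} {k : TensorField} {x : E3} (hx : 1 ≤ ‖x‖) :
    colH τ δ k x = FX τ δ k x := by
  unfold colH FX
  rw [if_pos hx]

theorem colH_in {τ δ : ℝ} {k : TensorField} {x : E3} (hx : ‖x‖ < 1) :
    colH τ δ k x = -inverted (FX τ δ k) x := by
  unfold colH FX
  rw [if_neg (not_le.2 hx)]

theorem inverted_def (g : TensorField) (y : E3) : inverted g y =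
    (inversionJac y).transpose * g (inversion y) * inversionJac y := rfl

/-- The properties of the profile. -/
structure Prof (τ δ C : ℝ) : Prop where
  smooth : ContDiff ℝ ∞ (phX τ δ)
  zero : ∀ t, t ≤ τ / 2 → phX τ δ t = 0
  bd : ∀ t, 0 ≤ t → 0 ≤ phX τ δ t ∧ phX τ δ t ≤ t
  id : ∀ t, δ ≤ t → phX τ δ t = t
  der : ∀ t, 0 ≤ deriv (phX τ δ) t ∧ deriv (phX τ δ) t ≤ 1 + C

variable {τ δ C : ℝ}

theorem Prof.derS (P : Prof τ δ C) : ContDiff ℝ ∞ (deriv (phX τ δ)) :=
  (contDiff_infty_iff_deriv.mp P.smooth).2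

theorem Prof.hasDeriv (P : Prof τ δ C) (t : ℝ) :
    HasDerivAt (phX τ δ) (deriv (phX τ δ) t) t :=
  ((contDiff_infty_iff_deriv.mp P.smooth).1 t).hasDerivAt

theorem Prof.der_zero (P : Prof τ δ C) {t : ℝ} (ht : t < τ / 2) : deriv (phX τ δ) t = 0 := by
  have h : phX τ δ =ᶠ[𝓝 t] fun _ => (0 : ℝ) := by
    filter_upwards [Iio_mem_nhds ht] with s hs
    exact P.zero s (le_of_lt hs)
  rw [h.deriv_eq, deriv_const]

theorem Prof.der_one (P : Prof τ δ C) {t : ℝ} (ht : δ ≤ t) : deriv (phX τ δ) t = 1 := by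
  have h1 : HasDerivWithinAt (phX τ δ) (deriv (phX τ δ) t) (Set.Ici δ) t :=
    (P.hasDeriv t).hasDerivWithinAt
  have h2 : HasDerivWithinAt (phX τ δ) 1 (Set.Ici δ) t :=
    (hasDerivWithinAt_id t (Set.Ici δ)).congr (fun y hy => P.id y hy) (P.id t ht)
  exact (uniqueDiffOn_Ici δ t ht).eq_deriv _ h1 h2

theorem fac_pos {x : E3} (hx : x ≠ 0) : 0 < facX τ δ x := by
  unfold facX
  have hn : 0 < ‖x‖ := norm_pos_iff.2 hx
  positivity

theorem norm_fac {x : E3} (hx : x ≠ 0) :
    ‖facX τ δ x • x‖ = Real.exp (phX τ δ (Real.log ‖x‖)) := by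
  have hn : 0 < ‖x‖ := norm_pos_iff.2 hx
  rw [norm_smul, Real.norm_of_nonneg (fac_pos hx).le]
  unfold facX
  field_simp

theorem ne_zero_of_one_le {x : E3} (hx : 1 ≤ ‖x‖) : x ≠ 0 :=
  norm_pos_iff.1 (lt_of_lt_of_le one_pos hx)

theorem Prof.norm_ge (P : Prof τ δ C) {x : E3} (hx : 1 ≤ ‖x‖) : 1 ≤ ‖facX τ δ x • x‖ := by
  rw [norm_fac (ne_zero_of_one_le hx)]
  exact Real.one_le_exp (P.bd _ (Real.log_nonneg hx)).1

theorem Prof.norm_le (P : Prof τ δ C) {x : E3} (hx : 1 ≤ ‖x‖) : ‖facX τ δ x • x‖ ≤ ‖x‖ := by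
  rw [norm_fac (ne_zero_of_one_le hx)]
  calc Real.exp (phX τ δ (Real.log ‖x‖)) ≤ Real.exp (Real.log ‖x‖) :=
        Real.exp_le_exp.2 (P.bd _ (Real.log_nonneg hx)).2
    _ = ‖x‖ := Real.exp_log (lt_of_lt_of_le one_pos hx)

theorem Prof.fac_le (P : Prof τ δ C) {x : E3} (hx : 1 ≤ ‖x‖) : facX τ δ x ≤ 1 := by
  have h := P.norm_le hx
  have hx0 := ne_zero_of_one_le hx
  rw [norm_smul, Real.norm_of_nonneg (fac_pos hx0).le] at h
  have hn : 0 < ‖x‖ := norm_pos_iff.2 hx0
  exact le_of_mul_le_mul_right (by linarith) hn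

theorem Prof.fac_eq_one (P : Prof τ δ C) {x : E3} (hx : 1 ≤ ‖x‖) (hd : δ ≤ Real.log ‖x‖) :
    facX τ δ x = 1 := by
  unfold facX
  rw [P.id _ hd, Real.exp_log (lt_of_lt_of_le one_pos hx), div_self]
  exact (lt_of_lt_of_le one_pos hx).ne'

/-- `F` vanishes where `log |x| < τ/2`. -/
theorem Prof.FX_zero (P : Prof τ δ C) (k : TensorField) {x : E3} (hx : Real.log ‖x‖ < τ / 2) :
    FX τ δ k x = 0 := by
  unfold FX
  rw [P.der_zero hx, zero_mul, zero_smul]

theorem cd_log {x : E3} (hx : x ≠ 0) : ContDiffAt ℝ ∞ (fun y : E3 => Real.log ‖y‖) x :=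
  (contDiffAt_norm ℝ hx).log (norm_ne_zero_iff.2 hx)

theorem Prof.cd_fac (P : Prof τ δ C) {x : E3} (hx : x ≠ 0) :
    ContDiffAt ℝ ∞ (fun y : E3 => facX τ δ y) x := by
  unfold facX
  exact ((P.smooth.contDiffAt.comp x (cd_log hx)).exp).div (contDiffAt_norm ℝ hx)
    (norm_ne_zero_iff.2 hx)

theorem isOpen_outside (r : ℝ) : IsOpen (Outside r) := by
  unfold Outside
  exact isOpen_lt continuous_const continuous_norm

theorem Prof.cd_FX (P : Prof τ δ C) {r : ℝ} (hr : 0 < r) {k : TensorField}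
    (hk : TensorOn (Outside r) k) {x : E3} (hx : 1 ≤ ‖x‖) (i j : Fin 3) :
    ContDiffAt ℝ ∞ (fun y : E3 => FX τ δ k y i j) x := by
  have hx0 := ne_zero_of_one_le hx
  have h0 : (fun y : E3 => FX τ δ k y i j) = fun y : E3 =>
      (deriv (phX τ δ) (Real.log ‖y‖) * facX τ δ y ^ 2) * k (facX τ δ y • y) i j := by
    funext y
    simp only [FX, Matrix.smul_apply, smul_eq_mul]
  rw [h0]
  have hm : facX τ δ x • x ∈ Outside r := by
    have := P.norm_ge hx
    show 1 - r < _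
    linarith
  have hkx : ContDiffAt ℝ ∞ (fun y => k y i j) (facX τ δ x • x) :=
    (hk.smooth i j).contDiffAt ((isOpen_outside r).mem_nhds hm)
  have h1 : ContDiffAt ℝ ∞ (fun y : E3 => deriv (phX τ δ) (Real.log ‖y‖)) x :=
    P.derS.contDiffAt.comp x (cd_log hx0)
  have h2 := P.cd_fac hx0
  have h3 : ContDiffAt ℝ ∞ (fun y : E3 => facX τ δ y • y) x := h2.smul contDiffAt_id
  have h4 : ContDiffAt ℝ ∞ (fun y : E3 => k (facX τ δ y • y) i j) x :=
    ContDiffAt.comp (g := fun y : E3 => k y i j) (f := fun y : E3 => facX τ δ y • y) x hkx h3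
  exact (h1.mul (h2.pow 2)).mul h4

theorem Prof.zero_nhds (P : Prof τ δ C) (hτ : 0 < τ) (k : TensorField) {x : E3}
    (hx : ‖x‖ = 1) : ∀ᶠ y in 𝓝 x, colH τ δ k y = 0 := by
  have hx0 : x ≠ 0 := ne_zero_of_one_le hx.ge
  have hc : ContinuousAt (fun y : E3 => Real.log ‖y‖) x := (cd_log hx0).continuousAt
  have h1 : ∀ᶠ y in 𝓝 x, Real.log ‖y‖ < τ / 2 := by
    refine hc.eventually_lt continuousAt_const ?_
    rw [hx, Real.log_one]
    positivity
  have h2 : ∀ᶠ y in 𝓝 x, -(τ / 2) < Real.log ‖y‖ := by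
    refine continuousAt_const.eventually_lt hc ?_
    rw [hx, Real.log_one]
    linarith
  filter_upwards [h1, h2, isOpen_compl_singleton.mem_nhds hx0] with y hy1 hy2 hy0
  have hy0' : y ≠ 0 := hy0
  rcases le_or_gt 1 ‖y‖ with h | h
  · rw [colH_out h, P.FX_zero k hy1]
  · rw [colH_in h, inverted_def, P.FX_zero k, Matrix.mul_zero, Matrix.zero_mul, neg_zero]
    rw [norm_inversion' hy0', Real.log_inv]
    linarith

theorem Prof.tensorOn (P : Prof τ δ C) (hτ : 0 < τ) {r : ℝ} (hr : 0 < r) {k : TensorField}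
    (hk : TensorOn (Outside r) k) : TensorOn {0}ᶜ (colH τ δ k) where
  smooth := by
    intro i j x hx
    have hx0 : x ≠ 0 := hx
    refine ContDiffAt.contDiffWithinAt ?_
    rcases lt_trichotomy ‖x‖ 1 with h | h | h
    · have h1 : (fun y => colH τ δ k y i j) =ᶠ[𝓝 x] fun y => -(∑ b, (∑ a, inversionJac y a i *
          FX τ δ k (inversion y) a b) * inversionJac y b j) := by
        have ho : IsOpen {y : E3 | ‖y‖ < 1} := isOpen_lt continuous_norm continuous_const
        filter_upwards [ho.mem_nhds h] with y hy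
        rw [colH_in hy, Matrix.neg_apply, inverted_apply]
      refine ContDiffAt.congr_of_eventuallyEq ?_ h1
      have hinv : ContDiffAt ℝ ∞ inversion x :=
        contDiffOn_inversion.contDiffAt (isOpen_compl_singleton.mem_nhds hx0)
      have hJ : ∀ a b : Fin 3, ContDiffAt ℝ ∞ (fun y : E3 => inversionJac y a b) x := fun a b =>
        (contDiffOn_jac a b).contDiffAt (isOpen_compl_singleton.mem_nhds hx0)
      have hn : 0 < ‖x‖ := norm_pos_iff.2 hx0
      have hge : 1 ≤ ‖inversion x‖ := by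
        rw [norm_inversion' hx0]
        exact (one_le_inv₀ hn).2 h.le
      refine ContDiffAt.neg (ContDiffAt.sum fun b _ => ContDiffAt.mul
        (ContDiffAt.sum fun a _ => (hJ a i).mul ?_) (hJ b j))
      exact ContDiffAt.comp x (P.cd_FX hr hk hge a b) hinv
    · have h1 : (fun y => colH τ δ k y i j) =ᶠ[𝓝 x] fun _ => (0 : ℝ) := by
        filter_upwards [P.zero_nhds hτ k h] with y hy
        rw [hy]
        rfl
      exact contDiffAt_const.congr_of_eventuallyEq h1
    · have h1 : (fun y => colH τ δ k y i j) =ᶠ[𝓝 x] fun y => FX τ δ k y i j := by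
        have ho : IsOpen {y : E3 | 1 < ‖y‖} := isOpen_lt continuous_const continuous_norm
        filter_upwards [ho.mem_nhds h] with y hy
        rw [colH_out (le_of_lt hy)]
      exact (P.cd_FX hr hk h.le i j).congr_of_eventuallyEq h1
  symm := by
    intro x hx
    have hx0 : x ≠ 0 := hx
    have hF : ∀ y : E3, 1 ≤ ‖y‖ → (FX τ δ k y).transpose = FX τ δ k y := by
      intro y hy
      have hm : facX τ δ y • y ∈ Outside r := by
        have := P.norm_ge hy
        show 1 - r < _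
        linarith
      have := hk.symm _ hm
      unfold Matrix.IsSymm at this
      unfold FX
      rw [Matrix.transpose_smul, this]
    unfold Matrix.IsSymm
    rcases le_or_gt 1 ‖x‖ with h | h
    · rw [colH_out h, hF x h]
    · have hn : 0 < ‖x‖ := norm_pos_iff.2 hx0
      have hge : 1 ≤ ‖inversion x‖ := by
        rw [norm_inversion' hx0]
        exact (one_le_inv₀ hn).2 h.le
      rw [colH_in h, inverted_def, Matrix.transpose_neg, Matrix.transpose_mul,
        Matrix.transpose_mul, Matrix.transpose_transpose, hF _ hge, Matrix.mul_assoc]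

theorem Prof.mirror (P : Prof τ δ C) (hτ : 0 < τ) (k : TensorField) {x : E3} (hx : x ≠ 0) :
    inverted (colH τ δ k) x = -colH τ δ k x := by
  have hn : 0 < ‖x‖ := norm_pos_iff.2 hx
  rcases lt_trichotomy ‖x‖ 1 with h | h | h
  · have hge : 1 ≤ ‖inversion x‖ := by
      rw [norm_inversion' hx]
      exact (one_le_inv₀ hn).2 h.le
    rw [colH_in h, neg_neg, inverted_def, inverted_def, colH_out hge]
  · have h1 : inversion x = x := by
      unfold inversion
      rw [h]
      simp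
    have h2 : colH τ δ k x = 0 := (P.zero_nhds hτ k h).self_of_nhds
    rw [inverted_def, h1, h2, Matrix.mul_zero, Matrix.zero_mul, neg_zero]
  · have hlt : ‖inversion x‖ < 1 := by
      rw [norm_inversion' hx]
      exact inv_lt_one_of_one_lt₀ h
    rw [inverted_def, colH_in hlt, inverted_def, inversion_inversion' hx, Matrix.mul_neg,
      Matrix.neg_mul, conj_jac' hx, colH_out h.le]

theorem Prof.same (P : Prof τ δ C) (hδ : 0 < δ) (k : TensorField) {x : E3}
    (hx : Real.exp δ ≤ ‖x‖) : colH τ δ k x = k x := by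
  have h1 : 1 ≤ ‖x‖ := (Real.one_le_exp hδ.le).trans hx
  have h2 : δ ≤ Real.log ‖x‖ := (Real.le_log_iff_exp_le (lt_of_lt_of_le one_pos h1)).2 hx
  rw [colH_out h1]
  unfold FX
  rw [P.der_one h2, P.fac_eq_one h1 h2]
  simp

theorem jac_bound {x : E3} (hx : 1 / 4 ≤ ‖x‖) (a i : Fin 3) : |inversionJac x a i| ≤ 48 := by
  have hn : 0 < ‖x‖ := by linarith
  have hc : ∀ b : Fin 3, |x b| ≤ ‖x‖ := fun b => by
    have := PiLp.norm_apply_le x b
    rwa [Real.norm_eq_abs] at this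
  have h1 : |2 * x a * x i / ‖x‖ ^ 2| ≤ 2 := by
    rw [abs_div, abs_of_pos (by positivity : (0 : ℝ) < ‖x‖ ^ 2), div_le_iff₀ (by positivity)]
    rw [abs_mul, abs_mul, abs_of_pos (by norm_num : (0 : ℝ) < 2)]
    have := mul_le_mul (hc a) (hc i) (abs_nonneg _) hn.le
    nlinarith
  have h2 : |(if a = i then (1 : ℝ) else 0)| ≤ 1 := by
    split_ifs <;> simp
  have h3 : |(if a = i then (1 : ℝ) else 0) - 2 * x a * x i / ‖x‖ ^ 2| ≤ 3 := by
    have := abs_sub (if a = i then (1 : ℝ) else 0) (2 * x a * x i / ‖x‖ ^ 2)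
    linarith
  simp only [inversionJac, Matrix.of_apply]
  rw [abs_div, abs_of_pos (by positivity : (0 : ℝ) < ‖x‖ ^ 2), div_le_iff₀ (by positivity)]
  nlinarith

theorem Prof.FX_bound (P : Prof τ δ C) (hC : 0 ≤ C) {k : TensorField} {K : ℝ}
    (hK : ∀ x : E3, 1 ≤ ‖x‖ → ‖x‖ ≤ 4 → ∀ i j, |k x i j| ≤ K) {x : E3} (hx : 1 ≤ ‖x‖)
    (hx4 : ‖x‖ ≤ 4) (i j : Fin 3) : |FX τ δ k x i j| ≤ (1 + C) * K := by
  have hx0 := ne_zero_of_one_le hx
  have h1 := hK _ (P.norm_ge hx) ((P.norm_le hx).trans hx4) i j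
  have hK0 : 0 ≤ K := (abs_nonneg _).trans h1
  have h2 := P.der (Real.log ‖x‖)
  have h3 := P.fac_le hx
  have h4 : 0 < facX τ δ x := fac_pos hx0
  have h5 : facX τ δ x ^ 2 ≤ 1 := pow_le_one₀ h4.le h3
  simp only [FX, Matrix.smul_apply, smul_eq_mul]
  rw [abs_mul, abs_mul, abs_of_nonneg h2.1, abs_of_nonneg (by positivity : 0 ≤ facX τ δ x ^ 2)]
  have h6 : deriv (phX τ δ) (Real.log ‖x‖) * facX τ δ x ^ 2 ≤ 1 + C := by
    calc deriv (phX τ δ) (Real.log ‖x‖) * facX τ δ x ^ 2 ≤ (1 + C) * 1 :=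
          mul_le_mul h2.2 h5 (by positivity) (by linarith)
      _ = 1 + C := mul_one _
  exact mul_le_mul h6 h1 (abs_nonneg _) (by linarith)

theorem Prof.bound (P : Prof τ δ C) (hC : 0 ≤ C) {k : TensorField} {K : ℝ}
    (hK : ∀ x : E3, 1 ≤ ‖x‖ → ‖x‖ ≤ 4 → ∀ i j, |k x i j| ≤ K) {x : E3} (hx : 1 / 4 ≤ ‖x‖)
    (hx4 : ‖x‖ ≤ 4) (i j : Fin 3) : |colH τ δ k x i j| ≤ (20736 * (1 + C)) * K := by
  have hn : 0 < ‖x‖ := by linarith
  have hx0 : x ≠ 0 := norm_pos_iff.1 hn
  rcases le_or_gt 1 ‖x‖ with h | h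
  · rw [colH_out h]
    have h1 := P.FX_bound hC hK h hx4 i j
    have h2 : 0 ≤ (1 + C) * K := (abs_nonneg _).trans h1
    nlinarith
  · have hge : 1 ≤ ‖inversion x‖ := by
      rw [norm_inversion' hx0]
      exact (one_le_inv₀ hn).2 h.le
    have hle : ‖inversion x‖ ≤ 4 := by
      rw [norm_inversion' hx0]
      rw [inv_le_comm₀ hn (by norm_num)]
      linarith
    have h1 := fun a b => P.FX_bound hC hK hge hle a b
    have h2 : 0 ≤ (1 + C) * K := (abs_nonneg _).trans (h1 0 0)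
    rw [colH_in h, Matrix.neg_apply, abs_neg, inverted_apply]
    have h3 : ∀ b, |∑ a, inversionJac x a i * FX τ δ k (inversion x) a b| ≤
        3 * (48 * ((1 + C) * K)) := by
      intro b
      refine (Finset.abs_sum_le_sum_abs _ _).trans ?_
      have : ∀ a ∈ (Finset.univ : Finset (Fin 3)),
          |inversionJac x a i * FX τ δ k (inversion x) a b| ≤ 48 * ((1 + C) * K) := by
        intro a _
        rw [abs_mul]
        exact mul_le_mul (jac_bound hx a i) (h1 a b) (abs_nonneg _) (by norm_num)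
      refine (Finset.sum_le_card_nsmul _ _ _ this).trans ?_
      simp
    refine (Finset.abs_sum_le_sum_abs _ _).trans ?_
    have : ∀ b ∈ (Finset.univ : Finset (Fin 3)),
        |(∑ a, inversionJac x a i * FX τ δ k (inversion x) a b) * inversionJac x b j| ≤
          (3 * (48 * ((1 + C) * K))) * 48 := by
      intro b _
      rw [abs_mul]
      exact mul_le_mul (h3 b) (jac_bound hx b j) (abs_nonneg _) (by positivity)
    refine (Finset.sum_le_card_nsmul _ _ _ this).trans ?_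
    simp only [Finset.card_univ, Fintype.card_fin, nsmul_eq_mul]
    push_cast
    nlinarith

theorem ev_smul_right (B : Bil) (c : ℝ) (v : Cov) :
    ev B (fun i => c * v i) (fun i => c * v i) = c ^ 2 * ev B v v := by
  unfold ev
  rw [Finset.mul_sum]
  refine Finset.sum_congr rfl fun i _ => ?_
  rw [Finset.mul_sum]
  refine Finset.sum_congr rfl fun j _ => ?_
  ring

theorem ev_smul_left (B : Bil) (c : ℝ) (v : Cov) : ev (c • B) v v = c * ev B v v := by
  unfold ev
  rw [Finset.mul_sum]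
  refine Finset.sum_congr rfl fun i _ => ?_
  rw [Finset.mul_sum]
  refine Finset.sum_congr rfl fun j _ => ?_
  rw [Matrix.smul_apply, smul_eq_mul]
  ring

theorem Prof.twoNonneg (P : Prof τ δ C) {g k : TensorField}
    (hg : ∀ x : E3, 1 ≤ ‖x‖ → (g x).PosDef) (h2 : TwoNonneg {x : E3 | 1 ≤ ‖x‖} g k) :
    TwoNonneg {x : E3 | 1 ≤ ‖x‖} (colG τ δ g) (colH τ δ k) := by
  intro x hx v hv
  have hx1 : 1 ≤ ‖x‖ := hx
  have hx0 := ne_zero_of_one_le hx1
  have hf : 0 < facX τ δ x := fac_pos hx0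
  have hG : colG τ δ g x = facX τ δ x ^ 2 • g (facX τ δ x • x) := by
    unfold colG
    rw [if_pos hx1]
  rw [hG, ev_smul_left] at hv
  have h3 : ev (g (facX τ δ x • x)) (fun i => facX τ δ x * v i) (fun i => facX τ δ x * v i) = 1 := by
    rw [ev_smul_right, hv]
  have h4 := h2 (facX τ δ x • x) (P.norm_ge hx1) _ h3
  rw [ev_smul_right] at h4
  have hdet : IsUnit (g (facX τ δ x • x)).det :=
    (hg _ (P.norm_ge hx1)).det_pos.ne'.isUnit
  have hinv : (facX τ δ x ^ 2 • g (facX τ δ x • x))⁻¹ =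
      (facX τ δ x ^ 2)⁻¹ • (g (facX τ δ x • x))⁻¹ := by
    refine Matrix.inv_eq_right_inv ?_
    rw [Matrix.smul_mul, Matrix.mul_smul, smul_smul, Matrix.mul_nonsing_inv _ hdet,
      mul_inv_cancel₀ (by positivity), one_smul]
  have h5 : trg (colG τ δ g) x (colH τ δ k x) =
      deriv (phX τ δ) (Real.log ‖x‖) * trg g (facX τ δ x • x) (k (facX τ δ x • x)) := by
    unfold trg
    rw [hG, hinv, colH_out hx1, Finset.mul_sum]
    refine Finset.sum_congr rfl fun i _ => ?_
    rw [Finset.mul_sum]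
    refine Finset.sum_congr rfl fun j _ => ?_
    simp only [FX, Matrix.smul_apply, smul_eq_mul]
    field_simp
  have h6 : ev (colH τ δ k x) v v = deriv (phX τ δ) (Real.log ‖x‖) *
      (facX τ δ x ^ 2 * ev (k (facX τ δ x • x)) v v) := by
    rw [colH_out hx1]
    unfold FX
    rw [ev_smul_left]
    ring
  rw [h5, h6]
  exact mul_le_mul_of_nonneg_left h4 (P.der _).1

end XCOLHaux

/-- **XCOLH.** -/
theorem XCOLH (hXPHI : Stmt_XPHI) : Stmt_XCOLH := by
  intro δ₀ δ h0 hδ hδ2 _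
  obtain ⟨C, hC, hφ⟩ := hXPHI δ hδ hδ2
  refine ⟨20736 * (1 + C), by positivity, ?_⟩
  intro k hk τ hτ hτδ hτ1
  obtain ⟨a1, a2, a3, a4, a5, -, -⟩ := hφ τ hτ hτδ
  have P : XCOLHaux.Prof τ δ C :=
    { smooth := a1
      zero := a2
      bd := fun t ht => ⟨(a3 t ht).1, (a3 t ht).2.1⟩
      id := a4
      der := fun t => ⟨(a5 t).1, (a5 t).2.trans (by nlinarith)⟩ }
  refine ⟨P.tensorOn hτ h0 hk, fun x hx => P.mirror hτ k hx, fun x hx => P.same hδ k hx, ?_, ?_⟩
  · intro K hK x hx hx4 i j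
    exact P.bound hC.le hK hx hx4 i j
  · intro g hg h2
    exact P.twoNonneg hg h2

end Pool.Agent.PFlow
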