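import Pool.Agent.PFlow.StmtsX1
import Pool.Agent.PFlow.E.BARA
import Pool.Agent.PFlow.E.HATB
import Pool.Agent.PFlow.E.RADN

/-!
# Module XCOLM: the matter term in the collar
-/

set_option autoImplicit false

open MeasureTheory Filter Topology
open scoped ContDiff ENNReal

namespace Pool.Agent.PFlow

open Pool.Agent.PenroseSph

namespace XCOLMaux

/-! ### Linear algebra at a point without shift -/

theorem symm_of_posDef {G : Bil} (hG : G.PosDef) (i j : Fin 3) : G i j = G j i := by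
  have := hG.1.apply i j
  simpa using this.symm

theorem inv_symm_of_posDef {G : Bil} (hG : G.PosDef) (i j : Fin 3) : G⁻¹ i j = G⁻¹ j i :=
  symm_of_posDef hG.inv i j

/-- Without shift the radial covector is an eigenvector. -/
theorem shiftless_eig {G : Bil} (hG : G.PosDef) {n : Cov} (hn : ∑ i, n i ^ 2 = 1)
    (hs : ∀ v : Cov, ∑ i, n i * v i = 0 → ∑ i, ∑ j, G i j * n i * v j = 0) :
    0 < ev G⁻¹ n n ∧ ∀ i, ∑ j, G⁻¹ i j * n j = ev G⁻¹ n n * n i := by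
  have hn0 : n ≠ 0 := by
    intro h
    rw [h] at hn
    simp at hn
  -- the covector `c = G n` is a multiple of `n`
  set c : Cov := fun j => ∑ i, G i j * n i with hc
  set s : ℝ := ∑ i, n i * c i with hsdef
  have hv : ∑ i, n i * (c i - s * n i) = 0 := by
    have : ∑ i, n i * (c i - s * n i) = (∑ i, n i * c i) - s * ∑ i, n i ^ 2 := by
      rw [Finset.mul_sum, ← Finset.sum_sub_distrib]
      exact Finset.sum_congr rfl fun i _ => by ring
    rw [this, hn, ← hsdef]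
    ring
  have h1 := hs (fun j => c j - s * n j) hv
  have h2 : ∑ i, ∑ j, G i j * n i * (c j - s * n j) = ∑ j, c j * (c j - s * n j) := by
    rw [Finset.sum_comm]
    refine Finset.sum_congr rfl fun j _ => ?_
    exact (Finset.sum_mul _ _ _).symm
  rw [h2] at h1
  have h3 : ∑ j, (c j - s * n j) ^ 2 = 0 := by
    have : ∑ j, (c j - s * n j) ^ 2 = ∑ j, c j * (c j - s * n j)
        - s * ∑ j, n j * (c j - s * n j) := by
      rw [Finset.mul_sum, ← Finset.sum_sub_distrib]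
      exact Finset.sum_congr rfl fun i _ => by ring
    rw [this, h1, hv]
    ring
  have h4 : ∀ j, c j = s * n j := by
    intro j
    have h5 := (Finset.sum_eq_zero_iff_of_nonneg (fun j _ => sq_nonneg (c j - s * n j))).mp h3 j
      (Finset.mem_univ j)
    have h6 := pow_eq_zero_iff (two_ne_zero) |>.mp h5
    linarith
  have hs0 : 0 < s := by
    have h5 : s = ev G n n := by
      rw [hsdef]
      unfold ev
      rw [Finset.sum_comm]
      refine Finset.sum_congr rfl fun j _ => ?_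
      rw [hc]
      simp only
      rw [Finset.mul_sum]
      exact Finset.sum_congr rfl fun i _ => by ring
    rw [h5]
    exact RADN.ev_pos hG hn0
  have h6 : ∀ i, s * ∑ j, G⁻¹ i j * n j = n i := by
    intro i
    have hu : IsUnit G.det := hG.isUnit.map Matrix.detMonoidHom
    have h7 : (G⁻¹ * G).mulVec n = n := by
      rw [Matrix.nonsing_inv_mul G hu, Matrix.one_mulVec]
    rw [← Matrix.mulVec_mulVec] at h7
    have h8 : G.mulVec n = s • n := by
      funext j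
      have h9 := h4 j
      rw [hc] at h9
      simp only at h9
      simp only [Matrix.mulVec, dotProduct, Pi.smul_apply, smul_eq_mul]
      rw [← h9]
      exact Finset.sum_congr rfl fun k _ => by rw [symm_of_posDef hG j k]
    rw [h8, Matrix.mulVec_smul] at h7
    have h10 := congrFun h7 i
    simpa [Matrix.mulVec, dotProduct] using h10
  have h7 : ev G⁻¹ n n = 1 / s := by
    have h8 : s * ev G⁻¹ n n = 1 := by
      rw [← hn]
      unfold ev
      rw [Finset.mul_sum]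
      refine Finset.sum_congr rfl fun i _ => ?_
      have h9 := h6 i
      calc s * ∑ j, G⁻¹ i j * n i * n j = n i * (s * ∑ j, G⁻¹ i j * n j) := by
            rw [Finset.mul_sum, Finset.mul_sum, Finset.mul_sum]
            exact Finset.sum_congr rfl fun j _ => by ring
        _ = n i ^ 2 := by rw [h9]; ring
    field_simp
    linarith
  refine ⟨by rw [h7]; positivity, fun i => ?_⟩
  rw [h7, one_div, ← h6 i]
  field_simp

/-- The inverse of a multiple. -/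
theorem inv_smul_mat {G : Bil} (hG : G.PosDef) {f : ℝ} (hf : f ≠ 0) :
    (f • G)⁻¹ = f⁻¹ • G⁻¹ := by
  have hu : IsUnit G.det := hG.isUnit.map Matrix.detMonoidHom
  apply Matrix.inv_eq_right_inv
  rw [Matrix.smul_mul, Matrix.mul_smul, Matrix.mul_nonsing_inv G hu, smul_smul,
    mul_inv_cancel₀ hf, one_smul]

/-- The tangential trace. -/
theorem btan_formula (g : TensorField) (x : E3) (p : Cov) (Q : Bil)
    (hp : 0 < ev (g x)⁻¹ p p) :
    btan g x p Q = (∑ i, ∑ j, (g x)⁻¹ i j * Q i j)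
      - (∑ i, ∑ j, Q i j * raise g x p i * raise g x p j) / ev (g x)⁻¹ p p := by
  unfold btan trg bnn ev nrm
  congr 1
  have hl : len g x p ^ 2 = ev (g x)⁻¹ p p := by
    unfold len
    exact Real.sq_sqrt hp.le
  have hl0 : len g x p ≠ 0 := by
    intro h
    rw [h] at hl
    simp at hl
    linarith
  change ∑ i, ∑ j, Q i j * (raise g x p i / len g x p) * (raise g x p j / len g x p)
    = (∑ i, ∑ j, Q i j * raise g x p i * raise g x p j) / ev (g x)⁻¹ p p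
  rw [← hl, Finset.sum_div]
  refine Finset.sum_congr rfl fun i _ => ?_
  rw [Finset.sum_div]
  refine Finset.sum_congr rfl fun j _ => ?_
  field_simp

/-- The tangential trace without shift. -/
theorem btan_shiftless (g : TensorField) (x : E3) (n : Cov) (Q : Bil)
    (h0 : 0 < ev (g x)⁻¹ n n)
    (h : ∀ i, ∑ j, (g x)⁻¹ i j * n j = ev (g x)⁻¹ n n * n i) :
    btan g x n Q = (∑ i, ∑ j, (g x)⁻¹ i j * Q i j)
      - ev (g x)⁻¹ n n * ∑ i, ∑ j, Q i j * n i * n j := by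
  rw [btan_formula g x n Q h0]
  congr 1
  have h1 : ∀ i, raise g x n i = ev (g x)⁻¹ n n * n i := h
  simp only [h1]
  rw [Finset.mul_sum, Finset.sum_div]
  refine Finset.sum_congr rfl fun i _ => ?_
  rw [Finset.mul_sum, Finset.sum_div]
  refine Finset.sum_congr rfl fun j _ => ?_
  field_simp

/-- The length splits without shift. -/
theorem ev_split {B : Bil} (hB : ∀ i j, B i j = B j i) {n : Cov} (hn : ∑ i, n i ^ 2 = 1) {L2 : ℝ}
    (h : ∀ i, ∑ j, B i j * n j = L2 * n i) (p : Cov) :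
    ev B p p = L2 * (∑ j, p j * n j) ^ 2
      + ev B (fun i => p i - (∑ j, p j * n j) * n i) (fun i => p i - (∑ j, p j * n j) * n i) := by
  set a : ℝ := ∑ j, p j * n j with ha
  have h1 : ev B (fun i => p i - a * n i) (fun i => p i - a * n i)
      = ev B p p - 2 * a * (∑ i, (∑ j, B i j * n j) * p i)
        + a ^ 2 * ∑ i, (∑ j, B i j * n j) * n i := by
    unfold ev
    simp only [Fin.sum_univ_three]
    rw [hB 1 0, hB 2 0, hB 2 1]
    ring
  rw [h1]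
  simp only [h]
  have h2 : ∑ i, L2 * n i * p i = L2 * a := by
    rw [ha, Finset.mul_sum]
    exact Finset.sum_congr rfl fun i _ => by ring
  have h3 : ∑ i, L2 * n i * n i = L2 := by
    have : ∑ i, L2 * n i * n i = L2 * ∑ i, n i ^ 2 := by
      rw [Finset.mul_sum]
      exact Finset.sum_congr rfl fun i _ => by ring
    rw [this, hn, mul_one]
  rw [h2, h3]
  ring

/-- The leading part of the scalar curvature. -/
theorem curv_sum (B E : Bil) (hB : ∀ i j, B i j = B j i) (n : Cov) (L2 r f φ : ℝ) (hr : r ≠ 0)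
    (hf : f ≠ 0) (hn : ∑ i, n i ^ 2 = 1) (h : ∀ i, ∑ j, B i j * n j = L2 * n i) :
    (∑ i, ∑ j, ∑ m, ∑ k, ((f ^ 2)⁻¹ * B i m) * ((f ^ 2)⁻¹ * B j k) *
      (φ * ((r * n i) * (r * n j) / r ^ 4) * (f ^ 2 * E m k)
        - φ * ((r * n i) * (r * n m) / r ^ 4) * (f ^ 2 * E j k)))
      = -(φ / (r * f) ^ 2 * (L2 * ((∑ i, ∑ j, B i j * E i j)
        - L2 * ∑ i, ∑ j, E i j * n i * n j))) := by
  have h1 : ∀ m, ∑ i, B i m * n i = L2 * n m := by
    intro m
    rw [← h m]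
    exact Finset.sum_congr rfl fun i _ => by rw [hB i m]
  have key : (∑ i, ∑ j, ∑ m, ∑ k, ((f ^ 2)⁻¹ * B i m) * ((f ^ 2)⁻¹ * B j k) *
      (φ * ((r * n i) * (r * n j) / r ^ 4) * (f ^ 2 * E m k)
        - φ * ((r * n i) * (r * n m) / r ^ 4) * (f ^ 2 * E j k)))
      = φ / (r * f) ^ 2 * ((∑ m, ∑ k, (∑ i, B i m * n i) * (∑ j, B j k * n j) * E m k)
        - (∑ m, (∑ i, B i m * n i) * n m) * ∑ j, ∑ k, B j k * E j k) := by
    have e1 : ∀ i j m k, ((f ^ 2)⁻¹ * B i m) * ((f ^ 2)⁻¹ * B j k) *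
      (φ * ((r * n i) * (r * n j) / r ^ 4) * (f ^ 2 * E m k)
        - φ * ((r * n i) * (r * n m) / r ^ 4) * (f ^ 2 * E j k))
        = φ / (r * f) ^ 2 * (B i m * n i * (B j k * n j) * E m k
          - B i m * n i * n m * (B j k * E j k)) := by
      intro i j m k
      field_simp
    simp only [e1]
    simp only [← Finset.mul_sum, Finset.sum_sub_distrib]
    congr 1
    congr 1
    · simp only [Fin.sum_univ_three]
      ring
    · simp only [Fin.sum_univ_three]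
      ring
  rw [key]
  simp only [h1]
  have h2 : ∑ m, L2 * n m * n m = L2 := by
    have : ∑ m, L2 * n m * n m = L2 * ∑ i, n i ^ 2 := by
      rw [Finset.mul_sum]
      exact Finset.sum_congr rfl fun i _ => by ring
    rw [this, hn, mul_one]
  have h3 : ∑ m, ∑ k, L2 * n m * (L2 * n k) * E m k
      = L2 * (L2 * ∑ i, ∑ j, E i j * n i * n j) := by
    simp only [Finset.mul_sum]
    exact Finset.sum_congr rfl fun i _ => Finset.sum_congr rfl fun j _ => by ring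
  rw [h2, h3]
  ring

/-- The leading part of the momentum density. -/
theorem mom_sum (G B k : Bil) (n p : Cov) (L2 r f φ : ℝ) (hr : r ≠ 0)
    (hf : f ≠ 0) (h : ∀ i, ∑ j, B i j * n j = L2 * n i)
    (hG : ∀ i, ∑ j, G i j * (∑ l, B j l * p l) = p i) :
    (∑ j, (∑ l, ((f ^ 2)⁻¹ * B j l) * p l) * ∑ i, ∑ m, ((f ^ 2)⁻¹ * B i m) *
      (φ * ((r * n m) / r ^ 2) * (f ^ 2 * k i j)
        - (∑ a, ∑ b, ((f ^ 2)⁻¹ * B a b) * (φ * ((r * n m) / r ^ 2) * (f ^ 2 * k a b)))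
          * (f ^ 2 * G i j)))
      = φ * r / (r * f) ^ 2 * (L2 * ((∑ i, ∑ j, k i j * n i * (∑ l, B j l * p l))
        - (∑ a, ∑ b, B a b * k a b) * ∑ i, n i * p i)) := by
  have h1 : ∀ i, ∑ m, B i m * n m = L2 * n i := h
  have e1 : ∀ i j m, ((f ^ 2)⁻¹ * B i m) *
      (φ * ((r * n m) / r ^ 2) * (f ^ 2 * k i j)
        - (∑ a, ∑ b, ((f ^ 2)⁻¹ * B a b) * (φ * ((r * n m) / r ^ 2) * (f ^ 2 * k a b)))
          * (f ^ 2 * G i j))
      = φ / r * (B i m * n m) * (k i j - (∑ a, ∑ b, B a b * k a b) * G i j) := by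
    intro i j m
    have e2 : (∑ a, ∑ b, ((f ^ 2)⁻¹ * B a b) * (φ * ((r * n m) / r ^ 2) * (f ^ 2 * k a b)))
        = φ * ((r * n m) / r ^ 2) * ∑ a, ∑ b, B a b * k a b := by
      simp only [Finset.mul_sum]
      refine Finset.sum_congr rfl fun a _ => Finset.sum_congr rfl fun b _ => ?_
      field_simp
    rw [e2]
    field_simp
  have e3 : ∀ j, (∑ l, ((f ^ 2)⁻¹ * B j l) * p l) = (f ^ 2)⁻¹ * ∑ l, B j l * p l := by
    intro j
    rw [Finset.mul_sum]
    exact Finset.sum_congr rfl fun l _ => by ring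
  have e4 : ∀ j, (∑ i, ∑ m, ((f ^ 2)⁻¹ * B i m) *
      (φ * ((r * n m) / r ^ 2) * (f ^ 2 * k i j)
        - (∑ a, ∑ b, ((f ^ 2)⁻¹ * B a b) * (φ * ((r * n m) / r ^ 2) * (f ^ 2 * k a b)))
          * (f ^ 2 * G i j)))
      = φ / r * L2 * ∑ i, n i * (k i j - (∑ a, ∑ b, B a b * k a b) * G i j) := by
    intro j
    simp only [e1]
    rw [Finset.mul_sum]
    refine Finset.sum_congr rfl fun i _ => ?_
    rw [← Finset.sum_mul, ← Finset.mul_sum, h1]
    ring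
  simp only [e3, e4]
  have e5 : ∑ j, (f ^ 2)⁻¹ * (∑ l, B j l * p l) *
      (φ / r * L2 * ∑ i, n i * (k i j - (∑ a, ∑ b, B a b * k a b) * G i j))
      = φ * r / (r * f) ^ 2 * (L2 * ((∑ j, (∑ l, B j l * p l) * ∑ i, n i * k i j)
        - (∑ a, ∑ b, B a b * k a b) * ∑ j, (∑ l, B j l * p l) * ∑ i, n i * G i j)) := by
    have e6 : ∀ j, (f ^ 2)⁻¹ * (∑ l, B j l * p l) *
      (φ / r * L2 * ∑ i, n i * (k i j - (∑ a, ∑ b, B a b * k a b) * G i j))
      = φ * r / (r * f) ^ 2 * (L2 * ((∑ l, B j l * p l) * (∑ i, n i * k i j)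
        - (∑ a, ∑ b, B a b * k a b) * ((∑ l, B j l * p l) * ∑ i, n i * G i j))) := by
      intro j
      have e7 : ∑ i, n i * (k i j - (∑ a, ∑ b, B a b * k a b) * G i j)
          = (∑ i, n i * k i j) - (∑ a, ∑ b, B a b * k a b) * ∑ i, n i * G i j := by
        rw [Finset.mul_sum, ← Finset.sum_sub_distrib]
        exact Finset.sum_congr rfl fun i _ => by ring
      rw [e7]
      field_simp
    simp only [e6]
    rw [← Finset.mul_sum, ← Finset.mul_sum, Finset.sum_sub_distrib, ← Finset.mul_sum]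
  rw [e5]
  have e8 : ∑ j, (∑ l, B j l * p l) * ∑ i, n i * k i j
      = ∑ i, ∑ j, k i j * n i * (∑ l, B j l * p l) := by
    rw [Finset.sum_comm]
    refine Finset.sum_congr rfl fun j _ => ?_
    rw [Finset.mul_sum]
    exact Finset.sum_congr rfl fun i _ => by ring
  have e9 : ∑ j, (∑ l, B j l * p l) * ∑ i, n i * G i j = ∑ i, n i * p i := by
    calc ∑ j, (∑ l, B j l * p l) * ∑ i, n i * G i j
        = ∑ i, n i * ∑ j, G i j * (∑ l, B j l * p l) := by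
          simp only [Finset.mul_sum]
          rw [Finset.sum_comm]
          refine Finset.sum_congr rfl fun i _ => Finset.sum_congr rfl fun j _ => ?_
          rw [Finset.sum_mul]
          exact Finset.sum_congr rfl fun l _ => by ring
      _ = ∑ i, n i * p i := Finset.sum_congr rfl fun i _ => by rw [hG i]
  rw [e8, e9]

/-! ### Estimates -/

theorem vsz_nonneg (p : Cov) : 0 ≤ vsz p := Real.sqrt_nonneg _

theorem abs_le_vsz (p : Cov) (i : Fin 3) : |p i| ≤ vsz p := by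
  unfold vsz
  apply Real.abs_le_sqrt
  exact Finset.single_le_sum (f := fun i => p i ^ 2) (fun j _ => sq_nonneg _) (Finset.mem_univ i)

theorem s3 {f : Fin 3 → Fin 3 → Fin 3 → Fin 3 → ℝ} {c : ℝ} (h : ∀ i j k l, |f i j k l| ≤ c) :
    |∑ i, ∑ j, ∑ k, ∑ l, f i j k l| ≤ 81 * c := by
  have := EBARA.s2 (f := fun i j => ∑ k, ∑ l, f i j k l) (c := 9 * c)
    (fun i j => EBARA.s2 (fun k l => h i j k l))
  linarith

/-- The quadratic form of a bounded matrix. -/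
theorem ev_le {B : Bil} {D : ℝ} (hB : ∀ i j, |B i j| ≤ D) (w : Cov) :
    ev B w w ≤ 9 * D * vsz w ^ 2 := by
  have h1 : |ev B w w| ≤ 9 * (D * vsz w * vsz w) := by
    unfold ev
    refine EBARA.s2 fun i j => ?_
    rw [abs_mul, abs_mul]
    have h0 : 0 ≤ D := (abs_nonneg _).trans (hB i j)
    exact mul_le_mul (mul_le_mul (hB i j) (abs_le_vsz w i) (abs_nonneg _) h0)
      (abs_le_vsz w j) (abs_nonneg _) (mul_nonneg h0 (vsz_nonneg w))
  have h2 := le_abs_self (ev B w w)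
  nlinarith

theorem sqrt_ev_le {B : Bil} {D : ℝ} (hD : 1 ≤ D) (hB : ∀ i j, |B i j| ≤ D) (w : Cov) :
    Real.sqrt (ev B w w) ≤ 3 * D * vsz w := by
  have h1 := ev_le hB w
  have h2 := vsz_nonneg w
  apply Real.sqrt_le_iff.mpr
  refine ⟨by positivity, h1.trans ?_⟩
  have h3 : D ≤ D ^ 2 := by nlinarith
  have h4 : 0 ≤ vsz w ^ 2 := sq_nonneg _
  nlinarith [mul_le_mul_of_nonneg_right h3 h4]

/-- The lower bound of the leading part. -/
theorem final_ineq {Cφ τ φ r ρ L lp pν H T kk η Ck CL CT Ca Cb Cc tn ng v : ℝ} (hτ : 0 < τ)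
    (hφ : 0 ≤ φ) (hφ' : φ ≤ Cφ / τ) (hr : 1 ≤ r) (hr' : r ≤ 2) (hρ : 1 ≤ ρ) (hL : 0 ≤ L)
    (hL' : L ≤ CL) (hlp : 0 ≤ lp) (hlp' : lp ≤ Cc * v) (hH : H - T ≤ η + Ck * τ) (hη : 0 ≤ η)
    (hCk : 0 ≤ Ck) (hT : 0 ≤ T) (hT' : T ≤ CT) (hCa : 0 ≤ Ca) (hCb : 0 ≤ Cb) (hv : 0 ≤ v)
    (hCc : 0 ≤ Cc)
    (htn : 0 ≤ tn) (hng : 0 ≤ ng) (h1 : lp - L * pν ≤ Ca * (tn + ng)) (h2 : |kk| ≤ Cb * tn) :
    -((2 * Cφ * CL * (CT * Ca + CL * Cb)) / τ * (tn + ng)
      + ((2 * Cφ * CL * Cc) * η / τ + 2 * Cφ * CL * Cc * Ck) * v)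
      ≤ φ * r / ρ ^ 2 * (-(L * H * lp) - L ^ 2 * (kk - T * pν)) := by
  have hCL : 0 ≤ CL := hL.trans hL'
  have hCT : 0 ≤ CT := hT.trans hT'
  have hw : 0 ≤ φ * r / ρ ^ 2 * L := by positivity
  have hr2 : r / ρ ^ 2 ≤ 2 := by
    rw [div_le_iff₀ (by positivity)]
    nlinarith
  have hr20 : 0 ≤ r / ρ ^ 2 := by positivity
  have hCφ : 0 ≤ Cφ / τ := hφ.trans hφ'
  have hw' : φ * r / ρ ^ 2 * L ≤ 2 * (Cφ / τ) * CL := by
    have e1 : φ * r / ρ ^ 2 = φ * (r / ρ ^ 2) := by ring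
    rw [e1]
    have e2 : φ * (r / ρ ^ 2) ≤ Cφ / τ * 2 := mul_le_mul hφ' hr2 hr20 hCφ
    have e3 := mul_le_mul e2 hL' hL (by positivity)
    linarith
  have e0 : φ * r / ρ ^ 2 * (-(L * H * lp) - L ^ 2 * (kk - T * pν))
      = -(φ * r / ρ ^ 2 * L * ((H - T) * lp + T * (lp - L * pν) + L * kk)) := by ring
  rw [e0]
  have b1 : (H - T) * lp ≤ (η + Ck * τ) * (Cc * v) := by
    have c1 : (H - T) * lp ≤ (η + Ck * τ) * lp := mul_le_mul_of_nonneg_right hH hlp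
    have c2 : (η + Ck * τ) * lp ≤ (η + Ck * τ) * (Cc * v) :=
      mul_le_mul_of_nonneg_left hlp' (by positivity)
    exact c1.trans c2
  have b2 : T * (lp - L * pν) ≤ CT * (Ca * (tn + ng)) := by
    have c1 : T * (lp - L * pν) ≤ T * (Ca * (tn + ng)) := mul_le_mul_of_nonneg_left h1 hT
    have c2 : T * (Ca * (tn + ng)) ≤ CT * (Ca * (tn + ng)) :=
      mul_le_mul_of_nonneg_right hT' (by positivity)
    exact c1.trans c2
  have b3 : L * kk ≤ CL * (Cb * (tn + ng)) := by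
    have c1 : L * kk ≤ L * |kk| := mul_le_mul_of_nonneg_left (le_abs_self _) hL
    have c2 : L * |kk| ≤ CL * (Cb * tn) := mul_le_mul hL' h2 (abs_nonneg _) hCL
    have c3 : CL * (Cb * tn) ≤ CL * (Cb * (tn + ng)) := by
      apply mul_le_mul_of_nonneg_left _ hCL
      apply mul_le_mul_of_nonneg_left _ hCb
      linarith
    exact c1.trans (c2.trans c3)
  set S : ℝ := (η + Ck * τ) * (Cc * v) + CT * (Ca * (tn + ng)) + CL * (Cb * (tn + ng)) with hS
  have hS0 : 0 ≤ S := by positivity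
  have b4 : φ * r / ρ ^ 2 * L * ((H - T) * lp + T * (lp - L * pν) + L * kk)
      ≤ 2 * (Cφ / τ) * CL * S := by
    have c1 : φ * r / ρ ^ 2 * L * ((H - T) * lp + T * (lp - L * pν) + L * kk)
        ≤ φ * r / ρ ^ 2 * L * S := mul_le_mul_of_nonneg_left (by linarith) hw
    have c2 : φ * r / ρ ^ 2 * L * S ≤ 2 * (Cφ / τ) * CL * S :=
      mul_le_mul_of_nonneg_right hw' hS0
    exact c1.trans c2
  have e1 : 2 * (Cφ / τ) * CL * S
      = (2 * Cφ * CL * (CT * Ca + CL * Cb)) / τ * (tn + ng)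
      + ((2 * Cφ * CL * Cc) * η / τ + 2 * Cφ * CL * Cc * Ck) * v := by
    rw [hS]
    field_simp
    ring
  rw [← e1]
  linarith

/-- Splitting of a covector. -/
theorem len_split {B : Bil} {D : ℝ} (hD : 1 ≤ D) (hBb : ∀ i j, |B i j| ≤ D)
    (hB : ∀ i j, B i j = B j i) {n : Cov} (hn : ∑ i, n i ^ 2 = 1)
    (h0 : 0 < ev B n n) (h : ∀ i, ∑ j, B i j * n j = ev B n n * n i) (p : Cov) :
    Real.sqrt (ev B p p) - Real.sqrt (ev B n n) * (∑ j, p j * n j)
      ≤ 6 * D * (vsz (fun i => p i - (∑ j, p j * n j) * n i) + max (-(∑ j, p j * n j)) 0) := by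
  set a : ℝ := ∑ j, p j * n j with ha
  set q : Cov := fun i => p i - a * n i with hq
  have h1 : ev B p p = ev B n n * a ^ 2 + ev B q q := ev_split hB hn h p
  have hev : ev B n n ≤ 9 * D := by
    have h2 := ev_le hBb n
    have h3 : vsz n ^ 2 = 1 := by
      unfold vsz
      rw [Real.sq_sqrt (Finset.sum_nonneg fun i _ => sq_nonneg _), hn]
    rw [h3] at h2
    linarith
  have hL : Real.sqrt (ev B n n) ≤ 3 * D := by
    apply Real.sqrt_le_iff.mpr
    refine ⟨by positivity, hev.trans ?_⟩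
    nlinarith
  have h2 : Real.sqrt (ev B p p) ≤ Real.sqrt (ev B n n) * |a| + 3 * D * vsz q := by
    have h3 := sqrt_ev_le hD hBb q
    have h4 : 0 ≤ 3 * D * vsz q := by
      have := vsz_nonneg q
      positivity
    have h5 : ev B q q ≤ (3 * D * vsz q) ^ 2 := by
      have h6 := ev_le hBb q
      have h7 := vsz_nonneg q
      nlinarith [sq_nonneg (vsz q), mul_nonneg (by linarith : (0:ℝ) ≤ D - 1) (sq_nonneg (vsz q)),
        mul_nonneg (mul_nonneg (by linarith : (0:ℝ) ≤ D) (by linarith : (0:ℝ) ≤ D - 1))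
          (sq_nonneg (vsz q))]
    apply Real.sqrt_le_iff.mpr
    refine ⟨by positivity, ?_⟩
    rw [h1]
    have h8 : (Real.sqrt (ev B n n) * |a|) ^ 2 = ev B n n * a ^ 2 := by
      rw [mul_pow, Real.sq_sqrt h0.le, sq_abs]
    nlinarith [mul_nonneg (mul_nonneg (Real.sqrt_nonneg (ev B n n)) (abs_nonneg a)) h4]
  have h3 : |a| - a ≤ 2 * max (-a) 0 := by
    rcases le_total 0 a with h | h
    · rw [abs_of_nonneg h]
      have := le_max_right (-a) 0
      linarith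
    · rw [abs_of_nonpos h]
      have := le_max_left (-a) 0
      linarith
  have h4 : Real.sqrt (ev B n n) * (|a| - a) ≤ 3 * D * (2 * max (-a) 0) := by
    have h5 : 0 ≤ |a| - a := by
      have := le_abs_self a
      linarith
    exact mul_le_mul hL h3 h5 (by positivity)
  have h5 := vsz_nonneg q
  nlinarith [mul_nonneg (by linarith : (0:ℝ) ≤ D) h5]

/-- The mixed term. -/
theorem mix_le {B k : Bil} {D K : ℝ} (hBb : ∀ i j, |B i j| ≤ D) (hk : ∀ i j, |k i j| ≤ K)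
    {n : Cov} (hn : ∑ i, n i ^ 2 = 1) (q : Cov) :
    |∑ i, ∑ j, k i j * n i * (∑ l, B j l * q l)| ≤ 27 * K * D * vsz q := by
  have h1 : ∀ j, |∑ l, B j l * q l| ≤ 3 * (D * vsz q) := by
    intro j
    refine EBARA.s1 fun l => ?_
    rw [abs_mul]
    exact mul_le_mul (hBb j l) (abs_le_vsz q l) (abs_nonneg _) ((abs_nonneg _).trans (hBb j l))
  have h2 : |∑ i, ∑ j, k i j * n i * (∑ l, B j l * q l)| ≤ 9 * (K * 1 * (3 * (D * vsz q))) := by
    refine EBARA.s2 fun i j => ?_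
    rw [abs_mul, abs_mul]
    have h0 : 0 ≤ K := (abs_nonneg _).trans (hk i j)
    exact mul_le_mul (mul_le_mul (hk i j) (EBARA.abs_le_one hn i) (abs_nonneg _) h0) (h1 j)
      (abs_nonneg _) (by positivity)
  linarith

/-! ### The mean curvature and the trace along the rays -/

/-- The radial covector. -/
noncomputable def pn (z : E3) : Cov := fun i => z i / ‖z‖

theorem grad_rad {z : E3} (hz : z ≠ 0) : grad rad z = pn z := by
  funext i
  exact EBARA.pd_rad hz i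

theorem pn_unit {z : E3} (hz : z ≠ 0) : ∑ i, pn z i ^ 2 = 1 := by
  have h1 : ‖z‖ ^ 2 = ∑ i, z i ^ 2 := by
    rw [EuclideanSpace.norm_sq_eq]
    exact Finset.sum_congr rfl fun i _ => by rw [Real.norm_eq_abs, sq_abs]
  have h2 : ‖z‖ ≠ 0 := norm_ne_zero_iff.mpr hz
  have h3 : ∑ i, pn z i ^ 2 = (∑ i, z i ^ 2) / ‖z‖ ^ 2 := by
    rw [Finset.sum_div]
    exact Finset.sum_congr rfl fun i _ => by unfold pn; rw [div_pow]
  rw [h3, ← h1]
  field_simp

theorem pn_smul {z : E3} {s : ℝ} (hs : 0 < s) : pn (s • z) = pn z := by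
  funext i
  unfold pn
  rw [norm_smul, Real.norm_eq_abs, abs_of_pos hs]
  simp only [PiLp.smul_apply, smul_eq_mul]
  rw [mul_div_mul_left _ _ hs.ne']

/-- The squared length of the radial covector. -/
noncomputable def Lq (g : TensorField) (z : E3) : ℝ := ev (g z)⁻¹ (pn z) (pn z)

theorem Lq_pos {g : TensorField} {z : E3} (hg : (g z).PosDef) (hz : z ≠ 0) : 0 < Lq g z := by
  apply RADN.ev_pos hg.inv
  intro h
  have := pn_unit hz
  rw [h] at this
  simp at this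

/-- The tangential trace as an explicit function. -/
noncomputable def bt (g Q : TensorField) (z : E3) : ℝ :=
  (∑ i, ∑ j, (g z)⁻¹ i j * Q z i j)
    - (∑ i, ∑ j, Q z i j * (∑ l, (g z)⁻¹ i l * pn z l) * (∑ l, (g z)⁻¹ j l * pn z l)) / Lq g z

theorem bt_eq {g : TensorField} (Q : TensorField) {z : E3} (hg : (g z).PosDef) (hz : z ≠ 0) :
    btan g z (grad rad z) (Q z) = bt g Q z := by
  rw [grad_rad hz, btan_formula g z (pn z) (Q z) (Lq_pos hg hz)]
  rfl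

/-- The region near the unit sphere. -/
def Vr (δ₀ : ℝ) : Set E3 := {z : E3 | z ≠ 0 ∧ 1 - δ₀ < ‖z‖ ∧ ‖z‖ < 1 + δ₀}

theorem isOpen_Vr (δ₀ : ℝ) : IsOpen (Vr δ₀) := by
  apply IsOpen.inter
  · exact isOpen_ne
  · exact IsOpen.inter (isOpen_lt continuous_const continuous_norm)
      (isOpen_lt continuous_norm continuous_const)

theorem isOpen_Outside (δ₀ : ℝ) : IsOpen (Outside δ₀) :=
  isOpen_lt continuous_const continuous_norm

theorem Vr_sub (δ₀ : ℝ) : Vr δ₀ ⊆ Outside δ₀ := fun _ hz => hz.2.1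

theorem contDiffOn_pd {U : Set E3} (hU : IsOpen U) {f : E3 → ℝ} (hf : ContDiffOn ℝ ∞ f U)
    (k : Fin 3) : ContDiffOn ℝ ∞ (pd k f) U := by
  have h1 : ContDiffOn ℝ ∞ (fderiv ℝ f) U := hf.fderiv_of_isOpen hU (by simp)
  unfold pd
  exact h1.clm_apply contDiffOn_const

theorem cd_coord (i : Fin 3) (U : Set E3) : ContDiffOn ℝ ∞ (fun z : E3 => z i) U := by
  have h1 : ContDiff ℝ ∞ (fun z : E3 => z i) := by
    have : (fun z : E3 => z i) = fun z => EuclideanSpace.proj (𝕜 := ℝ) i z := by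
      funext z
      rfl
    rw [this]
    exact ContinuousLinearMap.contDiff _
  exact h1.contDiffOn

theorem cd_norm (δ₀ : ℝ) : ContDiffOn ℝ ∞ (fun z : E3 => ‖z‖) (Vr δ₀) := by
  intro z hz
  exact (contDiffAt_norm ℝ hz.1).contDiffWithinAt

theorem cd_pn (δ₀ : ℝ) (i : Fin 3) : ContDiffOn ℝ ∞ (fun z : E3 => pn z i) (Vr δ₀) := by
  unfold pn
  exact (cd_coord i _).div (cd_norm δ₀) fun z hz => norm_ne_zero_iff.mpr hz.1

theorem cd_B {g : TensorField} {δ₀ : ℝ} (hg : MetricOn (Outside δ₀) g) (i j : Fin 3) :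
    ContDiffOn ℝ ∞ (fun z => (g z)⁻¹ i j) (Vr δ₀) :=
  (HATBaux.contDiffOn_inv hg i j).mono (Vr_sub δ₀)

theorem cd_raise {g : TensorField} {δ₀ : ℝ} (hg : MetricOn (Outside δ₀) g) (i : Fin 3) :
    ContDiffOn ℝ ∞ (fun z => ∑ l, (g z)⁻¹ i l * pn z l) (Vr δ₀) :=
  ContDiffOn.sum fun l _ => (cd_B hg i l).mul (cd_pn δ₀ l)

theorem cd_Lq {g : TensorField} {δ₀ : ℝ} (hg : MetricOn (Outside δ₀) g) :
    ContDiffOn ℝ ∞ (Lq g) (Vr δ₀) := by
  unfold Lq ev
  exact ContDiffOn.sum fun i _ => ContDiffOn.sum fun j _ =>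
    ((cd_B hg i j).mul (cd_pn δ₀ i)).mul (cd_pn δ₀ j)

theorem cd_bt {g Q : TensorField} {δ₀ : ℝ} (hg : MetricOn (Outside δ₀) g)
    (hQ : ∀ i j, ContDiffOn ℝ ∞ (fun z => Q z i j) (Vr δ₀)) :
    ContDiffOn ℝ ∞ (bt g Q) (Vr δ₀) := by
  unfold bt
  refine ContDiffOn.sub ?_ (ContDiffOn.div ?_ (cd_Lq hg) fun z hz => ?_)
  · exact ContDiffOn.sum fun i _ => ContDiffOn.sum fun j _ => (cd_B hg i j).mul (hQ i j)
  · exact ContDiffOn.sum fun i _ => ContDiffOn.sum fun j _ =>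
      ((hQ i j).mul (cd_raise hg i)).mul (cd_raise hg j)
  · exact (Lq_pos (hg.posDef z hz.2.1) hz.1).ne'

theorem cd_eulG {g : TensorField} {δ₀ : ℝ} (hg : MetricOn (Outside δ₀) g) (i j : Fin 3) :
    ContDiffOn ℝ ∞ (fun z => eulG g z i j) (Vr δ₀) := by
  have h1 : (fun z => eulG g z i j)
      = fun z => 2 * g z i j + ∑ m, z m * pd m (fun y => g y i j) z := by
    funext z
    rfl
  rw [h1]
  refine ContDiffOn.add (contDiffOn_const.mul ((hg.smooth i j).mono (Vr_sub δ₀))) ?_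
  refine ContDiffOn.sum fun m _ => (cd_coord m _).mul ?_
  exact (contDiffOn_pd (isOpen_Outside δ₀) (hg.smooth i j) m).mono (Vr_sub δ₀)

theorem cd_diff (hXMEAN : Stmt_XMEAN) {g k : TensorField} {δ₀ : ℝ}
    (hg : MetricOn (Outside δ₀) g) (hs : Shiftless δ₀ g) (hk : TensorOn (Outside δ₀) k) :
    ContDiffOn ℝ ∞ (fun z => sphereMean g z - sphereTr g k z) (Vr δ₀) := by
  have h1 : ContDiffOn ℝ ∞ (fun z => bt g (eulG g) z * Real.sqrt (Lq g z) / (2 * ‖z‖) - bt g k z)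
      (Vr δ₀) := by
    refine ContDiffOn.sub (ContDiffOn.div (ContDiffOn.mul (cd_bt hg (cd_eulG hg)) ?_)
      (contDiffOn_const.mul (cd_norm δ₀)) fun z hz => ?_) (cd_bt hg fun i j =>
        (hk.smooth i j).mono (Vr_sub δ₀))
    · exact (cd_Lq hg).sqrt fun z hz => (Lq_pos (hg.posDef z hz.2.1) hz.1).ne'
    · exact mul_ne_zero two_ne_zero (norm_ne_zero_iff.mpr hz.1)
  refine h1.congr fun z hz => ?_
  obtain ⟨h2, h3⟩ := hXMEAN g δ₀ z hg hs hz.1 hz.2.1 hz.2.2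
  have h4 : sphereTr g k z = bt g k z := bt_eq k (hg.posDef z hz.2.1) hz.1
  have h5 : btan g z (grad rad z) (eulG g z) = bt g (eulG g) z :=
    bt_eq (eulG g) (hg.posDef z hz.2.1) hz.1
  have h6 : len g z (grad rad z) = Real.sqrt (Lq g z) := by
    rw [grad_rad hz.1]
    rfl
  rw [h5, h6] at h2
  rw [h6] at h3
  have h7 : ‖z‖ ≠ 0 := norm_ne_zero_iff.mpr hz.1
  rw [h4, h2]
  field_simp

theorem lip (hXMEAN : Stmt_XMEAN) {g k : TensorField} {δ₀ δ : ℝ} (hδ₀ : 0 < δ₀)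
    (hexp : Real.exp δ < 1 + δ₀)
    (hg : MetricOn (Outside δ₀) g) (hs : Shiftless δ₀ g) (hk : TensorOn (Outside δ₀) k) :
    ∃ Ck : ℝ, 0 < Ck ∧ ∀ n : E3, ‖n‖ = 1 → ∀ s : ℝ, 1 ≤ s → s ≤ Real.exp δ →
      (sphereMean g (s • n) - sphereTr g k (s • n)) - (sphereMean g n - sphereTr g k n)
        ≤ Ck * (s - 1) := by
  set F : E3 → ℝ := fun z => sphereMean g z - sphereTr g k z with hF
  have hcd : ContDiffOn ℝ ∞ F (Vr δ₀) := cd_diff hXMEAN hg hs hk
  have hopen := isOpen_Vr δ₀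
  have hsub : ∀ z : E3, 1 ≤ ‖z‖ → ‖z‖ ≤ Real.exp δ → z ∈ Vr δ₀ := by
    intro z h1 h2
    refine ⟨?_, by linarith, by linarith⟩
    intro h
    rw [h, norm_zero] at h1
    linarith
  have hfd : ContinuousOn (fun z => ‖fderiv ℝ F z‖) (Vr δ₀) := by
    have h1 : ContDiffOn ℝ ∞ (fderiv ℝ F) (Vr δ₀) := hcd.fderiv_of_isOpen hopen (by simp)
    exact h1.continuousOn.norm
  have hcomp : IsCompact {z : E3 | 1 ≤ ‖z‖ ∧ ‖z‖ ≤ Real.exp δ} := by
    have hc : IsClosed {z : E3 | 1 ≤ ‖z‖ ∧ ‖z‖ ≤ Real.exp δ} :=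
      (isClosed_le continuous_const continuous_norm).inter
        (isClosed_le continuous_norm continuous_const)
    refine (isCompact_closedBall (0 : E3) (Real.exp δ)).of_isClosed_subset hc ?_
    intro z hz
    rw [mem_closedBall_zero_iff]
    exact hz.2
  obtain ⟨M, hM⟩ := hcomp.exists_bound_of_continuousOn
    (hfd.mono fun z hz => hsub z hz.1 hz.2)
  refine ⟨|M| + 1, by positivity, fun n hn s hs1 hs2 => ?_⟩
  have h1 : ‖F (s • n) - F ((1 : ℝ) • n)‖ ≤ (|M| + 1) * ‖s - 1‖ := by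
    have hmem : ∀ t ∈ Set.Icc (1 : ℝ) (Real.exp δ), t • n ∈ Vr δ₀ := by
      intro t ht
      have h2 : ‖t • n‖ = t := by
        rw [norm_smul, hn, mul_one, Real.norm_eq_abs, abs_of_pos (by linarith [ht.1])]
      exact hsub _ (by rw [h2]; exact ht.1) (by rw [h2]; exact ht.2)
    refine Convex.norm_image_sub_le_of_norm_hasDerivWithin_le (f := fun t => F (t • n))
      (f' := fun t => fderiv ℝ F (t • n) n) (s := Set.Icc (1 : ℝ) (Real.exp δ)) ?_ ?_
      (convex_Icc _ _) ⟨le_rfl, by linarith⟩ ⟨hs1, hs2⟩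
    · intro t ht
      have h3 : DifferentiableAt ℝ F (t • n) :=
        (hcd.contDiffAt (hopen.mem_nhds (hmem t ht))).differentiableAt (by simp)
      have h4 : HasDerivAt (fun t : ℝ => t • n) n t := by
        simpa using (hasDerivAt_id t).smul_const n
      exact (h3.hasFDerivAt.comp_hasDerivAt t h4).hasDerivWithinAt
    · intro t ht
      have h2 : ‖t • n‖ = t := by
        rw [norm_smul, hn, mul_one, Real.norm_eq_abs, abs_of_pos (by linarith [ht.1])]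
      have h3 := hM (t • n) ⟨by rw [h2]; exact ht.1, by rw [h2]; exact ht.2⟩
      rw [Real.norm_eq_abs, abs_of_nonneg (norm_nonneg _)] at h3
      refine (ContinuousLinearMap.le_opNorm _ _).trans ?_
      rw [hn, mul_one]
      have := le_abs_self M
      linarith
  rw [one_smul, Real.norm_eq_abs, Real.norm_eq_abs, abs_of_nonneg (by linarith : (0:ℝ) ≤ s - 1)]
    at h1
  exact (le_abs_self _).trans h1

/-! ### Errors -/

theorem err_curv {A : Bil} {Λ c : ℝ} (hA : ∀ i j, |A i j| ≤ Λ)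
    (X Y : Fin 3 → Fin 3 → Fin 3 → Fin 3 → ℝ) (h : ∀ i j m n, |X i j m n - Y i j m n| ≤ c) :
    |(∑ i, ∑ j, ∑ m, ∑ n, A i m * A j n * (X i j m n - X i m j n))
      - ∑ i, ∑ j, ∑ m, ∑ n, A i m * A j n * (Y i j m n - Y i m j n)| ≤ 81 * (Λ * Λ * (2 * c)) := by
  have h0 : 0 ≤ Λ := (abs_nonneg _).trans (hA 0 0)
  have e1 : (∑ i, ∑ j, ∑ m, ∑ n, A i m * A j n * (X i j m n - X i m j n))
      - ∑ i, ∑ j, ∑ m, ∑ n, A i m * A j n * (Y i j m n - Y i m j n)
      = ∑ i, ∑ j, ∑ m, ∑ n, A i m * A j n * ((X i j m n - Y i j m n)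
        - (X i m j n - Y i m j n)) := by
    simp only [← Finset.sum_sub_distrib]
    refine Finset.sum_congr rfl fun i _ => Finset.sum_congr rfl fun j _ =>
      Finset.sum_congr rfl fun m _ => Finset.sum_congr rfl fun n _ => ?_
    ring
  rw [e1]
  refine s3 fun i j m n => ?_
  rw [abs_mul, abs_mul]
  have h1 : |(X i j m n - Y i j m n) - (X i m j n - Y i m j n)| ≤ 2 * c := by
    refine (abs_sub _ _).trans ?_
    have := h i j m n
    have := h i m j n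
    linarith
  exact mul_le_mul (mul_le_mul (hA i m) (hA j n) (abs_nonneg _) h0) h1 (abs_nonneg _)
    (by positivity)

theorem err_mom {A G : Bil} {Λ c : ℝ} (hA : ∀ i j, |A i j| ≤ Λ) (hG : ∀ i j, |G i j| ≤ Λ)
    (Z W : Fin 3 → Fin 3 → Fin 3 → ℝ) (h : ∀ m i j, |Z m i j - W m i j| ≤ c) (j : Fin 3) :
    |(∑ i, ∑ m, A i m * (Z m i j - (∑ a, ∑ b, A a b * Z m a b) * G i j))
      - ∑ i, ∑ m, A i m * (W m i j - (∑ a, ∑ b, A a b * W m a b) * G i j)|
      ≤ 9 * (Λ * (c + 9 * (Λ * c) * Λ)) := by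
  have h0 : 0 ≤ Λ := (abs_nonneg _).trans (hA 0 0)
  have hc : 0 ≤ c := (abs_nonneg _).trans (h 0 0 0)
  have e1 : (∑ i, ∑ m, A i m * (Z m i j - (∑ a, ∑ b, A a b * Z m a b) * G i j))
      - ∑ i, ∑ m, A i m * (W m i j - (∑ a, ∑ b, A a b * W m a b) * G i j)
      = ∑ i, ∑ m, A i m * ((Z m i j - W m i j)
        - (∑ a, ∑ b, A a b * (Z m a b - W m a b)) * G i j) := by
    simp only [← Finset.sum_sub_distrib]
    refine Finset.sum_congr rfl fun i _ => Finset.sum_congr rfl fun m _ => ?_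
    have e2 : ∑ a, ∑ b, A a b * (Z m a b - W m a b)
        = (∑ a, ∑ b, A a b * Z m a b) - ∑ a, ∑ b, A a b * W m a b := by
      simp only [← Finset.sum_sub_distrib]
      refine Finset.sum_congr rfl fun a _ => Finset.sum_congr rfl fun b _ => ?_
      ring
    rw [e2]
    ring
  rw [e1]
  refine EBARA.s2 fun i m => ?_
  rw [abs_mul]
  refine mul_le_mul (hA i m) ?_ (abs_nonneg _) h0
  refine (abs_sub _ _).trans (add_le_add (h m i j) ?_)
  rw [abs_mul]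
  refine mul_le_mul ?_ (hG i j) (abs_nonneg _) (by positivity)
  refine EBARA.s2 fun a b => ?_
  rw [abs_mul]
  exact mul_le_mul (hA a b) (h m a b) (abs_nonneg _) h0

theorem normSq_le {A h : Bil} {Λ : ℝ} (hA : ∀ i j, |A i j| ≤ Λ) (hh : ∀ i j, |h i j| ≤ Λ) :
    |∑ i, ∑ j, ∑ k, ∑ l, A i k * A j l * h i j * h k l| ≤ 81 * (Λ * Λ * Λ * Λ) := by
  have h0 : 0 ≤ Λ := (abs_nonneg _).trans (hA 0 0)
  refine s3 fun i j k l => ?_
  rw [abs_mul, abs_mul, abs_mul]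
  exact mul_le_mul (mul_le_mul (mul_le_mul (hA i k) (hA j l) (abs_nonneg _) h0) (hh i j)
    (abs_nonneg _) (by positivity)) (hh k l) (abs_nonneg _) (by positivity)

theorem tr_le {A h : Bil} {Λ M : ℝ} (hA : ∀ i j, |A i j| ≤ Λ) (hh : ∀ i j, |h i j| ≤ M) :
    |∑ i, ∑ j, A i j * h i j| ≤ 9 * (Λ * M) := by
  have h0 : 0 ≤ Λ := (abs_nonneg _).trans (hA 0 0)
  refine EBARA.s2 fun i j => ?_
  rw [abs_mul]
  exact mul_le_mul (hA i j) (hh i j) (abs_nonneg _) h0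

/-- The combination of the errors with the leading part. -/
theorem combine {R N Tr SR ln eR eN v Λ : ℝ} {mom ra sj : Fin 3 → ℝ} {eJ : ℝ}
    (hln : 0 ≤ ln) (hln' : ln ≤ 3 * Λ * v) (hR : |R - SR| ≤ eR) (hN : |N| ≤ eN)
    (hra : ∀ j, |ra j| ≤ 3 * (Λ * v)) (hJ : ∀ j, |mom j - sj j| ≤ eJ) :
    (ln * (1 / 2 * SR) - ∑ j, ra j * sj j) - (3 * Λ * (eR + eN) + 9 * Λ * eJ) * v
      ≤ ln * (1 / 2 * (R - N + Tr ^ 2)) - ∑ j, mom j * ra j := by
  have heR : 0 ≤ eR := (abs_nonneg _).trans hR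
  have heN : 0 ≤ eN := (abs_nonneg _).trans hN
  have heJ : 0 ≤ eJ := (abs_nonneg _).trans (hJ 0)
  have h1 : SR - R ≤ eR := by
    have := (abs_le.mp hR).1
    linarith
  have h2 : N ≤ eN := (le_abs_self _).trans hN
  have h3 : ln * (1 / 2 * SR) - ln * (1 / 2 * (R - N + Tr ^ 2)) ≤ 3 * Λ * v * (eR + eN) := by
    have e1 : ln * (1 / 2 * SR) - ln * (1 / 2 * (R - N + Tr ^ 2))
        = ln * (1 / 2 * (SR - R + N - Tr ^ 2)) := by ring
    rw [e1]
    have h4 : 1 / 2 * (SR - R + N - Tr ^ 2) ≤ eR + eN := by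
      have := sq_nonneg Tr
      linarith
    have h5 : ln * (1 / 2 * (SR - R + N - Tr ^ 2)) ≤ ln * (eR + eN) :=
      mul_le_mul_of_nonneg_left h4 hln
    have h6 : ln * (eR + eN) ≤ 3 * Λ * v * (eR + eN) :=
      mul_le_mul_of_nonneg_right hln' (by positivity)
    exact h5.trans h6
  have h4 : (∑ j, mom j * ra j) - ∑ j, ra j * sj j ≤ 9 * Λ * eJ * v := by
    have e1 : (∑ j, mom j * ra j) - ∑ j, ra j * sj j = ∑ j, (mom j - sj j) * ra j := by
      rw [← Finset.sum_sub_distrib]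
      exact Finset.sum_congr rfl fun j _ => by ring
    rw [e1]
    have h5 : |∑ j, (mom j - sj j) * ra j| ≤ 3 * (eJ * (3 * (Λ * v))) := by
      refine EBARA.s1 fun j => ?_
      rw [abs_mul]
      exact mul_le_mul (hJ j) (hra j) (abs_nonneg _) heJ
    have h6 := le_abs_self (∑ j, (mom j - sj j) * ra j)
    nlinarith
  nlinarith

/-- The leading part of the matter term. -/
theorem lead_eq {G k E : Bil} (hG : G.PosDef) {n p : Cov} (hn : ∑ i, n i ^ 2 = 1)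
    (h0 : 0 < ev G⁻¹ n n) (h : ∀ i, ∑ j, G⁻¹ i j * n j = ev G⁻¹ n n * n i) {r f φ H T : ℝ}
    (hr : 0 < r) (hf : 0 < f)
    (hmean : (∑ i, ∑ j, G⁻¹ i j * E i j) - ev G⁻¹ n n * ∑ i, ∑ j, E i j * n i * n j
      = 2 * (r * f) * H / Real.sqrt (ev G⁻¹ n n))
    (hT : T = (∑ i, ∑ j, G⁻¹ i j * k i j) - ev G⁻¹ n n * ∑ i, ∑ j, k i j * n i * n j) :
    (f⁻¹ * Real.sqrt (ev G⁻¹ p p)) * (1 / 2 *
      ∑ i, ∑ j, ∑ m, ∑ l, ((f ^ 2)⁻¹ * G⁻¹ i m) * ((f ^ 2)⁻¹ * G⁻¹ j l) *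
      (φ * ((r * n i) * (r * n j) / r ^ 4) * (f ^ 2 * E m l)
        - φ * ((r * n i) * (r * n m) / r ^ 4) * (f ^ 2 * E j l)))
      - (∑ j, (∑ l, ((f ^ 2)⁻¹ * G⁻¹ j l) * p l) * ∑ i, ∑ m, ((f ^ 2)⁻¹ * G⁻¹ i m) *
      (φ * ((r * n m) / r ^ 2) * (f ^ 2 * k i j)
        - (∑ a, ∑ b, ((f ^ 2)⁻¹ * G⁻¹ a b) * (φ * ((r * n m) / r ^ 2) * (f ^ 2 * k a b)))
          * (f ^ 2 * G i j)))
      = φ * r / (r * f) ^ 2 * (-(Real.sqrt (ev G⁻¹ n n) * H * Real.sqrt (ev G⁻¹ p p))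
        - Real.sqrt (ev G⁻¹ n n) ^ 2 * ((∑ i, ∑ j, k i j * n i *
          (∑ l, G⁻¹ j l * (p l - (∑ a, p a * n a) * n l))) - T * ∑ a, p a * n a)) := by
  rw [curv_sum G⁻¹ E (inv_symm_of_posDef hG) n (ev G⁻¹ n n) r f φ hr.ne' hf.ne' hn h,
    mom_sum G G⁻¹ k n p (ev G⁻¹ n n) r f φ hr.ne' hf.ne' h (EBARA.inv_app hG p), hmean]
  set B : Bil := G⁻¹ with hB
  set L2 : ℝ := ev B n n with hL2
  set L : ℝ := Real.sqrt L2 with hL
  have hLp : 0 < L := Real.sqrt_pos.mpr h0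
  have hLs : L ^ 2 = L2 := Real.sq_sqrt h0.le
  set a : ℝ := ∑ a, p a * n a with ha
  have e1 : ∑ i, n i * p i = a := by
    rw [ha]
    exact Finset.sum_congr rfl fun i _ => mul_comm _ _
  have e2 : ∑ i, ∑ j, k i j * n i * (∑ l, B j l * (p l - a * n l))
      = (∑ i, ∑ j, k i j * n i * (∑ l, B j l * p l))
        - a * (L2 * ∑ i, ∑ j, k i j * n i * n j) := by
    have e3 : ∀ j, ∑ l, B j l * (p l - a * n l) = (∑ l, B j l * p l) - a * (L2 * n j) := by
      intro j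
      rw [← h j, Finset.mul_sum, ← Finset.sum_sub_distrib]
      exact Finset.sum_congr rfl fun l _ => by ring
    simp only [e3]
    rw [Finset.mul_sum, Finset.mul_sum, ← Finset.sum_sub_distrib]
    refine Finset.sum_congr rfl fun i _ => ?_
    rw [Finset.mul_sum, Finset.mul_sum, ← Finset.sum_sub_distrib]
    exact Finset.sum_congr rfl fun j _ => by ring
  rw [e1, e2, hT, ← hLs]
  field_simp
  ring

/-- The unit normal. -/
theorem nrm_unit {g : TensorField} {y : E3} (hG : (g y).PosDef) {n : Cov}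
    (h0 : 0 < ev (g y)⁻¹ n n) : ev (g y) (nrm g y n) (nrm g y n) = 1 := by
  have hl : len g y n ^ 2 = ev (g y)⁻¹ n n := Real.sq_sqrt h0.le
  have hl0 : len g y n ≠ 0 := by
    intro h
    rw [h] at hl
    simp at hl
    linarith
  have h1 : ev (g y) (nrm g y n) (nrm g y n)
      = ev (g y) (raise g y n) (raise g y n) / len g y n ^ 2 := by
    unfold ev nrm
    rw [Finset.sum_div]
    refine Finset.sum_congr rfl fun i _ => ?_
    rw [Finset.sum_div]
    refine Finset.sum_congr rfl fun j _ => ?_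
    field_simp
  have h2 : ev (g y) (raise g y n) (raise g y n) = ev (g y)⁻¹ n n := (EBARA.ev_inv hG n).symm
  rw [h1, h2, hl]
  exact div_self h0.ne'

/-- The trace over the sphere is nonnegative. -/
theorem tr_nonneg {g k : TensorField} (h2 : TwoNonneg {x : E3 | 1 ≤ ‖x‖} g k) {y : E3}
    (hy : 1 ≤ ‖y‖) (hG : (g y).PosDef) (hy0 : y ≠ 0) : 0 ≤ sphereTr g k y := by
  have h1 := Lq_pos hG hy0
  have h3 := h2 y hy (nrm g y (pn y)) (nrm_unit hG h1)
  unfold sphereTr btan bnn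
  rw [grad_rad hy0]
  linarith

/-- The lower bound for the leading part. -/
theorem lead_bound {G k E : Bil} {D K Cφ Ck τ η : ℝ} (hG : G.PosDef) {n p : Cov}
    (hn : ∑ i, n i ^ 2 = 1)
    (h0 : 0 < ev G⁻¹ n n) (h : ∀ i, ∑ j, G⁻¹ i j * n j = ev G⁻¹ n n * n i) {r f φ H T : ℝ}
    (hr1 : 1 ≤ r) (hr2 : r ≤ 2) (hf : 0 < f) (hρ : 1 ≤ r * f) (hD : 1 ≤ D)
    (hBb : ∀ i j, |G⁻¹ i j| ≤ D) (hk : ∀ i j, |k i j| ≤ K)
    (hmean : (∑ i, ∑ j, G⁻¹ i j * E i j) - ev G⁻¹ n n * ∑ i, ∑ j, E i j * n i * n j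
      = 2 * (r * f) * H / Real.sqrt (ev G⁻¹ n n))
    (hT : T = (∑ i, ∑ j, G⁻¹ i j * k i j) - ev G⁻¹ n n * ∑ i, ∑ j, k i j * n i * n j)
    (hT0 : 0 ≤ T) (hH : H - T ≤ η + Ck * τ) (hη : 0 ≤ η) (hCk : 0 ≤ Ck) (hτ : 0 < τ)
    (hφ : 0 ≤ φ) (hφ' : φ ≤ Cφ / τ) :
    -((2 * Cφ * (3 * D) * ((90 * D * K) * (6 * D) + (3 * D) * (27 * K * D))) / τ *
        (vsz (fun i => p i - (∑ j, p j * n j) * n i) + max (-(∑ j, p j * n j)) 0)
      + ((2 * Cφ * (3 * D) * (3 * D)) * η / τ + 2 * Cφ * (3 * D) * (3 * D) * Ck) * vsz p)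
    ≤ (f⁻¹ * Real.sqrt (ev G⁻¹ p p)) * (1 / 2 *
      ∑ i, ∑ j, ∑ m, ∑ l, ((f ^ 2)⁻¹ * G⁻¹ i m) * ((f ^ 2)⁻¹ * G⁻¹ j l) *
      (φ * ((r * n i) * (r * n j) / r ^ 4) * (f ^ 2 * E m l)
        - φ * ((r * n i) * (r * n m) / r ^ 4) * (f ^ 2 * E j l)))
      - (∑ j, (∑ l, ((f ^ 2)⁻¹ * G⁻¹ j l) * p l) * ∑ i, ∑ m, ((f ^ 2)⁻¹ * G⁻¹ i m) *
      (φ * ((r * n m) / r ^ 2) * (f ^ 2 * k i j)
        - (∑ a, ∑ b, ((f ^ 2)⁻¹ * G⁻¹ a b) * (φ * ((r * n m) / r ^ 2) * (f ^ 2 * k a b)))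
          * (f ^ 2 * G i j))) := by
  have hr : 0 < r := by linarith
  rw [lead_eq hG hn h0 h hr hf hmean hT]
  have hK : 0 ≤ K := (abs_nonneg _).trans (hk 0 0)
  have hD0 : 0 ≤ D := by linarith
  have hvn : vsz n = 1 := by
    unfold vsz
    rw [hn, Real.sqrt_one]
  have hL' : Real.sqrt (ev G⁻¹ n n) ≤ 3 * D := by
    have := sqrt_ev_le hD hBb n
    rw [hvn] at this
    linarith
  have hev : ev G⁻¹ n n ≤ 9 * D := by
    have := ev_le hBb n
    rw [hvn] at this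
    linarith
  have hT' : T ≤ 90 * D * K := by
    have c1 : |∑ i, ∑ j, G⁻¹ i j * k i j| ≤ 9 * (D * K) := tr_le hBb hk
    have c2 : |∑ i, ∑ j, k i j * n i * n j| ≤ 9 * (K * 1 * 1) := by
      refine EBARA.s2 fun i j => ?_
      rw [abs_mul, abs_mul]
      exact mul_le_mul (mul_le_mul (hk i j) (EBARA.abs_le_one hn i) (abs_nonneg _) hK)
        (EBARA.abs_le_one hn j) (abs_nonneg _) (by positivity)
    have c3 : -(ev G⁻¹ n n * ∑ i, ∑ j, k i j * n i * n j) ≤ 9 * D * (9 * K) := by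
      have d1 : -(ev G⁻¹ n n * ∑ i, ∑ j, k i j * n i * n j)
          ≤ ev G⁻¹ n n * |∑ i, ∑ j, k i j * n i * n j| := by
        rw [← mul_neg]
        exact mul_le_mul_of_nonneg_left (neg_le_abs _) h0.le
      have d2 : ev G⁻¹ n n * |∑ i, ∑ j, k i j * n i * n j| ≤ 9 * D * (9 * K) :=
        mul_le_mul hev (by linarith) (abs_nonneg _) (by positivity)
      exact d1.trans d2
    have c4 := le_abs_self (∑ i, ∑ j, G⁻¹ i j * k i j)
    rw [hT]
    linarith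
  refine final_ineq hτ hφ hφ' hr1 hr2 hρ (Real.sqrt_nonneg _) hL' (Real.sqrt_nonneg _)
    (sqrt_ev_le hD hBb p) hH hη hCk hT0 hT' (by positivity) (by positivity) (vsz_nonneg p)
    (by positivity) (vsz_nonneg _) (le_max_right _ _)
    (len_split hD hBb (inv_symm_of_posDef hG) hn h0 h p)
    (mix_le hBb hk hn _)

/-- The smallness of the collar. -/
theorem exp_le {τ : ℝ} (h0 : 0 < τ) (h1 : τ ≤ 1 / 8) : Real.exp τ ≤ 2 ∧ Real.exp τ - 1 ≤ 2 * τ := by
  have h2 : 1 - τ ≤ Real.exp (-τ) := by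
    have := Real.add_one_le_exp (-τ)
    linarith
  have h3 : Real.exp τ * Real.exp (-τ) = 1 := by
    rw [← Real.exp_add]
    simp
  have h4 := Real.exp_pos τ
  have h5 : Real.exp τ * (1 - τ) ≤ 1 :=
    (mul_le_mul_of_nonneg_left h2 h4.le).trans h3.le
  have h6 : Real.exp τ ≤ 2 := by nlinarith
  exact ⟨h6, by nlinarith⟩

end XCOLMaux

/-- XCOLM: the matter term in the collar. -/
theorem XCOLM (hXCURV : Stmt_XCURV) (hXMEAN : Stmt_XMEAN) (hXLEAD : Stmt_XLEAD)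
    (hXCOLG : Stmt_XCOLG) (hXCOLH : Stmt_XCOLH) (hXPHI : Stmt_XPHI) : Stmt_XCOLM := by
  intro g δ₀ δ K hδ₀ hδ hδ' hexp hg hs hK
  obtain ⟨Cφ, hCφ, hφ⟩ := hXPHI δ hδ hδ'
  obtain ⟨Cg, hCg, hG⟩ := hXCOLG g δ₀ δ hδ₀ hδ hδ' hexp hg hs
  obtain ⟨Ch, hCh, hH⟩ := hXCOLH δ₀ δ hδ₀ hδ hδ' hexp
  set Λ : ℝ := Cg + Ch * K + 1 with hΛdef
  have hΛ1 : 1 ≤ Λ := by
    rw [hΛdef]
    have := mul_pos hCh hK
    linarith
  have hΛ : 0 < Λ := by linarith
  obtain ⟨C1, hC1, hcurv⟩ := hXCURV Λ hΛ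
  set D : ℝ := Cg + 1 with hDdef
  have hD1 : 1 ≤ D := by linarith
  have hD0 : 0 < D := by linarith
  refine ⟨2 * Cφ * (3 * D) * ((90 * D * K) * (6 * D) + (3 * D) * (27 * K * D))
    + 2 * Cφ * (3 * D) * (3 * D), by positivity, fun k η hk h2 hkK hη hbd => ?_⟩
  obtain ⟨CL, hCL, hlead⟩ := hXLEAD g δ₀ δ hδ₀ hδ hδ' hexp hg k hk
  obtain ⟨Ck, hCk, hlip⟩ := XCOLMaux.lip hXMEAN hδ₀ hexp hg hs hk
  set eR : ℝ := C1 + 81 * (Λ * Λ * (2 * CL)) with heR
  set eN : ℝ := 81 * (Λ * Λ * Λ * Λ) with heN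
  set eJ : ℝ := C1 + 9 * (Λ * (CL + 9 * (Λ * CL) * Λ)) with heJ
  refine ⟨2 * Cφ * (3 * D) * (3 * D) * (2 * Ck) + (3 * Λ * (eR + eN) + 9 * Λ * eJ),
    by positivity, fun τ hτ hτδ x hx1 hx2 p => ?_⟩
  -- the collar is thin
  have hτ8 : τ ≤ 1 / 8 := by linarith
  obtain ⟨hexp2, hexpτ⟩ := XCOLMaux.exp_le hτ hτ8
  have hr2 : ‖x‖ ≤ 2 := hx2.trans hexp2
  have hr0 : 0 < ‖x‖ := by linarith
  have hx0 : x ≠ 0 := norm_pos_iff.mp hr0
  have ht0 : 0 < Real.log ‖x‖ := Real.log_pos hx1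
  have htτ : Real.log ‖x‖ ≤ τ := by
    have := Real.log_le_log hr0 hx2
    rwa [Real.log_exp] at this
  obtain ⟨-, -, hφ0, -, -, hφ2, -⟩ := hφ τ hτ hτδ
  obtain ⟨hφ0a, hφ0b, -⟩ := hφ0 _ ht0.le
  obtain ⟨-, hφ2a, hφ2b⟩ := hφ2 _ htτ
  set f : ℝ := facX τ δ x with hf
  have hfpos : 0 < f := by
    rw [hf]
    unfold facX
    positivity
  have hρ : ‖x‖ * f = Real.exp (phX τ δ (Real.log ‖x‖)) := by
    rw [hf]
    unfold facX
    field_simp
  have hρ1 : 1 ≤ ‖x‖ * f := by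
    rw [hρ]
    exact Real.one_le_exp hφ0a
  have hρr : ‖x‖ * f ≤ ‖x‖ := by
    rw [hρ]
    calc Real.exp (phX τ δ (Real.log ‖x‖)) ≤ Real.exp (Real.log ‖x‖) := Real.exp_le_exp.mpr hφ0b
      _ = ‖x‖ := Real.exp_log hr0
  have hf1 : f ≤ 1 := by
    have h3 : ‖x‖ * f ≤ ‖x‖ * 1 := by linarith
    exact le_of_mul_le_mul_left h3 hr0
  set y : E3 := f • x with hy
  have hyn : ‖y‖ = ‖x‖ * f := by
    rw [hy, norm_smul, Real.norm_eq_abs, abs_of_pos hfpos, mul_comm]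
  have hy1 : 1 ≤ ‖y‖ := by rw [hyn]; exact hρ1
  have hy2 : ‖y‖ ≤ 2 := by rw [hyn]; linarith
  have hy0 : y ≠ 0 := by
    intro h
    rw [h, norm_zero] at hy1
    linarith
  have hyδ : ‖y‖ ≤ Real.exp δ := by
    rw [hyn]
    refine hρr.trans (hx2.trans (Real.exp_le_exp.mpr ?_))
    linarith
  have hyO : y ∈ Outside δ₀ := by
    change 1 - δ₀ < ‖y‖
    linarith
  have hpn : XCOLMaux.pn y = XCOLMaux.pn x := XCOLMaux.pn_smul hfpos
  set n : Cov := XCOLMaux.pn x with hn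
  have hxn : ∀ i, x i = ‖x‖ * n i := by
    intro i
    rw [hn]
    unfold XCOLMaux.pn
    field_simp
  have hyn' : ∀ i, y i = ‖y‖ * n i := by
    intro i
    rw [← hpn]
    unfold XCOLMaux.pn
    have : ‖y‖ ≠ 0 := norm_ne_zero_iff.mpr hy0
    field_simp
  have hnu : ∑ i, n i ^ 2 = 1 := XCOLMaux.pn_unit hx0
  have hgy : (g y).PosDef := hg.posDef y hyO
  -- no shift
  have hshift : ∀ v : Cov, ∑ i, n i * v i = 0 → ∑ i, ∑ j, g y i j * n i * v j = 0 := by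
    intro v hv
    have h3 : ∑ i, y i * v i = 0 := by
      simp only [hyn', mul_assoc]
      rw [← Finset.mul_sum, hv, mul_zero]
    have h4 := hs y (by linarith) (by linarith) v h3
    have h5 : ∑ i, ∑ j, g y i j * y i * v j = ‖y‖ * ∑ i, ∑ j, g y i j * n i * v j := by
      simp only [hyn', Finset.mul_sum]
      exact Finset.sum_congr rfl fun i _ => Finset.sum_congr rfl fun j _ => by ring
    rw [h5] at h4
    rcases mul_eq_zero.mp h4 with h6 | h6
    · exact absurd (norm_eq_zero.mp h6) hy0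
    · exact h6
  obtain ⟨hL0, heig⟩ := XCOLMaux.shiftless_eig hgy hnu hshift
  -- the modified data
  obtain ⟨hmet, -, -, -, hbdG⟩ := hG τ hτ hτδ
  obtain ⟨hten, -, -, hbdH, -⟩ := hH k hk τ hτ hτδ (by linarith)
  have hcolG : colG τ δ g x = f ^ 2 • g y := by
    unfold colG
    rw [if_pos hx1.le]
  have hopen : IsOpen ({0}ᶜ : Set E3) := isOpen_compl_singleton
  have hxm : x ∈ ({0}ᶜ : Set E3) := hx0
  obtain ⟨hbG1, hbG2⟩ := hbdG x (by linarith) (by linarith)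
  have hbH := hbdH K hkK x (by linarith) (by linarith)
  have hCK : 0 < Ch * K := mul_pos hCh hK
  obtain ⟨hR, hJ⟩ := hcurv (colG τ δ g) (colH τ δ k) x
    (Filter.eventually_of_mem (hopen.mem_nhds hxm) fun z hz => hmet.posDef z hz)
    (fun i j => (hmet.smooth i j).contDiffAt (hopen.mem_nhds hxm))
    (Filter.eventually_of_mem (hopen.mem_nhds hxm) fun z hz => hten.symm z hz)
    (fun i j => (hten.smooth i j).contDiffAt (hopen.mem_nhds hxm))
    (fun v => by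
      refine (hbG2 v).1.trans ?_
      have h3 : 0 ≤ ev (colG τ δ g x) v v := by
        have h4 := (hbG2 v).1
        have h5 : 0 ≤ ∑ i, v i ^ 2 := Finset.sum_nonneg fun i _ => sq_nonneg _
        by_contra h6
        have h7 := not_le.mp h6
        nlinarith
      exact mul_le_mul_of_nonneg_right (by linarith) h3)
    (fun i j => ⟨(hbG1 i j).1.trans (by linarith), fun m => ((hbG1 i j).2 m).trans (by linarith),
      (hbH i j).trans (by linarith)⟩)
  obtain ⟨hl1, hl2⟩ := hlead τ hτ hτδ x hx1 hx2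
  have hGcpd : (colG τ δ g x).PosDef := hmet.posDef x hxm
  have hf2 : f ^ 2 ≠ 0 := by positivity
  have hA : ∀ i j, (colG τ δ g x)⁻¹ i j = (f ^ 2)⁻¹ * (g y)⁻¹ i j := by
    intro i j
    rw [hcolG, XCOLMaux.inv_smul_mat hgy hf2]
    rfl
  have hAb : ∀ i j, |(colG τ δ g x)⁻¹ i j| ≤ Cg :=
    EBARA.inv_entry_le hGcpd hCg hbG2
  have hAΛ : ∀ i j, |(colG τ δ g x)⁻¹ i j| ≤ Λ := fun i j => (hAb i j).trans (by linarith)
  have hBb : ∀ i j, |(g y)⁻¹ i j| ≤ D := by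
    intro i j
    have h3 : (g y)⁻¹ i j = f ^ 2 * (colG τ δ g x)⁻¹ i j := by
      rw [hA]
      field_simp
    rw [h3, abs_mul, abs_of_pos (by positivity : (0:ℝ) < f ^ 2)]
    have h4 : f ^ 2 ≤ 1 := pow_le_one₀ hfpos.le hf1
    have h5 : f ^ 2 * |(colG τ δ g x)⁻¹ i j| ≤ 1 * Cg :=
      mul_le_mul h4 (hAb i j) (abs_nonneg _) zero_le_one
    linarith
  have hGΛ : ∀ i j, |colG τ δ g x i j| ≤ Λ := fun i j => (hbG1 i j).1.trans (by linarith)
  have hHΛ : ∀ i j, |colH τ δ k x i j| ≤ Λ := fun i j => (hbH i j).trans (by linarith)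
  have hGc : ∀ i j, colG τ δ g x i j = f ^ 2 * g y i j := by
    intro i j
    rw [hcolG]
    rfl
  -- the mean curvature and the trace
  have hmean : (∑ i, ∑ j, (g y)⁻¹ i j * eulG g y i j)
      - ev (g y)⁻¹ n n * ∑ i, ∑ j, eulG g y i j * n i * n j
      = 2 * (‖x‖ * f) * sphereMean g y / Real.sqrt (ev (g y)⁻¹ n n) := by
    obtain ⟨h3, -⟩ := hXMEAN g δ₀ y hg hs hy0 (by linarith) (by linarith)
    rw [XCOLMaux.grad_rad hy0, hpn, XCOLMaux.btan_shiftless g y n _ hL0 heig, hyn] at h3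
    exact h3
  have hT : sphereTr g k y = (∑ i, ∑ j, (g y)⁻¹ i j * k y i j)
      - ev (g y)⁻¹ n n * ∑ i, ∑ j, k y i j * n i * n j := by
    unfold sphereTr
    rw [XCOLMaux.grad_rad hy0, hpn, XCOLMaux.btan_shiftless g y n _ hL0 heig]
  have hT0 : 0 ≤ sphereTr g k y := XCOLMaux.tr_nonneg h2 hy1 hgy hy0
  have hHT : sphereMean g y - sphereTr g k y ≤ η + 2 * Ck * τ := by
    have h3 : ‖(‖x‖⁻¹ • x : E3)‖ = 1 := by
      rw [norm_smul, norm_inv, norm_norm]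
      field_simp
    have h4 := hlip _ h3 (‖x‖ * f) hρ1 (by rw [← hyn]; exact hyδ)
    have h5 : (‖x‖ * f) • (‖x‖⁻¹ • x : E3) = y := by
      rw [smul_smul, hy]
      congr 1
      field_simp
    rw [h5] at h4
    have h6 := hbd _ h3
    have h7 : Ck * (‖x‖ * f - 1) ≤ Ck * (2 * τ) := by
      apply mul_le_mul_of_nonneg_left _ hCk.le
      linarith
    linarith
  have hkb : ∀ i j, |k y i j| ≤ K := fun i j => hkK y hy1 (by linarith) i j
  have hmain := XCOLMaux.lead_bound (G := g y) (k := k y) (E := eulG g y) (D := D) (K := K)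
    (Cφ := Cφ) (Ck := 2 * Ck) (τ := τ) (η := η) hgy (n := n) (p := p) hnu hL0 heig (r := ‖x‖)
    (f := f) (φ := deriv (deriv (phX τ δ)) (Real.log ‖x‖)) (H := sphereMean g y)
    (T := sphereTr g k y) hx1.le hr2 hfpos hρ1 hD1 hBb hkb hmean hT hT0 hHT hη (by positivity) hτ
    hφ2a hφ2b
  set φ : ℝ := deriv (deriv (phX τ δ)) (Real.log ‖x‖) with hφdef
  -- the errors
  have hR' : |scalarCurvature (colG τ δ g) x - ∑ i, ∑ j, ∑ m, ∑ l,
      (colG τ δ g x)⁻¹ i m * (colG τ δ g x)⁻¹ j l *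
      (φ * (x i * x j / ‖x‖ ^ 4) * (f ^ 2 * eulG g y m l)
        - φ * (x i * x m / ‖x‖ ^ 4) * (f ^ 2 * eulG g y j l))| ≤ eR := by
    have h3 := XCOLMaux.err_curv hAΛ
      (fun i j m l => pd i (pd j (fun y => colG τ δ g y m l)) x)
      (fun i j m l => φ * (x i * x j / ‖x‖ ^ 4) * (f ^ 2 * eulG g y m l)) hl1
    refine (abs_sub_le _ _ _).trans (add_le_add hR h3)
  have hJ' : ∀ j, |momentumDensity (colG τ δ g) (colH τ δ k) j x - ∑ i, ∑ m,
      (colG τ δ g x)⁻¹ i m * (φ * (x m / ‖x‖ ^ 2) * (f ^ 2 * k y i j)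
        - (∑ a, ∑ b, (colG τ δ g x)⁻¹ a b * (φ * (x m / ‖x‖ ^ 2) * (f ^ 2 * k y a b)))
          * colG τ δ g x i j)| ≤ eJ := by
    intro j
    have h3 := XCOLMaux.err_mom hAΛ hGΛ
      (fun m i j => pd m (fun y => colH τ δ k y i j) x)
      (fun m i j => φ * (x m / ‖x‖ ^ 2) * (f ^ 2 * k y i j)) hl2 j
    exact (abs_sub_le _ _ _).trans (add_le_add (hJ j) h3)
  have hra : ∀ j, |raise (colG τ δ g) x p j| ≤ 3 * (Λ * vsz p) := by
    intro j
    unfold raise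
    refine EBARA.s1 fun l => ?_
    rw [abs_mul]
    exact mul_le_mul (hAΛ j l) (XCOLMaux.abs_le_vsz p l) (abs_nonneg _) hΛ.le
  have hln' : len (colG τ δ g) x p ≤ 3 * Λ * vsz p := XCOLMaux.sqrt_ev_le hΛ1 hAΛ p
  have hcomb := XCOLMaux.combine (Tr := traceWith (colG τ δ g) (colH τ δ k) x)
    (Real.sqrt_nonneg _) hln' hR' (XCOLMaux.normSq_le hAΛ hHΛ) hra hJ'
  -- the length
  have hlen : len (colG τ δ g) x p = f⁻¹ * Real.sqrt (ev (g y)⁻¹ p p) := by
    unfold len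
    have h3 : ev (colG τ δ g x)⁻¹ p p = (f ^ 2)⁻¹ * ev (g y)⁻¹ p p := by
      unfold ev
      simp only [hA, Finset.mul_sum]
      exact Finset.sum_congr rfl fun i _ => Finset.sum_congr rfl fun j _ => by ring
    rw [h3, Real.sqrt_mul (by positivity), Real.sqrt_inv, Real.sqrt_sq hfpos.le]
  have hlead' : len (colG τ δ g) x p * (1 / 2 * ∑ i, ∑ j, ∑ m, ∑ l,
      (colG τ δ g x)⁻¹ i m * (colG τ δ g x)⁻¹ j l *
      (φ * (x i * x j / ‖x‖ ^ 4) * (f ^ 2 * eulG g y m l)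
        - φ * (x i * x m / ‖x‖ ^ 4) * (f ^ 2 * eulG g y j l)))
      - (∑ j, raise (colG τ δ g) x p j * ∑ i, ∑ m,
      (colG τ δ g x)⁻¹ i m * (φ * (x m / ‖x‖ ^ 2) * (f ^ 2 * k y i j)
        - (∑ a, ∑ b, (colG τ δ g x)⁻¹ a b * (φ * (x m / ‖x‖ ^ 2) * (f ^ 2 * k y a b)))
          * colG τ δ g x i j))
      = (f⁻¹ * Real.sqrt (ev (g y)⁻¹ p p)) * (1 / 2 *
      ∑ i, ∑ j, ∑ m, ∑ l, ((f ^ 2)⁻¹ * (g y)⁻¹ i m) * ((f ^ 2)⁻¹ * (g y)⁻¹ j l) *
      (φ * ((‖x‖ * n i) * (‖x‖ * n j) / ‖x‖ ^ 4) * (f ^ 2 * eulG g y m l)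
        - φ * ((‖x‖ * n i) * (‖x‖ * n m) / ‖x‖ ^ 4) * (f ^ 2 * eulG g y j l)))
      - (∑ j, (∑ l, ((f ^ 2)⁻¹ * (g y)⁻¹ j l) * p l) * ∑ i, ∑ m, ((f ^ 2)⁻¹ * (g y)⁻¹ i m) *
      (φ * ((‖x‖ * n m) / ‖x‖ ^ 2) * (f ^ 2 * k y i j)
        - (∑ a, ∑ b, ((f ^ 2)⁻¹ * (g y)⁻¹ a b) *
          (φ * ((‖x‖ * n m) / ‖x‖ ^ 2) * (f ^ 2 * k y a b)))
          * (f ^ 2 * g y i j))) := by
    rw [hlen]
    unfold raise
    simp only [hA, hGc, ← hxn]
  -- the covector
  have htan : tanP x p = vsz (fun i => p i - (∑ j, p j * n j) * n i) := by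
    unfold tanP
    congr 1
    funext i
    have h3 : ∑ j, p j * x j = ‖x‖ * ∑ j, p j * n j := by
      rw [Finset.mul_sum]
      exact Finset.sum_congr rfl fun j _ => by rw [hxn j]; ring
    rw [h3, hxn i]
    field_simp
  have hneg : negP x p = max (-(∑ j, p j * n j)) 0 := by
    unfold negP
    have h3 : ∑ j, p j * x j = ‖x‖ * ∑ j, p j * n j := by
      rw [Finset.mul_sum]
      exact Finset.sum_congr rfl fun j _ => by rw [hxn j]; ring
    rw [h3, mul_div_cancel_left₀ _ hr0.ne']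
  rw [← htan, ← hneg, ← hlead'] at hmain
  have htn0 : 0 ≤ tanP x p := XCOLMaux.vsz_nonneg _
  have hng0 : 0 ≤ negP x p := le_max_right _ _
  have hv0 : 0 ≤ vsz p := XCOLMaux.vsz_nonneg p
  have hmatter : len (colG τ δ g) x p * (1 / 2 * (scalarCurvature (colG τ δ g) x
        - normSqWith (colG τ δ g) (colH τ δ k) x + traceWith (colG τ δ g) (colH τ δ k) x ^ 2))
      - ∑ j, momentumDensity (colG τ δ g) (colH τ δ k) j x * raise (colG τ δ g) x p j
      = len (colG τ δ g) x p * matter (colG τ δ g) (colH τ δ k) x p := by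
    unfold matter energyDensity nrm
    rw [mul_sub, Finset.mul_sum]
    congr 1
    by_cases hl0 : len (colG τ δ g) x p = 0
    · have hp : p = 0 := by
        by_contra hp
        have h3 := RADN.ev_pos hGcpd.inv hp
        have h4 : 0 < len (colG τ δ g) x p := Real.sqrt_pos.mpr h3
        linarith
      refine Finset.sum_congr rfl fun j _ => ?_
      have h5 : raise (colG τ δ g) x p j = 0 := by
        unfold raise
        rw [hp]
        simp
      rw [h5, hl0]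
      simp
    · refine Finset.sum_congr rfl fun j _ => ?_
      field_simp
  rw [← hmatter]
  change _ ≤ len (colG τ δ g) x p * (1 / 2 * (scalarCurvature (colG τ δ g) x
        - (∑ i, ∑ j, ∑ k_1, ∑ l, (colG τ δ g x)⁻¹ i k_1 * (colG τ δ g x)⁻¹ j l
          * colH τ δ k x i j * colH τ δ k x k_1 l) + traceWith (colG τ δ g) (colH τ δ k) x ^ 2))
      - ∑ j, momentumDensity (colG τ δ g) (colH τ δ k) j x * raise (colG τ δ g) x p j
  refine le_trans ?_ hcomb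
  refine le_trans ?_ (sub_le_sub_right hmain _)
  have hx1' : 0 ≤ 2 * Cφ * (3 * D) * (3 * D) / τ * (tanP x p + negP x p) := by positivity
  have hx2' : 0 ≤ 2 * Cφ * (3 * D) * ((90 * D * K) * (6 * D) + (3 * D) * (27 * K * D))
      * η / τ * vsz p := by positivity
  have e1 : (2 * Cφ * (3 * D) * ((90 * D * K) * (6 * D) + (3 * D) * (27 * K * D))
    + 2 * Cφ * (3 * D) * (3 * D)) / τ * (tanP x p + negP x p)
    = (2 * Cφ * (3 * D) * ((90 * D * K) * (6 * D) + (3 * D) * (27 * K * D))) / τ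
      * (tanP x p + negP x p) + 2 * Cφ * (3 * D) * (3 * D) / τ * (tanP x p + negP x p) := by
    ring
  have e2 : (2 * Cφ * (3 * D) * ((90 * D * K) * (6 * D) + (3 * D) * (27 * K * D))
    + 2 * Cφ * (3 * D) * (3 * D)) * η / τ * vsz p
    = 2 * Cφ * (3 * D) * ((90 * D * K) * (6 * D) + (3 * D) * (27 * K * D))
      * η / τ * vsz p + 2 * Cφ * (3 * D) * (3 * D) * η / τ * vsz p := by
    ring
  rw [add_mul, e1, e2]
  linarith

end Pool.Agent.PFlow
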