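import Pool.Agent.PFlow.StmtsX2
import Pool.Agent.PFlow.M_CT

/-!
# (XEPS) The three inequalities for fixed `ε`, exterior regions
-/

open MeasureTheory Filter Topology
open scoped ContDiff ENNReal

namespace Pool.Agent.PFlow

open Pool.Agent.PenroseSph

namespace XEPSm

lemma exists_theta (a c τ : ℝ) (hτ : 0 < τ) : ∃ θ : ℝ, 0 < θ ∧ θ < 1 ∧
    θ ^ (-a) * c ≤ c + τ := by
  have h1 : ContinuousAt (fun θ : ℝ => θ ^ (-a) * c) 1 :=
    (Real.continuousAt_rpow_const 1 (-a) (Or.inl one_ne_zero)).mul continuousAt_const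
  have h2 : ∀ᶠ θ in 𝓝 (1 : ℝ), θ ^ (-a) * c < c + τ := by
    refine h1.eventually (gt_mem_nhds ?_)
    simp only [Real.one_rpow, one_mul]
    linarith
  have h3 : ∀ᶠ θ in 𝓝[<] (1 : ℝ), θ ^ (-a) * c < c + τ := h2.filter_mono nhdsWithin_le_nhds
  have h4 : ∀ᶠ θ in 𝓝[<] (1 : ℝ), 0 < θ :=
    (lt_mem_nhds (zero_lt_one (α := ℝ))).filter_mono nhdsWithin_le_nhds
  obtain ⟨θ, ⟨h5, h6⟩, h7⟩ := ((h3.and h4).and self_mem_nhdsWithin).exists
  exact ⟨θ, h6, h7, h5.le⟩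

end XEPSm

open XEPSm in
theorem XEPS (hXEXI1 : Stmt_XEXI1) (hXMSI : Stmt_XMSI) (hXMSII : Stmt_XMSII)
    (hXMSIII : Stmt_XMSIII) (hXWGTE : Stmt_XWGTE) (hBETA : Stmt_BETA) : Stmt_XEPS := by
  intro g k m hsm hdec hps hsur htrap hth hm
  obtain ⟨C, r, V, hC, hr2, hV, hex⟩ := hXEXI1 g k hsm hdec hps hsur htrap
  refine ⟨V, hV, ?_⟩
  intro ε τ hε hε2 hτ
  obtain ⟨P, B, l0, hPε, hB, hl08, hrl, hex⟩ := hex ε hε hε2
  obtain ⟨B3, hB3, hW⟩ := hXWGTE P B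
  obtain ⟨B1, hB1, hI⟩ := hXMSI P B B3
  obtain ⟨β, hβ⟩ := hBETA
  obtain ⟨θ, hθ0, hθ1, hθ⟩ := exists_theta (2 * (2 - ε)) (4 * Real.pi * (2 - ε) ^ 2) (τ / 2)
    (by linarith)
  obtain ⟨B2, hB2, hII⟩ := hXMSII P B B3 θ β hθ0 hθ1 hβ
  -- the length of the window
  obtain ⟨L, hL1, hL⟩ : ∃ L : ℝ, 1 ≤ L ∧ B2 * Real.exp (-(L / ε)) ≤ τ / 4 := by
    have h1 : Tendsto (fun L : ℝ => B2 * Real.exp (-(L / ε))) atTop (𝓝 (B2 * 0)) := by
      refine Tendsto.const_mul B2 (Real.tendsto_exp_neg_atTop_nhds_zero.comp ?_)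
      exact tendsto_id.atTop_div_const hε
    rw [mul_zero] at h1
    obtain ⟨L, h2, h3⟩ := ((h1.eventually (gt_mem_nhds (by linarith : (0 : ℝ) < τ / 4))).and
      (eventually_ge_atTop (1 : ℝ))).exists
    exact ⟨L, h3, h2.le⟩
  -- the radius
  obtain ⟨μ, hμ⟩ : ∃ μ, μ = min τ 1 := ⟨_, rfl⟩
  have hμ0 : 0 < μ := by rw [hμ]; exact lt_min hτ one_pos
  have hμ1 : μ ≤ 1 := by rw [hμ]; exact min_le_right _ _
  have hμτ : μ ≤ τ := by rw [hμ]; exact min_le_left _ _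
  obtain ⟨l, hl0, hl1, hl2⟩ : ∃ l : ℝ, l0 ≤ l ∧ B2 * (1 / l) ≤ τ / 4 ∧
      B1 * (l ^ (-(1 / 2 : ℝ)) + ∫ x in cAnn (l / 2) l, msz (k x) / l)
        + 8 * Real.pi * B3 * |massIntegral g l - m| ≤ μ / 4 := by
    have t1 : Tendsto (fun l : ℝ => B2 * (1 / l)) atTop (𝓝 (B2 * 0)) := by
      refine Tendsto.const_mul B2 (tendsto_inv_atTop_zero.congr fun x => ?_)
      rw [one_div]
    have t2 : Tendsto (fun l : ℝ => l ^ (-(1 / 2 : ℝ))) atTop (𝓝 0) :=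
      tendsto_rpow_neg_atTop (by norm_num)
    have t3 : Tendsto (fun l : ℝ => |massIntegral g l - m|) atTop (𝓝 |m - m|) :=
      (hm.sub_const m).abs
    have t4 := ((t2.add hth).const_mul B1).add (t3.const_mul (8 * Real.pi * B3))
    rw [mul_zero] at t1
    simp only [sub_self, abs_zero, mul_zero, add_zero] at t4
    obtain ⟨l, ⟨e1, e2⟩, e3⟩ := (((t1.eventually (gt_mem_nhds (by linarith : (0 : ℝ) < τ / 4))).and
      (t4.eventually (gt_mem_nhds (by linarith : (0 : ℝ) < μ / 4)))).and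
      (eventually_ge_atTop l0)).exists
    exact ⟨l, e3, e1.le, e2.le⟩
  -- the size of the errors
  obtain ⟨σ, hσ⟩ : ∃ σ, σ = min τ (μ / (4 * B1)) := ⟨_, rfl⟩
  have hσ0 : 0 < σ := by rw [hσ]; exact lt_min hτ (by positivity)
  have hστ : σ ≤ τ := by rw [hσ]; exact min_le_left _ _
  have hσB : B1 * σ ≤ μ / 4 := by
    have h1 : σ ≤ μ / (4 * B1) := by rw [hσ]; exact min_le_right _ _
    have h2 : B1 * (μ / (4 * B1)) = μ / 4 := by field_simp
    rw [← h2]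
    exact mul_le_mul_of_nonneg_left h1 hB1.le
  obtain ⟨D, se, hDg, hDk, hDl, hS, hA, hcut, hNd, hCl, her, hCt, hsM, hlev, hVD⟩ :=
    hex l σ L hl0 hσ0 hL1
  obtain ⟨lm, hlm⟩ := hW D hS hA se hcut
  have i1 := hI D hS hA se lm hcut hlm
  have i2 := hII D hS hA se lm L hcut hlm hL1 hsM
  have i3 := hXMSIII P B β hβ D hS hA r hr2 (by rw [hDl]; linarith) hlev
  obtain ⟨J, hJ⟩ : ∃ J, J = jInf P.eps β D.Om D.vol (D.w P) (D.X P) (D.s2 P) := ⟨_, rfl⟩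
  rw [← hJ] at i2 i3
  rw [hPε] at i1 i2 i3
  rw [hDg, hDl] at i1
  have hthD : D.th = ∫ x in cAnn (l / 2) l, msz (k x) / l := by
    unfold DatX.th
    rw [hDk, hDl]
  rw [hthD] at i1
  -- the first inequality
  have hlm0 := hlm.nonneg
  have e2 : B1 * D.Nd P ≤ μ / 4 := (mul_le_mul_of_nonneg_left hNd hB1.le).trans hσB
  have e3 : B1 * D.er P se ≤ μ / 4 := (mul_le_mul_of_nonneg_left her hB1.le).trans hσB
  have e3' : B1 * D.Cl P ≤ μ / 4 := (mul_le_mul_of_nonneg_left hCl hB1.le).trans hσB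
  have e4 : 8 * Real.pi * massIntegral g l * lm
      ≤ 8 * Real.pi * m * lm + 8 * Real.pi * B3 * |massIntegral g l - m| := by
    have a1 : (massIntegral g l - m) * lm ≤ |massIntegral g l - m| * B3 :=
      mul_le_mul (le_abs_self _) hlm.le hlm0 (abs_nonneg _)
    have a2 := mul_le_mul_of_nonneg_left a1 (by positivity : (0 : ℝ) ≤ 8 * Real.pi)
    linarith
  have j1 : 4 * Real.pi * (2 - ε) ≤ 8 * Real.pi * m * lm + μ := by
    have : B1 * (l ^ (-(1 / 2 : ℝ)) + (∫ x in cAnn (l / 2) l, msz (k x) / l) + D.Nd P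
        + D.Cl P + D.er P se) = B1 * (l ^ (-(1 / 2 : ℝ)) + ∫ x in cAnn (l / 2) l, msz (k x) / l)
        + B1 * D.Nd P + B1 * D.Cl P + B1 * D.er P se := by ring
    linarith
  have hlmpos : 0 < lm := by
    rcases hlm0.lt_or_eq with h5 | h5
    · exact h5
    · exfalso
      rw [← h5, mul_zero, zero_add] at j1
      have := Real.pi_gt_three
      nlinarith
  refine ⟨lm, J, hlmpos, i3.1, by linarith, ?_, ?_⟩
  · have e5 : B2 * (1 / D.l + Real.exp (-(L / ε)))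
        = B2 * (1 / l) + B2 * Real.exp (-(L / ε)) := by
      rw [hDl]
      ring
    linarith
  · intro s0 s1 A h1 h2 h3 h4
    have h5 := i3.2 s0 s1 A h1 h2 h3 (by rw [hDg]; exact h4)
    have h6 : 0 ≤ ∫ x in cAnn 1 r, volDen D.g' x :=
      integral_nonneg fun x => Real.sqrt_nonneg _
    have h7 : 0 ≤ J * (Real.exp s1 - Real.exp s0) :=
      mul_nonneg i3.1 (sub_nonneg.mpr (Real.exp_le_exp.mpr h2.le))
    have h8 : 0 ≤ (J * (Real.exp s1 - Real.exp s0)) ^ (1 / (1 + ε)) := Real.rpow_nonneg h7 _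
    have h9 : (∫ x in cAnn 1 r, volDen D.g' x) ^ (ε / (1 + ε)) ≤ V ^ (ε / (1 + ε)) :=
      Real.rpow_le_rpow h6 hVD (by positivity)
    have h10 : 0 ≤ (∫ x in cAnn 1 r, volDen D.g' x) ^ (ε / (1 + ε)) := Real.rpow_nonneg h6 _
    refine h5.trans ?_
    have h11 : P.C * D.tau ≤ τ := hCt.trans hστ
    exact mul_le_mul (by linarith) (mul_le_mul_of_nonneg_left h9 h8) (mul_nonneg h8 h10)
      (by linarith)

end Pool.Agent.PFlow
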