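import Pool.Agent.PFlow.StmtsX1
import Pool.Agent.PFlow.StmtsX2

/-!
# Module XEXI1: existence of a setup with a cut in the exterior case
-/

set_option autoImplicit false

open MeasureTheory Filter Topology
open scoped ContDiff ENNReal

namespace Pool.Agent.PFlow

open Pool.Agent.PenroseSph

namespace XEXI1aux

lemma sME_tendsto {ε γ : ℝ} (hε : ε < 2) : Tendsto (fun R : ℝ => sME ε γ R) atTop atTop := by
  unfold sME
  have h1 : Tendsto (fun R : ℝ => R / 2) atTop atTop :=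
    tendsto_id.atTop_div_const (by norm_num)
  have h2 : Tendsto (fun R : ℝ => (2 - ε) * Real.log (R / 2)) atTop atTop :=
    (Real.tendsto_log_atTop.comp h1).const_mul_atTop (by linarith)
  exact tendsto_atTop_add_const_right _ (-γ) h2

lemma lam_pos {ε : ℝ} (hε : 0 < ε) (hε2 : ε ≤ 1 / 2) : 0 < lam ε / 2 - 1 / (2 - ε) := by
  unfold lam
  have h1 : 0 < 2 - ε := by linarith
  have h2 : (4 - ε) / (ε * (2 - ε)) / 2 - 1 / (2 - ε) = (4 - 3 * ε) / (2 * ε * (2 - ε)) := by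
    field_simp
    ring
  rw [h2]
  apply div_pos
  · linarith
  · positivity

lemma err_tendsto {f : ℝ → ℝ} (hf : Tendsto f atTop atTop) {a : ℝ} (ha : 0 < a) (K s : ℝ) :
    Tendsto (fun R : ℝ => Real.exp K * Real.exp (-(a * (f R - 2 - s)))) atTop (𝓝 0) := by
  have h1 : Tendsto (fun R : ℝ => f R - 2 - s) atTop atTop := by
    have := tendsto_atTop_add_const_right atTop (-2 - s) hf
    refine this.congr fun R => ?_
    ring
  have h2 : Tendsto (fun R : ℝ => a * (f R - 2 - s)) atTop atTop := h1.const_mul_atTop ha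
  have h3 := (Real.tendsto_exp_neg_atTop_nhds_zero.comp h2).const_mul (Real.exp K)
  rw [mul_zero] at h3
  exact h3

/-- The determinant of a matrix with bounded entries. -/
lemma det_le {B : Bil} {K : ℝ} (hK : 0 ≤ K) (hB : ∀ i j, |B i j| ≤ K) :
    B.det ≤ 6 * K ^ 3 := by
  have h3 : ∀ a b c : ℝ, |a| ≤ K → |b| ≤ K → |c| ≤ K → |a * b * c| ≤ K ^ 3 := by
    intro a b c ha hb hc
    rw [abs_mul, abs_mul]
    calc |a| * |b| * |c| ≤ K * K * K :=
        mul_le_mul (mul_le_mul ha hb (abs_nonneg _) hK) hc (abs_nonneg _) (mul_nonneg hK hK)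
      _ = K ^ 3 := by ring
  rw [Matrix.det_fin_three]
  have e1 := abs_le.mp (h3 _ _ _ (hB 0 0) (hB 1 1) (hB 2 2))
  have e2 := abs_le.mp (h3 _ _ _ (hB 0 0) (hB 1 2) (hB 2 1))
  have e3 := abs_le.mp (h3 _ _ _ (hB 0 1) (hB 1 0) (hB 2 2))
  have e4 := abs_le.mp (h3 _ _ _ (hB 0 1) (hB 1 2) (hB 2 0))
  have e5 := abs_le.mp (h3 _ _ _ (hB 0 2) (hB 1 0) (hB 2 1))
  have e6 := abs_le.mp (h3 _ _ _ (hB 0 2) (hB 1 1) (hB 2 0))
  linarith [e1.1, e1.2, e2.1, e2.2, e3.1, e3.2, e4.1, e4.2, e5.1, e5.2, e6.1, e6.2]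

/-- The volume density of the modified metric is bounded. -/
lemma vol_le {g k : TensorField} {C l τ κ : ℝ} {g' h' : TensorField} {e : E3 → ℝ} (hC : 0 < C)
    (hM : ModifiedX g k C l τ κ g' h' e) {x : E3} (hx : 1 ≤ ‖x‖) :
    volDen g' x ≤ Real.sqrt (6 * (1 + C) ^ 3) := by
  apply Real.sqrt_le_sqrt
  apply det_le (by linarith)
  intro i j
  rcases lt_or_ge ‖x‖ 2 with h2 | h2
  · exact (hM.bounds x (by linarith) h2 i j).1.trans (by linarith)
  · have h1 := (hM.decay x h2 i j).1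
    have h3 : C / ‖x‖ ≤ C := by
      rw [div_le_iff₀ (by linarith)]
      nlinarith
    have h4 : |(1 : Bil) i j| ≤ 1 := by
      rw [Matrix.one_apply]
      split_ifs <;> simp
    have h5 : g' x i j = (1 : Bil) i j + (g' x i j - (1 : Bil) i j) := by ring
    rw [h5]
    exact (abs_add_le _ _).trans (by linarith)

lemma vol_int {g k : TensorField} {C l τ κ : ℝ} {g' h' : TensorField} {e : E3 → ℝ} (hC : 0 < C)
    (hM : ModifiedX g k C l τ κ g' h' e) (r : ℝ) :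
    ∫ x in cAnn 1 r, volDen g' x ≤
      Real.sqrt (6 * (1 + C) ^ 3) * (volume (Metric.closedBall (0 : E3) r)).toReal := by
  have hsub : cAnn 1 r ⊆ Metric.closedBall (0 : E3) r := by
    intro x hx
    rw [mem_closedBall_zero_iff]
    exact hx.2
  have hfin : volume (Metric.closedBall (0 : E3) r) < ⊤ := measure_closedBall_lt_top
  have hfin2 : volume (cAnn 1 r) < ⊤ := (measure_mono hsub).trans_lt hfin
  have h1 := norm_setIntegral_le_of_norm_le_const (μ := volume) (f := volDen g') hfin2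
    (C := Real.sqrt (6 * (1 + C) ^ 3)) (fun x hx => by
      rw [Real.norm_eq_abs, abs_of_nonneg (show 0 ≤ volDen g' x from Real.sqrt_nonneg _)]
      exact vol_le hC hM hx.1)
  refine (le_abs_self _).trans (h1.trans ?_)
  apply mul_le_mul_of_nonneg_left _ (Real.sqrt_nonneg _)
  exact ENNReal.toReal_mono hfin.ne (measure_mono hsub)

end XEXI1aux

open XEXI1aux in
/-- XEXI1: for given data, `ε` and small error, existence of a setup with a cut. -/
theorem XEXI1 (_hXAFD : Stmt_XAFD) (hXMOD : Stmt_XMOD) (_hXMODM : Stmt_XMODM)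
    (hXLOC : Stmt_XLOC) (hXLOCU : Stmt_XLOCU) (hPX : Stmt_PX) (hXABS : Stmt_XABS)
    (hXDEFE : Stmt_XDEFE) (hXCOLE : Stmt_XCOLE) (_hXSETW : Stmt_XSETW) : Stmt_XEXI1 := by
  intro g k hsm hdec hPS hE htr
  obtain ⟨C, lm, hC0, hlm, hdecay, hmod⟩ := hXMOD g k hsm hdec hPS hE htr
  obtain ⟨r₀, hr₀, hU⟩ := hXLOCU C hC0
  obtain ⟨r, hr⟩ : ∃ r, r = max r₀ 3 := ⟨_, rfl⟩
  have hrr₀ : r₀ ≤ r := by rw [hr]; exact le_max_left _ _
  have hr3 : 3 ≤ r := by rw [hr]; exact le_max_right _ _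
  obtain ⟨V, hV⟩ : ∃ V, V = Real.sqrt (6 * (1 + C) ^ 3) *
      (volume (Metric.closedBall (0 : E3) r)).toReal + 1 := ⟨_, rfl⟩
  have hV0 : 0 < V := by
    rw [hV]
    have : 0 ≤ Real.sqrt (6 * (1 + C) ^ 3) *
      (volume (Metric.closedBall (0 : E3) r)).toReal :=
      mul_nonneg (Real.sqrt_nonneg _) ENNReal.toReal_nonneg
    linarith
  refine ⟨C, r, V, hC0, by linarith, hV0, fun ε hε hε2 => ?_⟩
  obtain ⟨c, γ, τ₁, hc0, hγ, hτ₁, hτ₁', hloc⟩ := hXLOC ε C hε hε2 hC0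
  obtain ⟨RU, hRU⟩ := hU ε hε hε2
  obtain ⟨B, hB, habs⟩ := hXABS ⟨ε, C, c, γ⟩
  obtain ⟨Bc, hBc, hcol⟩ := hXCOLE ⟨ε, C, c, γ⟩
  refine ⟨⟨ε, C, c, γ⟩, B, max 8 (max lm (r + 1)), rfl, hB, le_max_left _ _, ?_,
    fun l σ L hl hσ hL => ?_⟩
  · exact lt_of_lt_of_le (by linarith : r < r + 1)
      ((le_max_right lm (r + 1)).trans (le_max_right 8 _))
  have hl8 : 8 ≤ l := (le_max_left _ _).trans hl
  have hl' := (le_max_right _ _).trans hl
  have hllm : lm ≤ l := (le_max_left _ _).trans hl'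
  have hl0 : 0 < l := by linarith
  obtain ⟨RL, hRL16, hRL⟩ := hloc l hl8
  obtain ⟨B', hB', hdef⟩ := hXDEFE ⟨ε, C, c, γ⟩ B g l
  -- the small numbers
  obtain ⟨t, ht⟩ : ∃ t, t = min σ 1 := ⟨_, rfl⟩
  have ht0 : 0 < t := by rw [ht]; exact lt_min hσ one_pos
  have htσ : t ≤ σ := by rw [ht]; exact min_le_left _ _
  have ht1 : t ≤ 1 := by rw [ht]; exact min_le_right _ _
  have hq1 : 1 ≤ (1 + ε) / ε := by
    rw [le_div_iff₀ hε]
    linarith
  have hσ'0 : 0 < (t / B') ^ ((1 + ε) / ε) := Real.rpow_pos_of_pos (div_pos ht0 hB') _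
  obtain ⟨a, ha⟩ : ∃ a, a = t / (2 * Bc) := ⟨_, rfl⟩
  have ha0 : 0 < a := by rw [ha]; positivity
  obtain ⟨κ, hκ⟩ : ∃ κ, κ = min 1 a := ⟨_, rfl⟩
  have hκ0 : 0 < κ := by rw [hκ]; exact lt_min one_pos ha0
  have hκ1 : κ ≤ 1 := by rw [hκ]; exact min_le_left _ _
  have hκa : κ ≤ a := by rw [hκ]; exact min_le_right _ _
  obtain ⟨τ₂, hτ₂⟩ : ∃ τ₂, τ₂ = min τ₁ (min (σ / C) (a ^ 2)) := ⟨_, rfl⟩
  have hτ₂0 : 0 < τ₂ := by
    rw [hτ₂]
    exact lt_min hτ₁ (lt_min (div_pos hσ hC0) (by positivity))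
  obtain ⟨τ, g', h', e, hτ0, hττ₂, hM, hint⟩ := hmod l κ ((1 + ε) / ε)
    ((t / B') ^ ((1 + ε) / ε)) τ₂ hllm hκ0 hq1 hσ'0 hτ₂0
  have hττ₁ : τ ≤ τ₁ := hττ₂.trans (by rw [hτ₂]; exact min_le_left _ _)
  have hτσ : τ ≤ σ / C := hττ₂.trans (by
    rw [hτ₂]; exact (min_le_right _ _).trans (min_le_left _ _))
  have hτa : τ ≤ a ^ 2 := hττ₂.trans (by
    rw [hτ₂]; exact (min_le_right _ _).trans (min_le_right _ _))
  have hsqτ : Real.sqrt τ ≤ a := by
    rw [Real.sqrt_le_left ha0.le]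
    exact hτa
  -- the choice of `R`
  have hsM := sME_tendsto (ε := ε) (γ := γ) (by linarith)
  have hlam := lam_pos hε hε2
  have e8 := (err_tendsto hsM hlam (s2E ε γ l / (2 - ε)) (s2E ε γ l)).eventually_le_const ht0
  have e6 := hsM.eventually_gt_atTop (s2E ε γ l + L + 1)
  have e7 := hsM.eventually_ge_atTop (s2E ε γ l + 1 + 2 * γ + 2)
  obtain ⟨R, h1, h2, h3, h6, h7, h8⟩ := ((eventually_ge_atTop RL).and
    ((eventually_ge_atTop RU).and ((eventually_ge_atTop (kE ε γ ^ 4 * l)).and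
    (e6.and (e7.and e8))))).exists
  have hR16 : 16 * l ≤ R := hRL16.trans h1
  have hR0 : 0 < R := by linarith
  obtain ⟨u, G, M, hS⟩ := hPX ε R g' h' hε (by linarith) (by linarith) hM.metric hM.tensor
    hM.mirror (by
      intro x hx
      exact ⟨hM.flat x (by linarith), hM.supp x (by linarith)⟩)
  have hbar : ∀ x : E3, 1 ≤ ‖x‖ → |barB ε g' h' x - bE ε ‖x‖| ≤ C / (1 + ‖x‖ ^ 2) :=
    hM.barrier ε hε (by linarith)
  have hL' : LocatedX ε c γ τ l R u :=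
    hRL τ R hτ0 hττ₁ h1 g' h' u G M hM.metric hbar hS
  have hfin := hRU R h2 g' h' u G M hM.metric hbar hS
  obtain ⟨δ, hδ, hgδ, hkδ, -⟩ := hsm
  have hSet : SetupX ⟨ε, C, c, γ⟩ ⟨l, R, τ, κ, g, k, g', h', e, u, G, M⟩ :=
    { eps_pos := hε
      eps_le := hε2
      C_pos := hC0
      c_pos := hc0
      gam_ge := hγ
      l_ge := hl8
      R_ge := h3
      tau_pos := hτ0
      tau_le := hττ₁.trans hτ₁'
      kap_pos := hκ0
      kap_le := hκ1
      smooth0 := ⟨δ, hδ, hgδ, hkδ⟩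
      hdecay := hdecay
      modified := hM
      sol := hS
      located := hL' }
  have hA : AbsOfX ⟨ε, C, c, γ⟩ ⟨l, R, τ, κ, g, k, g', h', e, u, G, M⟩ B := habs _ hSet
  obtain ⟨-, hN0, hN⟩ := hdef _ hSet hA rfl rfl
  have hNt : DatX.Nd ⟨l, R, τ, κ, g, k, g', h', e, u, G, M⟩ ⟨ε, C, c, γ⟩ ≤ t := by
    refine hN.trans ?_
    have hi0 : 0 ≤ ∫ x in cAnn 1 l, e x ^ ((1 + ε) / ε) :=
      integral_nonneg fun x => Real.rpow_nonneg (hM.defect_nonneg x) _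
    have h9 : (∫ x in cAnn 1 l, e x ^ ((1 + ε) / ε)) ^ (ε / (1 + ε)) ≤
        ((t / B') ^ ((1 + ε) / ε)) ^ (ε / (1 + ε)) :=
      Real.rpow_le_rpow hi0 hint (by positivity)
    have h10 : ((t / B') ^ ((1 + ε) / ε)) ^ (ε / (1 + ε)) = t / B' := by
      rw [← Real.rpow_mul (by positivity)]
      have : (1 + ε) / ε * (ε / (1 + ε)) = 1 := by
        have : 1 + ε ≠ 0 := by positivity
        field_simp
      rw [this, Real.rpow_one]
    rw [h10] at h9
    calc B' * (∫ x in cAnn 1 l, e x ^ ((1 + ε) / ε)) ^ (ε / (1 + ε))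
        ≤ B' * (t / B') := mul_le_mul_of_nonneg_left h9 hB'.le
      _ = t := by field_simp
  have hCt : DatX.Cl ⟨l, R, τ, κ, g, k, g', h', e, u, G, M⟩ ⟨ε, C, c, γ⟩ ≤ t := by
    obtain ⟨-, -, hc⟩ := hcol _ hSet
    refine hc.trans ?_
    calc Bc * (κ + Real.sqrt τ) ≤ Bc * (a + a) :=
        mul_le_mul_of_nonneg_left (add_le_add hκa hsqτ) hBc.le
      _ = t := by
        rw [ha]
        field_simp
        ring
  have her : DatX.er ⟨l, R, τ, κ, g, k, g', h', e, u, G, M⟩ ⟨ε, C, c, γ⟩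
      (sME ε γ R - 2) ≤ t := h8
  refine ⟨⟨l, R, τ, κ, g, k, g', h', e, u, G, M⟩, sME ε γ R - 2, rfl, rfl, rfl, hSet,
    hA, ⟨?_, ?_, her.trans ht1, hNt.trans ht1, hCt.trans ht1⟩, hNt.trans htσ, hCt.trans htσ,
    her.trans htσ, ?_, h6, ?_, ?_⟩
  · change s2E ε γ l + 1 + 2 * γ ≤ sME ε γ R - 2
    linarith
  · change sME ε γ R - 2 + 1 < sME ε γ R
    linarith
  · change C * τ ≤ σ
    rw [le_div_iff₀ hC0] at hτσ
    linarith
  · intro x hx hrx
    have h9 := hfin x (hrr₀.trans hrx) hx.2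
    change 1 < wOf ε u x + ε / 4
    linarith
  · change ∫ x in cAnn 1 r, volDen g' x ≤ V
    rw [hV]
    linarith [vol_int hC0 hM r]

end Pool.Agent.PFlow
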