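import Pool.Agent.PFlow.StmtsX1
import Pool.Agent.PFlow.E.MOD
import Pool.Agent.PFlow.E.CUTM

/-!
# XFAR: the cut-off of the metric far out and near the origin
-/

open MeasureTheory Filter Topology
open scoped ContDiff ENNReal

namespace Pool.Agent.PFlow

open Pool.Agent.PenroseSph

namespace XFARL

/-- The collar cut-off: `0` for `|x| ≤ 1 - δ/2`, `1` for `|x| ≥ 1 - δ/4`. -/
noncomputable def cc (δ : ℝ) (x : E3) : ℝ := 1 - kap (4 / δ * (‖x‖ - 1) + 3)

/-- The metric continued to the punctured space. -/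
noncomputable def gz (δ : ℝ) (g : TensorField) : TensorField := fun x => 1 + cc δ x • (g x - 1)

lemma cc_nonneg (h : Stmt_KAP) (δ : ℝ) (x : E3) : 0 ≤ cc δ x := by
  unfold cc
  linarith [CUTM.kap_le_one h (4 / δ * (‖x‖ - 1) + 3)]

lemma cc_le_one (h : Stmt_KAP) (δ : ℝ) (x : E3) : cc δ x ≤ 1 := by
  unfold cc
  linarith [CUTM.kap_nonneg h (4 / δ * (‖x‖ - 1) + 3)]

lemma cc_zero (h : Stmt_KAP) {δ : ℝ} (hδ : 0 < δ) {x : E3} (hx : ‖x‖ ≤ 1 - δ / 2) :
    cc δ x = 0 := by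
  have h1 : 4 / δ * (‖x‖ - 1) ≤ 4 / δ * (-(δ / 2)) :=
    mul_le_mul_of_nonneg_left (by linarith) (by positivity)
  have h2 : 4 / δ * (-(δ / 2)) = -2 := by
    field_simp
    norm_num
  unfold cc
  rw [h.2.2.1 _ (by linarith), sub_self]

lemma cc_one (h : Stmt_KAP) {δ : ℝ} (hδ : 0 < δ) {x : E3} (hx : 1 - δ / 4 ≤ ‖x‖) :
    cc δ x = 1 := by
  have h1 : 4 / δ * (-(δ / 4)) ≤ 4 / δ * (‖x‖ - 1) :=
    mul_le_mul_of_nonneg_left (by linarith) (by positivity)
  have h2 : 4 / δ * (-(δ / 4)) = -1 := by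
    field_simp
  unfold cc
  rw [h.2.2.2.1 _ (by linarith), sub_zero]

lemma cc_smooth (h : Stmt_KAP) (δ : ℝ) {x : E3} (hx : x ≠ 0) : ContDiffAt ℝ ∞ (cc δ) x := by
  have h1 : ContDiffAt ℝ ∞ (fun y : E3 => 4 / δ * (‖y‖ - 1) + 3) x :=
    (contDiffAt_const.mul ((contDiffAt_norm ℝ hx).sub contDiffAt_const)).add contDiffAt_const
  exact contDiffAt_const.sub ((h.1.contDiffAt).comp x h1)

lemma isOpen_outside (δ : ℝ) : IsOpen (Outside δ) :=
  isOpen_lt continuous_const continuous_norm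

lemma gz_eq (h : Stmt_KAP) {δ : ℝ} (hδ : 0 < δ) (g : TensorField) {x : E3}
    (hx : 1 - δ / 4 ≤ ‖x‖) : gz δ g x = g x := by
  unfold gz
  rw [cc_one h hδ hx, one_smul, add_sub_cancel]

lemma gz_ev (h : Stmt_KAP) {δ : ℝ} (hδ : 0 < δ) (g : TensorField) {x : E3}
    (hx : 1 ≤ ‖x‖) : gz δ g =ᶠ[𝓝 x] g := by
  have ho : IsOpen {y : E3 | 1 - δ / 4 < ‖y‖} := isOpen_lt continuous_const continuous_norm
  have hm : x ∈ {y : E3 | 1 - δ / 4 < ‖y‖} := by
    change 1 - δ / 4 < ‖x‖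
    linarith
  filter_upwards [ho.mem_nhds hm] with y hy
  exact gz_eq h hδ g (le_of_lt hy)

lemma gz_metric (h : Stmt_KAP) {δ δ₀ : ℝ} (hδ : 0 < δ) (hδ₀ : δ ≤ δ₀) {g : TensorField}
    (hg : MetricOn (Outside δ₀) g) : MetricOn {0}ᶜ (gz δ g) := by
  have hmem : ∀ x : E3, ¬ ‖x‖ ≤ 1 - δ / 2 → x ∈ Outside δ₀ := by
    intro x hx
    push Not at hx
    change 1 - δ₀ < ‖x‖
    linarith
  refine ⟨fun i j x hx => ?_, fun x hx => ?_⟩
  · have hx0 : x ≠ 0 := hx
    apply ContDiffAt.contDiffWithinAt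
    by_cases hc : ‖x‖ < 1 - δ / 2
    · have ho : IsOpen {y : E3 | ‖y‖ < 1 - δ / 2} := isOpen_lt continuous_norm continuous_const
      have h1 : (fun y => gz δ g y i j) =ᶠ[𝓝 x] fun _ => (1 : Bil) i j := by
        filter_upwards [ho.mem_nhds hc] with y hy
        unfold gz
        rw [cc_zero h hδ (le_of_lt hy), zero_smul, add_zero]
      exact contDiffAt_const.congr_of_eventuallyEq h1
    · have hxo : x ∈ Outside δ₀ := by
        push Not at hc
        change 1 - δ₀ < ‖x‖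
        linarith
      have h2 : ContDiffAt ℝ ∞ (fun y => g y i j) x :=
        (hg.smooth i j).contDiffAt ((isOpen_outside δ₀).mem_nhds hxo)
      exact contDiffAt_const.add ((cc_smooth h δ hx0).mul (h2.sub contDiffAt_const))
  · by_cases hc : ‖x‖ ≤ 1 - δ / 2
    · have e : gz δ g x = 1 := by
        unfold gz
        rw [cc_zero h hδ hc, zero_smul, add_zero]
      rw [e]
      exact Matrix.PosDef.one
    · exact CUTM.posDef_comb (hg.posDef x (hmem x hc)) (cc_nonneg h δ x) (cc_le_one h δ x)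

/-- Decay depends only on the germs of the metric. -/
lemma decay_ev {C R : ℝ} {g g' h : TensorField}
    (he : ∀ x : E3, R ≤ ‖x‖ → g' =ᶠ[𝓝 x] g) (H : DecayFrom C R g h) : DecayFrom C R g' h := by
  intro x hx i j
  obtain ⟨h1, h2, h3, h4, h5⟩ := H x hx i j
  have e := he x hx
  refine ⟨?_, fun k => ?_, fun k l => ?_, h4, h5⟩
  · rw [e.self_of_nhds]
    exact h1
  · rw [(MODL.pd_ev (MODL.comp_ev e i j) k)]
    exact h2 k
  · rw [(MODL.pd_ev (MODL.pd_ev' (MODL.comp_ev e i j) l) k)]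
    exact h3 k l

/-- The mass integral depends only on the germs along the sphere. -/
lemma mass_ev {g g' : TensorField} {l : ℝ} (hl : 0 < l)
    (he : ∀ x : E3, ‖x‖ = l → g' =ᶠ[𝓝 x] g) : massIntegral g' l = massIntegral g l := by
  unfold massIntegral
  congr 1
  refine integral_congr_ae (Eventually.of_forall fun θ => ?_)
  have hθ : ‖(θ : E3)‖ = 1 := by simp
  have hn : ‖l • (θ : E3)‖ = l := by
    rw [norm_smul, hθ, mul_one, Real.norm_eq_abs, abs_of_pos hl]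
  have key : ∀ k i j : Fin 3, pd k (fun y => g' y i j) (l • (θ : E3)) =
      pd k (fun y => g y i j) (l • (θ : E3)) := fun k i j =>
    MODL.pd_ev (MODL.comp_ev (he _ hn) i j) k
  simp only [key]

end XFARL

open XFARL MODL in
theorem XFAR (hKAP : Stmt_KAP) (_hCUTM : Stmt_CUTM) (hCUTD : Stmt_CUTD) (hSCAL : Stmt_SCAL)
    (hDIVA : Stmt_DIVA) : Stmt_XFAR := by
  intro g k δ₀ C hδ₀ hgM hk hdec hell
  -- the continued metric
  obtain ⟨δ, hδdef⟩ : ∃ δ : ℝ, δ = min δ₀ 1 := ⟨_, rfl⟩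
  have hδ : 0 < δ := by
    rw [hδdef]
    exact lt_min hδ₀ one_pos
  have hδ' : δ ≤ δ₀ := by
    rw [hδdef]
    exact min_le_left _ _
  have hM0 : MetricOn {0}ᶜ (gz δ g) := gz_metric hKAP hδ hδ' hgM
  have hd0 : DecayFrom C 1 (gz δ g) k := decay_ev (fun x hx => gz_ev hKAP hδ g hx) hdec
  have he0 : ∀ x : E3, 1 ≤ ‖x‖ → ∀ v : Cov,
      (∑ i, v i ^ 2) ≤ C * ev (gz δ g x) v v ∧ ev (gz δ g x) v v ≤ C * ∑ i, v i ^ 2 := by
    intro x hx
    rw [(gz_ev hKAP hδ g hx).self_of_nhds]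
    exact hell x hx
  obtain ⟨C₂, hC₂, hcut⟩ := hCUTD (gz δ g) k C hM0 hd0 he0
  obtain ⟨C₄, ρ₀, hC₄, hρ₀, hsc⟩ := hSCAL C₂
  obtain ⟨C', hC'def⟩ : ∃ C' : ℝ, C' = C₂ + C₄ + 1 := ⟨_, rfl⟩
  refine ⟨C', max 8 ρ₀, by linarith, le_max_left _ _, fun l hl g₁ hg₁ hsame => ?_⟩
  have hl8 : 8 ≤ l := (le_max_left _ _).trans hl
  have hlρ : ρ₀ ≤ l := (le_max_right _ _).trans hl
  have hl0 : 0 < l := by linarith
  have hR : (0 : ℝ) < 1 / 4 := by norm_num
  have hkl : ContDiff ℝ ∞ (fun y : E3 => kap (‖y‖ / l)) := hKAP.2.2.2.2.2.1 l hl0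
  have hkin : ContDiff ℝ ∞ (kin (1 / 4)) := hKAP.2.2.2.2.2.2 (1 / 4) hR
  obtain ⟨dM, elM⟩ := hcut l (4 * l) (by linarith) le_rfl
  -- the factor
  let c : E3 → ℝ := fun x => kap (‖x‖ / l) * kin (1 / 4) x
  have hc : ContDiff ℝ ∞ c := hkl.mul hkin
  have hkz : ∀ x : E3, ‖x‖ ≤ 1 / 8 → kin (1 / 4) x = 0 := fun x hx =>
    CUTM.kin_zero hKAP hR (hx.trans (by norm_num))
  have hko : ∀ x : E3, 1 / 4 ≤ ‖x‖ → kin (1 / 4) x = 1 := fun x hx =>
    CUTM.kin_one hKAP hR (le_trans (by norm_num) hx)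
  have hcz : ∀ x : E3, ‖x‖ ≤ 1 / 8 → c x = 0 := by
    intro x hx
    change kap (‖x‖ / l) * kin (1 / 4) x = 0
    rw [hkz x hx, mul_zero]
  have hc0 : ∀ x, 0 ≤ c x := fun x =>
    mul_nonneg (CUTM.kap_nonneg hKAP _) (CUTM.kin_nonneg hKAP _ _)
  have hc1 : ∀ x, c x ≤ 1 := fun x =>
    mul_le_one₀ (CUTM.kap_le_one hKAP _) (CUTM.kin_nonneg hKAP _ _) (CUTM.kin_le_one hKAP _ _)
  -- the metric
  have m1 : MetricOn Set.univ (modG l (1 / 4) g₁) := by
    refine ⟨fun i j => ?_, fun x _ => ?_⟩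
    · have h1 : ContDiff ℝ ∞ (fun x => c x * (g₁ x i j - (1 : Bil) i j)) :=
        CUTM.smooth_of (a := 1 / 8) (by norm_num) hc hcz ((hg₁.smooth i j).sub contDiffOn_const)
      exact (contDiff_const.add h1).contDiffOn
    · by_cases hx : x = 0
      · have e : modG l (1 / 4) g₁ x = 1 := by
          change 1 + c x • (g₁ x - 1) = 1
          rw [hcz x (by rw [hx, norm_zero]; norm_num), zero_smul, add_zero]
        rw [e]
        exact Matrix.PosDef.one
      · exact CUTM.posDef_comb (hg₁.posDef x hx) (hc0 x) (hc1 x)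
  have m4 : ∀ x : E3, 1 / 4 ≤ ‖x‖ → ‖x‖ ≤ l → modG l (1 / 4) g₁ x = g₁ x := by
    intro x h1 h2
    change 1 + (kap (‖x‖ / l) * kin (1 / 4) x) • (g₁ x - 1) = g₁ x
    rw [hko x h1, hKAP.2.2.1 _ ?_, one_mul, one_smul, add_sub_cancel]
    rw [div_le_one hl0]
    exact h2
  have m5 : ∀ x : E3, 2 * l ≤ ‖x‖ → modG l (1 / 4) g₁ x = 1 := by
    intro x hx
    change 1 + (kap (‖x‖ / l) * kin (1 / 4) x) • (g₁ x - 1) = 1
    rw [hKAP.2.2.2.1 _ ?_, zero_mul, zero_smul, add_zero]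
    rw [le_div_iff₀ hl0]
    linarith
  -- comparison with the earlier modification
  have evM : ∀ x : E3, 2 ≤ ‖x‖ → modG l (1 / 4) g₁ =ᶠ[𝓝 x] modG l (4 * l) (gz δ g) := by
    intro x hx
    have ho : IsOpen {y : E3 | 7 / 4 < ‖y‖} := isOpen_lt continuous_const continuous_norm
    have hm : x ∈ {y : E3 | 7 / 4 < ‖y‖} := by
      change 7 / 4 < ‖x‖
      linarith
    filter_upwards [ho.mem_nhds hm] with y hy
    have hy' : 7 / 4 < ‖y‖ := hy
    have e1 : kin (1 / 4) y = 1 := hko y (by linarith)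
    have e2 : kin (4 * l) y = 1 := by
      refine CUTM.kin_one hKAP (by linarith) (le_trans ?_ hy'.le)
      rw [div_le_iff₀ (by positivity)]
      linarith
    have e3 : gz δ g y = g₁ y := by
      rw [hsame y hy']
      exact gz_eq hKAP hδ g (by linarith)
    change 1 + (kap (‖y‖ / l) * kin (1 / 4) y) • (g₁ y - 1) =
      1 + (kap (‖y‖ / l) * kin (4 * l) y) • (gz δ g y - 1)
    rw [e1, e2, e3]
  have hsmooth : ∀ x : E3, ∀ i j, ContDiffAt ℝ ∞ (fun y => modG l (1 / 4) g₁ y i j) x :=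
    fun x i j => (m1.smooth i j).contDiffAt Filter.univ_mem
  have d2 : DecayFrom C₂ 2 (modG l (1 / 4) g₁) 0 := by
    refine decay_ev evM ?_
    intro x hx i j
    exact dM x (by linarith) i j
  have hsc' : ∀ x : E3, l < ‖x‖ →
      |scalarCurvature (modG l (1 / 4) g₁) x * volDen (modG l (1 / 4) g₁) x
        - linR (modG l (1 / 4) g₁) x| ≤ C₄ / ‖x‖ ^ 4 ∧
      |linR (modG l (1 / 4) g₁) x| ≤ C₄ / ‖x‖ ^ 3 := by
    intro x hx
    refine hsc (modG l (1 / 4) g₁) x (hlρ.trans hx.le)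
      (Eventually.of_forall fun y => symm_of_posDef (m1.posDef y (Set.mem_univ _)))
      (hsmooth x) (fun i j => ?_)
    obtain ⟨d1, d2', d3, -, -⟩ := d2 x (by linarith) i j
    exact ⟨d1, d2', d3⟩
  refine ⟨m1, decay_mono d2 (by linarith), ?_, m4, m5, ?_, ?_⟩
  · intro x hx
    rw [(evM x hx).self_of_nhds]
    exact ell_mono hC₂ (by linarith) (elM x (by linarith))
  · intro x hx1 _
    obtain ⟨h1, h2⟩ := hsc' x hx1
    constructor
    · refine h1.trans ?_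
      have h3 : C₄ / ‖x‖ ^ 4 ≤ C₄ / l ^ 4 := by gcongr
      refine h3.trans ?_
      gcongr
      linarith
    · refine h2.trans ?_
      have h3 : C₄ / ‖x‖ ^ 3 ≤ C₄ / l ^ 3 := by gcongr
      refine h3.trans ?_
      gcongr
      linarith
  · rw [hDIVA (modG l (1 / 4) g₁) l hl0 (fun x _ => hsmooth x) m5]
    have h1 : massIntegral (modG l (1 / 4) g₁) l = massIntegral g₁ l := by
      refine mass_eq (a := 1 / 4) (by norm_num) (by linarith) (fun x hx i j => ?_)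
        (fun x i j => (hsmooth x i j).of_le (by exact_mod_cast le_top))
        (fun x hx1 hx2 => m4 x hx1.le hx2.le)
      exact (((hg₁.smooth i j).contDiffAt (isOpen_compl_singleton.mem_nhds hx)).of_le
        (by exact_mod_cast le_top))
    have h2 : massIntegral g₁ l = massIntegral g l := by
      refine mass_ev hl0 (fun x hx => ?_)
      have ho : IsOpen {y : E3 | 7 / 4 < ‖y‖} := isOpen_lt continuous_const continuous_norm
      have hm : x ∈ {y : E3 | 7 / 4 < ‖y‖} := by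
        change 7 / 4 < ‖x‖
        linarith
      filter_upwards [ho.mem_nhds hm] with y hy
      exact hsame y hy
    rw [h1, h2]

end Pool.Agent.PFlow
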