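import Pool.Agent.PFlow.StmtsX1
import Pool.Agent.PFlow.K.KTN
import Pool.Agent.PFlow.E.HATB
import Pool.Agent.PFlow.E.HATC
import Pool.Agent.PFlow.E.RADN
import Pool.Agent.PFlow.E.ABSF

/-!
# XHAT: the change of sign in the exterior region
-/

open MeasureTheory Filter Topology
open scoped ContDiff ENNReal

namespace Pool.Agent.PFlow

open Pool.Agent.PenroseSph

namespace XHATm

lemma isOpen_Outside (δ : ℝ) : IsOpen (Outside δ) := isOpen_lt continuous_const continuous_norm

lemma mem_Outside {δ : ℝ} (hδ : 0 < δ) {x : E3} (hx : 1 ≤ ‖x‖) : x ∈ Outside δ := by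
  show 1 - δ < ‖x‖
  linarith

lemma nsq_le (hHATA : Stmt_HATA) {g k : TensorField} {δ : ℝ} (hδ : 0 < δ)
    (hg : MetricOn (Outside δ) g) (hh : TensorOn (Outside δ) k) (hp : PlaneSignX g k) {x : E3}
    (hx : 1 ≤ ‖x‖) : nsq g x (k x) ≤ 3 * trg g x (k x) ^ 2 := by
  have hxU := mem_Outside hδ hx
  rcases hp x hx with h1 | h1
  · exact (hHATA g x (k x) (hg.posDef x hxU) (hh.symm x hxU) h1).2
  · have h2 := (hHATA g x ((-1 : ℝ) • k x) (hg.posDef x hxU) ?_ ?_).2
    · rw [HATC.nsq_smul, HATC.trg_smul] at h2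
      nlinarith
    · have := hh.symm x hxU
      unfold Matrix.IsSymm at this ⊢
      rw [Matrix.transpose_smul, this]
    · intro v hv
      rw [HATC.ev_smul, HATC.trg_smul]
      have := h1 v hv
      linarith

lemma real_ineq {η a : ℝ} (hη : 0 < η) (ha : 0 ≤ a) :
    3 * a * (1 - a / Real.sqrt (a ^ 2 + η ^ 2)) ≤ η := by
  have hd : 0 < a ^ 2 + η ^ 2 := by positivity
  set S := Real.sqrt (a ^ 2 + η ^ 2) with hS
  have hS0 : 0 < S := Real.sqrt_pos.mpr hd
  have hSS : S ^ 2 = a ^ 2 + η ^ 2 := Real.sq_sqrt hd.le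
  have hSη : η ≤ S := by
    apply Real.le_sqrt_of_sq_le
    nlinarith [sq_nonneg a]
  have hSa : a ≤ S := by
    apply Real.le_sqrt_of_sq_le
    nlinarith [sq_nonneg η]
  have e : 3 * a * (1 - a / S) = 3 * a * (S - a) / S := by
    field_simp
  rw [e, div_le_iff₀ hS0]
  have h1 : (S - a) * (S + a) = η ^ 2 := by nlinarith
  have h2 : 3 * a * η ≤ S * (S + a) := by nlinarith [sq_nonneg (a - η), mul_nonneg ha (sub_nonneg.2 hSη)]
  have h3 : 0 < S + a := by linarith
  have h4 : 3 * a * (S - a) * (S + a) ≤ η * S * (S + a) := by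
    have h5 : 3 * a * (S - a) * (S + a) = (3 * a * η) * η := by
      rw [mul_assoc, h1]
      ring
    rw [h5]
    nlinarith
  exact le_of_mul_le_mul_right h4 h3

end XHATm

open XHATm in
/-- XHAT: the change of sign in the exterior region. -/
theorem XHAT (hHATA : Stmt_HATA) (_hHATB : Stmt_HATB) (_hHATC : Stmt_HATC)
    (hJPROD : Stmt_JPROD) : Stmt_XHAT := by
  intro g k δ hδ hg hk hp η hη
  have hUo : IsOpen (Outside δ) := isOpen_Outside δ
  have htr := HATC.trg_smooth hg hk
  refine ⟨⟨?_, ?_⟩, ?_, ?_, ?_, ?_⟩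
  · intro i j
    exact ((HATBaux.contDiff_hatF hη).comp_contDiffOn htr).mul (hk.smooth i j)
  · intro x hx
    exact (hk.symm x hx).smul _
  · intro x hx v hv
    have hx1 : 1 ≤ ‖x‖ := hx
    have hxU := mem_Outside hδ hx1
    unfold hat
    rw [HATBaux.ev_smul, HATBaux.trg_smul]
    rcases hp x hx1 with h1 | h1
    · have h2 := (hHATA g x (k x) (hg.posDef x hxU) (hk.symm x hxU) h1).1
      exact mul_le_mul_of_nonneg_left (h1 v hv) (HATBaux.hatF_nonneg h2)
    · have h3 := (hHATA g x ((-1 : ℝ) • k x) (hg.posDef x hxU) ((hk.symm x hxU).smul _) (by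
        intro w hw
        rw [HATBaux.ev_smul, HATBaux.trg_smul]
        have := h1 w hw
        linarith)).1
      rw [HATBaux.trg_smul] at h3
      exact mul_le_mul_of_nonpos_left (h1 v hv) (HATBaux.hatF_nonpos (by linarith))
  · intro x i j
    unfold hat
    rw [Matrix.smul_apply, smul_eq_mul, abs_mul]
    have h1 := HATBaux.abs_hatF_le η (trg g x (k x))
    nlinarith [abs_nonneg (k x i j)]
  · intro x hx
    have hxU : x ∈ Outside δ := mem_Outside hδ hx.le
    have hf : ContDiffOn ℝ ∞ (fun y => hatF η (trg g y (k y))) (Outside δ) :=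
      (HATC.hatF_smooth hη).comp_contDiffOn htr
    have hJ := (hJPROD (Outside δ) g k (fun y => hatF η (trg g y (k y))) hUo hg hk hf x hxU).2
    have hdt : DifferentiableAt ℝ (fun y => trg g y (k y)) x :=
      (htr.contDiffAt (hUo.mem_nhds hxU)).differentiableAt (by simp)
    rw [HATC.grad_comp hη hdt, HATC.len_smul g x _ (by positivity)] at hJ
    have hn := XHATm.nsq_le hHATA hδ hg hk hp hx.le
    have hn0 : 0 ≤ nsq g x (k x) := (KTN_thm g x (hg.posDef x hxU) 0).2.2.2.2.2.2.1 (k x)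
    set t := trg g x (k x) with ht
    set S := Real.sqrt (t ^ 2 + η ^ 2) with hS
    have hS0 : 0 < S := HATC.sq_pos hη t
    set L := len g x (grad (fun y => trg g y (k y)) x) with hL
    have hL0 : 0 ≤ L := Real.sqrt_nonneg _
    have hjl : 0 ≤ jlen g k x := Real.sqrt_nonneg _
    have hsq : Real.sqrt (nsq g x (k x) + t ^ 2) ≤ 2 * |t| := by
      have e : 2 * |t| = Real.sqrt ((2 * |t|) ^ 2) := by
        rw [Real.sqrt_sq (by positivity)]
      rw [e]
      apply Real.sqrt_le_sqrt
      rw [mul_pow, sq_abs]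
      linarith
    have hJ2 : jlen g (hat η g k) x ≤ jlen g k x + 2 * η ^ 2 * |t| * L / S ^ 3 := by
      have e1 : jlen g (hat η g k) x ≤ |hatF η t| * jlen g k x
          + Real.sqrt (nsq g x (k x) + t ^ 2) * (η ^ 2 / S ^ 3 * L) := hJ
      have e2 : |hatF η t| * jlen g k x ≤ 1 * jlen g k x :=
        mul_le_mul_of_nonneg_right (HATC.abs_hatF_le hη t) hjl
      have e3 : Real.sqrt (nsq g x (k x) + t ^ 2) * (η ^ 2 / S ^ 3 * L)
          ≤ 2 * |t| * (η ^ 2 / S ^ 3 * L) :=
        mul_le_mul_of_nonneg_right hsq (by positivity)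
      have e4 : 2 * |t| * (η ^ 2 / S ^ 3 * L) = 2 * η ^ 2 * |t| * L / S ^ 3 := by ring
      linarith
    have hE : eEta η g k x = η ^ 2 / 2 + 2 * η ^ 2 * |t| * L / S ^ 3 := rfl
    constructor
    · unfold surplus
      rw [hE, HATC.energy_eq, HATC.energy_eq]
      have e5 : nsq g x (hat η g k x) = hatF η t ^ 2 * nsq g x (k x) := HATC.nsq_smul g x _ _
      have e6 : trg g x (hat η g k x) = hatF η t * t := HATC.trg_smul g x _ _
      rw [e5, e6, ← ht]
      have e7 := HATC.hatF_sq hη t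
      have e8 := HATC.hatF_sq_le hη t
      have e9 : 0 ≤ (1 - hatF η t ^ 2) * nsq g x (k x) := mul_nonneg (by linarith) hn0
      nlinarith
    · rw [hE]
      nlinarith [sq_nonneg η]
  · intro x hx
    have hx1 : 1 ≤ ‖x‖ := hx.ge
    have hxU := mem_Outside hδ hx1
    have hpd := hg.posDef x hxU
    have hx0 : x ≠ 0 := by
      rintro rfl
      rw [norm_zero] at hx
      exact zero_ne_one hx
    have hgr : grad rad x ≠ 0 := RADN.grad_rad_ne hx0
    have hK := KTN_thm g x hpd (grad rad x)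
    have hn := XHATm.nsq_le hHATA hδ hg hk hp hx1
    have hl : 0 < lsq g x (grad rad x) := hK.2.1 hgr
    have hb : (bnn g x (grad rad x) (k x)) ^ 2 ≤ nsq g x (k x) := by
      rw [hK.2.2.2.2.2.2.2 hgr (k x), div_pow, div_le_iff₀ (by positivity)]
      have := hK.2.2.2.2.2.1 (k x)
      linarith [mul_comm (nsq g x (k x)) (lsq g x (grad rad x) ^ 2)]
    set t := trg g x (k x) with ht
    set b := bnn g x (grad rad x) (k x) with hbd
    have hP : sphereTr g k x = t - b := rfl
    have hPh : sphereTr g (hat η g k) x = hatF η t * (t - b) := by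
      have e1 : trg g x (hat η g k x) = hatF η t * t := HATC.trg_smul g x _ _
      have e2 : bnn g x (grad rad x) (hat η g k x) = hatF η t * b := by
        unfold bnn
        exact HATC.ev_smul _ _ _ _
      show trg g x (hat η g k x) - bnn g x (grad rad x) (hat η g k x) = _
      rw [e1, e2]
      ring
    have hb2 : |b| ≤ 2 * |t| := by
      apply abs_le_of_sq_le_sq' _ (by positivity) |> abs_le.2
      rw [mul_pow, sq_abs]
      nlinarith [sq_nonneg t]
    have hP3 : |t - b| ≤ 3 * |t| := by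
      have := abs_sub t b
      linarith
    have hsign : hatF η t * (t - b) = |t| / Real.sqrt (|t| ^ 2 + η ^ 2) * |t - b| := by
      have hev := ABSFm.ev_nrm hpd hgr
      unfold hatF
      rw [sq_abs]
      rcases hp x hx1 with h1 | h1
      · have h2 := (hHATA g x (k x) hpd (hk.symm x hxU) h1).1
        have h3 : b ≤ t := h1 _ hev
        rw [abs_of_nonneg h2, abs_of_nonneg (sub_nonneg.2 h3)]
      · have h3 := (hHATA g x ((-1 : ℝ) • k x) hpd ((hk.symm x hxU).smul _) (by
          intro w hw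
          rw [HATBaux.ev_smul, HATBaux.trg_smul]
          have := h1 w hw
          linarith)).1
        rw [HATBaux.trg_smul] at h3
        have h4 : t ≤ b := h1 _ hev
        rw [abs_of_nonpos (show t ≤ 0 by linarith), abs_of_nonpos (sub_nonpos.2 h4)]
        ring
    rw [hP, hPh, hsign]
    have hr := real_ineq hη (abs_nonneg t)
    have hq : 0 ≤ 1 - |t| / Real.sqrt (|t| ^ 2 + η ^ 2) := by
      rw [sub_nonneg]
      apply div_le_one_of_le₀ _ (Real.sqrt_nonneg _)
      apply Real.le_sqrt_of_sq_le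
      nlinarith [sq_nonneg η]
    have h5 : |t - b| * (1 - |t| / Real.sqrt (|t| ^ 2 + η ^ 2))
        ≤ 3 * |t| * (1 - |t| / Real.sqrt (|t| ^ 2 + η ^ 2)) :=
      mul_le_mul_of_nonneg_right hP3 hq
    linarith

end Pool.Agent.PFlow
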