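import Pool.Agent.PFlow.StmtsX1
import Pool.Agent.PenroseSph.Calc

/-!
# Module XJET: the surplus is a continuous function of the jets
-/

open MeasureTheory Filter Topology
open scoped ContDiff

namespace Pool.Agent.PFlow

open Pool.Agent.PenroseSph

namespace XJET

/-- The jets. -/
abbrev Jt := Bil × (Fin 3 → Bil) × (Fin 3 → Fin 3 → Bil) × Bil × (Fin 3 → Bil)

/-- Inverse metric. -/
noncomputable def jiv (z : Jt) (i j : Fin 3) : ℝ := (z.1)⁻¹ i j

/-- Derivative of the inverse metric. -/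
noncomputable def jdiv (z : Jt) (m i j : Fin 3) : ℝ :=
  -∑ b, (∑ a, jiv z i a * z.2.1 m a b) * jiv z b j

/-- Christoffel symbols with a lower index. -/
noncomputable def jlow (z : Jt) (i j l : Fin 3) : ℝ :=
  z.2.1 i j l + z.2.1 j i l - z.2.1 l i j

/-- Derivatives of `jlow`. -/
noncomputable def jdlow (z : Jt) (m i j l : Fin 3) : ℝ :=
  z.2.2.1 m i j l + z.2.2.1 m j i l - z.2.2.1 m l i j

/-- Christoffel symbols. -/
noncomputable def jchr (z : Jt) (k i j : Fin 3) : ℝ :=
  (1 / 2) * ∑ l, jiv z k l * jlow z i j l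

/-- Derivatives of Christoffel symbols. -/
noncomputable def jdchr (z : Jt) (m k i j : Fin 3) : ℝ :=
  (1 / 2) * ∑ l, (jiv z k l * jdlow z m i j l + jlow z i j l * jdiv z m k l)

/-- Ricci curvature. -/
noncomputable def jric (z : Jt) (i j : Fin 3) : ℝ :=
  ∑ k, (jdchr z k k i j - jdchr z j k i k
    + ∑ l, (jchr z k k l * jchr z l i j - jchr z k j l * jchr z l i k))

/-- Scalar curvature. -/
noncomputable def jscal (z : Jt) : ℝ := ∑ i, ∑ j, jiv z i j * jric z i j

/-- Trace. -/
noncomputable def jtr (z : Jt) : ℝ := ∑ i, ∑ j, jiv z i j * z.2.2.2.1 i j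

/-- Squared norm. -/
noncomputable def jnsq (z : Jt) : ℝ :=
  ∑ i, ∑ j, ∑ k, ∑ l, jiv z i k * jiv z j l * z.2.2.2.1 i j * z.2.2.2.1 k l

/-- Derivative of the trace. -/
noncomputable def jdtr (z : Jt) (m : Fin 3) : ℝ :=
  ∑ i, ∑ j, (jiv z i j * z.2.2.2.2 m i j + z.2.2.2.1 i j * jdiv z m i j)

/-- The tensor `h - tr h g`. -/
noncomputable def jT (z : Jt) (i j : Fin 3) : ℝ := z.2.2.2.1 i j - jtr z * z.1 i j

/-- The derivative of the tensor `h - tr h g`. -/
noncomputable def jdT (z : Jt) (m i j : Fin 3) : ℝ :=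
  z.2.2.2.2 m i j - (jtr z * z.2.1 m i j + z.1 i j * jdtr z m)

/-- Covariant derivative of `T`. -/
noncomputable def jcov (z : Jt) (k i j : Fin 3) : ℝ :=
  jdT z k i j - ∑ l, (jchr z l k i * jT z l j + jchr z l k j * jT z i l)

/-- Momentum density. -/
noncomputable def jmom (z : Jt) (j : Fin 3) : ℝ := ∑ i, ∑ k, jiv z i k * jcov z k i j

/-- The surplus. -/
noncomputable def jsur (z : Jt) : ℝ :=
  (1 / 2) * (jscal z - jnsq z + jtr z ^ 2) -
    Real.sqrt (∑ i, ∑ j, jiv z i j * jmom z i * jmom z j)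

/-! ### Continuity -/

section Cont

variable {z₀ : Jt} (h0 : z₀.1.det ≠ 0)

theorem ca_sum {F : Fin 3 → Jt → ℝ} {z₀ : Jt} (h : ∀ a, ContinuousAt (F a) z₀) :
    ContinuousAt (fun z => ∑ a, F a z) z₀ :=
  tendsto_finset_sum _ fun a _ => h a

theorem ca_g (i j : Fin 3) : ContinuousAt (fun z : Jt => z.1 i j) z₀ := by
  have : Continuous (fun z : Jt => z.1 i j) := by fun_prop
  exact this.continuousAt

theorem ca_dg (m i j : Fin 3) : ContinuousAt (fun z : Jt => z.2.1 m i j) z₀ := by
  have : Continuous (fun z : Jt => z.2.1 m i j) := by fun_prop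
  exact this.continuousAt

theorem ca_ddg (m n i j : Fin 3) : ContinuousAt (fun z : Jt => z.2.2.1 m n i j) z₀ := by
  have : Continuous (fun z : Jt => z.2.2.1 m n i j) := by fun_prop
  exact this.continuousAt

theorem ca_h (i j : Fin 3) : ContinuousAt (fun z : Jt => z.2.2.2.1 i j) z₀ := by
  have : Continuous (fun z : Jt => z.2.2.2.1 i j) := by fun_prop
  exact this.continuousAt

theorem ca_dh (m i j : Fin 3) : ContinuousAt (fun z : Jt => z.2.2.2.2 m i j) z₀ := by
  have : Continuous (fun z : Jt => z.2.2.2.2 m i j) := by fun_prop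
  exact this.continuousAt

include h0

theorem ca_iv (i j : Fin 3) : ContinuousAt (fun z => jiv z i j) z₀ := by
  have h1 : (fun z : Jt => jiv z i j) = fun z => (z.1.det)⁻¹ * z.1.adjugate i j := by
    funext z
    unfold jiv
    rw [Matrix.inv_def, Ring.inverse_eq_inv', Matrix.smul_apply, smul_eq_mul]
  rw [h1]
  have h2 : Continuous (fun z : Jt => z.1.det) := continuous_fst.matrix_det
  have h3 : Continuous (fun z : Jt => z.1.adjugate) := continuous_fst.matrix_adjugate
  have h4 : Continuous (fun z : Jt => z.1.adjugate i j) :=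
    (continuous_apply_apply i j).comp h3
  exact (h2.continuousAt.inv₀ h0).mul h4.continuousAt

theorem ca_div (m i j : Fin 3) : ContinuousAt (fun z => jdiv z m i j) z₀ := by
  unfold jdiv
  exact (ca_sum fun b => (ca_sum fun a => (ca_iv h0 i a).mul (ca_dg m a b)).mul
    (ca_iv h0 b j)).neg

omit h0 in
theorem ca_low (i j l : Fin 3) : ContinuousAt (fun z => jlow z i j l) z₀ := by
  unfold jlow
  exact ((ca_dg i j l).add (ca_dg j i l)).sub (ca_dg l i j)

omit h0 in
theorem ca_dlow (m i j l : Fin 3) : ContinuousAt (fun z => jdlow z m i j l) z₀ := by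
  unfold jdlow
  exact ((ca_ddg m i j l).add (ca_ddg m j i l)).sub (ca_ddg m l i j)

theorem ca_chr (k i j : Fin 3) : ContinuousAt (fun z => jchr z k i j) z₀ := by
  unfold jchr
  exact continuousAt_const.mul (ca_sum fun l => (ca_iv h0 k l).mul (ca_low i j l))

theorem ca_dchr (m k i j : Fin 3) : ContinuousAt (fun z => jdchr z m k i j) z₀ := by
  unfold jdchr
  exact continuousAt_const.mul (ca_sum fun l => ((ca_iv h0 k l).mul (ca_dlow m i j l)).add
    ((ca_low i j l).mul (ca_div h0 m k l)))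

theorem ca_ric (i j : Fin 3) : ContinuousAt (fun z => jric z i j) z₀ := by
  unfold jric
  exact ca_sum fun k => ((ca_dchr h0 k k i j).sub (ca_dchr h0 j k i k)).add
    (ca_sum fun l => ((ca_chr h0 k k l).mul (ca_chr h0 l i j)).sub
      ((ca_chr h0 k j l).mul (ca_chr h0 l i k)))

theorem ca_scal : ContinuousAt jscal z₀ := by
  unfold jscal
  exact ca_sum fun i => ca_sum fun j => (ca_iv h0 i j).mul (ca_ric h0 i j)

theorem ca_tr : ContinuousAt jtr z₀ := by
  unfold jtr
  exact ca_sum fun i => ca_sum fun j => (ca_iv h0 i j).mul (ca_h i j)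

theorem ca_nsq : ContinuousAt jnsq z₀ := by
  unfold jnsq
  exact ca_sum fun i => ca_sum fun j => ca_sum fun k => ca_sum fun l =>
    (((ca_iv h0 i k).mul (ca_iv h0 j l)).mul (ca_h i j)).mul (ca_h k l)

theorem ca_dtr (m : Fin 3) : ContinuousAt (fun z => jdtr z m) z₀ := by
  unfold jdtr
  exact ca_sum fun i => ca_sum fun j => ((ca_iv h0 i j).mul (ca_dh m i j)).add
    ((ca_h i j).mul (ca_div h0 m i j))

theorem ca_T (i j : Fin 3) : ContinuousAt (fun z => jT z i j) z₀ := by
  unfold jT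
  exact (ca_h i j).sub ((ca_tr h0).mul (ca_g i j))

theorem ca_dT (m i j : Fin 3) : ContinuousAt (fun z => jdT z m i j) z₀ := by
  unfold jdT
  exact (ca_dh m i j).sub (((ca_tr h0).mul (ca_dg m i j)).add ((ca_g i j).mul (ca_dtr h0 m)))

theorem ca_cov (k i j : Fin 3) : ContinuousAt (fun z => jcov z k i j) z₀ := by
  unfold jcov
  exact (ca_dT h0 k i j).sub (ca_sum fun l => ((ca_chr h0 l k i).mul (ca_T h0 l j)).add
    ((ca_chr h0 l k j).mul (ca_T h0 i l)))

theorem ca_mom (j : Fin 3) : ContinuousAt (fun z => jmom z j) z₀ := by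
  unfold jmom
  exact ca_sum fun i => ca_sum fun k => (ca_iv h0 i k).mul (ca_cov h0 k i j)

theorem ca_sur : ContinuousAt jsur z₀ := by
  unfold jsur
  exact (continuousAt_const.mul (((ca_scal h0).sub (ca_nsq h0)).add ((ca_tr h0).pow 2))).sub
    (Real.continuous_sqrt.continuousAt.comp (ca_sum fun i => ca_sum fun j =>
      ((ca_iv h0 i j).mul (ca_mom h0 i)).mul (ca_mom h0 j)))

end Cont

/-! ### Calculus -/

theorem cd_pd {f : E3 → ℝ} {x : E3} (h : ContDiffAt ℝ ∞ f x) (i : Fin 3) :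
    ContDiffAt ℝ ∞ (pd i f) x := by
  have h1 : ContDiffAt ℝ ∞ (fderiv ℝ f) x := h.fderiv_right (m := ∞) (by simp)
  exact h1.clm_apply contDiffAt_const

theorem df {f : E3 → ℝ} {x : E3} (h : ContDiffAt ℝ ∞ f x) : DifferentiableAt ℝ f x :=
  h.differentiableAt (by simp)

/-- `f` is differentiable at `x` with `∂_l f = f'`. -/
structure HP (l : Fin 3) (f : E3 → ℝ) (f' : ℝ) (x : E3) : Prop where
  diff : DifferentiableAt ℝ f x
  val : pd l f x = f'

section HP

variable {l : Fin 3} {f g : E3 → ℝ} {f' g' : ℝ} {x : E3}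

theorem HP.add (hf : HP l f f' x) (hg : HP l g g' x) :
    HP l (fun y => f y + g y) (f' + g') x :=
  ⟨hf.diff.add hg.diff, by rw [pd_add hf.diff hg.diff, hf.val, hg.val]⟩

theorem HP.sub (hf : HP l f f' x) (hg : HP l g g' x) :
    HP l (fun y => f y - g y) (f' - g') x :=
  ⟨hf.diff.sub hg.diff, by rw [pd_sub hf.diff hg.diff, hf.val, hg.val]⟩

theorem HP.mul (hf : HP l f f' x) (hg : HP l g g' x) :
    HP l (fun y => f y * g y) (f x * g' + g x * f') x :=
  ⟨hf.diff.mul hg.diff, by rw [pd_mul hf.diff hg.diff, hf.val, hg.val]⟩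

theorem HP.cmul (c : ℝ) (hf : HP l f f' x) : HP l (fun y => c * f y) (c * f') x :=
  ⟨hf.diff.const_mul c, by rw [pd_const_mul c hf.diff, hf.val]⟩

theorem HP.sum {F : Fin 3 → E3 → ℝ} {F' : Fin 3 → ℝ} (h : ∀ a, HP l (F a) (F' a) x) :
    HP l (fun y => ∑ a, F a y) (∑ a, F' a) x := by
  refine ⟨DifferentiableAt.fun_sum fun a _ => (h a).diff, ?_⟩
  rw [pd_sum _ F fun a _ => (h a).diff]
  exact Finset.sum_congr rfl fun a _ => (h a).val

end HP

section Jet

variable {g k : TensorField} {x : E3} (hp : ∀ᶠ y in 𝓝 x, (g y).PosDef)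
  (hg : ∀ i j, ContDiffAt ℝ ∞ (fun y => g y i j) x)
  (hk : ∀ i j, ContDiffAt ℝ ∞ (fun y => k y i j) x)

/-- The jet of the data. -/
noncomputable def jet (g k : TensorField) (x : E3) : Jt :=
  (g x, fun m => Matrix.of fun i j => pd m (fun y => g y i j) x,
    fun m n => Matrix.of fun i j => pd m (pd n (fun y => g y i j)) x, k x,
    fun m => Matrix.of fun i j => pd m (fun y => k y i j) x)

include hp hg

theorem cd_iv (i j : Fin 3) : ContDiffAt ℝ ∞ (fun y => (g y)⁻¹ i j) x := by
  have hd0 : (g x).det ≠ 0 := hp.self_of_nhds.det_pos.ne'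
  have hd : ContDiffAt ℝ ∞ (fun y => (g y).det) x := by
    simp only [Matrix.det_fin_three]
    fun_prop
  have ha : ContDiffAt ℝ ∞ (fun y => (g y).adjugate i j) x := by
    simp only [Matrix.adjugate_fin_three]
    fin_cases i <;> fin_cases j <;>
      simp <;> fun_prop
  have h1 : (fun y => (g y)⁻¹ i j) = fun y => ((g y).det)⁻¹ * (g y).adjugate i j := by
    funext y
    rw [Matrix.inv_def, Ring.inverse_eq_inv', Matrix.smul_apply, smul_eq_mul]
  rw [h1]
  exact (hd.inv hd0).mul ha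

theorem hp_iv (m i j : Fin 3) :
    HP m (fun y => (g y)⁻¹ i j) (jdiv (jet g k x) m i j) x := by
  refine ⟨df (cd_iv hp hg i j), ?_⟩
  set E : Bil := Matrix.of fun i j => pd m (fun y => (g y)⁻¹ i j) x with hE
  set D : Bil := Matrix.of fun i j => pd m (fun y => g y i j) x with hD
  have hprod : g x * E + D * (g x)⁻¹ = 0 := by
    ext a j
    have h1 : HP m (fun y => ∑ b, g y a b * (g y)⁻¹ b j)
        (∑ b, (g x a b * E b j + (g x)⁻¹ b j * D a b)) x :=
      HP.sum fun b => HP.mul ⟨df (hg a b), rfl⟩ ⟨df (cd_iv hp hg b j), rfl⟩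
    have h2 : (fun y => ∑ b, g y a b * (g y)⁻¹ b j) =ᶠ[𝓝 x] fun _ => (1 : Bil) a j := by
      filter_upwards [hp] with y hy
      have : (g y * (g y)⁻¹) a j = (1 : Bil) a j := by
        rw [Matrix.mul_nonsing_inv _ (isUnit_iff_ne_zero.2 hy.det_pos.ne')]
      rw [← this, Matrix.mul_apply]
    have h3 : pd m (fun y => ∑ b, g y a b * (g y)⁻¹ b j) x = 0 := by
      rw [pd_congr h2, pd_const]
    rw [h1.val] at h3
    rw [Matrix.add_apply, Matrix.mul_apply, Matrix.mul_apply, Matrix.zero_apply, ← h3,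
      ← Finset.sum_add_distrib]
    exact Finset.sum_congr rfl fun b _ => by ring
  have hunit : IsUnit (g x).det := isUnit_iff_ne_zero.2 hp.self_of_nhds.det_pos.ne'
  have hEe : E = -((g x)⁻¹ * D * (g x)⁻¹) := by
    have h1 : (g x)⁻¹ * (g x * E + D * (g x)⁻¹) = 0 := by rw [hprod, Matrix.mul_zero]
    rw [Matrix.mul_add, ← Matrix.mul_assoc, Matrix.nonsing_inv_mul _ hunit, Matrix.one_mul,
      ← Matrix.mul_assoc] at h1
    exact eq_neg_of_add_eq_zero_left h1
  have h4 : pd m (fun y => (g y)⁻¹ i j) x = E i j := rfl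
  rw [h4, hEe, Matrix.neg_apply, Matrix.mul_apply]
  unfold jdiv
  congr 1

theorem hp_low (m i j l : Fin 3) :
    HP m (fun y => pd i (fun y => g y j l) y + pd j (fun y => g y i l) y
      - pd l (fun y => g y i j) y) (jdlow (jet g k x) m i j l) x :=
  HP.sub (HP.add ⟨df (cd_pd (hg j l) i), rfl⟩ ⟨df (cd_pd (hg i l) j), rfl⟩)
    ⟨df (cd_pd (hg i j) l), rfl⟩

theorem hp_chr (m c i j : Fin 3) :
    HP m (christoffel g c i j) (jdchr (jet g k x) m c i j) x := by
  have h : HP m (fun y => (1 / 2) * ∑ l, (g y)⁻¹ c l * (pd i (fun y => g y j l) y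
      + pd j (fun y => g y i l) y - pd l (fun y => g y i j) y))
      (jdchr (jet g k x) m c i j) x :=
    HP.cmul _ (HP.sum fun l => HP.mul (hp_iv hp hg m c l) (hp_low hp hg m i j l))
  exact h

omit hp hg in
theorem chr_eq (c i j : Fin 3) : christoffel g c i j x = jchr (jet g k x) c i j := rfl

theorem ric_eq (i j : Fin 3) : ricci g i j x = jric (jet g k x) i j := by
  unfold ricci jric
  refine Finset.sum_congr rfl fun c _ => ?_
  rw [(hp_chr (k := k) hp hg c c i j).val, (hp_chr (k := k) hp hg j c i c).val]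
  rfl

theorem scal_eq : scalarCurvature g x = jscal (jet g k x) := by
  unfold scalarCurvature jscal
  refine Finset.sum_congr rfl fun i _ => Finset.sum_congr rfl fun j _ => ?_
  rw [ric_eq (k := k) hp hg]
  rfl

include hk

theorem hp_tr (m : Fin 3) : HP m (traceWith g k) (jdtr (jet g k x) m) x := by
  have h : HP m (fun y => ∑ i, ∑ j, (g y)⁻¹ i j * k y i j) (jdtr (jet g k x) m) x :=
    HP.sum fun i => HP.sum fun j => HP.mul (hp_iv hp hg m i j) ⟨df (hk i j), rfl⟩
  exact h

theorem hp_T (m i j : Fin 3) :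
    HP m (fun y => (k y - traceWith g k y • g y) i j) (jdT (jet g k x) m i j) x := by
  have h : HP m (fun y => k y i j - traceWith g k y * g y i j) (jdT (jet g k x) m i j) x :=
    HP.sub ⟨df (hk i j), rfl⟩ (HP.mul (hp_tr hp hg hk m) ⟨df (hg i j), rfl⟩)
  exact h

theorem mom_eq (j : Fin 3) : momentumDensity g k j x = jmom (jet g k x) j := by
  unfold momentumDensity divergence jmom
  refine Finset.sum_congr rfl fun i _ => Finset.sum_congr rfl fun c _ => ?_
  unfold covDeriv
  rw [(hp_T hp hg hk c i j).val]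
  rfl

theorem sur_eq : surplus g k x = jsur (jet g k x) := by
  unfold surplus energyDensity jlen ev jsur
  rw [scal_eq (k := k) hp hg]
  simp only [mom_eq hp hg hk]
  rfl

end Jet

end XJET

/-- The surplus is a continuous function of the jets. -/
theorem XJET : Stmt_XJET := by
  refine ⟨XJET.jsur, fun z hz => (XJET.ca_sur hz).continuousWithinAt, ?_⟩
  intro g k x hp hg _ hk
  exact XJET.sur_eq hp hg hk

end Pool.Agent.PFlow
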