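import Mathlib
import Pool.Agent.PFlow.StmtsX1

/-!
# Exterior regions: the leading parts of the derivatives of the modified data in the collar
-/

open MeasureTheory Filter Topology
open scoped ContDiff ENNReal

namespace Pool.Agent.PFlow

open Pool.Agent.PenroseSph

namespace XLEADaux

/-- The domain of the functions `P(s, x)`. -/
def UU (δ₀ : ℝ) : Set (ℝ × E3) := {z | z.2 ≠ 0 ∧ 1 - δ₀ < Real.exp z.1}

/-- A compact part of the domain. -/
def KK : Set (ℝ × E3) := Set.Icc (0 : ℝ) (1 / 8) ×ˢ {x : E3 | 1 ≤ ‖x‖ ∧ ‖x‖ ≤ 2}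

lemma isOpen_UU (δ₀ : ℝ) : IsOpen (UU δ₀) := by
  have h1 : IsOpen {z : ℝ × E3 | z.2 ≠ 0} := isOpen_ne.preimage continuous_snd
  have h2 : IsOpen {z : ℝ × E3 | 1 - δ₀ < Real.exp z.1} :=
    isOpen_lt continuous_const (Real.continuous_exp.comp continuous_fst)
  exact h1.inter h2

lemma isCompact_KK : IsCompact KK := by
  refine isCompact_Icc.prod ?_
  have h1 : {x : E3 | 1 ≤ ‖x‖ ∧ ‖x‖ ≤ 2} = Metric.closedBall (0 : E3) 2 ∩ {x : E3 | 1 ≤ ‖x‖} := by
    ext x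
    simp only [Set.mem_ofPred_eq, Set.mem_inter_iff, Metric.mem_closedBall, dist_zero_right]
    tauto
  rw [h1]
  exact (isCompact_closedBall (0 : E3) 2).inter_right (isClosed_le continuous_const continuous_norm)

lemma KK_subset {δ₀ : ℝ} (hδ : 0 < δ₀) : KK ⊆ UU δ₀ := by
  rintro ⟨s, x⟩ ⟨hs, hx⟩
  simp only [Set.mem_Icc, Set.mem_ofPred_eq] at hs hx
  refine ⟨?_, ?_⟩
  · intro h0
    simp only at h0
    rw [h0, norm_zero] at hx
    linarith [hx.1]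
  · have := Real.add_one_le_exp s
    simp only
    linarith [hs.1]

/-- The derivative in the first variable. -/
noncomputable def dS (P : ℝ × E3 → ℝ) (z : ℝ × E3) : ℝ := fderiv ℝ P z (1, 0)

/-- The derivative in the second variable. -/
noncomputable def dX (i : Fin 3) (P : ℝ × E3 → ℝ) (z : ℝ × E3) : ℝ :=
  fderiv ℝ P z (0, EuclideanSpace.single i 1)

lemma smooth_dir {U : Set (ℝ × E3)} (hU : IsOpen U) {P : ℝ × E3 → ℝ} (hP : ContDiffOn ℝ ∞ P U)
    (v : ℝ × E3) : ContDiffOn ℝ ∞ (fun z => fderiv ℝ P z v) U := by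
  have h1 : ContDiffOn ℝ ∞ (fderiv ℝ P) U := hP.fderiv_of_isOpen hU (by simp)
  exact h1.clm_apply contDiffOn_const

lemma smooth_dS {U : Set (ℝ × E3)} (hU : IsOpen U) {P : ℝ × E3 → ℝ} (hP : ContDiffOn ℝ ∞ P U) :
    ContDiffOn ℝ ∞ (dS P) U := smooth_dir hU hP _

lemma smooth_dX {U : Set (ℝ × E3)} (hU : IsOpen U) {P : ℝ × E3 → ℝ} (hP : ContDiffOn ℝ ∞ P U)
    (i : Fin 3) : ContDiffOn ℝ ∞ (dX i P) U := smooth_dir hU hP _

/-- The function `x_i / |x|²`. -/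
noncomputable def QQ (i : Fin 3) (z : ℝ × E3) : ℝ := z.2 i / ‖z.2‖ ^ 2

lemma smooth_QQ (δ₀ : ℝ) (i : Fin 3) : ContDiffOn ℝ ∞ (QQ i) (UU δ₀) := by
  have h1 : ContDiff ℝ ∞ (fun z : ℝ × E3 => z.2 i) := by fun_prop
  have h2 : ContDiff ℝ ∞ (fun z : ℝ × E3 => ‖z.2‖ ^ 2) := contDiff_snd.norm_sq ℝ
  refine h1.contDiffOn.div h2.contDiffOn ?_
  intro z hz
  have : ‖z.2‖ ≠ 0 := by simpa using hz.1
  positivity

lemma hasFDerivAt_logNorm {x : E3} (hx : x ≠ 0) :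
    HasFDerivAt (fun y : E3 => Real.log ‖y‖) ((‖x‖ ^ 2)⁻¹ • (innerSL ℝ x : E3 →L[ℝ] ℝ)) x := by
  have h1 : HasFDerivAt (fun y : E3 => ‖y‖ ^ 2) (2 • (innerSL ℝ x : E3 →L[ℝ] ℝ)) x :=
    (hasStrictFDerivAt_norm_sq x).hasFDerivAt
  have hx2 : ‖x‖ ^ 2 ≠ 0 := by
    have : ‖x‖ ≠ 0 := by simpa using hx
    positivity
  have h2 := (h1.log hx2).const_mul (1 / 2 : ℝ)
  have h3 : (fun y : E3 => (1 / 2 : ℝ) * Real.log (‖y‖ ^ 2)) = fun y => Real.log ‖y‖ := by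
    funext y
    rw [Real.log_pow]
    push_cast
    ring
  rw [h3] at h2
  refine h2.congr_fderiv ?_
  ext v
  simp only [FunLike.coe_smul, Pi.smul_apply, smul_eq_mul, nsmul_eq_mul]
  simp
  ring

lemma hasFDerivAt_pair {φ : ℝ → ℝ} (hφ : ContDiff ℝ ∞ φ) {x : E3} (hx : x ≠ 0) :
    HasFDerivAt (fun y : E3 => (φ (Real.log ‖y‖), y))
      ((deriv φ (Real.log ‖x‖) • ((‖x‖ ^ 2)⁻¹ • (innerSL ℝ x : E3 →L[ℝ] ℝ))).prod
        (ContinuousLinearMap.id ℝ E3)) x := by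
  have h1 : HasDerivAt φ (deriv φ (Real.log ‖x‖)) (Real.log ‖x‖) :=
    ((hφ.differentiable (by simp)) _).hasDerivAt
  exact (h1.comp_hasFDerivAt x (hasFDerivAt_logNorm hx)).prodMk (hasFDerivAt_id x)

lemma inner_single (x : E3) (i : Fin 3) :
    (innerSL ℝ x : E3 →L[ℝ] ℝ) (EuclideanSpace.single i 1) = x i := by
  simp [EuclideanSpace.inner_single_right]

lemma hasFDerivAt_comp {U : Set (ℝ × E3)} (hU : IsOpen U) {P : ℝ × E3 → ℝ}
    (hP : ContDiffOn ℝ ∞ P U) {φ : ℝ → ℝ} (hφ : ContDiff ℝ ∞ φ) {x : E3} (hx : x ≠ 0)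
    (hz : (φ (Real.log ‖x‖), x) ∈ U) :
    DifferentiableAt ℝ (fun y : E3 => P (φ (Real.log ‖y‖), y)) x ∧
    ∀ i, pd i (fun y : E3 => P (φ (Real.log ‖y‖), y)) x
      = deriv φ (Real.log ‖x‖) * (dS P (φ (Real.log ‖x‖), x) * QQ i (φ (Real.log ‖x‖), x))
        + dX i P (φ (Real.log ‖x‖), x) := by
  have hd : HasFDerivAt P (fderiv ℝ P (φ (Real.log ‖x‖), x)) (φ (Real.log ‖x‖), x) :=
    ((hP.contDiffAt (hU.mem_nhds hz)).differentiableAt (by simp)).hasFDerivAt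
  have hc := HasFDerivAt.comp (g := P) (f := fun y : E3 => (φ (Real.log ‖y‖), y)) x hd
    (hasFDerivAt_pair hφ hx)
  refine ⟨hc.differentiableAt, fun i => ?_⟩
  have he : fderiv ℝ (fun y : E3 => P (φ (Real.log ‖y‖), y)) x = _ := hc.fderiv
  unfold pd
  rw [he]
  simp only [ContinuousLinearMap.comp_apply, ContinuousLinearMap.prod_apply,
    smul_apply, ContinuousLinearMap.id_apply, inner_single, smul_eq_mul]
  have hs : ((deriv φ (Real.log ‖x‖) * ((‖x‖ ^ 2)⁻¹ * x i), EuclideanSpace.single i 1) : ℝ × E3)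
      = (deriv φ (Real.log ‖x‖) * ((‖x‖ ^ 2)⁻¹ * x i)) • ((1 : ℝ), (0 : E3))
        + ((0 : ℝ), (EuclideanSpace.single i 1 : E3)) := by
    ext <;> simp
  rw [hs, map_add, map_smul]
  unfold dS dX QQ
  simp only [smul_eq_mul]
  ring

lemma bound_KK {δ₀ : ℝ} (hδ : 0 < δ₀) {P : ℝ × E3 → ℝ} (hP : ContDiffOn ℝ ∞ P (UU δ₀)) :
    ∃ B : ℝ, 0 ≤ B ∧ ∀ z ∈ KK, |P z| ≤ B := by
  obtain ⟨B, hB⟩ := isCompact_KK.exists_bound_of_continuousOn (hP.continuousOn.mono (KK_subset hδ))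
  refine ⟨|B|, abs_nonneg _, fun z hz => ?_⟩
  have h1 := hB z hz
  rw [Real.norm_eq_abs] at h1
  exact h1.trans (le_abs_self _)

/-- The hypotheses on the profile at a point. -/
structure Prof (φ : ℝ → ℝ) (x : E3) : Prop where
  smooth : ContDiff ℝ ∞ φ
  norm_gt : 1 < ‖x‖
  norm_le : ‖x‖ ≤ 2
  nonneg : 0 ≤ φ (Real.log ‖x‖)
  le : φ (Real.log ‖x‖) ≤ 1 / 8
  deriv_le : |deriv φ (Real.log ‖x‖)| ≤ 1

lemma Prof.ne {φ : ℝ → ℝ} {x : E3} (h : Prof φ x) : x ≠ 0 := by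
  intro h0
  have := h.norm_gt
  rw [h0, norm_zero] at this
  linarith

lemma Prof.mem {φ : ℝ → ℝ} {x : E3} (h : Prof φ x) : (φ (Real.log ‖x‖), x) ∈ KK :=
  ⟨⟨h.nonneg, h.le⟩, h.norm_gt.le, h.norm_le⟩

lemma core {δ₀ : ℝ} (hδ : 0 < δ₀) {P : ℝ × E3 → ℝ} (hP : ContDiffOn ℝ ∞ P (UU δ₀)) :
    ∃ B : ℝ, 0 ≤ B ∧ ∀ (φ : ℝ → ℝ) (x : E3), Prof φ x → ∀ i,
      |pd i (fun y : E3 => P (φ (Real.log ‖y‖), y)) x| ≤ B ∧
      DifferentiableAt ℝ (fun y : E3 => deriv φ (Real.log ‖y‖) * P (φ (Real.log ‖y‖), y)) x ∧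
      |pd i (fun y : E3 => deriv φ (Real.log ‖y‖) * P (φ (Real.log ‖y‖), y)) x
        - deriv (deriv φ) (Real.log ‖x‖) * QQ i (φ (Real.log ‖x‖), x)
          * P (φ (Real.log ‖x‖), x)| ≤ B := by
  have hU := isOpen_UU δ₀
  have hb1 : ∀ i, ∃ B : ℝ, 0 ≤ B ∧ ∀ z ∈ KK, |dS P z * QQ i z| ≤ B := fun i =>
    bound_KK hδ ((smooth_dS hU hP).mul (smooth_QQ δ₀ i))
  have hb2 : ∀ i, ∃ B : ℝ, 0 ≤ B ∧ ∀ z ∈ KK, |dX i P z| ≤ B := fun i =>
    bound_KK hδ (smooth_dX hU hP i)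
  choose B1 h10 h1 using hb1
  choose B2 h20 h2 using hb2
  refine ⟨∑ i, (B1 i + B2 i), Finset.sum_nonneg fun i _ => add_nonneg (h10 i) (h20 i), ?_⟩
  intro φ x hx i
  have hmem := KK_subset hδ hx.mem
  obtain ⟨hd, hpd⟩ := hasFDerivAt_comp hU hP hx.smooth hx.ne hmem
  have hle : B1 i + B2 i ≤ ∑ i, (B1 i + B2 i) :=
    Finset.single_le_sum (f := fun i => B1 i + B2 i)
      (fun i _ => add_nonneg (h10 i) (h20 i)) (Finset.mem_univ i)
  have hW : |pd i (fun y : E3 => P (φ (Real.log ‖y‖), y)) x| ≤ B1 i + B2 i := by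
    rw [hpd i]
    refine (abs_add_le _ _).trans (add_le_add ?_ (h2 i _ hx.mem))
    rw [abs_mul]
    calc |deriv φ (Real.log ‖x‖)| * |dS P (φ (Real.log ‖x‖), x) * QQ i (φ (Real.log ‖x‖), x)|
        ≤ 1 * B1 i := mul_le_mul hx.deriv_le (h1 i _ hx.mem) (abs_nonneg _) zero_le_one
      _ = B1 i := one_mul _
  have hφ' : HasDerivAt (deriv φ) (deriv (deriv φ) (Real.log ‖x‖)) (Real.log ‖x‖) := by
    have h3 : ContDiff ℝ ∞ (deriv φ) := by
      exact (contDiff_infty_iff_deriv.1 hx.smooth).2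
    exact ((h3.differentiable (by simp)) _).hasDerivAt
  have hf1 : HasFDerivAt (fun y : E3 => deriv φ (Real.log ‖y‖))
      (deriv (deriv φ) (Real.log ‖x‖) • ((‖x‖ ^ 2)⁻¹ • (innerSL ℝ x : E3 →L[ℝ] ℝ))) x :=
    HasDerivAt.comp_hasFDerivAt (h₂ := deriv φ) (f := fun y : E3 => Real.log ‖y‖) x hφ'
      (hasFDerivAt_logNorm hx.ne)
  have hf2 : HasFDerivAt (fun y : E3 => deriv φ (Real.log ‖y‖) * P (φ (Real.log ‖y‖), y)) _ x :=
    hf1.mul hd.hasFDerivAt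
  refine ⟨hW.trans hle, hf2.differentiableAt, ?_⟩
  have he : pd i (fun y : E3 => deriv φ (Real.log ‖y‖) * P (φ (Real.log ‖y‖), y)) x
        - deriv (deriv φ) (Real.log ‖x‖) * QQ i (φ (Real.log ‖x‖), x)
          * P (φ (Real.log ‖x‖), x)
        = deriv φ (Real.log ‖x‖) * pd i (fun y : E3 => P (φ (Real.log ‖y‖), y)) x := by
    unfold pd
    rw [hf2.fderiv]
    simp only [add_apply, smul_apply, inner_single,
      smul_eq_mul]
    unfold QQ
    simp only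
    ring
  rw [he, abs_mul]
  calc |deriv φ (Real.log ‖x‖)| * |pd i (fun y : E3 => P (φ (Real.log ‖y‖), y)) x|
      ≤ 1 * (B1 i + B2 i) := mul_le_mul hx.deriv_le hW (abs_nonneg _) zero_le_one
    _ = B1 i + B2 i := one_mul _
    _ ≤ _ := hle

/-- The function `F(s, x) = (e^s/|x|)² G(e^s x/|x|)`. -/
noncomputable def FF (G : E3 → ℝ) (z : ℝ × E3) : ℝ :=
  (Real.exp z.1 / ‖z.2‖) ^ 2 * G ((Real.exp z.1 / ‖z.2‖) • z.2)

lemma smooth_fac (δ₀ : ℝ) :
    ContDiffOn ℝ ∞ (fun z : ℝ × E3 => Real.exp z.1 / ‖z.2‖) (UU δ₀) := by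
  have h1 : ContDiff ℝ ∞ (fun z : ℝ × E3 => Real.exp z.1) := Real.contDiff_exp.comp contDiff_fst
  refine h1.contDiffOn.div ?_ ?_
  · intro z hz
    exact (contDiffAt_snd.norm ℝ hz.1).contDiffWithinAt
  · intro z hz
    simpa using hz.1

lemma norm_pt {s : ℝ} {x : E3} (hx : x ≠ 0) : ‖(Real.exp s / ‖x‖) • x‖ = Real.exp s := by
  have : ‖x‖ ≠ 0 := by simpa using hx
  rw [norm_smul, Real.norm_eq_abs, abs_of_nonneg (by positivity)]
  field_simp

lemma smooth_FF {δ₀ : ℝ} {G : E3 → ℝ} (hG : ContDiffOn ℝ ∞ G (Outside δ₀)) :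
    ContDiffOn ℝ ∞ (FF G) (UU δ₀) := by
  have h1 := smooth_fac δ₀
  have h2 : ContDiffOn ℝ ∞ (fun z : ℝ × E3 => (Real.exp z.1 / ‖z.2‖) • z.2) (UU δ₀) :=
    h1.smul contDiff_snd.contDiffOn
  have h3 : Set.MapsTo (fun z : ℝ × E3 => (Real.exp z.1 / ‖z.2‖) • z.2) (UU δ₀) (Outside δ₀) := by
    intro z hz
    show 1 - δ₀ < ‖(Real.exp z.1 / ‖z.2‖) • z.2‖
    rw [norm_pt hz.1]
    exact hz.2
  exact (h1.pow 2).mul (hG.comp h2 h3)

lemma isOpen_Outside (δ₀ : ℝ) : IsOpen (Outside δ₀) :=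
  isOpen_lt continuous_const continuous_norm

lemma fderiv_eq_sum (G : E3 → ℝ) (y v : E3) : fderiv ℝ G y v = ∑ m, v m * pd m G y := by
  have hv : v = ∑ m, v m • (EuclideanSpace.single m 1 : E3) := by
    ext j
    simp [Finset.sum_apply, Pi.single_apply]
  conv_lhs => rw [hv]
  rw [map_sum]
  refine Finset.sum_congr rfl fun m _ => ?_
  rw [map_smul, smul_eq_mul]
  rfl

lemma dS_FF {δ₀ : ℝ} {G : E3 → ℝ} (hG : ContDiffOn ℝ ∞ G (Outside δ₀)) {s : ℝ} {x : E3}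
    (hz : (s, x) ∈ UU δ₀) :
    dS (FF G) (s, x) = (Real.exp s / ‖x‖) ^ 2 * (2 * G ((Real.exp s / ‖x‖) • x)
      + ∑ m, ((Real.exp s / ‖x‖) • x) m * pd m G ((Real.exp s / ‖x‖) • x)) := by
  have hx0 : x ≠ 0 := hz.1
  have hU := isOpen_UU δ₀
  have hd : HasFDerivAt (FF G) (fderiv ℝ (FF G) (s, x)) (s, x) :=
    (((smooth_FF hG).contDiffAt (hU.mem_nhds hz)).differentiableAt (by simp)).hasFDerivAt
  have h1 : HasDerivAt (fun t : ℝ => (t, x)) ((1 : ℝ), (0 : E3)) s :=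
    (hasDerivAt_id s).prodMk (hasDerivAt_const s x)
  have h2 : HasDerivAt (fun t : ℝ => FF G (t, x)) (dS (FF G) (s, x)) s :=
    hd.comp_hasDerivAt (f := fun t : ℝ => (t, x)) s h1
  set y : E3 := (Real.exp s / ‖x‖) • x with hy
  have hyO : y ∈ Outside δ₀ := by
    show 1 - δ₀ < ‖y‖
    rw [hy, norm_pt hx0]
    exact hz.2
  have hG' : HasFDerivAt G (fderiv ℝ G y) y :=
    ((hG.contDiffAt ((isOpen_Outside δ₀).mem_nhds hyO)).differentiableAt (by simp)).hasFDerivAt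
  have h3 : HasDerivAt (fun t : ℝ => Real.exp t / ‖x‖) (Real.exp s / ‖x‖) s :=
    (Real.hasDerivAt_exp s).div_const _
  have h4 : HasDerivAt (fun t : ℝ => (Real.exp t / ‖x‖) • x) y s := h3.smul_const x
  have h5 : HasDerivAt (fun t : ℝ => G ((Real.exp t / ‖x‖) • x)) (fderiv ℝ G y y) s :=
    hG'.comp_hasDerivAt (f := fun t : ℝ => (Real.exp t / ‖x‖) • x) s h4
  have h6 := (h3.pow 2).mul h5
  have h7 : dS (FF G) (s, x) = _ := h2.unique h6
  rw [h7, ← fderiv_eq_sum]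
  simp only [Pi.pow_apply]
  push_cast
  ring

end XLEADaux

open XLEADaux in
theorem XLEAD (hXPHI : Stmt_XPHI) : Stmt_XLEAD := by
  intro g δ₀ δ hδ₀ hδ hδ2 hexp hg k hk
  obtain ⟨C0, hC0, hphi⟩ := hXPHI δ hδ hδ2
  -- the functions
  have hU := isOpen_UU δ₀
  have hPg : ∀ m n, ContDiffOn ℝ ∞ (FF (fun y => g y m n)) (UU δ₀) := fun m n =>
    smooth_FF (hg.smooth m n)
  have hPk : ∀ m n, ContDiffOn ℝ ∞ (FF (fun y => k y m n)) (UU δ₀) := fun m n =>
    smooth_FF (hk.smooth m n)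
  have hc0 : ∀ m n, ∃ B : ℝ, 0 ≤ B ∧ ∀ (φ : ℝ → ℝ) (x : E3), Prof φ x → ∀ i,
      |pd i (fun y : E3 => FF (fun y => k y m n) (φ (Real.log ‖y‖), y)) x| ≤ B ∧
      DifferentiableAt ℝ (fun y : E3 => deriv φ (Real.log ‖y‖)
        * FF (fun y => k y m n) (φ (Real.log ‖y‖), y)) x ∧
      |pd i (fun y : E3 => deriv φ (Real.log ‖y‖)
        * FF (fun y => k y m n) (φ (Real.log ‖y‖), y)) x
        - deriv (deriv φ) (Real.log ‖x‖) * QQ i (φ (Real.log ‖x‖), x)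
          * FF (fun y => k y m n) (φ (Real.log ‖x‖), x)| ≤ B := fun m n => core hδ₀ (hPk m n)
  have hc1 : ∀ j m n, ∃ B : ℝ, 0 ≤ B ∧ ∀ (φ : ℝ → ℝ) (x : E3), Prof φ x → ∀ i,
      |pd i (fun y : E3 => (fun z => dS (FF (fun y => g y m n)) z * QQ j z)
        (φ (Real.log ‖y‖), y)) x| ≤ B ∧
      DifferentiableAt ℝ (fun y : E3 => deriv φ (Real.log ‖y‖)
        * (fun z => dS (FF (fun y => g y m n)) z * QQ j z) (φ (Real.log ‖y‖), y)) x ∧
      |pd i (fun y : E3 => deriv φ (Real.log ‖y‖)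
        * (fun z => dS (FF (fun y => g y m n)) z * QQ j z) (φ (Real.log ‖y‖), y)) x
        - deriv (deriv φ) (Real.log ‖x‖) * QQ i (φ (Real.log ‖x‖), x)
          * (fun z => dS (FF (fun y => g y m n)) z * QQ j z) (φ (Real.log ‖x‖), x)| ≤ B :=
    fun j m n => core hδ₀ ((smooth_dS hU (hPg m n)).mul (smooth_QQ δ₀ j))
  have hc2 : ∀ j m n, ∃ B : ℝ, 0 ≤ B ∧ ∀ (φ : ℝ → ℝ) (x : E3), Prof φ x → ∀ i,
      |pd i (fun y : E3 => dX j (FF (fun y => g y m n)) (φ (Real.log ‖y‖), y)) x| ≤ B ∧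
      DifferentiableAt ℝ (fun y : E3 => deriv φ (Real.log ‖y‖)
        * dX j (FF (fun y => g y m n)) (φ (Real.log ‖y‖), y)) x ∧
      |pd i (fun y : E3 => deriv φ (Real.log ‖y‖)
        * dX j (FF (fun y => g y m n)) (φ (Real.log ‖y‖), y)) x
        - deriv (deriv φ) (Real.log ‖x‖) * QQ i (φ (Real.log ‖x‖), x)
          * dX j (FF (fun y => g y m n)) (φ (Real.log ‖x‖), x)| ≤ B :=
    fun j m n => core hδ₀ (smooth_dX hU (hPg m n) j)
  choose B0 hB00 hB0 using hc0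
  choose B1 hB10 hB1 using hc1
  choose B2 hB20 hB2 using hc2
  have hS0 : ∀ m n, B0 m n ≤ ∑ m, ∑ n, B0 m n := fun m n =>
    (Finset.single_le_sum (f := fun n => B0 m n) (fun n _ => hB00 m n) (Finset.mem_univ n)).trans
      (Finset.single_le_sum (f := fun m => ∑ n, B0 m n)
        (fun m _ => Finset.sum_nonneg fun n _ => hB00 m n) (Finset.mem_univ m))
  have hS12 : ∀ j m n, B1 j m n + B2 j m n ≤ ∑ j, ∑ m, ∑ n, (B1 j m n + B2 j m n) := fun j m n =>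
    ((Finset.single_le_sum (f := fun n => B1 j m n + B2 j m n)
      (fun n _ => add_nonneg (hB10 j m n) (hB20 j m n)) (Finset.mem_univ n)).trans
      (Finset.single_le_sum (f := fun m => ∑ n, (B1 j m n + B2 j m n))
        (fun m _ => Finset.sum_nonneg fun n _ => add_nonneg (hB10 j m n) (hB20 j m n))
        (Finset.mem_univ m))).trans
      (Finset.single_le_sum (f := fun j => ∑ m, ∑ n, (B1 j m n + B2 j m n))
        (fun j _ => Finset.sum_nonneg fun m _ => Finset.sum_nonneg fun n _ =>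
          add_nonneg (hB10 j m n) (hB20 j m n)) (Finset.mem_univ j))
  have hN0 : 0 ≤ ∑ m, ∑ n, B0 m n := (hB00 0 0).trans (hS0 0 0)
  have hN12 : 0 ≤ ∑ j, ∑ m, ∑ n, (B1 j m n + B2 j m n) :=
    (add_nonneg (hB10 0 0 0) (hB20 0 0 0)).trans (hS12 0 0 0)
  refine ⟨1 + ∑ m, ∑ n, B0 m n + ∑ j, ∑ m, ∑ n, (B1 j m n + B2 j m n), by linarith, ?_⟩
  intro τ hτ hτδ x hx1 hxτ
  obtain ⟨hsm, -, hran, -, hder0, hder1, -⟩ := hphi τ hτ hτδ
  have hlogpos : 0 < Real.log ‖x‖ := Real.log_pos hx1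
  have hlogle : Real.log ‖x‖ ≤ τ := by
    have := Real.log_le_log (by linarith) hxτ
    rwa [Real.log_exp] at this
  have hx0 : x ≠ 0 := by
    intro h0
    rw [h0, norm_zero] at hx1
    linarith
  have hnx : ‖x‖ ≠ 0 := by simpa using hx0
  have hprof : Prof (phX τ δ) x := by
    refine ⟨hsm, hx1, ?_, (hran _ hlogpos.le).1, ?_, ?_⟩
    · have h1 : Real.exp τ ≤ Real.exp (1 / 8) := Real.exp_le_exp.2 (by linarith)
      have h2 : Real.exp (1 / 8 : ℝ) ≤ 2 := by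
        have h3 := Real.exp_one_lt_d9
        have h4 : Real.exp (1 / 8 : ℝ) ^ 8 = Real.exp 1 := by
          rw [← Real.exp_nat_mul]
          norm_num
        by_contra h5
        rw [not_le] at h5
        have h6 : (2 : ℝ) ^ 8 < Real.exp (1 / 8 : ℝ) ^ 8 :=
          pow_lt_pow_left₀ h5 (by norm_num) (by norm_num)
        rw [h4] at h6
        norm_num at h6
        linarith
      linarith
    · have := (hran _ hlogpos.le).2.1
      linarith
    · rw [abs_le]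
      exact ⟨by linarith [(hder0 (Real.log ‖x‖)).1], (hder1 _ hlogle).1⟩
  -- the neighbourhood
  have hopen : ∀ᶠ y : E3 in 𝓝 x, 1 < ‖y‖ := (isOpen_lt continuous_const continuous_norm).mem_nhds hx1
  have hUy : ∀ y : E3, 1 < ‖y‖ → (phX τ δ (Real.log ‖y‖), y) ∈ UU δ₀ := by
    intro y hy
    refine ⟨?_, ?_⟩
    · intro h0
      simp only at h0
      rw [h0, norm_zero] at hy
      linarith
    · have h1 := (hran _ (Real.log_pos hy).le).1
      have h2 := Real.add_one_le_exp (phX τ δ (Real.log ‖y‖))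
      simp only
      linarith
  have hGeq : ∀ (m n : Fin 3) (y : E3), 1 < ‖y‖ → colG τ δ g y m n
      = FF (fun y => g y m n) (phX τ δ (Real.log ‖y‖), y) := by
    intro m n y hy
    unfold colG FF facX
    rw [if_pos hy.le]
    simp only [Matrix.smul_apply, smul_eq_mul]
  have hHeq : ∀ (m n : Fin 3) (y : E3), 1 < ‖y‖ → colH τ δ k y m n
      = deriv (phX τ δ) (Real.log ‖y‖) * FF (fun y => k y m n) (phX τ δ (Real.log ‖y‖), y) := by
    intro m n y hy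
    unfold colH FF facX
    rw [if_pos hy.le]
    simp only [Matrix.smul_apply, smul_eq_mul]
    ring
  refine ⟨fun i j m n => ?_, fun i m n => ?_⟩
  · have hpj : ∀ y : E3, 1 < ‖y‖ → pd j (fun y => colG τ δ g y m n) y
        = deriv (phX τ δ) (Real.log ‖y‖) * (fun z => dS (FF (fun y => g y m n)) z * QQ j z)
            (phX τ δ (Real.log ‖y‖), y)
          + dX j (FF (fun y => g y m n)) (phX τ δ (Real.log ‖y‖), y) := by
      intro y hy
      have hy0 : y ≠ 0 := (hUy y hy).1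
      have h1 : (fun y => colG τ δ g y m n)
          =ᶠ[𝓝 y] (fun y => FF (fun y => g y m n) (phX τ δ (Real.log ‖y‖), y)) := by
        have h2 : ∀ᶠ w : E3 in 𝓝 y, 1 < ‖w‖ :=
          (isOpen_lt continuous_const continuous_norm).mem_nhds hy
        filter_upwards [h2] with w hw
        exact hGeq m n w hw
      unfold pd
      rw [h1.fderiv_eq]
      exact (hasFDerivAt_comp hU (hPg m n) hsm hy0 (hUy y hy)).2 j
    have h3 : pd i (pd j (fun y => colG τ δ g y m n)) x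
        = pd i (fun y => deriv (phX τ δ) (Real.log ‖y‖)
            * (fun z => dS (FF (fun y => g y m n)) z * QQ j z) (phX τ δ (Real.log ‖y‖), y)) x
          + pd i (fun y => dX j (FF (fun y => g y m n)) (phX τ δ (Real.log ‖y‖), y)) x := by
      have h4 : pd j (fun y => colG τ δ g y m n) =ᶠ[𝓝 x]
          (fun y => deriv (phX τ δ) (Real.log ‖y‖)
            * (fun z => dS (FF (fun y => g y m n)) z * QQ j z) (phX τ δ (Real.log ‖y‖), y))
          + (fun y => dX j (FF (fun y => g y m n)) (phX τ δ (Real.log ‖y‖), y)) := by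
        filter_upwards [hopen] with w hw
        exact hpj w hw
      unfold pd
      unfold pd at h4
      rw [h4.fderiv_eq, fderiv_add (hB1 j m n _ x hprof i).2.1
        (hasFDerivAt_comp hU (smooth_dX hU (hPg m n) j) hsm hx0 (hUy x hx1)).1]
      rfl
    have h5 := (hB1 j m n _ x hprof i).2.2
    have h6 := (hB2 j m n _ x hprof i).1
    have h7 := hS12 j m n
    have h8 : deriv (deriv (phX τ δ)) (Real.log ‖x‖) * (x i * x j / ‖x‖ ^ 4) *
            (facX τ δ x ^ 2 * eulG g (facX τ δ x • x) m n)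
        = deriv (deriv (phX τ δ)) (Real.log ‖x‖) * QQ i (phX τ δ (Real.log ‖x‖), x)
          * (fun z => dS (FF (fun y => g y m n)) z * QQ j z) (phX τ δ (Real.log ‖x‖), x) := by
      simp only
      rw [dS_FF (hg.smooth m n) (hUy x hx1)]
      unfold QQ facX eulG
      simp only [Matrix.of_apply]
      field_simp
    rw [h3, h8]
    rw [abs_le] at h5 h6 ⊢
    constructor <;> linarith [h5.1, h5.2, h6.1, h6.2]
  · have h1 : (fun y => colH τ δ k y m n)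
        =ᶠ[𝓝 x] (fun y => deriv (phX τ δ) (Real.log ‖y‖)
          * FF (fun y => k y m n) (phX τ δ (Real.log ‖y‖), y)) := by
      filter_upwards [hopen] with w hw
      exact hHeq m n w hw
    have h2 : pd i (fun y => colH τ δ k y m n) x = pd i (fun y => deriv (phX τ δ) (Real.log ‖y‖)
          * FF (fun y => k y m n) (phX τ δ (Real.log ‖y‖), y)) x := by
      unfold pd
      rw [h1.fderiv_eq]
    have h5 := (hB0 m n _ x hprof i).2.2
    have h7 := hS0 m n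
    have h8 : deriv (deriv (phX τ δ)) (Real.log ‖x‖) * (x i / ‖x‖ ^ 2) *
            (facX τ δ x ^ 2 * k (facX τ δ x • x) m n)
        = deriv (deriv (phX τ δ)) (Real.log ‖x‖) * QQ i (phX τ δ (Real.log ‖x‖), x)
          * FF (fun y => k y m n) (phX τ δ (Real.log ‖x‖), x) := rfl
    rw [h2, h8]
    rw [abs_le] at h5 ⊢
    constructor <;> linarith [h5.1, h5.2]

end Pool.Agent.PFlow
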