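import Pool.Agent.PFlow.StmtsX1
import Pool.Agent.PFlow.StmtsX2
import Pool.Agent.PFlow.E.LIMK2

/-!
# Exterior regions: the mean of `|k|` over large shells (XLIMK)
-/

open MeasureTheory Filter Topology
open scoped ContDiff ENNReal

namespace Pool.Agent.PFlow

open Pool.Agent.PenroseSph

namespace XLK

theorem mem_outside {δ : ℝ} (hδ : 0 < δ) {x : E3} (hx : 1 ≤ ‖x‖) : x ∈ Outside δ := by
  show 1 - δ < ‖x‖
  linarith

theorem nsq_h (hH : Stmt_HATA) {g k : TensorField} {δ : ℝ} (hδ : 0 < δ)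
    (hg : MetricOn (Outside δ) g) (hk : TensorOn (Outside δ) k) (hS : PlaneSignX g k)
    {x : E3} (hx : 1 ≤ ‖x‖) : nsq g x (k x) ≤ 3 * trg g x (k x) ^ 2 := by
  have hgx := hg.posDef x (mem_outside hδ hx)
  have hs := hk.symm x (mem_outside hδ hx)
  rcases hS x hx with h1 | h1
  · exact (hH g x (k x) hgx hs h1).2
  · have h2 := (hH g x (-k x) hgx hs.neg fun v hv => by
      rw [LK.ev_neg, LK.trg_neg]
      exact neg_le_neg (h1 v hv)).2
    rw [LK.nsq_neg, LK.trg_neg, neg_sq] at h2
    exact h2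

end XLK

/-- XLIMK: the mean of `|k|` over large shells. -/
theorem XLIMK (hXAFD : Stmt_XAFD) (hHATA : Stmt_HATA) (hXTINT : Stmt_XTINT) : Stmt_XLIMK := by
  intro g k δ₀ hδ hg hk hdec hD hS hF
  rcases hF with hF | hF
  swap
  · exact hF
  obtain ⟨C, hC, -, hell⟩ := hXAFD g k δ₀ hδ hg hk hdec
  have hI := hXTINT g k δ₀ hδ hg hk hdec hD hS hF
  have hpt : ∀ x : E3, 1 ≤ ‖x‖ → msz (k x) ≤ 2 * C * |trg g x (k x)| := by
    intro x hx
    have h1 := LK.msq_le hC (hg.posDef x (XLK.mem_outside hδ hx)) (fun v => (hell x hx v).2) (k x)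
    have h2 := XLK.nsq_h hHATA hδ hg hk hS hx
    unfold msz
    rw [Real.sqrt_le_left (by positivity)]
    have h3 := sq_abs (trg g x (k x))
    have h4 := mul_le_mul_of_nonneg_left h2 (sq_nonneg C)
    have h5 : 0 ≤ C ^ 2 * trg g x (k x) ^ 2 := by positivity
    calc ∑ i, ∑ j, k x i j ^ 2 ≤ C ^ 2 * nsq g x (k x) := h1
      _ ≤ C ^ 2 * (3 * trg g x (k x) ^ 2) := h4
      _ ≤ 4 * (C ^ 2 * trg g x (k x) ^ 2) := by linarith
      _ = (2 * C * |trg g x (k x)|) ^ 2 := by rw [mul_pow, mul_pow, h3]; ring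
  have hlim := (LK.shell_tendsto hI).const_mul (2 * C)
  rw [mul_zero] at hlim
  refine squeeze_zero' ?_ ?_ hlim
  · filter_upwards [eventually_gt_atTop (0 : ℝ)] with l hl
    refine integral_nonneg fun x => ?_
    unfold msz
    positivity
  · filter_upwards [eventually_ge_atTop (2 : ℝ)] with l hl
    have hA : MeasurableSet (cAnn (l / 2) l) :=
      (measurableSet_le measurable_const measurable_norm).inter
        (measurableSet_le measurable_norm measurable_const)
    rw [← integral_const_mul]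
    refine integral_mono_of_nonneg ?_ ?_ ?_
    · refine Eventually.of_forall fun x => ?_
      simp only [Pi.zero_apply]
      unfold msz
      positivity
    · refine Integrable.const_mul ?_ _
      refine hI.mono_set fun x hx => ?_
      have h1 : l / 2 ≤ ‖x‖ := hx.1
      show 1 ≤ ‖x‖
      linarith
    · refine (ae_restrict_mem hA).mono fun x hx => ?_
      have h1 : l / 2 ≤ ‖x‖ := hx.1
      have h2 : ‖x‖ ≤ l := hx.2
      have h3 : 0 < ‖x‖ := by linarith
      simp only
      calc msz (k x) / l ≤ (2 * C * |trg g x (k x)|) / l := by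
            gcongr
            exact hpt x (by linarith)
        _ ≤ (2 * C * |trg g x (k x)|) / ‖x‖ := by gcongr
        _ = _ := by ring

end Pool.Agent.PFlow
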