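import Pool.Agent.PFlow.StmtsX2
import Pool.Agent.PFlow.E.LOC

/-!
# Location of the level sets in the exterior case

The solution is compared with the radial barriers `(Φ₊(|x|) - Φ₊(2R)) / Φ₊(1)` (from below)
and `Φ₋(|x|) / Φ₋(1)` (from above).
-/

open MeasureTheory Filter Topology
open scoped ContDiff ENNReal

namespace Pool.Agent.PFlow

open Pool.Agent.PenroseSph

namespace XLoc

open Loc

theorem norm_inversion' (x : E3) (hx : x ≠ 0) : ‖inversion x‖ = ‖x‖⁻¹ := by
  unfold inversion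
  rw [norm_smul, norm_inv, norm_pow, norm_norm]
  have : ‖x‖ ≠ 0 := norm_ne_zero_iff.mpr hx
  field_simp

variable {p q E : ℝ} {Φ : ℝ → ℝ}

/-- Lower bound of the lower barrier far out. -/
theorem lower_out (h : Facts p q E Φ) (hp : 1 ≤ p) (hq : 0 < q) (hE : 0 < E) {r R : ℝ}
    (hr : 1 ≤ r) (hR : 2 * r ≤ R) :
    q / (8 * E) * r ^ (-p) ≤ 1 / Φ 1 * (Φ r - Φ (2 * R)) := by
  have hp0 : 0 < p := by linarith
  have h1 := h.dlow1 r (2 * R) hr (by linarith)
  have h0 : 0 < Φ 1 := h.pos hp0 hq zero_le_one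
  have h0u := h.upp 1 le_rfl
  rw [Real.one_rpow, mul_one] at h0u
  have hr0 : 0 < r := by linarith
  have h3 : (2 * R) ^ (-p) ≤ r ^ (-p) / 2 := by
    calc (2 * R) ^ (-p) ≤ (2 * r) ^ (-p) :=
          Real.rpow_le_rpow_of_nonpos (by positivity) (by linarith) (by linarith)
      _ = 2 ^ (-p) * r ^ (-p) := Real.mul_rpow (by norm_num) (by linarith)
      _ ≤ 2 ^ (-(1 : ℝ)) * r ^ (-p) := by
          gcongr
          norm_num
      _ = r ^ (-p) / 2 := by
          rw [Real.rpow_neg_one]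
          ring
  have hsp : 0 < r ^ (-p) := by positivity
  have h4 : q * r ^ (-p) / (2 * p) ≤ Φ r - Φ (2 * R) := by
    have h5 : q * (r ^ (-p) / 2) / p ≤ q * (r ^ (-p) - (2 * R) ^ (-p)) / p := by
      gcongr
      linarith
    have h6 : q * (r ^ (-p) / 2) / p = q * r ^ (-p) / (2 * p) := by ring
    linarith
  have h5 : p / (4 * E) ≤ 1 / Φ 1 := by
    rw [div_le_div_iff₀ (by positivity) h0]
    have h6 : p * Φ 1 ≤ E := by
      have := mul_le_mul_of_nonneg_left h0u hp0.le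
      have h7 : p * (E / p) = E := by field_simp
      linarith
    linarith
  calc q / (8 * E) * r ^ (-p) = p / (4 * E) * (q * r ^ (-p) / (2 * p)) := by
        field_simp
        ring
    _ ≤ 1 / Φ 1 * (Φ r - Φ (2 * R)) := by
        gcongr

/-- Upper bound of the upper barrier far out. -/
theorem upper_out (h : Facts p q E Φ) (hp : 1 ≤ p) (hq : 0 < q) (hE : 0 < E) {r : ℝ}
    (hr : 1 ≤ r) : 1 / Φ 1 * Φ r ≤ E / q * r ^ (-p) := by
  have hp0 : 0 < p := by linarith
  have h1 := h.upp r hr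
  have h3 := h.low 1 le_rfl
  rw [Real.one_rpow, mul_one] at h3
  have h0 : 0 < Φ 1 := h.pos hp0 hq zero_le_one
  have h5 : 0 < q / p := by positivity
  have h6 : 1 / Φ 1 ≤ p / q := by
    rw [div_le_div_iff₀ h0 hq]
    have h7 : q / p * p ≤ Φ 1 * p := mul_le_mul_of_nonneg_right (by linarith) hp0.le
    have h8 : q / p * p = q := by field_simp
    linarith
  have h7 : 0 < Φ r := h.pos hp0 hq (by linarith)
  have h8 : 1 / Φ 1 * Φ r ≤ p / q * (E * r ^ (-p) / p) := by gcongr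
  have h9 : p / q * (E * r ^ (-p) / p) = E / q * r ^ (-p) := by field_simp
  rw [h9] at h8
  exact h8

end XLoc

open Loc XLoc in
theorem XLOC (hPHI : Stmt_PHI) (hBARR : Stmt_BARR) : Stmt_XLOC := by
  intro ε C hε hε1 hC
  have hp3 := pe_ge ε hε hε1
  have hεp := mul_pe ε hε
  set p := pe ε with hp
  set q := 2 ^ (-p) * Real.exp (-((C + 1) * Real.pi / (2 * ε))) with hq
  set E := Real.exp ((C + 1) * Real.pi / (2 * ε)) with hE
  have hC1 : 0 ≤ C + 1 := by linarith
  have hp0 : 0 < p := by linarith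
  have hp1 : 1 ≤ p := by linarith
  have hq0 : 0 < q := by positivity
  have hE1 : 1 ≤ E := Real.one_le_exp (by positivity)
  have hE0 : 0 < E := by linarith
  have hq1 : q ≤ 1 := by
    have h1 : (2 : ℝ) ^ (-p) ≤ 1 := Real.rpow_le_one_of_one_le_of_nonpos (by norm_num) (by linarith)
    have h2 : Real.exp (-((C + 1) * Real.pi / (2 * ε))) ≤ 1 := by
      rw [Real.exp_le_one_iff]
      have : 0 ≤ (C + 1) * Real.pi / (2 * ε) := by positivity
      linarith
    calc q ≤ 1 * 1 := by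
          rw [hq]
          gcongr
      _ = 1 := by ring
  have hFp : Facts p q E (phiB ε 1 (C + 1)) := facts hPHI ε (C + 1) 1 hε hε1 hC1 (Or.inl rfl)
  have hFm : Facts p q E (phiB ε (-1) (C + 1)) :=
    facts hPHI ε (C + 1) (-1) hε hε1 hC1 (Or.inr rfl)
  have hcont : ContinuousAt (phiB ε 1 (C + 1)) 1 :=
    ((hPHI ε (C + 1) 1 hε hε1 hC1 (Or.inl rfl)).2.1 1 one_pos).2.1.continuousAt
  set Φp := phiB ε 1 (C + 1) with hΦp
  set Φm := phiB ε (-1) (C + 1) with hΦm
  have hP1 : 0 < Φp 1 := hFp.pos hp0 hq0 zero_le_one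
  have hM1 : 0 < Φm 1 := hFm.pos hp0 hq0 zero_le_one
  -- the constants
  set A : ℝ := 8 * E / q with hA
  have hA1 : 1 ≤ A := by
    rw [hA, le_div_iff₀ hq0]
    linarith
  have hlogA : 0 ≤ Real.log A := Real.log_nonneg hA1
  set γ : ℝ := ε * Real.log A + 2 with hγ
  set c : ℝ := 1 - 1 / Φm 1 * Φm (3 / 2) with hc
  have hc0 : 0 < c := by
    have h1 : Φm (3 / 2) < Φm 1 := hFm.anti 1 (3 / 2) zero_le_one (by norm_num)
    have h2 : 1 / Φm 1 * Φm (3 / 2) < 1 := by
      rw [one_div, inv_mul_lt_iff₀ hM1, mul_one]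
      exact h1
    linarith
  set a : ℝ := Real.exp (-(1 / 2)) with ha
  have ha0 : 0 < a := Real.exp_pos _
  have ha1 : a < 1 := by
    rw [ha, Real.exp_lt_one_iff]
    norm_num
  set b : ℝ := (1 + a) / 2 with hb
  have hab : a < b := by
    rw [hb]
    linarith
  have hb1 : b < 1 := by
    rw [hb]
    linarith
  obtain ⟨τ₀, hτ₀, hτ₀1, hτ₀b⟩ : ∃ τ₀ : ℝ, 0 < τ₀ ∧ τ₀ ≤ 1 / 10 ∧
      b * Φp 1 < Φp (Real.exp τ₀) := by
    have hcont' : ContinuousAt Φp (Real.exp 0) := by
      rw [Real.exp_zero]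
      exact hcont
    have h1 : ContinuousAt (fun t : ℝ => Φp (Real.exp t)) 0 :=
      ContinuousAt.comp (g := Φp) (f := Real.exp) hcont' Real.continuous_exp.continuousAt
    have h2 : b * Φp 1 < (fun t : ℝ => Φp (Real.exp t)) 0 := by
      simp only [Real.exp_zero]
      nlinarith
    have h3 : ∀ᶠ t in 𝓝 (0 : ℝ), b * Φp 1 < Φp (Real.exp t) := h1.eventually (lt_mem_nhds h2)
    obtain ⟨δ, hδ, h4⟩ := Metric.eventually_nhds_iff.mp h3
    refine ⟨min (δ / 2) (1 / 10), by positivity, min_le_right _ _, h4 ?_⟩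
    rw [Real.dist_eq, sub_zero, abs_of_pos (by positivity)]
    exact (min_le_left _ _).trans_lt (by linarith)
  refine ⟨c, γ, τ₀, hc0, by have := mul_nonneg hε.le hlogA; linarith, hτ₀, hτ₀1, ?_⟩
  intro l hl
  have hl0 : 0 < l := by linarith
  refine ⟨16 * l + E / ((b - a) * q), ?_, ?_⟩
  · have h1 : 0 ≤ E / ((b - a) * q) :=
      div_nonneg hE0.le (mul_nonneg (by linarith) hq0.le)
    linarith
  intro τ R hτ hττ hR g h u G M hg hbar sol
  have hba : 0 < b - a := by linarith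
  have hRa : 16 * l ≤ R := by
    have h1 : 0 ≤ E / ((b - a) * q) := by positivity
    linarith
  have hRb : E / ((b - a) * q) ≤ R := by linarith
  have hR16 : 128 ≤ R := by linarith
  have hR0 : 0 < R := by linarith
  -- the lower barrier
  have hx0 : ∀ x : E3, 1 ≤ ‖x‖ → x ≠ 0 := by
    intro x hx h0
    rw [h0, norm_zero] at hx
    linarith
  have hlower : ∀ x : E3, 1 ≤ ‖x‖ → ‖x‖ < R → 1 / Φp 1 * (Φp ‖x‖ - Φp (2 * R)) ≤ u x := by
    have hk : 0 < 1 / Φp 1 := by positivity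
    refine sol.sub (fun y => 1 / Φp 1 * (Φp ‖y‖ - Φp (2 * R))) ?_ ?_ ?_
    · intro y hy1 hy2
      have h1 := hBARR ε C g h y hε hε1 hC.le (hx0 y hy1) (hg.posDef y (Set.mem_univ y))
        (hbar y hy1) 1 (Or.inl rfl)
      refine ⟨contDiffAt_const.mul (h1.1.sub contDiffAt_const), ?_, h1.2.2.1 rfl _ _ hk⟩
      have h2 := grad_affine (fun y : E3 => phiB ε 1 (C + 1) ‖y‖) y (1 / Φp 1)
        (-(1 / Φp 1 * Φp (2 * R))) (h1.1.differentiableAt (by norm_num)) hk.ne' h1.2.1
      have h3 : (fun y : E3 => 1 / Φp 1 * phiB ε 1 (C + 1) ‖y‖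
          + -(1 / Φp 1 * Φp (2 * R))) = fun y => 1 / Φp 1 * (Φp ‖y‖ - Φp (2 * R)) := by
        ext y
        rw [hΦp]
        ring
      rwa [h3] at h2
    · intro y hy
      have h3 : 0 < Φp (2 * R) := hFp.pos hp0 hq0 (by linarith)
      simp only [hy]
      rw [one_div, inv_mul_le_iff₀ hP1, mul_one]
      linarith
    · intro y hy
      simp only [hy, sub_self, mul_zero, le_refl]
  -- the upper barrier
  have hupper : ∀ x : E3, 1 ≤ ‖x‖ → ‖x‖ < R → u x ≤ 1 / Φm 1 * Φm ‖x‖ := by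
    have hk : 0 < 1 / Φm 1 := by positivity
    intro x hx1 hx2
    have h0 := sol.super (fun y => 1 / Φm 1 * Φm ‖y‖ + 0) ?_ ?_ ?_ x hx1 hx2
    · simpa only [add_zero] using h0
    · intro y hy1 hy2
      have h1 := hBARR ε C g h y hε hε1 hC.le (hx0 y hy1) (hg.posDef y (Set.mem_univ y))
        (hbar y hy1) (-1) (Or.inr rfl)
      exact ⟨(contDiffAt_const.mul h1.1).add contDiffAt_const,
        grad_affine (fun y : E3 => phiB ε (-1) (C + 1) ‖y‖) y (1 / Φm 1) 0
        (h1.1.differentiableAt (by norm_num)) hk.ne' h1.2.1, h1.2.2.2 rfl _ _ hk⟩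
    · intro y hy
      simp only [hy, add_zero]
      rw [one_div, inv_mul_cancel₀ hM1.ne']
    · intro y hy
      have h3 : 0 < Φm ‖y‖ := hFm.pos hp0 hq0 (norm_nonneg y)
      simp only [add_zero]
      positivity
  -- positivity
  have hpos1 : ∀ x : E3, 1 ≤ ‖x‖ → ‖x‖ < R → 0 < u x := by
    intro x hx1 hx2
    refine lt_of_lt_of_le ?_ (hlower x hx1 hx2)
    have h1 := hFp.anti ‖x‖ (2 * R) (norm_nonneg x) (by linarith)
    exact mul_pos (by positivity) (by linarith)
  have hrefl : ∀ x : E3, 1 / 2 < ‖x‖ → ‖x‖ < 1 →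
      u x = 2 - u (inversion x) ∧ ‖inversion x‖ = ‖x‖⁻¹ ∧ 1 ≤ ‖x‖⁻¹ ∧ ‖x‖⁻¹ < R := by
    intro x hx1 hx2
    have hxp : 0 < ‖x‖ := by linarith
    have hxn : x ≠ 0 := norm_pos_iff.mp hxp
    have h1 := sol.refl x ⟨hx1, by linarith⟩
    refine ⟨by linarith, norm_inversion' x hxn, ?_, ?_⟩
    · exact (one_le_inv₀ hxp).mpr hx2.le
    · have h2 : ‖x‖⁻¹ < (1 / 2 : ℝ)⁻¹ := inv_strictAnti₀ (by norm_num) hx1
      have h3 : ((1 : ℝ) / 2)⁻¹ = 2 := by norm_num
      rw [h3] at h2
      linarith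
  have hpos : ∀ x ∈ Ann (1 / 2) R, 0 < u x := by
    intro x hx
    rcases lt_or_ge ‖x‖ 1 with h1 | h1
    · obtain ⟨h2, h3, h4, h5⟩ := hrefl x hx.1 h1
      have h6 := sol.le_one (inversion x) (by rw [h3]; exact h4) (by rw [h3]; exact h5)
      linarith
    · exact hpos1 x h1 hx.2
  -- (A) upper bound of w
  have hwA : ∀ x : E3, 1 ≤ ‖x‖ → 2 * ‖x‖ ≤ R →
      wOf ε u x ≤ (2 - ε) * Real.log ‖x‖ + ε * Real.log A := by
    intro x hx1 hsR
    have h1 := lower_out hFp hp1 hq0 hE0 hx1 hsR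
    have h2 := hlower x hx1 (by linarith)
    have h3 : q / (8 * E) * ‖x‖ ^ (-p) ≤ u x := h1.trans h2
    have hs0 : 0 < ‖x‖ := by linarith
    have h4 : Real.log (q / (8 * E) * ‖x‖ ^ (-p)) ≤ Real.log (u x) :=
      Real.log_le_log (by positivity) h3
    have h5 : Real.log (q / (8 * E) * ‖x‖ ^ (-p)) = -Real.log A - p * Real.log ‖x‖ := by
      rw [Real.log_mul (by positivity) (by positivity), Real.log_rpow hs0]
      have h6 : q / (8 * E) = A⁻¹ := by rw [hA, inv_div]
      rw [h6, Real.log_inv]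
      ring
    unfold wOf
    rw [h5] at h4
    calc -ε * Real.log (u x) ≤ -ε * (-Real.log A - p * Real.log ‖x‖) := by
          have := mul_le_mul_of_nonneg_left h4 hε.le
          linarith
      _ = ε * p * Real.log ‖x‖ + ε * Real.log A := by ring
      _ = (2 - ε) * Real.log ‖x‖ + ε * Real.log A := by rw [hεp]
  -- (B) lower bound of w
  have hwB : ∀ x : E3, 1 ≤ ‖x‖ → ‖x‖ < R →
      (2 - ε) * Real.log ‖x‖ - ε * Real.log A ≤ wOf ε u x := by
    intro x hx1 hx2
    have hx0 : 0 < ‖x‖ := by linarith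
    have h1 := upper_out hFm hp1 hq0 hE0 hx1
    have h2 := hupper x hx1 hx2
    have hux : 0 < u x := hpos1 x hx1 hx2
    have h3 : u x ≤ A * ‖x‖ ^ (-p) := by
      refine (h2.trans h1).trans ?_
      have h4 : E / q ≤ A := by
        have h5 : A = 8 * (E / q) := by
          rw [hA]
          ring
        have h6 : 0 < E / q := by positivity
        linarith
      gcongr
    have h4 : Real.log (u x) ≤ Real.log (A * ‖x‖ ^ (-p)) := Real.log_le_log hux h3
    have h5 : Real.log (A * ‖x‖ ^ (-p)) = Real.log A - p * Real.log ‖x‖ := by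
      rw [Real.log_mul (by positivity) (by positivity), Real.log_rpow hx0]
      ring
    unfold wOf
    rw [h5] at h4
    calc (2 - ε) * Real.log ‖x‖ - ε * Real.log A
        = -ε * (Real.log A - p * Real.log ‖x‖) := by
          rw [← hεp]
          ring
      _ ≤ -ε * Real.log (u x) := by
          have := mul_le_mul_of_nonneg_left h4 hε.le
          linarith
  refine ⟨hpos, ?_, ?_, ?_, ?_, ?_, ?_⟩
  · intro x hx1 hx2
    have h1 := hwA x hx1 (by linarith)
    have h2 := hwB x hx1 (by linarith)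
    rw [abs_le]
    constructor <;> linarith
  · intro x hx1 hx2
    have h2 := hwB x hx1 hx2
    linarith
  · intro x hx1 hx2
    refine lt_of_le_of_lt (hupper x hx1.le hx2) ?_
    rw [one_div, inv_mul_lt_iff₀ hM1, mul_one]
    exact hFm.anti 1 ‖x‖ zero_le_one hx1
  · intro x hx1 hx2
    obtain ⟨h2, h3, h4, h5⟩ := hrefl x hx1 (by linarith)
    have hxp : 0 < ‖x‖ := by linarith
    have h6 := hupper (inversion x) (by rw [h3]; exact h4) (by rw [h3]; exact h5)
    have h7 : (3 / 2 : ℝ) ≤ ‖inversion x‖ := by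
      rw [h3]
      have h8 : (2 / 3 : ℝ)⁻¹ ≤ ‖x‖⁻¹ := inv_anti₀ hxp hx2
      have h9 : (2 / 3 : ℝ)⁻¹ = 3 / 2 := by norm_num
      linarith
    have h8 : Φm ‖inversion x‖ ≤ Φm (3 / 2) := hFm.anti' (by norm_num) h7
    have h9 : 1 / Φm 1 * Φm ‖inversion x‖ ≤ 1 / Φm 1 * Φm (3 / 2) := by gcongr
    linarith
  · intro x hx1 hx2
    have hexp : Real.exp τ ≤ Real.exp τ₀ := Real.exp_le_exp.mpr hττ
    have hexp2 : Real.exp τ₀ < 2 := by
      have h1 : Real.exp τ₀ ≤ Real.exp (1 / 10) := Real.exp_le_exp.mpr hτ₀1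
      have h2 : Real.exp (1 / 10) < 2 := by
        have h3 : Real.exp (1 / 10) ≤ 1 / (1 - 1 / 10) :=
          Real.exp_bound_div_one_sub_of_interval (by norm_num) (by norm_num)
        have h4 : (1 : ℝ) / (1 - 1 / 10) < 2 := by norm_num
        linarith
      linarith
    have h1 := hlower x hx1 (by linarith)
    have h2 : Φp (Real.exp τ₀) ≤ Φp ‖x‖ := hFp.anti' (norm_nonneg x) (hx2.trans hexp)
    have h3 : Φp (2 * R) < (b - a) * Φp 1 := by
      have h4 := hFp.upp (2 * R) (by linarith)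
      have h5 := hFp.low 1 le_rfl
      rw [Real.one_rpow, mul_one] at h5
      have h6 : (2 * R) ^ (-p) ≤ (2 * R) ^ (-(1 : ℝ)) :=
        Real.rpow_le_rpow_of_exponent_le (by linarith) (by linarith)
      rw [Real.rpow_neg_one] at h6
      have h7 : E * (2 * R) ^ (-p) / p ≤ E * (2 * R)⁻¹ / p := by gcongr
      have h8 : E ≤ R * ((b - a) * q) := by
        rwa [div_le_iff₀ (by positivity)] at hRb
      have h9 : E * (2 * R)⁻¹ ≤ (b - a) * q / 2 := by
        rw [← div_eq_mul_inv, div_le_iff₀ (by positivity)]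
        linarith
      have h10 : E * (2 * R)⁻¹ / p ≤ (b - a) * q / 2 / p := by gcongr
      have h11 : (b - a) * q / 2 / p < (b - a) * (q / p) := by
        have h12 : 0 < (b - a) * (q / p) := by positivity
        have h13 : (b - a) * q / 2 / p = (b - a) * (q / p) / 2 := by ring
        linarith
      have h14 : (b - a) * (q / p) ≤ (b - a) * Φp 1 := by gcongr
      linarith
    have h4 : a < u x := by
      refine lt_of_lt_of_le ?_ h1
      rw [one_div, lt_inv_mul_iff₀ hP1]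
      nlinarith
    have h5 : -(1 / 2) < Real.log (u x) := by
      rw [Real.lt_log_iff_exp_lt (by linarith)]
      exact h4
    unfold wOf
    nlinarith
  · intro x hx1 hx2
    have hx0 : 0 < ‖x‖ := by linarith
    have h1 := hwA x hx1 (by linarith)
    have h2 : Real.log ‖x‖ ≤ Real.log (4 * l) := Real.log_le_log hx0 hx2.le
    have h3 : (2 - ε) * Real.log ‖x‖ ≤ (2 - ε) * Real.log (4 * l) :=
      mul_le_mul_of_nonneg_left h2 (by linarith)
    unfold s2E
    linarith

end Pool.Agent.PFlow
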