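import Pool.Agent.PFlow.StmtsX2

/-!
# XLOCU: location of the level sets, uniformly in `ε` (exterior regions)
-/

open MeasureTheory Filter Topology
open scoped ContDiff

namespace Pool.Agent.PFlow

open Pool.Agent.PenroseSph

namespace XLOCU

/-- The gradient of `k f + c`. -/
theorem grad_affine {f : E3 → ℝ} {x : E3} (k c : ℝ) (hf : DifferentiableAt ℝ f x) :
    grad (fun y => k * f y + c) x = k • grad f x := by
  funext i
  have h1 : HasFDerivAt (fun y => k * f y + c) (k • fderiv ℝ f x) x :=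
    (hf.hasFDerivAt.const_mul k).add_const c
  simp only [grad, pd, h1.fderiv, Pi.smul_apply]
  simp

/-- The barrier integrals are strictly decreasing. -/
theorem strictAnti (hPHI : Stmt_PHI) {ε C σ : ℝ} (hε : 0 < ε) (hε2 : ε ≤ 1 / 2) (hC : 0 ≤ C)
    (hσ : σ = 1 ∨ σ = -1) : StrictAntiOn (phiB ε σ C) (Set.Ioi 0) := by
  obtain ⟨-, h2, -⟩ := hPHI ε C σ hε hε2 hC hσ
  apply strictAntiOn_of_deriv_neg (convex_Ioi 0)
  · intro r hr
    exact (h2 r hr).2.1.continuousAt.continuousWithinAt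
  · intro r hr
    rw [interior_Ioi] at hr
    rw [(h2 r hr).2.1.deriv]
    have := (h2 r hr).1
    linarith

/-- Comparison with the lower barrier. -/
theorem lower (hPHI : Stmt_PHI) (hBARR : Stmt_BARR) {ε C R : ℝ} {g h : TensorField}
    {u : E3 → ℝ} {G : E3 → Cov} {M : E3 → Bil} (hC : 0 < C) (hε : 0 < ε) (hε2 : ε ≤ 1 / 2)
    (hR : 1 < R) (hg : MetricOn Set.univ g)
    (hbar : ∀ x : E3, 1 ≤ ‖x‖ → |barB ε g h x - bE ε ‖x‖| ≤ C / (1 + ‖x‖ ^ 2))
    (hsol : SolX ε R g h u G M) {x : E3} (hx1 : 1 ≤ ‖x‖) (hx2 : ‖x‖ < R) :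
    0 < u x := by
  have hR0 : 0 < R := by linarith
  have hanti := strictAnti hPHI hε hε2 (by linarith : 0 ≤ C + 1) (Or.inl rfl)
  have hD : 0 < phiB ε 1 (C + 1) 1 - phiB ε 1 (C + 1) (2 * R) := by
    have := hanti (Set.mem_Ioi.2 one_pos) (Set.mem_Ioi.2 (by linarith : 0 < 2 * R))
      (by linarith)
    linarith
  set D := phiB ε 1 (C + 1) 1 - phiB ε 1 (C + 1) (2 * R) with hDdef
  set k := 1 / D with hk
  have hkpos : 0 < k := div_pos one_pos hD
  have hpt : ∀ y : E3, 1 ≤ ‖y‖ → ContDiffAt ℝ 2 (fun y : E3 => phiB ε 1 (C + 1) ‖y‖) y ∧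
      grad (fun y : E3 => phiB ε 1 (C + 1) ‖y‖) y ≠ 0 ∧
      0 < opN ε g h (fun y : E3 => k * (phiB ε 1 (C + 1) ‖y‖ - phiB ε 1 (C + 1) (2 * R))) y := by
    intro y hy
    have hy0 : y ≠ 0 := by
      intro h0
      rw [h0, norm_zero] at hy
      linarith
    obtain ⟨h1, h2, h3, -⟩ := hBARR ε C g h y hε hε2 hC.le hy0 (hg.posDef y (Set.mem_univ y))
      (hbar y hy) 1 (Or.inl rfl)
    exact ⟨h1, h2, h3 rfl k _ hkpos⟩
  have h4 := hsol.sub
    (fun y => k * (phiB ε 1 (C + 1) ‖y‖ - phiB ε 1 (C + 1) (2 * R))) ?_ ?_ ?_ x hx1 hx2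
  · refine lt_of_lt_of_le ?_ h4
    apply mul_pos hkpos
    have := hanti (Set.mem_Ioi.2 (by linarith : 0 < ‖x‖)) (Set.mem_Ioi.2 (by linarith : 0 < 2 * R))
      (by linarith)
    linarith
  · intro y hy1 _
    refine ⟨contDiffAt_const.mul ((hpt y hy1).1.sub contDiffAt_const), ?_, (hpt y hy1).2.2⟩
    have hd : DifferentiableAt ℝ (fun y : E3 => phiB ε 1 (C + 1) ‖y‖) y :=
      (hpt y hy1).1.differentiableAt (by norm_num)
    have hg2 := grad_affine k (-(k * phiB ε 1 (C + 1) (2 * R))) hd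
    have heq : (fun y : E3 => k * (phiB ε 1 (C + 1) ‖y‖ - phiB ε 1 (C + 1) (2 * R)))
        = fun y : E3 => k * phiB ε 1 (C + 1) ‖y‖ + -(k * phiB ε 1 (C + 1) (2 * R)) := by
      funext y; ring
    rw [heq, hg2]
    exact smul_ne_zero hkpos.ne' (hpt y hy1).2.1
  · intro y hy
    show k * (phiB ε 1 (C + 1) ‖y‖ - phiB ε 1 (C + 1) (2 * R)) ≤ 1
    rw [hy, ← hDdef, hk, one_div, inv_mul_cancel₀ hD.ne']
  · intro y hy
    show k * (phiB ε 1 (C + 1) ‖y‖ - phiB ε 1 (C + 1) (2 * R)) ≤ 0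
    rw [hy, sub_self, mul_zero]

/-- Comparison with the upper barrier. -/
theorem upper (hPHI : Stmt_PHI) (hBARR : Stmt_BARR) {ε C R : ℝ} {g h : TensorField}
    {u : E3 → ℝ} {G : E3 → Cov} {M : E3 → Bil} (hC : 0 < C) (hε : 0 < ε) (hε2 : ε ≤ 1 / 2)
    (hR : 1 < R) (hg : MetricOn Set.univ g)
    (hbar : ∀ x : E3, 1 ≤ ‖x‖ → |barB ε g h x - bE ε ‖x‖| ≤ C / (1 + ‖x‖ ^ 2))
    (hsol : SolX ε R g h u G M) (hpos : ∀ r, 1 ≤ r → 0 < phiB ε (-1) (C + 1) r) {x : E3}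
    (hx1 : 1 ≤ ‖x‖) (hx2 : ‖x‖ < R) :
    u x ≤ phiB ε (-1) (C + 1) ‖x‖ / phiB ε (-1) (C + 1) 1 := by
  have hpos1 := hpos 1 le_rfl
  set k := 1 / phiB ε (-1) (C + 1) 1 with hk
  have hkpos : 0 < k := div_pos one_pos hpos1
  have hpt : ∀ y : E3, 1 ≤ ‖y‖ →
      ContDiffAt ℝ 2 (fun y : E3 => phiB ε (-1) (C + 1) ‖y‖) y ∧
      grad (fun y : E3 => phiB ε (-1) (C + 1) ‖y‖) y ≠ 0 ∧
      opN ε g h (fun y : E3 => k * phiB ε (-1) (C + 1) ‖y‖ + 0) y < 0 := by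
    intro y hy
    have hy0 : y ≠ 0 := by
      intro h0
      rw [h0, norm_zero] at hy
      linarith
    obtain ⟨h1, h2, -, h3⟩ := hBARR ε C g h y hε hε2 hC.le hy0 (hg.posDef y (Set.mem_univ y))
      (hbar y hy) (-1) (Or.inr rfl)
    exact ⟨h1, h2, h3 rfl k _ hkpos⟩
  have h4 := hsol.super (fun y => k * phiB ε (-1) (C + 1) ‖y‖ + 0) ?_ ?_ ?_ x hx1 hx2
  · rw [add_zero, hk, div_mul_eq_mul_div, one_mul] at h4
    exact h4
  · intro y hy1 _
    refine ⟨(contDiffAt_const.mul (hpt y hy1).1).add contDiffAt_const, ?_, (hpt y hy1).2.2⟩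
    have hd : DifferentiableAt ℝ (fun y : E3 => phiB ε (-1) (C + 1) ‖y‖) y :=
      (hpt y hy1).1.differentiableAt (by norm_num)
    rw [grad_affine k 0 hd]
    exact smul_ne_zero hkpos.ne' (hpt y hy1).2.1
  · intro y hy
    show 1 ≤ k * phiB ε (-1) (C + 1) ‖y‖ + 0
    rw [hy, hk, one_div, inv_mul_cancel₀ hpos1.ne', add_zero]
  · intro y hy
    show 0 ≤ k * phiB ε (-1) (C + 1) ‖y‖ + 0
    have h6 : 0 < k * phiB ε (-1) (C + 1) ‖y‖ := by
      rw [hy]; exact mul_pos hkpos (hpos _ (by linarith))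
    linarith

end XLOCU

open XLOCU in
/-- **XLOCU**: location of the level sets, uniformly in `ε`. -/
theorem XLOCU (hPHI : Stmt_PHI) (hBARR : Stmt_BARR) : Stmt_XLOCU := by
  intro C hC
  have hπ := Real.pi_pos
  set Q := Real.exp ((C + 1) * Real.pi) with hQ
  have hQ0 : 0 < Q := Real.exp_pos _
  have hQ1 : 1 ≤ Q := Real.one_le_exp (by positivity)
  have he1 : 1 < Real.exp 1 := by
    have := Real.add_one_lt_exp (one_ne_zero)
    linarith
  have he0 : 0 < Real.exp 1 := Real.exp_pos _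
  refine ⟨8 * (Real.exp 1 * Q), ?_, ?_⟩
  · nlinarith
  intro ε hε hε2
  refine ⟨0, ?_⟩
  intro R _ g h u G M hg hbar hsol x hxr hxR
  have hx1 : 1 ≤ ‖x‖ := by
    refine le_trans ?_ hxr
    nlinarith
  have hR1 : 1 < R := by linarith
  set p := pe ε with hp
  have hpdef : p = 2 / ε - 1 := rfl
  have hinv : 2 ≤ 1 / ε := by
    rw [le_div_iff₀ hε]; linarith
  have hp3 : 3 ≤ p := by
    rw [hpdef, show 2 / ε = 2 * (1 / ε) by ring]; linarith
  have hp0 : 0 < p := by linarith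
  have hεp : 1 / ε ≤ p := by
    rw [hpdef, show 2 / ε = 2 * (1 / ε) by ring]; linarith
  -- the exponential
  set E := Real.exp ((C + 1) * Real.pi / (2 * ε)) with hE
  have hE0 : 0 < E := Real.exp_pos _
  have hEneg : Real.exp (-((C + 1) * Real.pi / (2 * ε))) = E⁻¹ := by
    rw [Real.exp_neg]
  have hE2 : E ^ 2 ≤ Q ^ p := by
    rw [hE, ← Real.exp_nat_mul, hQ, ← Real.exp_mul]
    apply Real.exp_le_exp.2
    have : ((2 : ℕ) : ℝ) * ((C + 1) * Real.pi / (2 * ε)) = (C + 1) * Real.pi * (1 / ε) := by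
      push_cast; field_simp
    rw [this]
    exact mul_le_mul_of_nonneg_left hεp (by positivity)
  have hep : Real.exp (-p) = (Real.exp 1) ^ (-p) := by
    rw [← Real.exp_mul, one_mul]
  have h4p : (4 : ℝ) ^ (-p) ≤ 1 / 64 := by
    have h1 : (4 : ℝ) ^ (-p) ≤ (4 : ℝ) ^ (-(3 : ℝ)) :=
      Real.rpow_le_rpow_of_exponent_le (by norm_num) (by linarith)
    refine h1.trans ?_
    rw [Real.rpow_neg (by norm_num), show (3 : ℝ) = ((3 : ℕ) : ℝ) by norm_num,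
      Real.rpow_natCast]
    norm_num
  have hC1 : 0 ≤ C + 1 := by linarith
  -- the barrier integrals
  obtain ⟨-, -, -, hPm1, hPm2⟩ := hPHI ε (C + 1) (-1) hε hε2 hC1 (Or.inr rfl)
  rw [hEneg] at hPm1 hPm2
  have hposm : ∀ r, 1 ≤ r → 0 < phiB ε (-1) (C + 1) r := by
    intro r hr
    refine lt_of_lt_of_le ?_ (hPm1 r hr).1
    have : 0 < r := by linarith
    positivity
  have hupos : 0 < u x := lower hPHI hBARR hC hε hε2 hR1 hg hbar hsol hx1 hxR
  have hup := upper hPHI hBARR hC hε hε2 hR1 hg hbar hsol hposm hx1 hxR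
  have hden : 2 ^ (-p) * E⁻¹ / p ≤ phiB ε (-1) (C + 1) 1 := by
    have h1 := (hPm1 1 le_rfl).1
    rw [Real.one_rpow, mul_one] at h1
    exact h1
  have hnum : phiB ε (-1) (C + 1) ‖x‖ ≤ E * ‖x‖ ^ (-p) / p := (hPm1 ‖x‖ hx1).2
  have hexp0 := Real.exp_pos (-p)
  have hnum2 : E * ‖x‖ ^ (-p) / p ≤ Real.exp (-p) / 8 * (2 ^ (-p) * E⁻¹ / p) := by
    have h2 : ‖x‖ ^ (-p) ≤ (8 * (Real.exp 1 * Q)) ^ (-p) :=
      Real.rpow_le_rpow_of_nonpos (by positivity) hxr (by linarith)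
    have h3 : (8 * (Real.exp 1 * Q)) ^ (-p) = 2 ^ (-p) * 4 ^ (-p) * (Real.exp (-p) * (Q ^ p)⁻¹) := by
      rw [show 8 * (Real.exp 1 * Q) = 2 * 4 * (Real.exp 1 * Q) by ring,
        Real.mul_rpow (by positivity) (by positivity),
        Real.mul_rpow (by positivity) (by positivity),
        Real.mul_rpow (by positivity) (by positivity), ← hep, Real.rpow_neg hQ0.le]
    have hQp : 0 < Q ^ p := by positivity
    have h4 : (Q ^ p)⁻¹ ≤ (E ^ 2)⁻¹ := inv_anti₀ (by positivity) hE2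
    have h5 : E * ‖x‖ ^ (-p) ≤ E * (2 ^ (-p) * (1 / 64) * (Real.exp (-p) * (E ^ 2)⁻¹)) := by
      rw [h3] at h2
      gcongr
      refine h2.trans ?_
      gcongr
    have h6 : E * (2 ^ (-p) * (1 / 64) * (Real.exp (-p) * (E ^ 2)⁻¹))
        = 1 / 64 * (Real.exp (-p) * (2 ^ (-p) * E⁻¹)) := by
      field_simp
    rw [h6] at h5
    have h7 : Real.exp (-p) / 8 * (2 ^ (-p) * E⁻¹ / p)
        = 1 / 8 * (Real.exp (-p) * (2 ^ (-p) * E⁻¹)) / p := by
      ring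
    rw [h7]
    have h8 : 0 < Real.exp (-p) * (2 ^ (-p) * E⁻¹) := by positivity
    exact div_le_div_of_nonneg_right (by linarith) hp0.le
  have hratio : phiB ε (-1) (C + 1) ‖x‖ / phiB ε (-1) (C + 1) 1 ≤ Real.exp (-p) / 8 := by
    rw [div_le_iff₀ (hposm 1 le_rfl)]
    refine hnum.trans (hnum2.trans ?_)
    gcongr
  have hux : u x < Real.exp (-p) := by linarith
  have h1 : Real.log (u x) < -p := by
    rw [Real.log_lt_iff_lt_exp hupos]
    exact hux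
  have h2 : Real.log (u x) < -(1 / ε) := by linarith
  show 1 < -ε * Real.log (u x)
  have h3 : ε * Real.log (u x) < ε * -(1 / ε) := mul_lt_mul_of_pos_left h2 hε
  have h4 : ε * -(1 / ε) = -1 := by field_simp
  linarith

end Pool.Agent.PFlow
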