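import Pool.Agent.PFlow.StmtsX2

/-!
# Module XMAIN: the theorem for exterior regions from the three inequalities
-/

set_option autoImplicit false

open MeasureTheory Filter Topology
open scoped ContDiff ENNReal

namespace Pool.Agent.PFlow

open Pool.Agent.PenroseSph

namespace XMAINaux

lemma outside_subset {δ δ' : ℝ} (h : δ ≤ δ') : Outside δ ⊆ Outside δ' := by
  intro x hx
  simp only [Outside, Set.mem_ofPred_eq] at hx ⊢
  linarith

lemma metric_mono {U V : Set E3} {g : TensorField} (h : U ⊆ V) (hg : MetricOn V g) :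
    MetricOn U g :=
  ⟨fun i j => (hg.smooth i j).mono h, fun x hx => hg.posDef x (h hx)⟩

lemma tensor_mono {U V : Set E3} {k : TensorField} (h : U ⊆ V) (hk : TensorOn V k) :
    TensorOn U k :=
  ⟨fun i j => (hk.smooth i j).mono h, fun x hx => hk.symm x (h hx)⟩

/-- The energy density in terms of `required`. -/
lemma surplus_eq (g h : TensorField) (x : E3) :
    2 * surplus g h x = scalarCurvature g x - required g h x := by
  have h1 : traceWith g h x = trg g x (h x) := rfl
  have h2 : normSqWith g h x = nsq g x (h x) := rfl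
  unfold surplus energyDensity required
  rw [h1, h2]
  ring

/-- The dominant energy condition means that the surplus is nonnegative. -/
lemma surplus_nonneg {g h : TensorField} (hDE : DominantEnergy 1 g h) {x : E3} (hx : 1 < ‖x‖) :
    0 ≤ surplus g h x := by
  have h0 := hDE x hx
  have h1 : Real.sqrt (∑ i, ∑ j, (g x)⁻¹ i j * momentumDensity g h i x * momentumDensity g h j x)
      = jlen g h x := rfl
  rw [h1] at h0
  unfold surplus
  linarith

/-- The surplus of a competitor is nonnegative. -/
lemma competitor_surplus {g h k : TensorField} (hk : CompetitorX g h k)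
    (hDE : DominantEnergy 1 g h) {x : E3} (hx : 1 < ‖x‖) : 0 ≤ surplus g k x := by
  have h1 := surplus_nonneg hDE hx
  have h2 := hk.energy x hx
  have h3 := surplus_eq g h x
  have h4 := surplus_eq g k x
  linarith

end XMAINaux

open XMAINaux in
/-- **XMAIN**: the theorem for exterior regions. -/
theorem XMAIN (hXEPS : Stmt_XEPS) (hXLIM : Stmt_XLIM) (hXLIMK : Stmt_XLIMK) : Stmt_XMAIN := by
  rintro g h m hE hDE ⟨k, hk⟩ hm
  obtain ⟨δ₁, hδ₁, hg, -, hs⟩ := hE.smooth
  obtain ⟨δ₂, hδ₂, hkt⟩ := hk.smooth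
  have hδ : 0 < min δ₁ δ₂ := lt_min hδ₁ hδ₂
  have hgm : MetricOn (Outside (min δ₁ δ₂)) g :=
    metric_mono (outside_subset (min_le_left _ _)) hg
  have hkm : TensorOn (Outside (min δ₁ δ₂)) k :=
    tensor_mono (outside_subset (min_le_right _ _)) hkt
  have hsm : Shiftless (min δ₁ δ₂) g := by
    intro x hx1 hx2 v hv
    have h1 : min δ₁ δ₂ ≤ δ₁ := min_le_left _ _
    exact hs x (by linarith) (by linarith) v hv
  have hsur : ∀ x : E3, 1 < ‖x‖ → 0 ≤ surplus g k x := fun x hx => competitor_surplus hk hDE hx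
  have hpl : PlaneSignX g k := hk.plane
  have hlim := hXLIMK g k (min δ₁ δ₂) hδ hgm hkm hk.decay hsur hpl hk.far
  obtain ⟨V, hV, H⟩ := hXEPS g k m ⟨min δ₁ δ₂, hδ, hgm, hkm, hsm⟩ hk.decay hpl hsur hk.trapped
    hlim hm
  exact hXLIM g m V hV H

end Pool.Agent.PFlow
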