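import Pool.Agent.PFlow.StmtsX1
import Pool.Agent.PenroseSph.Calc

/-!
# XMEAN: the mean curvature of the spheres where there is no shift
-/

open MeasureTheory Filter Topology
open scoped ContDiff ENNReal

namespace Pool.Agent.PFlow

open Pool.Agent.PenroseSph

namespace XMEANm

/-! ### Derivatives of the radius -/

/-- the unit vector -/
noncomputable def nu (x : E3) : Cov := fun i => x i / ‖x‖

/-- the Kronecker symbol -/
def dl (i j : Fin 3) : ℝ := if i = j then 1 else 0

theorem grad_rad {x : E3} (hx : x ≠ 0) : grad rad x = nu x := by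
  funext i
  unfold grad nu
  have := pd_radial (i := i) (F := fun t => t) (F' := 1) hx (hasDerivAt_id _)
  rw [one_mul] at this
  exact this

theorem pd_inv_norm {x : E3} (hx : x ≠ 0) (k : Fin 3) :
    pd k (fun y => ‖y‖⁻¹) x = -(1 / ‖x‖ ^ 2) * nu x k := by
  have hn : ‖x‖ ≠ 0 := norm_ne_zero_iff.2 hx
  have h1 : HasDerivAt (fun t : ℝ => t⁻¹) (-(‖x‖ ^ 2)⁻¹) ‖x‖ := hasDerivAt_inv hn
  rw [pd_radial hx h1, nu, one_div]

theorem diff_inv_norm {x : E3} (hx : x ≠ 0) : DifferentiableAt ℝ (fun y : E3 => ‖y‖⁻¹) x :=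
  (differentiableAt_norm hx).fun_inv (norm_ne_zero_iff.2 hx)

theorem hess_rad {x : E3} (hx : x ≠ 0) (i j : Fin 3) :
    hess2 rad x i j = 1 / ‖x‖ * (dl i j - nu x i * nu x j) := by
  have hn : ‖x‖ ≠ 0 := norm_ne_zero_iff.2 hx
  have h1 : pd j rad =ᶠ[𝓝 x] fun y => y j * ‖y‖⁻¹ := by
    filter_upwards [isOpen_compl_singleton.mem_nhds hx] with y hy
    have := congrFun (grad_rad (x := y) hy) j
    unfold grad nu at this
    rw [this, div_eq_mul_inv]
  unfold hess2
  rw [Matrix.of_apply, pd_congr h1, pd_mul (differentiableAt_coord j) (diff_inv_norm hx),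
    pd_coord, pd_inv_norm hx]
  unfold dl nu
  field_simp
  ring

/-! ### Linear algebra -/

/-- the trace over a plane only sees tangential components -/
theorem tan_zero {Q D : Bil} {n : Cov} (hQ : ∀ j, ∑ i, Q i j * n i = 0)
    (hQ' : ∀ i, ∑ j, Q i j * n j = 0) (hn : ∑ i, n i * n i = 1)
    (hD : ∀ v w : Cov, ∑ i, n i * v i = 0 → ∑ i, n i * w i = 0 →
      ∑ i, ∑ j, D i j * v i * w j = 0) :
    ∑ i, ∑ j, Q i j * D i j = 0 := by
  have hDab : ∀ a b : Fin 3, D a b = n a * (∑ i, n i * D i b) + n b * (∑ j, D a j * n j)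
      - n a * n b * (∑ i, ∑ j, D i j * n i * n j) := by
    intro a b
    have hz : ∀ a : Fin 3, ∑ i, n i * (dl a i - n a * n i) = 0 := by
      intro a
      simp only [Fin.sum_univ_three] at hn ⊢
      fin_cases a <;> simp [dl]
      · linear_combination (-(n 0)) * hn
      · linear_combination (-(n 1)) * hn
      · linear_combination (-(n 2)) * hn
    have h := hD (fun i => dl a i - n a * n i) (fun i => dl b i - n b * n i) (hz a) (hz b)
    simp only [Fin.sum_univ_three] at h ⊢
    fin_cases a <;> fin_cases b <;> simp [dl] at h ⊢ <;> linear_combination h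
  calc ∑ i, ∑ j, Q i j * D i j
      = ∑ a, ∑ b, Q a b * (n a * (∑ i, n i * D i b) + n b * (∑ j, D a j * n j)
        - n a * n b * (∑ i, ∑ j, D i j * n i * n j)) := by
        refine Finset.sum_congr rfl fun a _ => Finset.sum_congr rfl fun b _ => ?_
        rw [← hDab a b]
    _ = (∑ b, (∑ a, Q a b * n a) * (∑ i, n i * D i b))
        + (∑ a, (∑ b, Q a b * n b) * (∑ j, D a j * n j))
        - (∑ a, n a * (∑ b, Q a b * n b)) * (∑ i, ∑ j, D i j * n i * n j) := by
        simp only [Fin.sum_univ_three]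
        ring
    _ = 0 := by simp [hQ, hQ']

theorem cross {g : Bil} {x : Cov}
    (h : ∀ v : Cov, ∑ i, x i * v i = 0 → ∑ i, ∑ j, g i j * x i * v j = 0) (j l : Fin 3) :
    (∑ i, g i j * x i) * x l - (∑ i, g i l * x i) * x j = 0 := by
  have h1 := h (fun k => dl j k * x l - dl l k * x j) (by
    simp only [Fin.sum_univ_three]
    fin_cases j <;> fin_cases l <;> simp [dl] <;> ring)
  simp only [Fin.sum_univ_three] at h1 ⊢
  fin_cases j <;> fin_cases l <;> simp [dl] at h1 ⊢ <;> linear_combination h1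

theorem eigen {g : Bil} {x : Cov} {s : ℝ} (hs : ∑ i, x i * x i = s) (hs0 : s ≠ 0)
    (h : ∀ v : Cov, ∑ i, x i * v i = 0 → ∑ i, ∑ j, g i j * x i * v j = 0) (j : Fin 3) :
    ∑ i, g i j * x i = (∑ i, ∑ k, g i k * x i * x k) / s * x j := by
  have h0 := cross h j 0
  have h1 := cross h j 1
  have h2 := cross h j 2
  simp only [Fin.sum_univ_three] at hs h0 h1 h2 ⊢
  rw [div_mul_eq_mul_div, eq_div_iff hs0, ← hs]
  linear_combination x 0 * h0 + x 1 * h1 + x 2 * h2

theorem contract {A a x w : Cov} {s lam : ℝ} {m : Fin 3} (hs : ∑ i, x i * x i = s) (hs0 : s ≠ 0)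
    (ha : ∀ j, a j = lam * x j) (hw : ∑ i, x i * w i = 0)
    (hA : ∀ j l : Fin 3, A j * x l + a j * dl m l - (A l * x j + a l * dl m j) = 0) :
    ∑ j, A j * w j = lam * w m := by
  have h01 := hA 0 1
  have h02 := hA 0 2
  have h10 := hA 1 0
  have h12 := hA 1 2
  have h20 := hA 2 0
  have h21 := hA 2 1
  simp only [ha] at h01 h02 h10 h12 h20 h21
  simp only [Fin.sum_univ_three] at hs hw ⊢
  have key : s * (A 0 * w 0 + A 1 * w 1 + A 2 * w 2) = s * (lam * w m) := by
    rw [← hs]
    have hm : m = 0 ∨ m = 1 ∨ m = 2 := by fin_cases m <;> simp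
    rcases hm with rfl | rfl | rfl <;> simp [dl] at h01 h02 h10 h12 h20 h21
    · linear_combination w 0 * x 1 * h01 + w 0 * x 2 * h02
        + w 1 * x 0 * h10 + w 1 * x 2 * h12
        + w 2 * x 0 * h20 + w 2 * x 1 * h21
        + (A 0 * x 0 + A 1 * x 1 + A 2 * x 2 - lam * x 0) * hw
    · linear_combination w 0 * x 1 * h01 + w 0 * x 2 * h02
        + w 1 * x 0 * h10 + w 1 * x 2 * h12
        + w 2 * x 0 * h20 + w 2 * x 1 * h21
        + (A 0 * x 0 + A 1 * x 1 + A 2 * x 2 - lam * x 1) * hw
    · linear_combination w 0 * x 1 * h01 + w 0 * x 2 * h02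
        + w 1 * x 0 * h10 + w 1 * x 2 * h12
        + w 2 * x 0 * h20 + w 2 * x 1 * h21
        + (A 0 * x 0 + A 1 * x 1 + A 2 * x 2 - lam * x 2) * hw
  exact mul_left_cancel₀ hs0 key

/-! ### The derivative of the shift -/

theorem differentiableAt_comp {g : TensorField} {δ : ℝ} {x : E3} (hg : MetricOn (Outside δ) g)
    (hx : 1 - δ < ‖x‖) (i j : Fin 3) : DifferentiableAt ℝ (fun y => g y i j) x := by
  have ho : IsOpen (Outside δ) := isOpen_lt continuous_const continuous_norm
  exact ((hg.smooth i j).contDiffAt (ho.mem_nhds hx)).differentiableAt (by simp)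

theorem pd_low {g : TensorField} {x : E3} (hd : ∀ i j, DifferentiableAt ℝ (fun y => g y i j) x)
    (m j : Fin 3) : pd m (fun y => ∑ i, g y i j * y i) x
      = g x m j + ∑ i, x i * pd m (fun y => g y i j) x := by
  rw [pd_sum _ _ (fun i _ => (hd i j).fun_mul (differentiableAt_coord i))]
  have : ∀ i : Fin 3, pd m (fun y => g y i j * y i) x
      = g x i j * (if m = i then 1 else 0) + x i * pd m (fun y => g y i j) x := by
    intro i
    rw [pd_mul (hd i j) (differentiableAt_coord i), pd_coord]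
  simp only [this, Finset.sum_add_distrib]
  simp

theorem diff_low {g : TensorField} {x : E3} (hd : ∀ i j, DifferentiableAt ℝ (fun y => g y i j) x)
    (j : Fin 3) : DifferentiableAt ℝ (fun y : E3 => ∑ i, g y i j * y i) x :=
  DifferentiableAt.fun_sum fun i _ => (hd i j).fun_mul (differentiableAt_coord i)

theorem near {δ : ℝ} {x : E3} (h1 : 1 - δ < ‖x‖) (h2 : ‖x‖ < 1 + δ) :
    ∀ᶠ y in 𝓝 x, 1 - δ < ‖y‖ ∧ ‖y‖ < 1 + δ := by
  filter_upwards [(isOpen_lt continuous_const continuous_norm).mem_nhds h1,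
    (isOpen_lt continuous_norm continuous_const).mem_nhds h2] with y a b
  exact ⟨a, b⟩

theorem norm_sum (x : E3) : ∑ i, x i * x i = ‖x‖ ^ 2 := by
  rw [norm_sq_eq, Fin.sum_univ_three]; ring

theorem deriv_shift {g : TensorField} {δ : ℝ} {x : E3} (hg : MetricOn (Outside δ) g)
    (hs : Shiftless δ g) (hx : x ≠ 0) (h1 : 1 - δ < ‖x‖) (h2 : ‖x‖ < 1 + δ) {lam : ℝ}
    (hl : ∀ j, ∑ i, g x i j * x i = lam * x j) (m : Fin 3) (w : Cov)
    (hw : ∑ i, x i * w i = 0) :
    ∑ j, (g x m j + ∑ i, x i * pd m (fun y => g y i j) x) * w j = lam * w m := by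
  have hn : ‖x‖ ≠ 0 := norm_ne_zero_iff.2 hx
  have hd := fun i j => differentiableAt_comp hg h1 i j
  refine contract (x := fun i => x i) (norm_sum x) (pow_ne_zero 2 hn)
    (a := fun j => ∑ i, g x i j * x i) hl hw ?_
  intro j l
  have hc : (fun y : E3 => (∑ i, g y i j * y i) * y l - (∑ i, g y i l * y i) * y j)
      =ᶠ[𝓝 x] fun _ => (0 : ℝ) := by
    filter_upwards [near h1 h2] with y hy
    exact cross (g := g y) (x := fun i => y i) (fun v hv => hs y hy.1 hy.2 v hv) j l
  have h3 := pd_congr (i := m) hc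
  rw [pd_const, pd_sub ((diff_low hd j).fun_mul (differentiableAt_coord l))
    ((diff_low hd l).fun_mul (differentiableAt_coord j)),
    pd_mul (diff_low hd j) (differentiableAt_coord l),
    pd_mul (diff_low hd l) (differentiableAt_coord j), pd_coord, pd_coord, pd_low hd m j,
    pd_low hd m l] at h3
  unfold dl
  linarith

/-- the second fundamental form of the spheres -/
theorem second {g : TensorField} {δ : ℝ} {x : E3} (hg : MetricOn (Outside δ) g)
    (hs : Shiftless δ g) (hx : x ≠ 0) (h1 : 1 - δ < ‖x‖) (h2 : ‖x‖ < 1 + δ) {lam c μ : ℝ}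
    (hl : ∀ j, ∑ i, g x i j * x i = lam * x j) (hμ : lam * μ = 1)
    (hsym : ∀ i j, g x i j = g x j i)
    (hG : ∀ m i j, pd m (fun y => g y i j) x = pd m (fun y => g y j i) x)
    {D : Bil} (hD : ∀ i j, D i j = c * (dl i j - (c * x i) * (c * x j))
      - 1 / 2 * ∑ l, μ * (c * x l) * (pd i (fun y => g y j l) x + pd j (fun y => g y i l) x
        - pd l (fun y => g y i j) x)
      - 1 / 2 * (c * μ) * (2 * g x i j + ∑ m, x m * pd m (fun y => g y i j) x))
    {v w : Cov} (hv : ∑ i, x i * v i = 0) (hw : ∑ i, x i * w i = 0) :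
    ∑ i, ∑ j, D i j * v i * w j = 0 := by
  have ew := fun m => deriv_shift hg hs hx h1 h2 hl m w hw
  have ev' := fun m => deriv_shift hg hs hx h1 h2 hl m v hv
  set G : Fin 3 → Fin 3 → Fin 3 → ℝ := fun m i j => pd m (fun y => g y i j) x with hGd
  have hG' : ∀ m i j, G m i j = G m j i := hG
  have ew' : ∀ m, ∑ j, (g x m j + ∑ i, x i * G m j i) * w j = lam * w m := by
    intro m
    rw [← ew m]
    refine Finset.sum_congr rfl fun j _ => ?_
    congr 2
    exact Finset.sum_congr rfl fun i _ => by rw [hG' m j i]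
  have ev'' : ∀ m, ∑ j, (g x m j + ∑ i, x i * G m j i) * v j = lam * v m := by
    intro m
    rw [← ev' m]
    refine Finset.sum_congr rfl fun j _ => ?_
    congr 2
    exact Finset.sum_congr rfl fun i _ => by rw [hG' m j i]
  have hD' : ∀ i j, D i j = c * (dl i j - (c * x i) * (c * x j))
      - 1 / 2 * ∑ l, μ * (c * x l) * (G i j l + G j i l - G l i j)
      - 1 / 2 * (c * μ) * (2 * g x i j + ∑ m, x m * G m i j) := hD
  clear_value G
  have w0 := ew' 0
  have w1 := ew' 1
  have w2 := ew' 2
  have v0 := ev'' 0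
  have v1 := ev'' 1
  have v2 := ev'' 2
  have s10 := hsym 1 0
  have s20 := hsym 2 0
  have s21 := hsym 2 1
  simp only [Fin.sum_univ_three] at w0 w1 w2 v0 v1 v2 hv hw ⊢
  simp only [hD', Fin.sum_univ_three, dl]
  simp only [Fin.isValue, reduceIte, zero_ne_one, one_ne_zero, Fin.reduceEq]
  rw [s10, s20, s21] at *
  linear_combination (-(1 / 2) * μ * c) * (v 0 * w0 + v 1 * w1 + v 2 * w2
    + w 0 * v0 + w 1 * v1 + w 2 * v2) - c ^ 3 * (x 0 * v 0 + x 1 * v 1 + x 2 * v 2) * hw
    - c * (v 0 * w 0 + v 1 * w 1 + v 2 * w 2) * hμ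

/-- the inverse metric on the radial direction -/
theorem inv_low {g gi : Bil} (hgi : gi * g = 1) (hsym : ∀ i j, g i j = g j i) {x : Cov}
    {lam : ℝ} (hl : ∀ j, ∑ i, g i j * x i = lam * x j) (hlam : lam ≠ 0) (i : Fin 3) :
    ∑ j, gi i j * x j = x i / lam := by
  rw [eq_div_iff hlam, Finset.sum_mul]
  have h1 : ∀ i k, ∑ j, gi i j * g j k = if i = k then 1 else 0 := by
    intro i k
    have := congrFun (congrFun hgi i) k
    rwa [Matrix.mul_apply, Matrix.one_apply] at this
  calc ∑ j, gi i j * x j * lam = ∑ j, gi i j * ∑ k, g j k * x k := by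
        refine Finset.sum_congr rfl fun j _ => ?_
        have h2 : ∑ k, g j k * x k = lam * x j := by
          rw [← hl j]
          exact Finset.sum_congr rfl fun k _ => by rw [hsym j k]
        rw [h2]; ring
    _ = ∑ k, (∑ j, gi i j * g j k) * x k := by
        simp only [Fin.sum_univ_three]; ring
    _ = x i := by simp [h1]

end XMEANm

open XMEANm in
theorem XMEAN : Stmt_XMEAN := by
  intro g δ x hg hs hx h1 h2
  have hn : ‖x‖ ≠ 0 := norm_ne_zero_iff.2 hx
  have hr : 0 < ‖x‖ := norm_pos_iff.2 hx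
  have hpd := hg.posDef x h1
  have hsymy : ∀ y : E3, 1 - δ < ‖y‖ → ∀ i j, g y i j = g y j i := by
    intro y hy i j
    have := (hg.posDef y hy).isHermitian.apply j i
    simpa using this
  have hsym := hsymy x h1
  have hG : ∀ m i j, pd m (fun y => g y i j) x = pd m (fun y => g y j i) x := by
    intro m i j
    refine pd_congr ?_
    filter_upwards [near h1 h2] with y hy
    exact hsymy y hy.1 i j
  set lam := (∑ i, ∑ k, g x i k * x i * x k) / ‖x‖ ^ 2 with hlamd
  have hquad : 0 < ∑ i, ∑ k, g x i k * x i * x k := by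
    have hx' : (fun i => x i : Fin 3 → ℝ) ≠ 0 := by
      intro h
      refine hx ?_
      ext i
      exact congrFun h i
    have := hpd.dotProduct_mulVec_pos hx'
    simp only [dotProduct, Matrix.mulVec, star_trivial, Finset.mul_sum] at this
    refine this.trans_eq ?_
    refine Finset.sum_congr rfl fun i _ => Finset.sum_congr rfl fun k _ => ?_
    ring
  have hlam : 0 < lam := by positivity
  have hl : ∀ j, ∑ i, g x i j * x i = lam * x j := fun j =>
    eigen (g := g x) (x := fun i => x i) (norm_sum x) (pow_ne_zero 2 hn)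
      (fun v hv => hs x h1 h2 v hv) j
  clear_value lam
  have hdet : IsUnit (g x).det := hpd.det_pos.ne'.isUnit
  have hgi : (g x)⁻¹ * g x = 1 := Matrix.nonsing_inv_mul _ hdet
  have hisym : ∀ i j, (g x)⁻¹ i j = (g x)⁻¹ j i := by
    intro i j
    have := hpd.inv.isHermitian.apply j i
    simpa using this
  have hilow := inv_low hgi hsym (x := fun i => x i) hl hlam.ne'
  rw [grad_rad hx]
  have hnn : ∑ i, nu x i * nu x i = 1 := by
    unfold nu
    have := norm_sum x
    simp only [Fin.sum_univ_three] at this ⊢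
    field_simp
    linarith
  have hinu : ∀ i, ∑ j, (g x)⁻¹ i j * nu x j = nu x i / lam := by
    intro i
    have := hilow i
    unfold nu
    simp only [Fin.sum_univ_three] at this ⊢
    field_simp
    field_simp at this
    linarith
  have hev : ev (g x)⁻¹ (nu x) (nu x) = 1 / lam := by
    unfold ev
    calc ∑ i, ∑ j, (g x)⁻¹ i j * nu x i * nu x j
        = ∑ i, nu x i * ∑ j, (g x)⁻¹ i j * nu x j := by
          simp only [Fin.sum_univ_three]; ring
      _ = ∑ i, nu x i * (nu x i / lam) := by simp only [hinu]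
      _ = (∑ i, nu x i * nu x i) / lam := by
          simp only [Fin.sum_univ_three]; ring
      _ = 1 / lam := by rw [hnn]
  have hlen2 : len g x (nu x) ^ 2 = 1 / lam := by
    unfold len
    rw [hev, Real.sq_sqrt (by positivity)]
  have hlen0 : 0 < len g x (nu x) := by
    unfold len
    rw [hev]
    exact Real.sqrt_pos.2 (by positivity)
  refine ⟨?_, hlen0⟩
  -- the trace over the plane
  have hbtan : ∀ B : Bil, btan g x (nu x) B
      = ∑ i, ∑ j, ((g x)⁻¹ i j - nu x i * nu x j / lam) * B i j := by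
    intro B
    unfold btan bnn trg ev nrm raise
    simp only [hinu]
    have hL : len g x (nu x) ≠ 0 := hlen0.ne'
    have e : ∀ i j, B i j * (nu x i / lam / len g x (nu x)) * (nu x j / lam / len g x (nu x))
        = nu x i * nu x j / lam * B i j := by
      intro i j
      have e1 : B i j * (nu x i / lam / len g x (nu x)) * (nu x j / lam / len g x (nu x))
          = B i j * nu x i * nu x j / (lam ^ 2 * len g x (nu x) ^ 2) := by
        field_simp
      rw [e1, hlen2]
      field_simp
    simp only [e, sub_mul, Finset.sum_sub_distrib]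
  -- the difference of the two forms
  have hkey : btan g x (nu x) (cHess g x (nu x) (hess2 rad x)
      - (1 / 2 * (‖x‖⁻¹ * lam⁻¹)) • eulG g x) = 0 := by
    rw [hbtan]
    refine tan_zero (Q := Matrix.of fun i j => (g x)⁻¹ i j - nu x i * nu x j / lam)
      (n := nu x) ?_ ?_ hnn ?_
    · intro j
      have := hinu j
      simp only [Matrix.of_apply]
      calc ∑ i, ((g x)⁻¹ i j - nu x i * nu x j / lam) * nu x i
          = (∑ i, (g x)⁻¹ j i * nu x i) - (∑ i, nu x i * nu x i) * (nu x j / lam) := by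
            simp only [hisym j, Fin.sum_univ_three]; ring
        _ = 0 := by rw [this, hnn]; ring
    · intro i
      have := hinu i
      simp only [Matrix.of_apply]
      calc ∑ j, ((g x)⁻¹ i j - nu x i * nu x j / lam) * nu x j
          = (∑ j, (g x)⁻¹ i j * nu x j) - (∑ j, nu x j * nu x j) * (nu x i / lam) := by
            simp only [Fin.sum_univ_three]; ring
        _ = 0 := by rw [this, hnn]; ring
    · intro v w hv hw
      have hx1 : ∀ u : Cov, ∑ i, nu x i * u i = 0 → ∑ i, x i * u i = 0 := by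
        intro u hu
        unfold nu at hu
        simp only [Fin.sum_univ_three] at hu ⊢
        field_simp at hu
        linarith
      refine second hg hs hx h1 h2 (lam := lam) (c := ‖x‖⁻¹) (μ := lam⁻¹) hl
        (mul_inv_cancel₀ hlam.ne') hsym hG (fun i j => ?_) (hx1 v hv) (hx1 w hw)
      rw [Matrix.sub_apply, Matrix.smul_apply, smul_eq_mul, cHess, Matrix.of_apply, hess_rad hx,
        eulG, Matrix.of_apply]
      have hch : ∑ k, christoffel g k i j x * nu x k
          = 1 / 2 * ∑ l, lam⁻¹ * (‖x‖⁻¹ * x l) * (pd i (fun y => g y j l) x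
            + pd j (fun y => g y i l) x - pd l (fun y => g y i j) x) := by
        unfold christoffel
        calc ∑ k, (1 / 2 * ∑ l, (g x)⁻¹ k l * (pd i (fun y => g y j l) x
              + pd j (fun y => g y i l) x - pd l (fun y => g y i j) x)) * nu x k
            = 1 / 2 * ∑ l, (∑ k, (g x)⁻¹ l k * nu x k) * (pd i (fun y => g y j l) x
              + pd j (fun y => g y i l) x - pd l (fun y => g y i j) x) := by
              simp only [Fin.sum_univ_three, hisym 1 0, hisym 2 0, hisym 2 1]
              ring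
          _ = 1 / 2 * ∑ l, lam⁻¹ * (‖x‖⁻¹ * x l) * (pd i (fun y => g y j l) x
            + pd j (fun y => g y i l) x - pd l (fun y => g y i j) x) := by
              congr 1
              refine Finset.sum_congr rfl fun l _ => ?_
              rw [hinu l, nu]
              ring
      rw [hch]
      unfold nu
      ring
  have hlin : btan g x (nu x) (cHess g x (nu x) (hess2 rad x))
      = 1 / 2 * (‖x‖⁻¹ * lam⁻¹) * btan g x (nu x) (eulG g x) := by
    rw [hbtan] at hkey
    rw [hbtan, hbtan]
    simp only [Matrix.sub_apply, Matrix.smul_apply, smul_eq_mul, mul_sub,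
      Finset.sum_sub_distrib] at hkey
    rw [Finset.mul_sum]
    simp only [Finset.mul_sum]
    rw [sub_eq_zero] at hkey
    rw [hkey]
    refine Finset.sum_congr rfl fun i _ => Finset.sum_congr rfl fun j _ => ?_
    ring
  unfold sphereMean
  rw [grad_rad hx, hlin]
  have e2 : 2 * ‖x‖ * (1 / 2 * (‖x‖⁻¹ * lam⁻¹) * btan g x (nu x) (eulG g x)
      / len g x (nu x)) / len g x (nu x)
      = lam⁻¹ * btan g x (nu x) (eulG g x) / len g x (nu x) ^ 2 := by
    field_simp
  rw [e2, hlen2]
  field_simp

end Pool.Agent.PFlow
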