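import Pool.Agent.PFlow.StmtsX1
import Pool.Agent.PFlow.E.WGTA
import Pool.Agent.PFlow.E.MOD

/-!
# Module XMOD: comparison of areas, and the integral of the defect
-/

open MeasureTheory Filter Topology
open scoped ContDiff ENNReal

namespace Pool.Agent.PFlow

open Pool.Agent.PenroseSph

namespace XMODA

lemma inv_mul_det {A : Bil} (hA : A.PosDef) (p : Cov) :
    ev A⁻¹ p p * A.det = ev A.adjugate p p := by
  have hd : A.det ≠ 0 := hA.det_pos.ne'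
  have e : ∀ i j, A⁻¹ i j * A.det = A.adjugate i j := by
    intro i j
    rw [Matrix.inv_def, Matrix.smul_apply, smul_eq_mul, Ring.inverse_eq_inv']
    field_simp
  unfold ev
  rw [Finset.sum_mul]
  refine Finset.sum_congr rfl fun i _ => ?_
  rw [Finset.sum_mul]
  refine Finset.sum_congr rfl fun j _ => ?_
  rw [← e i j]
  ring

lemma prod_close {a b a' b' C t : ℝ} (hC : 0 < C) (ht : 0 ≤ t) (hb : |b| ≤ C) (ha' : |a'| ≤ C)
    (h1 : |a' - a| ≤ C * t) (h2 : |b' - b| ≤ C * t) :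
    |a * b - a' * b'| ≤ 2 * C ^ 2 * t := by
  have e : a * b - a' * b' = -((a' - a) * b) - a' * (b' - b) := by ring
  rw [e]
  calc |-((a' - a) * b) - a' * (b' - b)| ≤ |-((a' - a) * b)| + |a' * (b' - b)| := abs_sub _ _
    _ = |a' - a| * |b| + |a'| * |b' - b| := by rw [abs_neg, abs_mul, abs_mul]
    _ ≤ (C * t) * C + C * (C * t) := by gcongr
    _ = 2 * C ^ 2 * t := by ring

lemma two_close {a b c d a' b' c' d' C t : ℝ} (hC : 0 < C) (ht : 0 ≤ t) (hb : |b| ≤ C)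
    (ha' : |a'| ≤ C) (hd : |d| ≤ C) (hc' : |c'| ≤ C)
    (h1 : |a' - a| ≤ C * t) (h2 : |b' - b| ≤ C * t)
    (h3 : |c' - c| ≤ C * t) (h4 : |d' - d| ≤ C * t) :
    |(a * b - c * d) - (a' * b' - c' * d')| ≤ 4 * C ^ 2 * t := by
  have e : (a * b - c * d) - (a' * b' - c' * d') = (a * b - a' * b') - (c * d - c' * d') := by
    ring
  rw [e]
  have h5 := prod_close hC ht hb ha' h1 h2
  have h6 := prod_close hC ht hd hc' h3 h4
  have h7 := abs_sub (a * b - a' * b') (c * d - c' * d')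
  linarith

lemma two_close' {a b c d a' b' c' d' C t : ℝ} (hC : 0 < C) (ht : 0 ≤ t) (hb : |b| ≤ C)
    (ha' : |a'| ≤ C) (hd : |d| ≤ C) (hc' : |c'| ≤ C)
    (h1 : |a' - a| ≤ C * t) (h2 : |b' - b| ≤ C * t)
    (h3 : |c' - c| ≤ C * t) (h4 : |d' - d| ≤ C * t) :
    |(-(a * b) + c * d) - (-(a' * b') + c' * d')| ≤ 4 * C ^ 2 * t := by
  have h := two_close hC ht hd hc' hb ha' h3 h4 h1 h2
  have e : (-(a * b) + c * d) - (-(a' * b') + c' * d') =
    (c * d - a * b) - (c' * d' - a' * b') := by ring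
  rw [e]
  exact h

lemma adj_close {A B : Bil} {C t : ℝ} (hC : 0 < C) (ht : 0 ≤ t) (hA : ∀ i j, |A i j| ≤ C)
    (hB : ∀ i j, |B i j| ≤ C) (hAB : ∀ i j, |B i j - A i j| ≤ C * t) (i j : Fin 3) :
    |A.adjugate i j - B.adjugate i j| ≤ 4 * C ^ 2 * t := by
  have key : ∀ a b c d : Fin 3 × Fin 3,
      |(A a.1 a.2 * A b.1 b.2 - A c.1 c.2 * A d.1 d.2)
        - (B a.1 a.2 * B b.1 b.2 - B c.1 c.2 * B d.1 d.2)| ≤ 4 * C ^ 2 * t := fun a b c d =>
    two_close hC ht (hA _ _) (hB _ _) (hA _ _) (hB _ _) (hAB _ _) (hAB _ _) (hAB _ _) (hAB _ _)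
  have key' : ∀ a b c d : Fin 3 × Fin 3,
      |(-(A a.1 a.2 * A b.1 b.2) + A c.1 c.2 * A d.1 d.2)
        - (-(B a.1 a.2 * B b.1 b.2) + B c.1 c.2 * B d.1 d.2)| ≤ 4 * C ^ 2 * t := fun a b c d =>
    two_close' hC ht (hA _ _) (hB _ _) (hA _ _) (hB _ _) (hAB _ _) (hAB _ _) (hAB _ _) (hAB _ _)
  rw [Matrix.adjugate_fin_three, Matrix.adjugate_fin_three]
  fin_cases i <;> fin_cases j
  · exact key (1, 1) (2, 2) (1, 2) (2, 1)
  · exact key' (0, 1) (2, 2) (0, 2) (2, 1)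
  · exact key (0, 1) (1, 2) (0, 2) (1, 1)
  · exact key' (1, 0) (2, 2) (1, 2) (2, 0)
  · exact key (0, 0) (2, 2) (0, 2) (2, 0)
  · exact key' (0, 0) (1, 2) (0, 2) (1, 0)
  · exact key (1, 0) (2, 1) (1, 1) (2, 0)
  · exact key' (0, 0) (2, 1) (0, 1) (2, 0)
  · exact key (0, 0) (1, 1) (0, 1) (1, 0)

lemma ev_close {A B : Bil} {s : ℝ} (hs : 0 ≤ s) (h : ∀ i j, |A i j - B i j| ≤ s) (p : Cov) :
    ev A p p ≤ ev B p p + 3 * s * ∑ i, p i ^ 2 := by
  have h1 : ev A p p - ev B p p ≤ ∑ i, ∑ j, s * (|p i| * |p j|) := by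
    unfold ev
    rw [← Finset.sum_sub_distrib]
    refine Finset.sum_le_sum fun i _ => ?_
    rw [← Finset.sum_sub_distrib]
    refine Finset.sum_le_sum fun j _ => ?_
    have e : A i j * p i * p j - B i j * p i * p j = (A i j - B i j) * (p i * p j) := by ring
    rw [e]
    calc (A i j - B i j) * (p i * p j) ≤ |(A i j - B i j) * (p i * p j)| := le_abs_self _
      _ = |A i j - B i j| * (|p i| * |p j|) := by rw [abs_mul, abs_mul]
      _ ≤ s * (|p i| * |p j|) := by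
        gcongr
        exact h i j
  have h2 : ∑ i, ∑ j, s * (|p i| * |p j|) = s * (∑ i, |p i|) ^ 2 := by
    simp only [Fin.sum_univ_three]
    ring
  have h3 : (∑ i, |p i|) ^ 2 ≤ 3 * ∑ i, p i ^ 2 := by
    simp only [Fin.sum_univ_three, ← sq_abs (p 0), ← sq_abs (p 1), ← sq_abs (p 2)]
    nlinarith [sq_nonneg (|p 0| - |p 1|), sq_nonneg (|p 0| - |p 2|), sq_nonneg (|p 1| - |p 2|)]
  have h4 : s * (∑ i, |p i|) ^ 2 ≤ s * (3 * ∑ i, p i ^ 2) := mul_le_mul_of_nonneg_left h3 hs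
  linarith

lemma inv_lower {B : Bil} (hB : B.PosDef) {C : ℝ} (hC : 0 < C) (hb : ∀ i j, |B i j| ≤ C)
    (hl : ∀ v : Cov, (∑ i, v i ^ 2) ≤ C * ev B v v) (p : Cov) :
    ∑ i, p i ^ 2 ≤ 9 * C ^ 3 * ev B⁻¹ p p := by
  obtain ⟨v, hv⟩ : ∃ v : Cov, v = B⁻¹.mulVec p := ⟨_, rfl⟩
  have hBv : B.mulVec v = p := by
    rw [hv, Matrix.mulVec_mulVec, Matrix.mul_nonsing_inv _ hB.det_pos.ne'.isUnit,
      Matrix.one_mulVec]
  have hp : ∀ i, p i = ∑ j, B i j * v j := fun i => by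
    rw [← hBv]
    rfl
  have hvi : ∀ i, v i = ∑ j, B⁻¹ i j * p j := fun i => by
    rw [hv]
    rfl
  have e1 : ev B⁻¹ p p = ∑ i, p i * v i := by
    unfold ev
    refine Finset.sum_congr rfl fun i _ => ?_
    rw [hvi i, Finset.mul_sum]
    refine Finset.sum_congr rfl fun j _ => ?_
    ring
  have e2 : ev B v v = ∑ i, p i * v i := by
    unfold ev
    refine Finset.sum_congr rfl fun i _ => ?_
    rw [hp i, Finset.sum_mul]
    refine Finset.sum_congr rfl fun j _ => ?_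
    ring
  have h1 := hl v
  rw [e2, ← e1] at h1
  have h2 : ∀ i, p i ^ 2 ≤ C ^ 2 * (3 * ∑ j, v j ^ 2) := by
    intro i
    have h3 : |p i| ≤ C * ∑ j, |v j| := by
      rw [hp i, Finset.mul_sum]
      refine (Finset.abs_sum_le_sum_abs _ _).trans (Finset.sum_le_sum fun j _ => ?_)
      rw [abs_mul]
      gcongr
      exact hb i j
    have h4 : (∑ j, |v j|) ^ 2 ≤ 3 * ∑ j, v j ^ 2 := by
      simp only [Fin.sum_univ_three, ← sq_abs (v 0), ← sq_abs (v 1), ← sq_abs (v 2)]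
      nlinarith [sq_nonneg (|v 0| - |v 1|), sq_nonneg (|v 0| - |v 2|),
        sq_nonneg (|v 1| - |v 2|)]
    calc p i ^ 2 = |p i| ^ 2 := (sq_abs _).symm
      _ ≤ (C * ∑ j, |v j|) ^ 2 := by gcongr
      _ = C ^ 2 * (∑ j, |v j|) ^ 2 := by ring
      _ ≤ C ^ 2 * (3 * ∑ j, v j ^ 2) := by gcongr
  calc ∑ i, p i ^ 2 ≤ ∑ _i : Fin 3, C ^ 2 * (3 * ∑ j, v j ^ 2) :=
        Finset.sum_le_sum fun i _ => h2 i
    _ = 9 * C ^ 2 * ∑ j, v j ^ 2 := by
      rw [Finset.sum_const, Finset.card_univ, Fintype.card_fin, nsmul_eq_mul]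
      push_cast
      ring
    _ ≤ 9 * C ^ 2 * (C * ev B⁻¹ p p) := by gcongr
    _ = 9 * C ^ 3 * ev B⁻¹ p p := by ring

lemma dens_eq {g : TensorField} {x : E3} (hg : (g x).PosDef) (p : Cov) :
    len g x p * volDen g x = Real.sqrt (ev (g x).adjugate p p) := by
  unfold len volDen
  rw [← inv_mul_det hg, Real.sqrt_mul' _ hg.det_pos.le]

theorem area_cmp (C : ℝ) (hC : 0 < C) : ∃ C' : ℝ, 0 < C' ∧ ∀ (g g₁ : TensorField) (x : E3) (τ : ℝ),
    0 < τ → τ ≤ 1 → (g x).PosDef → (g₁ x).PosDef → (∀ i j, |g x i j| ≤ C) →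
    (∀ i j, |g₁ x i j| ≤ C) → (∀ i j, |g₁ x i j - g x i j| ≤ C * τ) →
    (∀ v : Cov, (∑ i, v i ^ 2) ≤ C * ev (g₁ x) v v) → ∀ p : Cov,
    len g x p * volDen g x ≤ (1 + C' * τ) * (len g₁ x p * volDen g₁ x) := by
  refine ⟨108 * C ^ 8, by positivity, fun g g₁ x τ hτ _ hA hB hAb hBb hAB hel p => ?_⟩
  rw [dens_eq hA, dens_eq hB]
  have h1 := ev_close (by positivity) (adj_close hC hτ.le hAb hBb hAB) p
  have h2 := inv_lower hB hC hBb hel p
  have h3 := EWGT.det_lower hB hel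
  have h4 := inv_mul_det hB p
  have hdet := hB.det_pos
  have hs : 0 ≤ ∑ i, p i ^ 2 := Finset.sum_nonneg fun i _ => sq_nonneg _
  have h6 : 0 ≤ ev (g₁ x)⁻¹ p p := by
    by_contra hcon
    push Not at hcon
    have : 9 * C ^ 3 * ev (g₁ x)⁻¹ p p < 0 := mul_neg_of_pos_of_neg (by positivity) hcon
    linarith
  have h5 : ∑ i, p i ^ 2 ≤ 9 * C ^ 6 * ev (g₁ x).adjugate p p := by
    rw [← h4]
    calc ∑ i, p i ^ 2 ≤ 9 * C ^ 3 * ev (g₁ x)⁻¹ p p * 1 := by rw [mul_one]; exact h2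
      _ ≤ 9 * C ^ 3 * ev (g₁ x)⁻¹ p p * (C ^ 3 * (g₁ x).det) := by gcongr
      _ = 9 * C ^ 6 * (ev (g₁ x)⁻¹ p p * (g₁ x).det) := by ring
  have h7 : 0 ≤ ev (g₁ x).adjugate p p := by
    rw [← h4]
    positivity
  have h8 : ev (g x).adjugate p p ≤ (1 + 108 * C ^ 8 * τ) * ev (g₁ x).adjugate p p := by
    have h9 : 3 * (4 * C ^ 2 * τ) * ∑ i, p i ^ 2
        ≤ 3 * (4 * C ^ 2 * τ) * (9 * C ^ 6 * ev (g₁ x).adjugate p p) := by gcongr
    calc ev (g x).adjugate p p ≤ ev (g₁ x).adjugate p p + 3 * (4 * C ^ 2 * τ) * ∑ i, p i ^ 2 := h1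
      _ ≤ ev (g₁ x).adjugate p p + 3 * (4 * C ^ 2 * τ) * (9 * C ^ 6 * ev (g₁ x).adjugate p p) := by
        linarith
      _ = (1 + 108 * C ^ 8 * τ) * ev (g₁ x).adjugate p p := by ring
  have h10 : (1 : ℝ) ≤ 1 + 108 * C ^ 8 * τ := by
    have : 0 ≤ 108 * C ^ 8 * τ := by positivity
    linarith
  rw [Real.sqrt_le_left (by positivity)]
  rw [mul_pow, Real.sq_sqrt h7]
  refine h8.trans ?_
  gcongr
  nlinarith

lemma rpow_add_le {a b q : ℝ} (ha : 0 ≤ a) (hb : 0 ≤ b) (hq : 0 ≤ q) :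
    (a + b) ^ q ≤ 2 ^ q * (a ^ q + b ^ q) := by
  have h1 : a + b ≤ 2 * max a b := by
    have := le_max_left a b
    have := le_max_right a b
    linarith
  have hm : 0 ≤ max a b := ha.trans (le_max_left _ _)
  calc (a + b) ^ q ≤ (2 * max a b) ^ q := Real.rpow_le_rpow (by positivity) h1 hq
    _ = 2 ^ q * (max a b) ^ q := Real.mul_rpow (by norm_num) hm
    _ ≤ 2 ^ q * (a ^ q + b ^ q) := by
      gcongr
      have h3 := Real.rpow_nonneg ha q
      have h4 := Real.rpow_nonneg hb q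
      rcases le_total a b with h | h
      · rw [max_eq_right h]
        linarith
      · rw [max_eq_left h]
        linarith

theorem defect_int (hXEETA : Stmt_XEETA) (g k : TensorField) (δ₀ l q σ : ℝ) (h0 : 0 < δ₀)
    (hg : MetricOn (Outside δ₀) g) (hk : TensorOn (Outside δ₀) k) (_hl : 1 ≤ l) (hq : 1 ≤ q)
    (hσ : 0 < σ) : ∃ σ₁ η₀ : ℝ, 0 < σ₁ ∧ 0 < η₀ ∧ ∀ η : ℝ, 0 < η → η ≤ η₀ →
    ∫ x in cAnn 1 l, (eEta η g k x + σ₁) ^ q ≤ σ := by
  obtain ⟨hc, hi⟩ := hXEETA g k δ₀ h0 hg hk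
  have h2q : (0 : ℝ) < 2 ^ q := Real.rpow_pos_of_pos (by norm_num) q
  obtain ⟨V, hV⟩ : ∃ V : ℝ, V = volume.real (cAnn 1 l) := ⟨_, rfl⟩
  have hV0 : 0 ≤ V := by
    rw [hV]
    exact measureReal_nonneg
  obtain ⟨η₀, hη₀, hη⟩ := hi l q (σ / (2 * 2 ^ q)) hq (by positivity)
  have hq0 : 0 ≤ q := by linarith
  refine ⟨min 1 (σ / (2 * 2 ^ q * (V + 1))), η₀, lt_min one_pos (by positivity), hη₀,
    fun η h1 h2 => ?_⟩
  have h3 := hη η h1 h2
  obtain ⟨hE, hE0⟩ := hc η h1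
  have hσ1 : 0 < min 1 (σ / (2 * 2 ^ q * (V + 1))) := lt_min one_pos (by positivity)
  generalize hsdef : min 1 (σ / (2 * 2 ^ q * (V + 1))) = s at hσ1 ⊢
  have hs1 : s ≤ 1 := hsdef ▸ min_le_left _ _
  have hs2 : s ≤ σ / (2 * 2 ^ q * (V + 1)) := hsdef ▸ min_le_right _ _
  have hcpt := MODL.cAnn_compact 1 l
  have hcE : ContinuousOn (eEta η g k) (cAnn 1 l) := hE.mono fun x hx => by
    have : (1 : ℝ) ≤ ‖x‖ := hx.1
    change 1 - δ₀ < ‖x‖
    linarith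
  have i1 : IntegrableOn (fun x => (eEta η g k x + s) ^ q) (cAnn 1 l) :=
    ((hcE.add continuousOn_const).rpow_const fun x _ => Or.inr hq0).integrableOn_compact hcpt
  have i2 : IntegrableOn (fun x => eEta η g k x ^ q) (cAnn 1 l) :=
    (hcE.rpow_const fun x _ => Or.inr hq0).integrableOn_compact hcpt
  have i3 : IntegrableOn (fun _ : E3 => s ^ q) (cAnn 1 l) :=
    continuousOn_const.integrableOn_compact hcpt
  have hsq : s ^ q ≤ s := by
    calc s ^ q ≤ s ^ (1 : ℝ) := Real.rpow_le_rpow_of_exponent_ge hσ1 hs1 hq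
      _ = s := Real.rpow_one s
  calc ∫ x in cAnn 1 l, (eEta η g k x + s) ^ q
      ≤ ∫ x in cAnn 1 l, 2 ^ q * (eEta η g k x ^ q + s ^ q) := by
        refine setIntegral_mono_on i1 ((i2.add i3).const_mul _) hcpt.measurableSet fun x hx => ?_
        exact rpow_add_le (hE0 x hx.1) hσ1.le hq0
    _ = 2 ^ q * ((∫ x in cAnn 1 l, eEta η g k x ^ q) + V * s ^ q) := by
        rw [integral_const_mul, integral_add i2 i3, setIntegral_const, smul_eq_mul, hV]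
    _ ≤ 2 ^ q * (σ / (2 * 2 ^ q) + (V + 1) * (σ / (2 * 2 ^ q * (V + 1)))) := by
        gcongr
        · linarith
        · exact hsq.trans hs2
    _ = σ := by
        field_simp
        ring

end XMODA

end Pool.Agent.PFlow
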