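import Pool.Agent.PFlow.StmtsX1
import Pool.Agent.PFlow.E.MOD
import Pool.Agent.PFlow.E.CUTM
import Pool.Agent.PFlow.X.XMODA

/-!
# Module XMOD: existence of the modified data (exterior regions)
-/

open MeasureTheory Filter Topology
open scoped ContDiff ENNReal

namespace Pool.Agent.PFlow

open Pool.Agent.PenroseSph

namespace XMODL

open MODL

lemma inverted_at {g g' : TensorField} {x : E3} (h : g (inversion x) = g' (inversion x)) :
    inverted g x = inverted g' x := by
  unfold inverted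
  rw [h]

lemma norm_inversion {x : E3} (hx : x ≠ 0) : ‖inversion x‖ = 1 / ‖x‖ := by
  have h0 : ‖x‖ ≠ 0 := norm_ne_zero_iff.mpr hx
  unfold inversion
  rw [norm_smul, norm_inv, norm_pow, norm_norm]
  field_simp

lemma len_at {g g' : TensorField} {x : E3} (hg : g x = g' x) (p : Cov) :
    len g x p = len g' x p := by
  unfold len
  rw [hg]

lemma vol_at {g g' : TensorField} {x : E3} (hg : g x = g' x) : volDen g x = volDen g' x := by
  unfold volDen
  rw [hg]

lemma trg_at {g g' : TensorField} {x : E3} (hg : g x = g' x) (B : Bil) :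
    trg g x B = trg g' x B := by
  unfold trg
  rw [hg]

lemma matter_at {g g' h h' : TensorField} {x : E3} (hg : g =ᶠ[𝓝 x] g') (hh : h =ᶠ[𝓝 x] h')
    (p : Cov) : matter g h x p = matter g' h' x p := by
  have hn : nrm g x p = nrm g' x p := by
    funext i
    unfold nrm raise len
    rw [hg.self_of_nhds]
  unfold matter
  rw [en_at hg hh.self_of_nhds]
  simp only [mom_at hg hh, hn]

lemma ev_smul (a : ℝ) (B : Bil) (v : Cov) : ev (a • B) v v = a * ev B v v := by
  simp only [ev, Matrix.smul_apply, smul_eq_mul, Finset.mul_sum]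
  refine Finset.sum_congr rfl fun i _ => Finset.sum_congr rfl fun j _ => ?_
  ring

lemma trg_smul (G : TensorField) (x : E3) (a : ℝ) (B : Bil) :
    trg G x (a • B) = a * trg G x B := by
  simp only [trg, Matrix.smul_apply, smul_eq_mul, Finset.mul_sum]
  refine Finset.sum_congr rfl fun i _ => Finset.sum_congr rfl fun j _ => ?_
  ring

/-- The cut-off for the defect. -/
noncomputable def chi (δ : ℝ) (x : E3) : ℝ := max 0 (min 1 (1 + 2 * (‖x‖ - 1) / δ))

lemma chi_cont (δ : ℝ) : Continuous (chi δ) := by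
  unfold chi
  fun_prop

lemma chi_nonneg (δ : ℝ) (x : E3) : 0 ≤ chi δ x := le_max_left _ _

lemma chi_one {δ : ℝ} (hδ : 0 < δ) {x : E3} (hx : 1 ≤ ‖x‖) : chi δ x = 1 := by
  have h1 : 0 ≤ 2 * (‖x‖ - 1) / δ := by
    apply div_nonneg _ hδ.le
    linarith
  unfold chi
  rw [min_eq_left (by linarith)]
  norm_num

lemma chi_zero {δ : ℝ} (hδ : 0 < δ) {x : E3} (hx : ‖x‖ ≤ 1 - δ / 2) : chi δ x = 0 := by
  have h1 : 2 * (‖x‖ - 1) / δ ≤ -1 := by
    rw [div_le_iff₀ hδ]
    linarith
  unfold chi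
  exact max_eq_left ((min_le_right _ _).trans (by linarith))

lemma defect_continuous {δ : ℝ} (hδ : 0 < δ) {F : E3 → ℝ} (hF : ContinuousOn F (Outside δ))
    (s : ℝ) : Continuous (fun x => chi δ x * F x + s) := by
  rw [continuous_iff_continuousAt]
  intro x
  refine ContinuousAt.add ?_ continuousAt_const
  by_cases hx : 1 - δ < ‖x‖
  · have ho : IsOpen (Outside δ) := isOpen_lt continuous_const continuous_norm
    exact (chi_cont δ).continuousAt.mul (hF.continuousAt (ho.mem_nhds hx))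
  · have ho : IsOpen {y : E3 | ‖y‖ < 1 - δ / 2} := isOpen_lt continuous_norm continuous_const
    have hm : x ∈ {y : E3 | ‖y‖ < 1 - δ / 2} := by
      change ‖x‖ < 1 - δ / 2
      linarith
    have h0 : (fun y => chi δ y * F y) =ᶠ[𝓝 x] fun _ => (0 : ℝ) := by
      filter_upwards [ho.mem_nhds hm] with y hy
      rw [chi_zero hδ (le_of_lt hy), zero_mul]
    exact continuousAt_const.congr h0.symm

lemma eEta_nonneg (η : ℝ) (g k : TensorField) (x : E3) : 0 ≤ eEta η g k x := by
  unfold eEta len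
  positivity

lemma exp_half_lt : Real.exp (1 / 2) < 7 / 4 := by
  have h1 : Real.exp (1 / 2) ^ 2 = Real.exp 1 := by
    rw [← Real.exp_nat_mul]
    norm_num
  have h2 := Real.exp_one_lt_d9
  by_contra h3
  push Not at h3
  have h4 : (7 / 4 : ℝ) ^ 2 ≤ Real.exp (1 / 2) ^ 2 := by gcongr
  rw [h1] at h4
  norm_num at h4
  linarith

end XMODL

open MODL XMODL in
theorem XMOD (_hXPHI : Stmt_XPHI) (hXCOLG : Stmt_XCOLG) (hXCOLH : Stmt_XCOLH) (hXSUR : Stmt_XSUR)
    (hXCOLM : Stmt_XCOLM) (hXHAT : Stmt_XHAT) (hXEETA : Stmt_XEETA) (hXAFD : Stmt_XAFD)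
    (hXSHELL : Stmt_XSHELL) (hXFAR : Stmt_XFAR) (hKAP : Stmt_KAP) (hBARA : Stmt_BARA) :
    Stmt_XMOD := by
  rintro g k ⟨δ₀, hδ₀, hg, hk, hsl⟩ hdec hPS hsur htr
  -- the parameter `δ`
  obtain ⟨δ, hδ, hδ2, hδe⟩ : ∃ δ : ℝ, 0 < δ ∧ δ ≤ 1 / 2 ∧ Real.exp δ < 1 + δ₀ := by
    have h1 : 0 < Real.log (1 + δ₀) := Real.log_pos (by linarith)
    refine ⟨min (1 / 2) (Real.log (1 + δ₀) / 2), lt_min (by norm_num) (by linarith),
      min_le_left _ _, ?_⟩
    have h2 : min (1 / 2) (Real.log (1 + δ₀) / 2) < Real.log (1 + δ₀) :=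
      (min_le_right _ _).trans_lt (by linarith)
    calc Real.exp (min (1 / 2) (Real.log (1 + δ₀) / 2)) < Real.exp (Real.log (1 + δ₀)) :=
          Real.exp_lt_exp.mpr h2
      _ = 1 + δ₀ := Real.exp_log (by linarith)
  have hexpδ : Real.exp δ < 7 / 4 := (Real.exp_le_exp.mpr hδ2).trans_lt exp_half_lt
  have hOut : ∀ x : E3, 1 ≤ ‖x‖ → x ∈ Outside δ₀ := by
    intro x hx
    change 1 - δ₀ < ‖x‖
    linarith
  -- constants
  obtain ⟨C₁, hC₁, hd1, hel1⟩ := hXAFD g k δ₀ hδ₀ hg hk hdec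
  obtain ⟨C₂, l₀, hC₂, hl₀, hfar⟩ := hXFAR g k δ₀ C₁ hδ₀ hg hk hd1 hel1
  obtain ⟨C₃, hC₃, hsh⟩ := hXSHELL g k δ₀ C₁ hδ₀ hg hk hPS hsur hd1 hel1
  obtain ⟨C₄, hC₄, hcg⟩ := hXCOLG g δ₀ δ hδ₀ hδ hδ2 hδe hg hsl
  obtain ⟨C₅, hC₅, hch⟩ := hXCOLH δ₀ δ hδ₀ hδ hδ2 hδe
  obtain ⟨C₆, hC₆, hcm⟩ := hXCOLM g δ₀ δ C₁ hδ₀ hδ hδ2 hδe hg hsl hC₁
  obtain ⟨M, hM⟩ : ∃ M : ℝ, M = C₁ + C₂ + C₄ + 1 + 16 * (C₅ * C₁) := ⟨_, rfl⟩
  have h51 : 0 < C₅ * C₁ := mul_pos hC₅ hC₁
  have hM0 : 0 < M := by linarith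
  obtain ⟨C₇, hC₇, hba⟩ := hBARA (4 * M)
  obtain ⟨C₈, hC₈, har⟩ := XMODA.area_cmp (C₁ + 1 + C₄) (by linarith)
  obtain ⟨C, hCdef⟩ : ∃ C : ℝ, C = C₁ + C₂ + C₃ + C₄ + C₆ + 2 * C₇ + C₈ + M + 4 := ⟨_, rfl⟩
  have hC : 0 < C := by linarith
  have hkb : ∀ x : E3, 1 ≤ ‖x‖ → ∀ i j, |k x i j| ≤ C₁ / ‖x‖ ^ 2 := fun x hx i j =>
    (hd1 x hx i j).2.2.2.1
  have hkb1 : ∀ x : E3, 1 ≤ ‖x‖ → ∀ i j, |k x i j| ≤ C₁ := fun x hx i j =>
    (hkb x hx i j).trans (div_le_self hC₁.le (one_le_pow₀ hx))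
  refine ⟨C, l₀, hC, hl₀, fun x hx i j => (hkb x hx i j).trans (by gcongr; linarith), ?_⟩
  intro l κ q σ τ₀ hl hκ hq hσ hτ₀
  have hl8 : 8 ≤ l := hl₀.trans hl
  have hl0 : 0 < l := by linarith
  -- the choice of `η`
  obtain ⟨σ₁, η₀, hσ₁, hη₀, hint⟩ := XMODA.defect_int hXEETA g k δ₀ l q σ hδ₀ hg hk
    (by linarith) hq hσ
  obtain ⟨η, hη, hηη, hηκ⟩ : ∃ η : ℝ, 0 < η ∧ η ≤ η₀ ∧ C₆ * η ≤ κ / 2 := by
    refine ⟨min η₀ (κ / (2 * C₆)), lt_min hη₀ (by positivity), min_le_left _ _, ?_⟩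
    calc C₆ * min η₀ (κ / (2 * C₆)) ≤ C₆ * (κ / (2 * C₆)) := by
          gcongr
          exact min_le_right _ _
      _ = κ / 2 := by field_simp
  obtain ⟨kη, hkη⟩ : ∃ kη : TensorField, kη = hat η g k := ⟨_, rfl⟩
  obtain ⟨tH, nH, aH, sH, pH⟩ := hXHAT g k δ₀ hδ₀ hg hk hPS η hη
  rw [← hkη] at tH nH aH sH pH
  have hkηb : ∀ x : E3, 1 ≤ ‖x‖ → ∀ i j, |kη x i j| ≤ C₁ := fun x hx i j =>
    (aH x i j).trans (hkb1 x hx i j)
  obtain ⟨C', hC', hcol⟩ := hcm kη η tH nH (fun x hx _ => hkηb x hx) hη.le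
    (fun x hx => (htr x hx).trans (pH x hx))
  obtain ⟨τs, hτs, hτsδ, hss⟩ := hXSUR g kη δ₀ δ σ₁ hδ₀ hδ hδ2 hδe hg tH hσ₁
  -- the choice of `τ`
  obtain ⟨τ, hτ, hττ, hτss, hτκ⟩ : ∃ τ : ℝ, 0 < τ ∧ τ ≤ τ₀ ∧ τ ≤ τs ∧ C' * τ ≤ κ / 2 := by
    refine ⟨min τ₀ (min τs (κ / (2 * C'))), lt_min hτ₀ (lt_min hτs (by positivity)),
      min_le_left _ _, (min_le_right _ _).trans (min_le_left _ _), ?_⟩
    calc C' * min τ₀ (min τs (κ / (2 * C'))) ≤ C' * (κ / (2 * C')) := by
          gcongr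
          exact (min_le_right _ _).trans (min_le_right _ _)
      _ = κ / 2 := by field_simp
  have hτδ : τ ≤ δ / 4 := hτss.trans hτsδ
  have hτ1 : τ ≤ 1 := by linarith
  have hexpτ : Real.exp τ < 7 / 4 :=
    (Real.exp_le_exp.mpr (by linarith : τ ≤ 1 / 2)).trans_lt exp_half_lt
  have hexp1 : 1 < Real.exp τ := Real.one_lt_exp_iff.mpr hτ
  obtain ⟨g₁, hg₁⟩ : ∃ g₁ : TensorField, g₁ = colG τ δ g := ⟨_, rfl⟩
  obtain ⟨k₁, hk₁⟩ : ∃ k₁ : TensorField, k₁ = colH τ δ kη := ⟨_, rfl⟩
  obtain ⟨G1, G2, G3, G4, G5⟩ := hcg τ hτ hτδ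
  rw [← hg₁] at G1 G2 G3 G4 G5
  obtain ⟨H1, H2, H3, H4, H5⟩ := hch kη tH τ hτ hτδ hτ1
  rw [← hk₁] at H1 H2 H3 H4 H5
  have H5' := H5 g (fun x hx => hg.posDef x (hOut x hx)) nH
  rw [← hg₁] at H5'
  have H4' : ∀ x : E3, 1 / 4 ≤ ‖x‖ → ‖x‖ ≤ 4 → ∀ i j, |k₁ x i j| ≤ C₅ * C₁ :=
    H4 C₁ fun x hx _ => hkηb x hx
  obtain ⟨F1, F2, F3, F4, F5, F6, F7⟩ := hfar l hl g₁ G1 (fun x hx => G3 x (by linarith))
  obtain ⟨kC, kb, k1, k2, -, kS, kinS⟩ := id hKAP
  -- the data
  obtain ⟨g', hg'⟩ : ∃ g' : TensorField, g' = modG l (1 / 4) g₁ := ⟨_, rfl⟩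
  rw [← hg'] at F1 F2 F3 F4 F5 F6 F7
  obtain ⟨c, hc⟩ : ∃ c : E3 → ℝ, c = fun x => kap (2 * ‖x‖ / l) * kin (1 / 4) x := ⟨_, rfl⟩
  obtain ⟨h', hh'⟩ : ∃ h' : TensorField, h' = fun x => c x • k₁ x := ⟨_, rfl⟩
  have hcx : ∀ x, c x = kap (2 * ‖x‖ / l) * kin (1 / 4) x := fun x => by rw [hc]
  have hh'x : ∀ x, h' x = c x • k₁ x := fun x => by rw [hh']
  have hc0 : ∀ x, 0 ≤ c x := fun x => by
    rw [hcx]
    exact mul_nonneg (CUTM.kap_nonneg hKAP _) (CUTM.kin_nonneg hKAP _ _)
  have hc1 : ∀ x, c x ≤ 1 := fun x => by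
    rw [hcx]
    exact mul_le_one₀ (CUTM.kap_le_one hKAP _) (CUTM.kin_nonneg hKAP _ _)
      (CUTM.kin_le_one hKAP _ _)
  have hkin1 : ∀ x : E3, 1 / 4 ≤ ‖x‖ → kin (1 / 4) x = 1 := fun x hx =>
    CUTM.kin_one hKAP (by norm_num) (by norm_num; linarith)
  have hcz : ∀ x : E3, ‖x‖ ≤ 1 / 8 → c x = 0 := fun x hx => by
    rw [hcx, CUTM.kin_zero hKAP (by norm_num) (by norm_num; linarith), mul_zero]
  have hcl : ∀ x : E3, l ≤ ‖x‖ → c x = 0 := fun x hx => by
    rw [hcx, k2 _ (by rw [le_div_iff₀ hl0]; linarith), zero_mul]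
  have hcm1 : ∀ x : E3, 1 / 4 ≤ ‖x‖ → ‖x‖ ≤ l / 2 → c x = 1 := fun x hx hx2 => by
    rw [hcx, hkin1 x hx, k1 _ (by rw [div_le_one hl0]; linarith), mul_one]
  have hcS : ContDiff ℝ ∞ c := by
    have h1 := kS (l / 2) (by linarith)
    have e : (fun y : E3 => kap (2 * ‖y‖ / l)) = fun y : E3 => kap (‖y‖ / (l / 2)) := by
      funext y
      congr 1
      field_simp
    rw [hc]
    exact (e ▸ h1 : ContDiff ℝ ∞ (fun y : E3 => kap (2 * ‖y‖ / l))).mul (kinS _ (by norm_num))
  have nzero : ∀ x : E3, 0 < ‖x‖ → x ≠ 0 := fun x hx => norm_pos_iff.mp hx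
  have hsame1 : ∀ x : E3, 1 / 4 ≤ ‖x‖ → ‖x‖ ≤ l / 2 → h' x = k₁ x := fun x hx hx2 => by
    rw [hh'x, hcm1 x hx hx2, one_smul]
  -- germs
  have evG : ∀ x : E3, 1 / 4 < ‖x‖ → ‖x‖ < l → g' =ᶠ[𝓝 x] g₁ := by
    intro x hx1 hx2
    have hopen : IsOpen {y : E3 | 1 / 4 < ‖y‖ ∧ ‖y‖ < l} :=
      (isOpen_lt continuous_const continuous_norm).inter
        (isOpen_lt continuous_norm continuous_const)
    filter_upwards [hopen.mem_nhds ⟨hx1, hx2⟩] with y hy
    exact F4 y hy.1.le hy.2.le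
  have evH : ∀ x : E3, 1 / 4 < ‖x‖ → ‖x‖ < l / 2 → h' =ᶠ[𝓝 x] k₁ := by
    intro x hx1 hx2
    have hopen : IsOpen {y : E3 | 1 / 4 < ‖y‖ ∧ ‖y‖ < l / 2} :=
      (isOpen_lt continuous_const continuous_norm).inter
        (isOpen_lt continuous_norm continuous_const)
    filter_upwards [hopen.mem_nhds ⟨hx1, hx2⟩] with y hy
    exact hsame1 y hy.1.le hy.2.le
  have evGg : ∀ x : E3, Real.exp δ < ‖x‖ → g₁ =ᶠ[𝓝 x] g := by
    intro x hx
    have hopen : IsOpen {y : E3 | Real.exp δ < ‖y‖} := isOpen_lt continuous_const continuous_norm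
    filter_upwards [hopen.mem_nhds hx] with y hy
    exact G3 y (le_of_lt hy)
  have evHk : ∀ x : E3, Real.exp δ < ‖x‖ → k₁ =ᶠ[𝓝 x] kη := by
    intro x hx
    have hopen : IsOpen {y : E3 | Real.exp δ < ‖y‖} := isOpen_lt continuous_const continuous_norm
    filter_upwards [hopen.mem_nhds hx] with y hy
    exact H3 y (le_of_lt hy)
  have evH0 : ∀ x : E3, l < ‖x‖ → h' =ᶠ[𝓝 x] 0 := by
    intro x hx
    have hopen : IsOpen {y : E3 | l < ‖y‖} := isOpen_lt continuous_const continuous_norm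
    filter_upwards [hopen.mem_nhds hx] with y hy
    rw [hh'x, hcl y (le_of_lt hy), zero_smul]
    rfl
  have evG1 : ∀ x : E3, 2 * l < ‖x‖ → g' =ᶠ[𝓝 x] fun _ => (1 : Bil) := by
    intro x hx
    have hopen : IsOpen {y : E3 | 2 * l < ‖y‖} := isOpen_lt continuous_const continuous_norm
    filter_upwards [hopen.mem_nhds hx] with y hy
    exact F5 y (le_of_lt hy)
  have hsmooth : ∀ x : E3, ∀ i j, ContDiffAt ℝ ∞ (fun y => g' y i j) x := fun x i j =>
    (F1.smooth i j).contDiffAt Filter.univ_mem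
  -- the size of `h'`
  have hHabs : ∀ (x : E3) (i j : Fin 3), |h' x i j| ≤ |k₁ x i j| := by
    intro x i j
    have e1 : h' x i j = c x * k₁ x i j := by
      rw [hh'x]
      rfl
    rw [e1, abs_mul, abs_of_nonneg (hc0 x)]
    exact mul_le_of_le_one_left (abs_nonneg _) (hc1 x)
  have hHM : ∀ x : E3, 1 ≤ ‖x‖ → ∀ i j, |h' x i j| ≤ M / ‖x‖ ^ 2 := by
    intro x hx i j
    have hx0 : 0 < ‖x‖ := by linarith
    rcases le_total ‖x‖ 4 with h4 | h4
    · refine (hHabs x i j).trans ((H4' x (by linarith) h4 i j).trans ?_)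
      rw [le_div_iff₀ (by positivity)]
      have : ‖x‖ ^ 2 ≤ 16 := by nlinarith
      nlinarith
    · refine (hHabs x i j).trans ?_
      rw [H3 x (by linarith)]
      refine ((aH x i j).trans (hkb x hx i j)).trans ?_
      gcongr
      linarith
  -- ellipticity
  have hEll : ∀ x : E3, 1 / 2 < ‖x‖ → ∀ v : Cov, (∑ i, v i ^ 2) ≤ M * ev (g' x) v v ∧
      ev (g' x) v v ≤ M * ∑ i, v i ^ 2 := by
    intro x hx
    rcases le_total ‖x‖ 4 with h4 | h4
    · rw [F4 x (by linarith) (by linarith)]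
      exact ell_mono hC₄ (by linarith) (G5 x (by linarith) h4).2
    · exact ell_mono hC₂ (by linarith) (F3 x (by linarith))
  have hsymm : TensorOn Set.univ h' := by
    refine ⟨fun i j => ?_, fun x _ => ?_⟩
    · have h1 : ContDiff ℝ ∞ (fun x => c x * k₁ x i j) :=
        CUTM.smooth_of (a := 1 / 8) (by norm_num) hcS hcz (H1.smooth i j)
      have e : (fun x => h' x i j) = fun x => c x * k₁ x i j := by
        funext x
        rw [hh'x]
        rfl
      rw [e]
      exact h1.contDiffOn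
    · by_cases hx : x = 0
      · rw [hh'x, hcz x (by rw [hx, norm_zero]; norm_num), zero_smul]
        exact Matrix.isSymm_zero
      · rw [hh'x]
        exact (H1.symm x hx).smul (c x)
  refine ⟨τ, g', h', fun x => chi δ₀ x * eEta η g k x + σ₁, hτ, hττ, ?_, ?_⟩
  · refine ⟨F1, hsymm, ?_, ?_, ?_, ?_, ?_, ?_, F5, ?_, ?_, ?_, ?_, ?_, ?_, ?_, ?_, ?_, ?_, ?_, ?_,
      F7⟩
    · -- mirror
      intro x hx1 hx2
      have hx0 : 0 < ‖x‖ := by linarith
      have hne := nzero x hx0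
      have hi := norm_inversion hne
      have hi1 : 1 / 4 ≤ ‖inversion x‖ := by
        rw [hi]
        exact one_div_le_one_div_of_le hx0 hx2.le
      have hi2 : ‖inversion x‖ ≤ 4 := by
        rw [hi, div_le_iff₀ hx0]
        linarith
      constructor
      · rw [inverted_at (F4 _ hi1 (by linarith)), G2 x hne, F4 x hx1.le (by linarith)]
      · rw [inverted_at (hsame1 _ hi1 (by linarith)), H2 x hne, hsame1 x hx1.le (by linarith)]
    · -- 2-nonnegative
      intro x hx v hv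
      rw [hh'x, ev_smul, trg_smul]
      by_cases h0 : c x = 0
      · rw [h0, zero_mul, zero_mul]
      · have h2 : ‖x‖ < l := by
          by_contra hcon
          exact h0 (hcl x (not_lt.1 hcon))
        have hx1 : (1 : ℝ) ≤ ‖x‖ := hx
        have h3 := F4 x (by linarith) h2.le
        rw [h3] at hv
        rw [trg_at h3]
        exact mul_le_mul_of_nonneg_left (H5' x hx v hv) (hc0 x)
    · -- bounds
      intro x hx1 hx2 i j
      obtain ⟨b1, b2⟩ := (G5 x (by linarith) (by linarith)).1 i j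
      refine ⟨?_, fun m => ?_, ?_⟩
      · rw [F4 x (by linarith) (by linarith)]
        exact b1.trans (by linarith)
      · rw [pd_ev (comp_ev (evG x (by linarith) (by linarith)) i j) m]
        exact (b2 m).trans (by linarith)
      · exact (hHabs x i j).trans ((H4' x (by linarith) (by linarith) i j).trans (by linarith))
    · -- elliptic
      exact fun x hx => ell_mono hM0 (by linarith) (hEll x hx)
    · -- area
      intro x hx1 hx2 p
      have e := F4 x (by linarith) hx2.le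
      rw [len_at e, vol_at e]
      have n1 : 0 ≤ len g₁ x p * volDen g₁ x :=
        mul_nonneg (Real.sqrt_nonneg _) (Real.sqrt_nonneg _)
      rcases le_total ‖x‖ 4 with h4 | h4
      · have hxne : x ≠ 0 := nzero x (by linarith)
        have h1 := har g g₁ x τ hτ hτ1 (hg.posDef x (hOut x hx1)) (G1.posDef x hxne)
          (fun i j => by
            have b1 := (hd1 x hx1 i j).1
            have b2 : C₁ / ‖x‖ ≤ C₁ := div_le_self hC₁.le hx1
            have b3 : |(1 : Bil) i j| ≤ 1 := by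
              rw [Matrix.one_apply]
              split_ifs <;> simp
            have b4 : |g x i j| ≤ |g x i j - (1 : Bil) i j| + |(1 : Bil) i j| := by
              have := abs_add_le (g x i j - (1 : Bil) i j) ((1 : Bil) i j)
              rwa [sub_add_cancel] at this
            linarith)
          (fun i j => by
            have := ((G5 x (by linarith) h4).1 i j).1
            linarith)
          (fun i j => by
            refine (G4 x hx1 h4 i j).trans ?_
            gcongr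
            linarith)
          (fun v => by
            refine (ell_mono (C' := C₁ + 1 + C₄) hC₄ (by linarith) (G5 x (by linarith) h4).2 v).1)
          p
        refine h1.trans ?_
        apply mul_le_mul_of_nonneg_right _ n1
        have : C₈ * τ ≤ C * τ := by
          gcongr
          linarith
        linarith
      · have e2 := G3 x (by linarith)
        rw [len_at e2, vol_at e2] at n1 ⊢
        have : 0 ≤ C * τ := by positivity
        nlinarith
    · -- same
      intro x hx1 hx2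
      rw [F4 x (by linarith) hx2.le, G3 x (by linarith)]
    · -- supp
      intro x hx
      rw [hh'x, hcl x hx, zero_smul]
    · -- barrier
      intro ε hε hε1 x h1
      have hx0 : 0 < ‖x‖ := by linarith
      have b1 := hba g' h' x h1 (hsmooth x) (F1.posDef x (Set.mem_univ _))
        (hsymm.symm x (Set.mem_univ _))
        (ell_mono hM0 (by linarith) (hEll x (by linarith))) (by
          intro i j
          rcases le_total ‖x‖ 2 with h2 | h2
          · obtain ⟨b1, b2⟩ := (G5 x (by linarith) (by linarith)).1 i j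
            have b3 : |(1 : Bil) i j| ≤ 1 := by
              rw [Matrix.one_apply]
              split_ifs <;> simp
            have hsq : ‖x‖ ^ 2 ≤ 4 := by nlinarith
            refine ⟨?_, fun m => ?_, ?_⟩
            · rw [F4 x (by linarith) (by linarith), le_div_iff₀ hx0]
              have b4 : |g₁ x i j - (1 : Bil) i j| ≤ |g₁ x i j| + |(1 : Bil) i j| := abs_sub _ _
              have b5 : |g₁ x i j - (1 : Bil) i j| ≤ M := by linarith
              calc |g₁ x i j - (1 : Bil) i j| * ‖x‖ ≤ M * 2 := by gcongr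
                _ ≤ 4 * M := by linarith
            · rw [pd_ev (comp_ev (evG x (by linarith) (by linarith)) i j) m,
                le_div_iff₀ (by positivity)]
              have b5 : |pd m (fun y => g₁ y i j) x| ≤ M := (b2 m).trans (by linarith)
              calc |pd m (fun y => g₁ y i j) x| * ‖x‖ ^ 2 ≤ M * 4 := by gcongr
                _ = 4 * M := by ring
            · refine (hHM x h1 i j).trans ?_
              gcongr
              linarith
          · obtain ⟨d1, d2, -, -, -⟩ := F2 x h2 i j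
            refine ⟨d1.trans ?_, fun m => (d2 m).trans ?_, (hHM x h1 i j).trans ?_⟩
            · gcongr
              linarith
            · gcongr
              linarith
            · gcongr
              linarith) ε hε hε1
      have b2 := model_out hε hε1 h1
      have b3 : C₇ / ‖x‖ ^ 2 ≤ 2 * C₇ / (1 + ‖x‖ ^ 2) := by
        rw [div_le_div_iff₀ (by positivity) (by positivity)]
        have : 1 ≤ ‖x‖ ^ 2 := one_le_pow₀ h1
        nlinarith
      calc |barB ε g' h' x - bE ε ‖x‖|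
          ≤ |barB ε g' h' x - 2 / ‖x‖| + |2 / ‖x‖ - bE ε ‖x‖| := by
            refine le_trans (le_of_eq ?_) (abs_add_le _ _)
            congr 1
            ring
        _ ≤ 2 * C₇ / (1 + ‖x‖ ^ 2) + 4 / (1 + ‖x‖ ^ 2) := add_le_add (b1.trans b3) b2
        _ = (2 * C₇ + 4) / (1 + ‖x‖ ^ 2) := by ring
        _ ≤ C / (1 + ‖x‖ ^ 2) := by
          gcongr
          linarith
    · -- decay
      exact decay_mono F2 (by linarith)
    · -- hsmall
      intro x hx i j
      refine (hHM x hx i j).trans ?_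
      gcongr
      linarith
    · -- continuity
      exact defect_continuous hδ₀ ((hXEETA g k δ₀ hδ₀ hg hk).1 η hη).1 σ₁
    · -- nonnegativity
      intro x
      have := mul_nonneg (chi_nonneg δ₀ x) (eEta_nonneg η g k x)
      linarith
    · -- collar
      intro x hx1 hx2 p
      have hx3 : ‖x‖ < l / 2 := by linarith
      have e1 := evG x (by linarith) (by linarith)
      rw [len_at e1.self_of_nhds, matter_at e1 (evH x (by linarith) hx3), hg₁, hk₁]
      refine le_trans ?_ (hcol τ hτ hτδ x hx1 hx2 p)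
      have t0 : 0 ≤ tanP x p + negP x p := add_nonneg (Real.sqrt_nonneg _) (le_max_right _ _)
      have v0 : 0 ≤ vsz p := Real.sqrt_nonneg _
      have a1 : C₆ / τ * (tanP x p + negP x p) ≤ C / τ * (tanP x p + negP x p) := by
        gcongr
        linarith
      have a2 : (C₆ * η / τ + C') * vsz p ≤ κ / τ * vsz p := by
        apply mul_le_mul_of_nonneg_right _ v0
        rw [div_add' _ _ _ hτ.ne']
        gcongr
        linarith
      linarith
    · -- core
      intro x hx1 hx2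
      have hx3 : 1 < ‖x‖ := hexp1.trans hx1
      have he := eEta_nonneg η g k x
      rw [surplus_at (evG x (by linarith) (by linarith)) (evH x (by linarith) hx2)]
      have b1 := (sH x hx3).1
      have b2 := hsur x hx3
      rw [chi_one hδ₀ hx3.le]
      rcases le_total ‖x‖ 4 with h4 | h4
      · have b3 := hss τ hτ hτss x hx1 h4
        rw [← hg₁, ← hk₁] at b3
        linarith
      · rw [surplus_at (evGg x (by linarith)) (evHk x (by linarith))]
        linarith
    · -- shell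
      intro x hx1 hx2
      have hx3 : 4 < ‖x‖ := by linarith
      have b1 := hsh η l hη hl8 g' h' x hx1 hx2
        ((evG x (by linarith) hx2).trans (evGg x (by linarith))) (by
          have hopen : IsOpen {y : E3 | 4 < ‖y‖} := isOpen_lt continuous_const continuous_norm
          filter_upwards [hopen.mem_nhds hx3] with y hy
          have hy4 : 4 < ‖y‖ := hy
          rw [hh'x, hcx, hkin1 y (by linarith), mul_one, H3 y (by linarith), hkη])
      have h4 : 0 ≤ msz (k x) / l + msz (k x) ^ 2 := by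
        have : 0 ≤ msz (k x) := Real.sqrt_nonneg _
        positivity
      have h5 : C₃ * (msz (k x) / l + msz (k x) ^ 2) ≤ C * (msz (k x) / l + msz (k x) ^ 2) :=
        mul_le_mul_of_nonneg_right (by linarith) h4
      rw [chi_one hδ₀ (by linarith)]
      linarith
    · -- transition
      intro x hx1 hx2
      rw [surplus_zero (evH0 x hx1)]
      have e1 : scalarCurvature g' x / 2 * volDen g' x - linR g' x / 2
          = (scalarCurvature g' x * volDen g' x - linR g' x) / 2 := by ring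
      rw [e1, abs_div, abs_of_pos (by norm_num : (0 : ℝ) < 2)]
      have h2 := (F6 x hx1 hx2).1
      have h3 : C₂ / l ^ 4 ≤ C / l ^ 4 := by
        gcongr
        linarith
      have h4 := abs_nonneg (scalarCurvature g' x * volDen g' x - linR g' x)
      linarith
    · intro x hx1 hx2
      refine (F6 x hx1 hx2).2.trans ?_
      gcongr
      linarith
    · -- flat
      intro x hx
      rw [surplus_zero (evH0 x (by linarith)), scal_one (evG1 x hx), zero_div]
  · -- the integral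
    have e : ∫ x in cAnn 1 l, (chi δ₀ x * eEta η g k x + σ₁) ^ q
        = ∫ x in cAnn 1 l, (eEta η g k x + σ₁) ^ q := by
      refine setIntegral_congr_fun (cAnn_compact 1 l).measurableSet fun x hx => ?_
      have hx1 : (1 : ℝ) ≤ ‖x‖ := hx.1
      simp only [chi_one hδ₀ hx1, one_mul]
    rw [e]
    exact hint η hη hηη

end Pool.Agent.PFlow
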