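import Pool.Agent.PFlow.StmtsX2

/-!
# XMODM: the constant of the modified data of the exterior case may be increased
-/

open MeasureTheory Filter Topology
open scoped ContDiff

namespace Pool.Agent.PFlow

open Pool.Agent.PenroseSph

namespace XEMODM

lemma decay_mono {C C' R : ℝ} {g h : TensorField} (hR : 0 < R) (hC : C ≤ C')
    (hd : DecayFrom C R g h) : DecayFrom C' R g h := by
  intro x hx i j
  have hr : 0 < ‖x‖ := by linarith
  obtain ⟨h1, h2, h3, h4, h5⟩ := hd x hx i j
  have hm : ∀ n : ℕ, C / ‖x‖ ^ n ≤ C' / ‖x‖ ^ n := fun n =>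
    div_le_div_of_nonneg_right hC (by positivity)
  have hm1 : C / ‖x‖ ≤ C' / ‖x‖ := div_le_div_of_nonneg_right hC hr.le
  exact ⟨h1.trans hm1, fun k => (h2 k).trans (hm 2), fun k l => (h3 k l).trans (hm 3),
    h4.trans (hm 2), fun k => (h5 k).trans (hm 3)⟩

lemma ev_nonneg {B : Bil} (hB : B.PosDef) (v : Cov) : 0 ≤ ev B v v := by
  have h := hB.posSemidef.dotProduct_mulVec_nonneg v
  have e : ev B v v = star v ⬝ᵥ (B.mulVec v) := by
    simp only [ev, dotProduct, Matrix.mulVec, Pi.star_apply, star_trivial]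
    refine Finset.sum_congr rfl fun i _ => ?_
    rw [Finset.mul_sum]
    refine Finset.sum_congr rfl fun j _ => ?_
    ring
  rw [e]
  exact h

end XEMODM

theorem XMODM : Stmt_XMODM := by
  intro g k C C' l τ κ g' h' e hC0 hl hτ hC hM
  refine { hM with
    bounds := ?_
    elliptic := ?_
    area := ?_
    barrier := ?_
    decay := XEMODM.decay_mono (by norm_num) hC hM.decay
    hsmall := ?_
    collar := ?_
    shell := ?_
    trans := ?_
    trans_sup := ?_ }
  · intro x hx hx1 i j
    obtain ⟨h1, h2, h3⟩ := hM.bounds x hx hx1 i j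
    exact ⟨h1.trans hC, fun m => (h2 m).trans hC, h3.trans hC⟩
  · intro x hx v
    obtain ⟨h1, h2⟩ := hM.elliptic x hx v
    have h3 := XEMODM.ev_nonneg (hM.metric.posDef x (Set.mem_univ x)) v
    have h4 : 0 ≤ ∑ i, v i ^ 2 := Finset.sum_nonneg fun i _ => sq_nonneg _
    exact ⟨h1.trans (mul_le_mul_of_nonneg_right hC h3),
      h2.trans (mul_le_mul_of_nonneg_right hC h4)⟩
  · intro x hx hx1 p
    have h1 := hM.area x hx hx1 p
    have h2 : 0 ≤ len g' x p * volDen g' x := mul_nonneg (Real.sqrt_nonneg _) (Real.sqrt_nonneg _)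
    have h3 : C * τ ≤ C' * τ := mul_le_mul_of_nonneg_right hC hτ.le
    exact h1.trans (mul_le_mul_of_nonneg_right (by linarith) h2)
  · intro ε h1 h2 x hx
    exact (hM.barrier ε h1 h2 x hx).trans (div_le_div_of_nonneg_right hC (by positivity))
  · intro x hx i j
    exact (hM.hsmall x hx i j).trans (div_le_div_of_nonneg_right hC (by positivity))
  · intro x hx hx1 p
    have h1 := hM.collar x hx hx1 p
    have h2 : 0 ≤ tanP x p + negP x p := add_nonneg (Real.sqrt_nonneg _) (le_max_right _ _)
    have h3 : C / τ ≤ C' / τ := div_le_div_of_nonneg_right hC hτ.le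
    have h4 := mul_le_mul_of_nonneg_right h3 h2
    linarith
  · intro x hx hx1
    have h1 := hM.shell x hx hx1
    have h2 : 0 ≤ msz (k x) / l + msz (k x) ^ 2 := by
      have : 0 ≤ msz (k x) := Real.sqrt_nonneg _
      positivity
    have h3 := mul_le_mul_of_nonneg_right hC h2
    linarith
  · intro x hx hx1
    exact (hM.trans x hx hx1).trans (div_le_div_of_nonneg_right hC (by positivity))
  · intro x hx hx1
    exact (hM.trans_sup x hx hx1).trans (div_le_div_of_nonneg_right hC (by positivity))

end Pool.Agent.PFlow
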