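import Pool.Agent.PFlow.StmtsX3
import Pool.Agent.PFlow.E.SCAL

/-!
XMOM: if the mean of `|k|` over large shells is small then the momentum vanishes.
-/

open MeasureTheory Filter Topology Set
open scoped ContDiff ENNReal

namespace Pool.Agent.PFlow

open Pool.Agent.PenroseSph

namespace MXMOM

/-- The measure of the sphere. -/
noncomputable abbrev sg : Measure (Metric.sphere (0 : E3) 1) := (volume : Measure E3).toSphere

/-- Polar coordinates for an integrable function. -/
theorem integral_polar {F : E3 → ℝ} (hF : Integrable F (volume : Measure E3)) :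
    ∫ x, F x = ∫ r in Ioi (0 : ℝ), r ^ 2 * ∫ w, F (r • (w : E3)) ∂sg := by
  have hdim : Module.finrank ℝ E3 - 1 = 2 := by simp
  have h1 : ∫ x, F x = ∫ x : ({(0 : E3)}ᶜ : Set E3), F x.1 ∂((volume : Measure E3).comap (↑)) := by
    rw [integral_subtype_comap (measurableSet_singleton _).compl fun x : E3 ↦ F x,
      restrict_compl_singleton]
  have h2 : ∫ x : ({(0 : E3)}ᶜ : Set E3), F x.1 ∂((volume : Measure E3).comap (↑))
      = ∫ p : Metric.sphere (0 : E3) 1 × Ioi (0 : ℝ), F (p.2.1 • (p.1 : E3))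
        ∂(sg.prod (.volumeIoiPow 2)) := by
    have := (volume : Measure E3).measurePreserving_homeomorphUnitSphereProd.integral_comp
      (Homeomorph.measurableEmbedding _) (fun p => F (p.2.1 • (p.1 : E3)))
    rw [hdim] at this
    rw [← this]
    refine integral_congr_ae (Eventually.of_forall fun x => ?_)
    simp only [homeomorphUnitSphereProd_apply_snd_coe, homeomorphUnitSphereProd_apply_fst_coe]
    congr 1
    have : ‖(x : E3)‖ ≠ 0 := norm_ne_zero_iff.2 x.2
    rw [smul_smul, mul_inv_cancel₀ this, one_smul]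
  have hint : Integrable (fun p : Metric.sphere (0 : E3) 1 × Ioi (0 : ℝ) => F (p.2.1 • (p.1 : E3)))
      (sg.prod (.volumeIoiPow 2)) := by
    have := (volume : Measure E3).measurePreserving_homeomorphUnitSphereProd.integrable_comp_emb
      (Homeomorph.measurableEmbedding _) (g := fun p => F (p.2.1 • (p.1 : E3)))
    rw [hdim] at this
    rw [← this]
    have h3 : Integrable (fun x : ({(0 : E3)}ᶜ : Set E3) => F x.1)
        ((volume : Measure E3).comap (↑)) := by
      have h4 := (integrableOn_iff_comap_subtypeVal (μ := (volume : Measure E3)) (f := F)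
        (measurableSet_singleton (0 : E3)).compl).1 hF.integrableOn
      exact h4
    refine h3.congr (Eventually.of_forall fun x => ?_)
    simp only [Function.comp_apply, homeomorphUnitSphereProd_apply_snd_coe,
      homeomorphUnitSphereProd_apply_fst_coe]
    congr 1
    have : ‖(x : E3)‖ ≠ 0 := norm_ne_zero_iff.2 x.2
    rw [smul_smul, mul_inv_cancel₀ this, one_smul]
  rw [h1, h2, integral_prod_symm _ hint]
  simp only [Measure.volumeIoiPow, ENNReal.ofReal]
  rw [integral_withDensity_eq_integral_smul,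
    integral_subtype_comap measurableSet_Ioi
      fun a ↦ Real.toNNReal (a ^ 2) • ∫ w, F (a • (w : E3)) ∂sg,
    setIntegral_congr_fun measurableSet_Ioi fun x hx ↦ ?_]
  · rw [NNReal.smul_def, Real.coe_toNNReal _ (pow_nonneg (le_of_lt hx) _), smul_eq_mul]
  · exact (measurable_subtype_coe.pow_const _).real_toNNReal

/-- Continuity of spherical integrals. -/
theorem continuousOn_sphere_integral {ρ₁ : ℝ} {G : E3 → ℝ}
    (hG : ContinuousOn G {x : E3 | ρ₁ < ‖x‖}) (h0 : 0 ≤ ρ₁) :
    ContinuousOn (fun r : ℝ => ∫ w, G (r • (w : E3)) ∂sg) (Ioi ρ₁) := by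
  rw [continuousOn_iff_continuous_domRestrict]
  have h1 : Continuous (Function.uncurry
      fun (r : Ioi ρ₁) (w : Metric.sphere (0 : E3) 1) => G (r.1 • (w : E3))) := by
    refine hG.comp_continuous (f := fun p : Ioi ρ₁ × Metric.sphere (0 : E3) 1 =>
      p.1.1 • (p.2 : E3)) (by fun_prop) ?_
    rintro ⟨r, w⟩
    have hr : ρ₁ < r.1 := r.2
    simp only [mem_ofPred_eq, norm_smul, norm_eq_of_mem_sphere w, mul_one]
    rwa [Real.norm_eq_abs, abs_of_pos (lt_of_le_of_lt h0 hr)]
  have : LocallyCompactSpace (Ioi ρ₁) := isOpen_Ioi.isOpenEmbedding_subtypeVal.locallyCompactSpace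
  have h2 := continuous_parametric_integral_of_continuous (μ := sg) h1
    (isCompact_univ (X := Metric.sphere (0 : E3) 1))
  simp only [Measure.restrict_univ] at h2
  exact h2

theorem norm_smul_sphere {r : ℝ} (hr : 0 < r) (θ : Metric.sphere (0 : E3) 1) :
    ‖r • (θ : E3)‖ = r := by
  rw [norm_smul, norm_eq_of_mem_sphere, mul_one, Real.norm_eq_abs, abs_of_pos hr]

theorem msz_nonneg (B : Bil) : 0 ≤ msz B := Real.sqrt_nonneg _

theorem abs_le_msz (B : Bil) (i j : Fin 3) : |B i j| ≤ msz B := by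
  unfold msz
  refine Real.abs_le_sqrt ?_
  have h1 : B i j ^ 2 ≤ ∑ j, B i j ^ 2 :=
    Finset.single_le_sum (f := fun j => B i j ^ 2) (fun j _ => sq_nonneg _) (Finset.mem_univ j)
  have h2 : ∑ j, B i j ^ 2 ≤ ∑ i, ∑ j, B i j ^ 2 :=
    Finset.single_le_sum (f := fun i => ∑ j, B i j ^ 2)
      (fun i _ => Finset.sum_nonneg fun j _ => sq_nonneg _) (Finset.mem_univ i)
  exact h1.trans h2

theorem abs_coord (θ : Metric.sphere (0 : E3) 1) (i : Fin 3) : |(θ : E3) i| ≤ 1 := by
  have h1 := EuclideanSpace.norm_eq (θ : E3)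
  rw [norm_eq_of_mem_sphere] at h1
  have h2 : (θ : E3) i ^ 2 ≤ ∑ j, ‖(θ : E3) j‖ ^ 2 := by
    have h3 := Finset.single_le_sum (f := fun j => ‖(θ : E3) j‖ ^ 2)
      (fun j _ => sq_nonneg _) (Finset.mem_univ i)
    simpa [Real.norm_eq_abs, sq_abs] using h3
  have h4 : ∑ j, ‖(θ : E3) j‖ ^ 2 = 1 := by
    have h5 : 0 ≤ ∑ j, ‖(θ : E3) j‖ ^ 2 := Finset.sum_nonneg fun _ _ => sq_nonneg _
    rw [← Real.sq_sqrt h5, ← h1]
    norm_num
  rw [h4] at h2
  exact (sq_le_one_iff_abs_le_one _).1 h2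

theorem sum3 {f : Fin 3 → ℝ} {b : ℝ} (h : ∀ i, |f i| ≤ b) : |∑ i, f i| ≤ 3 * b := by
  refine (Finset.abs_sum_le_sum_abs _ _).trans ?_
  refine (Finset.sum_le_sum fun i _ => h i).trans ?_
  rw [Finset.sum_const, Finset.card_univ, Fintype.card_fin, nsmul_eq_mul]
  norm_num

theorem mul2 {a b A B : ℝ} (ha : |a| ≤ A) (hb : |b| ≤ B) : |a * b| ≤ A * B := by
  rw [abs_mul]
  exact mul_le_mul ha hb (abs_nonneg _) ((abs_nonneg _).trans ha)

/-- The pointwise bound of the momentum integrand. -/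
theorem point {G K : Bil} {η : ℝ} (hη : η ≤ 1 / 100) (h : ∀ i j, |G i j - (1 : Bil) i j| ≤ η)
    (i : Fin 3) (θ : Metric.sphere (0 : E3) 1) :
    |∑ j, (K i j - (∑ a, ∑ b, G⁻¹ a b * K a b) * G i j) * (θ : E3) j| ≤ 111 * msz K := by
  have h1 := (ESCAL.inv_bound hη h).1
  have hm := msz_nonneg K
  have h2 : |∑ a, ∑ b, G⁻¹ a b * K a b| ≤ 3 * (3 * (2 * msz K)) :=
    sum3 fun a => sum3 fun b => mul2 (h1 a b) (abs_le_msz K a b)
  have h3 : ∀ j, |G i j| ≤ 2 := by
    intro j
    have h4 : |(1 : Bil) i j| ≤ 1 := by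
      rw [Matrix.one_apply]
      split_ifs
      · rw [abs_one]
      · rw [abs_zero]
        exact zero_le_one
    have h5 := abs_add_le (G i j - (1 : Bil) i j) ((1 : Bil) i j)
    rw [sub_add_cancel] at h5
    have h6 := h i j
    linarith
  have h7 : ∀ j, |K i j - (∑ a, ∑ b, G⁻¹ a b * K a b) * G i j| ≤ 37 * msz K := by
    intro j
    have h8 := abs_sub (K i j) ((∑ a, ∑ b, G⁻¹ a b * K a b) * G i j)
    have h9 := mul2 h2 (h3 j)
    have h10 := abs_le_msz K i j
    linarith
  have h11 := sum3 fun j => mul2 (h7 j) (abs_coord θ j)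
  linarith

theorem isCompact_cAnn (a b : ℝ) : IsCompact (cAnn a b) := by
  have h1 : IsClosed (cAnn a b) :=
    (isClosed_le continuous_const continuous_norm).inter
      (isClosed_le continuous_norm continuous_const)
  refine Metric.isCompact_of_isClosed_isBounded h1 ?_
  refine (Metric.isBounded_closedBall (x := (0 : E3)) (r := b)).subset fun x hx => ?_
  rw [mem_closedBall_zero_iff]
  exact hx.2

theorem msz_cont {k : TensorField} {U : Set E3} (hk : ∀ i j, ContDiffOn ℝ ∞ (fun x => k x i j) U) :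
    ContinuousOn (fun x => msz (k x)) U := by
  unfold msz
  refine Real.continuous_sqrt.comp_continuousOn ?_
  refine continuousOn_finsetSum _ fun i _ => continuousOn_finsetSum _ fun j _ => ?_
  exact ((hk i j).continuousOn).pow 2

/-- The integral over a shell. -/
theorem shell {f : E3 → ℝ} (hf : ContinuousOn f {x : E3 | 1 < ‖x‖}) {l c : ℝ} (hl : 2 < l)
    (hc : ∀ r : ℝ, l / 2 ≤ r → c ≤ r ^ 2 * ∫ w, f (r • (w : E3)) ∂sg) :
    c / 2 ≤ ∫ x in cAnn (l / 2) l, f x / l := by
  have hl0 : 0 < l := by linarith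
  have hmc := isCompact_cAnn (l / 2) l
  have hms : MeasurableSet (cAnn (l / 2) l) := hmc.isClosed.measurableSet
  have hsub : cAnn (l / 2) l ⊆ {x : E3 | 1 < ‖x‖} := by
    intro x hx
    have := hx.1
    show 1 < ‖x‖
    linarith
  have hi : IntegrableOn (fun x => f x / l) (cAnn (l / 2) l) :=
    ((hf.mono hsub).div_const l).integrableOn_compact hmc
  have hF : Integrable ((cAnn (l / 2) l).indicator fun x => f x / l) :=
    (integrable_indicator_iff hms).mpr hi
  rw [← integral_indicator hms, integral_polar hF]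
  have h1 : ∫ r in Ioi (0 : ℝ), r ^ 2 * ∫ w, (cAnn (l / 2) l).indicator (fun x => f x / l)
      (r • (w : E3)) ∂sg = ∫ r in Ioi (0 : ℝ), (Icc (l / 2) l).indicator
        (fun r => r ^ 2 * ∫ w, f (r • (w : E3)) / l ∂sg) r := by
    refine setIntegral_congr_fun measurableSet_Ioi fun r hr => ?_
    have hr0 : 0 < r := hr
    by_cases h : r ∈ Icc (l / 2) l
    · have h2 : ∀ w : Metric.sphere (0 : E3) 1, (cAnn (l / 2) l).indicator (fun x => f x / l)
          (r • (w : E3)) = f (r • (w : E3)) / l := by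
        intro w
        refine indicator_of_mem ?_ _
        show l / 2 ≤ ‖r • (w : E3)‖ ∧ ‖r • (w : E3)‖ ≤ l
        rw [norm_smul_sphere hr0]
        exact h
      simp only [h2]
      rw [indicator_of_mem h]
    · have h2 : ∀ w : Metric.sphere (0 : E3) 1, (cAnn (l / 2) l).indicator (fun x => f x / l)
          (r • (w : E3)) = 0 := by
        intro w
        refine indicator_of_notMem (fun h3 => h ?_) _
        have h4 : l / 2 ≤ ‖r • (w : E3)‖ ∧ ‖r • (w : E3)‖ ≤ l := h3
        rw [norm_smul_sphere hr0] at h4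
        exact h4
      simp only [h2]
      rw [indicator_of_notMem h, integral_zero, mul_zero]
  rw [h1, setIntegral_indicator measurableSet_Icc]
  have h3 : Ioi (0 : ℝ) ∩ Icc (l / 2) l = Icc (l / 2) l := by
    refine inter_eq_right.mpr fun r hr => ?_
    have := hr.1
    show 0 < r
    linarith
  rw [h3]
  have h4 : ContinuousOn (fun r : ℝ => r ^ 2 * ∫ w, f (r • (w : E3)) / l ∂sg)
      (Icc (l / 2) l) := by
    refine (continuousOn_id.pow 2).mul ?_
    refine (continuousOn_sphere_integral (ρ₁ := 1) (G := fun x => f x / l)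
      (hf.div_const l) zero_le_one).mono fun r hr => ?_
    have := hr.1
    show 1 < r
    linarith
  have h5 : ∫ _ in Icc (l / 2) l, c / l ≤
      ∫ r in Icc (l / 2) l, r ^ 2 * ∫ w, f (r • (w : E3)) / l ∂sg := by
    refine setIntegral_mono_on ?_ (h4.integrableOn_compact isCompact_Icc) measurableSet_Icc ?_
    · exact continuousOn_const.integrableOn_compact isCompact_Icc
    · intro r hr
      rw [integral_div, ← mul_div_assoc]
      exact div_le_div_of_nonneg_right (hc r hr.1) hl0.le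
  have h6 : ∫ _ in Icc (l / 2) l, c / l = c / 2 := by
    rw [setIntegral_const, smul_eq_mul, Real.volume_real_Icc_of_le (by linarith)]
    field_simp
    ring
  rw [h6] at h5
  exact h5

end MXMOM

open MXMOM in
/-- XMOM: if the mean of `|k|` over large shells is small then the momentum vanishes. -/
theorem XMOM : Stmt_XMOM := by
  intro g k δ₀ P hδ hg hk ⟨C, R, hdec⟩ hlim hmom
  by_contra hP
  obtain ⟨i, hi⟩ : ∃ i, P i ≠ 0 := by
    by_contra h
    push Not at h
    exact hP (funext h)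
  have hPi : 0 < |P i| := abs_pos.mpr hi
  have hout : {x : E3 | 1 < ‖x‖} ⊆ Outside δ₀ := by
    intro x hx
    have h1 : 1 < ‖x‖ := hx
    show 1 - δ₀ < ‖x‖
    linarith
  have hcont : ContinuousOn (fun x => msz (k x)) {x : E3 | 1 < ‖x‖} :=
    (msz_cont hk.smooth).mono hout
  obtain ⟨r₁, hr₁⟩ : ∃ r₁ : ℝ, r₁ = max (max R 2) (100 * |C|) := ⟨_, rfl⟩
  have hR : R ≤ r₁ := by rw [hr₁]; exact (le_max_left _ _).trans (le_max_left _ _)
  have h2 : 2 ≤ r₁ := by rw [hr₁]; exact (le_max_right _ _).trans (le_max_left _ _)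
  have hC : 100 * |C| ≤ r₁ := by rw [hr₁]; exact le_max_right _ _
  have hpt : ∀ ρ : ℝ, r₁ ≤ ρ → ∀ θ : Metric.sphere (0 : E3) 1,
      |(∑ j, (k (ρ • (θ : E3)) i j - trg g (ρ • (θ : E3)) (k (ρ • (θ : E3))) *
        g (ρ • (θ : E3)) i j) * (θ : E3) j) * ρ ^ 2| ≤ 111 * msz (k (ρ • (θ : E3))) * ρ ^ 2 := by
    intro ρ hρ θ
    have hρ0 : 0 < ρ := by linarith
    have hn := norm_smul_sphere hρ0 θ
    rw [abs_mul, abs_of_nonneg (sq_nonneg ρ)]
    refine mul_le_mul_of_nonneg_right ?_ (sq_nonneg ρ)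
    have hη : C / ‖ρ • (θ : E3)‖ ≤ 1 / 100 := by
      rw [hn, div_le_div_iff₀ hρ0 (by norm_num)]
      have := le_abs_self C
      linarith
    exact point hη (fun a b => (hdec _ (by rw [hn]; linarith) a b).1) i θ
  have hsc : ∀ ρ : ℝ, r₁ ≤ ρ → Continuous fun θ : Metric.sphere (0 : E3) 1 =>
      msz (k (ρ • (θ : E3))) := by
    intro ρ hρ
    have hρ0 : 0 < ρ := by linarith
    refine hcont.comp_continuous (f := fun θ : Metric.sphere (0 : E3) 1 => ρ • (θ : E3))
      (by fun_prop) fun θ => ?_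
    show 1 < ‖ρ • (θ : E3)‖
    rw [norm_smul_sphere hρ0]
    linarith
  have hbd : ∀ ρ : ℝ, r₁ ≤ ρ → |1 / (8 * Real.pi) * ∫ θ : Metric.sphere (0 : E3) 1,
      (∑ j, (k (ρ • (θ : E3)) i j - trg g (ρ • (θ : E3)) (k (ρ • (θ : E3))) *
        g (ρ • (θ : E3)) i j) * (θ : E3) j) * ρ ^ 2 ∂((volume : Measure E3).toSphere)| ≤
      111 * (ρ ^ 2 * ∫ θ, msz (k (ρ • (θ : E3))) ∂sg) := by
    intro ρ hρ
    have hint : Integrable (fun θ : Metric.sphere (0 : E3) 1 =>
        111 * msz (k (ρ • (θ : E3))) * ρ ^ 2) sg := by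
      refine ((continuous_const.mul (hsc ρ hρ)).mul continuous_const).integrable_of_hasCompactSupport
        (HasCompactSupport.of_compactSpace _)
    have h3 := norm_integral_le_of_norm_le hint (Eventually.of_forall fun θ => by
      rw [Real.norm_eq_abs]
      exact hpt ρ hρ θ)
    have h4 : ∫ θ : Metric.sphere (0 : E3) 1, 111 * msz (k (ρ • (θ : E3))) * ρ ^ 2 ∂sg =
        111 * (ρ ^ 2 * ∫ θ, msz (k (ρ • (θ : E3))) ∂sg) := by
      rw [integral_mul_const, integral_const_mul]
      ring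
    rw [h4, Real.norm_eq_abs] at h3
    rw [abs_mul]
    have h5 : |1 / (8 * Real.pi)| ≤ 1 := by
      rw [abs_of_pos (by positivity), div_le_one (by positivity)]
      have := Real.pi_gt_three
      linarith
    have h6 : 0 ≤ 111 * (ρ ^ 2 * ∫ θ, msz (k (ρ • (θ : E3))) ∂sg) := (abs_nonneg _).trans h3
    calc |1 / (8 * Real.pi)| * |∫ θ : Metric.sphere (0 : E3) 1, (∑ j, (k (ρ • (θ : E3)) i j -
          trg g (ρ • (θ : E3)) (k (ρ • (θ : E3))) * g (ρ • (θ : E3)) i j) * (θ : E3) j) * ρ ^ 2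
          ∂((volume : Measure E3).toSphere)|
        ≤ 1 * (111 * (ρ ^ 2 * ∫ θ, msz (k (ρ • (θ : E3))) ∂sg)) :=
          mul_le_mul h5 h3 (abs_nonneg _) zero_le_one
      _ = _ := one_mul _
  have hev : ∀ᶠ ρ : ℝ in atTop, |P i| / 2 < |1 / (8 * Real.pi) *
      ∫ θ : Metric.sphere (0 : E3) 1,
      (∑ j, (k (ρ • (θ : E3)) i j - trg g (ρ • (θ : E3)) (k (ρ • (θ : E3))) *
        g (ρ • (θ : E3)) i j) * (θ : E3) j) * ρ ^ 2 ∂((volume : Measure E3).toSphere)| := by
    refine ((hmom i).abs).eventually (lt_mem_nhds ?_)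
    linarith
  obtain ⟨r₂, hr₂⟩ := eventually_atTop.mp (hev.and (eventually_ge_atTop r₁))
  have hlow : ∀ ρ : ℝ, r₂ ≤ ρ → |P i| / 222 ≤ ρ ^ 2 * ∫ θ, msz (k (ρ • (θ : E3))) ∂sg := by
    intro ρ hρ
    obtain ⟨h3, h4⟩ := hr₂ ρ hρ
    have h5 := hbd ρ h4
    linarith
  have hev2 : ∀ᶠ l : ℝ in atTop, |P i| / 222 / 2 ≤ ∫ x in cAnn (l / 2) l, msz (k x) / l := by
    filter_upwards [eventually_gt_atTop 2, eventually_ge_atTop (2 * r₂)] with l hl hl2
    refine shell hcont hl fun r hr => hlow r ?_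
    linarith
  have h7 := ge_of_tendsto hlim hev2
  linarith

end Pool.Agent.PFlow
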