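import Pool.Agent.PFlow.StmtsX2

/-!
XMSII: the inequality (ii) for the flux, exterior regions.
-/

open MeasureTheory Filter Topology
open scoped ContDiff ENNReal

namespace Pool.Agent.PFlow

open Pool.Agent.PenroseSph

namespace XMSIIAux

lemma cont_vol {g : TensorField} (hg : MetricOn Set.univ g) : Continuous (volDen g) := by
  have h : ∀ i j, Continuous fun x => g x i j := fun i j =>
    continuousOn_univ.mp (hg.smooth i j).continuousOn
  unfold volDen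
  refine Real.continuous_sqrt.comp ?_
  simp only [Matrix.det_fin_three]
  exact ((((((h 0 0).mul (h 1 1)).mul (h 2 2)).sub (((h 0 0).mul (h 1 2)).mul (h 2 1))).sub
    (((h 0 1).mul (h 1 0)).mul (h 2 2))).add (((h 0 1).mul (h 1 2)).mul (h 2 0))).add
    (((h 0 2).mul (h 1 0)).mul (h 2 1)) |>.sub (((h 0 2).mul (h 1 1)).mul (h 2 0))

lemma vol_le {g h : TensorField} {C : ℝ} (hC : 0 ≤ C) (hd : DecayFrom C 2 g h) {x : E3}
    (hx2 : 2 ≤ ‖x‖) : volDen g x ≤ 6 * (1 + C) ^ 3 + 1 := by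
  have hx : 1 ≤ ‖x‖ := by linarith
  have hb : ∀ i j, |g x i j| ≤ 1 + C := by
    intro i j
    have h1 := (hd x hx2 i j).1
    have h2 : C / ‖x‖ ≤ C := div_le_self hC hx
    have h3 : |(1 : Bil) i j| ≤ 1 := by
      rw [Matrix.one_apply]; split_ifs <;> simp
    have h4 : |g x i j| ≤ |g x i j - (1 : Bil) i j| + |(1 : Bil) i j| := by
      have := abs_add_le (g x i j - (1 : Bil) i j) ((1 : Bil) i j)
      simpa using this
    linarith
  have h0 : (0 : ℝ) ≤ 1 + C := by linarith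
  have ht : ∀ a b c : ℝ, |a| ≤ 1 + C → |b| ≤ 1 + C → |c| ≤ 1 + C → |a * b * c| ≤ (1 + C) ^ 3 := by
    intro a b c ha hb hc
    rw [abs_mul, abs_mul]
    calc |a| * |b| * |c| ≤ (1 + C) * (1 + C) * (1 + C) := by gcongr
      _ = (1 + C) ^ 3 := by ring
  have hdet : (g x).det ≤ 6 * (1 + C) ^ 3 := by
    rw [Matrix.det_fin_three]
    have a1 := abs_le.mp (ht _ _ _ (hb 0 0) (hb 1 1) (hb 2 2))
    have a2 := abs_le.mp (ht _ _ _ (hb 0 0) (hb 1 2) (hb 2 1))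
    have a3 := abs_le.mp (ht _ _ _ (hb 0 1) (hb 1 0) (hb 2 2))
    have a4 := abs_le.mp (ht _ _ _ (hb 0 1) (hb 1 2) (hb 2 0))
    have a5 := abs_le.mp (ht _ _ _ (hb 0 2) (hb 1 0) (hb 2 1))
    have a6 := abs_le.mp (ht _ _ _ (hb 0 2) (hb 1 1) (hb 2 0))
    linarith [a1.2, a2.1, a3.1, a4.2, a5.2, a6.1]
  have h5 : (0 : ℝ) ≤ 6 * (1 + C) ^ 3 := by positivity
  unfold volDen
  calc Real.sqrt (g x).det ≤ Real.sqrt (6 * (1 + C) ^ 3) := Real.sqrt_le_sqrt hdet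
    _ ≤ 6 * (1 + C) ^ 3 + 1 := by
      rw [Real.sqrt_le_left (by positivity)]
      nlinarith

lemma isCompact_cAnn (a b : ℝ) : IsCompact (cAnn a b) := by
  have : cAnn a b = Metric.closedBall 0 b ∩ {x : E3 | a ≤ ‖x‖} := by
    ext x; simp only [cAnn, Set.mem_setOf_eq, Set.mem_inter_iff, mem_closedBall_zero_iff]; tauto
  rw [this]
  exact (isCompact_closedBall _ _).inter_right (isClosed_le continuous_const continuous_norm)

lemma exp_bound {ε γ l : ℝ} (hε : 0 < ε) (hε2 : ε ≤ 1 / 2) (hγ : 0 < γ) (hl : 1 ≤ l) :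
    Real.exp (-(s2E ε γ l / (2 - ε))) ≤ 1 / l := by
  have hl0 : 0 < l := by linarith
  have h2 : 0 < 2 - ε := by linarith
  have h1 : Real.log l ≤ s2E ε γ l / (2 - ε) := by
    rw [le_div_iff₀ h2]
    unfold s2E
    have : Real.log l ≤ Real.log (4 * l) := Real.log_le_log hl0 (by linarith)
    nlinarith
  calc Real.exp (-(s2E ε γ l / (2 - ε))) ≤ Real.exp (-Real.log l) := Real.exp_le_exp.mpr (by linarith)
    _ = 1 / l := by rw [Real.exp_neg, Real.exp_log hl0, one_div]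

end XMSIIAux

open XMSIIAux

theorem XMSII (hXSETW : Stmt_XSETW) (_hXABSI : Stmt_XABSI) (_hBETA : Stmt_BETA)
    (hTSTB : Stmt_TSTB) (hXUPH : Stmt_XUPH) (hXMATL : Stmt_XMATL) (hJL : Stmt_JL) :
    Stmt_XMSII := by
  intro P B B₃ θ β hθ hθ1 hβ
  by_cases hP : 0 < P.eps ∧ P.eps ≤ 1 / 2
  swap
  · exact ⟨1, one_pos, fun D hS => absurd ⟨hS.eps_pos, hS.eps_le⟩ hP⟩
  obtain ⟨hε, hε2⟩ := hP
  obtain ⟨C₁, hC₁, hT⟩ := hTSTB P.eps β hε hε2 hβ
  obtain ⟨C₂, hC₂, hJ⟩ := hJL P.eps θ β hε hε2 hθ hθ1 hβ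
  obtain ⟨BU, hBU, hU⟩ := hXUPH P B β hβ
  obtain ⟨BM, hBM, hM⟩ := hXMATL P B
  set T : ℝ := θ ^ (-(2 * (2 - P.eps))) with hTdef
  have hT0 : 0 < T := Real.rpow_pos_of_pos hθ _
  set N₀ : ℝ := 2 + BM * BU with hN₀
  set Cv : ℝ := 6 * (1 + |P.C|) ^ 3 + 1 with hCv
  have hCv0 : 0 < Cv := by positivity
  refine ⟨T * C₁ * (N₀ + |B|) + C₂ * Cv * |B₃| ^ 3 + 1, by positivity, ?_⟩
  intro D hS hA se lm L hcut hlam hL hLM
  obtain ⟨-, -, -, -, -, -, hmw, -, -, hsb, -, -, hs4, hup, hKl, -, hs21, hs2M, hKR, hlK⟩ :=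
    hXSETW P D hS
  have hl4 : 8 ≤ D.l := hS.l_ge
  have hl0 : 0 < D.l := by linarith
  have hγ := hS.gam_ge
  have hvol : Continuous D.vol := cont_vol hS.modified.metric
  have hvol0 : ∀ x, 0 ≤ D.vol x := fun x => Real.sqrt_nonneg _
  have hX0 : ∀ x, 0 ≤ D.X P x := hA.X_nonneg
  have hph0 : ∀ x, 0 ≤ D.ph P x := fun x => mul_nonneg (Real.exp_pos _).le (hX0 x)
  -- `B` is nonnegative
  have hB0 : 0 ≤ B := by
    refine le_trans ?_ (hA.window (D.s2 P) le_rfl (by linarith))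
    exact integral_nonneg fun x => mul_nonneg (pow_nonneg (hX0 x) 3) (hvol0 x)
  have hB₃ : 0 ≤ B₃ := hlam.nonneg.trans hlam.le
  -- the bound for the matter term
  have hphi : ∫ x in cAnn (D.l / 2) (2 * D.l), D.ph P x ≤ BU * D.l ^ 3 := by
    obtain ⟨-, h1, h2⟩ := hU D hS hA
    refine le_trans (setIntegral_mono_set h1 (Eventually.of_forall fun x => hph0 x) ?_) h2
    refine (HasSubset.Subset.eventuallyLE ?_)
    rintro x ⟨hx1, hx2⟩
    exact ⟨by linarith, by linarith⟩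
  have hN : (∫ x in D.Om ∩ {x | P.eps / 4 / 2 < D.w P x ∧ D.w P x < D.s2 P + L + 1},
      Real.exp (D.w P x / (2 - P.eps)) * max (-D.Su P x) 0 * D.vol x) ≤ N₀ := by
    have h8 : P.eps / 4 / 2 = P.eps / 8 := by ring
    rw [h8]
    refine ((hM D hS hA).2 (D.s2 P + L + 1) hLM).trans ?_
    have h1 := hcut.def_le
    have h1' := hcut.col_le
    have h2 : BM / D.l ^ 3 * ∫ x in cAnn (D.l / 2) (2 * D.l), D.ph P x ≤ BM * BU := by
      calc BM / D.l ^ 3 * ∫ x in cAnn (D.l / 2) (2 * D.l), D.ph P x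
          ≤ BM / D.l ^ 3 * (BU * D.l ^ 3) := by gcongr
        _ = BM * BU := by field_simp
    linarith
  -- TSTB
  have hI := hT D.Om D.vol (D.w P) (D.X P) (D.Phi P) (D.Di P) (D.Su P) (P.eps / 4) (D.s2 P)
    (D.sM P) B 0 hA (by linarith) (by linarith) (by linarith) hB0 le_rfl L N₀ hL hLM hN
  set I : ℝ := ∫ x in D.Om, β (D.w P x - D.s2 P) * D.X P x ^ 3 * D.vol x with hIdef
  have hexp : Real.exp (-(D.s2 P / (2 - P.eps))) ≤ 1 / D.l :=
    exp_bound hε hε2 (by linarith) (by linarith)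
  have hN₀0 : 0 < N₀ := by positivity
  have hI2 : I ≤ 4 * Real.pi * (2 - P.eps) ^ 2
      + C₁ * (1 / D.l * N₀ + Real.exp (-(L / P.eps)) * B) := by
    refine hI.trans ?_
    have h1 : Real.exp (-(D.s2 P / (2 - P.eps))) * (N₀ + 0 / (P.eps / 4) ^ 2) ≤ 1 / D.l * N₀ := by
      rw [zero_div, add_zero]
      exact mul_le_mul_of_nonneg_right hexp hN₀0.le
    have h2 := mul_le_mul_of_nonneg_left h1 hC₁.le
    linarith [mul_add C₁ (Real.exp (-(D.s2 P / (2 - P.eps))) * (N₀ + 0 / (P.eps / 4) ^ 2))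
        (Real.exp (-(L / P.eps)) * B),
      mul_add C₁ (1 / D.l * N₀) (Real.exp (-(L / P.eps)) * B)]
  -- JL
  have hcomp := isCompact_cAnn (D.l / 2) (D.Kl P)
  have hsub : cAnn (D.l / 2) (D.Kl P) ⊆ D.Om := by
    rintro x ⟨hx1, hx2⟩
    exact ⟨by linarith, by linarith⟩
  have hnorm : ∀ x ∈ cAnn (D.l / 2) (D.Kl P), 2 ≤ ‖x‖ := fun x hx => by
    have := hx.1
    linarith
  have hvle : ∀ x ∈ cAnn (D.l / 2) (D.Kl P), D.vol x ≤ Cv := by
    intro x hx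
    have h1 := vol_le (g := D.g') (h := 0) hS.C_pos.le hS.modified.decay (hnorm x hx)
    rw [hCv, abs_of_pos hS.C_pos]; exact h1
  have hlev : cAnn (D.l / 2) (D.Kl P)
      ⊆ D.Om ∩ {x | P.eps / 8 ≤ D.w P x ∧ D.w P x ≤ D.s2 P + 1 + 2 * P.gam} := by
    intro x hx
    refine ⟨hsub hx, ?_, hup x (by linarith [hx.1]) hx.2⟩
    have := hsb x (hsub hx)
    linarith
  have hX3 : IntegrableOn (fun x => D.X P x ^ 3 * D.vol x) (cAnn (D.l / 2) (D.Kl P)) :=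
    (hA.int_X (P.eps / 8) (D.s2 P + 1 + 2 * P.gam) (by linarith) (by linarith)
      (by linarith)).mono_set hlev
  have hfi := hlam.int
  have hmeas : MeasurableSet (cAnn (D.l / 2) (D.Kl P)) := hcomp.measurableSet
  have hfv : IntegrableOn (fun x => (Real.sqrt (D.ph P x) - Real.sqrt lm) ^ 2 * D.vol x)
      (cAnn (D.l / 2) (D.Kl P)) := by
    refine Integrable.mono' (hfi.const_mul Cv)
      (hfi.aestronglyMeasurable.mul hvol.aestronglyMeasurable.restrict) ?_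
    refine (ae_restrict_iff' hmeas).mpr (Eventually.of_forall fun x hx => ?_)
    rw [Real.norm_of_nonneg (mul_nonneg (sq_nonneg _) (hvol0 x)), mul_comm]
    exact mul_le_mul_of_nonneg_right (hvle x hx) (sq_nonneg _)
  have hfc : (∫ x in cAnn (D.l / 2) (D.Kl P), (Real.sqrt (D.ph P x) - Real.sqrt lm) ^ 2 * D.vol x)
      ≤ Cv * (B₃ * D.l ^ 2) := by
    calc (∫ x in cAnn (D.l / 2) (D.Kl P), (Real.sqrt (D.ph P x) - Real.sqrt lm) ^ 2 * D.vol x)
        ≤ ∫ x in cAnn (D.l / 2) (D.Kl P), Cv * (Real.sqrt (D.ph P x) - Real.sqrt lm) ^ 2 := by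
          refine setIntegral_mono_on hfv (hfi.const_mul Cv) hmeas fun x hx => ?_
          rw [mul_comm]
          exact mul_le_mul_of_nonneg_right (hvle x hx) (sq_nonneg _)
      _ = Cv * ∫ x in cAnn (D.l / 2) (D.Kl P), (Real.sqrt (D.ph P x) - Real.sqrt lm) ^ 2 :=
          integral_const_mul _ _
      _ ≤ Cv * (B₃ * D.l ^ 2) := by gcongr; exact hlam.close
  have hJL' := hJ D.Om (cAnn (D.l / 2) (D.Kl P)) D.vol (D.w P) (D.X P) (D.s2 P) lm
    (Cv * (B₃ * D.l ^ 2)) hA.measOmega hmeas hvol0 hX0 hmw hvol.measurable hA.meas_X hsub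
    (by
      rintro x ⟨hx, hx1, hx2⟩
      exact ⟨by linarith [hs4 x hx hx1.le], hKl x hx hx2⟩)
    hlam.nonneg (hvol.continuousOn.integrableOn_compact hcomp) hX3 hfv hfc
  have h3 : Real.exp (-(3 * D.s2 P / (2 - P.eps))) ≤ (1 / D.l) ^ 3 := by
    have e1 : Real.exp (-(3 * D.s2 P / (2 - P.eps))) = Real.exp (-(D.s2 P / (2 - P.eps))) ^ 3 := by
      rw [← Real.exp_nat_mul]; congr 1; push_cast; ring
    rw [e1]
    exact pow_le_pow_left₀ (Real.exp_pos _).le hexp 3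
  have h4 : C₂ * Real.exp (-(3 * D.s2 P / (2 - P.eps))) * lm ^ 2 * (Cv * (B₃ * D.l ^ 2))
      ≤ C₂ * Cv * |B₃| ^ 3 * (1 / D.l) := by
    have hlm2 : lm ^ 2 ≤ B₃ ^ 2 := pow_le_pow_left₀ hlam.nonneg hlam.le 2
    calc C₂ * Real.exp (-(3 * D.s2 P / (2 - P.eps))) * lm ^ 2 * (Cv * (B₃ * D.l ^ 2))
        ≤ C₂ * (1 / D.l) ^ 3 * B₃ ^ 2 * (Cv * (B₃ * D.l ^ 2)) := by gcongr
      _ = C₂ * Cv * |B₃| ^ 3 * (1 / D.l) := by
          rw [abs_of_nonneg hB₃]; field_simp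
  have h5 : T * I ≤ T * (4 * Real.pi * (2 - P.eps) ^ 2)
      + T * C₁ * (N₀ + |B|) * (1 / D.l + Real.exp (-(L / P.eps))) := by
    refine (mul_le_mul_of_nonneg_left hI2 hT0.le).trans ?_
    rw [abs_of_nonneg hB0]
    have e1 : 0 < 1 / D.l := by positivity
    have e2 := Real.exp_pos (-(L / P.eps))
    have e3 : 1 / D.l * N₀ + Real.exp (-(L / P.eps)) * B
        ≤ (N₀ + B) * (1 / D.l + Real.exp (-(L / P.eps))) := by
      have f1 : 0 ≤ B * (1 / D.l) := by positivity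
      have f2 : 0 ≤ N₀ * Real.exp (-(L / P.eps)) := by positivity
      nlinarith
    have e4 := mul_le_mul_of_nonneg_left e3 (mul_pos hT0 hC₁).le
    linarith [mul_add T (4 * Real.pi * (2 - P.eps) ^ 2) (C₁ * (1 / D.l * N₀ + Real.exp (-(L / P.eps)) * B)),
      mul_assoc T C₁ (1 / D.l * N₀ + Real.exp (-(L / P.eps)) * B),
      mul_assoc (T * C₁) (N₀ + B) (1 / D.l + Real.exp (-(L / P.eps)))]
  have e1 : 0 < 1 / D.l := by positivity
  have e2 := Real.exp_pos (-(L / P.eps))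
  have e5 : 0 ≤ C₂ * Cv * |B₃| ^ 3 * Real.exp (-(L / P.eps)) := by positivity
  refine hJL'.trans ?_
  nlinarith [h4, h5, e1, e2, e5]

end Pool.Agent.PFlow
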