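import Pool.Agent.PFlow.StmtsX2

/-!
# XMSIII: the inequality (iii) for the area, exterior case
-/

open MeasureTheory Filter Topology
open scoped ContDiff ENNReal

namespace Pool.Agent.PFlow

open Pool.Agent.PenroseSph

namespace XMSIIIaux

/-- The volume density of a smooth metric is continuous. -/
theorem continuousOn_volDen {g : TensorField} {U : Set E3} (hg : MetricOn U g) :
    ContinuousOn (volDen g) U := by
  have h1 : ContinuousOn (fun x => (g x).det) U := by
    have : ContinuousOn (fun x => g x) U := by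
      refine continuousOn_pi.2 fun i => continuousOn_pi.2 fun j => (hg.smooth i j).continuousOn
    exact (Continuous.matrix_det continuous_id).comp_continuousOn this
  exact h1.sqrt

/-- A closed annulus is compact. -/
theorem isCompact_cAnn (a b : ℝ) : IsCompact (cAnn a b) := by
  have h1 : IsClosed (cAnn a b) :=
    (isClosed_le continuous_const continuous_norm).inter
      (isClosed_le continuous_norm continuous_const)
  refine (isCompact_closedBall (0 : E3) b).of_isClosed_subset h1 fun x hx => ?_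
  rw [mem_closedBall_zero_iff]
  exact hx.2

/-- Restriction of the class `H2On`. -/
theorem h2On_mono {U V : Set E3} {w : E3 → ℝ} {G : E3 → Cov} {M : E3 → Bil} (h : H2On U w G M)
    (hVU : V ⊆ U) : H2On V w G M where
  cont := h.cont.mono hVU
  memG K hK hKV i := h.memG K hK (hKV.trans hVU) i
  memM K hK hKV i j := h.memM K hK (hKV.trans hVU) i j
  approx K hK hKV := h.approx K hK (hKV.trans hVU)

end XMSIIIaux

open XMSIIIaux in
theorem XMSIII (hXSETW : Stmt_XSETW) (hXPER : Stmt_XPER) (_hBETA : Stmt_BETA)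
    (hFLXA : Stmt_FLXA) (hHOLA : Stmt_HOLA) : Stmt_XMSIII := by
  intro P B β hβ D hS hA r hr1 hr2 hloc
  obtain ⟨-, -, -, hH2, -, -, hwm, -, -, -, hcol, -, -, -, -, -, hs1, hs2M, hKlR, hKll⟩ :=
    hXSETW P D hS
  have he0 := hS.eps_pos
  have he1 := hS.eps_le
  have hgam := hS.gam_ge
  have hl := hS.l_ge
  have htau := hS.tau_pos
  have hlR : D.l ≤ D.R := by linarith
  have hF := hFLXA P.eps β he0 he1 hβ _ _ _ _ _ _ _ _ _ _ _ _ hA (by linarith) (by linarith)
    (by linarith)
  refine ⟨hF.1, ?_⟩
  intro s₀ s₁ A hs0 hs01 hs1' hAU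
  set ρ : ℝ := Real.exp D.tau with hρ
  have hρ1 : 1 < ρ := by
    rw [hρ]
    exact Real.one_lt_exp_iff.2 htau
  have hρ2 : ρ < 2 := by
    have h1 : ρ ≤ Real.exp (1 / 2) := by
      rw [hρ]
      exact Real.exp_le_exp.2 (by linarith [hS.tau_le])
    have h2 : Real.exp (1 / 2) < 2 := by
      have h3 : Real.exp (1 / 2) * Real.exp (1 / 2) = Real.exp 1 := by
        rw [← Real.exp_add]
        norm_num
      have h4 := Real.exp_one_lt_d9
      have h5 := Real.exp_pos (1 / 2)
      nlinarith
    linarith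
  have hρ0 : 0 < ρ := by linarith
  have hρr : ρ < r := by linarith
  -- the metric on `|x| > 1`
  have hg : MetricOn {x : E3 | 1 < ‖x‖} D.g := by
    obtain ⟨δ, hδ, hm, -⟩ := hS.smooth0
    have hsub : {x : E3 | 1 < ‖x‖} ⊆ Outside δ := by
      intro x hx
      have hx' : 1 < ‖x‖ := hx
      show 1 - δ < ‖x‖
      linarith
    exact ⟨fun i j => (hm.smooth i j).mono hsub, fun x hx => hm.posDef x (hsub hx)⟩
  have hH2' : H2On (Ann 1 D.R) (D.w P) (D.Gw P) (D.Mw P) := by
    refine h2On_mono hH2 fun x hx => ⟨?_, hx.2⟩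
    have := hx.1
    linarith
  -- the perimeter inequality
  have hP := hXPER D.g (D.w P) (D.Gw P) (D.Mw P) 1 ρ r D.R s₀ s₁ hg le_rfl hρ1 hρr
    (by linarith) hs01 hH2'
    (fun x hx hxρ => by
      have := hcol x hx.1.le hxρ
      linarith)
    (fun x hx hxr => by
      have := hloc x hx hxr
      linarith) A hAU
  set T : Set E3 := cAnn ρ r ∩ {x | s₀ ≤ D.w P x ∧ D.w P x ≤ s₁} with hT
  have hcO : cAnn ρ r ⊆ D.Om := fun x hx => ⟨lt_of_lt_of_le hρ1 hx.1, by
    have := hx.2
    show ‖x‖ < D.R
    linarith⟩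
  have hTO : D.Om ∩ {x | s₀ ≤ D.w P x ∧ D.w P x ≤ s₁} = T := by
    apply Set.Subset.antisymm
    · rintro x ⟨hxO, hx1, hx2⟩
      refine ⟨⟨?_, ?_⟩, hx1, hx2⟩
      · by_contra hc
        push Not at hc
        have := hcol x hxO.1.le hc.le
        linarith
      · by_contra hc
        push Not at hc
        have := hloc x hxO hc.le
        linarith
    · rintro x ⟨hxc, hx⟩
      exact ⟨hcO hxc, hx⟩
  have hTm : MeasurableSet T := by
    rw [hT]
    exact (isCompact_cAnn ρ r).measurableSet.inter
      ((measurableSet_le measurable_const hwm).inter (measurableSet_le hwm measurable_const))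
  -- integrability
  have hs0' : P.eps / 4 / 4 < s₀ := by linarith
  have hs1'' : s₁ < D.sM P := by linarith
  have hiv : IntegrableOn D.vol T := by
    have := hA.int_vol s₀ s₁ hs0' hs01 hs1''
    rwa [hTO] at this
  have hiX : IntegrableOn (fun x => D.X P x ^ 3 * D.vol x) T := by
    have := hA.int_X s₀ s₁ hs0' hs01 hs1''
    rwa [hTO] at this
  have hTsub : T ⊆ D.Om := fun x hx => hcO hx.1
  have hmX : AEStronglyMeasurable (D.X P) (volume.restrict T) :=
    hA.meas_X.mono_measure (Measure.restrict_mono hTsub le_rfl)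
  have hmXe : AEStronglyMeasurable (fun x => D.X P x ^ (1 + P.eps)) (volume.restrict T) := by
    have : Measurable fun t : ℝ => t ^ (1 + P.eps) := by fun_prop
    exact (this.comp_aemeasurable hmX.aemeasurable).aestronglyMeasurable
  have hiXe : IntegrableOn (fun x => D.X P x ^ (1 + P.eps) * D.vol x) T := by
    refine Integrable.mono' (hiv.add hiX) (hmXe.mul hiv.aestronglyMeasurable) ?_
    refine Filter.Eventually.of_forall fun x => ?_
    have hX0 := hA.X_nonneg x
    have hv0 := hA.vol_nonneg x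
    have h1 : D.X P x ^ (1 + P.eps) ≤ 1 + D.X P x ^ 3 := by
      rcases le_total (D.X P x) 1 with h | h
      · have h2 : D.X P x ^ (1 + P.eps) ≤ 1 := Real.rpow_le_one hX0 h (by linarith)
        have h3 : 0 ≤ D.X P x ^ 3 := pow_nonneg hX0 3
        linarith
      · have h2 : D.X P x ^ (1 + P.eps) ≤ D.X P x ^ (3 : ℝ) :=
          Real.rpow_le_rpow_of_exponent_le h (by linarith)
        have h3 : D.X P x ^ (3 : ℝ) = D.X P x ^ (3 : ℕ) := by
          rw [← Real.rpow_natCast]; norm_num
        rw [h3] at h2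
        linarith
    have h0 : 0 ≤ D.X P x ^ (1 + P.eps) * D.vol x := mul_nonneg (Real.rpow_nonneg hX0 _) hv0
    rw [Real.norm_eq_abs, abs_of_nonneg h0]
    calc D.X P x ^ (1 + P.eps) * D.vol x ≤ (1 + D.X P x ^ 3) * D.vol x :=
          mul_le_mul_of_nonneg_right h1 hv0
      _ = (D.vol + fun x => D.X P x ^ 3 * D.vol x) x := by
          simp only [Pi.add_apply]; ring
  -- the flux
  have hI : (∫ x in T, D.X P x ^ (1 + P.eps) * D.vol x)
      ≤ jInf P.eps β D.Om D.vol (D.w P) (D.X P) (D.s2 P) * (Real.exp s₁ - Real.exp s₀) := by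
    have := hF.2 s₀ s₁ hs0' hs01.le (by linarith)
    rwa [hTO] at this
  -- the volume
  have hV : (∫ x in T, D.vol x) ≤ ∫ x in cAnn 1 r, volDen D.g' x := by
    refine setIntegral_mono_set ?_ ?_ ?_
    · refine ContinuousOn.integrableOn_compact (isCompact_cAnn 1 r) ?_
      exact (continuousOn_volDen hS.modified.metric).mono (Set.subset_univ _)
    · exact Filter.Eventually.of_forall fun x => Real.sqrt_nonneg _
    · exact Filter.Eventually.of_forall fun x hx => ⟨hρ1.le.trans hx.1.1, hx.1.2⟩
  have hH := hHOLA P.eps T D.vol (D.X P) _ _ he0 (by linarith) hTm hA.vol_nonneg hA.X_nonneg hiv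
    hiXe hmX hI hV
  -- comparison of the two metrics
  have hC : 0 ≤ 1 + P.C * D.tau := by
    have := mul_pos hS.C_pos htau
    linarith
  have hcmp : ∫ x in T, len D.g x (D.Gw P x) * volDen D.g x
      ≤ (1 + P.C * D.tau) * ∫ x in T, D.X P x * D.vol x := by
    rw [← integral_const_mul]
    refine integral_mono_of_nonneg ?_ (hH.1.const_mul _) ?_
    · refine Filter.Eventually.of_forall fun x => ?_
      exact mul_nonneg (Real.sqrt_nonneg _) (Real.sqrt_nonneg _)
    · refine (ae_restrict_iff' hTm).2 (Filter.Eventually.of_forall fun x hx => ?_)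
      exact hS.modified.area x (hρ1.le.trans hx.1.1) (lt_of_le_of_lt hx.1.2 hr2) (D.Gw P x)
  exact hP.trans (hcmp.trans (mul_le_mul_of_nonneg_left hH.2 hC))

end Pool.Agent.PFlow
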