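import Pool.Agent.PFlow.StmtsX2
import Pool.Agent.PFlow.E.PER
import Pool.Agent.PFlow.M_MO

/-!
# (XPER) Exterior regions: the infimum of the areas is at most the mean area of the level sets
-/

open MeasureTheory Filter Topology
open scoped ContDiff ENNReal

namespace Pool.Agent.PFlow

open Pool.Agent.PenroseSph

open PERm in
theorem XPER (hXPERA : Stmt_XPERA) : Stmt_XPER := by
  intro g w G M α ρ r β s₀ s₁ hg hα hαρ hρr hrβ hs hw hin hout A hA
  have hρ1 : 1 < ρ := hα.trans_lt hαρ
  have hρ : 0 < ρ := one_pos.trans hρ1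
  set K := cAnn ρ r with hK
  have hKc : IsCompact K := isCompact_cAnn ρ r
  have hKm : MeasurableSet K := hKc.isClosed.measurableSet
  have hKA : K ⊆ Ann α β := fun x hx => ⟨hαρ.trans_le hx.1, hx.2.trans_lt hrβ⟩
  have hK0 : K ⊆ {x : E3 | 1 < ‖x‖} := fun x hx => hρ1.trans_le hx.1
  have : IsFiniteMeasure (volume.restrict K) := ⟨by
    rw [Measure.restrict_apply_univ]
    exact hKc.measure_lt_top⟩
  have hci : ∀ i j, ContinuousOn (fun x => (g x)⁻¹ i j) K := fun i j =>
    (MCT.smooth_inv hg i j).continuousOn.mono hK0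
  have hcv : ContinuousOn (volDen g) K := by
    unfold volDen
    exact ((MCT.smooth_det hg.smooth).continuousOn.mono hK0).sqrt
  obtain ⟨c1, h1, b1⟩ := MCT.exists_bd hKc (fun (ij : Fin 3 × Fin 3) x => (g x)⁻¹ ij.1 ij.2)
    (fun ij => hci ij.1 ij.2)
  obtain ⟨c2, h2, b2⟩ := MCT.exists_bd hKc (fun (_ : Unit) x => volDen g x) (fun _ => hcv)
  have hG2 := hw.memG K hKc hKA
  have hGi : ∀ i, Integrable (fun x => G x i) (volume.restrict K) := fun i =>
    (hG2 i).integrable one_le_two
  set c : ℝ := Real.sqrt (3 * c1) with hc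
  have hc0 : 0 ≤ c := Real.sqrt_nonneg _
  have hlen : ∀ x ∈ K, ∀ p : Cov, len g x p * volDen g x ≤ c * c2 * ∑ i, |p i| := by
    intro x hx p
    have e1 := len_le (g := g) (x := x) (by linarith : (0 : ℝ) ≤ c1) (fun i j => b1 x hx (i, j)) p
    have e2 := b2 x hx ()
    have e3 : 0 ≤ volDen g x := Real.sqrt_nonneg _
    rw [abs_of_nonneg e3] at e2
    have e4 : 0 ≤ ∑ i, |p i| := Finset.sum_nonneg fun _ _ => abs_nonneg _
    calc len g x p * volDen g x ≤ (c * ∑ i, |p i|) * c2 :=
          mul_le_mul e1 e2 e3 (by positivity)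
      _ = _ := by ring
  -- the integrand is integrable
  have hI : Integrable (fun x => len g x (G x) * volDen g x) (volume.restrict K) := by
    refine Integrable.mono' (g := fun x => c * c2 * ∑ i, |G x i|) ?_
      (len_aesm hKc hci hcv fun i => (hGi i).aestronglyMeasurable) ?_
    · refine Integrable.const_mul ?_ _
      exact integrable_finsetSum _ fun i _ => (hGi i).abs
    · refine (ae_restrict_iff' hKm).mpr (ae_of_all _ fun x hx => ?_)
      rw [Real.norm_of_nonneg (mul_nonneg (len_nonneg g x (G x)) (volDen_nonneg g x))]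
      exact hlen x hx _
  set S : Set E3 := K ∩ {x | s₀ ≤ w x ∧ w x ≤ s₁} with hS
  have hSm : MeasurableSet S := by
    have : S = K ∩ w ⁻¹' Set.Icc s₀ s₁ := rfl
    rw [this]
    exact ((hw.cont.mono hKA).preimage_isClosed_of_isClosed hKc.isClosed isClosed_Icc).measurableSet
  -- the key inequality
  have key : ∀ e : ℝ, 0 < e → e < (s₁ - s₀) / 2 → A * (s₁ - s₀ - 2 * e) ≤
      (∫ x in S, len g x (G x) * volDen g x) + c * c2 * (3 * e) := by
    intro e he he2
    obtain ⟨v, hvs, hvu, hv1, -⟩ := hw.approx K hKc hKA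
    obtain ⟨V, hV⟩ : ∃ V : ℝ, V = (volume.restrict K).real Set.univ := ⟨_, rfl⟩
    have hV0 : 0 ≤ V := by rw [hV]; exact measureReal_nonneg
    -- choose n
    have hi : ∀ i, Tendsto (fun n => Real.sqrt V * Real.sqrt (∫ x in K, (pd i (v n) x - G x i) ^ 2))
        atTop (𝓝 0) := by
      intro i
      have := ((Real.continuous_sqrt.tendsto 0).comp (hv1 i)).const_mul (Real.sqrt V)
      simpa using this
    have hev : ∀ᶠ n in atTop, (∀ x ∈ K, dist (w x) (v n x) < e / 2) ∧
        ∀ i, Real.sqrt V * Real.sqrt (∫ x in K, (pd i (v n) x - G x i) ^ 2) < e / 2 := by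
      refine ((Metric.tendstoUniformlyOn_iff.mp hvu) (e / 2) (by linarith)).and ?_
      exact eventually_all.mpr fun i => (hi i).eventually (gt_mem_nhds (by linarith))
    obtain ⟨n, hn1, hn2⟩ := hev.exists
    -- choose the linear perturbation
    have hdense := MeasureTheory.Measure.dense_of_ae (MO (v n) K (hvs n) hKc)
    have hr0 : 0 < r := hρ.trans hρr
    obtain ⟨δ, hδ, hδ1, hδ2⟩ : ∃ δ : ℝ, 0 < δ ∧ δ * r < e / 2 ∧ δ * V < e / 2 := by
      refine ⟨e / 2 / (2 * (r + V + 1)), by positivity, ?_, ?_⟩
      · rw [div_mul_eq_mul_div, div_lt_iff₀ (by positivity)]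
        nlinarith
      · rw [div_mul_eq_mul_div, div_lt_iff₀ (by positivity)]
        nlinarith
    obtain ⟨a, ha, had⟩ := hdense.exists_dist_lt 0 hδ
    have han : ‖a‖ < δ := by simpa [dist_comm] using had
    have hai : ∀ i, |a i| ≤ δ := fun i => (PiLp.norm_apply_le a i).trans han.le
    obtain ⟨W, hW⟩ : ∃ W : E3 → ℝ, W = fun x => v n x + ∑ i, a i * x i := ⟨_, rfl⟩
    have hco : ∀ i, ContDiff ℝ ∞ (fun x : E3 => x i) := fun i => by fun_prop
    have hlin : ContDiff ℝ ∞ (fun x : E3 => ∑ i, a i * x i) :=
      ContDiff.sum fun i _ => contDiff_const.mul (hco i)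
    have hWs : ContDiff ℝ ∞ W := by
      rw [hW]
      exact (hvs n).add hlin
    have hpl : ∀ i x, pd i (fun x : E3 => ∑ j, a j * x j) x = a i := by
      intro i x
      rw [pd_sum _ _ (fun j _ => (differentiableAt_coord j).const_mul _)]
      simp only [pd_const_mul _ (differentiableAt_coord _), pd_coord]
      simp
    have hpd : ∀ i x, pd i W x = pd i (v n) x + a i := by
      intro i x
      rw [hW, pd_add ((hvs n).differentiable (by simp) x) (hlin.differentiable (by simp) x), hpl]
    have hclose : ∀ x ∈ K, |W x - w x| < e := by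
      intro x hx
      have e1 := hn1 x hx
      rw [Real.dist_eq, abs_sub_comm] at e1
      have e2 : |∑ i, a i * x i| ≤ ‖a‖ * ‖x‖ := by
        have := abs_real_inner_le_norm a x
        rw [PiLp.inner_apply] at this
        have e3 : ∑ i, inner ℝ (a i) (x i) = ∑ i, a i * x i :=
          Finset.sum_congr rfl fun i _ => by simp [mul_comm]
        rwa [e3] at this
      have e4 : ‖a‖ * ‖x‖ < e / 2 :=
        lt_of_le_of_lt (mul_le_mul han.le hx.2 (norm_nonneg _) hδ.le) hδ1
      have e5 : W x - w x = (v n x - w x) + ∑ i, a i * x i := by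
        rw [hW]
        ring
      rw [e5]
      calc |(v n x - w x) + ∑ i, a i * x i| ≤ |v n x - w x| + |∑ i, a i * x i| := abs_add_le _ _
        _ < e := by linarith
    have hfin : Set.Finite {s : ℝ | s₀ + e ≤ s ∧ s ≤ s₁ - e ∧
        ∃ x ∈ cAnn ρ r, W x = s ∧ fderiv ℝ W x = 0} := by
      refine (ha.image W).subset ?_
      rintro s ⟨-, -, x, hx, hxs, hx0⟩
      refine ⟨x, ⟨hx, fun i => ?_⟩, hxs⟩
      rw [← hpd]
      unfold pd
      rw [hx0]
      rfl
    have hP := hXPERA g W ρ r (s₀ + e) (s₁ - e) hg hρ1 hρr (by linarith) hWs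
      (fun x hx hxρ => by
        have e1 := abs_lt.mp (hclose x hx)
        have e2 := hin x (hKA hx) hxρ.le
        linarith [e1.2])
      (fun x hx hxr => by
        have e1 := abs_lt.mp (hclose x hx)
        have e2 := hout x (hKA hx) hxr.ge
        linarith [e1.1]) hfin A hA
    -- the difference of the gradients
    obtain ⟨D, hD⟩ : ∃ D : Fin 3 → E3 → ℝ, D = fun i x => pd i W x - G x i := ⟨_, rfl⟩
    have hvc : ∀ i, ContinuousOn (pd i (v n)) K := fun i =>
      (((hvs n).continuous_fderiv (by simp)).clm_apply continuous_const).continuousOn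
    have hWc : ∀ i, ContinuousOn (pd i W) K := fun i =>
      ((hWs.continuous_fderiv (by simp)).clm_apply continuous_const).continuousOn
    have hWi : ∀ i, Integrable (pd i W) (volume.restrict K) := fun i =>
      (hWc i).integrableOn_compact hKc
    have hvm : ∀ i, MemLp (fun x => pd i (v n) x - G x i) 2 (volume.restrict K) := by
      intro i
      refine MemLp.sub ?_ (hG2 i)
      obtain ⟨B, hB⟩ := hKc.exists_bound_of_continuousOn (hvc i)
      refine MemLp.of_bound ((hvc i).aestronglyMeasurable hKm) B ?_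
      exact (ae_restrict_iff' hKm).mpr (ae_of_all _ hB)
    have hDi : ∀ i, Integrable (fun x => |D i x|) (volume.restrict K) := fun i => by
      rw [hD]
      exact ((hWi i).sub (hGi i)).abs
    have hDb : ∀ i, ∫ x in K, |D i x| ≤ e := by
      intro i
      have e1 := integral_abs_le (hvm i)
      rw [← hV] at e1
      have e2 : ∫ x in K, |D i x| ≤ ∫ x in K, (|pd i (v n) x - G x i| + |a i|) := by
        refine integral_mono (hDi i) (((hvm i).integrable one_le_two).abs.add
          (integrable_const _)) fun x => ?_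
        rw [hD]
        simp only [hpd]
        have : pd i (v n) x + a i - G x i = (pd i (v n) x - G x i) + a i := by ring
        rw [this]
        exact abs_add_le _ _
      rw [integral_add ((hvm i).integrable one_le_two).abs (integrable_const _),
        integral_const, ← hV, smul_eq_mul] at e2
      have e3 : V * |a i| ≤ δ * V := by
        rw [mul_comm]
        exact mul_le_mul_of_nonneg_right (hai i) hV0
      have e4 := hn2 i
      linarith
    have hWI : Integrable (fun x => len g x (grad W x) * volDen g x) (volume.restrict K) := by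
      refine Integrable.mono' (g := fun x => c * c2 * ∑ i, |grad W x i|) ?_
        (len_aesm hKc hci hcv fun i => (hWi i).aestronglyMeasurable) ?_
      · refine Integrable.const_mul ?_ _
        exact integrable_finsetSum _ fun i _ => (hWi i).abs
      · refine (ae_restrict_iff' hKm).mpr (ae_of_all _ fun x hx => ?_)
        rw [Real.norm_of_nonneg (mul_nonneg (len_nonneg g x _) (volDen_nonneg g x))]
        exact hlen x hx _
    have hSK : S ⊆ K := Set.inter_subset_left
    have hsub : cAnn ρ r ∩ {x | s₀ + e ≤ W x ∧ W x ≤ s₁ - e} ⊆ S := by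
      rintro x ⟨hx, hx1, hx2⟩
      have e1 := abs_lt.mp (hclose x hx)
      exact ⟨hx, by linarith [e1.2], by linarith [e1.1]⟩
    have step1 : ∫ x in cAnn ρ r ∩ {x | s₀ + e ≤ W x ∧ W x ≤ s₁ - e},
        len g x (grad W x) * volDen g x ≤ ∫ x in S, len g x (grad W x) * volDen g x := by
      refine setIntegral_mono_set (hWI.mono_measure (Measure.restrict_mono hSK le_rfl)) ?_
        (LE.le.eventuallyLE hsub)
      exact ae_of_all _ fun x => mul_nonneg (len_nonneg g x _) (volDen_nonneg g x)
    have hsumi : Integrable (fun x => c * c2 * ∑ i, |D i x|) (volume.restrict K) := by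
      refine Integrable.const_mul ?_ _
      exact integrable_finsetSum _ fun i _ => hDi i
    have step2 : ∫ x in S, len g x (grad W x) * volDen g x ≤
        ∫ x in S, (len g x (G x) * volDen g x + c * c2 * ∑ i, |D i x|) := by
      refine setIntegral_mono_on (hWI.mono_measure (Measure.restrict_mono hSK le_rfl))
        ((hI.add hsumi).mono_measure (Measure.restrict_mono hSK le_rfl)) hSm fun x hx => ?_
      have e1 := len_add_le (hg.posDef x (hK0 (hSK hx))) (G x) (fun i => D i x)
      have e2 : (fun i => G x i + D i x) = grad W x := by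
        funext i
        rw [hD]
        change G x i + (pd i W x - G x i) = pd i W x
        ring
      rw [e2] at e1
      have e3 := hlen x (hSK hx) (fun i => D i x)
      have e4 := mul_le_mul_of_nonneg_right e1 (volDen_nonneg g x)
      linarith [add_mul (len g x (G x)) (len g x fun i => D i x) (volDen g x)]
    have step3 : ∫ x in S, (len g x (G x) * volDen g x + c * c2 * ∑ i, |D i x|)
        ≤ (∫ x in S, len g x (G x) * volDen g x) + c * c2 * (3 * e) := by
      rw [integral_add (hI.mono_measure (Measure.restrict_mono hSK le_rfl))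
        (hsumi.mono_measure (Measure.restrict_mono hSK le_rfl))]
      have e1 : ∫ x in S, c * c2 * ∑ i, |D i x| ≤ ∫ x in K, c * c2 * ∑ i, |D i x| := by
        refine setIntegral_mono_set hsumi ?_ (LE.le.eventuallyLE hSK)
        refine ae_of_all _ fun x => ?_
        have : 0 ≤ ∑ i, |D i x| := Finset.sum_nonneg fun _ _ => abs_nonneg _
        exact mul_nonneg (mul_nonneg hc0 (by linarith)) this
      have e2 : ∫ x in K, c * c2 * ∑ i, |D i x| = c * c2 * ∑ i, ∫ x in K, |D i x| := by
        rw [integral_const_mul, integral_finsetSum _ fun i _ => hDi i]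
      have e3 : ∑ i, ∫ x in K, |D i x| ≤ 3 * e := by
        calc ∑ i, ∫ x in K, |D i x| ≤ ∑ _i : Fin 3, e := Finset.sum_le_sum fun i _ => hDb i
          _ = 3 * e := by simp
      have e4 : c * c2 * ∑ i, ∫ x in K, |D i x| ≤ c * c2 * (3 * e) :=
        mul_le_mul_of_nonneg_left e3 (mul_nonneg hc0 (by linarith))
      linarith
    have e9 : s₁ - e - (s₀ + e) = s₁ - s₀ - 2 * e := by ring
    rw [e9] at hP
    exact hP.trans (step1.trans (step2.trans step3))
  by_contra hcon
  push Not at hcon
  obtain ⟨I, hIe⟩ : ∃ I, I = ∫ x in S, len g x (G x) * volDen g x := ⟨_, rfl⟩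
  rw [← hIe] at hcon key
  have hT : 0 < 3 * (c * c2) + 2 * |A| + 1 := by
    have : 0 ≤ c * c2 := mul_nonneg hc0 (by linarith)
    positivity
  obtain ⟨e, he⟩ : ∃ e, e = min ((s₁ - s₀) / 4)
      ((A * (s₁ - s₀) - I) / (3 * (c * c2) + 2 * |A| + 1)) := ⟨_, rfl⟩
  have he0 : 0 < e := by
    rw [he]
    exact lt_min (by linarith) (div_pos (by linarith) hT)
  have he1 : e < (s₁ - s₀) / 2 := by
    have : e ≤ (s₁ - s₀) / 4 := by rw [he]; exact min_le_left _ _
    linarith
  have he2 : e * (3 * (c * c2) + 2 * |A| + 1) ≤ A * (s₁ - s₀) - I := by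
    have : e ≤ (A * (s₁ - s₀) - I) / (3 * (c * c2) + 2 * |A| + 1) := by
      rw [he]; exact min_le_right _ _
    rwa [le_div_iff₀ hT] at this
  have h5 := key e he0 he1
  have h6 : A * e ≤ |A| * e := mul_le_mul_of_nonneg_right (le_abs_self A) he0.le
  nlinarith

end Pool.Agent.PFlow
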