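import Pool.Agent.PFlow.StmtsX1

/-!
XPHI: the profile of the collar.
-/

open MeasureTheory Filter Topology
open scoped ContDiff ENNReal

namespace Pool.Agent.PFlow

open Pool.Agent.PenroseSph

namespace XPHI

/-- The smooth transition. -/
noncomputable abbrev S : ℝ → ℝ := Real.smoothTransition

theorem S_smooth : ContDiff ℝ ∞ S := Real.smoothTransition.contDiff

theorem S_symm (x : ℝ) : S x + S (1 - x) = 1 := by
  have h1 := Real.smoothTransition.pos_denom x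
  show expNegInvGlue x / (expNegInvGlue x + expNegInvGlue (1 - x)) +
    expNegInvGlue (1 - x) / (expNegInvGlue (1 - x) + expNegInvGlue (1 - (1 - x))) = 1
  rw [show 1 - (1 - x) = x by ring, add_comm (expNegInvGlue (1 - x)) (expNegInvGlue x),
    ← add_div, div_self h1.ne']

theorem deriv_smooth {f : ℝ → ℝ} (hf : ContDiff ℝ ∞ f) : ContDiff ℝ ∞ (deriv f) :=
  (contDiff_infty_iff_deriv.mp hf).2

theorem hasDeriv {f : ℝ → ℝ} (hf : ContDiff ℝ ∞ f) (x : ℝ) : HasDerivAt f (deriv f x) x :=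
  ((contDiff_infty_iff_deriv.mp hf).1 x).hasDerivAt

theorem hcomp {f g : ℝ → ℝ} {f' g' t : ℝ} (hf : HasDerivAt f f' (g t)) (hg : HasDerivAt g g' t) :
    HasDerivAt (fun t => f (g t)) (f' * g') t := HasDerivAt.comp t hf hg

theorem deriv_le {f : ℝ → ℝ} (hf : ContDiff ℝ ∞ f) {a c : ℝ} (h : ∀ x ≤ a, f x = c) :
    ∀ x ≤ a, deriv f x = 0 := by
  intro x hx
  have h1 : HasDerivWithinAt f (deriv f x) (Set.Iic a) x := (hasDeriv hf x).hasDerivWithinAt
  have h2 : HasDerivWithinAt f 0 (Set.Iic a) x :=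
    (hasDerivWithinAt_const x (Set.Iic a) c).congr (fun y hy => h y hy) (h x hx)
  exact (uniqueDiffOn_Iic a x hx).eq_deriv _ h1 h2

theorem deriv_ge {f : ℝ → ℝ} (hf : ContDiff ℝ ∞ f) {a c : ℝ} (h : ∀ x, a ≤ x → f x = c) :
    ∀ x, a ≤ x → deriv f x = 0 := by
  intro x hx
  have h1 : HasDerivWithinAt f (deriv f x) (Set.Ici a) x := (hasDeriv hf x).hasDerivWithinAt
  have h2 : HasDerivWithinAt f 0 (Set.Ici a) x :=
    (hasDerivWithinAt_const x (Set.Ici a) c).congr (fun y hy => h y hy) (h x hx)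
  exact (uniqueDiffOn_Ici a x hx).eq_deriv _ h1 h2

theorem exists_bound {f : ℝ → ℝ} (hf : ContDiff ℝ ∞ f) (h0 : ∀ x ≤ 0, f x = 0)
    (h1 : ∀ x, 1 ≤ x → f x = 0) : ∃ M : ℝ, 0 ≤ M ∧ ∀ x, |f x| ≤ M := by
  obtain ⟨M, hM⟩ := (isCompact_Icc (a := (0 : ℝ)) (b := 1)).exists_bound_of_continuousOn
    hf.continuous.continuousOn
  refine ⟨max M 0, le_max_right _ _, fun x => ?_⟩
  by_cases hx0 : x ≤ 0
  · rw [h0 x hx0, abs_zero]
    exact le_max_right _ _
  · by_cases hx1 : 1 ≤ x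
    · rw [h1 x hx1, abs_zero]
      exact le_max_right _ _
    · exact (hM x ⟨(not_le.mp hx0).le, (not_le.mp hx1).le⟩).trans (le_max_left _ _)

/-- The first derivative of the smooth transition. -/
noncomputable abbrev S1 : ℝ → ℝ := deriv S
/-- The second derivative of the smooth transition. -/
noncomputable abbrev S2 : ℝ → ℝ := deriv S1
/-- The third derivative of the smooth transition. -/
noncomputable abbrev S3 : ℝ → ℝ := deriv S2

theorem S1_smooth : ContDiff ℝ ∞ S1 := deriv_smooth S_smooth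
theorem S2_smooth : ContDiff ℝ ∞ S2 := deriv_smooth S1_smooth
theorem S3_smooth : ContDiff ℝ ∞ S3 := deriv_smooth S2_smooth

theorem S_le : ∀ x ≤ 0, S x = 0 := fun _ hx => Real.smoothTransition.zero_of_nonpos hx
theorem S_ge : ∀ x, 1 ≤ x → S x = 1 := fun _ hx => Real.smoothTransition.one_of_one_le hx
theorem S1_le : ∀ x ≤ 0, S1 x = 0 := deriv_le S_smooth S_le
theorem S1_ge : ∀ x, 1 ≤ x → S1 x = 0 := deriv_ge S_smooth S_ge
theorem S2_le : ∀ x ≤ 0, S2 x = 0 := deriv_le S1_smooth S1_le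
theorem S2_ge : ∀ x, 1 ≤ x → S2 x = 0 := deriv_ge S1_smooth S1_ge
theorem S3_le : ∀ x ≤ 0, S3 x = 0 := deriv_le S2_smooth S2_le
theorem S3_ge : ∀ x, 1 ≤ x → S3 x = 0 := deriv_ge S2_smooth S2_ge

theorem S1_nonneg (x : ℝ) : 0 ≤ S1 x := Real.smoothTransition.monotone.deriv_nonneg

/-- The integrand of `thX`. -/
theorem cont_int : Continuous fun v : ℝ => S (2 * v - 1) :=
  S_smooth.continuous.comp (by fun_prop)

theorem hasDerivAt_th (s : ℝ) : HasDerivAt thX (S (2 * s - 1)) s := by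
  have h := intervalIntegral.integral_hasDerivAt_right (a := 0) (b := s)
    (cont_int.intervalIntegrable _ _) (cont_int.stronglyMeasurableAtFilter _ _) cont_int.continuousAt
  exact h

theorem deriv_th : deriv thX = fun s => S (2 * s - 1) := by
  funext s
  exact (hasDerivAt_th s).deriv

theorem th_smooth : ContDiff ℝ ∞ thX := by
  rw [contDiff_infty_iff_deriv, deriv_th]
  exact ⟨fun s => (hasDerivAt_th s).differentiableAt, S_smooth.comp (by fun_prop)⟩

theorem th_zero : thX 0 = 0 := by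
  unfold thX
  rw [intervalIntegral.integral_same]

theorem th_le (s : ℝ) (hs : s ≤ 1 / 2) : thX s = 0 := by
  have h1 : ∀ x ≤ (1 / 2 : ℝ), deriv thX x = 0 := by
    intro x hx
    rw [deriv_th]
    exact S_le _ (by linarith)
  rcases le_total 0 s with h0 | h0
  · have h2 : thX s - thX 0 = ∫ v in (0 : ℝ)..s, S (2 * v - 1) := by
      rw [th_zero, sub_zero]
      rfl
    rw [th_zero, sub_zero] at h2
    rw [h2]
    have h3 : Set.EqOn (fun v : ℝ => S (2 * v - 1)) (fun _ => 0) (Set.uIcc 0 s) := by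
      intro v hv
      rw [Set.uIcc_of_le h0] at hv
      exact S_le _ (by linarith [hv.2])
    rw [intervalIntegral.integral_congr h3]
    simp
  · unfold thX
    have h3 : Set.EqOn (fun v : ℝ => S (2 * v - 1)) (fun _ => 0) (Set.uIcc 0 s) := by
      intro v hv
      rw [Set.uIcc_of_ge h0] at hv
      exact S_le _ (by linarith [hv.2])
    rw [intervalIntegral.integral_congr h3]
    simp

theorem int_S : ∫ v in (0 : ℝ)..1, S v = 1 / 2 := by
  have h1 : ∫ v in (0 : ℝ)..1, S (1 - v) = ∫ v in (0 : ℝ)..1, S v := by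
    rw [intervalIntegral.integral_comp_sub_left (a := 0) (b := 1) S 1, sub_self, sub_zero]
  have h2 : (∫ v in (0 : ℝ)..1, S v) + ∫ v in (0 : ℝ)..1, S (1 - v) = 1 := by
    rw [← intervalIntegral.integral_add]
    · simp only [S_symm]
      simp
    · exact S_smooth.continuous.intervalIntegrable _ _
    · exact (S_smooth.continuous.comp (by fun_prop)).intervalIntegrable _ _
  rw [h1] at h2
  linarith

theorem th_one : thX 1 = 1 / 4 := by
  have h0 : thX 1 = (∫ v in (0 : ℝ)..(1 / 2), S (2 * v - 1)) +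
      ∫ v in (1 / 2 : ℝ)..1, S (2 * v - 1) := by
    rw [intervalIntegral.integral_add_adjacent_intervals]
    · rfl
    · exact cont_int.intervalIntegrable _ _
    · exact cont_int.intervalIntegrable _ _
  have h1 : (∫ v in (0 : ℝ)..(1 / 2), S (2 * v - 1)) = 0 := th_le (1 / 2) le_rfl
  have h2 : ∫ v in (1 / 2 : ℝ)..1, S (2 * v - 1) = 1 / 4 := by
    have h3 := intervalIntegral.integral_comp_mul_sub (a := 1 / 2) (b := 1) (c := 2) S
      two_ne_zero 1
    rw [h3]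
    norm_num
    rw [int_S]
    norm_num
  rw [h0, h1, h2]
  norm_num

theorem th_ge (s : ℝ) (hs : 1 ≤ s) : thX s = s - 3 / 4 := by
  have h0 : thX s = thX 1 + ∫ v in (1 : ℝ)..s, S (2 * v - 1) := by
    unfold thX
    rw [intervalIntegral.integral_add_adjacent_intervals]
    · exact cont_int.intervalIntegrable _ _
    · exact cont_int.intervalIntegrable _ _
  have h3 : Set.EqOn (fun v : ℝ => S (2 * v - 1)) (fun _ => 1) (Set.uIcc 1 s) := by
    intro v hv
    rw [Set.uIcc_of_le hs] at hv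
    exact S_ge _ (by linarith [hv.1])
  rw [h0, th_one, intervalIntegral.integral_congr h3]
  simp
  ring

theorem th_nonneg (s : ℝ) (hs : 0 ≤ s) : 0 ≤ thX s := by
  unfold thX
  exact intervalIntegral.integral_nonneg hs fun v _ => Real.smoothTransition.nonneg _

theorem th_le_self (s : ℝ) (hs : 0 ≤ s) : thX s ≤ s := by
  have h1 : thX s ≤ ∫ _ in (0 : ℝ)..s, (1 : ℝ) := by
    unfold thX
    refine intervalIntegral.integral_mono_on hs (cont_int.intervalIntegrable _ _)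
      (continuous_const.intervalIntegrable _ _) fun v _ => Real.smoothTransition.le_one _
  simpa using h1

section

variable {τ δ : ℝ}

theorem ph_smooth : ContDiff ℝ ∞ (phX τ δ) := by
  have h1 : ContDiff ℝ ∞ fun t : ℝ => thX (t / τ) := th_smooth.comp (by fun_prop)
  have h2 : ContDiff ℝ ∞ fun t : ℝ => S (2 * t / δ - 1) := S_smooth.comp (by fun_prop)
  exact (contDiff_const.mul h1).add (contDiff_const.mul h2)

theorem hasDeriv_lin1 (t : ℝ) : HasDerivAt (fun t : ℝ => 2 * (t / τ) - 1) (2 / τ) t := by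
  have h := (((hasDerivAt_id t).div_const τ).const_mul 2).sub_const 1
  refine h.congr_deriv ?_
  ring

theorem hasDeriv_lin2 (t : ℝ) : HasDerivAt (fun t : ℝ => 2 * t / δ - 1) (2 / δ) t := by
  have h := (((hasDerivAt_id t).const_mul 2).div_const δ).sub_const 1
  refine h.congr_deriv ?_
  simp

theorem ph_deriv (hτ : τ ≠ 0) : deriv (phX τ δ) = fun t =>
    S (2 * (t / τ) - 1) + 3 * τ / 4 * (S1 (2 * t / δ - 1) * (2 / δ)) := by
  funext t
  apply HasDerivAt.deriv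
  have h1 : HasDerivAt (fun t : ℝ => t / τ) (1 / τ) t := (hasDerivAt_id t).div_const τ
  have h2 : HasDerivAt (fun t : ℝ => thX (t / τ)) (S (2 * (t / τ) - 1) * (1 / τ)) t :=
    hcomp (hasDerivAt_th (t / τ)) h1
  have h3 : HasDerivAt (fun t : ℝ => S (2 * t / δ - 1)) (S1 (2 * t / δ - 1) * (2 / δ)) t :=
    hcomp (hasDeriv S_smooth (2 * t / δ - 1)) (hasDeriv_lin2 t)
  have h4 := (h2.const_mul τ).add (h3.const_mul (3 * τ / 4))
  refine h4.congr_deriv ?_
  congr 1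
  field_simp

theorem ph_deriv2 (hτ : τ ≠ 0) : deriv (deriv (phX τ δ)) = fun t =>
    S1 (2 * (t / τ) - 1) * (2 / τ) +
      3 * τ / 4 * (S2 (2 * t / δ - 1) * (2 / δ) * (2 / δ)) := by
  rw [ph_deriv hτ]
  funext t
  apply HasDerivAt.deriv
  have h1 : HasDerivAt (fun t : ℝ => S (2 * (t / τ) - 1)) (S1 (2 * (t / τ) - 1) * (2 / τ)) t :=
    hcomp (hasDeriv S_smooth (2 * (t / τ) - 1)) (hasDeriv_lin1 t)
  have h2 : HasDerivAt (fun t : ℝ => S1 (2 * t / δ - 1)) (S2 (2 * t / δ - 1) * (2 / δ)) t :=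
    hcomp (hasDeriv S1_smooth (2 * t / δ - 1)) (hasDeriv_lin2 t)
  exact h1.add ((h2.mul_const (2 / δ)).const_mul (3 * τ / 4))

theorem ph_deriv3 (hτ : τ ≠ 0) : deriv (deriv (deriv (phX τ δ))) = fun t =>
    S2 (2 * (t / τ) - 1) * (2 / τ) * (2 / τ) +
      3 * τ / 4 * (S3 (2 * t / δ - 1) * (2 / δ) * (2 / δ) * (2 / δ)) := by
  rw [ph_deriv2 hτ]
  funext t
  apply HasDerivAt.deriv
  have h1 : HasDerivAt (fun t : ℝ => S1 (2 * (t / τ) - 1)) (S2 (2 * (t / τ) - 1) * (2 / τ)) t :=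
    hcomp (hasDeriv S1_smooth (2 * (t / τ) - 1)) (hasDeriv_lin1 t)
  have h2 : HasDerivAt (fun t : ℝ => S2 (2 * t / δ - 1)) (S3 (2 * t / δ - 1) * (2 / δ)) t :=
    hcomp (hasDeriv S2_smooth (2 * t / δ - 1)) (hasDeriv_lin2 t)
  exact (h1.mul_const (2 / τ)).add
    (((h2.mul_const (2 / δ)).mul_const (2 / δ)).const_mul (3 * τ / 4))

end

end XPHI

open XPHI in
theorem XPHI_thm : Stmt_XPHI := by
  intro δ hδ hδ2
  obtain ⟨M1, hM1, hb1⟩ := exists_bound S1_smooth S1_le S1_ge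
  obtain ⟨M2, hM2, hb2⟩ := exists_bound S2_smooth S2_le S2_ge
  obtain ⟨M3, hM3, hb3⟩ := exists_bound S3_smooth S3_le S3_ge
  obtain ⟨C1, hC1⟩ : ∃ C1 : ℝ, C1 = 3 / 4 * (M1 * (2 / δ)) := ⟨_, rfl⟩
  obtain ⟨C2, hC2⟩ : ∃ C2 : ℝ, C2 = 3 / 4 * (M2 * (2 / δ) * (2 / δ)) := ⟨_, rfl⟩
  obtain ⟨C3, hC3⟩ : ∃ C3 : ℝ, C3 = 3 / 4 * (M3 * (2 / δ) * (2 / δ) * (2 / δ)) := ⟨_, rfl⟩
  have hd : 0 < 2 / δ := by positivity
  have hC1' : 0 ≤ C1 := by rw [hC1]; positivity
  have hC2' : 0 ≤ C2 := by rw [hC2]; positivity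
  have hC3' : 0 ≤ C3 := by rw [hC3]; positivity
  refine ⟨C1 + C2 + C3 + 2 * M1 + 1, by positivity, fun τ hτ hτδ => ?_⟩
  have hb1' : ∀ x, |3 * τ / 4 * (S1 x * (2 / δ))| ≤ C1 * τ := by
    intro x
    rw [abs_mul, abs_mul, abs_of_pos hd, abs_of_pos (by positivity : 0 < 3 * τ / 4), hC1]
    have h1 : |S1 x| * (2 / δ) ≤ M1 * (2 / δ) := mul_le_mul_of_nonneg_right (hb1 x) hd.le
    have h2 := mul_le_mul_of_nonneg_left h1 (by positivity : 0 ≤ 3 * τ / 4)
    linarith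
  have hb2' : ∀ x, |3 * τ / 4 * (S2 x * (2 / δ) * (2 / δ))| ≤ C2 * τ := by
    intro x
    rw [abs_mul, abs_mul, abs_mul, abs_of_pos hd, abs_of_pos (by positivity : 0 < 3 * τ / 4), hC2]
    have h1 : |S2 x| * (2 / δ) * (2 / δ) ≤ M2 * (2 / δ) * (2 / δ) :=
      mul_le_mul_of_nonneg_right (mul_le_mul_of_nonneg_right (hb2 x) hd.le) hd.le
    have h2 := mul_le_mul_of_nonneg_left h1 (by positivity : 0 ≤ 3 * τ / 4)
    linarith
  have hb3' : ∀ x, |3 * τ / 4 * (S3 x * (2 / δ) * (2 / δ) * (2 / δ))| ≤ C3 * τ := by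
    intro x
    rw [abs_mul, abs_mul, abs_mul, abs_mul, abs_of_pos hd,
      abs_of_pos (by positivity : 0 < 3 * τ / 4), hC3]
    have h1 : |S3 x| * (2 / δ) * (2 / δ) * (2 / δ) ≤ M3 * (2 / δ) * (2 / δ) * (2 / δ) :=
      mul_le_mul_of_nonneg_right (mul_le_mul_of_nonneg_right
        (mul_le_mul_of_nonneg_right (hb3 x) hd.le) hd.le) hd.le
    have h2 := mul_le_mul_of_nonneg_left h1 (by positivity : 0 ≤ 3 * τ / 4)
    linarith
  have hx1 : ∀ t, t ≤ τ → 2 * t / δ - 1 ≤ 0 := by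
    intro t ht
    have : 2 * t / δ ≤ 1 := by
      rw [div_le_one hδ]
      linarith
    linarith
  have hx2 : ∀ t, τ ≤ t → 1 ≤ 2 * (t / τ) - 1 := by
    intro t ht
    have : 1 ≤ t / τ := (one_le_div hτ).mpr ht
    linarith
  have hval1 : ∀ t, t ≤ τ → phX τ δ t = τ * thX (t / τ) := by
    intro t ht
    show τ * thX (t / τ) + 3 * τ / 4 * S (2 * t / δ - 1) = _
    rw [S_le _ (hx1 t ht)]
    ring
  have hval2 : ∀ t, τ ≤ t → phX τ δ t = t - 3 * τ / 4 + 3 * τ / 4 * S (2 * t / δ - 1) := by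
    intro t ht
    show τ * thX (t / τ) + 3 * τ / 4 * S (2 * t / δ - 1) = _
    rw [th_ge _ ((one_le_div hτ).mpr ht)]
    field_simp
  have hCτ : ∀ a : ℝ, a ≤ C1 + C2 + C3 + 2 * M1 + 1 → a * τ ≤
      (C1 + C2 + C3 + 2 * M1 + 1) * τ := fun a ha => mul_le_mul_of_nonneg_right ha hτ.le
  have hc1 := hCτ C1 (by linarith)
  have hc2 := hCτ C2 (by linarith)
  have hc3 := hCτ C3 (by linarith)
  refine ⟨ph_smooth, ?_, ?_, ?_, ?_, ?_, ?_⟩
  · intro t ht
    rw [hval1 t (by linarith), th_le _ (by rw [div_le_iff₀ hτ]; linarith), mul_zero]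
  · intro t ht
    rcases le_total t τ with h | h
    · have h1 : 0 ≤ thX (t / τ) := th_nonneg _ (by positivity)
      have h2 : thX (t / τ) ≤ t / τ := th_le_self _ (by positivity)
      have h3 : τ * (t / τ) = t := by field_simp
      have h4 := mul_le_mul_of_nonneg_left h2 hτ.le
      have h5 := mul_nonneg hτ.le h1
      rw [hval1 t h]
      refine ⟨h5, by linarith, by linarith⟩
    · have h1 : 0 ≤ S (2 * t / δ - 1) := Real.smoothTransition.nonneg _
      have h2 : S (2 * t / δ - 1) ≤ 1 := Real.smoothTransition.le_one _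
      have h3 := mul_le_mul_of_nonneg_left h2 (by positivity : 0 ≤ 3 * τ / 4)
      have h4 := mul_nonneg (by positivity : 0 ≤ 3 * τ / 4) h1
      rw [hval2 t h]
      refine ⟨by linarith, by linarith, by linarith⟩
  · intro t ht
    rw [hval2 t (by linarith), S_ge]
    · ring
    · have : 2 ≤ 2 * t / δ := by
        rw [le_div_iff₀ hδ]
        linarith
      linarith
  · intro t
    rw [ph_deriv hτ.ne']
    have h1 : 0 ≤ S (2 * (t / τ) - 1) := Real.smoothTransition.nonneg _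
    have h2 : S (2 * (t / τ) - 1) ≤ 1 := Real.smoothTransition.le_one _
    have h3 : 0 ≤ 3 * τ / 4 * (S1 (2 * t / δ - 1) * (2 / δ)) :=
      mul_nonneg (by positivity) (mul_nonneg (S1_nonneg _) hd.le)
    have h4 := (abs_le.mp (hb1' (2 * t / δ - 1))).2
    exact ⟨add_nonneg h1 h3, by
      show S (2 * (t / τ) - 1) + 3 * τ / 4 * (S1 (2 * t / δ - 1) * (2 / δ)) ≤ _
      linarith⟩
  · intro t ht
    rw [ph_deriv2 hτ.ne', ph_deriv hτ.ne']
    have h2 : S (2 * (t / τ) - 1) ≤ 1 := Real.smoothTransition.le_one _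
    have h3 : 0 ≤ S1 (2 * (t / τ) - 1) := S1_nonneg _
    have h4 : S1 (2 * (t / τ) - 1) ≤ M1 := (abs_le.mp (hb1 _)).2
    have hτ2 : 0 < 2 / τ := by positivity
    refine ⟨?_, ?_, ?_⟩
    · show S (2 * (t / τ) - 1) + 3 * τ / 4 * (S1 (2 * t / δ - 1) * (2 / δ)) ≤ 1
      rw [S1_le _ (hx1 t ht)]
      linarith
    · show 0 ≤ S1 (2 * (t / τ) - 1) * (2 / τ) +
        3 * τ / 4 * (S2 (2 * t / δ - 1) * (2 / δ) * (2 / δ))
      rw [S2_le _ (hx1 t ht)]
      have := mul_nonneg h3 hτ2.le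
      linarith
    · show S1 (2 * (t / τ) - 1) * (2 / τ) +
        3 * τ / 4 * (S2 (2 * t / δ - 1) * (2 / δ) * (2 / δ)) ≤ _
      rw [S2_le _ (hx1 t ht)]
      have h5 := mul_le_mul_of_nonneg_right h4 hτ2.le
      have h6 : 2 * M1 / τ ≤ (C1 + C2 + C3 + 2 * M1 + 1) / τ :=
        div_le_div_of_nonneg_right (by linarith) hτ.le
      have h7 : M1 * (2 / τ) = 2 * M1 / τ := by ring
      linarith
  · intro t ht
    rw [ph_deriv3 hτ.ne', ph_deriv2 hτ.ne', ph_deriv hτ.ne']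
    refine ⟨?_, ?_, ?_⟩
    · show |S (2 * (t / τ) - 1) + 3 * τ / 4 * (S1 (2 * t / δ - 1) * (2 / δ)) - 1| ≤ _
      rw [S_ge _ (hx2 t ht), add_sub_cancel_left]
      exact (hb1' _).trans hc1
    · show |S1 (2 * (t / τ) - 1) * (2 / τ) +
        3 * τ / 4 * (S2 (2 * t / δ - 1) * (2 / δ) * (2 / δ))| ≤ _
      rw [S1_ge _ (hx2 t ht), zero_mul, zero_add]
      exact (hb2' _).trans hc2
    · show |S2 (2 * (t / τ) - 1) * (2 / τ) * (2 / τ) +
        3 * τ / 4 * (S3 (2 * t / δ - 1) * (2 / δ) * (2 / δ) * (2 / δ))| ≤ _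
      rw [S2_ge _ (hx2 t ht), zero_mul, zero_mul, zero_add]
      exact (hb3' _).trans hc3

end Pool.Agent.PFlow
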