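import Pool.Agent.PFlow.StmtsX2

/-!
# XSETW: the function `w` and its levels (exterior case)
-/

set_option autoImplicit false

open MeasureTheory Filter Topology
open scoped ContDiff ENNReal

namespace Pool.Agent.PFlow

open Pool.Agent.PenroseSph

namespace XSETWaux

theorem isOpen_Ann (a b : ℝ) : IsOpen (Ann a b) :=
  (isOpen_lt continuous_const continuous_norm).inter (isOpen_lt continuous_norm continuous_const)

theorem isCompact_cAnn (a b : ℝ) : IsCompact (cAnn a b) := by
  have h1 : IsClosed (cAnn a b) :=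
    (isClosed_le continuous_const continuous_norm).inter
      (isClosed_le continuous_norm continuous_const)
  refine (isCompact_closedBall (0 : E3) b).of_isClosed_subset h1 fun x hx => ?_
  rw [mem_closedBall_zero_iff]
  exact hx.2

theorem log_ge : (2.7 : ℝ) < Real.log 16 := by
  have h : Real.log 16 = 4 * Real.log 2 := by
    rw [show (16 : ℝ) = 2 ^ (4 : ℕ) by norm_num, Real.log_pow]
    norm_num
  rw [h]
  have := Real.log_two_gt_d9
  linarith

/-- The numerical relations between the parameters. -/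
theorem numbers {P : ParX} {D : DatX} (hS : SetupX P D) :
    0 < D.R ∧ 16 * D.l ≤ D.R ∧ 1 ≤ D.R / 2 ∧
    1 < D.s2 P ∧ D.s2 P + 4 + 4 * P.gam < D.sM P ∧
    2 * D.Kl P ≤ D.R ∧ 4 * D.l ≤ D.Kl P ∧
    (2 - P.eps) * Real.log (D.Kl P) = (2 - P.eps) * Real.log (4 * D.l) + 1 + 2 * P.gam := by
  have he := hS.eps_pos
  have he2 := hS.eps_le
  have hg := hS.gam_ge
  have hl := hS.l_ge
  have hl0 : 0 < D.l := by linarith
  have h2e : 0 < 2 - P.eps := by linarith
  obtain ⟨K, hK⟩ : ∃ K, K = kE P.eps P.gam := ⟨_, rfl⟩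
  have hKlog : (2 - P.eps) * Real.log K = (2 - P.eps) * Real.log 4 + 1 + 2 * P.gam := by
    rw [hK, kE, Real.log_mul (by norm_num) (Real.exp_pos _).ne', Real.log_exp]
    field_simp
    ring
  have hK4 : 4 ≤ K := by
    rw [hK, kE]
    have h0 : 0 ≤ (1 + 2 * P.gam) / (2 - P.eps) := div_nonneg (by linarith) h2e.le
    have : 1 ≤ Real.exp ((1 + 2 * P.gam) / (2 - P.eps)) := Real.one_le_exp h0
    linarith
  have hK0 : 0 < K := by linarith
  have hRK := hS.R_ge
  rw [← hK] at hRK
  have hR16 : 16 * D.l ≤ D.R := by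
    have h1 : (16 : ℝ) ≤ K ^ 4 := by
      have : (4 : ℝ) ^ 4 ≤ K ^ 4 := by gcongr
      linarith
    nlinarith
  have hR0 : 0 < D.R := by linarith
  have hs2 : D.s2 P = (2 - P.eps) * Real.log (4 * D.l) + P.gam := rfl
  have hsM : D.sM P = (2 - P.eps) * Real.log (D.R / 2) - P.gam := rfl
  have hlog16 : (2.7 : ℝ) < Real.log (4 * D.l) := by
    refine log_ge.trans_le (Real.log_le_log (by norm_num) (by linarith))
  have hs21 : 1 < D.s2 P := by
    rw [hs2]
    nlinarith
  have hKl : D.Kl P = K * D.l := by rw [hK]; rfl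
  have hKl0 : 0 < D.Kl P := by rw [hKl]; positivity
  have hKllog : (2 - P.eps) * Real.log (D.Kl P)
      = (2 - P.eps) * Real.log (4 * D.l) + 1 + 2 * P.gam := by
    rw [hKl, Real.log_mul hK0.ne' hl0.ne', Real.log_mul (by norm_num) hl0.ne', mul_add, hKlog]
    ring
  have h2K : 2 * D.Kl P ≤ D.R := by
    rw [hKl]
    have h1 : 2 * K ≤ K ^ 4 := by
      have h3 : (4 : ℝ) ^ 3 ≤ K ^ 3 := by gcongr
      nlinarith
    nlinarith
  have h4l : 4 * D.l ≤ D.Kl P := by
    rw [hKl]
    nlinarith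
  have hsMs2 : D.s2 P + 4 + 4 * P.gam < D.sM P := by
    rw [hs2, hsM]
    have h1 : K ^ 4 * D.l / 2 ≤ D.R / 2 := by linarith
    have h3 : Real.log (K ^ 4 * D.l / 2) ≤ Real.log (D.R / 2) :=
      Real.log_le_log (by positivity) h1
    have h4 : Real.log (K ^ 4 * D.l / 2) = 4 * Real.log K + Real.log D.l - Real.log 2 := by
      rw [Real.log_div (by positivity) (by norm_num), Real.log_mul (by positivity) hl0.ne',
        Real.log_pow]
      norm_num
    have h5 : Real.log (4 * D.l) = 2 * Real.log 2 + Real.log D.l := by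
      rw [Real.log_mul (by norm_num) hl0.ne', show (4 : ℝ) = 2 ^ (2 : ℕ) by norm_num,
        Real.log_pow]
      norm_num
    have h6 : Real.log 4 = 2 * Real.log 2 := by
      rw [show (4 : ℝ) = 2 ^ (2 : ℕ) by norm_num, Real.log_pow]
      norm_num
    have h7 := Real.log_two_gt_d9
    have h8 : (2 - P.eps) * Real.log (K ^ 4 * D.l / 2) ≤ (2 - P.eps) * Real.log (D.R / 2) := by
      gcongr
    rw [h4] at h8
    rw [h5]
    rw [h6] at hKlog
    nlinarith
  exact ⟨hR0, hR16, by linarith, hs21, hsMs2, h2K, h4l, hKllog⟩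

theorem pd_add_const (i : Fin 3) (f : E3 → ℝ) (c : ℝ) :
    pd i (fun x => f x + c) = pd i f := by
  funext x
  show fderiv ℝ (fun x => f x + c) x _ = fderiv ℝ f x _
  rw [fderiv_add_const]

/-- Adding a constant to a function of class `H²`. -/
theorem h2_add_const {U : Set E3} {w : E3 → ℝ} {G : E3 → Cov} {M : E3 → Bil}
    (h : H2On U w G M) (c : ℝ) : H2On U (fun x => w x + c) G M := by
  refine ⟨h.cont.add continuousOn_const, h.memG, h.memM, ?_⟩
  intro K hK hKU
  obtain ⟨v, hv1, hv2, hv3, hv4⟩ := h.approx K hK hKU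
  refine ⟨fun n x => v n x + c, fun n => (hv1 n).add contDiff_const, ?_, ?_, ?_⟩
  · rw [Metric.tendstoUniformlyOn_iff] at hv2 ⊢
    intro ε hε
    filter_upwards [hv2 ε hε] with n hn x hx
    have h1 := hn x hx
    rw [Real.dist_eq] at h1 ⊢
    have h2 : w x + c - (v n x + c) = w x - v n x := by ring
    rw [h2]
    exact h1
  · intro i
    simp only [pd_add_const]
    exact hv3 i
  · intro i j
    simp only [pd_add_const]
    exact hv4 i j

end XSETWaux

open XSETWaux in
theorem XSETW (hLOGW : Stmt_LOGW) : Stmt_XSETW := by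
  intro P D hS
  obtain ⟨hR0, hR16, hR2, hs21, hsMs2, h2K, h4l, hKllog⟩ := numbers hS
  have he := hS.eps_pos
  have he2 := hS.eps_le
  have hg := hS.gam_ge
  have hl := hS.l_ge
  have hl0 : 0 < D.l := by linarith
  have h2e : 0 < 2 - P.eps := by linarith
  have hloc := hS.located
  have hOm : IsOpen (Ann (1 / 2) D.R) := isOpen_Ann _ _
  have hMet : MetricOn (Ann (1 / 2) D.R) D.g' :=
    ⟨fun i j => (hS.modified.metric.smooth i j).mono (Set.subset_univ _),
      fun x _ => hS.modified.metric.posDef x trivial⟩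
  have hTen : TensorOn (Ann (1 / 2) D.R) D.h' :=
    ⟨fun i j => (hS.modified.tensor.smooth i j).mono (Set.subset_univ _),
      fun x _ => hS.modified.tensor.symm x trivial⟩
  have hsM : D.sM P = (2 - P.eps) * Real.log (D.R / 2) - P.gam := rfl
  have hs2 : D.s2 P = (2 - P.eps) * Real.log (4 * D.l) + P.gam := rfl
  have hw : ∀ x, D.w P x = wOf P.eps D.u x + P.eps / 4 := fun x => rfl
  obtain ⟨hw1, hw2, hw3⟩ := hLOGW P.eps (Ann (1 / 2) D.R) D.g' D.h' D.u D.G D.M he (by linarith)
    hOm hMet hTen hS.sol.h2 hloc.pos hS.sol.eq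
  -- near the outer boundary
  have hout : ∀ x : E3, D.R / 2 ≤ ‖x‖ → ‖x‖ < D.R → D.sM P ≤ D.w P x := by
    intro x hx1 hx2
    have h1 := hloc.outer_low x (by linarith) hx2
    have h3 : Real.log (D.R / 2) ≤ Real.log ‖x‖ := Real.log_le_log (by linarith) hx1
    have h4 : (2 - P.eps) * Real.log (D.R / 2) ≤ (2 - P.eps) * Real.log ‖x‖ := by gcongr
    rw [hw, hsM]
    linarith
  have hmid : ∀ x ∈ D.Om, D.s2 P ≤ D.w P x → 4 * D.l ≤ ‖x‖ := by
    intro x hx h
    by_contra hc
    have := hloc.mid x hx.1.le (not_le.1 hc)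
    exact absurd h (not_le.2 this)
  have hsmall : ∀ x ∈ D.Om, D.w P x < D.sM P → ‖x‖ < D.R / 2 := by
    intro x hx h
    by_contra hc
    exact absurd h (not_lt.2 (hout x (not_lt.1 hc) hx.2))
  refine ⟨hMet, hTen, fun x hx => hS.modified.twoNonneg x hx.1.le, h2_add_const hw1 _, hw2, ?_,
    ?_, ?_, ?_, ?_, ?_, hsmall, hmid, ?_, ?_, ?_, hs21, hsMs2, h2K, h4l⟩
  · -- no islands
    intro E hE1 hE2 hE3 x hx
    obtain ⟨⟨y, hy, hy'⟩, ⟨z, hz, hz'⟩⟩ := hw3 hS.sol.noIsland E hE1 hE2 hE3 x hx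
    refine ⟨⟨y, hy, ?_⟩, ⟨z, hz, ?_⟩⟩
    · rw [hw, hw]
      exact add_le_add_left hy' _
    · rw [hw, hw]
      exact add_le_add_left hz' _
  · exact ((Real.measurable_log.comp hS.sol.cont.measurable).const_mul (-P.eps)).add_const _
  · -- Sep on the whole annulus
    have hc := hS.c_pos
    refine ⟨P.eps * Real.log (1 + P.c), mul_pos he (Real.log_pos (by linarith)),
      2 / 3, D.R / 2, by norm_num, by linarith, by linarith, ?_, hout⟩
    intro x hx1 hx2
    have h1 := hloc.inner x hx1 hx2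
    have h2 : Real.log (1 + P.c) ≤ Real.log (D.u x) := Real.log_le_log (by linarith) h1
    have h3 : P.eps * Real.log (1 + P.c) ≤ P.eps * Real.log (D.u x) := by gcongr
    rw [hw]
    unfold wOf
    linarith
  · -- Sep on the outer part
    refine ⟨3 * D.l, D.R / 2, by linarith, by linarith, by linarith, ?_, hout⟩
    intro x hx1 hx2
    exact (hloc.mid x (by linarith) (by linarith)).le
  · intro x hx
    have h1 := hloc.strict x hx.1 hx.2
    have h2 := hloc.pos x ⟨by linarith [hx.1], hx.2⟩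
    have h3 : Real.log (D.u x) < 0 := Real.log_neg h2 h1
    rw [hw]
    unfold wOf
    nlinarith
  · intro x hx1 hx2
    have := hloc.near x hx1 hx2
    rw [hw]
    linarith
  · intro x hx1 hx2
    have h1 : 1 ≤ ‖x‖ := by linarith
    have h3 := hloc.outer x h1 (by linarith)
    have h4 := (abs_le.1 h3).2
    have h5 : Real.log ‖x‖ ≤ Real.log (D.Kl P) := Real.log_le_log (by linarith) hx2
    have h6 : (2 - P.eps) * Real.log ‖x‖ ≤ (2 - P.eps) * Real.log (D.Kl P) := by gcongr
    rw [hw, hs2]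
    linarith
  · intro x hx h
    by_contra hc
    have hc' := not_le.1 hc
    have h3 := hloc.outer_low x hx.1.le hx.2
    have h5 : Real.log (D.Kl P) ≤ Real.log ‖x‖ := Real.log_le_log (by linarith) hc'.le
    have h6 : (2 - P.eps) * Real.log (D.Kl P) ≤ (2 - P.eps) * Real.log ‖x‖ := by gcongr
    rw [hw, hs2] at h
    linarith
  · intro s' hs'
    refine ⟨cAnn 1 (D.R / 2), isCompact_cAnn _ _, ?_, ?_⟩
    · intro x hx
      exact ⟨lt_of_lt_of_le (by norm_num) hx.1, lt_of_le_of_lt hx.2 (by linarith)⟩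
    · rintro x ⟨hxO, hx2⟩
      exact ⟨hxO.1.le, (hsmall x hxO (lt_of_le_of_lt hx2 hs')).le⟩

end Pool.Agent.PFlow
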