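import Pool.Agent.PFlow.StmtsX1

/-!
# PX_XSUR: the surplus outside the collar
-/

open MeasureTheory Filter Topology
open scoped ContDiff ENNReal

namespace Pool.Agent.PFlow

open Pool.Agent.PenroseSph

namespace XSURaux

/-- Plain arrays. -/
abbrev M3 := Fin 3 → Fin 3 → ℝ

/-- The space of jets, with its metric. -/
abbrev Z := M3 × (Fin 3 → M3) × (Fin 3 → Fin 3 → M3) × M3 × (Fin 3 → M3)

/-- The jet. -/
noncomputable def jet (g k : TensorField) (x : E3) : Z :=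
  (fun i j => g x i j, fun m i j => pd m (fun y => g y i j) x,
    fun m n i j => pd m (pd n (fun y => g y i j)) x, fun i j => k x i j,
    fun m i j => pd m (fun y => k y i j) x)

lemma pd_smooth {f : E3 → ℝ} {x : E3} (hf : ContDiffAt ℝ ∞ f x) (m : Fin 3) :
    ContDiffAt ℝ ∞ (pd m f) x := by
  have h : ContDiffAt ℝ ∞ (fderiv ℝ f) x := hf.fderiv_right (m := ∞) (by simp)
  exact h.clm_apply contDiffAt_const

lemma pd_sub {f h : E3 → ℝ} {x : E3} (hf : DifferentiableAt ℝ f x)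
    (hh : DifferentiableAt ℝ h x) (m : Fin 3) :
    pd m (fun y => f y - h y) x = pd m f x - pd m h x := by
  unfold pd
  rw [fderiv_fun_sub hf hh]
  rfl

lemma diff_ev {f : E3 → ℝ} {x : E3} (hf : ContDiffAt ℝ ∞ f x) :
    ∀ᶠ y in 𝓝 x, DifferentiableAt ℝ f y := by
  have h1 : ContDiffAt ℝ 1 f x := hf.of_le (by exact_mod_cast le_top)
  filter_upwards [h1.eventually (by simp)] with y hy
  exact hy.differentiableAt (by simp)

lemma pd2_sub {f h : E3 → ℝ} {x : E3} (hf : ContDiffAt ℝ ∞ f x) (hh : ContDiffAt ℝ ∞ h x)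
    (m n : Fin 3) :
    pd m (pd n (fun y => f y - h y)) x = pd m (pd n f) x - pd m (pd n h) x := by
  have h1 : pd n (fun y => f y - h y) =ᶠ[𝓝 x] fun y => pd n f y - pd n h y := by
    filter_upwards [diff_ev hf, diff_ev hh] with y hy1 hy2
    exact pd_sub hy1 hy2 n
  have h2 : pd m (pd n (fun y => f y - h y)) x = pd m (fun y => pd n f y - pd n h y) x := by
    unfold pd at h1 ⊢
    rw [h1.fderiv_eq]
  rw [h2]
  exact pd_sub ((pd_smooth hf n).differentiableAt (by simp))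
    ((pd_smooth hh n).differentiableAt (by simp)) m

lemma jet_cont {g k : TensorField} {x : E3} (hg : ∀ i j, ContDiffAt ℝ ∞ (fun y => g y i j) x)
    (hk : ∀ i j, ContDiffAt ℝ ∞ (fun y => k y i j) x) : ContinuousAt (jet g k) x := by
  unfold jet
  refine ContinuousAt.prodMk ?_ (ContinuousAt.prodMk ?_ (ContinuousAt.prodMk ?_
    (ContinuousAt.prodMk ?_ ?_)))
  · exact continuousAt_pi.2 fun i => continuousAt_pi.2 fun j => (hg i j).continuousAt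
  · exact continuousAt_pi.2 fun m => continuousAt_pi.2 fun i => continuousAt_pi.2 fun j =>
      (pd_smooth (hg i j) m).continuousAt
  · exact continuousAt_pi.2 fun m => continuousAt_pi.2 fun n => continuousAt_pi.2 fun i =>
      continuousAt_pi.2 fun j => (pd_smooth (pd_smooth (hg i j) n) m).continuousAt
  · exact continuousAt_pi.2 fun i => continuousAt_pi.2 fun j => (hk i j).continuousAt
  · exact continuousAt_pi.2 fun m => continuousAt_pi.2 fun i => continuousAt_pi.2 fun j =>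
      (pd_smooth (hk i j) m).continuousAt

lemma dist_le {z w : Z} {r : ℝ} (hr : 0 ≤ r) (h1 : ∀ i j, |z.1 i j - w.1 i j| ≤ r)
    (h2 : ∀ m i j, |z.2.1 m i j - w.2.1 m i j| ≤ r)
    (h3 : ∀ m n i j, |z.2.2.1 m n i j - w.2.2.1 m n i j| ≤ r)
    (h4 : ∀ i j, |z.2.2.2.1 i j - w.2.2.2.1 i j| ≤ r)
    (h5 : ∀ m i j, |z.2.2.2.2 m i j - w.2.2.2.2 m i j| ≤ r) : dist z w ≤ r := by
  rw [Prod.dist_eq, Prod.dist_eq, Prod.dist_eq, Prod.dist_eq]
  refine max_le ?_ (max_le ?_ (max_le ?_ (max_le ?_ ?_)))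
  · exact (dist_pi_le_iff hr).2 fun i => (dist_pi_le_iff hr).2 fun j => by
      rw [Real.dist_eq]; exact h1 i j
  · exact (dist_pi_le_iff hr).2 fun m => (dist_pi_le_iff hr).2 fun i =>
      (dist_pi_le_iff hr).2 fun j => by rw [Real.dist_eq]; exact h2 m i j
  · exact (dist_pi_le_iff hr).2 fun m => (dist_pi_le_iff hr).2 fun n =>
      (dist_pi_le_iff hr).2 fun i => (dist_pi_le_iff hr).2 fun j => by
        rw [Real.dist_eq]; exact h3 m n i j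
  · exact (dist_pi_le_iff hr).2 fun i => (dist_pi_le_iff hr).2 fun j => by
      rw [Real.dist_eq]; exact h4 i j
  · exact (dist_pi_le_iff hr).2 fun m => (dist_pi_le_iff hr).2 fun i =>
      (dist_pi_le_iff hr).2 fun j => by rw [Real.dist_eq]; exact h5 m i j

lemma isOpen_outside (δ : ℝ) : IsOpen (Outside δ) := by
  unfold Outside
  exact isOpen_lt continuous_const continuous_norm

lemma facX_smooth {τ δ : ℝ} (hφ : ContDiff ℝ ∞ (phX τ δ)) {x : E3} (hx : x ≠ 0) :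
    ContDiffAt ℝ ∞ (facX τ δ) x := by
  have hn : ContDiffAt ℝ ∞ (fun y : E3 => ‖y‖) x := contDiffAt_norm ℝ hx
  have hn0 : ‖x‖ ≠ 0 := norm_ne_zero_iff.2 hx
  have hl : ContDiffAt ℝ ∞ (fun y : E3 => Real.log ‖y‖) x := hn.log hn0
  have h1 : ContDiffAt ℝ ∞ (fun y : E3 => phX τ δ (Real.log ‖y‖)) x :=
    (hφ.contDiffAt).comp x hl
  exact h1.exp.div hn hn0

lemma facX_pos (τ δ : ℝ) {x : E3} (hx : x ≠ 0) : 0 < facX τ δ x :=
  div_pos (Real.exp_pos _) (norm_pos_iff.2 hx)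

lemma map_mem {τ δ δ₀ : ℝ} (hδ₀ : 0 < δ₀) (hφ : ∀ t, 0 ≤ t → 0 ≤ phX τ δ t) {x : E3}
    (hx : 1 ≤ ‖x‖) : facX τ δ x • x ∈ Outside δ₀ := by
  have hx0 : x ≠ 0 := norm_pos_iff.1 (by linarith)
  have hn : ‖facX τ δ x • x‖ = Real.exp (phX τ δ (Real.log ‖x‖)) := by
    rw [norm_smul, Real.norm_of_nonneg (facX_pos τ δ hx0).le]
    unfold facX
    rw [div_mul_cancel₀]
    exact norm_ne_zero_iff.2 hx0
  have h1 : (1 : ℝ) ≤ Real.exp (phX τ δ (Real.log ‖x‖)) :=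
    Real.one_le_exp (hφ _ (Real.log_nonneg hx))
  change 1 - δ₀ < ‖facX τ δ x • x‖
  rw [hn]
  linarith

lemma map_smooth {τ δ : ℝ} (hφ : ContDiff ℝ ∞ (phX τ δ)) {x : E3} (hx : x ≠ 0) :
    ContDiffAt ℝ ∞ (fun y : E3 => facX τ δ y • y) x :=
  (facX_smooth hφ hx).smul contDiffAt_id

lemma pull_smooth {τ δ δ₀ : ℝ} (hδ₀ : 0 < δ₀) (hφ : ContDiff ℝ ∞ (phX τ δ))
    (hφ0 : ∀ t, 0 ≤ t → 0 ≤ phX τ δ t) {f : E3 → ℝ} (hf : ContDiffOn ℝ ∞ f (Outside δ₀))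
    {x : E3} (hx : 1 < ‖x‖) : ContDiffAt ℝ ∞ (fun y : E3 => f (facX τ δ y • y)) x := by
  have hx0 : x ≠ 0 := norm_pos_iff.1 (by linarith)
  have h1 : ContDiffAt ℝ ∞ f (facX τ δ x • x) :=
    hf.contDiffAt ((isOpen_outside δ₀).mem_nhds (map_mem hδ₀ hφ0 hx.le))
  exact ContDiffAt.comp (g := f) (f := fun y : E3 => facX τ δ y • y) x h1 (map_smooth hφ hx0)

lemma ev_norm {x : E3} (hx : 1 < ‖x‖) : ∀ᶠ y in 𝓝 x, 1 < ‖y‖ :=
  (isOpen_lt continuous_const continuous_norm).mem_nhds hx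

lemma colG_ev (τ δ : ℝ) (g : TensorField) {x : E3} (hx : 1 < ‖x‖) :
    ∀ᶠ y in 𝓝 x, colG τ δ g y = facX τ δ y ^ 2 • g (facX τ δ y • y) := by
  filter_upwards [ev_norm hx] with y hy
  unfold colG
  rw [if_pos hy.le]

lemma colH_ev (τ δ : ℝ) (k : TensorField) {x : E3} (hx : 1 < ‖x‖) :
    ∀ᶠ y in 𝓝 x, colH τ δ k y =
      (deriv (phX τ δ) (Real.log ‖y‖) * facX τ δ y ^ 2) • k (facX τ δ y • y) := by
  filter_upwards [ev_norm hx] with y hy
  unfold colH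
  rw [if_pos hy.le]

lemma colG_smooth {τ δ δ₀ : ℝ} (hδ₀ : 0 < δ₀) (hφ : ContDiff ℝ ∞ (phX τ δ))
    (hφ0 : ∀ t, 0 ≤ t → 0 ≤ phX τ δ t) {g : TensorField} (hg : MetricOn (Outside δ₀) g)
    {x : E3} (hx : 1 < ‖x‖) (i j : Fin 3) :
    ContDiffAt ℝ ∞ (fun y => colG τ δ g y i j) x := by
  have hx0 : x ≠ 0 := norm_pos_iff.1 (by linarith)
  have h1 : ContDiffAt ℝ ∞ (fun y => facX τ δ y ^ 2 * g (facX τ δ y • y) i j) x :=
    ((facX_smooth hφ hx0).pow 2).mul (pull_smooth hδ₀ hφ hφ0 (hg.smooth i j) hx)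
  refine h1.congr_of_eventuallyEq ?_
  filter_upwards [colG_ev τ δ g hx] with y hy
  rw [hy]
  rfl

lemma deriv_smooth {φ : ℝ → ℝ} (hφ : ContDiff ℝ ∞ φ) : ContDiff ℝ ∞ (deriv φ) := by
  have h : ContDiff ℝ ((∞ : WithTop ℕ∞) + 1) φ := by simpa using hφ
  exact (contDiff_succ_iff_deriv.1 h).2.2

lemma colH_smooth {τ δ δ₀ : ℝ} (hδ₀ : 0 < δ₀) (hφ : ContDiff ℝ ∞ (phX τ δ))
    (hφ0 : ∀ t, 0 ≤ t → 0 ≤ phX τ δ t) {k : TensorField} (hk : TensorOn (Outside δ₀) k)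
    {x : E3} (hx : 1 < ‖x‖) (i j : Fin 3) :
    ContDiffAt ℝ ∞ (fun y => colH τ δ k y i j) x := by
  have hx0 : x ≠ 0 := norm_pos_iff.1 (by linarith)
  have hn0 : ‖x‖ ≠ 0 := norm_ne_zero_iff.2 hx0
  have hl : ContDiffAt ℝ ∞ (fun y : E3 => Real.log ‖y‖) x := (contDiffAt_norm ℝ hx0).log hn0
  have hd : ContDiffAt ℝ ∞ (fun y : E3 => deriv (phX τ δ) (Real.log ‖y‖)) x :=
    ((deriv_smooth hφ).contDiffAt).comp x hl
  have h1 : ContDiffAt ℝ ∞ (fun y => (deriv (phX τ δ) (Real.log ‖y‖) * facX τ δ y ^ 2) *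
      k (facX τ δ y • y) i j) x :=
    (hd.mul ((facX_smooth hφ hx0).pow 2)).mul (pull_smooth hδ₀ hφ hφ0 (hk.smooth i j) hx)
  refine h1.congr_of_eventuallyEq ?_
  filter_upwards [colH_ev τ δ k hx] with y hy
  rw [hy]
  rfl

lemma colG_pos {τ δ δ₀ : ℝ} (hδ₀ : 0 < δ₀) (hφ0 : ∀ t, 0 ≤ t → 0 ≤ phX τ δ t)
    {g : TensorField} (hg : MetricOn (Outside δ₀) g) {x : E3} (hx : 1 < ‖x‖) :
    ∀ᶠ y in 𝓝 x, (colG τ δ g y).PosDef := by
  filter_upwards [colG_ev τ δ g hx, ev_norm hx] with y hy hy1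
  have hy0 : y ≠ 0 := norm_pos_iff.1 (by linarith)
  rw [hy]
  exact (hg.posDef _ (map_mem hδ₀ hφ0 hy1.le)).smul (pow_pos (facX_pos τ δ hy0) 2)

lemma colH_symm {τ δ δ₀ : ℝ} (hδ₀ : 0 < δ₀) (hφ0 : ∀ t, 0 ≤ t → 0 ≤ phX τ δ t)
    {k : TensorField} (hk : TensorOn (Outside δ₀) k) {x : E3} (hx : 1 < ‖x‖) :
    ∀ᶠ y in 𝓝 x, (colH τ δ k y).IsSymm := by
  filter_upwards [colH_ev τ δ k hx, ev_norm hx] with y hy hy1
  rw [hy]
  exact (hk.symm _ (map_mem hδ₀ hφ0 hy1.le)).smul _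

end XSURaux

open XSURaux in
theorem XSUR (hXPHI : Stmt_XPHI) (hXJET : Stmt_XJET) (hXCLO : Stmt_XCLO) : Stmt_XSUR := by
  intro g k δ₀ δ σ hδ₀ hδ hδ2 hexp hg hk hσ
  obtain ⟨F, hF, hFe⟩ := hXJET
  obtain ⟨C, hC, hclo⟩ := hXCLO g k δ₀ δ hδ₀ hδ hδ2 hexp hg hk
  obtain ⟨C1, hC1, hphi⟩ := hXPHI δ hδ hδ2
  -- the compact set
  have hA : IsCompact {x : E3 | 1 ≤ ‖x‖ ∧ ‖x‖ ≤ 4} := by
    refine (isCompact_closedBall (0 : E3) 4).of_isClosed_subset ?_ ?_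
    · exact (isClosed_le continuous_const continuous_norm).inter
        (isClosed_le continuous_norm continuous_const)
    · intro x hx
      rw [mem_closedBall_zero_iff]
      exact hx.2
  have hin : ∀ x : E3, 1 ≤ ‖x‖ → x ∈ Outside δ₀ := by
    intro x hx
    change 1 - δ₀ < ‖x‖
    linarith
  have hgs : ∀ x : E3, 1 ≤ ‖x‖ → ∀ i j, ContDiffAt ℝ ∞ (fun y => g y i j) x := fun x hx i j =>
    (hg.smooth i j).contDiffAt ((isOpen_outside δ₀).mem_nhds (hin x hx))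
  have hks : ∀ x : E3, 1 ≤ ‖x‖ → ∀ i j, ContDiffAt ℝ ∞ (fun y => k y i j) x := fun x hx i j =>
    (hk.smooth i j).contDiffAt ((isOpen_outside δ₀).mem_nhds (hin x hx))
  have hKc : IsCompact (jet g k '' {x : E3 | 1 ≤ ‖x‖ ∧ ‖x‖ ≤ 4}) :=
    hA.image_of_continuousOn fun x hx =>
      (jet_cont (hgs x hx.1) (hks x hx.1)).continuousWithinAt
  let F' : Z → ℝ := F
  have hF' : ContinuousOn F' {z : Z | (Matrix.of z.1 : Bil).det ≠ 0} := hF
  have hopen : IsOpen {z : Z | (Matrix.of z.1 : Bil).det ≠ 0} := by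
    refine isOpen_ne_fun ?_ continuous_const
    have h1 : Continuous fun z : Z => (Matrix.of z.1 : Bil) := continuous_fst
    exact h1.matrix_det
  have hcont : ∀ z ∈ jet g k '' {x : E3 | 1 ≤ ‖x‖ ∧ ‖x‖ ≤ 4}, ContinuousAt F' z := by
    rintro z ⟨x, hx, rfl⟩
    refine hF'.continuousAt (hopen.mem_nhds ?_)
    have h1 : (Matrix.of (jet g k x).1 : Bil) = g x := rfl
    change (Matrix.of (jet g k x).1 : Bil).det ≠ 0
    rw [h1]
    exact (hg.posDef x (hin x hx.1)).det_pos.ne'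
  have hunif := hKc.uniformContinuousAt_of_continuousAt F' hcont (Metric.dist_mem_uniformity hσ)
  obtain ⟨η, hη, hu⟩ := Metric.mem_uniformity_dist.1 hunif
  refine ⟨min (δ / 4) (η / (2 * C)), by positivity, min_le_left _ _, ?_⟩
  intro τ hτ hτ0 x hx1 hx4
  have hτ4 : τ ≤ δ / 4 := hτ0.trans (min_le_left _ _)
  have hτη : C * τ ≤ η / 2 := by
    have h1 : τ ≤ η / (2 * C) := hτ0.trans (min_le_right _ _)
    rw [le_div_iff₀ (by positivity)] at h1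
    linarith
  have hx : 1 < ‖x‖ := lt_of_le_of_lt (Real.one_le_exp hτ.le) hx1
  obtain ⟨hφs, -, hφb, -⟩ := hphi τ hτ hτ4
  have hφ0 : ∀ t, 0 ≤ t → 0 ≤ phX τ δ t := fun t ht => (hφb t ht).1
  have hgev : ∀ᶠ y in 𝓝 x, (g y).PosDef := by
    filter_upwards [(isOpen_outside δ₀).mem_nhds (hin x hx.le)] with y hy
    exact hg.posDef y hy
  have hkev : ∀ᶠ y in 𝓝 x, (k y).IsSymm := by
    filter_upwards [(isOpen_outside δ₀).mem_nhds (hin x hx.le)] with y hy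
    exact hk.symm y hy
  have e1 : surplus g k x = F' (jet g k x) := hFe g k x hgev (hgs x hx.le) hkev (hks x hx.le)
  have e2 : surplus (colG τ δ g) (colH τ δ k) x = F' (jet (colG τ δ g) (colH τ δ k) x) :=
    hFe _ _ x (colG_pos hδ₀ hφ0 hg hx) (colG_smooth hδ₀ hφs hφ0 hg hx)
      (colH_symm hδ₀ hφ0 hk hx) (colH_smooth hδ₀ hφs hφ0 hk hx)
  have hd : dist (jet g k x) (jet (colG τ δ g) (colH τ δ k) x) ≤ C * τ := by
    rw [dist_comm]
    refine dist_le (by positivity) ?_ ?_ ?_ ?_ ?_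
    · intro i j
      exact (hclo τ hτ hτ4 x hx1 hx4 i j).1
    · intro m i j
      have h1 := (hclo τ hτ hτ4 x hx1 hx4 i j).2.1 m
      rw [pd_sub ((colG_smooth hδ₀ hφs hφ0 hg hx i j).differentiableAt (by simp))
        ((hgs x hx.le i j).differentiableAt (by simp)) m] at h1
      exact h1
    · intro m n i j
      have h1 := (hclo τ hτ hτ4 x hx1 hx4 i j).2.2.1 m n
      rw [pd2_sub (colG_smooth hδ₀ hφs hφ0 hg hx i j) (hgs x hx.le i j) m n] at h1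
      exact h1
    · intro i j
      exact (hclo τ hτ hτ4 x hx1 hx4 i j).2.2.2.1
    · intro m i j
      have h1 := (hclo τ hτ hτ4 x hx1 hx4 i j).2.2.2.2 m
      rw [pd_sub ((colH_smooth hδ₀ hφs hφ0 hk hx i j).differentiableAt (by simp))
        ((hks x hx.le i j).differentiableAt (by simp)) m] at h1
      exact h1
  have h3 : (jet g k x, jet (colG τ δ g) (colH τ δ k) x) ∈ _ :=
    hu (lt_of_le_of_lt hd (by linarith))
  have h4 := h3 ⟨x, ⟨hx.le, hx4⟩, rfl⟩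
  have h5 : dist (F' (jet g k x)) (F' (jet (colG τ δ g) (colH τ δ k) x)) < σ := h4
  rw [e1, e2]
  rw [Real.dist_eq] at h5
  have h6 := abs_lt.1 h5
  linarith [h6.1, h6.2]

end Pool.Agent.PFlow
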