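import Pool.Agent.PFlow.StmtsX1
import Pool.Agent.PFlow.StmtsX2
import Pool.Agent.PFlow.E.ABSF
import Pool.Agent.PFlow.E.TRD

/-!
# Module XTRD: competitors in the trace-dominated case, exterior regions
-/

open MeasureTheory Filter Topology
open scoped ContDiff ENNReal

namespace Pool.Agent.PFlow

open Pool.Agent.PenroseSph

namespace XTRDm

open TRDm

open BARBm in
/-- The decay of `(tr h / 3) g`. -/
theorem decay_tt {U : Set E3} (hUo : IsOpen U) (hUx : ∀ x : E3, 1 ≤ ‖x‖ → x ∈ U)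
    {g h : TensorField} {C : ℝ} (hg : MetricOn U g) (hh : TensorOn U h)
    (hC : 0 < C) (hd : DecayFrom C 1 g h)
    (he : ∀ x : E3, 1 ≤ ‖x‖ → ∀ v : Cov, (∑ i, v i ^ 2) ≤ C * ev (g x) v v) :
    ∃ C' : ℝ, DecayFrom C' 1 g (traceTensor g h) := by
  refine ⟨C + 3 * C ^ 2 * (1 + C) + 3 * C * (C + 27 * C ^ 3) * (1 + C) + 3 * C ^ 3, ?_⟩
  set K : ℝ := C + 3 * C ^ 2 * (1 + C) + 3 * C * (C + 27 * C ^ 3) * (1 + C) + 3 * C ^ 3 with hK
  have hKC : C ≤ K := by
    have : 0 ≤ 3 * C ^ 2 * (1 + C) + 3 * C * (C + 27 * C ^ 3) * (1 + C) + 3 * C ^ 3 := by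
      positivity
    linarith
  intro x hx i j
  have hx0 : x ∈ U := hUx x hx
  have hU : U ∈ 𝓝 x := hUo.mem_nhds hx0
  have hp : MJD.Pt g x := MJD.pt_of hUo hg hx0
  have hr : 0 < ‖x‖ := by linarith
  obtain ⟨a, ha⟩ : ∃ a : ℝ, a = ‖x‖⁻¹ := ⟨_, rfl⟩
  have ha0 : 0 < a := by rw [ha]; positivity
  have ha1 : a ≤ 1 := by rw [ha]; exact inv_le_one_of_one_le₀ hx
  have hd' := fun i j => hd x hx i j
  have e1 : ∀ M : ℝ, M / ‖x‖ = M * a := fun M => by rw [ha, div_eq_mul_inv]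
  have e2 : ∀ M : ℝ, M / ‖x‖ ^ 2 = M * a ^ 2 := fun M => by rw [ha, div_eq_mul_inv, inv_pow]
  have e3 : ∀ M : ℝ, M / ‖x‖ ^ 3 = M * a ^ 3 := fun M => by rw [ha, div_eq_mul_inv, inv_pow]
  simp only [e1, e2, e3] at hd' ⊢
  have hinv : ∀ i j, |(g x)⁻¹ i j| ≤ C := fun i j =>
    EShell.inv_entry (hg.posDef x hx0) (he x hx) i j
  have hgb : ∀ i j, |g x i j| ≤ 1 + C := by
    intro i j
    have h1 := (hd' i j).1
    have h2 : |(1 : Bil) i j| ≤ 1 := by
      rw [Matrix.one_apply]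
      split_ifs <;> simp
    have h3 : g x i j = (1 : Bil) i j + (g x i j - (1 : Bil) i j) := by ring
    rw [h3]
    refine (add_le h2 h1).trans ?_
    have : C * a ≤ C * 1 := mul_le_mul_of_nonneg_left ha1 hC.le
    linarith
  have hdg : ∀ k i j, |pd k (fun y => g y i j) x| ≤ C * a ^ 2 := fun k i j => (hd' i j).2.1 k
  have hhb : ∀ i j, |h x i j| ≤ C * a ^ 2 := fun i j => (hd' i j).2.2.2.1
  have hdh : ∀ k i j, |pd k (fun y => h y i j) x| ≤ C * a ^ 3 := fun k i j => (hd' i j).2.2.2.2 k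
  have hhd : ∀ i j, DifferentiableAt ℝ (fun y => h y i j) x := fun i j =>
    ((hh.smooth i j).contDiffAt hU).differentiableAt (by simp)
  have htd : DifferentiableAt ℝ (fun y => trg g y (h y)) x := MJD.diffTr hp h hhd
  have ht : |trg g x (h x)| ≤ 9 * (C * (C * a ^ 2)) :=
    sum2_le fun i j => mul_le (hinv i j) (hhb i j)
  have ha4 : a ^ 4 ≤ a ^ 3 := by
    calc a ^ 4 = a ^ 3 * a := by ring
      _ ≤ a ^ 3 * 1 := mul_le_mul_of_nonneg_left ha1 (by positivity)
      _ = a ^ 3 := by ring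
  have hdt : ∀ k, |pd k (fun y => trg g y (h y)) x| ≤ 9 * C * (C + 27 * C ^ 3) * a ^ 3 := by
    intro k
    refine (pd_tr_le hp hhd hinv hdg hhb hdh k).trans ?_
    have h1 : 27 * C ^ 3 * a ^ 4 ≤ 27 * C ^ 3 * a ^ 3 :=
      mul_le_mul_of_nonneg_left ha4 (by positivity)
    calc 9 * (C * (C * a ^ 3 + 27 * (C * (C * a ^ 2) * (C * a ^ 2))))
        = 9 * C * (C * a ^ 3 + 27 * C ^ 3 * a ^ 4) := by ring
      _ ≤ 9 * C * (C * a ^ 3 + 27 * C ^ 3 * a ^ 3) := by gcongr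
      _ = 9 * C * (C + 27 * C ^ 3) * a ^ 3 := by ring
  refine ⟨(hd' i j).1.trans (by gcongr), fun k => ((hd' i j).2.1 k).trans (by gcongr),
    fun k l => ((hd' i j).2.2.1 k l).trans (by gcongr), ?_, fun k => ?_⟩
  · rw [tt_apply]
    have h1 : |trg g x (h x) / 3| ≤ 3 * C ^ 2 * a ^ 2 := by
      rw [abs_div, abs_of_pos (by norm_num : (0 : ℝ) < 3), div_le_iff₀ (by norm_num)]
      refine ht.trans (le_of_eq ?_)
      ring
    refine (mul_le h1 (hgb i j)).trans ?_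
    have h2 : 3 * C ^ 2 * (1 + C) ≤ K := by
      have : 0 ≤ C + 3 * C * (C + 27 * C ^ 3) * (1 + C) + 3 * C ^ 3 := by positivity
      linarith
    calc 3 * C ^ 2 * a ^ 2 * (1 + C) = 3 * C ^ 2 * (1 + C) * a ^ 2 := by ring
      _ ≤ K * a ^ 2 := by gcongr
  · rw [pd_tt hp.diff htd]
    have h1 : |trg g x (h x) / 3| ≤ 3 * C ^ 2 * a ^ 2 := by
      rw [abs_div, abs_of_pos (by norm_num : (0 : ℝ) < 3), div_le_iff₀ (by norm_num)]
      refine ht.trans (le_of_eq ?_)
      ring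
    have h2 : |pd k (fun y => trg g y (h y)) x / 3| ≤ 3 * C * (C + 27 * C ^ 3) * a ^ 3 := by
      rw [abs_div, abs_of_pos (by norm_num : (0 : ℝ) < 3), div_le_iff₀ (by norm_num)]
      refine (hdt k).trans (le_of_eq ?_)
      ring
    refine (add_le (mul_le h1 (hdg k i j)) (mul_le h2 (hgb i j))).trans ?_
    have h3 : 3 * C ^ 3 * a ^ 4 ≤ 3 * C ^ 3 * a ^ 3 :=
      mul_le_mul_of_nonneg_left ha4 (by positivity)
    have h4 : 3 * C ^ 3 + 3 * C * (C + 27 * C ^ 3) * (1 + C) ≤ K := by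
      have : 0 ≤ C + 3 * C ^ 2 * (1 + C) := by positivity
      linarith
    calc 3 * C ^ 2 * a ^ 2 * (C * a ^ 2) + 3 * C * (C + 27 * C ^ 3) * a ^ 3 * (1 + C)
        = 3 * C ^ 3 * a ^ 4 + 3 * C * (C + 27 * C ^ 3) * (1 + C) * a ^ 3 := by ring
      _ ≤ 3 * C ^ 3 * a ^ 3 + 3 * C * (C + 27 * C ^ 3) * (1 + C) * a ^ 3 := by linarith
      _ = (3 * C ^ 3 + 3 * C * (C + 27 * C ^ 3) * (1 + C)) * a ^ 3 := by ring
      _ ≤ K * a ^ 3 := by gcongr

theorem isOpen_outside (δ : ℝ) : IsOpen (Outside δ) := isOpen_lt continuous_const continuous_norm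

theorem cd_tr {U : Set E3} (hU : IsOpen U) {g h : TensorField} {x : E3} (hg : MetricOn U g)
    (hh : TensorOn U h) (hx : x ∈ U) : ContDiffAt ℝ ∞ (fun y => trg g y (h y)) x := by
  unfold trg
  refine ContDiffAt.sum fun i _ => ContDiffAt.sum fun j _ => ?_
  refine ContDiffAt.mul (EEtaAux.contDiffAt_inv
    (fun i j => (hg.smooth i j).contDiffAt (hU.mem_nhds hx)) (hg.posDef x hx).det_pos.ne' i j) ?_
  exact (hh.smooth i j).contDiffAt (hU.mem_nhds hx)

theorem nu_ne {x : E3} (hx : x ≠ 0) : grad rad x ≠ 0 := by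
  rw [BARBm.grad_rad hx]
  intro h0
  have h1 := BARBm.nu_sq hx
  rw [h0] at h1
  simp at h1

/-- The trace over the tangent plane of a sphere. -/
theorem sphereTr_tt {g h : TensorField} {x : E3} (hp : MJD.Pt g x) (hg : (g x).PosDef)
    (hx : x ≠ 0) : sphereTr g (traceTensor g h) x = 2 / 3 * trg g x (h x) := by
  unfold sphereTr btan bnn
  rw [trg_tt h hp, ev_tt, ABSFm.ev_nrm hg (nu_ne hx)]
  ring

end XTRDm

open TRDm XTRDm in
theorem XTRD (hXAFD : Stmt_XAFD) : Stmt_XTRD := by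
  intro g h hT hdom htrap
  obtain ⟨δ, hδ, hg, hh, -⟩ := hT.smooth
  obtain ⟨C, hC, hd1, he1⟩ := hXAFD g h δ hδ hg hh hT.decay
  have hUo : IsOpen (Outside δ) := isOpen_outside δ
  have hUx : ∀ x : E3, 1 ≤ ‖x‖ → x ∈ Outside δ := by
    intro x hx
    change 1 - δ < ‖x‖
    linarith
  have hpt : ∀ x : E3, x ∈ Outside δ → MJD.Pt g x := fun x hx => MJD.pt_of hUo hg hx
  have hev : ∀ x : E3, x ∈ Outside δ → ∀ v : Cov, 0 ≤ ev (g x) v v := by
    intro x hx v
    by_cases hv : v = 0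
    · subst hv
      simp [ev]
    · exact (AFDaux.ev_posDef (hg.posDef x hx) hv).le
  constructor
  · refine ⟨δ, hδ, ?_⟩
    constructor
    · intro i j
      have h1 : (fun x => traceTensor g h x i j) = fun x => trg g x (h x) / 3 * g x i j := by
        funext x
        exact tt_apply g h x i j
      rw [h1]
      intro x hx
      have h2 : ContDiffAt ℝ ∞ (fun y => trg g y (h y)) x := cd_tr hUo hg hh hx
      exact ((h2.div_const (3 : ℝ)).contDiffWithinAt).mul (hg.smooth i j x hx)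
    · intro x hx
      have h1 : (g x).IsSymm := (hpt x hx).symm.self_of_nhds
      unfold traceTensor
      exact h1.smul _
  · obtain ⟨C', hC'⟩ := XTRDm.decay_tt hUo hUx hg hh hC hd1 fun x hx v => (he1 x hx v).1
    exact ⟨C', 1, hC'⟩
  · intro x hx
    rw [trg_tt h (hpt x (hUx x hx))]
    rcases le_total 0 (trg g x (h x)) with h0 | h0
    · left
      intro v hv
      rw [ev_tt, hv]
      linarith
    · right
      intro v hv
      rw [ev_tt, hv]
      linarith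
  · left
    refine ⟨2 / 3, 1, by norm_num, ?_⟩
    intro x hx
    have hx0 : x ∈ Outside δ := hUx x hx
    rw [trg_tt h (hpt x hx0), ev_tt]
    have hE := hev x hx0 (fun i => x i)
    constructor
    · intro h0
      have := mul_nonneg h0 hE
      nlinarith
    · intro h0
      have := mul_nonneg (neg_nonneg.2 h0) hE
      nlinarith
  · intro x hx
    have hx0 : x ∈ Outside δ := hUx x hx.le
    have hp := hpt x hx0
    have htd : DifferentiableAt ℝ (fun y => trg g y (h y)) x :=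
      (cd_tr hUo hg hh hx0).differentiableAt (by simp)
    have hev' : ∀ᶠ y in 𝓝 x, MJD.Pt g y := by
      filter_upwards [hUo.mem_nhds hx0] with y hy
      exact hpt y hy
    unfold required
    rw [nsq_tt h hp, trg_tt h hp, jlen_tt hp hev' htd]
    have h1 := hdom x hx
    linarith
  · intro x hx
    have hx0 : x ∈ Outside δ := hUx x hx.ge
    have hxn : x ≠ 0 := by
      rintro rfl
      rw [norm_zero] at hx
      linarith
    rw [sphereTr_tt (hpt x hx0) (hg.posDef x hx0) hxn, abs_mul,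
      abs_of_pos (by norm_num : (0 : ℝ) < 2 / 3)]
    exact htrap x hx

end Pool.Agent.PFlow
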