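import Pool.Agent.PFlow.StmtsX2
import Pool.Agent.PFlow.E.UPH

/-!
# Module XUPH: upper bounds for the flux and the weight, exterior case
-/

open MeasureTheory Filter Topology
open scoped ContDiff ENNReal

namespace Pool.Agent.PFlow

open Pool.Agent.PenroseSph

open UphM in
theorem XUPH (hXSETW : Stmt_XSETW) (_hBETA : Stmt_BETA) (hFLXA : Stmt_FLXA) (_hHOLA : Stmt_HOLA)
    (hJUP : Stmt_JUP) : Stmt_XUPH := by
  intro P B β hβ
  by_cases hP : 0 < P.eps ∧ P.eps ≤ 1 / 2 ∧ 0 < P.C ∧ 0 < P.gam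
  swap
  · exact ⟨1, one_pos, fun D hD _ => absurd ⟨hD.eps_pos, hD.eps_le, hD.C_pos,
      lt_of_lt_of_le two_pos hD.gam_ge⟩ hP⟩
  obtain ⟨he, he2, hC, hg⟩ := hP
  obtain ⟨CJ, hCJ, hJ⟩ := hJUP P.eps β he he2 hβ
  set ε := P.eps with hε
  set γ := P.gam with hγ
  set K := kE ε γ with hK
  set cv := Real.sqrt (P.C ^ 3) with hcv
  set v₁ := volume.real (Metric.ball (0 : E3) 1) with hv₁
  set V₀ := cv * (v₁ * K ^ 3) with hV₀
  set J₁ := CJ * (4 ^ (-(2 - ε)) * Real.exp (-γ)) * |B| ^ ((1 + ε) / 3) * V₀ ^ ((2 - ε) / 3)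
    with hJ₁
  set N := ⌈2 + 4 * γ⌉₊ with hN
  set E₁ := Real.exp ((1 + 3 * γ) / (2 - ε)) with hE₁
  set S₁ := V₀ + J₁ * (4 ^ (2 - ε) * Real.exp γ) + N * |B| with hS₁
  have hK0 : 0 < K := mul_pos (by norm_num) (Real.exp_pos _)
  have hcv0 : 0 < cv := Real.sqrt_pos.2 (by positivity)
  have hv0 : 0 ≤ v₁ := measureReal_nonneg
  have hV0 : 0 ≤ V₀ := by positivity
  have hJ0 : 0 ≤ J₁ := by positivity
  have hN0 : (0 : ℝ) ≤ N := Nat.cast_nonneg N
  have hN1 : 2 + 4 * γ ≤ N := Nat.le_ceil _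
  have hN2 : (N : ℝ) < 2 + 4 * γ + 1 := Nat.ceil_lt_add_one (by linarith)
  have hNpos : 0 < N := by
    have : (0 : ℝ) < N := by linarith
    exact_mod_cast this
  have hE0 : 0 < E₁ := Real.exp_pos _
  have hS0 : 0 ≤ S₁ := by positivity
  refine ⟨1 + J₁ + 4 * E₁ * cv * S₁, by positivity, fun D hD hA => ?_⟩
  obtain ⟨-, -, -, -, -, -, -, -, -, hlow, -, -, hs2, hup, hKl, -, hs21, hsM, hKR, hlK⟩ :=
    hXSETW P D hD
  have hsb0 : 0 < P.eps / 4 := by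
    rw [← hε]
    linarith
  have hl4 : 8 ≤ D.l := hD.l_ge
  have hl0 : 0 < D.l := by linarith
  have hKlv : D.Kl P = K * D.l := rfl
  have hs2v : D.s2 P = s2E ε γ D.l := rfl
  have hsbs : P.eps / 4 < D.s2 P := by
    rw [← hε]
    linarith
  have hRpos : 32 ≤ D.R := by linarith
  set A : Set E3 := cAnn (D.l / 4) (D.Kl P) with hAdef
  have hAm : MeasurableSet A := measurableSet_cAnn _ _
  have hAOm : A ⊆ D.Om := by
    intro x hx
    refine ⟨?_, ?_⟩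
    · have h2 : D.l / 4 ≤ ‖x‖ := hx.1
      linarith
    · have h2 : ‖x‖ ≤ D.Kl P := hx.2
      linarith
  have hvol : ∀ x : E3, 1 ≤ ‖x‖ → 1 ≤ cv * D.vol x ∧ D.vol x ≤ cv := fun x hx =>
    vol_bd hC (hD.modified.metric.posDef x trivial) (hD.modified.elliptic x (by linarith))
  have hA1 : ∀ x ∈ A, 1 ≤ ‖x‖ := fun x hx => by
    have h2 : D.l / 4 ≤ ‖x‖ := hx.1
    linarith
  have hAlow : ∀ x ∈ A, P.eps / 4 < D.w P x := fun x hx => hlow x (hAOm hx)
  have hAup : ∀ x ∈ A, D.w P x ≤ D.s2 P + 1 + 2 * γ := fun x hx => hup x hx.1 hx.2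
  have hB0 : 0 ≤ B := by
    refine le_trans ?_ (hA.window (D.s2 P) le_rfl (by linarith))
    exact setIntegral_nonneg_of_ae (Eventually.of_forall fun x =>
      mul_nonneg (pow_nonneg (hA.X_nonneg x) 3) (hA.vol_nonneg x))
  have hAs : A ⊆ D.Om ∩ {x | P.eps / 4 / 2 ≤ D.w P x ∧ D.w P x ≤ D.s2 P + N / 2} := by
    intro x hx
    refine ⟨hAOm hx, ?_, ?_⟩
    · linarith [hAlow x hx]
    · linarith [hAup x hx]
  have hNsM : D.s2 P + N / 2 + 1 / 2 < D.sM P := by linarith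
  have ivA : IntegrableOn D.vol A :=
    (hA.int_vol _ _ (by linarith) (by linarith) (by linarith)).mono_set hAs
  have hVA : ∫ x in A, D.vol x ≤ V₀ * D.l ^ 3 := by
    have hfin := vol_cAnn (a := D.l / 4) (b := D.Kl P) (by rw [hKlv]; positivity)
    have ic : IntegrableOn (fun _ : E3 => cv) A := integrableOn_const hfin.1
    calc ∫ x in A, D.vol x ≤ ∫ _x in A, cv :=
          setIntegral_mono_on ivA ic hAm fun x hx => (hvol x (hA1 x hx)).2
      _ = volume.real A * cv := by rw [setIntegral_const, smul_eq_mul]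
      _ ≤ (v₁ * (D.Kl P) ^ 3) * cv := mul_le_mul_of_nonneg_right hfin.2 hcv0.le
      _ = V₀ * D.l ^ 3 := by rw [hKlv, hV₀]; ring
  have hV' : ∫ x in D.Om ∩ {x | D.s2 P < D.w P x ∧ D.w P x < D.s2 P + 1}, D.vol x ≤
      V₀ * D.l ^ 3 := by
    refine le_trans ?_ hVA
    refine setIntegral_mono_set ivA (Eventually.of_forall fun x => hA.vol_nonneg x)
      (Eventually.of_forall fun x hx => ?_)
    have h1 : 4 * D.l ≤ ‖x‖ := hs2 x hx.1 hx.2.1.le
    exact ⟨by linarith, hKl x hx.1 hx.2.2⟩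
  have hJle : jInf ε β D.Om D.vol (D.w P) (D.X P) (D.s2 P) ≤ J₁ := by
    have h1 := hJ D.Om D.vol (D.w P) (D.X P) (D.Phi P) (D.Di P) (D.Su P) (P.eps / 4) (D.s2 P)
      (D.sM P) B 0 (V₀ * D.l ^ 3) hA hsb0 hsbs (by linarith) hV'
    refine h1.trans (le_of_eq ?_)
    have h2 : (V₀ * D.l ^ 3) ^ ((2 - ε) / 3) = V₀ ^ ((2 - ε) / 3) * D.l ^ (2 - ε) := by
      rw [Real.mul_rpow hV0 (by positivity)]
      congr 1
      rw [← Real.rpow_natCast, ← Real.rpow_mul hl0.le]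
      congr 1
      push_cast
      ring
    have h3 : D.l ^ (-(2 - ε)) * D.l ^ (2 - ε) = 1 := by
      rw [← Real.rpow_add hl0]
      simp
    rw [hs2v, exp_neg_s2 hl0, h2, hJ₁, abs_of_nonneg hB0]
    calc CJ * (4 ^ (-(2 - ε)) * Real.exp (-γ) * D.l ^ (-(2 - ε))) * B ^ ((1 + ε) / 3) *
          (V₀ ^ ((2 - ε) / 3) * D.l ^ (2 - ε))
        = CJ * (4 ^ (-(2 - ε)) * Real.exp (-γ)) * B ^ ((1 + ε) / 3) * V₀ ^ ((2 - ε) / 3) *
          (D.l ^ (-(2 - ε)) * D.l ^ (2 - ε)) := by ring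
      _ = CJ * (4 ^ (-(2 - ε)) * Real.exp (-γ)) * B ^ ((1 + ε) / 3) * V₀ ^ ((2 - ε) / 3) := by
          rw [h3, mul_one]
  have hI : ∫ x in D.Om ∩ {x | P.eps / 4 / 2 ≤ D.w P x ∧ D.w P x ≤ D.s2 P},
      D.X P x ^ (1 + ε) * D.vol x ≤ J₁ * Real.exp (D.s2 P) := by
    obtain ⟨hj0, hj⟩ := hFLXA ε β he he2 hβ D.Om D.vol (D.w P) (D.X P) (D.Phi P) (D.Di P)
      (D.Su P) (P.eps / 4) (D.s2 P) (D.sM P) B 0 hA hsb0 hsbs (by linarith)
    refine (hj (P.eps / 4 / 2) (D.s2 P) (by linarith) (by linarith) le_rfl).trans ?_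
    have h1 : Real.exp (D.s2 P) - Real.exp (P.eps / 4 / 2) ≤ Real.exp (D.s2 P) := by
      linarith [Real.exp_pos (P.eps / 4 / 2)]
    calc jInf ε β D.Om D.vol (D.w P) (D.X P) (D.s2 P) *
          (Real.exp (D.s2 P) - Real.exp (P.eps / 4 / 2))
        ≤ jInf ε β D.Om D.vol (D.w P) (D.X P) (D.s2 P) * Real.exp (D.s2 P) :=
          mul_le_mul_of_nonneg_left h1 hj0
      _ ≤ J₁ * Real.exp (D.s2 P) := mul_le_mul_of_nonneg_right hJle (Real.exp_pos _).le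
  obtain ⟨-, iX, hX⟩ := main_abs hA he (by linarith) hsb0 hsbs hNsM hNpos
    (t := 1 / D.l) (by positivity) hI hAm hAs
  have hXl : ∫ x in A, D.X P x * D.vol x ≤ S₁ * D.l ^ 2 := by
    refine hX.trans ?_
    have t1 : (1 / D.l) ^ (-ε) = D.l ^ ε := by
      rw [one_div, Real.inv_rpow hl0.le, Real.rpow_neg hl0.le, inv_inv]
    have t2 : (1 / D.l) ^ (-(2 : ℝ)) = D.l ^ 2 := by
      rw [one_div, Real.inv_rpow hl0.le, Real.rpow_neg hl0.le, inv_inv]
      exact_mod_cast Real.rpow_natCast D.l 2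
    have t3 : D.l ^ ε * D.l ^ (2 - ε) = D.l ^ 2 := by
      rw [← Real.rpow_add hl0]
      have : ε + (2 - ε) = ((2 : ℕ) : ℝ) := by push_cast; ring
      rw [this, Real.rpow_natCast]
    rw [t1, t2, hs2v, exp_s2 hl0]
    have u1 : 1 / D.l * (∫ x in A, D.vol x) ≤ V₀ * D.l ^ 2 := by
      calc 1 / D.l * (∫ x in A, D.vol x) ≤ 1 / D.l * (V₀ * D.l ^ 3) :=
            mul_le_mul_of_nonneg_left hVA (by positivity)
        _ = V₀ * D.l ^ 2 := by field_simp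
    have u2 : D.l ^ ε * (J₁ * (4 ^ (2 - ε) * Real.exp γ * D.l ^ (2 - ε))) =
        J₁ * (4 ^ (2 - ε) * Real.exp γ) * D.l ^ 2 := by
      rw [← t3]
      ring
    have u3 : D.l ^ 2 * (N * B) = N * |B| * D.l ^ 2 := by
      rw [abs_of_nonneg hB0]
      ring
    rw [u2, u3, hS₁]
    calc 1 / D.l * (∫ x in A, D.vol x) + J₁ * (4 ^ (2 - ε) * Real.exp γ) * D.l ^ 2 +
          N * |B| * D.l ^ 2
        ≤ V₀ * D.l ^ 2 + J₁ * (4 ^ (2 - ε) * Real.exp γ) * D.l ^ 2 + N * |B| * D.l ^ 2 := by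
          linarith
      _ = (V₀ + J₁ * (4 ^ (2 - ε) * Real.exp γ) + N * |B|) * D.l ^ 2 := by ring
  -- the weight
  have hph : ∀ x ∈ A, D.ph P x ≤ 4 * D.l * E₁ * cv * (D.X P x * D.vol x) := by
    intro x hx
    have hX0 := hA.X_nonneg x
    have h1 : Real.exp (D.w P x / (2 - ε)) ≤ 4 * D.l * E₁ := by
      rw [hE₁, ← exp_lvl hl0 (by linarith)]
      refine Real.exp_le_exp.2 (div_le_div_of_nonneg_right (hAup x hx) (by linarith))
    have h2 : D.X P x ≤ cv * (D.X P x * D.vol x) := by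
      calc D.X P x = D.X P x * 1 := (mul_one _).symm
        _ ≤ D.X P x * (cv * D.vol x) :=
          mul_le_mul_of_nonneg_left (hvol x (hA1 x hx)).1 hX0
        _ = cv * (D.X P x * D.vol x) := by ring
    calc D.ph P x = Real.exp (D.w P x / (2 - ε)) * D.X P x := rfl
      _ ≤ (4 * D.l * E₁) * (cv * (D.X P x * D.vol x)) :=
        mul_le_mul h1 h2 hX0 (by positivity)
      _ = 4 * D.l * E₁ * cv * (D.X P x * D.vol x) := by ring
  have hph0 : ∀ x, 0 ≤ D.ph P x := fun x =>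
    mul_nonneg (Real.exp_pos _).le (hA.X_nonneg x)
  have iXc : IntegrableOn (fun x => 4 * D.l * E₁ * cv * (D.X P x * D.vol x)) A :=
    iX.const_mul _
  have iph : IntegrableOn (D.ph P) A := by
    refine Integrable.mono' iXc ?_ ?_
    · refine AEStronglyMeasurable.mul ?_ (hA.meas_X.mono_set hAOm)
      exact (Real.measurable_exp.comp (hA.meas_w.div_const _)).aestronglyMeasurable
    · filter_upwards [ae_restrict_mem hAm] with x hx
      rw [Real.norm_eq_abs, abs_of_nonneg (hph0 x)]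
      exact hph x hx
  refine ⟨?_, iph, ?_⟩
  · have : 0 ≤ 4 * E₁ * cv * S₁ := by positivity
    linarith
  · calc ∫ x in A, D.ph P x ≤ ∫ x in A, 4 * D.l * E₁ * cv * (D.X P x * D.vol x) :=
          setIntegral_mono_on iph iXc hAm hph
      _ = 4 * D.l * E₁ * cv * ∫ x in A, D.X P x * D.vol x := integral_const_mul _ _
      _ ≤ 4 * D.l * E₁ * cv * (S₁ * D.l ^ 2) := mul_le_mul_of_nonneg_left hXl (by positivity)
      _ = (4 * E₁ * cv * S₁) * D.l ^ 3 := by ring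
      _ ≤ (1 + J₁ + 4 * E₁ * cv * S₁) * D.l ^ 3 :=
        mul_le_mul_of_nonneg_right (by linarith) (by positivity)

end Pool.Agent.PFlow
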