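import Pool.Agent.PFlow.StmtsX2
import Pool.Agent.PFlow.E.WGTE

/-!
# XWGTE: the weight is almost constant (exterior case)

Adaptation of `E/WGTE.lean`.
-/

set_option autoImplicit false

open MeasureTheory Filter Topology
open scoped ContDiff ENNReal

namespace Pool.Agent.PFlow

open Pool.Agent.PenroseSph

namespace EXWGTE

theorem h2On_mono {U V : Set E3} {w : E3 → ℝ} {G : E3 → Cov} {M : E3 → Bil} (h : H2On U w G M)
    (hVU : V ⊆ U) : H2On V w G M :=
  ⟨h.cont.mono hVU, fun K hK hKV => h.memG K hK (hKV.trans hVU),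
    fun K hK hKV => h.memM K hK (hKV.trans hVU), fun K hK hKV => h.approx K hK (hKV.trans hVU)⟩

end EXWGTE

theorem XWGTE (hXSETW : Stmt_XSETW) (hBETA : Stmt_BETA) (hXABSI : Stmt_XABSI) (hWGT : Stmt_WGT)
    (hXENER : Stmt_XENER) (hXUPH : Stmt_XUPH) : Stmt_XWGTE := by
  have _ := hXABSI
  intro P B
  by_cases hP : 0 < P.eps ∧ P.eps ≤ 1 / 2 ∧ 0 < P.C ∧ 2 ≤ P.gam
  swap
  · exact ⟨1, one_pos, fun D hs => absurd ⟨hs.eps_pos, hs.eps_le, hs.C_pos, hs.gam_ge⟩ hP⟩
  obtain ⟨heps, heps2, hC, hgam2⟩ := hP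
  have hgam : 0 < P.gam := by linarith
  have h2e : 0 < 2 - P.eps := by linarith
  have hkE : 4 ≤ kE P.eps P.gam := by
    unfold kE
    have h1 : 1 ≤ Real.exp ((1 + 2 * P.gam) / (2 - P.eps)) := by
      apply Real.one_le_exp
      positivity
    linarith
  obtain ⟨β, hβ⟩ := hBETA
  obtain ⟨C₁, hC₁, hW⟩ := hWGT P.eps (1 / 2) (kE P.eps P.gam) P.C heps heps2 (by norm_num)
    (by linarith) hC
  obtain ⟨B₁, hB₁, hE⟩ := hXENER P B
  obtain ⟨B₂, hB₂, hU⟩ := hXUPH P B β hβ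
  obtain ⟨c, hc, hvolA⟩ := EWGTE.vol_ann
  -- the bound of the volume density
  set V : ℝ := Real.sqrt (6 * (1 + P.C) ^ 3) with hV
  have hV0 : 0 ≤ V := Real.sqrt_nonneg _
  set N : ℝ := 81 * (P.C * (16 * P.C)) ^ 2 with hN
  have hN0 : 0 ≤ N := by positivity
  refine ⟨C₁ * (B₁ + N * V * B₂) + B₂ / c, by positivity, ?_⟩
  intro D hs hA se hcut
  obtain ⟨hg₀, hh₀, h2n, hH2₀, hEq₀, -, -, -, -, -, -, -, -, -, -, -, -, -, hKR, hKl⟩ :=
    hXSETW P D hs
  obtain ⟨hEi, hEb⟩ := hE D hs hA se hcut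
  obtain ⟨-, hphi, hphb⟩ := hU D hs hA
  have hl : 8 ≤ D.l := hs.l_ge
  have hl0 : 0 < D.l := by linarith
  have hKlpos : 4 * D.l ≤ D.Kl P := hKl
  have hOm : D.Om ⊆ Ann (1 / 2) D.R := fun x hx => ⟨by linarith [hx.1], hx.2⟩
  have hg : MetricOn D.Om D.g' :=
    ⟨fun i j => (hg₀.smooth i j).mono hOm, fun x hx => hg₀.posDef x (hOm hx)⟩
  have hh : TensorOn D.Om D.h' :=
    ⟨fun i j => (hh₀.smooth i j).mono hOm, fun x hx => hh₀.symm x (hOm hx)⟩
  have hH2 : H2On D.Om (D.w P) (D.Gw P) (D.Mw P) := EXWGTE.h2On_mono hH2₀ hOm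
  have hEq : EqW D.Om P.eps D.g' D.h' (D.Gw P) (D.Mw P) := ae_restrict_of_ae_restrict_of_subset hOm hEq₀
  have hUo : IsOpen D.Om := EABSI.isOpen_ann _ _
  have hR : 1 < D.R := by linarith
  have hsub : cAnn (D.l / 4) (D.Kl P) ⊆ D.Om := by
    intro x hx
    exact ⟨by linarith [hx.1], by linarith [hx.2]⟩
  have ha : 1 / 2 * D.l / 2 = D.l / 4 := by ring
  have ha2 : 1 / 2 * D.l = D.l / 2 := by ring
  have hb : kE P.eps P.gam * D.l = D.Kl P := rfl
  have hX0 : ∀ x, 0 ≤ D.X P x := fun x => Real.sqrt_nonneg _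
  have hph0 : ∀ x, 0 ≤ D.ph P x := fun x => mul_nonneg (Real.exp_pos _).le (hX0 x)
  have hvol0 : ∀ x, 0 ≤ D.vol x := fun x => Real.sqrt_nonneg _
  -- the region
  set K : Set E3 := cAnn (D.l / 4) (D.Kl P) with hK
  have hKc : IsCompact K := EWGTE.isCompact_cAnn _ _
  have hK2 : ∀ x ∈ K, 2 ≤ ‖x‖ := fun x hx => by linarith [hx.1]
  have hK1 : ∀ x ∈ K, 1 ≤ ‖x‖ := fun x hx => by linarith [hK2 x hx]
  have hvolb : ∀ x ∈ K, D.vol x ≤ V := by
    intro x hx
    have hx1 := hK1 x hx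
    apply Real.sqrt_le_sqrt
    apply EWGTE.det_bound
    intro i j
    have h1 := (hs.modified.decay x (hK2 x hx) i j).1
    have h2 : P.C / ‖x‖ ≤ P.C := div_le_self hC.le hx1
    have h3 : |(1 : Bil) i j| ≤ 1 := by
      rw [Matrix.one_apply]
      split_ifs <;> simp
    calc |D.g' x i j| = |(D.g' x i j - (1 : Bil) i j) + (1 : Bil) i j| := by ring_nf
      _ ≤ |D.g' x i j - (1 : Bil) i j| + |(1 : Bil) i j| := abs_add_le _ _
      _ ≤ 1 + P.C := by linarith
  have hnsq : ∀ x ∈ K, |nsq D.g' x (D.h' x)| ≤ N / D.l ^ 4 := by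
    intro x hx
    have hx1 := hK1 x hx
    have hinv : ∀ i j, |(D.g' x)⁻¹ i j| ≤ P.C := fun i j =>
      EShell.inv_entry (hg.posDef x (hsub hx))
        (fun v => (hs.modified.elliptic x (by linarith) v).1) i j
    have hh' : ∀ i j, |D.h' x i j| ≤ 16 * P.C / D.l ^ 2 := by
      intro i j
      refine (hs.modified.hsmall x hx1 i j).trans ?_
      rw [div_le_div_iff₀ (by positivity) (by positivity)]
      have h1 : D.l / 4 ≤ ‖x‖ := hx.1
      have h2 : D.l ^ 2 ≤ 16 * ‖x‖ ^ 2 := by nlinarith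
      nlinarith
    refine (EShell.nsq_le (D.h' x) hinv hh').trans (le_of_eq ?_)
    rw [hN]
    field_simp
  -- the energy
  have hcoef := MCF.coef hUo hg hh hKc hsub
  have hnm : AEMeasurable (fun x => nsq D.g' x (D.h' x)) (volume.restrict K) :=
    MCF.m_nsq hcoef hcoef.ten
  have hvm : AEMeasurable D.vol (volume.restrict K) := hcoef.vol
  have hi2 : IntegrableOn (fun x => D.ph P x * nsq D.g' x (D.h' x) * D.vol x) K := by
    refine Integrable.mono' (hphi.const_mul (N / D.l ^ 4 * V))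
      ((hphi.1.aemeasurable.mul hnm).mul hvm).aestronglyMeasurable ?_
    refine (ae_restrict_iff' hKc.measurableSet).2 (Eventually.of_forall fun x hx => ?_)
    rw [norm_mul, norm_mul, Real.norm_of_nonneg (hph0 x), Real.norm_of_nonneg (hvol0 x),
      Real.norm_eq_abs]
    calc D.ph P x * |nsq D.g' x (D.h' x)| * D.vol x
        ≤ D.ph P x * (N / D.l ^ 4) * V := by
          refine mul_le_mul (mul_le_mul_of_nonneg_left (hnsq x hx) (hph0 x)) (hvolb x hx)
            (hvol0 x) ?_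
          exact mul_nonneg (hph0 x) (by positivity)
      _ = _ := by ring
  have hi2b : ∫ x in K, D.ph P x * nsq D.g' x (D.h' x) * D.vol x ≤ N * V * B₂ := by
    calc ∫ x in K, D.ph P x * nsq D.g' x (D.h' x) * D.vol x
        ≤ ∫ x in K, (N / D.l ^ 4 * V) * D.ph P x := by
          refine setIntegral_mono_on hi2 (hphi.const_mul _) hKc.measurableSet fun x hx => ?_
          have h1 : nsq D.g' x (D.h' x) ≤ N / D.l ^ 4 := (le_abs_self _).trans (hnsq x hx)
          calc D.ph P x * nsq D.g' x (D.h' x) * D.vol x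
              ≤ D.ph P x * (N / D.l ^ 4) * D.vol x :=
                mul_le_mul_of_nonneg_right (mul_le_mul_of_nonneg_left h1 (hph0 x)) (hvol0 x)
            _ ≤ D.ph P x * (N / D.l ^ 4) * V :=
                mul_le_mul_of_nonneg_left (hvolb x hx) (mul_nonneg (hph0 x) (by positivity))
            _ = _ := by ring
      _ = (N / D.l ^ 4 * V) * ∫ x in K, D.ph P x := by rw [integral_const_mul]
      _ ≤ (N / D.l ^ 4 * V) * (B₂ * D.l ^ 3) :=
          mul_le_mul_of_nonneg_left hphb (by positivity)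
      _ = N * V * B₂ * (1 / D.l) := by field_simp
      _ ≤ N * V * B₂ * 1 := by
          refine mul_le_mul_of_nonneg_left ?_ (by positivity)
          rw [div_le_one hl0]
          linarith
      _ = _ := by ring
  have hfun : ∀ x, Real.exp (D.w P x / (2 - P.eps)) * len D.g' x (D.Gw P x)
        * (diss P.eps D.g' D.h' x (D.Gw P x) (D.Mw P x) + nsq D.g' x (D.h' x)) * volDen D.g' x
      = Real.exp (D.w P x / (2 - P.eps)) * D.Di P x * D.vol x
        + D.ph P x * nsq D.g' x (D.h' x) * D.vol x := by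
    intro x
    unfold DatX.Di DatX.ph DatX.X DatX.vol
    ring
  obtain ⟨lm, hlm, hmean, hclose⟩ := hW D.l D.Om D.g' D.h' (D.w P) (D.Gw P) (D.Mw P) hl0 hUo
    (by rw [ha, hb]; exact hsub) hg hh h2n
    (by
      rw [ha, hb]
      intro x hx v
      exact hs.modified.elliptic x (by linarith [hK1 x hx]) v)
    hH2 hEq (by
      rw [ha, hb]
      simp only [hfun]
      exact hEi.add hi2)
  rw [ha, ha2, hb] at hclose
  rw [ha2, hb] at hmean
  simp only [hfun] at hclose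
  rw [integral_add hEi hi2] at hclose
  -- the annulus
  have hsub2 : cAnn (D.l / 2) (D.Kl P) ⊆ K := by
    intro x hx
    exact ⟨by linarith [hx.1], hx.2⟩
  have hfin : IsFiniteMeasure (volume.restrict (cAnn (D.l / 2) (D.Kl P))) :=
    ⟨by rw [Measure.restrict_apply_univ]; exact (EWGTE.isCompact_cAnn _ _).measure_lt_top⟩
  obtain ⟨hint, hle⟩ := EWGTE.lm_bound (μ := volume.restrict (cAnn (D.l / 2) (D.Kl P)))
    (f := D.ph P) (hphi.mono_set hsub2) hph0 hlm hmean
  have hle2 : ∫ x in cAnn (D.l / 2) (D.Kl P), D.ph P x ≤ B₂ * D.l ^ 3 := by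
    refine le_trans ?_ hphb
    exact setIntegral_mono_set hphi (Eventually.of_forall hph0) hsub2.eventuallyLE
  have hone : ∫ _x in cAnn (D.l / 2) (D.Kl P), (1 : ℝ)
      = (volume (cAnn (D.l / 2) (D.Kl P))).toReal := by
    rw [setIntegral_const, smul_eq_mul, mul_one]
    rfl
  have hvA := hvolA D.l (D.Kl P) hl0 (by linarith)
  refine ⟨lm, hlm, ?_, hint, ?_⟩
  · -- the bound of lm
    have h1 : lm * (c * D.l ^ 3) ≤ B₂ * D.l ^ 3 := by
      refine le_trans (mul_le_mul_of_nonneg_left hvA hlm) ?_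
      rw [← hone]
      exact hle.trans hle2
    have h2 : lm * c ≤ B₂ := by
      have h3 : 0 < D.l ^ 3 := by positivity
      have h4 : (lm * c) * D.l ^ 3 ≤ B₂ * D.l ^ 3 := by linarith
      exact le_of_mul_le_mul_right h4 h3
    have h5 : lm ≤ B₂ / c := by
      rw [le_div_iff₀ hc]
      exact h2
    have h6 : 0 ≤ C₁ * (B₁ + N * V * B₂) := by positivity
    linarith
  · refine hclose.trans ?_
    have h1 : (∫ x in K, Real.exp (D.w P x / (2 - P.eps)) * D.Di P x * D.vol x)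
        + (∫ x in K, D.ph P x * nsq D.g' x (D.h' x) * D.vol x) ≤ B₁ + N * V * B₂ :=
      add_le_add hEb hi2b
    calc C₁ * D.l ^ 2 * ((∫ x in K, Real.exp (D.w P x / (2 - P.eps)) * D.Di P x * D.vol x)
          + (∫ x in K, D.ph P x * nsq D.g' x (D.h' x) * D.vol x))
        ≤ C₁ * D.l ^ 2 * (B₁ + N * V * B₂) := mul_le_mul_of_nonneg_left h1 (by positivity)
      _ = C₁ * (B₁ + N * V * B₂) * D.l ^ 2 := by ring
      _ ≤ (C₁ * (B₁ + N * V * B₂) + B₂ / c) * D.l ^ 2 := by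
          refine mul_le_mul_of_nonneg_right ?_ (by positivity)
          have : 0 ≤ B₂ / c := by positivity
          linarith

end Pool.Agent.PFlow
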