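import Pool.Agent.PFlow.E.Asm
import Pool.Agent.PFlow.HX.COLE
import Pool.Agent.PFlow.HX.HXA
import Pool.Agent.PFlow.HX.HXANTI
import Pool.Agent.PFlow.HX.HXB
import Pool.Agent.PFlow.HX.HXBS
import Pool.Agent.PFlow.HX.HXBT
import Pool.Agent.PFlow.HX.HXC
import Pool.Agent.PFlow.HX.HXCUT
import Pool.Agent.PFlow.HX.HXLAM
import Pool.Agent.PFlow.HX.HXLEV
import Pool.Agent.PFlow.HX.HXRAY
import Pool.Agent.PFlow.HX.HXSYM
import Pool.Agent.PFlow.HX.HXTR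
import Pool.Agent.PFlow.HX.HXUNI
import Pool.Agent.PFlow.HX.LEG
import Pool.Agent.PFlow.HX.MIX
import Pool.Agent.PFlow.PX.Main
import Pool.Agent.PFlow.X.XABS
import Pool.Agent.PFlow.X.XABSF
import Pool.Agent.PFlow.X.XABSI
import Pool.Agent.PFlow.X.XABSM
import Pool.Agent.PFlow.X.XABSW
import Pool.Agent.PFlow.X.XABSX
import Pool.Agent.PFlow.X.XAFD
import Pool.Agent.PFlow.X.XCLO
import Pool.Agent.PFlow.X.XCOLE
import Pool.Agent.PFlow.X.XCOLG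
import Pool.Agent.PFlow.X.XCOLH
import Pool.Agent.PFlow.X.XCOLM
import Pool.Agent.PFlow.X.XCURV
import Pool.Agent.PFlow.X.XDEFE
import Pool.Agent.PFlow.X.XEETA
import Pool.Agent.PFlow.X.XENER
import Pool.Agent.PFlow.X.XEPS
import Pool.Agent.PFlow.X.XEXI1
import Pool.Agent.PFlow.X.XFAR
import Pool.Agent.PFlow.X.XHAT
import Pool.Agent.PFlow.X.XJET
import Pool.Agent.PFlow.X.XJINT
import Pool.Agent.PFlow.X.XLEAD
import Pool.Agent.PFlow.X.XLIM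
import Pool.Agent.PFlow.X.XLIMK
import Pool.Agent.PFlow.X.XLOC
import Pool.Agent.PFlow.X.XLOCU
import Pool.Agent.PFlow.X.XMAIN
import Pool.Agent.PFlow.X.XMATL
import Pool.Agent.PFlow.X.XMEAN
import Pool.Agent.PFlow.X.XMOD
import Pool.Agent.PFlow.X.XMODM
import Pool.Agent.PFlow.X.XMOM
import Pool.Agent.PFlow.X.XMSI
import Pool.Agent.PFlow.X.XMSII
import Pool.Agent.PFlow.X.XMSIII
import Pool.Agent.PFlow.X.XPER
import Pool.Agent.PFlow.X.XPERA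
import Pool.Agent.PFlow.X.XPHI
import Pool.Agent.PFlow.X.XSETW
import Pool.Agent.PFlow.X.XSHELL
import Pool.Agent.PFlow.X.XSUR
import Pool.Agent.PFlow.X.XTFD
import Pool.Agent.PFlow.X.XTINT
import Pool.Agent.PFlow.X.XTRD
import Pool.Agent.PFlow.X.XUPH
import Pool.Agent.PFlow.X.XWGTE
import Pool.Agent.PFlow.X.XXWO

/-!
# Exterior regions: assembly
-/

namespace Pool.Agent.PFlow

theorem xXAFD : Stmt_XAFD := XAFD
theorem xXPHI : Stmt_XPHI := XPHI_thm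
theorem xXCOLG : Stmt_XCOLG := XCOLG xXPHI
theorem xXCOLH : Stmt_XCOLH := XCOLH xXPHI
theorem xXJET : Stmt_XJET := XJET
theorem xXCLO : Stmt_XCLO := XCLO xXPHI
theorem xXSUR : Stmt_XSUR := XSUR xXPHI xXJET xXCLO
theorem xXCURV : Stmt_XCURV := XCURV
theorem xXMEAN : Stmt_XMEAN := XMEAN
theorem xXLEAD : Stmt_XLEAD := XLEAD xXPHI
theorem xXCOLM : Stmt_XCOLM := XCOLM xXCURV xXMEAN xXLEAD xXCOLG xXCOLH xXPHI
theorem xXHAT : Stmt_XHAT := XHAT eHATA eHATB eHATC eJPROD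
theorem xXEETA : Stmt_XEETA := XEETA
theorem xXSHELL : Stmt_XSHELL := XSHELL eHATA eJPROD eKAP xXHAT
theorem xXFAR : Stmt_XFAR := XFAR eKAP eCUTM eCUTD eSCAL eDIVA
theorem xXMOD : Stmt_XMOD := XMOD xXPHI xXCOLG xXCOLH xXSUR xXCOLM xXHAT xXEETA xXAFD xXSHELL xXFAR eKAP eBARA
theorem xXMODM : Stmt_XMODM := XMODM
theorem xXLOC : Stmt_XLOC := XLOC ePHI eBARR
theorem xXLOCU : Stmt_XLOCU := XLOCU ePHI eBARR
theorem xPX : Stmt_PX := PX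
theorem xXSETW : Stmt_XSETW := XSETW LOGWfinal
theorem xXABSI : Stmt_XABSI := XABSI xXSETW INTfinal ePTD eHSYM
theorem xHXLEV : Stmt_HXLEV := HX.HXLEV
theorem xHXLAM : Stmt_HXLAM := HX.HXLAM
theorem xHXUNI : Stmt_HXUNI := HX.HXUNI
theorem xHXANTI : Stmt_HXANTI := HX.HXANTI xHXUNI
theorem xHXSYM : Stmt_HXSYM := HX.HXSYM xHXANTI
theorem xHXBT : Stmt_HXBT := HX.HXBT xHXSYM eXID LOGWfinal INTfinal L4final
theorem xMIX : Stmt_MIX := HX.MIX MIfinal INTfinal LOGWfinal xHXLEV xHXLAM xHXBT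
theorem xXABSM : Stmt_XABSM := XABSM xXSETW xXABSI xMIX
theorem xXXWO : Stmt_XXWO := XXWO xXSETW eLE
theorem xXABSX : Stmt_XABSX := XABSX xXSETW eXID L4final
theorem xXABSW : Stmt_XABSW := XABSW xXSETW xXABSI Wfinal ePTD eHSYM INTfinal
theorem xXABSF : Stmt_XABSF := XABSF xXSETW eFLX xXABSI
theorem xXABS : Stmt_XABS := XABS xXSETW xXABSI xXABSM xXXWO xXABSX xXABSW xXABSF
theorem xXUPH : Stmt_XUPH := XUPH xXSETW eBETA eFLXA eHOLA eJUP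
theorem xXDEFE : Stmt_XDEFE := XDEFE xXSETW eBETA xXUPH eFLXA
theorem xHXA : Stmt_HXA := HX.HXA
theorem xHXCUT : Stmt_HXCUT := HX.HXCUT
theorem xHXBS : Stmt_HXBS := HX.HXBS
theorem xHXB : Stmt_HXB := HX.HXB xHXBS
theorem xHXC : Stmt_HXC := HX.HXC
theorem xLEG : Stmt_LEG := HX.LEG xHXA xHXCUT xHXB xHXC
theorem xHXRAY : Stmt_HXRAY := HX.HXRAY
theorem xHXTR : Stmt_HXTR := HX.HXTR
theorem xCOLE : Stmt_COLE := HX.COLE xHXRAY xHXTR xHXANTI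
theorem xXCOLE : Stmt_XCOLE := XCOLE xXSETW xLEG xCOLE
theorem xXEXI1 : Stmt_XEXI1 := XEXI1 xXAFD xXMOD xXMODM xXLOC xXLOCU xPX xXABS xXDEFE xXCOLE xXSETW
theorem xXMATL : Stmt_XMATL := XMATL xXSETW xXABSI eBETA xXUPH
theorem xXMSI : Stmt_XMSI := XMSI xXSETW eBETA eTSTA xXUPH xXMATL
theorem xXMSII : Stmt_XMSII := XMSII xXSETW xXABSI eBETA eTSTB xXUPH xXMATL eJL
theorem xXPERA : Stmt_XPERA := XPERA
theorem xXPER : Stmt_XPER := XPER xXPERA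
theorem xXMSIII : Stmt_XMSIII := XMSIII xXSETW xXPER eBETA eFLXA eHOLA
theorem xXENER : Stmt_XENER := XENER xXSETW eBETA eTSTA xXUPH xXMATL
theorem xXWGTE : Stmt_XWGTE := XWGTE xXSETW eBETA xXABSI eWGT xXENER xXUPH
theorem xXEPS : Stmt_XEPS := XEPS xXEXI1 xXMSI xXMSII xXMSIII xXWGTE eBETA
theorem xXLIM : Stmt_XLIM := XLIM
theorem xXJINT : Stmt_XJINT := XJINT xXAFD eSCAL eDIVG
theorem xXTINT : Stmt_XTINT := XTINT xXAFD eHATA eDIVG xXJINT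
theorem xXLIMK : Stmt_XLIMK := XLIMK xXAFD eHATA xXTINT
theorem xXMAIN : Stmt_XMAIN := XMAIN xXEPS xXLIM xXLIMK
theorem xXTRD : Stmt_XTRD := XTRD xXAFD
theorem xXTFD : Stmt_XTFD := XTFD
theorem xXMOM : Stmt_XMOM := XMOM

end Pool.Agent.PFlow
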