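import Pool.Agent.PFlow.StmtsX1
import Pool.Agent.PFlow.E.BARB

/-!
# Module XCOLG: the collar metric
-/

open MeasureTheory Filter Topology
open scoped ContDiff ENNReal

namespace Pool.Agent.PFlow

open Pool.Agent.PenroseSph

namespace XCOLGm

open BARBm

/-! ### The factor -/

/-- the facts on the profile which are used -/
structure Prof (τ δ C₁ : ℝ) : Prop where
  smooth : ContDiff ℝ ∞ (phX τ δ)
  zero : ∀ t, t ≤ τ / 2 → phX τ δ t = 0
  bd : ∀ t, 0 ≤ t → 0 ≤ phX τ δ t ∧ phX τ δ t ≤ t ∧ t - τ ≤ phX τ δ t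
  one : ∀ t, δ ≤ t → phX τ δ t = t
  der : ∀ t, 0 ≤ deriv (phX τ δ) t ∧ deriv (phX τ δ) t ≤ 1 + C₁ * τ

variable {τ δ C₁ : ℝ}

theorem phX_nonneg (hτ : 0 < τ) (P : Prof τ δ C₁) (t : ℝ) : 0 ≤ phX τ δ t := by
  rcases le_or_gt 0 t with h | h
  · exact (P.bd t h).1
  · rw [P.zero t (by linarith)]

theorem fac_pos {x : E3} (hx : x ≠ 0) : 0 < facX τ δ x := by
  unfold facX
  have : 0 < ‖x‖ := norm_pos_iff.2 hx
  positivity

theorem norm_fx {x : E3} (hx : x ≠ 0) :
    ‖facX τ δ x • x‖ = Real.exp (phX τ δ (Real.log ‖x‖)) := by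
  have hn : 0 < ‖x‖ := norm_pos_iff.2 hx
  rw [norm_smul, Real.norm_of_nonneg (fac_pos hx).le]
  unfold facX
  field_simp

theorem one_le_norm_fx (hτ : 0 < τ) (P : Prof τ δ C₁) {x : E3} (hx : x ≠ 0) :
    1 ≤ ‖facX τ δ x • x‖ := by
  rw [norm_fx hx]
  exact Real.one_le_exp (phX_nonneg hτ P _)

theorem norm_fx_le (P : Prof τ δ C₁) {x : E3} (hx : 1 ≤ ‖x‖) :
    ‖facX τ δ x • x‖ ≤ ‖x‖ := by
  have hn : 0 < ‖x‖ := by linarith
  rw [norm_fx (norm_pos_iff.1 hn), ← Real.exp_log hn]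
  rw [Real.exp_log hn]
  calc Real.exp (phX τ δ (Real.log ‖x‖)) ≤ Real.exp (Real.log ‖x‖) :=
        Real.exp_le_exp.2 (P.bd _ (Real.log_nonneg hx)).2.1
    _ = ‖x‖ := Real.exp_log hn

theorem fac_near (P : Prof τ δ C₁) {x : E3} (hx : x ≠ 0) (h : ‖x‖ ≤ Real.exp (τ / 2)) :
    facX τ δ x = ‖x‖⁻¹ := by
  have hn : 0 < ‖x‖ := norm_pos_iff.2 hx
  have h1 : Real.log ‖x‖ ≤ τ / 2 := by
    rw [← Real.log_exp (τ / 2)]
    exact Real.log_le_log hn h
  unfold facX
  rw [P.zero _ h1, Real.exp_zero, one_div]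

theorem fac_far (P : Prof τ δ C₁) {x : E3} (h : Real.exp δ ≤ ‖x‖) : facX τ δ x = 1 := by
  have hn : 0 < ‖x‖ := (Real.exp_pos _).trans_le h
  have h1 : δ ≤ Real.log ‖x‖ := by
    rw [← Real.log_exp δ]
    exact Real.log_le_log (Real.exp_pos _) h
  unfold facX
  rw [P.one _ h1, Real.exp_log hn, div_self hn.ne']

theorem fac_le_one (P : Prof τ δ C₁) {x : E3} (h : 1 ≤ ‖x‖) : facX τ δ x ≤ 1 := by
  have hn : 0 < ‖x‖ := by linarith
  have hx : x ≠ 0 := norm_pos_iff.1 hn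
  have h1 := norm_fx_le P h
  rw [norm_smul, Real.norm_of_nonneg (fac_pos hx).le] at h1
  have h2 : facX τ δ x * ‖x‖ ≤ 1 * ‖x‖ := by linarith
  exact le_of_mul_le_mul_right h2 hn

theorem fac_ge (hτ : 0 < τ) (P : Prof τ δ C₁) {x : E3} (hx : x ≠ 0) :
    1 - τ ≤ facX τ δ x := by
  have hn : 0 < ‖x‖ := norm_pos_iff.2 hx
  rcases le_or_gt 1 ‖x‖ with h | h
  · have h1 := (P.bd _ (Real.log_nonneg h)).2.2
    have h2 : facX τ δ x = Real.exp (phX τ δ (Real.log ‖x‖) - Real.log ‖x‖) := by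
      unfold facX
      rw [Real.exp_sub, Real.exp_log hn]
    rw [h2]
    have h3 : Real.exp (-τ) ≤ Real.exp (phX τ δ (Real.log ‖x‖) - Real.log ‖x‖) :=
      Real.exp_le_exp.2 (by linarith)
    have h4 := Real.add_one_le_exp (-τ)
    linarith
  · have h1 : ‖x‖ ≤ Real.exp (τ / 2) := h.le.trans (Real.one_le_exp (by linarith))
    rw [fac_near P hx h1]
    have h2 : 1 ≤ ‖x‖⁻¹ := (one_le_inv₀ hn).2 h.le
    linarith

theorem fac_le_four (hτ : 0 < τ) (P : Prof τ δ C₁) {x : E3} (h : 1 / 4 ≤ ‖x‖) :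
    facX τ δ x ≤ 4 := by
  have hn : 0 < ‖x‖ := by linarith
  have hx : x ≠ 0 := norm_pos_iff.1 hn
  rcases le_or_gt 1 ‖x‖ with h' | h'
  · linarith [fac_le_one P h']
  · have h1 : ‖x‖ ≤ Real.exp (τ / 2) := h'.le.trans (Real.one_le_exp (by linarith))
    rw [fac_near P hx h1, inv_le_comm₀ hn (by norm_num)]
    linarith

theorem norm_fx_le_four (hτ : 0 < τ) (P : Prof τ δ C₁) {x : E3} (h : 1 / 4 ≤ ‖x‖)
    (h4 : ‖x‖ ≤ 4) : ‖facX τ δ x • x‖ ≤ 4 := by
  have hn : 0 < ‖x‖ := by linarith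
  have hx : x ≠ 0 := norm_pos_iff.1 hn
  rcases le_or_gt 1 ‖x‖ with h' | h'
  · linarith [norm_fx_le P h']
  · have h1 : ‖x‖ ≤ Real.exp (τ / 2) := h'.le.trans (Real.one_le_exp (by linarith))
    rw [norm_smul, Real.norm_of_nonneg (fac_pos hx).le, fac_near P hx h1,
      inv_mul_cancel₀ hn.ne']
    norm_num

/-- the radial profile of the factor -/
noncomputable def rr (τ δ r : ℝ) : ℝ := Real.exp (phX τ δ (Real.log r)) / r

theorem hasDerivAt_rr (P : Prof τ δ C₁) {r : ℝ} (hr : 0 < r) :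
    HasDerivAt (rr τ δ)
      (Real.exp (phX τ δ (Real.log r)) * (deriv (phX τ δ) (Real.log r) - 1) / r ^ 2) r := by
  have h1 : HasDerivAt (phX τ δ) (deriv (phX τ δ) (Real.log r)) (Real.log r) :=
    ((P.smooth.differentiable (by simp)) _).hasDerivAt
  have h2 := ((h1.comp r (Real.hasDerivAt_log hr.ne')).exp).div (hasDerivAt_id r) hr.ne'
  refine h2.congr_deriv ?_
  simp only [Function.comp, id]
  field_simp

theorem contDiffAt_fac (P : Prof τ δ C₁) {x : E3} (hx : x ≠ 0) :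
    ContDiffAt ℝ ∞ (facX τ δ) x := by
  have hn : ‖x‖ ≠ 0 := norm_ne_zero_iff.2 hx
  unfold facX
  have h0 : ContDiffAt ℝ ∞ (fun y : E3 => ‖y‖) x := contDiffAt_norm ℝ hx
  have h1 : ContDiffAt ℝ ∞ (fun y : E3 => phX τ δ (Real.log ‖y‖)) x :=
    P.smooth.contDiffAt.comp x (h0.log hn)
  exact h1.exp.div h0 hn

theorem pd_fac (P : Prof τ δ C₁) {x : E3} (hx : x ≠ 0) (m : Fin 3) :
    pd m (facX τ δ) x = Real.exp (phX τ δ (Real.log ‖x‖)) *
      (deriv (phX τ δ) (Real.log ‖x‖) - 1) / ‖x‖ ^ 2 * (x m / ‖x‖) :=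
  pd_radial hx (hasDerivAt_rr P (norm_pos_iff.2 hx))

theorem abs_coord_le (x : E3) (m : Fin 3) : |x m| ≤ ‖x‖ := by
  have h := norm_sq_eq x
  have h1 : x m ^ 2 ≤ ‖x‖ ^ 2 := by
    rw [h]
    fin_cases m <;> simp <;> nlinarith [sq_nonneg (x 0), sq_nonneg (x 1), sq_nonneg (x 2)]
  exact abs_le_of_sq_le_sq h1 (norm_nonneg x)

theorem pd_fac_le (hτ : 0 < τ) (hτ1 : τ ≤ 1) (hC : 0 < C₁) (P : Prof τ δ C₁) {x : E3}
    (h : 1 / 4 ≤ ‖x‖) (h4 : ‖x‖ ≤ 4) (m : Fin 3) :
    |pd m (facX τ δ) x| ≤ 64 * (1 + C₁) := by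
  have hn : 0 < ‖x‖ := by linarith
  have hx : x ≠ 0 := norm_pos_iff.1 hn
  rw [pd_fac P hx]
  have e1 : |Real.exp (phX τ δ (Real.log ‖x‖))| ≤ 4 := by
    rw [abs_of_pos (Real.exp_pos _), ← norm_fx hx]
    exact norm_fx_le_four hτ P h h4
  have e2 : |deriv (phX τ δ) (Real.log ‖x‖) - 1| ≤ 1 + C₁ := by
    obtain ⟨a, b⟩ := P.der (Real.log ‖x‖)
    have : C₁ * τ ≤ C₁ * 1 := mul_le_mul_of_nonneg_left hτ1 hC.le
    rw [abs_le]
    constructor <;> linarith
  have e3 : |(‖x‖ ^ 2)⁻¹| ≤ 16 := by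
    rw [abs_of_pos (by positivity), inv_le_comm₀ (by positivity) (by norm_num)]
    nlinarith
  have e4 : |x m / ‖x‖| ≤ 1 := by
    rw [abs_div, abs_of_pos hn, div_le_one hn]
    exact abs_coord_le x m
  rw [div_eq_mul_inv]
  refine (mul_le (mul_le (mul_le e1 e2) e3) e4).trans (le_of_eq ?_)
  ring

/-! ### The field F -/

/-- the stretched metric -/
noncomputable def FF (τ δ : ℝ) (g : TensorField) : TensorField := fun x =>
  facX τ δ x ^ 2 • g (facX τ δ x • x)

theorem isOpen_outside (δ₀ : ℝ) : IsOpen (Outside δ₀) :=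
  isOpen_lt continuous_const continuous_norm

theorem mem_outside {δ₀ : ℝ} (h : 0 < δ₀) {y : E3} (hy : 1 ≤ ‖y‖) : y ∈ Outside δ₀ := by
  show 1 - δ₀ < ‖y‖
  linarith

theorem contDiffAt_fx (P : Prof τ δ C₁) {x : E3} (hx : x ≠ 0) :
    ContDiffAt ℝ ∞ (fun y : E3 => facX τ δ y • y) x :=
  (contDiffAt_fac P hx).smul contDiffAt_id

theorem contDiffAt_g {g : TensorField} {δ₀ : ℝ} (hδ₀ : 0 < δ₀)
    (hg : ∀ i j, ContDiffOn ℝ ∞ (fun x => g x i j) (Outside δ₀)) {y : E3} (hy : 1 ≤ ‖y‖)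
    (i j : Fin 3) : ContDiffAt ℝ ∞ (fun z => g z i j) y :=
  (hg i j).contDiffAt ((isOpen_outside δ₀).mem_nhds (mem_outside hδ₀ hy))

theorem FF_contDiffAt {g : TensorField} {δ₀ : ℝ} (hδ₀ : 0 < δ₀)
    (hg : ∀ i j, ContDiffOn ℝ ∞ (fun x => g x i j) (Outside δ₀)) (hτ : 0 < τ)
    (P : Prof τ δ C₁) {x : E3} (hx : x ≠ 0) (i j : Fin 3) :
    ContDiffAt ℝ ∞ (fun y => FF τ δ g y i j) x := by
  have h1 : (fun y => FF τ δ g y i j) = fun y => facX τ δ y ^ 2 *
      g (facX τ δ y • y) i j := by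
    funext y
    simp only [FF, Matrix.smul_apply, smul_eq_mul]
  rw [h1]
  refine ((contDiffAt_fac P hx).pow 2).mul ?_
  exact ContDiffAt.comp x (g := fun z => g z i j)
    (contDiffAt_g hδ₀ hg (one_le_norm_fx hτ P hx) i j) (contDiffAt_fx P hx)

theorem FF_metric {g : TensorField} {δ₀ : ℝ} (hδ₀ : 0 < δ₀) (hg : MetricOn (Outside δ₀) g)
    (hτ : 0 < τ) (P : Prof τ δ C₁) : MetricOn {0}ᶜ (FF τ δ g) where
  smooth := fun i j x hx =>
    (FF_contDiffAt hδ₀ hg.smooth hτ P (by simpa using hx) i j).contDiffWithinAt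
  posDef := by
    intro x hx
    have hx0 : x ≠ 0 := by simpa using hx
    exact (hg.posDef _ (mem_outside hδ₀ (one_le_norm_fx hτ P hx0))).smul
      (pow_pos (fac_pos hx0) 2)

/-! ### The reflection -/

theorem reflect {B : Bil} {n : Cov} (hn : n 0 ^ 2 + n 1 ^ 2 + n 2 ^ 2 = 1) (hB : B.IsSymm)
    (hs : ∀ v : Cov, ∑ i, n i * v i = 0 → ∑ i, ∑ j, B i j * n i * v j = 0) (i j : Fin 3) :
    ∑ b, (∑ a, Sr n a i * B a b) * Sr n b j = B i j := by
  set l : ℝ := ∑ p, ∑ q, B p q * n p * n q with hl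
  have e0 : ∑ p, n p * n p = 1 := by
    rw [Fin.sum_univ_three]
    nlinarith
  have e1 : ∀ b, ∑ a, n a * B a b = l * n b := by
    intro b
    have h1 := hs (fun k => dl b k - n b * n k) (by
      have : ∑ k, n k * (dl b k - n b * n k) = (∑ k, dl b k * n k) - n b * ∑ k, n k * n k := by
        rw [Finset.mul_sum, ← Finset.sum_sub_distrib]
        exact Finset.sum_congr rfl fun k _ => by ring
      rw [this, dl_sum', e0]
      ring)
    have h2 : ∑ p, ∑ q, B p q * n p * (dl b q - n b * n q) =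
        (∑ p, ∑ q, dl b q * (B p q * n p)) - n b * ∑ p, ∑ q, B p q * n p * n q := by
      rw [Finset.mul_sum, ← Finset.sum_sub_distrib]
      refine Finset.sum_congr rfl fun p _ => ?_
      rw [Finset.mul_sum, ← Finset.sum_sub_distrib]
      exact Finset.sum_congr rfl fun q _ => by ring
    rw [h2, ← hl] at h1
    have h3 : ∑ p, ∑ q, dl b q * (B p q * n p) = ∑ a, n a * B a b := by
      refine Finset.sum_congr rfl fun p _ => ?_
      rw [dl_sum' (fun q => B p q * n p)]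
      ring
    rw [h3] at h1
    linarith
  have hsym : ∀ a b, B a b = B b a := fun a b => by
    have := congrFun (congrFun hB b) a
    rw [Matrix.transpose_apply] at this
    exact this
  have e2 : ∀ b, ∑ a, Sr n a i * B a b = B i b - 2 * n i * (l * n b) := by
    intro b
    rw [← e1 b]
    have : ∑ a, Sr n a i * B a b = (∑ a, dl i a * B a b) - 2 * n i * ∑ a, n a * B a b := by
      rw [Finset.mul_sum, ← Finset.sum_sub_distrib]
      refine Finset.sum_congr rfl fun a _ => ?_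
      unfold Sr
      have e : dl a i = dl i a := by unfold dl; simp only [eq_comm]
      rw [e]
      ring
    rw [this, dl_sum' (fun a => B a b)]
  have e3 : ∀ f : Fin 3 → ℝ, ∑ b, f b * Sr n b j = f j - 2 * n j * ∑ b, f b * n b := by
    intro f
    have : ∑ b, f b * Sr n b j = (∑ b, dl j b * f b) - 2 * n j * ∑ b, f b * n b := by
      rw [Finset.mul_sum, ← Finset.sum_sub_distrib]
      refine Finset.sum_congr rfl fun b _ => ?_
      unfold Sr
      have e : dl b j = dl j b := by unfold dl; simp only [eq_comm]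
      rw [e]
      ring
    rw [this, dl_sum' f]
  have e4 : ∑ b, B i b * n b = l * n i := by
    rw [← e1 i]
    refine Finset.sum_congr rfl fun b _ => ?_
    rw [hsym i b]
    ring
  rw [Finset.sum_congr rfl fun b _ => by rw [e2 b], e3 (fun b => B i b - 2 * n i * (l * n b))]
  have e5 : ∑ b, (B i b - 2 * n i * (l * n b)) * n b = l * n i - 2 * n i * l * ∑ p, n p * n p := by
    rw [← e4, Finset.mul_sum, ← Finset.sum_sub_distrib]
    exact Finset.sum_congr rfl fun b _ => by ring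
  rw [e5, e0]
  ring

theorem exp_neg_inv (t : ℝ) : Real.exp (-t) = (Real.exp t)⁻¹ := Real.exp_neg t

theorem FF_near (P : Prof τ δ C₁) (g : TensorField) {x : E3} (hx : x ≠ 0)
    (h : ‖x‖ ≤ Real.exp (τ / 2)) : FF τ δ g x = (‖x‖⁻¹) ^ 2 • g (‖x‖⁻¹ • x) := by
  unfold FF
  rw [fac_near P hx h]

theorem FF_reflect {g : TensorField} {δ₀ : ℝ} (hδ₀ : 0 < δ₀) (hg : MetricOn (Outside δ₀) g)
    (hsh : Shiftless δ₀ g) (P : Prof τ δ C₁) {x : E3} (hx : x ≠ 0)
    (h1 : Real.exp (-(τ / 2)) ≤ ‖x‖) (h2 : ‖x‖ ≤ Real.exp (τ / 2)) :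
    inverted (FF τ δ g) x = FF τ δ g x := by
  have hn : 0 < ‖x‖ := norm_pos_iff.2 hx
  have hι : inversion x ≠ 0 := HSM2.inversion_ne x hx
  have hιn : ‖inversion x‖ = ‖x‖⁻¹ := HSM2.norm_inversion x hx
  have h3 : ‖inversion x‖ ≤ Real.exp (τ / 2) := by
    rw [hιn, inv_le_comm₀ hn (Real.exp_pos _), ← Real.exp_neg]
    exact h1
  have hy : ‖‖x‖⁻¹ • x‖ = 1 := by
    rw [norm_smul, norm_inv, norm_norm, inv_mul_cancel₀ hn.ne']
  have h4 : ‖inversion x‖⁻¹ • inversion x = ‖x‖⁻¹ • x := by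
    rw [hιn, inv_inv]
    unfold inversion
    rw [smul_smul]
    congr 1
    field_simp
  ext i j
  rw [AFDaux.inverted_apply, FF_near P g hx h2, Matrix.smul_apply, smul_eq_mul,
    FF_near P g hι h3, h4, hιn, inv_inv]
  have hyc : ∀ k, (‖x‖⁻¹ • x) k = nu x k := fun k => by
    unfold nu
    rw [PiLp.smul_apply, smul_eq_mul]
    ring
  have hpd := hg.posDef (‖x‖⁻¹ • x) (mem_outside hδ₀ hy.ge)
  have hsym : (g (‖x‖⁻¹ • x)).IsSymm := by
    have := hpd.1
    rwa [Matrix.IsHermitian, Matrix.conjTranspose_eq_transpose_of_trivial] at this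
  have key := reflect (nu_sq hx) hsym (by
    intro v hv
    have := hsh (‖x‖⁻¹ • x) (by rw [hy]; linarith) (by rw [hy]; linarith) v (by
      rw [← hv]
      exact Finset.sum_congr rfl fun k _ => by rw [hyc])
    rw [← this]
    exact Finset.sum_congr rfl fun k _ => Finset.sum_congr rfl fun l _ => by rw [hyc]) i j
  rw [← key, Finset.mul_sum]
  refine Finset.sum_congr rfl fun b _ => ?_
  rw [jac_eq hx b j, Finset.sum_mul, Finset.sum_mul, Finset.mul_sum]
  refine Finset.sum_congr rfl fun a _ => ?_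
  rw [jac_eq hx a i, Matrix.smul_apply, smul_eq_mul]
  field_simp

theorem inverted_inverted (g : TensorField) {x : E3} (hx : x ≠ 0) :
    inverted (inverted g) x = g x := by
  ext i j
  rw [AFDaux.inverted_apply]
  exact (g_eq g hx i j).symm

theorem inverted_congr {g g' : TensorField} {x : E3} (h : g (inversion x) = g' (inversion x)) :
    inverted g x = inverted g' x := by
  unfold inverted
  rw [h]

/-! ### The collar metric -/

section Col

variable {g : TensorField} {δ₀ : ℝ}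

theorem col_ge {x : E3} (h : 1 ≤ ‖x‖) : colG τ δ g x = FF τ δ g x := by
  unfold colG FF
  rw [if_pos h]

theorem col_lt {x : E3} (h : ‖x‖ < 1) : colG τ δ g x = inverted (FF τ δ g) x := by
  unfold colG
  rw [if_neg (not_le.2 h)]
  rfl

theorem col_near (hδ₀ : 0 < δ₀) (hg : MetricOn (Outside δ₀) g) (hτ : 0 < τ)
    (hsh : Shiftless δ₀ g) (P : Prof τ δ C₁) {x : E3}
    (h1 : Real.exp (-(τ / 2)) ≤ ‖x‖) : colG τ δ g x = FF τ δ g x := by
  rcases le_or_gt 1 ‖x‖ with h | h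
  · exact col_ge h
  · have hx : x ≠ 0 := norm_pos_iff.1 ((Real.exp_pos _).trans_le h1)
    rw [col_lt h]
    exact FF_reflect hδ₀ hg hsh P hx h1 (h.le.trans (Real.one_le_exp (by linarith)))

theorem exp_lt_one (hτ : 0 < τ) : Real.exp (-(τ / 2)) < 1 := by
  rw [← Real.exp_zero]
  exact Real.exp_lt_exp.2 (by linarith)

/-- near a point outside the open unit ball the collar metric is F -/
theorem col_ev_ge (hδ₀ : 0 < δ₀) (hg : MetricOn (Outside δ₀) g) (hτ : 0 < τ)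
    (hsh : Shiftless δ₀ g) (P : Prof τ δ C₁) {x : E3} (h : 1 ≤ ‖x‖) :
    ∀ᶠ y in 𝓝 x, colG τ δ g y = FF τ δ g y := by
  have h1 : ∀ᶠ y in 𝓝 x, Real.exp (-(τ / 2)) < ‖y‖ :=
    (isOpen_lt continuous_const continuous_norm).mem_nhds ((exp_lt_one hτ).trans_le h)
  filter_upwards [h1] with y hy
  exact col_near hδ₀ hg hτ hsh P hy.le

theorem col_ev_lt {x : E3} (h : ‖x‖ < 1) :
    ∀ᶠ y in 𝓝 x, colG τ δ g y = inverted (FF τ δ g) y := by
  have h1 : ∀ᶠ y in 𝓝 x, ‖y‖ < 1 := (isOpen_lt continuous_norm continuous_const).mem_nhds h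
  filter_upwards [h1] with y hy
  exact col_lt hy

theorem col_metric (hδ₀ : 0 < δ₀) (hg : MetricOn (Outside δ₀) g) (hτ : 0 < τ)
    (hsh : Shiftless δ₀ g) (P : Prof τ δ C₁) : MetricOn {0}ᶜ (colG τ δ g) := by
  have hF := FF_metric hδ₀ hg hτ P
  have hI := AFDaux.inverted_metric hF
  constructor
  · intro i j x hx
    have hx0 : x ∈ ({0}ᶜ : Set E3) := hx
    refine ContDiffAt.contDiffWithinAt ?_
    rcases le_or_gt 1 ‖x‖ with h | h
    · refine ((hF.smooth i j).contDiffAt (isOpen_compl_singleton.mem_nhds hx0)).congr_of_eventuallyEq ?_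
      filter_upwards [col_ev_ge hδ₀ hg hτ hsh P h] with y hy
      rw [hy]
    · refine ((hI.smooth i j).contDiffAt (isOpen_compl_singleton.mem_nhds hx0)).congr_of_eventuallyEq ?_
      filter_upwards [col_ev_lt (τ := τ) (δ := δ) (g := g) h] with y hy
      rw [hy]
  · intro x hx
    rcases le_or_gt 1 ‖x‖ with h | h
    · rw [col_ge h]
      exact hF.posDef x hx
    · rw [col_lt h]
      exact hI.posDef x hx

theorem col_inverted (hδ₀ : 0 < δ₀) (hg : MetricOn (Outside δ₀) g) (hτ : 0 < τ)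
    (hsh : Shiftless δ₀ g) (P : Prof τ δ C₁) {x : E3} (hx : x ≠ 0) :
    inverted (colG τ δ g) x = colG τ δ g x := by
  have hn : 0 < ‖x‖ := norm_pos_iff.2 hx
  have hιn : ‖inversion x‖ = ‖x‖⁻¹ := HSM2.norm_inversion x hx
  rcases lt_trichotomy ‖x‖ 1 with h | h | h
  · have h1 : 1 ≤ ‖inversion x‖ := by
      rw [hιn]
      exact (one_le_inv₀ hn).2 h.le
    rw [col_lt h]
    exact inverted_congr (col_ge h1)
  · have h1 : 1 ≤ ‖inversion x‖ := by
      rw [hιn, h, inv_one]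
    rw [col_ge h.ge, inverted_congr (col_ge h1)]
    exact FF_reflect hδ₀ hg hsh P hx (by rw [h]; exact (exp_lt_one hτ).le)
      (by rw [h]; exact Real.one_le_exp (by linarith))
  · have h1 : ‖inversion x‖ < 1 := by
      rw [hιn]
      exact inv_lt_one_of_one_lt₀ h
    rw [col_ge h.le, inverted_congr (col_lt h1)]
    exact inverted_inverted _ hx

end Col

/-! ### Bounds -/

theorem bdK {ι : Type} [Fintype ι] {K : Set E3} (hK : IsCompact K) (F : ι → E3 → ℝ)
    (hF : ∀ i, ContinuousOn (F i) K) : ∃ M : ℝ, 0 < M ∧ ∀ i, ∀ x ∈ K, |F i x| ≤ M := by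
  have h1 : ∀ i, ∃ M : ℝ, ∀ x ∈ K, |F i x| ≤ M := by
    intro i
    obtain ⟨M, hM⟩ := hK.exists_bound_of_continuousOn (hF i)
    exact ⟨M, fun x hx => by simpa [Real.norm_eq_abs] using hM x hx⟩
  choose M hM using h1
  refine ⟨1 + ∑ i, |M i|, by positivity, fun i x hx => ?_⟩
  have h2 : |M i| ≤ ∑ j, |M j| :=
    Finset.single_le_sum (f := fun j => |M j|) (fun j _ => abs_nonneg _) (Finset.mem_univ i)
  have h3 := hM i x hx
  have h4 := le_abs_self (M i)
  linarith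

theorem ellK {U K : Set E3} (hK : IsCompact K) (hKU : K ⊆ U) {g : TensorField}
    (hg : MetricOn U g) : ∃ C : ℝ, 0 < C ∧ ∀ x ∈ K, ∀ v : Cov,
      (∑ i, v i ^ 2) ≤ C * ev (g x) v v := by
  have hcomp : IsCompact (K ×ˢ AFDaux.unitCov) := hK.prod AFDaux.isCompact_unitCov
  have hcont : ContinuousOn (fun p : E3 × Cov => ev (g p.1) p.2 p.2) (K ×ˢ AFDaux.unitCov) := by
    unfold ev
    refine continuousOn_finsetSum _ fun i _ => continuousOn_finsetSum _ fun j _ => ?_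
    refine (ContinuousOn.mul ?_ ?_).mul ?_
    · exact ((hg.smooth i j).continuousOn.mono hKU).comp continuousOn_fst (fun p hp => hp.1)
    · exact ((continuous_apply i).comp continuous_snd).continuousOn
    · exact ((continuous_apply j).comp continuous_snd).continuousOn
  have hpos : ∀ p ∈ K ×ˢ AFDaux.unitCov, 0 < ev (g p.1) p.2 p.2 := by
    intro p hp
    refine AFDaux.ev_posDef (hg.posDef _ (hKU hp.1)) ?_
    intro h0
    have h1 : ∑ i, p.2 i ^ 2 = 1 := hp.2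
    rw [h0] at h1
    simp at h1
  obtain ⟨N, hN⟩ := hcomp.exists_bound_of_continuousOn
    (hcont.inv₀ fun p hp => (hpos p hp).ne')
  refine ⟨1 + |N|, by positivity, ?_⟩
  intro x hx v
  by_cases hv : v = 0
  · subst hv
    simp [ev]
  have hs : 0 < ∑ i, v i ^ 2 := by
    obtain ⟨i, hi⟩ := Function.ne_iff.mp hv
    have h1 : v i ^ 2 ≤ ∑ j, v j ^ 2 :=
      Finset.single_le_sum (f := fun j => v j ^ 2) (fun j _ => sq_nonneg _) (Finset.mem_univ i)
    have h2 : 0 < v i ^ 2 := by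
      have : v i ≠ 0 := by simpa using hi
      positivity
    linarith
  set s : ℝ := Real.sqrt (∑ i, v i ^ 2) with hsdef
  have hsp : 0 < s := Real.sqrt_pos.mpr hs
  have hs2 : s ^ 2 = ∑ i, v i ^ 2 := Real.sq_sqrt hs.le
  have hw : (s⁻¹ • v) ∈ AFDaux.unitCov := by
    show ∑ i, (s⁻¹ • v) i ^ 2 = 1
    have : ∑ i, (s⁻¹ • v) i ^ 2 = (s⁻¹) ^ 2 * ∑ i, v i ^ 2 := by
      rw [Finset.mul_sum]
      refine Finset.sum_congr rfl fun i _ => ?_
      simp only [Pi.smul_apply, smul_eq_mul]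
      ring
    rw [this, ← hs2]
    field_simp
  have hmem : (x, s⁻¹ • v) ∈ K ×ˢ AFDaux.unitCov := ⟨hx, hw⟩
  have hev : ev (g x) v v = s ^ 2 * ev (g x) (s⁻¹ • v) (s⁻¹ • v) := by
    rw [AFDaux.ev_smul]
    field_simp
  have hp := hpos _ hmem
  have h2 := hN _ hmem
  simp only [Real.norm_eq_abs, Pi.inv_apply] at h2 hp
  set E : ℝ := ev (g x) (s⁻¹ • v) (s⁻¹ • v) with hE
  rw [← hs2, hev]
  rw [abs_of_pos (inv_pos.mpr hp)] at h2
  have h4 : 1 ≤ (1 + |N|) * E := by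
    have h5 : E⁻¹ ≤ 1 + |N| := by
      have := le_abs_self N
      linarith
    calc (1 : ℝ) = E⁻¹ * E := by field_simp
      _ ≤ (1 + |N|) * E := mul_le_mul_of_nonneg_right h5 hp.le
  nlinarith [sq_nonneg s]

theorem ev_le {B : Bil} {M : ℝ} (hB : ∀ i j, |B i j| ≤ M) (v : Cov) :
    ev B v v ≤ 3 * M * ∑ i, v i ^ 2 := by
  have hM : 0 ≤ M := (abs_nonneg _).trans (hB 0 0)
  have h1 : ev B v v ≤ ∑ i, ∑ j, M * (|v i| * |v j|) := by
    unfold ev
    refine Finset.sum_le_sum fun i _ => Finset.sum_le_sum fun j _ => ?_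
    refine (le_abs_self _).trans ?_
    rw [abs_mul, abs_mul, mul_assoc]
    exact mul_le_mul_of_nonneg_right (hB i j) (by positivity)
  refine h1.trans ?_
  simp only [Fin.sum_univ_three]
  have q0 := sq_abs (v 0)
  have q1 := sq_abs (v 1)
  have q2 := sq_abs (v 2)
  have k1 := mul_nonneg hM (sq_nonneg (|v 0| - |v 1|))
  have k2 := mul_nonneg hM (sq_nonneg (|v 0| - |v 2|))
  have k3 := mul_nonneg hM (sq_nonneg (|v 1| - |v 2|))
  rw [← q0, ← q1, ← q2]
  nlinarith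

theorem ev_conj (A B : Bil) (v : Cov) :
    ev (A.transpose * B * A) v v = ev B (A.mulVec v) (A.mulVec v) := by
  simp only [ev, Matrix.mul_apply, Matrix.transpose_apply, Matrix.mulVec, dotProduct,
    Fin.sum_univ_three]
  ring

theorem sum_sq_mulVec {x : E3} (hx : x ≠ 0) (v : Cov) :
    ∑ i, ((inversionJac x).mulVec v) i ^ 2 = (‖x‖ ^ 2)⁻¹ ^ 2 * ∑ i, v i ^ 2 := by
  have h1 : ∑ i, ((inversionJac x).mulVec v) i ^ 2 =
      ev 1 ((inversionJac x).mulVec v) ((inversionJac x).mulVec v) := by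
    simp only [ev, Fin.sum_univ_three, Matrix.one_apply]
    simp
    ring
  rw [h1, ← ev_conj, Matrix.mul_one, AFDaux.jac_transpose, AFDaux.jac_sq hx]
  simp only [ev, Fin.sum_univ_three, Matrix.one_apply, Matrix.smul_apply, smul_eq_mul]
  simp
  ring

/-- the bounds for the data on the compact annulus -/
structure Bds (g : TensorField) (M Λ : ℝ) : Prop where
  pos : 0 < M
  posL : 0 < Λ
  val : ∀ y : E3, 1 ≤ ‖y‖ → ‖y‖ ≤ 4 → ∀ i j, |g y i j| ≤ M
  der : ∀ y : E3, 1 ≤ ‖y‖ → ‖y‖ ≤ 4 → ∀ i j m, |pd m (fun z => g z i j) y| ≤ M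
  fd : ∀ y : E3, 1 ≤ ‖y‖ → ‖y‖ ≤ 4 → ∀ i j, ‖fderiv ℝ (fun z => g z i j) y‖ ≤ M
  ell : ∀ y : E3, 1 ≤ ‖y‖ → ‖y‖ ≤ 4 → ∀ v : Cov, (∑ i, v i ^ 2) ≤ Λ * ev (g y) v v

theorem exists_bds {g : TensorField} {δ₀ : ℝ} (hδ₀ : 0 < δ₀) (hg : MetricOn (Outside δ₀) g) :
    ∃ M Λ : ℝ, Bds g M Λ := by
  have hK := AFDaux.isCompact_cAnn 1 4
  have hKU : cAnn 1 4 ⊆ Outside δ₀ := fun y hy => mem_outside hδ₀ hy.1
  have hO := isOpen_outside δ₀
  have hfd : ∀ i j, ContDiffOn ℝ ∞ (fderiv ℝ (fun z => g z i j)) (Outside δ₀) := fun i j =>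
    (hg.smooth i j).fderiv_of_isOpen hO (by simp)
  obtain ⟨M0, hM0, b0⟩ := bdK (ι := Fin 3 × Fin 3) hK (fun p x => g x p.1 p.2)
    (fun p => (hg.smooth p.1 p.2).continuousOn.mono hKU)
  obtain ⟨M1, hM1, b1⟩ := bdK (ι := Fin 3 × Fin 3 × Fin 3) hK
    (fun p x => pd p.2.2 (fun z => g z p.1 p.2.1) x) (fun p => by
      have h : ContDiffOn ℝ ∞ (pd p.2.2 (fun z => g z p.1 p.2.1)) (Outside δ₀) := by
        unfold pd
        exact (hfd p.1 p.2.1).clm_apply contDiffOn_const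
      exact h.continuousOn.mono hKU)
  obtain ⟨M2, hM2, b2⟩ := bdK (ι := Fin 3 × Fin 3) hK
    (fun p x => ‖fderiv ℝ (fun z => g z p.1 p.2) x‖)
    (fun p => ((hfd p.1 p.2).continuousOn.mono hKU).norm)
  obtain ⟨Λ, hΛ, hell⟩ := ellK hK hKU hg
  refine ⟨M0 + M1 + M2, Λ, by positivity, hΛ, ?_, ?_, ?_, ?_⟩
  · intro y h1 h2 i j
    have := b0 (i, j) y ⟨h1, h2⟩
    simp only at this
    linarith
  · intro y h1 h2 i j m
    have := b1 (i, j, m) y ⟨h1, h2⟩
    simp only at this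
    linarith
  · intro y h1 h2 i j
    have := b2 (i, j) y ⟨h1, h2⟩
    simp only [abs_norm] at this
    linarith
  · intro y h1 h2 v
    exact hell y ⟨h1, h2⟩ v

section Fin

variable {g : TensorField} {δ₀ M Λ : ℝ}

theorem FF_le (hτ : 0 < τ) (P : Prof τ δ C₁) (B : Bds g M Λ) {x : E3} (h : 1 / 4 ≤ ‖x‖)
    (h4 : ‖x‖ ≤ 4) (i j : Fin 3) : |FF τ δ g x i j| ≤ 16 * M := by
  have hx : x ≠ 0 := norm_pos_iff.1 (by linarith)
  simp only [FF, Matrix.smul_apply, smul_eq_mul]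
  have e1 : |facX τ δ x| ≤ 4 := by
    rw [abs_of_pos (fac_pos hx)]
    exact fac_le_four hτ P h
  have e2 : |facX τ δ x ^ 2| ≤ 16 := by
    rw [pow_two]
    exact (mul_le e1 e1).trans (by norm_num)
  exact mul_le e2 (B.val _ (one_le_norm_fx hτ P hx) (norm_fx_le_four hτ P h h4) i j)

theorem FF_pd_le (hδ₀ : 0 < δ₀) (hg : MetricOn (Outside δ₀) g) (hτ : 0 < τ) (hτ1 : τ ≤ 1)
    (hC : 0 < C₁) (P : Prof τ δ C₁) (B : Bds g M Λ) {x : E3} (h : 1 / 4 ≤ ‖x‖)
    (h4 : ‖x‖ ≤ 4) (i j m : Fin 3) : |pd m (fun y => FF τ δ g y i j) x| ≤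
      512 * (1 + C₁) * M + 48 * M * (256 * (1 + C₁) + 4) := by
  have hx : x ≠ 0 := norm_pos_iff.1 (by linarith)
  have hy1 := one_le_norm_fx hτ P hx
  have hy4 := norm_fx_le_four hτ P h h4
  have h1 : (fun y => FF τ δ g y i j) = fun y => (facX τ δ y * facX τ δ y) *
      (fun z => g z i j) (facX τ δ y • y) := by
    funext y
    simp only [FF, Matrix.smul_apply, smul_eq_mul, pow_two]
  have dfac : DifferentiableAt ℝ (facX τ δ) x := (contDiffAt_fac P hx).differentiableAt (by simp)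
  have dfx : DifferentiableAt ℝ (fun y : E3 => facX τ δ y • y) x :=
    (contDiffAt_fx P hx).differentiableAt (by simp)
  have dg : DifferentiableAt ℝ (fun z => g z i j) (facX τ δ x • x) :=
    (contDiffAt_g hδ₀ hg.smooth hy1 i j).differentiableAt (by simp)
  have dc : DifferentiableAt ℝ (fun y : E3 => (fun z => g z i j) (facX τ δ y • y)) x :=
    DifferentiableAt.comp x (f := fun y : E3 => facX τ δ y • y) (g := fun z => g z i j) dg dfx
  have hfac : |facX τ δ x| ≤ 4 := by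
    rw [abs_of_pos (fac_pos hx)]
    exact fac_le_four hτ P h
  have hD := pd_fac_le hτ hτ1 hC P h h4 m
  rw [h1, pd_mul (dfac.fun_mul dfac) dc, pd_mul dfac dfac,
    PenroseConvex.COVC.pd_comp (f := fun z => g z i j) (Φ := fun y : E3 => facX τ δ y • y)
      dg dfx]
  have e1 : ∀ c, |PenroseConvex.jac (fun y : E3 => facX τ δ y • y) x c m| ≤
      256 * (1 + C₁) + 4 := by
    intro c
    have h2 : PenroseConvex.jac (fun y : E3 => facX τ δ y • y) x c m =
        pd m (fun y => facX τ δ y * y c) x := by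
      simp only [PenroseConvex.jac, Matrix.of_apply]
      rfl
    rw [h2, pd_mul dfac (differentiableAt_coord c), pd_coord]
    have h3 : |if m = c then (1 : ℝ) else 0| ≤ 1 := by split_ifs <;> norm_num
    have h5 : |x c| ≤ 4 := (abs_coord_le x c).trans h4
    first
      | exact (add_le (mul_le hD h5) (mul_le hfac h3)).trans (le_of_eq (by ring))
      | exact (add_le (mul_le hfac h3) (mul_le h5 hD)).trans (le_of_eq (by ring))
      | exact (add_le (mul_le hfac h3) (mul_le hD h5)).trans (le_of_eq (by ring))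
      | exact (add_le (mul_le hD h5) (mul_le h3 hfac)).trans (le_of_eq (by ring))
  have e2 := sum1_le fun c => mul_le (B.der _ hy1 hy4 i j c) (e1 c)
  have e3 := B.val _ hy1 hy4 i j
  have f1 := add_le (mul_le hfac hD) (mul_le hfac hD)
  have f2 := add_le (mul_le hD hfac) (mul_le hD hfac)
  have f3 := add_le (mul_le hD hfac) (mul_le hfac hD)
  have f4 := add_le (mul_le hfac hD) (mul_le hD hfac)
  have e5 := mul_le hfac hfac
  first
    | exact (add_le (mul_le f1 e3) (mul_le e5 e2)).trans (le_of_eq (by ring))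
    | exact (add_le (mul_le f2 e3) (mul_le e5 e2)).trans (le_of_eq (by ring))
    | exact (add_le (mul_le f3 e3) (mul_le e5 e2)).trans (le_of_eq (by ring))
    | exact (add_le (mul_le f4 e3) (mul_le e5 e2)).trans (le_of_eq (by ring))
    | exact (add_le (mul_le e5 e2) (mul_le e3 f1)).trans (le_of_eq (by ring))
    | exact (add_le (mul_le e5 e2) (mul_le e3 f2)).trans (le_of_eq (by ring))
    | exact (add_le (mul_le e5 e2) (mul_le e3 f3)).trans (le_of_eq (by ring))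
    | exact (add_le (mul_le e5 e2) (mul_le e3 f4)).trans (le_of_eq (by ring))

theorem FF_ell (hτ : 0 < τ) (hτ1 : τ ≤ 1 / 2) (P : Prof τ δ C₁) (B : Bds g M Λ) {x : E3}
    (h : 1 / 4 ≤ ‖x‖) (h4 : ‖x‖ ≤ 4) (v : Cov) :
    (∑ i, v i ^ 2) ≤ 4 * Λ * ev (FF τ δ g x) v v := by
  have hx : x ≠ 0 := norm_pos_iff.1 (by linarith)
  have h1 : ev (FF τ δ g x) v v = facX τ δ x ^ 2 * ev (g (facX τ δ x • x)) v v := by
    simp only [ev, FF, Matrix.smul_apply, smul_eq_mul, Fin.sum_univ_three]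
    ring
  have h2 := B.ell _ (one_le_norm_fx hτ P hx) (norm_fx_le_four hτ P h h4) v
  have h3 : 1 / 2 ≤ facX τ δ x := by
    have := fac_ge hτ P hx
    linarith
  have h5 : 1 / 4 ≤ facX τ δ x ^ 2 := by nlinarith
  have h6 : 0 ≤ Λ * ev (g (facX τ δ x • x)) v v :=
    (Finset.sum_nonneg fun i _ => sq_nonneg (v i)).trans h2
  rw [h1]
  nlinarith

theorem inv_le (hδ₀ : 0 < δ₀) (hg : MetricOn (Outside δ₀) g) (hτ : 0 < τ) (P : Prof τ δ C₁)
    {x : E3} (h : 1 / 4 ≤ ‖x‖) (h1 : ‖x‖ ≤ 1) {B0 B1 : ℝ}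
    (hB0 : ∀ a b, |FF τ δ g (inversion x) a b| ≤ B0)
    (hB1 : ∀ c a b, |pd c (fun y => FF τ δ g y a b) (inversion x)| ≤ B1) (i j : Fin 3) :
    |inverted (FF τ δ g) x i j| ≤ 20736 * B0 ∧
    ∀ m, |pd m (fun y => inverted (FF τ δ g) y i j) x| ≤ 774144 * B0 + 2985984 * B1 := by
  have hn : 0 < ‖x‖ := by linarith
  have hx : x ≠ 0 := norm_pos_iff.1 hn
  have hι : inversion x ≠ 0 := HSM2.inversion_ne x hx
  have hnu := nu_sq hx
  have i2 : |(‖x‖ ^ 2)⁻¹| ≤ 16 := by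
    rw [abs_of_pos (by positivity), inv_le_comm₀ (by positivity) (by norm_num)]
    nlinarith
  have i3 : |(‖x‖ ^ 3)⁻¹| ≤ 64 := by
    rw [abs_of_pos (by positivity), inv_le_comm₀ (by positivity) (by norm_num)]
    have : (1 / 4 : ℝ) ^ 3 ≤ ‖x‖ ^ 3 := pow_le_pow_left₀ (by norm_num) h 3
    linarith
  have s1 : ∀ a b, |Sr (nu x) a b / ‖x‖ ^ 2| ≤ 48 := fun a b => by
    rw [div_eq_mul_inv]
    exact (mul_le (Sr_le hnu a b) i2).trans (by norm_num)
  have s2 : ∀ k a b, |kp (nu x) k a b / ‖x‖ ^ 3| ≤ 896 := fun k a b => by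
    rw [div_eq_mul_inv]
    exact (mul_le (kp_le hnu k a b) i3).trans (by norm_num)
  constructor
  · rw [AFDaux.inverted_apply]
    have e : ∀ b, |(∑ a, inversionJac x a i * FF τ δ g (inversion x) a b) *
        inversionJac x b j| ≤ 3 * (48 * B0) * 48 := by
      intro b
      have q : ∀ a b, |inversionJac x a b| ≤ 48 := fun a b => by
        rw [jac_eq hx]
        exact s1 a b
      exact mul_le (sum1_le fun a => mul_le (q a i) (hB0 a b)) (q b j)
    exact (sum1_le e).trans (le_of_eq (by ring))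
  · intro m
    have hF := FF_metric hδ₀ hg hτ P
    have hI := AFDaux.inverted_metric hF
    have e0 : ∀ a b, |inverted (inverted (FF τ δ g)) (inversion x) a b| ≤ B0 := fun a b => by
      rw [inverted_inverted _ hι]
      exact hB0 a b
    have e1 : ∀ c a b, |pd c (fun y => inverted (inverted (FF τ δ g)) y a b) (inversion x)|
        ≤ B1 := fun c a b => by
      have : (fun y => inverted (inverted (FF τ δ g)) y a b) =ᶠ[𝓝 (inversion x)]
          fun y => FF τ δ g y a b := by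
        filter_upwards [isOpen_compl_singleton.mem_nhds hι] with y hy
        rw [inverted_inverted _ hy]
      rw [pd_congr this]
      exact hB1 c a b
    rw [pd_g hI hx]
    refine (sum1_le fun b => add_le
      (mul_le (sum1_le fun a => mul_le (s1 a i) (e0 a b)) (s2 m b j))
      (mul_le (s1 b j) (sum1_le fun a => add_le
        (mul_le (s1 a i) (sum1_le fun c => mul_le (e1 c a b) (s1 c m)))
        (mul_le (e0 a b) (s2 m a i))))).trans (le_of_eq ?_)
    ring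

theorem inv_ell {x : E3} (h : 1 / 4 ≤ ‖x‖) (h1 : ‖x‖ ≤ 1) {F : TensorField} {L : ℝ}
    (hL : ∀ w : Cov, (∑ i, w i ^ 2) ≤ L * ev (F (inversion x)) w w) (v : Cov) :
    (∑ i, v i ^ 2) ≤ L * ev (inverted F x) v v := by
  have hn : 0 < ‖x‖ := by linarith
  have hx : x ≠ 0 := norm_pos_iff.1 hn
  have e1 : ev (inverted F x) v v =
      ev (F (inversion x)) ((inversionJac x).mulVec v) ((inversionJac x).mulVec v) :=
    ev_conj _ _ v
  have e2 := hL ((inversionJac x).mulVec v)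
  rw [sum_sq_mulVec hx] at e2
  rw [e1]
  refine le_trans ?_ e2
  have h3 : 1 ≤ (‖x‖ ^ 2)⁻¹ := by
    rw [one_le_inv₀ (by positivity)]
    nlinarith
  have h4 : 1 ≤ (‖x‖ ^ 2)⁻¹ ^ 2 := by nlinarith
  have h5 : 0 ≤ ∑ i, v i ^ 2 := Finset.sum_nonneg fun i _ => sq_nonneg (v i)
  nlinarith

theorem FF_close (hδ₀ : 0 < δ₀) (hg : MetricOn (Outside δ₀) g) (hτ : 0 < τ)
    (P : Prof τ δ C₁) (B : Bds g M Λ) {x : E3} (h : 1 ≤ ‖x‖) (h4 : ‖x‖ ≤ 4) (i j : Fin 3) :
    |FF τ δ g x i j - g x i j| ≤ 6 * M * τ := by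
  have hn : 0 < ‖x‖ := by linarith
  have hx : x ≠ 0 := norm_pos_iff.1 hn
  have hy1 := one_le_norm_fx hτ P hx
  have hf0 := fac_pos (τ := τ) (δ := δ) hx
  have hf1 := fac_le_one P h
  have hf2 := fac_ge hτ P hx
  have hny : ‖facX τ δ x • x‖ = facX τ δ x * ‖x‖ := by
    rw [norm_smul, Real.norm_of_nonneg hf0.le]
  have hseg : ∀ z ∈ segment ℝ (facX τ δ x • x) x, 1 ≤ ‖z‖ ∧ ‖z‖ ≤ 4 := by
    rintro z ⟨a, b, ha, hb, hab, rfl⟩
    have h1 : a • facX τ δ x • x + b • x = (a * facX τ δ x + b) • x := by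
      rw [smul_smul, ← add_smul]
    have h2 : 0 ≤ a * facX τ δ x + b := by positivity
    rw [h1, norm_smul, Real.norm_of_nonneg h2]
    have h3 : facX τ δ x ≤ a * facX τ δ x + b := by nlinarith
    have h5 : a * facX τ δ x + b ≤ 1 := by nlinarith
    rw [hny] at hy1
    constructor
    · nlinarith
    · nlinarith
  have key := Convex.norm_image_sub_le_of_norm_fderiv_le (𝕜 := ℝ)
    (f := fun z => g z i j) (C := M) (s := segment ℝ (facX τ δ x • x) x)
    (x := facX τ δ x • x) (y := x)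
    (fun z hz => (contDiffAt_g hδ₀ hg.smooth (hseg z hz).1 i j).differentiableAt (by simp))
    (fun z hz => B.fd z (hseg z hz).1 (hseg z hz).2 i j) (convex_segment _ _)
    (left_mem_segment ℝ _ _) (right_mem_segment ℝ _ _)
  have hd : ‖x - facX τ δ x • x‖ = (1 - facX τ δ x) * ‖x‖ := by
    have : x - facX τ δ x • x = (1 - facX τ δ x) • x := by rw [sub_smul, one_smul]
    rw [this, norm_smul, Real.norm_of_nonneg (by linarith)]
  rw [hd, Real.norm_eq_abs] at key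
  have hv := B.val _ hy1 (norm_fx_le_four hτ P (by linarith) h4) i j
  simp only [FF, Matrix.smul_apply, smul_eq_mul]
  have e1 : facX τ δ x ^ 2 * g (facX τ δ x • x) i j - g x i j =
      -((1 - facX τ δ x) * (1 + facX τ δ x) * g (facX τ δ x • x) i j) -
        (g x i j - g (facX τ δ x • x) i j) := by ring
  have e2 : |(1 - facX τ δ x) * (1 + facX τ δ x) * g (facX τ δ x • x) i j| ≤ τ * 2 * M := by
    refine mul_le (mul_le ?_ ?_) hv
    · rw [abs_of_nonneg (by linarith)]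
      linarith
    · rw [abs_of_nonneg (by linarith)]
      linarith
  have e3 : M * ((1 - facX τ δ x) * ‖x‖) ≤ M * (τ * 4) := by
    refine mul_le_mul_of_nonneg_left ?_ B.pos.le
    exact mul_le_mul (by linarith) h4 hn.le hτ.le
  rw [e1]
  refine (sub_le (A := τ * 2 * M) (B := M * (τ * 4)) (by rwa [abs_neg]) (key.trans e3)).trans
    (le_of_eq ?_)
  ring

end Fin

end XCOLGm

open XCOLGm BARBm in
/-- XCOLG: the collar metric. -/
theorem XCOLG (hXPHI : Stmt_XPHI) : Stmt_XCOLG := by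
  intro g δ₀ δ hδ₀ hδ hδ2 hexp hg hsh
  obtain ⟨C₁, hC₁, hphi⟩ := hXPHI δ hδ hδ2
  obtain ⟨M, Λ, B⟩ := exists_bds hδ₀ hg
  have hM := B.pos
  have hΛ := B.posL
  set B0 : ℝ := 16 * M with hB0
  set B1 : ℝ := 512 * (1 + C₁) * M + 48 * M * (256 * (1 + C₁) + 4) with hB1
  have hB0p : 0 < B0 := by positivity
  have hB1p : 0 < B1 := by positivity
  set N : ℝ := 20736 * B0 + (774144 * B0 + 2985984 * B1) with hN
  have hNp : 0 < N := by positivity
  refine ⟨3 * N + 4 * Λ, by positivity, ?_⟩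
  intro τ hτ hτδ
  obtain ⟨p1, p2, p3, p4, p5, -, -⟩ := hphi τ hτ hτδ
  have P : Prof τ δ C₁ := ⟨p1, p2, p3, p4, p5⟩
  have hτ1 : τ ≤ 1 / 8 := by linarith
  refine ⟨col_metric hδ₀ hg hτ hsh P, fun x hx => col_inverted hδ₀ hg hτ hsh P hx, ?_, ?_, ?_⟩
  · intro x hx
    have h1 : 1 ≤ ‖x‖ := (Real.one_le_exp hδ.le).trans hx
    rw [col_ge h1]
    unfold FF
    rw [fac_far P hx, one_pow, one_smul, one_smul]
  · intro x h1 h4 i j
    rw [col_ge h1]
    refine (FF_close hδ₀ hg hτ P B h1 h4 i j).trans ?_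
    refine mul_le_mul_of_nonneg_right ?_ hτ.le
    rw [hN, hB0]
    linarith
  · intro x hx h4
    have hn : 0 < ‖x‖ := by linarith
    have hx0 : x ≠ 0 := norm_pos_iff.1 hn
    -- the bounds by N
    have key : (∀ i j, |colG τ δ g x i j| ≤ N ∧
        ∀ m, |pd m (fun y => colG τ δ g y i j) x| ≤ N) ∧
        ∀ v : Cov, (∑ i, v i ^ 2) ≤ 4 * Λ * ev (colG τ δ g x) v v := by
      rcases le_or_gt 1 ‖x‖ with h | h
      · refine ⟨fun i j => ⟨?_, fun m => ?_⟩, fun v => ?_⟩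
        · rw [col_ge h]
          refine (FF_le hτ P B hx h4 i j).trans ?_
          rw [hN]
          linarith
        · have he : (fun y => colG τ δ g y i j) =ᶠ[𝓝 x] fun y => FF τ δ g y i j := by
            filter_upwards [col_ev_ge hδ₀ hg hτ hsh P h] with y hy
            rw [hy]
          rw [pd_congr he]
          refine (FF_pd_le hδ₀ hg hτ (by linarith) hC₁ P B hx h4 i j m).trans ?_
          rw [hN]
          linarith
        · rw [col_ge h]
          exact FF_ell hτ (by linarith) P B hx h4 v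
      · have hιn : ‖inversion x‖ = ‖x‖⁻¹ := HSM2.norm_inversion x hx0
        have hι1 : 1 ≤ ‖inversion x‖ := by
          rw [hιn]
          exact (one_le_inv₀ hn).2 h.le
        have hι4 : ‖inversion x‖ ≤ 4 := by
          rw [hιn, inv_le_comm₀ hn (by norm_num)]
          linarith
        have hb := fun i j => inv_le hδ₀ hg hτ P hx h.le (B0 := B0) (B1 := B1)
          (fun a b => FF_le hτ P B (by linarith) hι4 a b)
          (fun c a b => FF_pd_le hδ₀ hg hτ (by linarith) hC₁ P B (by linarith) hι4 a b c) i j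
        refine ⟨fun i j => ⟨?_, fun m => ?_⟩, fun v => ?_⟩
        · rw [col_lt h]
          refine (hb i j).1.trans ?_
          rw [hN]
          linarith
        · have he : (fun y => colG τ δ g y i j) =ᶠ[𝓝 x]
              fun y => inverted (FF τ δ g) y i j := by
            filter_upwards [col_ev_lt (τ := τ) (δ := δ) (g := g) h] with y hy
            rw [hy]
          rw [pd_congr he]
          refine ((hb i j).2 m).trans ?_
          rw [hN]
          linarith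
        · rw [col_lt h]
          exact inv_ell hx h.le (fun w => FF_ell hτ (by linarith) P B (by linarith) hι4 w) v
    obtain ⟨k1, k2⟩ := key
    refine ⟨fun i j => ⟨(k1 i j).1.trans (by linarith), fun m => ((k1 i j).2 m).trans
      (by linarith)⟩, fun v => ⟨?_, ?_⟩⟩
    · have e1 := k2 v
      have e2 : 0 ≤ ∑ i, v i ^ 2 := Finset.sum_nonneg fun i _ => sq_nonneg (v i)
      have e3 : 0 ≤ ev (colG τ δ g x) v v := by
        have h6 : 0 ≤ 4 * Λ * ev (colG τ δ g x) v v := e2.trans e1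
        by_contra hneg
        push Not at hneg
        nlinarith
      nlinarith
    · have e2 : 0 ≤ ∑ i, v i ^ 2 := Finset.sum_nonneg fun i _ => sq_nonneg (v i)
      refine (ev_le (fun i j => (k1 i j).1) v).trans ?_
      refine mul_le_mul_of_nonneg_right ?_ e2
      linarith

end Pool.Agent.PFlow
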