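import Pool.Agent.PFlow.StmtsX2

/-!
# The limit `τ → 0`, `ε → 0`
-/

set_option autoImplicit false

open MeasureTheory Filter Topology
open scoped ContDiff ENNReal

namespace Pool.Agent.PFlow

open Pool.Agent.PenroseSph

namespace XLIMm

/-- The right hand side with `τ = ε`. -/
noncomputable def F (m V D ε : ℝ) : ℝ :=
  ((4 * Real.pi * (2 - ε) ^ 2 + ε) * ((4 * Real.pi * (2 - ε) - ε) / (8 * Real.pi * m)) ^ (-(2 - ε))
    * D) ^ (1 / (1 + ε)) * V ^ (ε / (1 + ε))

theorem F_tendsto {m V D : ℝ} (hm : 0 < m) (hV : 0 < V) :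
    Tendsto (F m V D) (𝓝[>] 0) (𝓝 (16 * Real.pi * m ^ 2 * D)) := by
  have hpi := Real.pi_pos
  have hc : ContinuousAt (F m V D) 0 := by
    unfold F
    have e1 : ContinuousAt (fun ε : ℝ => 1 / (1 + ε)) 0 :=
      ContinuousAt.div continuousAt_const (by fun_prop) (by norm_num)
    have e2 : ContinuousAt (fun ε : ℝ => ε / (1 + ε)) 0 :=
      ContinuousAt.div continuousAt_id (by fun_prop) (by norm_num)
    have e3 : ContinuousAt (fun ε : ℝ => ((4 * Real.pi * (2 - ε) - ε) / (8 * Real.pi * m))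
        ^ (-(2 - ε))) 0 := by
      refine ContinuousAt.rpow (by fun_prop) (by fun_prop) (Or.inl ?_)
      have : 0 < (4 * Real.pi * (2 - 0) - 0) / (8 * Real.pi * m) := by
        apply div_pos <;> [(ring_nf; positivity); positivity]
      exact this.ne'
    have e4 : ContinuousAt (fun ε : ℝ => (4 * Real.pi * (2 - ε) ^ 2 + ε)
        * ((4 * Real.pi * (2 - ε) - ε) / (8 * Real.pi * m)) ^ (-(2 - ε)) * D) 0 :=
      ((by fun_prop : ContinuousAt (fun ε : ℝ => 4 * Real.pi * (2 - ε) ^ 2 + ε) 0).mul e3).mul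
        continuousAt_const
    refine (ContinuousAt.rpow e4 e1 (Or.inr (by norm_num))).mul
      (ContinuousAt.rpow continuousAt_const e2 (Or.inl hV.ne'))
  have hv : F m V D 0 = 16 * Real.pi * m ^ 2 * D := by
    unfold F
    have h1 : (4 * Real.pi * (2 - 0) - 0) / (8 * Real.pi * m) = m⁻¹ := by
      field_simp
      ring
    rw [h1]
    have h2 : (m⁻¹ : ℝ) ^ (-(2 - 0 : ℝ)) = m ^ 2 := by
      rw [sub_zero, Real.rpow_neg (by positivity), Real.rpow_two, inv_pow, inv_inv]
    rw [h2, add_zero, add_zero, zero_div, Real.rpow_zero, mul_one, div_one, Real.rpow_one,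
      sub_zero]
    ring
  rw [← hv]
  exact hc.tendsto.mono_left nhdsWithin_le_nhds

theorem F1_tendsto {m V D : ℝ} (hm : 0 < m) (hV : 0 < V) :
    Tendsto (fun ε : ℝ => (1 + ε) * F m V D ε) (𝓝[>] 0) (𝓝 (16 * Real.pi * m ^ 2 * D)) := by
  have h1 : Tendsto (fun ε : ℝ => 1 + ε) (𝓝[>] 0) (𝓝 1) := by
    have h2 : ContinuousAt (fun ε : ℝ => 1 + ε) 0 := by fun_prop
    have h3 := h2.tendsto.mono_left (nhdsWithin_le_nhds (s := Set.Ioi 0))
    rwa [add_zero] at h3
  have h4 := h1.mul (F_tendsto (D := D) hm hV)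
  rwa [one_mul] at h4

end XLIMm

open XLIMm in
theorem XLIM : Stmt_XLIM := by
  intro g m V hV H
  have hpi := Real.pi_pos
  have hpi3 := Real.pi_gt_three
  have hm : 0 < m := by
    obtain ⟨lm, J, h1, h2, h3, _⟩ := H (1 / 2) 1 (by norm_num) le_rfl one_pos
    by_contra hneg
    have h4 : 8 * Real.pi * m * lm ≤ 0 := by
      have : 8 * Real.pi * m ≤ 0 := mul_nonpos_of_nonneg_of_nonpos (by positivity) (not_lt.mp hneg)
      exact mul_nonpos_of_nonpos_of_nonneg this h1.le
    nlinarith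
  -- the inequality for two levels
  have key : ∀ A s₀ s₁ : ℝ, 0 < s₀ → s₀ < s₁ → s₁ ≤ 1 →
      (∀ U : Set E3, Encloses U → ENNReal.ofReal A ≤ perimeterX g U) →
      A * (s₁ - s₀) ≤ 16 * Real.pi * m ^ 2 * (Real.exp s₁ - Real.exp s₀) := by
    intro A s₀ s₁ h0 h1 h2 hA
    have hD : 0 < Real.exp s₁ - Real.exp s₀ := sub_pos.mpr (Real.exp_lt_exp.mpr h1)
    refine ge_of_tendsto (F1_tendsto hm hV) ?_
    have hev : ∀ᶠ ε : ℝ in 𝓝[>] 0, ε < min s₀ (1 / 2) :=
      nhdsWithin_le_nhds (eventually_lt_nhds (lt_min h0 (by norm_num)))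
    filter_upwards [hev, self_mem_nhdsWithin] with ε hε1 hε0
    have hε0' : 0 < ε := hε0
    have hεs : ε < s₀ := hε1.trans_le (min_le_left _ _)
    have hεh : ε < 1 / 2 := hε1.trans_le (min_le_right _ _)
    obtain ⟨lm, J, g1, g2, g3, g4, g5⟩ := H ε ε hε0' hεh.le hε0'
    refine (g5 s₀ s₁ A hεs.le h1 h2 hA).trans ?_
    refine mul_le_mul_of_nonneg_left ?_ (by linarith)
    unfold F
    have hL : 0 < (4 * Real.pi * (2 - ε) - ε) / (8 * Real.pi * m) := by
      apply div_pos _ (by positivity)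
      nlinarith
    have hLl : (4 * Real.pi * (2 - ε) - ε) / (8 * Real.pi * m) ≤ lm := by
      rw [div_le_iff₀ (by positivity)]
      linarith
    have hJ : J ≤ (4 * Real.pi * (2 - ε) ^ 2 + ε)
        * ((4 * Real.pi * (2 - ε) - ε) / (8 * Real.pi * m)) ^ (-(2 - ε)) := by
      have h5 : J ≤ (4 * Real.pi * (2 - ε) ^ 2 + ε) * lm ^ (-(2 - ε)) := by
        rw [Real.rpow_neg g1.le, ← div_eq_mul_inv, le_div_iff₀ (Real.rpow_pos_of_pos g1 _)]
        exact g4
      refine h5.trans (mul_le_mul_of_nonneg_left ?_ (by positivity))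
      exact Real.rpow_le_rpow_of_nonpos hL hLl (by linarith)
    refine mul_le_mul_of_nonneg_right ?_ (Real.rpow_nonneg hV.le _)
    refine Real.rpow_le_rpow (mul_nonneg g2 hD.le) ?_ (by positivity)
    exact mul_le_mul_of_nonneg_right hJ hD.le
  have main : ∀ A : ℝ, (∀ U : Set E3, Encloses U → ENNReal.ofReal A ≤ perimeterX g U) →
      A ≤ 16 * Real.pi * m ^ 2 := by
    intro A hA
    have h1 : ∀ s : ℝ, 0 < s → s ≤ 1 / 2 → A ≤ 16 * Real.pi * m ^ 2 * Real.exp (2 * s) := by
      intro s hs hs2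
      have h2 := key A s (2 * s) hs (by linarith) (by linarith) hA
      have h3 : Real.exp (2 * s) - Real.exp s ≤ s * Real.exp (2 * s) := by
        have h4 : Real.exp s = Real.exp (2 * s) * Real.exp (-s) := by
          rw [← Real.exp_add]
          congr 1
          ring
        have h5 : 1 - s ≤ Real.exp (-s) := by
          have := Real.add_one_le_exp (-s)
          linarith
        have h6 : Real.exp (2 * s) * (1 - s) ≤ Real.exp (2 * s) * Real.exp (-s) :=
          mul_le_mul_of_nonneg_left h5 (Real.exp_pos _).le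
        rw [h4]
        linarith
      have h7 : A * s ≤ (16 * Real.pi * m ^ 2 * Real.exp (2 * s)) * s := by
        have h8 : 16 * Real.pi * m ^ 2 * (Real.exp (2 * s) - Real.exp s)
            ≤ 16 * Real.pi * m ^ 2 * (s * Real.exp (2 * s)) :=
          mul_le_mul_of_nonneg_left h3 (by positivity)
        have h9 : 2 * s - s = s := by ring
        rw [h9] at h2
        linarith
      exact le_of_mul_le_mul_right h7 hs
    have h2 : Tendsto (fun s : ℝ => 16 * Real.pi * m ^ 2 * Real.exp (2 * s)) (𝓝[>] 0)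
        (𝓝 (16 * Real.pi * m ^ 2 * Real.exp (2 * 0))) := by
      have : Continuous fun s : ℝ => 16 * Real.pi * m ^ 2 * Real.exp (2 * s) := by fun_prop
      exact this.continuousAt.tendsto.mono_left nhdsWithin_le_nhds
    rw [mul_zero, Real.exp_zero, mul_one] at h2
    refine ge_of_tendsto h2 ?_
    have hev : ∀ᶠ s : ℝ in 𝓝[>] 0, s < 1 / 2 :=
      nhdsWithin_le_nhds (eventually_lt_nhds (by norm_num))
    filter_upwards [hev, self_mem_nhdsWithin] with s hs1 hs0
    exact h1 s hs0 hs1.le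
  have hne : minAreaX g ≠ ⊤ := by
    intro htop
    have h1 : ∀ U : Set E3, Encloses U →
        ENNReal.ofReal (16 * Real.pi * m ^ 2 + 1) ≤ perimeterX g U := by
      intro U hU
      have h2 : minAreaX g ≤ perimeterX g U := iInf₂_le U hU
      rw [htop, top_le_iff] at h2
      rw [h2]
      exact le_top
    have := main _ h1
    linarith
  refine ⟨hne, ?_⟩
  have h1 : (minAreaX g).toReal ≤ 16 * Real.pi * m ^ 2 := by
    refine main _ fun U hU => ?_
    rw [ENNReal.ofReal_toReal hne]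
    exact iInf₂_le U hU
  have h2 : (minAreaX g).toReal / (16 * Real.pi) ≤ m ^ 2 := by
    rw [div_le_iff₀ (by positivity)]
    linarith
  calc Real.sqrt ((minAreaX g).toReal / (16 * Real.pi)) ≤ Real.sqrt (m ^ 2) := Real.sqrt_le_sqrt h2
    _ = m := Real.sqrt_sq hm.le

end Pool.Agent.PFlow
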