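import Pool.Agent.PFlow.StmtsX4
import Pool.Agent.PFlow.E.LIMK2

/-!
# XMA: the area densities of two metrics which are close
-/

open MeasureTheory Filter Topology
open scoped ContDiff Matrix

namespace Pool.Agent.PFlow

open Pool.Agent.PenroseSph

namespace XXMA

/-- Entries of the inverse of an elliptic matrix. -/
theorem inv_le {A : Bil} (hA : A.PosDef) {L : ℝ} (hL : 0 < L)
    (he : ∀ v : Cov, (∑ i, v i ^ 2) ≤ L * ev A v v) (i j : Fin 3) : |A⁻¹ i j| ≤ L := by
  have hdet : IsUnit A.det := hA.det_pos.ne'.isUnit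
  have hmul : A * A⁻¹ = 1 := Matrix.mul_nonsing_inv A hdet
  have hmi : ∀ a b : Fin 3, ∑ k, A a k * A⁻¹ k b = if a = b then 1 else 0 := by
    intro a b
    have h := congrFun (congrFun hmul a) b
    rw [Matrix.mul_apply, Matrix.one_apply] at h
    exact h
  have h1 := he fun i => A⁻¹ i j
  have h2 : ev A (fun i => A⁻¹ i j) (fun i => A⁻¹ i j) = A⁻¹ j j := by
    unfold ev
    have h3 : ∀ i, ∑ k, A i k * A⁻¹ i j * A⁻¹ k j = A⁻¹ i j * if i = j then 1 else 0 := by
      intro i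
      rw [← hmi i j, Finset.mul_sum]
      refine Finset.sum_congr rfl fun k _ => ?_
      ring
    simp only [h3]
    simp
  rw [h2] at h1
  have h4 : ∀ i, A⁻¹ i j ^ 2 ≤ ∑ i, A⁻¹ i j ^ 2 := fun i =>
    Finset.single_le_sum (f := fun i => A⁻¹ i j ^ 2) (fun i _ => sq_nonneg _)
      (Finset.mem_univ i)
  have h5 : A⁻¹ j j ≤ L := by
    by_contra hcon
    push Not at hcon
    have h6 := (h4 j).trans h1
    nlinarith
  have h7 : A⁻¹ i j ^ 2 ≤ L ^ 2 := by
    have := (h4 i).trans h1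
    nlinarith
  exact abs_le_of_sq_le_sq h7 hL.le

theorem det_bound {B : Bil} {L : ℝ} (h : ∀ i j, |B i j| ≤ L) : B.det ≤ 6 * L ^ 3 := by
  have hL : 0 ≤ L := (abs_nonneg _).trans (h 0 0)
  have key : ∀ i j k l m n : Fin 3, |B i j * B k l * B m n| ≤ L ^ 3 := by
    intro i j k l m n
    rw [abs_mul, abs_mul]
    calc |B i j| * |B k l| * |B m n| ≤ L * L * L := by
          gcongr
          · exact h i j
          · exact h k l
          · exact h m n
      _ = L ^ 3 := by ring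
  rw [Matrix.det_fin_three]
  have k1 := (abs_le.1 (key 0 0 1 1 2 2)).2
  have k2 := (abs_le.1 (key 0 0 1 2 2 1)).1
  have k3 := (abs_le.1 (key 0 1 1 0 2 2)).1
  have k4 := (abs_le.1 (key 0 1 1 2 2 0)).2
  have k5 := (abs_le.1 (key 0 2 1 0 2 1)).2
  have k6 := (abs_le.1 (key 0 2 1 1 2 0)).1
  linarith

/-- the determinant of an elliptic matrix -/
theorem det_lower {A : Bil} (hA : A.PosDef) {L : ℝ} (hL : 0 < L)
    (he : ∀ v : Cov, (∑ i, v i ^ 2) ≤ L * ev A v v) : 1 ≤ 6 * L ^ 3 * A.det := by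
  have h1 := det_bound (inv_le hA hL he)
  have hd := hA.det_pos
  have hdi : A⁻¹.det * A.det = 1 := by
    rw [← Matrix.det_mul, Matrix.nonsing_inv_mul _ hd.ne'.isUnit, Matrix.det_one]
  calc (1 : ℝ) = A⁻¹.det * A.det := hdi.symm
    _ ≤ 6 * L ^ 3 * A.det := mul_le_mul_of_nonneg_right h1 hd.le

/-- the square of the area density -/
theorem dens_sq {g : TensorField} {x : E3} (hg : (g x).PosDef) (p : Cov) :
    (len g x p * volDen g x) ^ 2 = ev (g x).adjugate p p := by
  have hd := hg.det_pos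
  have h0 : 0 ≤ ev (g x)⁻¹ p p := by
    obtain ⟨Q, hQ⟩ := LK.factor hg.inv.posSemidef
    rw [LK.ev_factor hQ]
    exact Finset.sum_nonneg fun m _ => mul_self_nonneg _
  unfold len volDen
  rw [mul_pow, Real.sq_sqrt h0, Real.sq_sqrt hd.le]
  have hinv : ∀ i j, (g x).adjugate i j = (g x).det * (g x)⁻¹ i j := by
    intro i j
    rw [Matrix.inv_def, Ring.inverse_eq_inv, Matrix.smul_apply, smul_eq_mul, ← mul_assoc,
      mul_inv_cancel₀ hd.ne', one_mul]
  unfold ev
  simp only [hinv, Fin.sum_univ_three]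
  ring

theorem prod_diff {L d a b a' b' : ℝ} (ha : |a| ≤ L) (hb' : |b'| ≤ L) (h1 : |a' - a| ≤ d)
    (h2 : |b' - b| ≤ d) : |a * b - a' * b'| ≤ 2 * L * d := by
  have hL : 0 ≤ L := (abs_nonneg _).trans ha
  have hd : 0 ≤ d := (abs_nonneg _).trans h1
  have e : a * b - a' * b' = -(a * (b' - b)) - (a' - a) * b' := by ring
  rw [e]
  calc |-(a * (b' - b)) - (a' - a) * b'| ≤ |-(a * (b' - b))| + |(a' - a) * b'| := abs_sub _ _
    _ = |a| * |b' - b| + |a' - a| * |b'| := by rw [abs_neg, abs_mul, abs_mul]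
    _ ≤ L * d + d * L := by gcongr
    _ = 2 * L * d := by ring

theorem adj_diff {A B : Bil} {L d : ℝ} (hA : ∀ i j, |A i j| ≤ L) (hB : ∀ i j, |B i j| ≤ L)
    (h : ∀ i j, |B i j - A i j| ≤ d) (i j : Fin 3) :
    |A.adjugate i j - B.adjugate i j| ≤ 4 * L * d := by
  have key : ∀ i j k l m n r s : Fin 3, |(A i j * A k l - A m n * A r s) -
      (B i j * B k l - B m n * B r s)| ≤ 4 * L * d := by
    intro i j k l m n r s
    have h1 := prod_diff (hA i j) (hB k l) (h i j) (h k l)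
    have h2 := prod_diff (hA m n) (hB r s) (h m n) (h r s)
    have e : (A i j * A k l - A m n * A r s) - (B i j * B k l - B m n * B r s)
        = (A i j * A k l - B i j * B k l) - (A m n * A r s - B m n * B r s) := by ring
    rw [e]
    refine (abs_sub _ _).trans ?_
    linarith
  have key' : ∀ i j k l m n r s : Fin 3, |(-(A i j * A k l) + A m n * A r s) -
      (-(B i j * B k l) + B m n * B r s)| ≤ 4 * L * d := by
    intro i j k l m n r s
    have h1 := key m n r s i j k l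
    have e : (-(A i j * A k l) + A m n * A r s) - (-(B i j * B k l) + B m n * B r s)
        = (A m n * A r s - A i j * A k l) - (B m n * B r s - B i j * B k l) := by ring
    rw [e]
    exact h1
  rw [Matrix.adjugate_fin_three, Matrix.adjugate_fin_three]
  fin_cases i <;> fin_cases j
  · exact key 1 1 2 2 1 2 2 1
  · exact key' 0 1 2 2 0 2 2 1
  · exact key 0 1 1 2 0 2 1 1
  · exact key' 1 0 2 2 1 2 2 0
  · exact key 0 0 2 2 0 2 2 0
  · exact key' 0 0 1 2 0 2 1 0
  · exact key 1 0 2 1 1 1 2 0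
  · exact key' 0 0 2 1 0 1 2 0
  · exact key 0 0 1 1 0 1 1 0

theorem ev_diff {P Q : Bil} {c : ℝ} (h : ∀ i j, |P i j - Q i j| ≤ c) (p : Cov) :
    ev P p p ≤ ev Q p p + 3 * c * ∑ i, p i ^ 2 := by
  have hc : 0 ≤ c := (abs_nonneg _).trans (h 0 0)
  have h1 : ∀ i j, P i j * p i * p j ≤ Q i j * p i * p j + c * ((p i ^ 2 + p j ^ 2) / 2) := by
    intro i j
    have h2 : (P i j - Q i j) * (p i * p j) ≤ c * ((p i ^ 2 + p j ^ 2) / 2) := by
      have h3 : |p i * p j| ≤ (p i ^ 2 + p j ^ 2) / 2 := by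
        rw [abs_mul]
        nlinarith [sq_nonneg (|p i| - |p j|), sq_abs (p i), sq_abs (p j)]
      calc (P i j - Q i j) * (p i * p j) ≤ |(P i j - Q i j) * (p i * p j)| := le_abs_self _
        _ = |P i j - Q i j| * |p i * p j| := abs_mul _ _
        _ ≤ c * ((p i ^ 2 + p j ^ 2) / 2) := mul_le_mul (h i j) h3 (abs_nonneg _) hc
    nlinarith
  have h4 : ev P p p ≤ ∑ i, ∑ j, (Q i j * p i * p j + c * ((p i ^ 2 + p j ^ 2) / 2)) :=
    Finset.sum_le_sum fun i _ => Finset.sum_le_sum fun j _ => h1 i j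
  refine h4.trans (le_of_eq ?_)
  unfold ev
  simp only [Fin.sum_univ_three]
  ring

end XXMA

open XXMA in
/-- **(XMA)** -/
theorem XMA : Stmt_XMA := by
  intro L hL
  refine ⟨72 * L ^ 6 + 1, by positivity, ?_⟩
  intro g g' x τ hτ hg hg' hell hb p
  set A : Bil := g x with hA
  set B : Bil := g' x with hB
  have hS : 0 ≤ ∑ i, p i ^ 2 := Finset.sum_nonneg fun _ _ => sq_nonneg _
  -- the lower bound
  have hlow : ∑ i, p i ^ 2 ≤ 6 * L ^ 4 * ev B.adjugate p p := by
    have h1 := LK.ev_lower hg' (fun v => (hell v).2) p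
    have h2 := det_lower hg' hL (fun v => (hell v).1)
    have h3 : ev B.adjugate p p = B.det * ev B⁻¹ p p := by
      rw [← dens_sq hg' p]
      unfold len volDen
      have h0 : 0 ≤ ev (g' x)⁻¹ p p := by
        obtain ⟨Q, hQ⟩ := LK.factor hg'.inv.posSemidef
        rw [LK.ev_factor hQ]
        exact Finset.sum_nonneg fun m _ => mul_self_nonneg _
      rw [mul_pow, Real.sq_sqrt h0, Real.sq_sqrt hg'.det_pos.le, mul_comm]
    have h0 : 0 ≤ ev B⁻¹ p p := by
      obtain ⟨Q, hQ⟩ := LK.factor hg'.inv.posSemidef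
      rw [LK.ev_factor hQ]
      exact Finset.sum_nonneg fun m _ => mul_self_nonneg _
    rw [h3]
    calc ∑ i, p i ^ 2 ≤ L * ev B⁻¹ p p := h1
      _ = 1 * (L * ev B⁻¹ p p) := (one_mul _).symm
      _ ≤ (6 * L ^ 3 * B.det) * (L * ev B⁻¹ p p) :=
          mul_le_mul_of_nonneg_right h2 (mul_nonneg hL.le h0)
      _ = 6 * L ^ 4 * (B.det * ev B⁻¹ p p) := by ring
  have hadj : ∀ i j, |A.adjugate i j - B.adjugate i j| ≤ 4 * L * (L * τ) :=
    adj_diff (fun i j => (hb i j).1) (fun i j => (hb i j).2.1) (fun i j => (hb i j).2.2)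
  have hev := ev_diff hadj p
  have hnn : 0 ≤ ev B.adjugate p p := by
    rw [← dens_sq hg' p]
    exact sq_nonneg _
  set C : ℝ := 72 * L ^ 6 + 1 with hC
  have hC0 : 0 < C := by positivity
  have hCτ : 0 ≤ C * τ := mul_nonneg hC0.le hτ
  have hfin : ev A.adjugate p p ≤ (1 + C * τ) * ev B.adjugate p p := by
    have h5 : 3 * (4 * L * (L * τ)) * ∑ i, p i ^ 2 ≤
        3 * (4 * L * (L * τ)) * (6 * L ^ 4 * ev B.adjugate p p) :=
      mul_le_mul_of_nonneg_left hlow (by positivity)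
    have h6 : 3 * (4 * L * (L * τ)) * (6 * L ^ 4 * ev B.adjugate p p) =
        72 * L ^ 6 * τ * ev B.adjugate p p := by ring
    have h7 : 0 ≤ τ * ev B.adjugate p p := mul_nonneg hτ hnn
    calc ev A.adjugate p p ≤ ev B.adjugate p p + 72 * L ^ 6 * τ * ev B.adjugate p p := by
          linarith
      _ ≤ ev B.adjugate p p + 72 * L ^ 6 * τ * ev B.adjugate p p + τ * ev B.adjugate p p := by
          linarith
      _ = (1 + C * τ) * ev B.adjugate p p := by rw [hC]; ring
  have hl0 : 0 ≤ len g' x p * volDen g' x := mul_nonneg (Real.sqrt_nonneg _) (Real.sqrt_nonneg _)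
  refine abs_le_of_sq_le_sq' ?_ (mul_nonneg (by linarith) hl0) |>.2
  rw [dens_sq hg p, mul_pow, dens_sq hg' p]
  refine hfin.trans (mul_le_mul_of_nonneg_right ?_ hnn)
  nlinarith

end Pool.Agent.PFlow
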