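import Pool.Agent.PFlow.StmtsX4
import Pool.Agent.PFlow.E.MOD

/-!
# XMB: bounds for the modified data in the exterior region
-/

open MeasureTheory Filter Topology
open scoped ContDiff ENNReal

namespace Pool.Agent.PFlow

open Pool.Agent.PenroseSph

namespace XMBL

lemma exp_lt {δ : ℝ} (h : δ ≤ 1 / 2) : Real.exp δ < 7 / 4 := by
  have h1 : Real.exp (1 / 2) ^ 2 = Real.exp 1 := by
    rw [← Real.exp_nat_mul]
    norm_num
  have h2 := Real.exp_one_lt_d9
  have h3 : Real.exp δ ≤ Real.exp (1 / 2) := Real.exp_le_exp.mpr h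
  have h4 : Real.exp (1 / 2) < 7 / 4 := by
    have h5 : Real.exp (1 / 2) ^ 2 < (7 / 4) ^ 2 := by
      rw [h1]
      norm_num
      linarith
    exact lt_of_pow_lt_pow_left₀ 2 (by norm_num) h5
  linarith

lemma one_abs (i j : Fin 3) : |(1 : Bil) i j| ≤ 1 := by
  rw [Matrix.one_apply]
  split_ifs <;> simp

lemma le_div {a c r : ℝ} (ha : 0 ≤ a) (hr1 : 1 ≤ r) (hr : r ≤ 2) (hc : 2 * a ≤ c) :
    a ≤ c / r := by
  rw [le_div_iff₀ (by linarith)]
  nlinarith

lemma le_div2 {a c r : ℝ} (ha : 0 ≤ a) (hr1 : 1 ≤ r) (hr : r ≤ 2) (hc : 4 * a ≤ c) :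
    a ≤ c / r ^ 2 := by
  rw [le_div_iff₀ (by positivity)]
  have h1 : r ^ 2 ≤ 4 := by nlinarith
  nlinarith

end XMBL

open MODL XMBL in
theorem XMB (hKAP : Stmt_KAP) (hXCOLG : Stmt_XCOLG) (hXCOLH : Stmt_XCOLH) (hXHAT : Stmt_XHAT)
    (hXFAR : Stmt_XFAR) (hBARA : Stmt_BARA) (hXMT : Stmt_XMT) (hXMA : Stmt_XMA) : Stmt_XMB := by
  intro g k δ₀ δ C₀ H
  obtain ⟨Cg, hCg, hcg⟩ := hXCOLG g δ₀ δ H.pos0 H.pos H.le H.exp_lt H.metric H.shift
  obtain ⟨Ch, hCh, hch⟩ := hXCOLH δ₀ δ H.pos0 H.pos H.le H.exp_lt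
  obtain ⟨Cf, lf, hCf, hlf, hfar⟩ := hXFAR g k δ₀ C₀ H.pos0 H.metric H.tensor H.decay H.elliptic
  have hC0 := H.C_pos
  obtain ⟨-, kb, -, -, -, -, -⟩ := hKAP
  obtain ⟨Λ, hΛ⟩ : ∃ Λ : ℝ, Λ = Cg + C₀ + 1 := ⟨_, rfl⟩
  have hΛ0 : 0 < Λ := by linarith
  obtain ⟨Ca, hCa, hma⟩ := hXMA Λ hΛ0
  obtain ⟨B, hB⟩ : ∃ B : ℝ, B = 4 * Cg + 2 + Cf + C₀ + 4 * (Ch * C₀) := ⟨_, rfl⟩
  have hCC : 0 < Ch * C₀ := mul_pos hCh hC0
  have hB0 : 0 < B := by linarith
  obtain ⟨Cb, hCb, hba⟩ := hBARA B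
  obtain ⟨C, hC⟩ : ∃ C : ℝ, C = B + Ca + 2 * Cb + 4 := ⟨_, rfl⟩
  have hCpos : 0 < C := by linarith
  refine ⟨C, lf, hCpos, hlf, ?_⟩
  intro l τ η hl hτ hτδ hη
  have hl8 : 8 ≤ l := hlf.trans hl
  have hτ1 : τ ≤ 1 := by linarith [H.le]
  have hexp := exp_lt H.le
  obtain ⟨cg1, cg2, cg3, cg4, cg5⟩ := hcg τ hτ hτδ
  obtain ⟨ha1, ha2, ha3, -, -⟩ := hXHAT g k δ₀ H.pos0 H.metric H.tensor H.sign η hη
  obtain ⟨ch1, ch2, ch3, ch4, -⟩ := hch (hat η g k) ha1 τ hτ hτδ hτ1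
  obtain ⟨t1, t2, t3, t4, t5, t6, t7, t8⟩ := hXMT g k δ₀ δ C₀ l τ η H hl8 hτ hτδ hη
  obtain ⟨f1, f2, f3, f4, -, -, -⟩ := hfar l hl (colG τ δ g) cg1 fun x hx =>
    cg3 x (hexp.le.trans hx.le)
  change MetricOn Set.univ (xg l τ δ g) at f1
  change DecayFrom Cf 2 (xg l τ δ g) 0 at f2
  change ∀ x : E3, 2 ≤ ‖x‖ → ∀ v : Cov, (∑ i, v i ^ 2) ≤ Cf * ev (xg l τ δ g x) v v ∧
    ev (xg l τ δ g x) v v ≤ Cf * ∑ i, v i ^ 2 at f3
  -- the germ of the metric
  have evG : ∀ x : E3, 1 / 4 < ‖x‖ → ‖x‖ < l → xg l τ δ g =ᶠ[𝓝 x] colG τ δ g := by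
    intro x hx1 hx2
    have hopen : IsOpen {y : E3 | 1 / 4 < ‖y‖ ∧ ‖y‖ < l} :=
      (isOpen_lt continuous_const continuous_norm).inter
        (isOpen_lt continuous_norm continuous_const)
    filter_upwards [hopen.mem_nhds ⟨hx1, hx2⟩] with y hy
    exact t5 y hy.1.le hy.2.le
  have hk : ∀ x : E3, 1 ≤ ‖x‖ → ∀ i j, |k x i j| ≤ C₀ / ‖x‖ ^ 2 := fun x hx i j =>
    (H.decay x hx i j).2.2.2.1
  have hk0 : ∀ x : E3, 1 ≤ ‖x‖ → ∀ i j, |k x i j| ≤ C₀ := fun x hx i j =>
    (hk x hx i j).trans (div_le_self hC0.le (one_le_pow₀ hx))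
  have hcolH : ∀ x : E3, 1 / 4 ≤ ‖x‖ → ‖x‖ ≤ 4 → ∀ i j, |xh l τ δ η g k x i j| ≤ Ch * C₀ := by
    intro x hx1 hx2 i j
    rw [t6 x hx1 (by linarith)]
    refine ch4 C₀ (fun y hy1 _ i j => (ha3 y i j).trans (hk0 y hy1 i j)) x hx1 hx2 i j
  have hgb : ∀ x : E3, 1 / 4 < ‖x‖ → ‖x‖ ≤ 4 → ∀ i j, |xg l τ δ g x i j| ≤ Cg ∧
      ∀ m, |pd m (fun y => xg l τ δ g y i j) x| ≤ Cg := by
    intro x hx1 hx2 i j
    have hev := evG x hx1 (by linarith)
    obtain ⟨b1, b2⟩ := (cg5 x hx1.le hx2).1 i j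
    refine ⟨?_, fun m => ?_⟩
    · rw [hev.self_of_nhds]
      exact b1
    · rw [pd_ev (comp_ev hev i j) m]
      exact b2 m
  have hell : ∀ x : E3, 1 / 2 < ‖x‖ → ∀ v : Cov, (∑ i, v i ^ 2) ≤ B * ev (xg l τ δ g x) v v ∧
      ev (xg l τ δ g x) v v ≤ B * ∑ i, v i ^ 2 := by
    intro x hx
    rcases le_total ‖x‖ 4 with h4 | h4
    · have hev := evG x (by linarith) (by linarith)
      rw [hev.self_of_nhds]
      exact ell_mono hCg (by linarith) (cg5 x (by linarith) h4).2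
    · exact ell_mono hCf (by linarith) (f3 x (by linarith))
  have hsm : ∀ x : E3, 1 ≤ ‖x‖ → ∀ i j, |xh l τ δ η g k x i j| ≤ B / ‖x‖ ^ 2 := by
    intro x hx i j
    rcases le_or_gt ‖x‖ 2 with h2 | h2
    · refine (hcolH x (by linarith) (by linarith) i j).trans (le_div2 hCC.le hx h2 (by linarith))
    · rw [t7 x (by linarith), Matrix.smul_apply, smul_eq_mul, abs_mul]
      have h3 := kb (2 * ‖x‖ / l)
      rw [abs_of_nonneg h3.1]
      calc kap (2 * ‖x‖ / l) * |hat η g k x i j| ≤ 1 * |hat η g k x i j| :=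
            mul_le_mul_of_nonneg_right h3.2 (abs_nonneg _)
        _ ≤ |k x i j| := by
          rw [one_mul]
          exact ha3 x i j
        _ ≤ C₀ / ‖x‖ ^ 2 := hk x hx i j
        _ ≤ B / ‖x‖ ^ 2 := by
          gcongr
          linarith
  refine ⟨?_, ?_, ?_, ?_, ?_⟩
  · -- bounds
    intro x hx1 hx2 i j
    obtain ⟨b1, b2⟩ := hgb x (by linarith) (by linarith) i j
    refine ⟨b1.trans (by linarith), fun m => (b2 m).trans (by linarith), ?_⟩
    exact (hcolH x (by linarith) (by linarith) i j).trans (by linarith)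
  · exact fun x hx => ell_mono hB0 (by linarith) (hell x hx)
  · -- area
    intro x hx hxl p
    have hnn : 0 ≤ len (xg l τ δ g) x p * volDen (xg l τ δ g) x :=
      mul_nonneg (Real.sqrt_nonneg _) (Real.sqrt_nonneg _)
    rcases le_or_gt ‖x‖ 2 with h2 | h2
    · have hev := evG x (by linarith) (by linarith)
      have hout : x ∈ Outside δ₀ := by
        change 1 - δ₀ < ‖x‖
        linarith [H.pos0]
      have h5 := hma g (xg l τ δ g) x τ hτ.le (H.metric.posDef x hout)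
        (f1.posDef x (Set.mem_univ _)) (by
          rw [hev.self_of_nhds]
          exact ell_mono hCg (by linarith) (cg5 x (by linarith) (by linarith)).2) (by
          intro i j
          refine ⟨?_, ?_, ?_⟩
          · have h6 := (H.decay x hx i j).1
            have h7 : C₀ / ‖x‖ ≤ C₀ := div_le_self hC0.le hx
            have h8 : |g x i j| ≤ |g x i j - (1 : Bil) i j| + |(1 : Bil) i j| := by
              refine le_trans (le_of_eq ?_) (abs_add_le _ _)
              congr 1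
              ring
            have h9 := one_abs i j
            linarith
          · exact (hgb x (by linarith) (by linarith) i j).1.trans (by linarith)
          · rw [hev.self_of_nhds]
            refine (cg4 x hx (by linarith) i j).trans ?_
            exact mul_le_mul_of_nonneg_right (by linarith) hτ.le) p
      refine h5.trans (mul_le_mul_of_nonneg_right ?_ hnn)
      have : Ca * τ ≤ C * τ := mul_le_mul_of_nonneg_right (by linarith) hτ.le
      linarith
    · have h3 := t8 x (by linarith) hxl.le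
      have h4 : len g x p * volDen g x = len (xg l τ δ g) x p * volDen (xg l τ δ g) x := by
        unfold len volDen
        rw [h3]
      rw [h4]
      have h5 : 0 ≤ C * τ := by positivity
      nlinarith
  · -- barrier
    intro ε hε hε1 x hx
    have b1 := hba (xg l τ δ g) (xh l τ δ η g k) x hx
      (fun i j => (f1.smooth i j).contDiffAt Filter.univ_mem)
      (f1.posDef x (Set.mem_univ _)) (t1.symm x (Set.mem_univ _)) (hell x (by linarith)) (by
        intro i j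
        refine ⟨?_, ?_, hsm x hx i j⟩
        · rcases le_or_gt ‖x‖ 2 with h2 | h2
          · have h3 := (hgb x (by linarith) (by linarith) i j).1
            have h4 : |xg l τ δ g x i j - (1 : Bil) i j| ≤ Cg + 1 := by
              have h5 := abs_sub (xg l τ δ g x i j) ((1 : Bil) i j)
              have h6 := one_abs i j
              linarith
            exact h4.trans (le_div (by linarith) hx h2 (by linarith))
          · refine ((f2 x h2.le i j).1).trans ?_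
            gcongr
            linarith
        · intro m
          rcases le_or_gt ‖x‖ 2 with h2 | h2
          · exact ((hgb x (by linarith) (by linarith) i j).2 m).trans
              (le_div2 hCg.le hx h2 (by linarith))
          · refine ((f2 x h2.le i j).2.1 m).trans ?_
            gcongr
            linarith) ε hε hε1
    have b2 := model_out hε hε1 hx
    have b3 : Cb / ‖x‖ ^ 2 ≤ 2 * Cb / (1 + ‖x‖ ^ 2) := by
      rw [div_le_div_iff₀ (by positivity) (by positivity)]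
      have : 1 ≤ ‖x‖ ^ 2 := one_le_pow₀ hx
      nlinarith
    calc |barB ε (xg l τ δ g) (xh l τ δ η g k) x - bE ε ‖x‖|
        ≤ |barB ε (xg l τ δ g) (xh l τ δ η g k) x - 2 / ‖x‖| + |2 / ‖x‖ - bE ε ‖x‖| := by
          refine le_trans (le_of_eq ?_) (abs_add_le _ _)
          congr 1
          ring
      _ ≤ 2 * Cb / (1 + ‖x‖ ^ 2) + 4 / (1 + ‖x‖ ^ 2) := add_le_add (b1.trans b3) b2
      _ = (2 * Cb + 4) / (1 + ‖x‖ ^ 2) := by ring
      _ ≤ C / (1 + ‖x‖ ^ 2) := by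
        gcongr
        linarith
  · -- the size of the tensor
    intro x hx i j
    refine (hsm x hx i j).trans ?_
    gcongr
    linarith

end Pool.Agent.PFlow
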