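import Pool.Agent.PFlow.StmtsX4
import Pool.Agent.PFlow.E.MOD

/-!
# Module XMC: the collar of the modified data
-/

set_option autoImplicit false

open MeasureTheory Filter Topology
open scoped ContDiff ENNReal

namespace Pool.Agent.PFlow

open Pool.Agent.PenroseSph

namespace XMCaux

/-- The matter term depends only on the germs of the data. -/
lemma matter_at {g g' h h' : TensorField} {x : E3} (hg : g =ᶠ[𝓝 x] g') (hh : h =ᶠ[𝓝 x] h')
    (p : Cov) : matter g h x p = matter g' h' x p := by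
  have hx := hg.self_of_nhds
  have hn : nrm g x p = nrm g' x p := by
    funext i
    unfold nrm raise len
    rw [hx]
  unfold matter
  rw [(MODL.en_at hg hh.self_of_nhds), hn]
  congr 1
  exact Finset.sum_congr rfl fun j _ => by rw [(MODL.mom_at hg hh j)]

lemma len_at {g g' : TensorField} {x : E3} (hx : g x = g' x) (p : Cov) :
    len g x p = len g' x p := by
  unfold len
  rw [hx]

/-- The tensor is bounded near the boundary. -/
lemma decay_bound {g k : TensorField} {C₀ : ℝ} (hC : 0 < C₀) (h : DecayFrom C₀ 1 g k) {x : E3}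
    (hx : 1 ≤ ‖x‖) (i j : Fin 3) : |k x i j| ≤ C₀ := by
  obtain ⟨-, -, -, h4, -⟩ := h x hx i j
  have h5 : (1 : ℝ) ≤ ‖x‖ ^ 2 := one_le_pow₀ hx
  exact h4.trans (div_le_self hC.le h5)

lemma exp_small {τ : ℝ} (h : τ ≤ 1 / 8) : Real.exp τ < 2 := by
  have h1 : Real.exp τ ≤ Real.exp (1 / 8) := Real.exp_le_exp.mpr h
  have h2 : Real.exp (1 / 8) ^ 8 = Real.exp 1 := by
    rw [← Real.exp_nat_mul]
    norm_num
  have h3 : Real.exp 1 < 2.7182818286 := Real.exp_one_lt_d9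
  have h4 : Real.exp (1 / 8) < 2 := by
    by_contra h5
    push Not at h5
    have h6 : (2 : ℝ) ^ 8 ≤ Real.exp (1 / 8) ^ 8 := pow_le_pow_left₀ (by norm_num) h5 8
    rw [h2] at h6
    norm_num at h6 h3
    linarith
  linarith

end XMCaux

open XMCaux in
/-- **XMC**: the collar. -/
theorem XMC (_hXPHI : Stmt_XPHI) (_hXCOLG : Stmt_XCOLG) (hXHAT : Stmt_XHAT)
    (hXCOLM : Stmt_XCOLM) (hXMT : Stmt_XMT) : Stmt_XMC := by
  intro g k δ₀ δ C₀ H
  obtain ⟨C, hC, hcol⟩ := hXCOLM g δ₀ δ C₀ H.pos0 H.pos H.le H.exp_lt H.metric H.shift H.C_pos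
  refine ⟨C, hC, fun κ η hκ hη hCη => ?_⟩
  obtain ⟨a1, a2, a3, -, a5⟩ := hXHAT g k δ₀ H.pos0 H.metric H.tensor H.sign η hη
  obtain ⟨C', hC', hm⟩ := hcol (hat η g k) η a1 a2
    (fun x hx _ i j => (a3 x i j).trans (decay_bound H.C_pos H.decay hx i j)) hη.le
    (fun x hx => (H.trapped x hx).trans (a5 x hx))
  refine ⟨min (δ / 4) (κ / (2 * C')), lt_min (by linarith [H.pos]) (by positivity),
    min_le_left _ _, fun l τ hl hτ hτ₀ x hx1 hx2 p => ?_⟩
  have ht1 : τ ≤ δ / 4 := hτ₀.trans (min_le_left _ _)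
  have ht2 : τ ≤ κ / (2 * C') := hτ₀.trans (min_le_right _ _)
  have ht3 : C' * τ ≤ κ / 2 := by
    rw [le_div_iff₀ (by positivity)] at ht2
    linarith
  have hx3 : ‖x‖ < 2 := lt_of_le_of_lt hx2 (exp_small (by linarith [H.le]))
  obtain ⟨-, -, -, -, m5, m6, -, -⟩ := hXMT g k δ₀ δ C₀ l τ η H hl hτ ht1 hη
  have hopen : IsOpen {y : E3 | 1 / 4 < ‖y‖ ∧ ‖y‖ < l / 2} :=
    (isOpen_lt continuous_const continuous_norm).inter
      (isOpen_lt continuous_norm continuous_const)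
  have hxm : x ∈ {y : E3 | 1 / 4 < ‖y‖ ∧ ‖y‖ < l / 2} := ⟨by linarith, by linarith⟩
  have eG : xg l τ δ g =ᶠ[𝓝 x] colG τ δ g := by
    filter_upwards [hopen.mem_nhds hxm] with y hy
    exact m5 y hy.1.le (by linarith [hy.2])
  have eH : xh l τ δ η g k =ᶠ[𝓝 x] colH τ δ (hat η g k) := by
    filter_upwards [hopen.mem_nhds hxm] with y hy
    exact m6 y hy.1.le hy.2.le
  rw [matter_at eG eH p, len_at eG.self_of_nhds p]
  refine le_trans ?_ (hm τ hτ ht1 x hx1 hx2 p)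
  have hv : 0 ≤ vsz p := Real.sqrt_nonneg _
  have h1 : C * η / τ + C' ≤ κ / τ := by
    rw [div_add' _ _ _ hτ.ne', div_le_div_iff_of_pos_right hτ]
    linarith
  have h2 : (C * η / τ + C') * vsz p ≤ κ / τ * vsz p := mul_le_mul_of_nonneg_right h1 hv
  linarith

end Pool.Agent.PFlow
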