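import Mathlib
import Pool.Agent.PFlow.StmtsX4
import Pool.Agent.PFlow.E.MOD

/-!
# Exterior regions: the defect of the modified data
-/

open MeasureTheory Filter Topology
open scoped ContDiff ENNReal

namespace Pool.Agent.PFlow

open Pool.Agent.PenroseSph

namespace XMEaux

lemma len_nonneg (g : TensorField) (x : E3) (p : Cov) : 0 ≤ len g x p := Real.sqrt_nonneg _

lemma eEta_nonneg (η : ℝ) (g k : TensorField) (x : E3) : 0 ≤ eEta η g k x := by
  unfold eEta
  have h1 := len_nonneg g x (grad (fun y => trg g y (k y)) x)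
  positivity

lemma isOpen_Outside (δ : ℝ) : IsOpen (Outside δ) :=
  isOpen_lt continuous_const continuous_norm

/-- The argument of the cut-off. -/
noncomputable def arg (δ₀ : ℝ) (x : E3) : ℝ := 2 * (‖x‖ - (1 - δ₀ / 2)) / δ₀

lemma cont_arg (δ₀ : ℝ) : Continuous fun x : E3 => Real.smoothTransition (arg δ₀ x) := by
  refine Real.smoothTransition.continuous.comp ?_
  unfold arg
  fun_prop

lemma arg_one {δ₀ : ℝ} (hδ : 0 < δ₀) {x : E3} (hx : 1 ≤ ‖x‖) :
    Real.smoothTransition (arg δ₀ x) = 1 := by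
  apply Real.smoothTransition.one_of_one_le
  unfold arg
  rw [le_div_iff₀ hδ]
  linarith

lemma arg_zero {δ₀ : ℝ} (hδ : 0 < δ₀) {x : E3} (hx : ‖x‖ ≤ 1 - δ₀ / 2) :
    Real.smoothTransition (arg δ₀ x) = 0 := by
  apply Real.smoothTransition.zero_of_nonpos
  unfold arg
  exact div_nonpos_of_nonpos_of_nonneg (by linarith) hδ.le

lemma xe_eq (δ₀ σ η : ℝ) (g k : TensorField) (x : E3) :
    xe δ₀ σ η g k x = Real.smoothTransition (arg δ₀ x) * eEta η g k x + σ := rfl

lemma xe_cont {δ₀ : ℝ} (hδ : 0 < δ₀) (σ η : ℝ) (g k : TensorField)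
    (hc : ContinuousOn (eEta η g k) (Outside δ₀)) : Continuous (xe δ₀ σ η g k) := by
  rw [continuous_iff_continuousAt]
  intro x
  by_cases hx : x ∈ Outside δ₀
  · have h1 : ContinuousAt (eEta η g k) x := hc.continuousAt ((isOpen_Outside δ₀).mem_nhds hx)
    have h2 : ContinuousAt (fun x : E3 => Real.smoothTransition (arg δ₀ x)) x :=
      (cont_arg δ₀).continuousAt
    exact (h2.mul h1).add continuousAt_const
  · have h1 : ‖x‖ < 1 - δ₀ / 2 := by
      have hx2 : ¬ (1 - δ₀ < ‖x‖) := hx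
      rw [not_lt] at hx2
      linarith
    have h2 : ∀ᶠ y in 𝓝 x, ‖y‖ < 1 - δ₀ / 2 :=
      (isOpen_lt continuous_norm continuous_const).mem_nhds h1
    have h3 : xe δ₀ σ η g k =ᶠ[𝓝 x] fun _ => σ := by
      filter_upwards [h2] with y hy
      rw [xe_eq, arg_zero hδ hy.le]
      ring
    exact (continuousAt_congr h3).2 continuousAt_const

lemma add_rpow_le {a b q : ℝ} (ha : 0 ≤ a) (hb : 0 ≤ b) (hq : 0 ≤ q) :
    (a + b) ^ q ≤ 2 ^ q * a ^ q + 2 ^ q * b ^ q := by
  have h2 : (0 : ℝ) ≤ 2 := by norm_num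
  rw [← Real.mul_rpow h2 ha, ← Real.mul_rpow h2 hb]
  rcases le_total a b with h | h
  · have h3 : (a + b) ^ q ≤ (2 * b) ^ q := Real.rpow_le_rpow (by linarith) (by linarith) hq
    have h4 : 0 ≤ (2 * a) ^ q := Real.rpow_nonneg (by linarith) _
    linarith
  · have h3 : (a + b) ^ q ≤ (2 * a) ^ q := Real.rpow_le_rpow (by linarith) (by linarith) hq
    have h4 : 0 ≤ (2 * b) ^ q := Real.rpow_nonneg (by linarith) _
    linarith

end XMEaux

open XMEaux in
theorem XME (hXEETA : Stmt_XEETA) : Stmt_XME := by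
  intro g k δ₀ hδ hg hk
  obtain ⟨hA, hB⟩ := hXEETA g k δ₀ hδ hg hk
  have hsub : ∀ l : ℝ, cAnn 1 l ⊆ Outside δ₀ := by
    intro l x hx
    have h1 : 1 ≤ ‖x‖ := hx.1
    show 1 - δ₀ < ‖x‖
    linarith
  have hsame : ∀ σ η : ℝ, ∀ x : E3, 1 ≤ ‖x‖ → xe δ₀ σ η g k x = eEta η g k x + σ := by
    intro σ η x hx
    rw [xe_eq, arg_one hδ hx, one_mul]
  refine ⟨fun σ η hσ hη => ⟨xe_cont hδ σ η g k (hA η hη).1, fun x => ?_, hsame σ η⟩, ?_⟩
  · rw [xe_eq]
    have h1 := eEta_nonneg η g k x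
    have h2 := Real.smoothTransition.nonneg (arg δ₀ x)
    positivity
  · intro l q ς hq hς
    have hq0 : 0 ≤ q := by linarith
    obtain ⟨P, hP⟩ : ∃ P : ℝ, P = 2 ^ q := ⟨_, rfl⟩
    have hP0 : 0 < P := by rw [hP]; positivity
    obtain ⟨η₀, hη₀, hη⟩ := hB l q (ς / (2 * P)) hq (by positivity)
    obtain ⟨V, hV⟩ : ∃ V : ℝ, V = (volume (cAnn 1 l)).toReal := ⟨_, rfl⟩
    have hV0 : 0 ≤ V := by rw [hV]; exact ENNReal.toReal_nonneg
    have hcpt : IsCompact (cAnn 1 l) := MODL.cAnn_compact _ _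
    have hms : MeasurableSet (cAnn 1 l) := hcpt.measurableSet
    refine ⟨η₀, min 1 (ς / (2 * P * (V + 1))), hη₀, lt_min one_pos (by positivity), ?_⟩
    intro η σ hη1 hη2 hσ1 hσ2
    have hσ3 : σ ≤ 1 := hσ2.trans (min_le_left _ _)
    have hσ4 : σ ≤ ς / (2 * P * (V + 1)) := hσ2.trans (min_le_right _ _)
    have hσq : σ ^ q ≤ σ := by
      have := Real.rpow_le_rpow_of_exponent_ge hσ1 hσ3 hq
      rwa [Real.rpow_one] at this
    have hc1 : ContinuousOn (fun x => eEta η g k x ^ q) (cAnn 1 l) :=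
      (((hA η hη1).1).mono (hsub l)).rpow_const fun x _ => Or.inr hq0
    have hi1 : IntegrableOn (fun x => eEta η g k x ^ q) (cAnn 1 l) :=
      hc1.integrableOn_compact hcpt
    have hc2 : ContinuousOn (fun x => xe δ₀ σ η g k x ^ q) (cAnn 1 l) :=
      ((xe_cont hδ σ η g k (hA η hη1).1).continuousOn).rpow_const fun x _ => Or.inr hq0
    have hi2 : IntegrableOn (fun x => xe δ₀ σ η g k x ^ q) (cAnn 1 l) :=
      hc2.integrableOn_compact hcpt
    have hi3 : IntegrableOn (fun _ : E3 => P * σ ^ q) (cAnn 1 l) :=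
      continuousOn_const.integrableOn_compact hcpt
    have hle : ∫ x in cAnn 1 l, xe δ₀ σ η g k x ^ q ≤
        ∫ x in cAnn 1 l, (P * eEta η g k x ^ q + P * σ ^ q) := by
      refine setIntegral_mono_on hi2 ((hi1.const_mul P).add hi3) hms fun x hx => ?_
      rw [hsame σ η x hx.1, hP]
      exact add_rpow_le (eEta_nonneg η g k x) hσ1.le hq0
    have heq : ∫ x in cAnn 1 l, (P * eEta η g k x ^ q + P * σ ^ q) =
        P * (∫ x in cAnn 1 l, eEta η g k x ^ q) + V * (P * σ ^ q) := by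
      rw [integral_add (hi1.const_mul P) hi3, integral_const_mul, setIntegral_const, hV]
      rfl
    have h1 := hη η hη1 hη2
    have h2 : P * (∫ x in cAnn 1 l, eEta η g k x ^ q) ≤ ς / 2 := by
      calc P * (∫ x in cAnn 1 l, eEta η g k x ^ q) ≤ P * (ς / (2 * P)) :=
            mul_le_mul_of_nonneg_left h1 hP0.le
        _ = ς / 2 := by field_simp
    have h3 : V * (P * σ ^ q) ≤ ς / 2 := by
      calc V * (P * σ ^ q) ≤ (V + 1) * (P * (ς / (2 * P * (V + 1)))) := by
            have h4 : σ ^ q ≤ ς / (2 * P * (V + 1)) := hσq.trans hσ4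
            have h5 : 0 ≤ σ ^ q := Real.rpow_nonneg hσ1.le _
            have h6 : P * σ ^ q ≤ P * (ς / (2 * P * (V + 1))) := mul_le_mul_of_nonneg_left h4 hP0.le
            exact mul_le_mul (by linarith) h6 (by positivity) (by linarith)
        _ = ς / 2 := by field_simp
    rw [heq] at hle
    linarith

end Pool.Agent.PFlow
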