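import Pool.Agent.PFlow.StmtsX4
import Pool.Agent.PFlow.E.MOD

/-!
# XMH: the shell and the region outside
-/

open MeasureTheory Filter Topology
open scoped ContDiff ENNReal

namespace Pool.Agent.PFlow

open Pool.Agent.PenroseSph

namespace XMHaux

lemma exp_half : Real.exp (1 / 2) < 7 / 4 := by
  have h1 : Real.exp (1 / 2) ^ 2 = Real.exp 1 := by
    rw [← Real.exp_nat_mul]
    norm_num
  have h2 := Real.exp_one_lt_d9
  have h3 : Real.exp (1 / 2) ^ 2 < (7 / 4 : ℝ) ^ 2 := by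
    rw [h1]
    linarith
  exact lt_of_pow_lt_pow_left₀ 2 (by norm_num) h3

end XMHaux

open MODL in
theorem XMH (hKAP : Stmt_KAP) (hXCOLG : Stmt_XCOLG) (hXSHELL : Stmt_XSHELL)
    (hXFAR : Stmt_XFAR) (hXMT : Stmt_XMT) : Stmt_XMH := by
  intro g k δ₀ δ C₀ hX
  obtain ⟨C₁, hC₁, hcol⟩ := hXCOLG g δ₀ δ hX.pos0 hX.pos hX.le hX.exp_lt hX.metric hX.shift
  obtain ⟨C₂, hC₂, hsh⟩ := hXSHELL g k δ₀ C₀ hX.pos0 hX.metric hX.tensor hX.sign hX.surplus
    hX.decay hX.elliptic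
  obtain ⟨C₃, l₀, hC₃, hl₀, hfar⟩ := hXFAR g k δ₀ C₀ hX.pos0 hX.metric hX.tensor hX.decay
    hX.elliptic
  refine ⟨C₂ + C₃, l₀, by linarith, hl₀, ?_⟩
  intro l τ η hl hτ hτδ hη
  have hl8 : 8 ≤ l := hl₀.trans hl
  have hl0 : 0 < l := by linarith
  obtain ⟨c1, -, c3, -, -⟩ := hcol τ hτ hτδ
  have hfar7 : ∀ x : E3, 7 / 4 < ‖x‖ → colG τ δ g x = g x := by
    intro x hx
    refine c3 x (le_trans (Real.exp_le_exp.2 hX.le) ?_)
    exact (XMHaux.exp_half.trans hx).le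
  obtain ⟨f1, f2, -, -, f5, f6, f7⟩ := hfar l hl (colG τ δ g) c1 hfar7
  obtain ⟨-, -, -, t4, -, -, t7, t8⟩ := hXMT g k δ₀ δ C₀ l τ η hX hl8 hτ hτδ hη
  have evH0 : ∀ x : E3, l < ‖x‖ → xh l τ δ η g k =ᶠ[𝓝 x] 0 := by
    intro x hx
    have hopen : IsOpen {y : E3 | l < ‖y‖} := isOpen_lt continuous_const continuous_norm
    filter_upwards [hopen.mem_nhds hx] with y hy
    exact t4 y (le_of_lt hy)
  have evG1 : ∀ x : E3, 2 * l < ‖x‖ → xg l τ δ g =ᶠ[𝓝 x] fun _ => (1 : Bil) := by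
    intro x hx
    have hopen : IsOpen {y : E3 | 2 * l < ‖y‖} := isOpen_lt continuous_const continuous_norm
    filter_upwards [hopen.mem_nhds hx] with y hy
    exact f5 y (le_of_lt hy)
  refine ⟨f1, decay_mono f2 (by linarith), f5, ?_, ?_, ?_, ?_, f7⟩
  · -- shell
    intro x hx1 hx2
    have hopen : IsOpen {y : E3 | l / 2 < ‖y‖ ∧ ‖y‖ < l} :=
      (isOpen_lt continuous_const continuous_norm).inter
        (isOpen_lt continuous_norm continuous_const)
    have evG : xg l τ δ g =ᶠ[𝓝 x] g := by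
      filter_upwards [hopen.mem_nhds ⟨hx1, hx2⟩] with y hy
      exact t8 y (by linarith [hy.1]) hy.2.le
    have evH : xh l τ δ η g k =ᶠ[𝓝 x] (fun y => kap (2 * ‖y‖ / l) • hat η g k y) := by
      filter_upwards [hopen.mem_nhds ⟨hx1, hx2⟩] with y hy
      exact t7 y (by linarith [hy.1])
    have h1 := hsh η l hη hl8 (xg l τ δ g) (xh l τ δ η g k) x hx1 hx2 evG evH
    have h2 : 0 ≤ msz (k x) / l + msz (k x) ^ 2 := by
      have : 0 ≤ msz (k x) := Real.sqrt_nonneg _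
      positivity
    have h3 : C₂ * (msz (k x) / l + msz (k x) ^ 2)
        ≤ (C₂ + C₃) * (msz (k x) / l + msz (k x) ^ 2) :=
      mul_le_mul_of_nonneg_right (by linarith) h2
    linarith
  · -- transition
    intro x hx1 hx2
    have h1 := (f6 x hx1 hx2).1
    rw [surplus_zero (evH0 x hx1)]
    have e1 : scalarCurvature (xg l τ δ g) x / 2 * volDen (xg l τ δ g) x
        - linR (xg l τ δ g) x / 2
        = (scalarCurvature (xg l τ δ g) x * volDen (xg l τ δ g) x - linR (xg l τ δ g) x) / 2 := by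
      ring
    rw [e1, abs_div, abs_of_pos (by norm_num : (0 : ℝ) < 2)]
    have h3 : C₃ / l ^ 4 ≤ (C₂ + C₃) / l ^ 4 := by
      gcongr
      linarith
    have h4 := abs_nonneg (scalarCurvature (xg l τ δ g) x * volDen (xg l τ δ g) x
      - linR (xg l τ δ g) x)
    have h5 : |scalarCurvature (xg l τ δ g) x * volDen (xg l τ δ g) x
      - linR (xg l τ δ g) x| ≤ C₃ / l ^ 4 := h1
    linarith
  · intro x hx1 hx2
    have h1 : |linR (xg l τ δ g) x| ≤ C₃ / l ^ 3 := (f6 x hx1 hx2).2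
    refine h1.trans ?_
    gcongr
    linarith
  · intro x hx
    rw [surplus_zero (evH0 x (by linarith)), scal_one (evG1 x hx), zero_div]

end Pool.Agent.PFlow
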