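import Pool.Agent.PFlow.StmtsX4
import Pool.Agent.PFlow.E.MOD

/-!
# XMK: the surplus between the collar and `|x| = ℓ/2`
-/

open MeasureTheory Filter Topology
open scoped ContDiff ENNReal

namespace Pool.Agent.PFlow

open Pool.Agent.PenroseSph

namespace XMKL

lemma kap_one {s : ℝ} (hs : s ≤ 1) : kap s = 1 := by
  unfold kap
  exact Real.smoothTransition.one_of_one_le (by linarith)

lemma ann_ev {a b : ℝ} {x : E3} (h1 : a < ‖x‖) (h2 : ‖x‖ < b) :
    ∀ᶠ y in 𝓝 x, a < ‖y‖ ∧ ‖y‖ < b :=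
  ((isOpen_lt continuous_const continuous_norm).inter
    (isOpen_lt continuous_norm continuous_const)).mem_nhds ⟨h1, h2⟩

end XMKL

open XMKL in
theorem XMK (hXPHI : Stmt_XPHI) (hXHAT : Stmt_XHAT) (hXSUR : Stmt_XSUR) (hXMT : Stmt_XMT) :
    Stmt_XMK := by
  intro g k δ₀ δ C₀ H σ η hσ hη
  obtain ⟨hT, -, -, hS, -⟩ := hXHAT g k δ₀ H.pos0 H.metric H.tensor H.sign η hη
  obtain ⟨τ₀, hτ₀, hτ₀δ, hsur⟩ :=
    hXSUR g (hat η g k) δ₀ δ σ H.pos0 H.pos H.le H.exp_lt H.metric hT hσ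
  refine ⟨τ₀, hτ₀, hτ₀δ, ?_⟩
  intro l τ hl hτ hττ₀ x hx hxl
  obtain ⟨-, -, -, -, hg1, hh1, hh2, hg2⟩ :=
    hXMT g k δ₀ δ C₀ l τ η H hl hτ (hττ₀.trans hτ₀δ) hη
  have hx1 : 1 < ‖x‖ := lt_trans (Real.one_lt_exp_iff.mpr hτ) hx
  have h0 : 0 ≤ surplus g k x := H.surplus x hx1
  have h1 : surplus g k x - eEta η g k x ≤ surplus g (hat η g k) x := (hS x hx1).1
  by_cases h4 : ‖x‖ ≤ 4
  · have hG : xg l τ δ g =ᶠ[𝓝 x] colG τ δ g := by
      filter_upwards [ann_ev (a := 1 / 4) (b := l / 2) (by linarith) hxl] with y hy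
      exact hg1 y hy.1.le (by linarith [hy.2])
    have hK : xh l τ δ η g k =ᶠ[𝓝 x] colH τ δ (hat η g k) := by
      filter_upwards [ann_ev (a := 1 / 4) (b := l / 2) (by linarith) hxl] with y hy
      exact hh1 y hy.1.le hy.2.le
    rw [ MODL.surplus_at hG hK]
    have h2 := hsur τ hτ hττ₀ x hx h4
    linarith
  · have h4' : 4 < ‖x‖ := not_le.mp h4
    have hG : xg l τ δ g =ᶠ[𝓝 x] g := by
      filter_upwards [ann_ev (a := 7 / 4) (b := l / 2) (by linarith) hxl] with y hy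
      exact hg2 y hy.1 (by linarith [hy.2])
    have hK : xh l τ δ η g k =ᶠ[𝓝 x] hat η g k := by
      filter_upwards [ann_ev (a := 7 / 4) (b := l / 2) (by linarith) hxl] with y hy
      rw [hh2 y hy.1, kap_one, one_smul]
      rw [div_le_one (by linarith)]
      linarith [hy.2]
    rw [ MODL.surplus_at hG hK]
    linarith

end Pool.Agent.PFlow
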