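import Pool.Agent.PFlow.X.XMA

/-!
# The area densities of two metrics which are close, with a one-sided ellipticity hypothesis
-/

open MeasureTheory Filter Topology
open scoped ContDiff Matrix

namespace Pool.Agent.PFlow

open Pool.Agent.PenroseSph

namespace XMODA1

theorem area_cmp (C : ℝ) (hC : 0 < C) : ∃ C' : ℝ, 0 < C' ∧
    ∀ (g g₁ : TensorField) (x : E3) (τ : ℝ), 0 < τ → τ ≤ 1 →
      (g x).PosDef → (g₁ x).PosDef → (∀ i j, |g x i j| ≤ C) → (∀ i j, |g₁ x i j| ≤ C) →
      (∀ i j, |g₁ x i j - g x i j| ≤ C * τ) →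
      (∀ v : Cov, (∑ i, v i ^ 2) ≤ C * ev (g₁ x) v v) →
      ∀ p : Cov, len g x p * volDen g x ≤ (1 + C' * τ) * (len g₁ x p * volDen g₁ x) := by
  obtain ⟨C', hC', h⟩ := XMA (3 * C) (by positivity)
  refine ⟨C', hC', ?_⟩
  intro g g₁ x τ hτ _ hg hg₁ hb hb₁ hd hell p
  have hpos : ∀ v : Cov, 0 ≤ ev (g₁ x) v v := by
    intro v
    have h1 := hell v
    have h2 : 0 ≤ ∑ i, v i ^ 2 := Finset.sum_nonneg fun _ _ => sq_nonneg _
    by_contra hc
    push Not at hc
    nlinarith
  refine h g g₁ x τ hτ.le hg hg₁ ?_ ?_ p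
  · intro v
    refine ⟨?_, ?_⟩
    · have h1 := hell v
      have h2 := mul_nonneg hC.le (hpos v)
      linarith
    · have h1 := XXMA.ev_diff (P := g₁ x) (Q := 0) (c := C) (fun i j => by
        rw [Matrix.zero_apply, sub_zero]; exact hb₁ i j) v
      have h2 : ev (0 : Bil) v v = 0 := by simp [ev]
      rw [h2, zero_add] at h1
      exact h1
  · intro i j
    have h1 := hb i j
    have h2 := hb₁ i j
    have h3 := hd i j
    refine ⟨by linarith, by linarith, ?_⟩
    have h4 : 0 ≤ C * τ := by positivity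
    linarith

end XMODA1

end Pool.Agent.PFlow
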