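import Pool.Agent.PFlow.StmtsX2
import Pool.Agent.PFlow.E.PERA

set_option autoImplicit false

/-!
# XPERA: perimeter of the sublevel sets of a smooth function, exterior region
-/

open MeasureTheory Filter Topology
open scoped ContDiff ENNReal

namespace Pool.Agent.PFlow

open Pool.Agent.PenroseSph

namespace XPERAaux

open PERAaux (ev_nonneg abs_le_len cd_det cont_pd prim prim_nonneg prim_le prim_ge prim_anti zt
  zt_deriv ar ar_nonneg isCompact_cAnn jj trap trap_cont trap_prim jj_nonneg chain)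

/-! ### Smoothness -/

theorem cd_vol {g : TensorField} (hg : MetricOn {x : E3 | 1 < ‖x‖} g) {x : E3} (hx : 1 < ‖x‖) :
    ContDiffAt ℝ ∞ (volDen g) x := by
  have h1 : ∀ i j, ContDiffAt ℝ ∞ (fun y => g y i j) x := fun i j =>
    (hg.smooth i j).contDiffAt ((isOpen_lt continuous_const continuous_norm).mem_nhds hx)
  exact (cd_det h1).sqrt (hg.posDef x hx).det_pos.ne'

theorem cd_inv {g : TensorField} (hg : MetricOn {x : E3 | 1 < ‖x‖} g) {x : E3} (hx : 1 < ‖x‖) (k l : Fin 3) :
    ContDiffAt ℝ ∞ (fun y => (g y)⁻¹ k l) x := by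
  have h1 : ∀ i j, ContDiffAt ℝ ∞ (fun y => g y i j) x := fun i j =>
    (hg.smooth i j).contDiffAt ((isOpen_lt continuous_const continuous_norm).mem_nhds hx)
  have hd := cd_det h1
  have ha : ContDiffAt ℝ ∞ (fun y => (g y).adjugate k l) x := by
    simp only [Matrix.adjugate_fin_three]
    fin_cases k <;> fin_cases l <;>
      simp <;> fun_prop
  have h2 : (fun y => (g y)⁻¹ k l) = fun y => ((g y).det)⁻¹ * (g y).adjugate k l := by
    funext y
    rw [Matrix.inv_def, Ring.inverse_eq_inv', Matrix.smul_apply, smul_eq_mul]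
  rw [h2]
  exact (hd.inv (hg.posDef x hx).det_pos.ne').mul ha

theorem cont_len {g : TensorField} (hg : MetricOn {x : E3 | 1 < ‖x‖} g) {W : E3 → ℝ} (hW : ContDiff ℝ ∞ W)
    {x : E3} (hx : 1 < ‖x‖) : ContinuousAt (fun y => len g y (grad W y) * volDen g y) x := by
  refine ContinuousAt.mul ?_ (cd_vol hg hx).continuousAt
  unfold len
  refine ContinuousAt.sqrt ?_
  unfold ev
  refine tendsto_finsetSum _ fun i _ => tendsto_finsetSum _ fun j _ => ?_
  exact (((cd_inv hg hx i j).continuousAt).mul (cont_pd hW i).continuousAt).mul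
    (cont_pd hW j).continuousAt

/-! ### The field -/

section Field

variable {g : TensorField} {X : E3 → Cov}

theorem Y_smooth (hg : MetricOn {x : E3 | 1 < ‖x‖} g) (hX : TestFieldX g X) (i : Fin 3) :
    ContDiff ℝ ∞ (fun y => volDen g y * X y i) := by
  rw [contDiff_iff_contDiffAt]
  intro x
  by_cases hx : x ∈ tsupport X
  · have hx0 : 1 < ‖x‖ := hX.outside hx
    exact (cd_vol hg hx0).mul (hX.smooth i).contDiffAt
  · have h1 : X =ᶠ[𝓝 x] 0 := by
      rwa [← notMem_tsupport_iff_eventuallyEq]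
    have h2 : (fun y => volDen g y * X y i) =ᶠ[𝓝 x] fun _ => 0 := by
      filter_upwards [h1] with y hy
      rw [hy]
      simp
    exact contDiffAt_const.congr_of_eventuallyEq h2

theorem Y_supp (hX : TestFieldX g X) (i : Fin 3) :
    HasCompactSupport (fun y => volDen g y * X y i) := by
  refine hX.compact.mono ?_
  intro x hx
  rw [Function.mem_support] at hx ⊢
  intro h
  apply hx
  rw [h]
  simp

theorem D_cont (hg : MetricOn {x : E3 | 1 < ‖x‖} g) (hX : TestFieldX g X) :
    Continuous (fun x => ∑ i, pd i (fun y => volDen g y * X y i) x) :=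
  continuous_finsetSum _ fun i _ => cont_pd (Y_smooth hg hX i) i

theorem pdY_int (hg : MetricOn {x : E3 | 1 < ‖x‖} g) (hX : TestFieldX g X) (i : Fin 3) :
    Integrable (pd i (fun y => volDen g y * X y i)) := by
  refine (cont_pd (Y_smooth hg hX i) i).integrable_of_hasCompactSupport ?_
  have h := (Y_supp hX i).fderiv (𝕜 := ℝ)
  refine h.mono ?_
  intro x hx
  rw [Function.mem_support] at hx ⊢
  intro h0
  apply hx
  unfold pd
  rw [h0]
  simp

theorem D_int (hg : MetricOn {x : E3 | 1 < ‖x‖} g) (hX : TestFieldX g X) :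
    Integrable (fun x => ∑ i, pd i (fun y => volDen g y * X y i) x) :=
  integrable_finsetSum _ fun i _ => pdY_int hg hX i

end Field

/-! ### The sublevel sets -/

/-- The sublevel set. -/
def Us (W : E3 → ℝ) (ρ r s : ℝ) : Set E3 := {x | ‖x‖ < ρ ∨ (‖x‖ < r ∧ W x < s)}

section Sub

variable {W : E3 → ℝ} {ρ r s₀ s₁ : ℝ}

theorem isOpen_Us (hW : Continuous W) (s : ℝ) : IsOpen (Us W ρ r s) := by
  have h1 : Us W ρ r s = {x | ‖x‖ < ρ} ∪ ({x | ‖x‖ < r} ∩ {x | W x < s}) := rfl
  rw [h1]
  exact (isOpen_lt continuous_norm continuous_const).union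
    ((isOpen_lt continuous_norm continuous_const).inter (isOpen_lt hW continuous_const))

theorem Us_mono {s t : ℝ} (h : s ≤ t) : Us W ρ r s ⊆ Us W ρ r t := fun _ hx =>
  hx.imp id fun h' => ⟨h'.1, h'.2.trans_le h⟩

theorem encloses_Us (hW : ContDiff ℝ ∞ W) (hρ : 1 < ρ) (hρr : ρ < r)
    (h0 : ∀ x ∈ cAnn ρ r, ‖x‖ = ρ → W x < s₀) (h1 : ∀ x ∈ cAnn ρ r, ‖x‖ = r → s₁ < W x)
    {s : ℝ} (hs0 : s₀ ≤ s) (hs1 : s ≤ s₁)
    (hreg : ∀ x ∈ cAnn ρ r, W x = s → fderiv ℝ W x ≠ 0) : Encloses (Us W ρ r s) where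
  isOpen := isOpen_Us hW.continuous s
  contains := fun x hx => Or.inl (hx.trans_lt hρ)
  bounded := ⟨r, fun x hx => hx.elim (fun h => h.trans hρr) fun h => h.1⟩
  smooth := by
    intro x hx
    have hcl : x ∈ closure (Us W ρ r s) := frontier_subset_closure hx
    have hnU : x ∉ Us W ρ r s := by
      intro h
      rw [frontier, (isOpen_Us hW.continuous s).interior_eq] at hx
      exact hx.2 h
    have hle : x ∈ {x : E3 | ‖x‖ ≤ ρ} ∪ ({x : E3 | ‖x‖ ≤ r} ∩ {x | W x ≤ s}) := by
      have hclosed : IsClosed ({x : E3 | ‖x‖ ≤ ρ} ∪ ({x : E3 | ‖x‖ ≤ r} ∩ {x | W x ≤ s})) :=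
        (isClosed_le continuous_norm continuous_const).union
          ((isClosed_le continuous_norm continuous_const).inter
            (isClosed_le hW.continuous continuous_const))
      refine closure_minimal ?_ hclosed hcl
      intro y hy
      rcases hy with h | h
      · exact Or.inl h.le
      · exact Or.inr ⟨h.1.le, h.2.le⟩
    have hnρ : ¬ ‖x‖ < ρ := fun h => hnU (Or.inl h)
    have hnρ' : ‖x‖ ≠ ρ := by
      intro h
      have h2 := h0 x ⟨h.ge, by rw [h]; exact hρr.le⟩ h
      exact hnU (Or.inr ⟨by rw [h]; exact hρr, h2.trans_le hs0⟩)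
    have hρx : ρ < ‖x‖ := lt_of_le_of_ne (not_lt.1 hnρ) (Ne.symm hnρ')
    rcases hle with hle | hle
    · exact absurd hle (not_le.2 hρx)
    have hxr : ‖x‖ < r := by
      refine lt_of_le_of_ne hle.1 ?_
      intro h
      have h2 := h1 x ⟨hρx.le, h.le⟩ h
      exact absurd hle.2 (not_le.2 (hs1.trans_lt h2))
    have hWs : W x = s := by
      refine le_antisymm hle.2 ?_
      by_contra h
      exact hnU (Or.inr ⟨hxr, not_le.1 h⟩)
    refine ⟨fun y => W y - s, (hW.sub contDiff_const).contDiffAt, ?_, ?_⟩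
    · rw [fderiv_sub_const]
      exact hreg x ⟨hρx.le, hxr.le⟩ hWs
    · have e1 : ∀ᶠ y : E3 in 𝓝 x, ρ < ‖y‖ :=
        (isOpen_lt continuous_const continuous_norm).mem_nhds hρx
      have e2 : ∀ᶠ y : E3 in 𝓝 x, ‖y‖ < r :=
        (isOpen_lt continuous_norm continuous_const).mem_nhds hxr
      filter_upwards [e1, e2] with y hy1 hy2
      constructor
      · intro hy
        rcases hy with h | h
        · exact absurd h (not_lt.2 hy1.le)
        · linarith [h.2]
      · intro hy
        refine Or.inr ⟨hy2, ?_⟩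
        linarith

end Sub

theorem ar_int {g : TensorField} (hg : MetricOn {x : E3 | 1 < ‖x‖} g) {W : E3 → ℝ} (hW : ContDiff ℝ ∞ W)
    {ρ r : ℝ} (hρ : 1 < ρ) : IntegrableOn (ar g W) (cAnn ρ r) := by
  refine ContinuousOn.integrableOn_compact (isCompact_cAnn ρ r) (fun x hx => ?_)
  exact (cont_len hg hW (hρ.trans_le hx.1)).continuousWithinAt

/-- The main estimate: the flux of the test field. -/
theorem flux_le {g : TensorField} (hg : MetricOn {x : E3 | 1 < ‖x‖} g) {W : E3 → ℝ} (hW : ContDiff ℝ ∞ W)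
    {X : E3 → Cov} (hX : TestFieldX g X) {φ : ℝ → ℝ} {ρ r a b : ℝ} (hρ : 1 < ρ) (hρr : ρ < r)
    (hφ : Continuous φ) (hφ0 : ∀ t, 0 ≤ φ t) (hφ1 : ∀ t, φ t ≤ 1)
    (hza : ∀ t, t ≤ a → φ t = 0) (hzb : ∀ t, b ≤ t → φ t = 0)
    (h0 : ∀ x : E3, ‖x‖ = ρ → W x < a) (h1 : ∀ x : E3, ‖x‖ = r → b < W x) :
    ∫ x, zt W φ ρ r a b x * ∑ i, pd i (fun y => volDen g y * X y i) x
      ≤ ∫ x in cAnn ρ r ∩ {x | a ≤ W x ∧ W x < b}, ar g W x := by
  classical
  have hA := isCompact_cAnn ρ r
  have hAm : MeasurableSet (cAnn ρ r) := hA.measurableSet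
  have hzd := fun x => zt_deriv hW hφ hza hzb hρr h0 h1 x
  have hzdiff : ∀ x, DifferentiableAt ℝ (zt W φ ρ r a b) x := fun x => (hzd x).differentiableAt
  have hzc : Continuous (zt W φ ρ r a b) := by
    rw [continuous_iff_continuousAt]
    exact fun x => (hzdiff x).continuousAt
  have hpd : ∀ i x, fderiv ℝ (zt W φ ρ r a b) x (EuclideanSpace.single i 1)
      = (cAnn ρ r).indicator (fun x => -(φ (W x) * pd i W x)) x := by
    intro i x
    rw [(hzd x).fderiv]
    by_cases hx : x ∈ cAnn ρ r
    · rw [if_pos hx, Set.indicator_of_mem hx]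
      simp [pd]
    · rw [if_neg hx, Set.indicator_of_notMem hx]
      simp
  have hYc : ∀ i, Continuous (fun y => volDen g y * X y i) := fun i => (Y_smooth hg hX i).continuous
  -- integration by parts
  have hibp : ∀ i, ∫ x, zt W φ ρ r a b x * pd i (fun y => volDen g y * X y i) x
      = ∫ x in cAnn ρ r, φ (W x) * pd i W x * (volDen g x * X x i) := by
    intro i
    have i1 : Integrable (fun x => fderiv ℝ (zt W φ ρ r a b) x (EuclideanSpace.single i 1)
        * (volDen g x * X x i)) := by
      have h2 : (fun x => fderiv ℝ (zt W φ ρ r a b) x (EuclideanSpace.single i 1)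
          * (volDen g x * X x i)) = (cAnn ρ r).indicator
            (fun x => -(φ (W x) * pd i W x) * (volDen g x * X x i)) := by
        funext x
        rw [hpd i x]
        by_cases hx : x ∈ cAnn ρ r
        · rw [Set.indicator_of_mem hx, Set.indicator_of_mem hx]
        · rw [Set.indicator_of_notMem hx, Set.indicator_of_notMem hx, zero_mul]
      rw [h2]
      refine Integrable.indicator ?_ hAm
      refine Continuous.integrable_of_hasCompactSupport ?_ (Y_supp hX i).mul_left
      exact (((hφ.comp hW.continuous).mul (cont_pd hW i)).neg).mul (hYc i)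
    have i2 : Integrable (fun x => zt W φ ρ r a b x
        * fderiv ℝ (fun y => volDen g y * X y i) x (EuclideanSpace.single i 1)) := by
      refine Continuous.integrable_of_hasCompactSupport ?_ ?_
      · exact hzc.mul (cont_pd (Y_smooth hg hX i) i)
      · refine HasCompactSupport.mul_left ?_
        have h := (Y_supp hX i).fderiv (𝕜 := ℝ)
        refine h.mono ?_
        intro x hx
        rw [Function.mem_support] at hx ⊢
        intro h0
        apply hx
        rw [h0]
        simp
    have i3 : Integrable (fun x => zt W φ ρ r a b x * (volDen g x * X x i)) :=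
      Continuous.integrable_of_hasCompactSupport (hzc.mul (hYc i)) (Y_supp hX i).mul_left
    have h3 := integral_mul_fderiv_eq_neg_fderiv_mul_of_integrable i1 i2 i3
      (fun x _ => hzdiff x)
      (fun x _ => ((Y_smooth hg hX i).differentiable (by simp)).differentiableAt)
    have h4 : ∫ x, zt W φ ρ r a b x * pd i (fun y => volDen g y * X y i) x
        = -∫ x, fderiv ℝ (zt W φ ρ r a b) x (EuclideanSpace.single i 1)
        * (volDen g x * X x i) := h3
    rw [h4, ← integral_neg, ← integral_indicator hAm]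
    refine integral_congr_ae (Eventually.of_forall fun x => ?_)
    simp only
    rw [hpd i x]
    by_cases hx : x ∈ cAnn ρ r
    · rw [Set.indicator_of_mem hx, Set.indicator_of_mem hx]
      ring
    · rw [Set.indicator_of_notMem hx, Set.indicator_of_notMem hx]
      ring
  have hint : ∀ i, Integrable (fun x => zt W φ ρ r a b x
      * pd i (fun y => volDen g y * X y i) x) := by
    intro i
    refine Continuous.integrable_of_hasCompactSupport (hzc.mul (cont_pd (Y_smooth hg hX i) i)) ?_
    refine HasCompactSupport.mul_left ?_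
    have h := (Y_supp hX i).fderiv (𝕜 := ℝ)
    refine h.mono ?_
    intro x hx
    rw [Function.mem_support] at hx ⊢
    intro h0
    apply hx
    unfold pd
    rw [h0]
    simp
  have hint2 : ∀ i, IntegrableOn (fun x => φ (W x) * pd i W x * (volDen g x * X x i))
      (cAnn ρ r) := by
    intro i
    exact (((hφ.comp hW.continuous).mul (cont_pd hW i)).mul (hYc i)).continuousOn.integrableOn_compact
      hA
  have hsum : ∫ x, zt W φ ρ r a b x * ∑ i, pd i (fun y => volDen g y * X y i) x
      = ∫ x in cAnn ρ r, ∑ i, φ (W x) * pd i W x * (volDen g x * X x i) := by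
    rw [integral_finsetSum _ (fun i _ => hint2 i)]
    rw [← Finset.sum_congr rfl (fun i _ => hibp i), ← integral_finsetSum _ (fun i _ => hint i)]
    refine integral_congr_ae (Eventually.of_forall fun x => ?_)
    simp only
    rw [Finset.mul_sum]
  rw [hsum]
  have hBm : MeasurableSet {x | a ≤ W x ∧ W x < b} :=
    (measurableSet_le measurable_const hW.continuous.measurable).inter
      (measurableSet_lt hW.continuous.measurable measurable_const)
  have e2 : ∫ x in cAnn ρ r ∩ {x | a ≤ W x ∧ W x < b}, ar g W x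
      = ∫ x in cAnn ρ r, {x | a ≤ W x ∧ W x < b}.indicator (ar g W) x := by
    rw [setIntegral_indicator hBm]
  rw [e2]
  refine setIntegral_mono_on (integrable_finsetSum _ fun i _ => hint2 i)
    ((ar_int hg hW hρ).indicator hBm) hAm fun x hx => ?_
  have hx0 : 1 < ‖x‖ := hρ.trans_le hx.1
  have e3 : ∑ i, φ (W x) * pd i W x * (volDen g x * X x i)
      = φ (W x) * volDen g x * ∑ i, grad W x i * X x i := by
    rw [Finset.mul_sum]
    refine Finset.sum_congr rfl fun i _ => ?_
    unfold grad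
    ring
  rw [e3]
  have hv : 0 ≤ volDen g x := Real.sqrt_nonneg _
  by_cases hab : a ≤ W x ∧ W x < b
  · rw [Set.indicator_of_mem (show x ∈ {x | a ≤ W x ∧ W x < b} from hab)]
    have h5 : ∑ i, grad W x i * X x i ≤ len g x (grad W x) :=
      (le_abs_self _).trans (abs_le_len (hg.posDef x hx0) _ _ (hX.short x hx0))
    have h6 : 0 ≤ len g x (grad W x) := Real.sqrt_nonneg _
    calc φ (W x) * volDen g x * ∑ i, grad W x i * X x i
        ≤ φ (W x) * volDen g x * len g x (grad W x) :=
          mul_le_mul_of_nonneg_left h5 (mul_nonneg (hφ0 _) hv)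
      _ ≤ 1 * volDen g x * len g x (grad W x) := by
          refine mul_le_mul_of_nonneg_right (mul_le_mul_of_nonneg_right (hφ1 _) hv) h6
      _ = ar g W x := by unfold ar; ring
  · rw [Set.indicator_of_notMem (show x ∉ {x | a ≤ W x ∧ W x < b} from hab)]
    have h7 : φ (W x) = 0 := by
      rcases lt_or_ge (W x) a with h | h
      · exact hza _ h.le
      · exact hzb _ (not_lt.1 fun h' => hab ⟨h, h'⟩)
    rw [h7]
    simp

/-- The local estimate. -/
theorem local_left {g : TensorField} (hg : MetricOn {x : E3 | 1 < ‖x‖} g) {W : E3 → ℝ} (hW : ContDiff ℝ ∞ W)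
    {X : E3 → Cov} (hX : TestFieldX g X) {ρ r s₀ s₁ s A' : ℝ} (hρ : 1 < ρ) (hρr : ρ < r)
    (h0 : ∀ x : E3, ‖x‖ = ρ → W x < s₀) (h1 : ∀ x : E3, ‖x‖ = r → s₁ < W x) (hs0 : s₀ < s)
    (hs1 : s ≤ s₁) (hA0 : 0 ≤ A')
    (hA : A' < ∫ x in Us W ρ r s, ∑ i, pd i (fun y => volDen g y * X y i) x) :
    ∃ t, s₀ ≤ t ∧ t < s ∧ ∀ a, t ≤ a → a < s → A' * (s - a) ≤ jj g W ρ r a s := by
  have hDc := D_cont hg hX
  have hDi := D_int hg hX
  set D : E3 → ℝ := fun x => ∑ i, pd i (fun y => volDen g y * X y i) x with hD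
  have hUm : ∀ t, MeasurableSet (Us W ρ r t) := fun t => (isOpen_Us hW.continuous t).measurableSet
  -- the sets shrink to the empty set
  set T : ℕ → Set E3 := fun n => Us W ρ r s \ Us W ρ r (s - 1 / ((n : ℝ) + 1)) with hT
  have hTm : ∀ n, MeasurableSet (T n) := fun n => (hUm _).diff (hUm _)
  have hTa : Antitone T := by
    intro m n hmn
    refine Set.sdiff_subset_sdiff_right (Us_mono ?_)
    have h2 : 1 / ((n : ℝ) + 1) ≤ 1 / ((m : ℝ) + 1) :=
      one_div_le_one_div_of_le (by positivity) (by exact_mod_cast Nat.succ_le_succ hmn)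
    linarith
  have hTi : ⋂ n, T n = ∅ := by
    rw [Set.eq_empty_iff_forall_notMem]
    intro x hx
    rw [Set.mem_iInter] at hx
    have hx0 := hx 0
    rcases hx0.1 with h | h
    · exact hx0.2 (Or.inl h)
    · obtain ⟨n, hn⟩ := exists_nat_one_div_lt (sub_pos.2 h.2)
      refine (hx n).2 (Or.inr ⟨h.1, ?_⟩)
      linarith
  have hlim := tendsto_setIntegral_of_antitone (μ := volume) hTm hTa
    ⟨0, (hDi.norm.integrableOn (s := T 0))⟩
  rw [hTi, Measure.restrict_empty, integral_zero_measure] at hlim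
  have hgap : 0 < (∫ x in Us W ρ r s, D x) - A' := sub_pos.2 hA
  obtain ⟨n, hn⟩ := (hlim.eventually (gt_mem_nhds hgap)).exists
  have hnp : (0 : ℝ) < 1 / ((n : ℝ) + 1) := by positivity
  refine ⟨max s₀ (s - 1 / ((n : ℝ) + 1)), le_max_left _ _, max_lt hs0 (by linarith), ?_⟩
  intro a ha has
  have ha0 : s₀ ≤ a := (le_max_left _ _).trans ha
  have han : s - 1 / ((n : ℝ) + 1) ≤ a := (le_max_right _ _).trans ha
  refine le_of_forall_pos_le_add fun ε hε => ?_
  set κ : ℝ := min ((s - a) / 4) (ε / (2 * (A' + 1))) with hκ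
  have hκ0 : 0 < κ := lt_min (by linarith) (by positivity)
  have hκ1 : κ ≤ (s - a) / 4 := min_le_left _ _
  have hκ2 : κ ≤ ε / (2 * (A' + 1)) := min_le_right _ _
  have hφ0 : ∀ t, 0 ≤ trap a s κ t := fun t => le_max_left _ _
  have hφ1 : ∀ t, trap a s κ t ≤ 1 := fun t => max_le zero_le_one (min_le_left _ _)
  have hza : ∀ t, t ≤ a → trap a s κ t = 0 := by
    intro t ht
    unfold trap
    refine max_eq_left ((min_le_right _ _).trans ((min_le_left _ _).trans ?_))
    exact div_nonpos_of_nonpos_of_nonneg (by linarith) hκ0.le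
  have hzb : ∀ t, s ≤ t → trap a s κ t = 0 := by
    intro t ht
    unfold trap
    refine max_eq_left ((min_le_right _ _).trans ((min_le_right _ _).trans ?_))
    exact div_nonpos_of_nonpos_of_nonneg (by linarith) hκ0.le
  have hc := trap_cont a s κ
  have hfl := flux_le hg hW hX hρ hρr hc hφ0 hφ1 hza hzb
    (fun x hx => (h0 x hx).trans_le ha0) (fun x hx => hs1.trans_lt (h1 x hx))
  set I : ℝ := prim (trap a s κ) s a with hI
  have hI0 : 0 ≤ I := prim_nonneg hφ0 hzb a
  have hI1 : s - a - 2 * κ ≤ I := trap_prim hκ0 (by linarith)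
  -- lower bound of the integral
  have hlow : I * A' ≤ ∫ x, zt W (trap a s κ) ρ r a s x * D x := by
    have b1 : I * A' ≤ I * ((∫ x in Us W ρ r s, D x) - ∫ x in T n, ‖D x‖) := by
      refine mul_le_mul_of_nonneg_left ?_ hI0
      linarith
    have b2 : I * ((∫ x in Us W ρ r s, D x) - ∫ x in T n, ‖D x‖)
        = ∫ x, (I * (Us W ρ r s).indicator D x - I * (T n).indicator (fun x => ‖D x‖) x) := by
      rw [integral_sub ((hDi.indicator (hUm s)).const_mul I)
        ((hDi.norm.indicator (hTm n)).const_mul I), integral_const_mul, integral_const_mul,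
        integral_indicator (hUm s), integral_indicator (hTm n)]
      ring
    rw [b2] at b1
    refine b1.trans ?_
    have hzd := fun x => zt_deriv hW hc hza hzb hρr
      (fun x hx => (h0 x hx).trans_le ha0) (fun x hx => hs1.trans_lt (h1 x hx)) x
    have hzc : Continuous (zt W (trap a s κ) ρ r a s) := by
      classical
      rw [continuous_iff_continuousAt]
      exact fun x => (hzd x).differentiableAt.continuousAt
    have hDcs : HasCompactSupport D := by
      have h2 : ∀ i, HasCompactSupport (fun x => pd i (fun y => volDen g y * X y i) x) := by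
        intro i
        have h := (Y_supp hX i).fderiv (𝕜 := ℝ)
        refine h.mono ?_
        intro x hx
        rw [Function.mem_support] at hx ⊢
        intro h0
        apply hx
        unfold pd
        rw [h0]
        simp
      have h3 : D = fun x => pd 0 (fun y => volDen g y * X y 0) x
          + pd 1 (fun y => volDen g y * X y 1) x + pd 2 (fun y => volDen g y * X y 2) x := by
        funext x
        rw [hD]
        simp only [Fin.sum_univ_three]
      rw [h3]
      exact ((h2 0).add (h2 1)).add (h2 2)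
    refine integral_mono_ae (((hDi.indicator (hUm s)).const_mul I).sub
      ((hDi.norm.indicator (hTm n)).const_mul I))
      ((hzc.mul hDc).integrable_of_hasCompactSupport hDcs.mul_left) ?_
    refine Eventually.of_forall fun x => ?_
    simp only
    have hzz : 0 ≤ zt W (trap a s κ) ρ r a s x ∧ zt W (trap a s κ) ρ r a s x ≤ I := by
      unfold zt
      split_ifs with c1 c2
      · exact ⟨hI0, le_rfl⟩
      · refine ⟨prim_nonneg hφ0 hzb _, ?_⟩
        rcases le_total (W x) a with h | h
        · rw [prim_le hc hza h]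
        · exact prim_anti hc hφ0 h
      · exact ⟨le_rfl, hI0⟩
    by_cases hxs : x ∈ Us W ρ r s
    · rw [Set.indicator_of_mem hxs]
      by_cases hxa : x ∈ Us W ρ r a
      · have e : zt W (trap a s κ) ρ r a s x = I := by
          unfold zt
          rcases hxa with h | h
          · rw [if_pos h]
          · split_ifs with c1 c2
            · rfl
            · exact prim_le hc hza h.2.le
            · exact absurd h.1 c2
        rw [e]
        have h2 : 0 ≤ I * (T n).indicator (fun x => ‖D x‖) x :=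
          mul_nonneg hI0 (Set.indicator_nonneg (fun _ _ => norm_nonneg _) _)
        linarith
      · have hxT : x ∈ T n := ⟨hxs, fun h => hxa (Us_mono han h)⟩
        rw [Set.indicator_of_mem hxT]
        have h2 : -|D x| ≤ D x := neg_abs_le _
        have h3 : D x ≤ |D x| := le_abs_self _
        have h4 : I * D x - I * ‖D x‖ ≤ zt W (trap a s κ) ρ r a s x * D x := by
          rw [Real.norm_eq_abs]
          rcases le_total 0 (D x) with h | h
          · rw [abs_of_nonneg h]
            have := mul_nonneg hzz.1 h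
            linarith
          · rw [abs_of_nonpos h]
            nlinarith [mul_le_mul_of_nonpos_right hzz.2 h, mul_nonneg hI0 (neg_nonneg.2 h)]
        exact h4
    · rw [Set.indicator_of_notMem hxs]
      have hxT : x ∉ T n := fun h => hxs h.1
      rw [Set.indicator_of_notMem hxT]
      have e : zt W (trap a s κ) ρ r a s x = 0 := by
        unfold zt
        split_ifs with c1 c2
        · exact absurd (Or.inl c1) hxs
        · refine prim_ge hzb ?_
          by_contra h
          exact hxs (Or.inr ⟨c2, not_le.1 h⟩)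
        · rfl
      rw [e]
      simp
  have hJ : I * A' ≤ jj g W ρ r a s := hlow.trans hfl
  have hA1 : (s - a - 2 * κ) * A' ≤ I * A' := mul_le_mul_of_nonneg_right hI1 hA0
  have hA2 : 2 * κ * A' ≤ ε := by
    have h2 : 2 * κ * A' ≤ 2 * (ε / (2 * (A' + 1))) * A' := by
      refine mul_le_mul_of_nonneg_right ?_ hA0
      linarith
    have h3 : 2 * (ε / (2 * (A' + 1))) * A' = ε * (A' / (A' + 1)) := by
      field_simp
    have h4 : A' / (A' + 1) ≤ 1 := by
      rw [div_le_one (by linarith)]
      linarith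
    have h5 : ε * (A' / (A' + 1)) ≤ ε * 1 := mul_le_mul_of_nonneg_left h4 hε.le
    linarith
  nlinarith

theorem jj_add {g : TensorField} (hg : MetricOn {x : E3 | 1 < ‖x‖} g) {W : E3 → ℝ} (hW : ContDiff ℝ ∞ W)
    {ρ r a b c : ℝ} (hρ : 1 < ρ) (hab : a ≤ b) (hbc : b ≤ c) :
    jj g W ρ r a c = jj g W ρ r a b + jj g W ρ r b c := by
  have hAm : MeasurableSet (cAnn ρ r) := (isCompact_cAnn ρ r).measurableSet
  have hBm : ∀ a b : ℝ, MeasurableSet {x | a ≤ W x ∧ W x < b} := fun a b =>
    (measurableSet_le measurable_const hW.continuous.measurable).inter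
      (measurableSet_lt hW.continuous.measurable measurable_const)
  unfold jj
  have h1 : cAnn ρ r ∩ {x | a ≤ W x ∧ W x < c}
      = (cAnn ρ r ∩ {x | a ≤ W x ∧ W x < b}) ∪ (cAnn ρ r ∩ {x | b ≤ W x ∧ W x < c}) := by
    ext x
    constructor
    · rintro ⟨h2, h3, h4⟩
      rcases lt_or_ge (W x) b with h | h
      · exact Or.inl ⟨h2, h3, h⟩
      · exact Or.inr ⟨h2, h, h4⟩
    · rintro (⟨h2, h3, h4⟩ | ⟨h2, h3, h4⟩)
      · exact ⟨h2, h3, h4.trans_le hbc⟩
      · exact ⟨h2, hab.trans h3, h4⟩
  rw [h1]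
  refine setIntegral_union ?_ (hAm.inter (hBm b c)) ((ar_int hg hW hρ).mono_set
    Set.inter_subset_left) ((ar_int hg hW hρ).mono_set Set.inter_subset_left)
  rw [Set.disjoint_left]
  intro x hx hx'
  exact absurd hx'.2.1 (not_le.2 hx.2.2)

end XPERAaux

open PERAaux (ar_nonneg isCompact_cAnn jj jj_nonneg chain)
open XPERAaux

/-- XPERA: perimeter of the sublevel sets of a smooth function. -/
theorem XPERA : Stmt_XPERA := by
  intro g W ρ r s₀ s₁ hg hρ hρr hs hW h0 h1 hfin A hA
  have h0' : ∀ x : E3, ‖x‖ = ρ → W x < s₀ := fun x hx =>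
    h0 x ⟨hx.ge, by rw [hx]; exact hρr.le⟩ hx
  have h1' : ∀ x : E3, ‖x‖ = r → s₁ < W x := fun x hx =>
    h1 x ⟨by rw [hx]; exact hρr.le, hx.le⟩ hx
  have hRHS : 0 ≤ ∫ x in cAnn ρ r ∩ {x | s₀ ≤ W x ∧ W x ≤ s₁}, len g x (grad W x) * volDen g x :=
    integral_nonneg fun x => ar_nonneg g W x
  have hAm : MeasurableSet (cAnn ρ r) := (isCompact_cAnn ρ r).measurableSet
  have hJR : jj g W ρ r s₀ s₁
      ≤ ∫ x in cAnn ρ r ∩ {x | s₀ ≤ W x ∧ W x ≤ s₁}, len g x (grad W x) * volDen g x := by
    unfold jj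
    refine setIntegral_mono_set ((ar_int hg hW hρ).mono_set Set.inter_subset_left)
      (Eventually.of_forall fun x => ar_nonneg g W x) ?_
    refine (HasSubset.Subset.eventuallyLE ?_)
    exact Set.inter_subset_inter_right _ fun x hx => ⟨hx.1, hx.2.le⟩
  rcases le_or_gt A 0 with hA0 | hA0
  · have : A * (s₁ - s₀) ≤ 0 := mul_nonpos_of_nonpos_of_nonneg hA0 (by linarith)
    linarith
  by_contra hcon
  rw [not_le] at hcon
  set R : ℝ := ∫ x in cAnn ρ r ∩ {x | s₀ ≤ W x ∧ W x ≤ s₁}, len g x (grad W x) * volDen g x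
    with hR
  have hd : 0 < s₁ - s₀ := sub_pos.2 hs
  set A' : ℝ := (A + R / (s₁ - s₀)) / 2 with hA'
  have hq : R / (s₁ - s₀) < A := by
    rw [div_lt_iff₀ hd]
    exact hcon
  have hq0 : 0 ≤ R / (s₁ - s₀) := div_nonneg hRHS hd.le
  have hA'0 : 0 ≤ A' := by
    rw [hA']
    linarith
  have hA'A : A' < A := by
    rw [hA']
    linarith
  have hch : A' * (s₁ - s₀) ≤ jj g W ρ r s₀ s₁ := by
    refine chain hs.le hA'0 (fun a b => jj_nonneg g W ρ r a b)
      (fun a b c hab hbc => jj_add hg hW hρ hab hbc) hfin ?_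
    intro s hs0 hs1 hsC
    have hreg : ∀ x ∈ cAnn ρ r, W x = s → fderiv ℝ W x ≠ 0 := fun x hx hxs hd0 =>
      hsC ⟨hs0.le, hs1, x, hx, hxs, hd0⟩
    have hsep := encloses_Us hW hρ hρr h0 h1 hs0.le hs1 hreg
    have hlt : ENNReal.ofReal A' < perimeterX g (Us W ρ r s) :=
      lt_of_lt_of_le ((ENNReal.ofReal_lt_ofReal_iff_of_nonneg hA'0).2 hA'A) (hA _ hsep)
    unfold perimeterX at hlt
    rw [lt_iSup_iff] at hlt
    obtain ⟨X, hlt⟩ := hlt
    rw [lt_iSup_iff] at hlt
    obtain ⟨hX, hlt⟩ := hlt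
    rw [ENNReal.ofReal_lt_ofReal_iff_of_nonneg hA'0] at hlt
    obtain ⟨t, ht0, hts, ht⟩ := local_left hg hW hX hρ hρr h0' h1' hs0 hs1 hA'0 hlt
    exact ⟨t, ht0, hts, ht t le_rfl hts⟩
  have h5 : A' * (s₁ - s₀) = (A * (s₁ - s₀) + R) / 2 := by
    rw [hA']
    field_simp
  linarith

end Pool.Agent.PFlow
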